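import Pool.Agent.Work.MP_d4a230_co.U.SDefs

-- merged part: Pool.Agent.Work.MP_d4a230_co.U.Inst
section
/-!
Instances of `ConvexDensity`: complete bipartite graphs and even cycles.
-/

namespace Pool.Agent.Work.MP_d4a230_co

open Finset

namespace Inst

theorem homDensity_eq {W ι : Type} [Fintype W] [DecidableEq W] [Fintype ι] (H : SimpleGraph W)
    (φ : ι → Sym2 W) (hφ : Function.Injective φ) (hr : ∀ e, e ∈ H.edgeSet ↔ ∃ i, φ i = e)
    (m : ℕ) (w : Sym2 (Fin m) → ℝ) :
    homDensity H m w
      = (∑ x : W → Fin m, ∏ i, w ((φ i).map x)) / (m : ℝ) ^ Fintype.card W := by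
  unfold homDensity
  congr 1
  refine Finset.sum_congr (by ext; simp) fun x _ => ?_
  symm
  refine Finset.prod_bij (fun i _ => φ i) ?_ ?_ ?_ ?_
  · intro i _
    simp only [SimpleGraph.mem_edgeFinset]
    exact (hr _).2 ⟨i, rfl⟩
  · intro i _ j _ h
    exact hφ h
  · intro e he
    simp only [SimpleGraph.mem_edgeFinset] at he
    obtain ⟨i, hi⟩ := (hr e).1 he
    exact ⟨i, Finset.mem_univ _, hi⟩
  · intro i _
    rfl

theorem convex_nonneg (ι : Type) : Convex ℝ {w : ι → ℝ | ∀ e, 0 ≤ w e} := by
  intro u hu w hw a b ha hb _ e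
  have h1 := hu e
  have h2 := hw e
  simp only [Pi.add_apply, Pi.smul_apply, smul_eq_mul]
  positivity

theorem convexOn_of_eq {ι : Type} (F T : (ι → ℝ) → ℝ) (c : ℝ) (hc : 0 ≤ c)
    (hF : ∀ w, F w = T w / c)
    (hT : ∀ u w : ι → ℝ, (∀ e, 0 ≤ u e) → (∀ e, 0 ≤ w e) → ∀ a b : ℝ, 0 ≤ a → 0 ≤ b →
      a + b = 1 → T (a • u + b • w) ≤ a * T u + b * T w) :
    ConvexOn ℝ {w : ι → ℝ | ∀ e, 0 ≤ w e} F := by
  refine ⟨convex_nonneg ι, fun u hu w hw a b ha hb hab => ?_⟩
  rw [hF, hF, hF]
  have h := div_le_div_of_nonneg_right (hT u w hu hw a b ha hb hab) hc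
  simp only [smul_eq_mul]
  calc _ ≤ _ := h
    _ = _ := by ring

/-! ### Complete bipartite graphs -/

theorem amgm {B : Type} [Fintype B] [Nonempty B] (g : B → ℝ) (hg : ∀ b, 0 ≤ g b) :
    (Fintype.card B : ℝ) * ∏ b, g b ≤ ∑ b, g b ^ Fintype.card B := by
  have ht : Fintype.card B ≠ 0 := Fintype.card_ne_zero
  have htR : (0 : ℝ) < Fintype.card B := by exact_mod_cast Nat.pos_of_ne_zero ht
  have h := Real.geom_mean_le_arith_mean_weighted (Finset.univ : Finset B)
    (fun _ => ((Fintype.card B : ℝ))⁻¹) (fun b => g b ^ Fintype.card B)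
    (fun _ _ => by positivity)
    (by rw [Finset.sum_const, Finset.card_univ, nsmul_eq_mul]; exact mul_inv_cancel₀ htR.ne')
    (fun b _ => pow_nonneg (hg b) _)
  have e1 : ∏ b, (g b ^ Fintype.card B) ^ ((Fintype.card B : ℝ))⁻¹ = ∏ b, g b :=
    Finset.prod_congr rfl fun b _ => Real.pow_rpow_inv_natCast (hg b) ht
  rw [e1, ← Finset.mul_sum] at h
  calc _ ≤ (Fintype.card B : ℝ) * (((Fintype.card B : ℝ))⁻¹ * ∑ b, g b ^ Fintype.card B) :=
        mul_le_mul_of_nonneg_left h htR.le
    _ = _ := by rw [← mul_assoc, mul_inv_cancel₀ htR.ne', one_mul]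

/-- Coloured count of a complete bipartite graph. -/
noncomputable def col {A B V : Type} [Fintype A] [Fintype B] [Fintype V] [DecidableEq A]
    [DecidableEq B] (χ : A → B → V → V → ℝ) : ℝ :=
  ∑ x : A → V, ∑ y : B → V, ∏ a, ∏ b, χ a b (x a) (y b)

section
variable {A B V : Type} [Fintype A] [Fintype B] [Fintype V] [DecidableEq A] [DecidableEq B]

theorem col_eq (χ : A → B → V → V → ℝ) :
    col χ = ∑ x : A → V, ∏ b, ∑ v : V, ∏ a, χ a b (x a) v := by
  unfold col
  refine Finset.sum_congr rfl fun x _ => ?_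
  rw [Finset.prod_univ_sum]
  simp only [Fintype.piFinset_univ]
  refine Finset.sum_congr rfl fun y _ => ?_
  exact Finset.prod_comm

theorem col_swap (χ : A → B → V → V → ℝ) :
    col χ = col (fun b a v u => χ a b u v) := by
  unfold col
  rw [Finset.sum_comm]
  refine Finset.sum_congr rfl fun y _ => Finset.sum_congr rfl fun x _ => ?_
  exact Finset.prod_comm

theorem col_right [Nonempty B] (χ : A → B → V → V → ℝ) (hχ : ∀ a b u v, 0 ≤ χ a b u v) :
    (Fintype.card B : ℝ) * col χ ≤ ∑ b, col (fun a (_ : B) => χ a b) := by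
  simp only [col_eq]
  rw [Finset.sum_comm, Finset.mul_sum]
  refine Finset.sum_le_sum fun x _ => ?_
  have h := amgm (fun b => ∑ v : V, ∏ a, χ a b (x a) v)
    (fun b => Finset.sum_nonneg fun v _ => Finset.prod_nonneg fun a _ => hχ _ _ _ _)
  refine h.trans (le_of_eq ?_)
  refine Finset.sum_congr rfl fun b _ => ?_
  rw [Finset.prod_const, Finset.card_univ]

theorem col_left [Nonempty A] (χ : A → B → V → V → ℝ) (hχ : ∀ a b u v, 0 ≤ χ a b u v) :
    (Fintype.card A : ℝ) * col χ ≤ ∑ a, col (fun (_ : A) b => χ a b) := by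
  rw [col_swap]
  refine (col_right _ fun b a v u => hχ a b u v).trans (le_of_eq ?_)
  refine Finset.sum_congr rfl fun a _ => ?_
  rw [col_swap]

theorem col_both [Nonempty A] [Nonempty B] (χ : A → B → V → V → ℝ)
    (hχ : ∀ a b u v, 0 ≤ χ a b u v) :
    (Fintype.card A : ℝ) * (Fintype.card B : ℝ) * col χ
      ≤ ∑ p : A × B, col (fun (_ : A) (_ : B) => χ p.1 p.2) := by
  have h1 := col_right χ hχ
  have h2 : ∀ b, (Fintype.card A : ℝ) * col (fun a (_ : B) => χ a b)
      ≤ ∑ a, col (fun (_ : A) (_ : B) => χ a b) := fun b =>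
    col_left (fun a (_ : B) => χ a b) fun a _ u v => hχ a b u v
  have hA : (0 : ℝ) ≤ Fintype.card A := Nat.cast_nonneg _
  calc _ = (Fintype.card A : ℝ) * ((Fintype.card B : ℝ) * col χ) := by ring
    _ ≤ (Fintype.card A : ℝ) * ∑ b, col (fun a (_ : B) => χ a b) :=
        mul_le_mul_of_nonneg_left h1 hA
    _ = ∑ b, (Fintype.card A : ℝ) * col (fun a (_ : B) => χ a b) := Finset.mul_sum _ _ _
    _ ≤ ∑ b, ∑ a, col (fun (_ : A) (_ : B) => χ a b) := Finset.sum_le_sum fun b _ => h2 b
    _ = _ := by rw [Fintype.sum_prod_type, Finset.sum_comm]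

theorem col_ite (a0 : A) (b0 : B) (u m : V → V → ℝ) :
    col (fun a b => if (a, b) = (a0, b0) then u else m)
      = ∑ x : A → V, ∑ y : B → V, u (x a0) (y b0) *
          ∏ p ∈ (Finset.univ : Finset (A × B)).erase (a0, b0), m (x p.1) (y p.2) := by
  unfold col
  refine Finset.sum_congr rfl fun x _ => Finset.sum_congr rfl fun y _ => ?_
  rw [← Fintype.prod_prod_type' (fun a b => (if (a, b) = (a0, b0) then u else m) (x a) (y b)),
    ← Finset.mul_prod_erase _ _ (Finset.mem_univ (a0, b0))]
  simp only [if_true]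
  congr 1
  refine Finset.prod_congr rfl fun p hp => ?_
  rw [if_neg (Finset.ne_of_mem_erase hp)]

theorem col_convex [Nonempty A] [Nonempty B] (u w : V → V → ℝ) (hu : ∀ x y, 0 ≤ u x y)
    (hw : ∀ x y, 0 ≤ w x y) (α β : ℝ) (hα : 0 ≤ α) (hβ : 0 ≤ β) (h : α + β = 1) :
    col (fun (_ : A) (_ : B) x y => α * u x y + β * w x y)
      ≤ α * col (fun (_ : A) (_ : B) => u) + β * col (fun (_ : A) (_ : B) => w) := by
  obtain ⟨a0⟩ := ‹Nonempty A›
  obtain ⟨b0⟩ := ‹Nonempty B›
  set m : V → V → ℝ := fun x y => α * u x y + β * w x y with hm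
  have hm0 : ∀ x y, 0 ≤ m x y := fun x y => by
    have := hu x y
    have := hw x y
    simp only [hm]
    positivity
  have key : ∀ z : V → V → ℝ, (∀ x y, 0 ≤ z x y) →
      (Fintype.card A : ℝ) * (Fintype.card B : ℝ)
          * col (fun a b => if (a, b) = (a0, b0) then z else m)
        ≤ col (fun (_ : A) (_ : B) => z)
          + ((Fintype.card A : ℝ) * (Fintype.card B : ℝ) - 1) * col (fun (_ : A) (_ : B) => m) := by
    intro z hz
    have h1 := col_both (fun a b => if (a, b) = (a0, b0) then z else m) (fun a b x y => by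
      by_cases hab : (a, b) = (a0, b0)
      · simp only [if_pos hab]; exact hz x y
      · simp only [if_neg hab]; exact hm0 x y)
    refine h1.trans (le_of_eq ?_)
    rw [← Finset.add_sum_erase _ _ (Finset.mem_univ (a0, b0))]
    simp only [if_true]
    congr 1
    rw [Finset.sum_congr rfl (g := fun _ => col (fun (_ : A) (_ : B) => m))]
    · rw [Finset.sum_const, Finset.card_erase_of_mem (Finset.mem_univ _), Finset.card_univ,
        Fintype.card_prod, nsmul_eq_mul, Nat.cast_sub]
      · push_cast; ring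
      · exact Nat.mul_pos Fintype.card_pos Fintype.card_pos
    · intro p hp
      have hp' : (p.1, p.2) ≠ (a0, b0) := Finset.ne_of_mem_erase hp
      simp only [if_neg hp']
  have lin : col (fun (_ : A) (_ : B) => m)
      = α * col (fun a b => if (a, b) = (a0, b0) then u else m)
        + β * col (fun a b => if (a, b) = (a0, b0) then w else m) := by
    have e0 : col (fun (_ : A) (_ : B) => m)
        = col (fun a b => if (a, b) = (a0, b0) then m else m) := by
      simp only [ite_self]
    rw [e0, col_ite, col_ite, col_ite, Finset.mul_sum, Finset.mul_sum, ← Finset.sum_add_distrib]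
    refine Finset.sum_congr rfl fun x _ => ?_
    rw [Finset.mul_sum, Finset.mul_sum, ← Finset.sum_add_distrib]
    refine Finset.sum_congr rfl fun y _ => ?_
    simp only [hm]
    ring
  have k1 := mul_le_mul_of_nonneg_left (key u hu) hα
  have k2 := mul_le_mul_of_nonneg_left (key w hw) hβ
  set k : ℝ := (Fintype.card A : ℝ) * (Fintype.card B : ℝ)
  set Tm := col (fun (_ : A) (_ : B) => m)
  have e1 : α * ((k - 1) * Tm) + β * ((k - 1) * Tm) = (k - 1) * Tm := by
    rw [← add_mul, h, one_mul]
  have e2 : k * Tm = α * (k * col (fun a b => if (a, b) = (a0, b0) then u else m))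
      + β * (k * col (fun a b => if (a, b) = (a0, b0) then w else m)) := by
    rw [lin]; ring
  nlinarith [k1, k2, e1, e2]

theorem col_convex' (u w : V → V → ℝ) (hu : ∀ x y, 0 ≤ u x y)
    (hw : ∀ x y, 0 ≤ w x y) (α β : ℝ) (hα : 0 ≤ α) (hβ : 0 ≤ β) (h : α + β = 1) :
    col (fun (_ : A) (_ : B) x y => α * u x y + β * w x y)
      ≤ α * col (fun (_ : A) (_ : B) => u) + β * col (fun (_ : A) (_ : B) => w) := by
  rcases isEmpty_or_nonempty A with hA | hA
  · simp only [col, Finset.univ_eq_empty (α := A), Finset.prod_empty]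
    rw [← add_mul, h, one_mul]
  rcases isEmpty_or_nonempty B with hB | hB
  · simp only [col, Finset.univ_eq_empty (α := B), Finset.prod_empty]
    rw [← add_mul, h, one_mul]
  exact col_convex u w hu hw α β hα hβ h

end

/-! ### Even cycles -/

section
variable {V : Type} [Fintype V] [DecidableEq V]

theorem pow_apply_sum (M : Matrix V V ℝ) (k : ℕ) (a b : V) :
    (M ^ (k + 1)) a b = ∑ z : Fin k → V, ∏ i : Fin (k + 1),
      M ((Fin.cons a z : Fin (k + 1) → V) i) ((Fin.snoc z b : Fin (k + 1) → V) i) := by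
  induction k generalizing a with
  | zero =>
    rw [pow_succ, pow_zero, one_mul, Fintype.sum_unique, Fin.prod_univ_succ]
    simp only [Fin.cons_zero, Finset.univ_eq_empty, Finset.prod_empty, mul_one]
    rfl
  | succ k ih =>
    rw [pow_succ', Matrix.mul_apply]
    rw [← (Fin.consEquiv (fun _ : Fin (k + 1) => V)).sum_comp, Fintype.sum_prod_type]
    refine Finset.sum_congr rfl fun c _ => ?_
    rw [ih, Finset.mul_sum]
    refine Finset.sum_congr rfl fun z _ => ?_
    rw [Fin.prod_univ_succ (n := k + 1)]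
    have e : (Fin.consEquiv (fun _ : Fin (k + 1) => V)) (c, z) = Fin.cons c z := rfl
    rw [e, ← Fin.cons_snoc_eq_snoc_cons]
    simp only [Fin.cons_zero, Fin.cons_succ]

theorem trace_pow_sum (M : Matrix V V ℝ) (k : ℕ) :
    (M ^ (k + 1)).trace = ∑ x : Fin (k + 1) → V, ∏ i, M (x i) (x (i + 1)) := by
  rw [← (Fin.consEquiv (fun _ : Fin (k + 1) => V)).sum_comp, Fintype.sum_prod_type]
  unfold Matrix.trace
  refine Finset.sum_congr rfl fun a _ => ?_
  rw [Matrix.diag_apply, pow_apply_sum]
  refine Finset.sum_congr rfl fun z _ => Finset.prod_congr rfl fun i _ => ?_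
  have e : (Fin.consEquiv (fun _ : Fin (k + 1) => V)) (a, z) = Fin.cons a z := rfl
  rw [e]
  congr 1
  refine Fin.lastCases ?_ (fun j => ?_) i
  · rw [Fin.last_add_one, Fin.snoc_last, Fin.cons_zero]
  · rw [Fin.coeSucc_eq_succ, Fin.snoc_castSucc, Fin.cons_succ]

theorem exists_diag (M : Matrix V V ℝ) (hM : ∀ a b, M a b = M b a) :
    ∃ (P : Matrix V V ℝ) (d : V → ℝ), P * P.transpose = 1 ∧ P.transpose * P = 1 ∧
      M = P * Matrix.diagonal d * P.transpose := by
  have hH : M.IsHermitian := by
    ext a b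
    simp [Matrix.conjTranspose_apply, hM a b]
  have hs := hH.spectral_theorem
  rw [Unitary.conjStarAlgAut_apply] at hs
  have ht : star (hH.eigenvectorUnitary : Matrix V V ℝ)
      = (hH.eigenvectorUnitary : Matrix V V ℝ).transpose := by
    ext a b
    simp [Matrix.star_apply]
  refine ⟨hH.eigenvectorUnitary, hH.eigenvalues, ?_, ?_, ?_⟩
  · rw [← ht]; exact Unitary.coe_mul_star_self _
  · rw [← ht]; exact Unitary.coe_star_mul_self _
  · rw [← ht]; simpa using hs

theorem conj_pow (P D : Matrix V V ℝ) (h1 : P * P.transpose = 1) (h2 : P.transpose * P = 1)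
    (n : ℕ) : (P * D * P.transpose) ^ n = P * D ^ n * P.transpose := by
  induction n with
  | zero => simp [h1]
  | succ n ih =>
    rw [pow_succ, ih, pow_succ]
    calc P * D ^ n * P.transpose * (P * D * P.transpose)
        = P * D ^ n * (P.transpose * P) * D * P.transpose := by simp only [Matrix.mul_assoc]
      _ = _ := by rw [h2]; simp only [Matrix.mul_assoc, Matrix.mul_one]

theorem trace_conj_pow (P : Matrix V V ℝ) (d : V → ℝ) (h1 : P * P.transpose = 1)
    (h2 : P.transpose * P = 1) (n : ℕ) :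
    ((P * Matrix.diagonal d * P.transpose) ^ n).trace = ∑ i, d i ^ n := by
  rw [conj_pow P _ h1 h2, Matrix.trace_mul_comm, ← Matrix.mul_assoc, h2, Matrix.one_mul,
    Matrix.diagonal_pow, Matrix.trace_diagonal]
  rfl

/-- Peierls' inequality for even powers. -/
theorem peierls (U Q : Matrix V V ℝ) (hU : ∀ a b, U a b = U b a) (q1 : Q * Q.transpose = 1)
    (q2 : Q.transpose * Q = 1) (n : ℕ) (hn : Even n) :
    ∑ i, ((Q.transpose * U * Q) i i) ^ n ≤ (U ^ n).trace := by
  obtain ⟨P, d, p1, p2, hP⟩ := exists_diag U hU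
  set R : Matrix V V ℝ := Q.transpose * P with hR
  have r1 : R * R.transpose = 1 := by
    rw [hR, Matrix.transpose_mul, Matrix.transpose_transpose]
    calc Q.transpose * P * (P.transpose * Q) = Q.transpose * (P * P.transpose) * Q := by
          simp only [Matrix.mul_assoc]
      _ = 1 := by rw [p1, Matrix.mul_one, q2]
  have r2 : R.transpose * R = 1 := by
    rw [hR, Matrix.transpose_mul, Matrix.transpose_transpose]
    calc P.transpose * Q * (Q.transpose * P) = P.transpose * (Q * Q.transpose) * P := by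
          simp only [Matrix.mul_assoc]
      _ = 1 := by rw [q1, Matrix.mul_one, p2]
  have row : ∀ i, ∑ j, R i j * R i j = 1 := fun i => by
    have := congrFun (congrFun r1 i) i
    simpa [Matrix.mul_apply] using this
  have cl : ∀ j, ∑ i, R i j * R i j = 1 := fun j => by
    have := congrFun (congrFun r2 j) j
    simpa [Matrix.mul_apply] using this
  have e : Q.transpose * U * Q = R * Matrix.diagonal d * R.transpose := by
    rw [hP, hR, Matrix.transpose_mul, Matrix.transpose_transpose]
    simp only [Matrix.mul_assoc]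
  have e2 : ∀ i, (Q.transpose * U * Q) i i = ∑ j, (R i j * R i j) • d j := fun i => by
    rw [e, Matrix.mul_apply]
    refine Finset.sum_congr rfl fun j _ => ?_
    rw [Matrix.mul_diagonal, Matrix.transpose_apply, smul_eq_mul]
    ring
  have jen : ∀ i, ((Q.transpose * U * Q) i i) ^ n ≤ ∑ j, (R i j * R i j) * d j ^ n := fun i => by
    rw [e2]
    exact (hn.convexOn_pow (𝕜 := ℝ)).map_sum_le (fun j _ => mul_self_nonneg _) (row i)
      (fun j _ => Set.mem_univ _)
  calc _ ≤ ∑ i, ∑ j, (R i j * R i j) * d j ^ n := Finset.sum_le_sum fun i _ => jen i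
    _ = ∑ j, d j ^ n := by
        rw [Finset.sum_comm]
        refine Finset.sum_congr rfl fun j _ => ?_
        rw [← Finset.sum_mul, cl, one_mul]
    _ = _ := by rw [hP, trace_conj_pow P d p1 p2]

theorem trace_pow_convex (U W : Matrix V V ℝ) (hU : ∀ a b, U a b = U b a)
    (hW : ∀ a b, W a b = W b a) (n : ℕ) (hn : Even n) (α β : ℝ) (hα : 0 ≤ α) (hβ : 0 ≤ β)
    (h : α + β = 1) :
    ((α • U + β • W) ^ n).trace ≤ α * (U ^ n).trace + β * (W ^ n).trace := by
  obtain ⟨Q, d, q1, q2, hQ⟩ := exists_diag (α • U + β • W) (fun a b => by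
    simp only [Matrix.add_apply, Matrix.smul_apply, hU a b, hW a b])
  have hd : ∀ i, d i = α * (Q.transpose * U * Q) i i + β * (Q.transpose * W * Q) i i := by
    intro i
    have e : Q.transpose * (α • U + β • W) * Q = Matrix.diagonal d := by
      rw [hQ]
      calc Q.transpose * (Q * Matrix.diagonal d * Q.transpose) * Q
          = (Q.transpose * Q) * Matrix.diagonal d * (Q.transpose * Q) := by
            simp only [Matrix.mul_assoc]
        _ = _ := by rw [q2, Matrix.one_mul, Matrix.mul_one]
    have e' := congrFun (congrFun e i) i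
    rw [Matrix.diagonal_apply_eq, Matrix.mul_add, Matrix.add_mul, Matrix.mul_smul,
      Matrix.mul_smul, Matrix.smul_mul, Matrix.smul_mul] at e'
    rw [← e']
    rfl
  have k1 := mul_le_mul_of_nonneg_left (peierls U Q hU q1 q2 n hn) hα
  have k2 := mul_le_mul_of_nonneg_left (peierls W Q hW q1 q2 n hn) hβ
  rw [hQ, trace_conj_pow Q d q1 q2]
  refine le_trans ?_ (add_le_add k1 k2)
  rw [Finset.mul_sum, Finset.mul_sum, ← Finset.sum_add_distrib]
  refine Finset.sum_le_sum fun i _ => ?_
  rw [hd]
  exact (hn.convexOn_pow (𝕜 := ℝ)).2 (Set.mem_univ _) (Set.mem_univ _) hα hβ h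

end

end Inst

open Inst in
/-- Complete bipartite graphs have convex homomorphism density. -/
theorem convexDensity_completeBipartite (A B : Type) [Fintype A] [Fintype B] :
    ConvexDensity (completeBipartiteGraph A B) := by
  classical
  intro m
  have hφ : Function.Injective
      (fun p : A × B => (s(Sum.inl p.1, Sum.inr p.2) : Sym2 (A ⊕ B))) := by
    rintro ⟨a, b⟩ ⟨a', b'⟩ h
    simp only [Sym2.eq_iff, Sum.inl.injEq, Sum.inr.injEq, reduceCtorEq, and_self, or_false] at h
    rw [h.1, h.2]
  have hr : ∀ e, e ∈ (completeBipartiteGraph A B).edgeSet ↔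
      ∃ p : A × B, (s(Sum.inl p.1, Sum.inr p.2) : Sym2 (A ⊕ B)) = e := by
    intro e
    induction e using Sym2.ind with
    | h x y =>
      rw [SimpleGraph.mem_edgeSet]
      rcases x with a | b <;> rcases y with a' | b' <;> simp [Sym2.eq_iff]
  refine convexOn_of_eq _
    (fun w => col (fun (_ : A) (_ : B) (x y : Fin m) => w s(x, y)))
    ((m : ℝ) ^ Fintype.card (A ⊕ B)) (by positivity) (fun w => ?_) ?_
  · rw [homDensity_eq _ _ hφ hr]
    congr 1
    unfold col
    rw [← Fintype.sum_prod_type']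
    refine Fintype.sum_equiv (Equiv.sumArrowEquivProdArrow A B (Fin m)) _ _ fun x => ?_
    rw [Fintype.prod_prod_type]
    rfl
  · intro u w hu hw a b ha hb hab
    exact col_convex' (A := A) (B := B) (fun x y => u s(x, y)) (fun x y => w s(x, y))
      (fun x y => hu _) (fun x y => hw _) a b ha hb hab

open Inst in
/-- Even cycles have convex homomorphism density. -/
theorem convexDensity_cycle (n : ℕ) (hn : Even n) (h4 : 4 ≤ n) :
    ConvexDensity (SimpleGraph.cycleGraph n) := by
  obtain ⟨k, rfl⟩ : ∃ k, n = k + 3 := ⟨n - 3, by omega⟩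
  intro m
  have hφ : Function.Injective
      (fun i : Fin (k + 3) => (s(i, i + 1) : Sym2 (Fin (k + 3)))) := by
    intro i j h
    simp only [Sym2.eq_iff] at h
    rcases h with h | ⟨h1, h2⟩
    · exact h.1
    · exfalso
      rw [h1, add_assoc] at h2
      have h3 : (1 + 1 : Fin (k + 3)) = 0 := by
        have := congrArg (fun t => t - j) h2
        simpa using this
      have h5 := congrArg Fin.val h3
      rw [Fin.val_add] at h5
      simp only [Fin.val_one, Fin.val_zero] at h5
      rw [Nat.mod_eq_of_lt (by omega)] at h5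
      omega
  have hr : ∀ e, e ∈ (SimpleGraph.cycleGraph (k + 3)).edgeSet ↔
      ∃ i : Fin (k + 3), (s(i, i + 1) : Sym2 (Fin (k + 3))) = e := by
    intro e
    induction e using Sym2.ind with
    | h x y =>
      rw [SimpleGraph.mem_edgeSet, SimpleGraph.cycleGraph_adj]
      constructor
      · rintro (h | h)
        · refine ⟨y, ?_⟩
          rw [← h, add_sub_cancel, Sym2.eq_swap]
        · refine ⟨x, ?_⟩
          rw [← h, add_sub_cancel]
      · rintro ⟨i, hi⟩
        rcases Sym2.eq_iff.1 hi with ⟨rfl, rfl⟩ | ⟨rfl, rfl⟩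
        · right; rw [add_sub_cancel_left]
        · left; rw [add_sub_cancel_left]
  refine convexOn_of_eq _
    (fun w => ((Matrix.of fun x y : Fin m => w s(x, y)) ^ (k + 3)).trace)
    ((m : ℝ) ^ Fintype.card (Fin (k + 3))) (by positivity) (fun w => ?_) ?_
  · rw [homDensity_eq _ _ hφ hr, trace_pow_sum _ (k + 2)]
    rfl
  · intro u w _ _ a b ha hb hab
    exact trace_pow_convex (Matrix.of fun x y : Fin m => u s(x, y))
      (Matrix.of fun x y : Fin m => w s(x, y))
      (fun x y => by simp only [Matrix.of_apply]; rw [Sym2.eq_swap])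
      (fun x y => by simp only [Matrix.of_apply]; rw [Sym2.eq_swap]) (k + 3) hn a b ha hb hab

/-- `K_{s,t}` with `s, t ≥ 1` has convex homomorphism density. -/
theorem convexDensity_Kst (s t : ℕ) (_hs : 0 < s) (_ht : 0 < t) :
    ConvexDensity (completeBipartiteGraph (Fin s) (Fin t)) :=
  convexDensity_completeBipartite (Fin s) (Fin t)

/-- `K_{s,t}` has convex homomorphism density. -/
theorem convexDensity_Kst' (s t : ℕ) :
    ConvexDensity (completeBipartiteGraph (Fin s) (Fin t)) :=
  convexDensity_completeBipartite (Fin s) (Fin t)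

end Pool.Agent.Work.MP_d4a230_co
end

-- merged part: Pool.Agent.Work.MP_d4a230_co.U.Iso
section
namespace Pool.Agent.Work.MP_d4a230_co

open Finset

lemma homDensity_iso {W W2 : Type} [Fintype W] [Fintype W2] {H : SimpleGraph W}
    {H2 : SimpleGraph W2} (e : H ≃g H2) (m : ℕ) : homDensity H m = homDensity H2 m := by
  classical
  funext w
  unfold homDensity
  rw [Fintype.card_congr e.toEquiv]
  congr 1
  refine Fintype.sum_equiv (Equiv.arrowCongr e.toEquiv (Equiv.refl _)) _ _ fun x => ?_
  refine Finset.prod_bij (fun f _ => f.map e) ?_ ?_ ?_ ?_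
  · intro f hf
    simp only [SimpleGraph.mem_edgeFinset] at hf ⊢
    induction f using Sym2.ind with
    | _ a b => simpa using e.map_adj_iff.2 hf
  · intro f _ g _ h
    exact Sym2.map.injective e.injective h
  · intro g hg
    refine ⟨g.map e.symm, ?_, ?_⟩
    · simp only [SimpleGraph.mem_edgeFinset] at hg ⊢
      induction g using Sym2.ind with
      | _ a b => simpa using e.symm.map_adj_iff.2 hg
    · induction g using Sym2.ind with
      | _ a b => simp
  · intro f _
    induction f using Sym2.ind with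
    | _ a b =>
      have h : ∀ u, (Equiv.arrowCongr e.toEquiv (Equiv.refl (Fin m))) x (e u) = x u := fun u =>
        congrArg x (e.toEquiv.symm_apply_apply u)
      simp only [Sym2.map_mk, h]

lemma ConvexDensity.iso {W W2 : Type} [Fintype W] [Fintype W2] {H : SimpleGraph W}
    {H2 : SimpleGraph W2} (e : H ≃g H2) (h : ConvexDensity H2) : ConvexDensity H :=
  fun m => (homDensity_iso e m).symm ▸ h m

end Pool.Agent.Work.MP_d4a230_co
end
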