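import Pool.Agent.Work.MP_d4a230_co.U.Model

-- merged part: Pool.Agent.Work.MP_d4a230_co.U.Repl
section
/-!
Replacement of one sparse edge.
PLAN. Let μ g (some e) = a g e / (Q n^2), μ g none = 1 - mean (a g) / Q, a probability vector.
Average over T : EB → Fin K → Option (V × V) with weight prod_g prod_j μ g (T g j). By
Finset.prod_univ_sum (twice) the average of a product over g of functions of T g factorises;
the average of smp T g e is a g e and the average of smp T g e * smp T g e2 is at most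
ν g e * ν g e2 + κ ν g e ind (e = e2). So cnv a is the average of cnv (smp T), and with
c = cnv (smp T) e >= 0 one has c = Mx * nt + (c - min c Mx), 0 <= c - min c Mx <= c^2 / Mx,
|a f e - u e| <= ν f e, and the average of mean (ν f * c^2) is at most S2 (D <= 1). Use lam_cnv and
cnv_update.
-/

namespace Pool.Agent.Work.MP_d4a230_co.U

open Finset Filter Topology Pool.Agent.Work.MP_07f1b5_pr
open scoped BigOperators

lemma Repl_fac {I Y : Type} [Fintype I] [DecidableEq I] [Fintype Y] (p : I → Y → ℝ)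
    (hp : ∀ i, ∑ y, p i y = 1) (F : I → Y → ℝ) (s : Finset I) :
    ∑ T : I → Y, (∏ i, p i (T i)) * ∏ i ∈ s, F i (T i) = ∏ i ∈ s, ∑ y, p i y * F i y := by
  have h := Finset.prod_univ_sum (fun _ : I => (univ : Finset Y))
    fun i y => p i y * if i ∈ s then F i y else 1
  rw [Fintype.piFinset_univ] at h
  have h1 : ∀ i, (∑ y, p i y * if i ∈ s then F i y else 1) =
      if i ∈ s then ∑ y, p i y * F i y else 1 := by
    intro i
    split_ifs
    · rfl
    · simp [hp]
  simp only [h1, Finset.prod_mul_distrib, Finset.prod_ite_mem, univ_inter] at h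
  exact h.symm

lemma Repl_one {I Y : Type} [Fintype I] [DecidableEq I] [Fintype Y] (p : I → Y → ℝ)
    (hp : ∀ i, ∑ y, p i y = 1) : ∑ T : I → Y, ∏ i, p i (T i) = 1 := by
  simpa using Repl_fac p hp (fun _ _ => 1) ∅

lemma Repl_ind {Y : Type} [Fintype Y] (p : Y → ℝ) (b : Y) : ∑ y, p y * ind (y = b) = p b := by
  rw [Finset.sum_eq_single b (fun y _ h => by rw [ind_neg h, mul_zero]) (by simp), ind_pos rfl,
    mul_one]

lemma Repl_m1 {Y : Type} [Fintype Y] {K : ℕ} (p : Y → ℝ) (hp : ∑ y, p y = 1) (b : Y) :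
    ∑ t : Fin K → Y, (∏ j, p (t j)) * ∑ j, ind (t j = b) = K * p b := by
  simp only [Finset.mul_sum]
  rw [Finset.sum_comm]
  have h : ∀ j : Fin K, ∑ t : Fin K → Y, (∏ j, p (t j)) * ind (t j = b) = p b := by
    intro j
    simpa [Repl_ind] using Repl_fac (fun _ : Fin K => p) (fun _ => hp) (fun _ y => ind (y = b)) {j}
  simp [h]

lemma Repl_m2 {Y : Type} [Fintype Y] {K : ℕ} (p : Y → ℝ) (h0 : ∀ y, 0 ≤ p y) (hp : ∑ y, p y = 1)
    (b c : Y) : ∑ t : Fin K → Y, (∏ j, p (t j)) * ((∑ j, ind (t j = b)) * ∑ j, ind (t j = c)) ≤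
      K * p b * (K * p c) + K * p b * ind (b = c) := by
  have h : ∀ i j : Fin K, ∑ t : Fin K → Y, (∏ j, p (t j)) * (ind (t i = b) * ind (t j = c)) ≤
      p b * p c + if i = j then p b * ind (b = c) else 0 := by
    intro i j
    split_ifs with hij
    · subst hij
      have h1 := Repl_fac (fun _ : Fin K => p) (fun _ => hp)
        (fun _ y => ind (b = c) * ind (y = b)) {i}
      simp only [prod_singleton, mul_left_comm _ (ind (b = c)), ← Finset.mul_sum, Repl_ind] at h1
      have h2 : ∀ y : Y, ind (y = b) * ind (y = c) = ind (b = c) * ind (y = b) := by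
        intro y
        by_cases hy : y = b
        · rw [hy, mul_comm]
        · rw [ind_neg hy, mul_zero, zero_mul]
      simp only [h2, mul_left_comm _ (ind (b = c)), ← Finset.mul_sum]
      rw [h1]
      nlinarith only [mul_nonneg (h0 b) (h0 c)]
    · have h1 := Repl_fac (fun _ : Fin K => p) (fun _ => hp)
        (fun l y => ind (y = if l = i then b else c)) {i, j}
      simp only [prod_pair hij, Repl_ind, if_true, if_neg (Ne.symm hij)] at h1
      rw [h1, add_zero]
  simp only [Finset.sum_mul_sum]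
  simp only [Finset.mul_sum]
  rw [Finset.sum_comm]
  refine (Finset.sum_le_sum fun i _ => (Finset.sum_comm.trans_le
    (Finset.sum_le_sum fun j _ => h i j))).trans (le_of_eq ?_)
  simp [Finset.sum_add_distrib]
  ring

lemma Repl_swap {A X : Type} [Fintype A] [Fintype X] (w : A → ℝ) (F : A → X → ℝ) :
    ∑ T, w T * 𝔼 x, F T x = 𝔼 x, ∑ T, w T * F T x := by
  rw [Finset.expect_sum_comm]
  simp only [Finset.mul_expect]

variable {V VB EB : Type} [Fintype V] [DecidableEq V] [Nonempty V] [Fintype VB] [DecidableEq VB]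
  [Fintype EB] [DecidableEq EB] (eb : EB → VB × VB)

theorem replace (f : EB) (hne : (eb f).1 ≠ (eb f).2) {D : (VB → V) → ℝ} (hD : Unit01 D)
    (a ν : EB → V × V → ℝ) (u : V × V → ℝ) {Q Mx γ : ℝ} {K : ℕ} (hQ : 0 < Q) (hM : 0 < Mx)
    (hK : 0 < K) (ha : ∀ g e, 0 ≤ a g e ∧ a g e ≤ ν g e) (hm : ∀ g, 𝔼 e, a g e ≤ Q)
    (hu : ∀ e, 0 ≤ u e ∧ u e ≤ ν f e)
    (ht : ∀ T, |𝔼 e, (a f e - u e) * nt eb Q Mx K f D T e| ≤ γ) :
    |Lam eb D a - Lam eb D (Function.update a f u)| ≤
      Mx * γ + S2 eb f ν (Q * (Fintype.card V : ℝ) ^ 2 / K) / Mx := by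
  have hn : (0 : ℝ) < Fintype.card V := by exact_mod_cast Fintype.card_pos
  have hK' : (0 : ℝ) < K := by exact_mod_cast hK
  set N : ℝ := Q * (Fintype.card V : ℝ) ^ 2 with hN
  have hN0 : 0 < N := by positivity
  have hν : ∀ g e, 0 ≤ ν g e := fun g e => (ha g e).1.trans (ha g e).2
  let μ : EB → Option (V × V) → ℝ := fun g o => o.elim (1 - ∑ e, a g e / N) fun e => a g e / N
  have hμ1 : ∀ g, ∑ o, μ g o = 1 := fun g => by simp [μ, Fintype.sum_option]
  have hμ0 : ∀ g o, 0 ≤ μ g o := by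
    rintro g (_ | e)
    · have h := hm g
      rw [Finset.expect_eq_sum_div_card, card_univ, Fintype.card_prod, Nat.cast_mul,
        div_le_iff₀ (by positivity)] at h
      show 0 ≤ 1 - ∑ e, a g e / N
      rw [← Finset.sum_div, sub_nonneg, div_le_one hN0, hN, sq]
      exact h
    · exact div_nonneg (ha g e).1 hN0.le
  let p : EB → (Fin K → Option (V × V)) → ℝ := fun g t => ∏ j, μ g (t j)
  have hp1 : ∀ g, ∑ t, p g t = 1 := fun g => Repl_one (fun _ : Fin K => μ g) fun _ => hμ1 g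
  let s : (Fin K → Option (V × V)) → V × V → ℝ := fun t e => N / K * ∑ j, ind (t j = some e)
  have hs : ∀ T (g : EB) e, smp Q K T g e = s (T g) e := fun _ _ _ => rfl
  have hs0 : ∀ t e, 0 ≤ s t e := fun t e =>
    mul_nonneg (by positivity) (Finset.sum_nonneg fun _ _ => ind_nonneg _)
  have hp0 : ∀ g t, 0 ≤ p g t := fun g t => Finset.prod_nonneg fun j _ => hμ0 g _
  have m1 : ∀ g e, ∑ t, p g t * s t e = a g e := by
    intro g e
    simp only [s, p, mul_left_comm _ (N / K), ← Finset.mul_sum]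
    rw [Repl_m1 (μ g) (hμ1 g)]
    show N / K * (K * (a g e / N)) = _
    field_simp
  have m2 : ∀ g e e', ∑ t, p g t * (s t e * s t e') ≤
      ν g e * ν g e' + N / K * ν g e * ind (e = e') := by
    intro g e e'
    have h := mul_le_mul_of_nonneg_left (Repl_m2 (K := K) (μ g) (hμ0 g) (hμ1 g) (some e) (some e'))
      (show 0 ≤ (N / K) ^ 2 by positivity)
    rw [Finset.mul_sum, ind_congr (Option.some_inj)] at h
    refine (le_of_eq (Finset.sum_congr rfl fun t _ => by simp only [s, p]; ring)).trans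
      (h.trans ?_)
    have e1 : (N / K) ^ 2 * (K * μ g (some e) * (K * μ g (some e')) +
        K * μ g (some e) * ind (e = e')) = a g e * a g e' + N / K * a g e * ind (e = e') := by
      show (N / K) ^ 2 * (K * (a g e / N) * (K * (a g e' / N)) +
        K * (a g e / N) * ind (e = e')) = _
      field_simp
    rw [e1]
    have := ind_nonneg (e = e')
    have := (ha g e).2
    have := (ha g e').1
    have := (ha g e').2
    have := hν g e
    gcongr
  let w : (EB → Fin K → Option (V × V)) → ℝ := fun T => ∏ g, p g (T g)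
  have hw0 : ∀ T, 0 ≤ w T := fun T => Finset.prod_nonneg fun g _ => hp0 g _
  have hw1 : ∑ T, w T = 1 := Repl_one p hp1
  have hc : ∀ e, cnv eb f D a e = ∑ T, w T * cnv eb f D (smp Q K T) e := by
    intro e
    simp only [cnv, hs]
    rw [Repl_swap]
    refine Finset.expect_congr rfl fun x _ => ?_
    simp only [mul_left_comm _ (D _), ← Finset.mul_sum]
    rw [Repl_fac p hp1 fun g t => s t (exf eb (upd eb f x e) g)]
    simp only [m1]
  have hc0 : ∀ T e, 0 ≤ cnv eb f D (smp Q K T) e := fun T e =>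
    Finset.expect_nonneg fun x _ => mul_nonneg (hD _).1 (Finset.prod_nonneg fun g _ => hs0 _ _)
  have hT : ∀ T, |𝔼 e, (a f e - u e) * cnv eb f D (smp Q K T) e| ≤
      Mx * γ + (𝔼 e, ν f e * cnv eb f D (smp Q K T) e ^ 2) / Mx := by
    intro T
    have e1 : ∀ e, (a f e - u e) * cnv eb f D (smp Q K T) e =
        Mx * ((a f e - u e) * nt eb Q Mx K f D T e) + (a f e - u e) *
          (cnv eb f D (smp Q K T) e - min (cnv eb f D (smp Q K T) e) Mx) := by
      intro e
      unfold nt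
      field_simp
      ring
    simp only [e1]
    rw [Finset.expect_add_distrib, ← Finset.mul_expect, Finset.expect_div]
    refine (abs_add_le _ _).trans (add_le_add ?_ ((Finset.abs_expect_le _ _).trans
      (Finset.expect_le_expect fun e _ => ?_)))
    · rw [abs_mul, abs_of_pos hM]
      exact mul_le_mul_of_nonneg_left (ht T) hM.le
    · have h0 := hc0 T e
      generalize cnv eb f D (smp Q K T) e = c at h0 ⊢
      have h1 : |a f e - u e| ≤ ν f e :=
        abs_le.2 ⟨by linarith [(ha f e).1, (hu e).2], by linarith [(ha f e).2, (hu e).1]⟩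
      have h2 : |c - min c Mx| ≤ c ^ 2 / Mx := by
        rw [abs_of_nonneg (sub_nonneg.2 (min_le_left _ _)), le_div_iff₀ hM]
        rcases le_total c Mx with h | h
        · rw [min_eq_left h, sub_self, zero_mul]
          positivity
        · rw [min_eq_right h]
          nlinarith only [hM, h0, h]
      rw [abs_mul, mul_div_assoc]
      exact mul_le_mul h1 h2 (abs_nonneg _) (hν f e)
  have hS : ∑ T, w T * 𝔼 e, ν f e * cnv eb f D (smp Q K T) e ^ 2 ≤ S2 eb f ν (N / K) := by
    simp only [cnv, sq, Finset.expect_mul_expect, hs]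
    simp only [Finset.mul_expect _ _ (ν f _)]
    unfold S2
    rw [Repl_swap]
    refine Finset.expect_le_expect fun e _ => ?_
    rw [Repl_swap]
    refine Finset.expect_le_expect fun x _ => ?_
    rw [Repl_swap]
    refine Finset.expect_le_expect fun x' _ => ?_
    have h := Repl_fac p hp1
      (fun g t => s t (exf eb (upd eb f x e) g) * s t (exf eb (upd eb f x' e) g)) (univ.erase f)
    refine le_trans ?_ (mul_le_mul_of_nonneg_left (h.trans_le (Finset.prod_le_prod
      (fun g _ => Finset.sum_nonneg fun t _ => mul_nonneg (hp0 _ _)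
        (mul_nonneg (hs0 _ _) (hs0 _ _))) fun g _ => m2 g _ _)) (hν f e))
    rw [Finset.mul_sum]
    refine Finset.sum_le_sum fun T _ => ?_
    rw [mul_left_comm]
    refine mul_le_mul_of_nonneg_left (mul_le_mul_of_nonneg_left ?_ (hw0 T)) (hν f e)
    refine le_trans ?_ Finset.prod_mul_distrib.ge
    rw [mul_mul_mul_comm]
    refine mul_le_of_le_one_left (mul_nonneg ?_ ?_) (mul_le_one₀ (hD _).2 (hD _).1 (hD _).2)
    all_goals exact Finset.prod_nonneg fun g _ => hs0 _ _
  have hL : Lam eb D a - Lam eb D (Function.update a f u) =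
      ∑ T, w T * 𝔼 e, (a f e - u e) * cnv eb f D (smp Q K T) e := by
    rw [lam_cnv eb f hne, lam_cnv eb f hne, cnv_update, Function.update_self,
      ← Finset.expect_sub_distrib, Repl_swap]
    refine Finset.expect_congr rfl fun e _ => ?_
    rw [← sub_mul, hc, Finset.mul_sum]
    exact Finset.sum_congr rfl fun T _ => by ring
  rw [hL]
  refine (Finset.abs_sum_le_sum_abs _ _).trans ((Finset.sum_le_sum fun T _ =>
    (abs_mul _ _).trans_le (mul_le_mul (abs_of_nonneg (hw0 T)).le (hT T) (abs_nonneg _)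
      (hw0 T))).trans ?_)
  simp only [mul_add, Finset.sum_add_distrib, ← Finset.sum_mul, hw1, one_mul, ← mul_div_assoc,
    ← Finset.sum_div]
  gcongr

end Pool.Agent.Work.MP_d4a230_co.U
end

-- merged part: Pool.Agent.Work.MP_d4a230_co.U.SclD
section
/-!
Deterministic sparse counting lemma.
PLAN. For each f, boost (tests are in [0,1]; the test inr (∅, ∅) is zero) gives a kernel
w2 f = clip (bsum ...) that fools all tests of f within 1/m. Replace a by w2 edge by edge (Finset
induction on the set s of replaced edges, current family s.piecewise w2 a, majorant ν + 1, masses at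
most Q) with replace; then lam_cut_all from w2 to w with cut (w2 f - w f) <= 1/m + γ.
-/

namespace Pool.Agent.Work.MP_d4a230_co.U

open Finset Filter Topology Pool.Agent.Work.MP_07f1b5_pr
open scoped BigOperators


variable {V VB EB : Type} [Fintype V] [DecidableEq V] [Nonempty V] [Fintype VB] [DecidableEq VB]
  [Fintype EB] [DecidableEq EB] (eb : EB → VB × VB)

lemma tests_unit {Q Mx : ℝ} (hQ : 0 ≤ Q) (hM : 0 < Mx) (K : ℕ) (f : EB) {D : (VB → V) → ℝ}
    (hD : Unit01 D) (t : (EB → Fin K → Option (V × V)) ⊕ (Finset V × Finset V)) :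
    Unit01 (tests eb Q Mx K f D t) := by
  intro e
  cases t with
  | inl T =>
    have h1 : 0 ≤ cnv eb f D (smp Q K T) e :=
      expect_nonneg fun x _ => mul_nonneg (hD _).1 (prod_nonneg fun g _ =>
        mul_nonneg (by positivity) (sum_nonneg fun j _ => ind_nonneg _))
    exact ⟨div_nonneg (le_min h1 hM.le) hM.le, div_le_one_of_le₀ (min_le_right _ _) hM.le⟩
  | inr t =>
    exact ⟨mul_nonneg (ind_nonneg _) (ind_nonneg _),
      mul_le_one₀ (ind_le_one _) (ind_nonneg _) (ind_le_one _)⟩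

theorem scl_det {v k : ℕ} (hv : 3 ≤ v) (hDC : DC eb v k) {D : (VB → V) → ℝ} (hD : RootFn eb D)
    (ν : EB → V × V → ℝ) {Q Mx C γ : ℝ} {m K : ℕ} (hQ : 1 ≤ Q) (hM : 0 < Mx) (hK : 0 < K)
    (hm : 0 < m) (hνQ : ∀ f, 𝔼 e, ν f e ≤ Q)
    (hS : ∀ f, S2 eb f (fun g e => ν g e + 1) (Q * (Fintype.card V : ℝ) ^ 2 / K) ≤ C)
    (hP : ∀ f c, 𝔼 e, (ν f e - 1) * max (bsum m (tests eb Q Mx K f D) c e) 0 ≤ 1 / 2)
    (a w : EB → V × V → ℝ) (ha : ∀ f e, 0 ≤ a f e ∧ a f e ≤ ν f e) (hw : ∀ f, Unit01 (w f))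
    (hc : ∀ f, cut (fun e => a f e - w f e) ≤ γ) :
    |Lam eb D a - Lam eb D w| ≤ Fintype.card EB * (Mx / m + C / Mx + 1 / m + γ) := by
  have hQ0 : (0 : ℝ) < Q := lt_of_lt_of_le one_pos hQ
  have hB : ∀ f, ∃ c, ∀ t, |𝔼 e, (a f e - clip (bsum m (tests eb Q Mx K f D) c e)) *
      tests eb Q Mx K f D t e| ≤ 1 / m := fun f =>
    boost m hm (tests eb Q Mx K f D)
      (fun t e => abs_le.2 ⟨by linarith only [hQ0, hM, (tests_unit eb hQ0.le hM K f hD.1 t e).1],
        (tests_unit eb hQ0.le hM K f hD.1 t e).2⟩) (Sum.inr (∅, ∅))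
      (fun e => by
        change ind _ * ind _ = 0
        rw [ind_neg (notMem_empty _), zero_mul]) (ν f) (a f) (ha f) (hP f)
  choose c hc2 using hB
  obtain ⟨w2, hw2⟩ : ∃ w2 : EB → V × V → ℝ,
      ∀ f e, w2 f e = clip (bsum m (tests eb Q Mx K f D) (c f) e) := ⟨_, fun _ _ => rfl⟩
  have hu : ∀ f, Unit01 (w2 f) := fun f e => by rw [hw2]; exact clip_unit _
  have ht : ∀ f t, |𝔼 e, (a f e - w2 f e) * tests eb Q Mx K f D t e| ≤ 1 / m := fun f t => by
    simp only [hw2]; exact hc2 f t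
  have hν : ∀ f e, 0 ≤ ν f e := fun f e => (ha f e).1.trans (ha f e).2
  have h1 : ∀ s : Finset EB, |Lam eb D a - Lam eb D (s.piecewise w2 a)| ≤
      s.card * (Mx / m + C / Mx) := by
    intro s
    induction s using Finset.induction_on with
    | empty => simp
    | insert f s hf ih =>
      have h2 := replace eb f (hDC.1 f) hD.1 (s.piecewise w2 a) (fun g e => ν g e + 1) (w2 f)
        (γ := 1 / m) hQ0 hM hK
        (fun g e => by
          by_cases hg : g ∈ s
          · rw [piecewise_eq_of_mem _ _ _ hg]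
            exact ⟨(hu g e).1, by linarith only [(hu g e).2, hν g e]⟩
          · rw [piecewise_eq_of_notMem _ _ _ hg]
            exact ⟨(ha g e).1, by linarith only [(ha g e).2]⟩)
        (fun g => by
          by_cases hg : g ∈ s
          · rw [piecewise_eq_of_mem _ _ _ hg]
            exact ex_le hQ0.le fun e => (hu g e).2.trans hQ
          · rw [piecewise_eq_of_notMem _ _ _ hg]
            exact (ex_mono fun e => (ha g e).2).trans (hνQ g))
        (fun e => ⟨(hu f e).1, by linarith only [(hu f e).2, hν f e]⟩)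
        (fun T => by
          rw [piecewise_eq_of_notMem _ _ _ hf]
          exact ht f (Sum.inl T))
      rw [piecewise_insert, card_insert_of_notMem hf]
      have h3 := div_le_div_of_nonneg_right (hS f) hM.le
      have h4 := abs_sub_le (Lam eb D a) (Lam eb D (s.piecewise w2 a))
        (Lam eb D (Function.update (s.piecewise w2 a) f (w2 f)))
      have h5 : Mx * (1 / (m : ℝ)) = Mx / m := by ring
      push_cast
      linarith only [ih, h2, h3, h4, h5]
  have h2 := h1 univ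
  rw [piecewise_univ, card_univ] at h2
  have h3 := lam_cut_all eb hv hDC hD hu hw
  have h4 : ∑ f, cut (fun e => w2 f e - w f e) ≤ ∑ _f : EB, (1 / (m : ℝ) + γ) :=
    sum_le_sum fun f _ => by
      have h5 := cut_tri (w2 f) (a f) (w f)
      have h6 : cut (fun e => a f e - w2 f e) ≤ 1 / m := cut_le fun t => ht f (Sum.inr t)
      rw [cut_comm (w2 f) (a f)] at h5
      linarith only [h5, h6, hc f]
  rw [sum_const, card_univ, nsmul_eq_mul] at h4
  have h5 := abs_sub_le (Lam eb D a) (Lam eb D w2) (Lam eb D w)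
  linarith only [h2, h3, h4, h5]

end Pool.Agent.Work.MP_d4a230_co.U
end

-- merged part: Pool.Agent.Work.MP_d4a230_co.U.CL
section
/-!
Counting lemma with polynomial room.
PLAN. Labels L = Option EB, col = some, Q = card L, ν y l f = Q den (lay l (col f)); K from R.net,
κ = Q n^2 / K, C0 from mom_S2 (κ N >= n^2 since K <= M <= N). Choose b small, C = C0 / b (Markov),
Mx with C / Mx small, m with Mx / m small, γ small; none of them depends on the bound C1 for Ω.
Good (y, l): all S2 <= C, and hP of scl_det for every f and every D ω AND for D = 1, and every ν f is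
γ-close to 1 in cut norm (add the family of cut tests, or note that it follows from pseudo and
lay_card). Probability of not Good is small: mom_S2 and Markov; pseudo with Ω2 = Option Ω × (Fin
(2m^2+1) → Bool × test index) (log card <= δ^2 M by R.lin and R.net), ξ = max (bsum ..) 0 <= 3m, and
lay_card. By rainbow Cnt is the mean over l of Lam of the layer densities a. On Good and when all
layers are γ-close to den (T f) (lay_close, Markov) scl_det applies with 2γ. Otherwise the error is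
at most Lam 1 ν + 1. On Good, scl_det with D = 1, a = ν, w = 1 gives |Lam 1 ν - 1| <= small. Put
err y = small + 3 * (bound for not close) + mean over l of ind (not Good) * (Lam 1 ν + 1); the mean
of ind (not Good) * Lam 1 ν is mean (Lam 1 ν) - mean (ind Good * Lam 1 ν) <= 1 - (1 - small) P(Good)
by rainbow and cnt_one.
-/

namespace Pool.Agent.Work.MP_d4a230_co.U

open Finset Filter Topology Pool.Agent.Work.MP_07f1b5_pr
open scoped BigOperators

section aux

variable {V G α β VB EB : Type} [Fintype V] [DecidableEq V] [Fintype G] [DecidableEq G]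
  [Fintype α] [DecidableEq α] [Fintype β] [DecidableEq β] [Fintype VB] [DecidableEq VB]
  [Fintype EB] [DecidableEq EB] (eb : EB → VB × VB)

lemma CL_lam_le {D : (VB → V) → ℝ} (hD : Unit01 D) {a ν : EB → V × V → ℝ}
    (ha : ∀ f e, 0 ≤ a f e ∧ a f e ≤ ν f e) :
    0 ≤ Lam eb D a ∧ Lam eb D a ≤ Lam eb (fun _ => 1) ν := by
  refine ⟨expect_nonneg fun x _ => mul_nonneg (hD x).1 (prod_nonneg fun f _ => (ha f _).1),
    ex_mono fun x => ?_⟩
  exact mul_le_mul (hD x).2 (prod_le_prod (fun f _ => (ha f _).1) fun f _ => (ha f _).2)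
    (prod_nonneg fun f _ => (ha f _).1) zero_le_one

lemma CL_lam_one [Nonempty V] : Lam eb (fun _ : VB → V => 1) (fun _ _ => 1) = 1 := by
  simp [Lam]

lemma CL_S2_nonneg (f : EB) {ν : EB → V × V → ℝ} (hν : ∀ g e, 0 ≤ ν g e) {κ : ℝ} (hκ : 0 ≤ κ) :
    0 ≤ S2 eb f ν κ :=
  expect_nonneg fun _ _ => expect_nonneg fun _ _ => expect_nonneg fun _ _ =>
    mul_nonneg (hν _ _) (prod_nonneg fun _ _ => add_nonneg (mul_nonneg (hν _ _) (hν _ _))
      (mul_nonneg (mul_nonneg hκ (hν _ _)) (ind_nonneg _)))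

lemma CL_avg {Y L : Type} [Fintype Y] [Fintype L] [Nonempty Y] [Nonempty L] (B Λ : Y → L → ℝ)
    {s p : ℝ} (hs : 0 ≤ s) (hB0 : ∀ y l, 0 ≤ B y l) (hB : 𝔼 y, 𝔼 l, B y l ≤ p)
    (hΛ : 𝔼 y, 𝔼 l, Λ y l ≤ 1) (hg : ∀ y l, B y l < 1 → 1 - s ≤ Λ y l) :
    𝔼 y, 𝔼 l, ind (1 ≤ B y l) * (Λ y l + 1) ≤ s + 2 * p := by
  have h : ∀ y l, ind (1 ≤ B y l) * (Λ y l + 1) ≤ Λ y l + (s - 1) + 2 * B y l := by
    intro y l
    by_cases h : 1 ≤ B y l
    · rw [ind_pos h]; linarith
    · rw [ind_neg h]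
      have := hg y l (not_le.1 h)
      have := hB0 y l
      linarith
  refine (ex_mono fun y => ex_mono fun l => h y l).trans ?_
  simp only [expect_add_distrib, ← mul_expect, Fintype.expect_const]
  linarith

lemma CL_card {Ω : Type} [Fintype Ω] (n K r : ℕ) {C1 : ℝ}
    (h : Real.log (Fintype.card Ω) ≤ C1 * (n + 1)) :
    Real.log (2 * Fintype.card (Option Ω × (Fin r → Bool ×
      ((EB → Fin K → Option (Fin n × Fin n)) ⊕ (Finset (Fin n) × Finset (Fin n)))))) ≤
      (2 + |C1| + 2 * r) * ((n : ℝ) + 1) +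
        r * Fintype.card EB * (K * Real.log ((n : ℝ) ^ 2 + 1)) := by
  have hn : (0 : ℝ) ≤ n := Nat.cast_nonneg n
  have e2 : (2 : ℝ) ≤ Real.exp 1 := by have := Real.add_one_le_exp (1 : ℝ); linarith
  have e4 : (4 : ℝ) ≤ Real.exp 2 := by
    rw [show (2 : ℝ) = 1 + 1 by norm_num, Real.exp_add]; nlinarith only [e2]
  have h1 : (Fintype.card Ω : ℝ) + 1 ≤ 2 * Real.exp (|C1| * (n + 1)) := by
    have a1 : (Fintype.card Ω : ℝ) ≤ Real.exp (|C1| * (n + 1)) :=
      (Real.le_exp_log _).trans (Real.exp_le_exp.2 (h.trans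
        (mul_le_mul_of_nonneg_right (le_abs_self _) (by positivity))))
    have a2 : 1 ≤ Real.exp (|C1| * (n + 1)) := Real.one_le_exp (by positivity)
    linarith
  set X : ℝ := Real.exp (Fintype.card EB * (K * Real.log ((n : ℝ) ^ 2 + 1))) with hX
  have hX1 : 1 ≤ X := Real.one_le_exp
    (mul_nonneg (by positivity) (mul_nonneg (by positivity) (Real.log_nonneg (by nlinarith only []))))
  have hX2 : (((n : ℝ) * n + 1) ^ K) ^ Fintype.card EB = X := by
    rw [hX, Real.exp_nat_mul, Real.exp_nat_mul, Real.exp_log (by positivity), sq]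
  have hY : (2 : ℝ) ^ n * 2 ^ n ≤ Real.exp (2 * n) := by
    rw [← mul_pow, mul_comm (2 : ℝ) (n : ℝ), Real.exp_nat_mul]
    exact pow_le_pow_left₀ (by norm_num) (by linarith) n
  have hY1 : 1 ≤ Real.exp (2 * n) := Real.one_le_exp (by positivity)
  have h2 : 2 * (X + 2 ^ n * 2 ^ n) ≤ Real.exp (2 * (n + 1)) * X := by
    rw [mul_add (2 : ℝ) (n : ℝ), Real.exp_add, mul_one]
    have : X + Real.exp (2 * n) ≤ 2 * (Real.exp (2 * n) * X) := by nlinarith only [hY1, hX1, hY]
    have : 4 * (Real.exp (2 * n) * X) ≤ Real.exp 2 * (Real.exp (2 * n) * X) :=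
      mul_le_mul_of_nonneg_right e4 (by positivity)
    nlinarith
  have h4 : (4 : ℝ) ≤ Real.exp (2 * (n + 1)) := e4.trans (Real.exp_le_exp.2 (by linarith))
  rw [Real.log_le_iff_le_exp (by
    have := Fintype.card_pos (α := Option Ω × (Fin r → Bool ×
      ((EB → Fin K → Option (Fin n × Fin n)) ⊕ (Finset (Fin n) × Finset (Fin n)))))
    positivity)]
  simp only [Fintype.card_prod, Fintype.card_option, Fintype.card_fun, Fintype.card_sum,
    Fintype.card_bool, Fintype.card_fin, Fintype.card_finset]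
  push_cast
  rw [hX2, show (2 + |C1| + 2 * r) * ((n : ℝ) + 1) +
      r * Fintype.card EB * (K * Real.log ((n : ℝ) ^ 2 + 1)) = 2 * (n + 1) + |C1| * (n + 1) +
      r * (2 * (n + 1) + Fintype.card EB * (K * Real.log ((n : ℝ) ^ 2 + 1))) by ring,
    Real.exp_add, Real.exp_add, Real.exp_nat_mul, Real.exp_add, ← hX, ← mul_assoc]
  refine mul_le_mul ?_ (pow_le_pow_left₀ (by positivity) h2 r) (by positivity) (by positivity)
  have := mul_le_mul_of_nonneg_right h4 (Real.exp_pos (|C1| * (n + 1))).le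
  linarith

lemma CL_bad [Nonempty V] [Nonempty G] [Nonempty β] (ep : β → α × α)
    (hne : ∀ j, (ep j).1 ≠ (ep j).2) {Ω : Type} [Fintype Ω] (ξ : EB → Ω → V × V → ℝ)
    {C0 C γ δ c κ : ℝ} (hC : 0 < C) (hγ : 0 < γ) (hδ : 0 < δ) (hc : 0 < c) (hκ : 0 ≤ κ)
    (hξ : ∀ f ω e, 0 ≤ ξ f ω e ∧ ξ f ω e ≤ c)
    (hS : ∀ (l : G → Option EB) f, 𝔼 y : G → α → V, S2 eb f (fun g e =>
      Fintype.card (Option EB) * den (sp ep y) (lay β l (some g)) e + 1) κ ≤ C0)
    (h1 : 1 ≤ δ ^ 2 * Fintype.card G)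
    (h2 : Real.log (2 * Fintype.card Ω) ≤ δ ^ 2 * Fintype.card G) :
    ∃ B : (G → α → V) → (G → Option EB) → ℝ, (∀ y l, 0 ≤ B y l) ∧
      𝔼 y, 𝔼 l, B y l ≤ Fintype.card EB * (C0 / C + 4 * δ * c * Fintype.card (Option EB) / γ) ∧
      ∀ y l, B y l < 1 → ∀ f, S2 eb f (fun g e =>
        Fintype.card (Option EB) * den (sp ep y) (lay β l (some g)) e + 1) κ ≤ C ∧ ∀ ω,
        |𝔼 e, (Fintype.card (Option EB) * den (sp ep y) (lay β l (some f)) e - 1) * ξ f ω e| ≤
          γ := by
  choose er h0 hm hb using fun (l : G → Option EB) (f : EB) =>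
    pseudo (V := V) ep hne (lay β l (some f)) (ξ f) hc hδ (hξ f) h2
  set Q : ℝ := ((Fintype.card (Option EB) : ℕ) : ℝ) with hQ
  have hQ0 : 0 ≤ Q := Nat.cast_nonneg _
  have hS0 : ∀ (y : G → α → V) (l : G → Option EB) f,
      0 ≤ S2 eb f (fun g e => Q * den (sp ep y) (lay β l (some g)) e + 1) κ := fun y l f =>
    CL_S2_nonneg eb f (fun g e => add_nonneg (mul_nonneg hQ0 (den_nonneg _ _ _)) zero_le_one) hκ
  have ht : ∀ (y : G → α → V) (l : G → Option EB) f, 0 ≤ (Q * er l f y +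
      c * |Q * ((lay β l (some f)).card / Fintype.card (G × β)) - 1|) / γ := fun y l f =>
    div_nonneg (add_nonneg (mul_nonneg hQ0 (h0 _ _ _)) (mul_nonneg hc.le (abs_nonneg _))) hγ.le
  refine ⟨fun y l => ∑ f, (S2 eb f (fun g e => Q * den (sp ep y) (lay β l (some g)) e + 1) κ / C +
    (Q * er l f y + c * |Q * ((lay β l (some f)).card / Fintype.card (G × β)) - 1|) / γ),
    fun y l => sum_nonneg fun f _ => add_nonneg (div_nonneg (hS0 y l f) hC.le) (ht y l f), ?_, ?_⟩
  · rw [expect_comm]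
    simp only [expect_sum_comm]
    rw [← card_univ, ← nsmul_eq_mul]
    refine sum_le_card_nsmul _ _ _ fun f _ => ?_
    have a1 : ∀ l : G → Option EB, 𝔼 y : G → α → V,
        (S2 eb f (fun g e => Q * den (sp ep y) (lay β l (some g)) e + 1) κ / C + (Q * er l f y +
          c * |Q * ((lay β l (some f)).card / Fintype.card (G × β)) - 1|) / γ) ≤
        C0 / C + (Q * (2 * δ * c) +
          c * |Q * ((lay β l (some f)).card / Fintype.card (G × β)) - 1|) / γ := by
      intro l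
      simp only [expect_add_distrib, ← expect_div, ← mul_expect, Fintype.expect_const]
      gcongr
      exacts [hS l f, hm l f]
    refine (ex_mono a1).trans ?_
    simp only [expect_add_distrib, ← expect_div, ← mul_expect, Fintype.expect_const]
    have a2 := mul_le_mul_of_nonneg_left (lay_card (β := β) (G := G) (some f) hδ h1) hc.le
    rw [← hQ] at a2
    gcongr
    linarith only [a2]
  · intro y l hB f
    have a1 := (single_le_sum (f := fun f => S2 eb f (fun g e =>
      Q * den (sp ep y) (lay β l (some g)) e + 1) κ / C + (Q * er l f y +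
        c * |Q * ((lay β l (some f)).card / Fintype.card (G × β)) - 1|) / γ)
      (fun f _ => add_nonneg (div_nonneg (hS0 y l f) hC.le) (ht y l f)) (mem_univ f)).trans_lt hB
    have a2 := ht y l f
    have a3 := div_nonneg (hS0 y l f) hC.le
    refine ⟨(div_le_one hC).1 (by linarith only [a1, a2]), fun ω => ?_⟩
    have a4 : Q * er l f y +
        c * |Q * ((lay β l (some f)).card / Fintype.card (G × β)) - 1| ≤ γ :=
      (div_le_one hγ).1 (by linarith only [a1, a3])
    have a5 := hb l f y ω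
    have a6 : 0 ≤ 𝔼 e, ξ f ω e := expect_nonneg fun e _ => (hξ f ω e).1
    have a7 : 𝔼 e, ξ f ω e ≤ c := ex_le hc.le fun e => (hξ f ω e).2
    have a8 : 𝔼 e, (Q * den (sp ep y) (lay β l (some f)) e - 1) * ξ f ω e =
        Q * ((𝔼 e, den (sp ep y) (lay β l (some f)) e * ξ f ω e) -
          (lay β l (some f)).card / Fintype.card (G × β) * 𝔼 e, ξ f ω e) +
        (𝔼 e, ξ f ω e) * (Q * ((lay β l (some f)).card / Fintype.card (G × β)) - 1) := by
      simp only [sub_mul, mul_assoc, one_mul, expect_sub_distrib, ← mul_expect]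
      ring
    rw [a8]
    refine (abs_add_le _ _).trans (le_trans ?_ a4)
    rw [abs_mul, abs_mul, abs_of_nonneg hQ0, abs_of_nonneg a6]
    gcongr

lemma CL_cut {m : ℕ} (hm : 0 < m) (Q Mx : ℝ) (K : ℕ) (f : EB) (D : (VB → V) → ℝ)
    (g : V × V → ℝ) {γ : ℝ}
    (h : ∀ c, |𝔼 e, g e * max (bsum m (tests eb Q Mx K f D) c e) 0| ≤ γ) : cut g ≤ γ := by
  refine cut_le fun t => le_trans ?_ (h fun _ => (true, Sum.inr t))
  have hm1 : (1 : ℝ) ≤ m := by exact_mod_cast hm
  have h1 : (1 : ℝ) ≤ 1 / (m : ℝ) * (2 * m ^ 2 + 1) := by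
    rw [one_div, ← div_eq_inv_mul, one_le_div (by linarith)]; nlinarith only [hm1]
  have h2 : ∀ e, g e * max (bsum m (tests eb Q Mx K f D) (fun _ => (true, Sum.inr t)) e) 0 =
      1 / (m : ℝ) * (2 * m ^ 2 + 1) * (g e * ct t e) := by
    intro e
    have : bsum m (tests eb Q Mx K f D) (fun _ => (true, Sum.inr t)) e =
        1 / (m : ℝ) * (2 * m ^ 2 + 1) * ct t e := by
      simp [bsum, tests, mul_assoc]
    have h3 : 0 ≤ ct t e := mul_nonneg (ind_nonneg _) (ind_nonneg _)
    rw [this, max_eq_left (mul_nonneg (by linarith only [h1]) h3)]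
    ring
  simp only [h2, ← mul_expect]
  rw [abs_mul, abs_of_nonneg (by linarith only [h1] : (0 : ℝ) ≤ 1 / (m : ℝ) * (2 * m ^ 2 + 1))]
  exact le_mul_of_one_le_left (abs_nonneg _) h1

theorem CL_fin [Nonempty V] [Nonempty G] [Nonempty β] {v k : ℕ} (hv : 3 ≤ v) (hDC : DC eb v k)
    (ep : β → α × α) (hne : ∀ j, (ep j).1 ≠ (ep j).2) {Ω : Type} [Fintype Ω]
    (D : Ω → (VB → V) → ℝ) (hD : ∀ ω, RootFn eb (D ω)) {C0 C Mx γ δ s : ℝ} {m K : ℕ} (hC : 0 < C)
    (hM : 0 < Mx) (hK : 0 < K) (hm : 0 < m) (hγ : 0 < γ) (hγ2 : γ ≤ 1 / 2) (hδ : 0 < δ)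
    (hs : Fintype.card EB * (Mx / m + C / Mx + 1 / m + 2 * γ) ≤ s)
    (hS : ∀ (l : G → Option EB) f, 𝔼 y : G → α → V, S2 eb f (fun g e =>
      Fintype.card (Option EB) * den (sp ep y) (lay β l (some g)) e + 1)
        (Fintype.card (Option EB) * (Fintype.card V : ℝ) ^ 2 / K) ≤ C0)
    (h1 : 2 * ((Fintype.card V : ℝ) + 1) ≤ δ ^ 2 * Fintype.card G)
    (h2 : Real.log (2 * Fintype.card (Option Ω × (Fin (2 * m ^ 2 + 1) → Bool ×
      ((EB → Fin K → Option (V × V)) ⊕ (Finset V × Finset V))))) ≤ δ ^ 2 * Fintype.card G) :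
    ∃ err : (G → α → V) → ℝ, (∀ y, 0 ≤ err y) ∧ 𝔼 y, err y ≤ 2 * s +
      (2 + s) * (Fintype.card EB * (2 * δ * Fintype.card (Option EB) / γ)) + 2 * (Fintype.card EB *
        (C0 / C + 4 * δ * (3 * m) * Fintype.card (Option EB) / γ)) ∧
      ∀ y ω (T : EB → Finset (G × β)) (w : EB → V × V → ℝ),
        (∀ f, Unit01 (w f)) → (∀ f, cut (fun e => den (sp ep y) (T f) e - w f e) ≤ γ) →
        |Cnt eb (sp ep y) (D ω) T - Lam eb (D ω) w| ≤ err y := by
  have hQ1 : (1 : ℝ) ≤ Fintype.card (Option EB) := by exact_mod_cast Fintype.card_pos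
  have hQ0 : (0 : ℝ) ≤ Fintype.card (Option EB) := Nat.cast_nonneg _
  have hs0 : 0 ≤ s := le_trans (by positivity) hs
  have hD1 : ∀ o : Option Ω, RootFn eb (o.elim (fun _ => 1) D) := by
    rintro (_ | ω)
    · exact ⟨fun _ => ⟨zero_le_one, le_rfl⟩, fun _ => Or.inl fun _ _ => rfl⟩
    · exact hD ω
  obtain ⟨B, hB0, hB1, hB2⟩ := CL_bad eb ep hne
    (fun f (p : Option Ω × (Fin (2 * m ^ 2 + 1) → Bool ×
      ((EB → Fin K → Option (V × V)) ⊕ (Finset V × Finset V)))) e => max (bsum m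
      (tests eb (Fintype.card (Option EB)) Mx K f (p.1.elim (fun _ => 1) D)) p.2 e) 0)
    hC hγ hδ (c := 3 * m) (by positivity) (by positivity)
    (fun f p e => ⟨le_max_right _ _, max_le ((le_abs_self _).trans (bsum_le m hm _ (fun t e => by
      have := tests_unit eb hQ0 hM K f (hD1 p.1).1 t e
      rw [abs_of_nonneg this.1]; exact this.2) _ _)) (by positivity)⟩) hS
    (le_trans (by have : (0 : ℝ) ≤ Fintype.card V := Nat.cast_nonneg _; linarith only [hγ, hγ2]) h1) h2
  set Q : ℝ := ((Fintype.card (Option EB) : ℕ) : ℝ) with hQ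
  set ν : (G → α → V) → (G → Option EB) → EB → V × V → ℝ :=
    fun y l f e => Q * den (sp ep y) (lay β l (some f)) e with hν
  have hν0 : ∀ y l f e, 0 ≤ ν y l f e := fun y l f e => mul_nonneg hQ0 (den_nonneg _ _ _)
  have key : ∀ y l, B y l < 1 → ∀ (o : Option Ω) (a w : EB → V × V → ℝ),
      (∀ f e, 0 ≤ a f e ∧ a f e ≤ ν y l f e) → (∀ f, Unit01 (w f)) →
      (∀ f, cut (fun e => a f e - w f e) ≤ 2 * γ) →
      |Lam eb (o.elim (fun _ => 1) D) a - Lam eb (o.elim (fun _ => 1) D) w| ≤ s := by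
    intro y l h o a w ha hw hc
    refine (scl_det eb hv hDC (hD1 o) (ν y l) hQ1 hM hK hm (fun f => ?_) (fun f => (hB2 y l h f).1)
      (fun f c => ((le_abs_self _).trans ((hB2 y l h f).2 (o, c))).trans hγ2) a w ha hw hc).trans hs
    simp only [hν, ← mul_expect]
    exact mul_le_of_le_one_right hQ0 (ex_den_le _ _)
  have key1 : ∀ y l, B y l < 1 → |Lam eb (fun _ => 1) (ν y l) - 1| ≤ s := by
    intro y l h
    have := key y l h none (ν y l) (fun _ _ => 1) (fun f e => ⟨hν0 y l f e, le_rfl⟩)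
      (fun _ _ => ⟨zero_le_one, le_rfl⟩) fun f => (CL_cut eb hm Q Mx K f (fun _ => 1) _
        fun c => (hB2 y l h f).2 (none, c)).trans (by linarith only [hγ])
    rwa [Option.elim_none, CL_lam_one] at this
  have hΛ0 : ∀ y l, 0 ≤ Lam eb (fun _ => 1) (ν y l) := fun y l =>
    (CL_lam_le eb (fun _ => ⟨zero_le_one, le_rfl⟩) fun f e => ⟨hν0 y l f e, le_rfl⟩).1
  have hΛ : 𝔼 y, 𝔼 l, Lam eb (fun _ => 1) (ν y l) ≤ 1 := by
    have := cnt_one (G := G) (V := V) eb ep hne (D := fun _ => 1) fun _ => zero_le_one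
    rw [Fintype.expect_const] at this
    refine le_trans (le_of_eq (expect_congr rfl fun y _ => ?_)) this
    rw [← rainbow eb (sp ep y) _ _ some (Option.some_injective _)]
    simp only [univ_inter, hν, hQ]
  refine ⟨fun y => s + (2 + s) * (Fintype.card EB * (2 * δ * Q / γ)) +
    𝔼 l, ind (1 ≤ B y l) * (Lam eb (fun _ => 1) (ν y l) + 1), fun y => ?_, ?_, ?_⟩
  · have : 0 ≤ 𝔼 l, ind (1 ≤ B y l) * (Lam eb (fun _ => 1) (ν y l) + 1) :=
      expect_nonneg fun l _ => mul_nonneg (ind_nonneg _) (by have := hΛ0 y l; linarith only [hγ, hγ2, this])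
    positivity
  · have := CL_avg B (fun y l => Lam eb (fun _ => 1) (ν y l)) hs0 hB0 hB1 hΛ
      fun y l h => by have := abs_le.1 (key1 y l h); linarith only [this]
    simp only [expect_add_distrib, Fintype.expect_const]
    linarith only [this]
  · intro y ω T w hw hc
    set a : (G → Option EB) → EB → V × V → ℝ :=
      fun l f e => Q * den (sp ep y) (T f ∩ lay β l (some f)) e with ha
    have ha0 : ∀ l f e, 0 ≤ a l f e ∧ a l f e ≤ ν y l f e := fun l f e =>
      ⟨mul_nonneg hQ0 (den_nonneg _ _ _),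
        mul_le_mul_of_nonneg_left (den_mono _ inter_subset_right _) hQ0⟩
    have pt : ∀ l, |Lam eb (D ω) (a l) - Lam eb (D ω) w| ≤ s +
        (2 + s) * ∑ f, cut (fun e => a l f e - den (sp ep y) (T f) e) / γ +
        ind (1 ≤ B y l) * (Lam eb (fun _ => 1) (ν y l) + 1) := by
      intro l
      have b1 := CL_lam_le eb (hD ω).1 (ha0 l)
      have b2 := CL_lam_le eb (hD ω).1 (ν := fun _ _ => 1) hw
      rw [CL_lam_one] at b2
      have b3 : |Lam eb (D ω) (a l) - Lam eb (D ω) w| ≤ Lam eb (fun _ => 1) (ν y l) + 1 :=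
        abs_le.2 ⟨by linarith only [b1, b2, b1.1, b2.2, hΛ0 y l], by linarith only [hγ, hγ2, b1, b2, b1.2, b2.1]⟩
      have b4 : 0 ≤ ∑ f, cut (fun e => a l f e - den (sp ep y) (T f) e) / γ :=
        sum_nonneg fun f _ => div_nonneg (cut_nonneg _) hγ.le
      have b5 := mul_nonneg (by linarith only [hγ, hγ2, hs0] : 0 ≤ 2 + s) b4
      by_cases h : 1 ≤ B y l
      · rw [ind_pos h]; linarith only [hs0, b3, b5]
      rw [ind_neg h]
      by_cases h3 : ∀ f, cut (fun e => a l f e - den (sp ep y) (T f) e) ≤ γ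
      · have := key y l (not_le.1 h) (some ω) (a l) w (ha0 l) hw fun f =>
          (cut_tri _ _ _).trans (by linarith only [h3 f, hc f])
        rw [Option.elim_some] at this
        linarith only [b5, this]
      · obtain ⟨f, hf⟩ := not_forall.1 h3
        have b6 := ((one_le_div hγ).2 (not_le.1 hf).le).trans (single_le_sum
          (f := fun f => cut (fun e => a l f e - den (sp ep y) (T f) e) / γ)
          (fun f _ => div_nonneg (cut_nonneg _) hγ.le) (mem_univ f))
        have b7 := abs_le.1 (key1 y l (not_le.1 h))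
        have b8 := mul_le_mul_of_nonneg_left b6 (by linarith only [hγ, hγ2, hs0] : 0 ≤ 2 + s)
        linarith only [hs0, b3, b7, b8]
    have e1 : Cnt eb (sp ep y) (D ω) T - Lam eb (D ω) w =
        𝔼 l, (Lam eb (D ω) (a l) - Lam eb (D ω) w) := by
      rw [expect_sub_distrib, Fintype.expect_const,
        ← rainbow eb (sp ep y) _ _ some (Option.some_injective _)]
    rw [e1]
    refine (ex_abs _).trans ((ex_mono pt).trans ?_)
    simp only [expect_add_distrib, Fintype.expect_const, ← mul_expect, expect_sum_comm,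
      ← expect_div]
    gcongr
    rw [← card_univ, ← nsmul_eq_mul]
    refine sum_le_card_nsmul _ _ _ fun f _ => ?_
    gcongr
    exact lay_close (sp ep y) (T f) (some f) hδ h1

end aux

variable {α β : Type} [Fintype α] [DecidableEq α] [Fintype β] [DecidableEq β]
  {W : Type} [Fintype W] [DecidableEq W] {H : SimpleGraph W} [DecidableRel H.Adj]
  {ep : β → α × α} {n M : ℕ → ℕ} {τ : ℕ → ℝ}

theorem count_lemma (R : Reg H ep n M τ) {VB EB : Type} [Fintype VB] [DecidableEq VB] [Fintype EB]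
    [DecidableEq EB] (eb : EB → VB × VB) (hDC : DC eb (Fintype.card W) H.edgeFinset.card) {ε : ℝ}
    (hε : 0 < ε) : ∃ γ : ℝ, 0 < γ ∧ ∀ C1 : ℝ, ∀ᶠ j in atTop, ∀ (Ω : Type) [Fintype Ω]
      (D : Ω → (VB → Fin (n j)) → ℝ), Real.log (Fintype.card Ω) ≤ C1 * (n j + 1) →
      (∀ ω, RootFn eb (D ω)) →
      ∃ err : (Fin (M j) → α → Fin (n j)) → ℝ, (∀ y, 0 ≤ err y) ∧ 𝔼 y, err y ≤ ε ∧
        ∀ y ω (T : EB → Finset (Fin (M j) × β)) (w : EB → Fin (n j) × Fin (n j) → ℝ),
          (∀ f, Unit01 (w f)) → (∀ f, cut (fun e => den (sp ep y) (T f) e - w f e) ≤ γ) →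
          |Cnt eb (sp ep y) (D ω) T - Lam eb (D ω) w| ≤ err y := by
  have := R.nb
  obtain ⟨K, hK1, hK2, hK3⟩ := R.net
  have hQ1 : (1 : ℝ) ≤ Fintype.card (Option EB) := by exact_mod_cast Fintype.card_pos
  obtain ⟨C0, hC0, hmom⟩ := mom_S2 eb hDC ep R.ne hQ1
  have hQE : (Fintype.card (Option EB) : ℝ) = Fintype.card EB + 1 := by
    rw [Fintype.card_option]; push_cast; rfl
  set Q : ℝ := ((Fintype.card (Option EB) : ℕ) : ℝ) with hQ
  have hE0 : (0 : ℝ) ≤ Fintype.card EB := Nat.cast_nonneg _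
  obtain ⟨η, hη, hη1, hη2⟩ : ∃ η : ℝ, 0 < η ∧ 15 * Q * η ≤ ε ∧ 15 * Q * η ≤ 1 := by
    refine ⟨min ε 1 / (15 * Q), by positivity, ?_, ?_⟩ <;>
      rw [mul_div_cancel₀ _ (by positivity)]
    exacts [min_le_left _ _, min_le_right _ _]
  obtain ⟨C, hC, hC1⟩ : ∃ C : ℝ, 0 < C ∧ C0 / C ≤ η :=
    ⟨(C0 + 1) / η, by positivity, by
      rw [div_le_iff₀ (by positivity), mul_div_cancel₀ _ hη.ne']; linarith⟩
  obtain ⟨Mx, hM, hM1⟩ : ∃ Mx : ℝ, 0 < Mx ∧ C / Mx ≤ η :=
    ⟨C / η, by positivity, by rw [div_div_cancel₀ hC.ne']⟩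
  obtain ⟨m, hm, hm1⟩ : ∃ m : ℕ, 0 < m ∧ Mx / m + 1 / m ≤ η := by
    have h0 : 0 < ⌈(Mx + 1) / η⌉₊ := Nat.ceil_pos.2 (by positivity)
    refine ⟨_, h0, ?_⟩
    rw [← add_div, div_le_iff₀ (by exact_mod_cast h0), mul_comm, ← div_le_iff₀ hη]
    exact Nat.le_ceil _
  have hm2 : (1 : ℝ) ≤ m := by exact_mod_cast hm
  obtain ⟨δ, hδ, hδ1⟩ : ∃ δ : ℝ, 0 < δ ∧ 4 * δ * (3 * m) * Q / η ≤ η :=
    ⟨η ^ 2 / (12 * m * Q), by positivity, le_of_eq (by field_simp; norm_num)⟩
  have hδ2 : 2 * δ * Q / η ≤ η := le_trans (div_le_div_of_nonneg_right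
    (mul_le_mul_of_nonneg_right (by nlinarith only [hδ, hm2]) (by linarith only [hQ1])) hη.le) hδ1
  refine ⟨η, hη, fun C1 => ?_⟩
  have hr : (0 : ℝ) < ((2 * m ^ 2 + 1 : ℕ) : ℝ) * Q := by positivity
  filter_upwards [hK1, R.pos, R.lin 2 (pow_pos hδ 2),
    R.lin (2 + |C1| + 2 * ((2 * m ^ 2 + 1 : ℕ) : ℝ)) (half_pos (pow_pos hδ 2)),
    hK2 _ (div_pos (half_pos (pow_pos hδ 2)) hr),
    (eventually_all_finset (range (Fintype.card EB + 1) ×ˢ range (Fintype.card VB + 1))).2
      fun p _ => (eventually_imp_distrib_left (p := (Fintype.card W - 2) * p.1 <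
        (H.edgeFinset.card - 1) * p.2)).2 (hK3 Q p.1 p.2 (by positivity))]
    with j j1 j2 j3 j4 j5 j6 Ω _ D hΩ hD
  have : Nonempty (Fin (n j)) := ⟨⟨0, j2.1⟩⟩
  have : Nonempty (Fin (M j)) := ⟨⟨0, j2.1.trans_le j2.2⟩⟩
  have hb : M j ≤ M j * Fintype.card β := Nat.le_mul_of_pos_right _ Fintype.card_pos
  have hK0 : (0 : ℝ) < K j := by exact_mod_cast j1.1
  have c1 : (n j : ℝ) ^ 2 ≤
      Q * (Fintype.card (Fin (n j)) : ℝ) ^ 2 / K j * (M j * Fintype.card β : ℕ) := by
    rw [Fintype.card_fin, div_mul_eq_mul_div, le_div_iff₀ hK0]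
    have b1 : (K j : ℝ) ≤ (M j * Fintype.card β : ℕ) := by exact_mod_cast j1.2.trans hb
    exact mul_le_mul (le_mul_of_one_le_left (by positivity) hQ1) b1 hK0.le (by positivity)
  have c2 : ∀ a c : ℕ, a ≤ Fintype.card EB → c ≤ Fintype.card VB →
      (Fintype.card W - 2) * a < (H.edgeFinset.card - 1) * c →
      (Q * (Fintype.card (Fin (n j)) : ℝ) ^ 2 / K j) ^ a ≤ (n j : ℝ) ^ c := by
    intro a c ha hc hac
    rw [Fintype.card_fin]
    exact j6 (a, c) (mem_product.2 ⟨mem_range.2 (by omega), mem_range.2 (by omega)⟩) hac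
  have c3 := CL_card (EB := EB) (n j) (K j) (2 * m ^ 2 + 1) hΩ
  have b1 : 0 ≤ K j * Real.log ((n j : ℝ) ^ 2 + 1) :=
    mul_nonneg hK0.le (Real.log_nonneg (by nlinarith only [sq_nonneg (n j : ℝ)]))
  have c4 : ((2 * m ^ 2 + 1 : ℕ) : ℝ) * Fintype.card EB * (K j * Real.log ((n j : ℝ) ^ 2 + 1)) ≤
      ((2 * m ^ 2 + 1 : ℕ) : ℝ) * Q * (δ ^ 2 / 2 / (((2 * m ^ 2 + 1 : ℕ) : ℝ) * Q) * M j) := by
    gcongr
    linarith only [hQE]
  rw [← mul_assoc _ _ (M j : ℝ), mul_div_cancel₀ _ hr.ne'] at c4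
  obtain ⟨err, e0, e1, e2⟩ := CL_fin (G := Fin (M j)) eb R.bal.h3 hDC ep R.ne D hD
    (s := 4 * (Fintype.card EB * η)) (C0 := C0) hC hM j1.1 hm hη (by nlinarith only [hQ1, hη2]) hδ
    (by nlinarith only [hm1, hM1, hE0, mul_le_mul_of_nonneg_left (add_le_add hm1 hM1) hE0])
    (fun l f => hmom (n j) (M j) _ l some _ (Option.some_injective _) j2.1 (j2.2.trans hb) c1 c2 f)
    (by simpa only [Fintype.card_fin] using j3)
    (c3.trans (by rw [Fintype.card_fin]; linarith only [j4, c4]))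
  refine ⟨err, e0, e1.trans ?_, e2⟩
  rw [← hQ]
  have b0 : 0 ≤ Fintype.card EB * η := by positivity
  have b1 : 15 * (Fintype.card EB * η) ≤ 15 * Q * η := by rw [hQE]; nlinarith only [hη]
  have b2 := mul_le_mul_of_nonneg_left hδ2 hE0
  have b3 := mul_le_mul_of_nonneg_left (add_le_add hC1 hδ1) hE0
  have b4 : (2 + 4 * (Fintype.card EB * η)) * (Fintype.card EB * (2 * δ * Q / η)) ≤
      3 * (Fintype.card EB * η) := mul_le_mul (by linarith only [hη2, b1]) b2 (by positivity) (by norm_num)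
  linarith only [hη1, b1, b3, b4]

end Pool.Agent.Work.MP_d4a230_co.U
end
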