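import Pool.Agent.Work.MP_d4a230_co.U.Model

-- merged part: Pool.Agent.Work.MP_d4a230_co.U.Couple
section
-- merged part: Pool.Agent.Work.MP_d4a230_co.U.P3
section
/-!
Tools for the Bernoulli product expectation Ex (file Work/MP_07f1b5_pr/Basic: wt, Ex, Adm,
Ex_split, Ex_affine, Ex_indep, wt_eq).
PLAN. Ex_ins: Ex p f = p i * Ex p (f (insert i .)) + (1 - p i) * Ex p (f (erase . i)) (pair ω with
its flip at i). russo: HasDerivAt.finset_prod for the weight wt, wt_eq, and the same pairing.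
Ex_prod: Finset.prod_add / prod_univ_sum. Ex_mix: the map (ω, ω2) to (ω \ S ∪ ω2 ∩ S, ω2 \ S ∪ ω ∩ S)
is a weight preserving involution. Ex_inter, Ex_map: compare weights of fibres, or induct, or test
on the functions ind (ω = A) written as products and use a two-sided product formula
Ex p (prod over all i of if i in ω then g i else h i) = prod (p i g i + (1 - p i) h i).
Ex_abs_lin: Cauchy-Schwarz and the second moment through Ex_ins.
-/

namespace Pool.Agent.Work.MP_d4a230_co.U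

open Finset Filter Topology Pool.Agent.Work.MP_07f1b5_pr
open scoped BigOperators


variable {ι : Type} [Fintype ι] [DecidableEq ι]

lemma P3_upd0 (p : ι → ℝ) (i : ι) (f : Finset ι → ℝ) :
    Ex (Function.update p i 0) f = Ex p fun ω => f (ω.erase i) := by
  have h : ∀ ω, wt (Function.update p i 0) ω ≠ 0 → ω.erase i = ω := fun ω h =>
    erase_eq_of_notMem fun hi => ne_zero_of_wt_ne h hi (Function.update_self ..)
  rw [Ex_split p i, Ex_congr_ae (f := fun ω => f (ω.erase i)) (g := f) fun ω hω => by rw [h ω hω],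
    Ex_congr_ae (f := fun ω => f ((insert i ω).erase i)) (g := f) fun ω hω => by
      rw [erase_insert_eq_erase, h ω hω]]
  ring

lemma P3_upd1 (p : ι → ℝ) (i : ι) (f : Finset ι → ℝ) :
    Ex (Function.update p i 1) f = Ex p fun ω => f (insert i ω) := by
  rw [Ex_update_one, P3_upd0]
  congr 1
  funext ω
  congr 1
  ext j
  by_cases h : j = i <;> simp [h]

omit [DecidableEq ι] in
lemma P3_all (P : ι → Prop) : ∏ j, ind (P j) = ind (∀ j, P j) := by
  by_cases h : ∀ j, P j
  · rw [ind_pos h]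
    exact prod_eq_one fun j _ => ind_pos (h j)
  · rw [ind_neg h]
    obtain ⟨j, hj⟩ := not_forall.1 h
    exact prod_eq_zero (mem_univ j) (ind_neg hj)

lemma P3_push {κ : Type} [Fintype κ] [DecidableEq κ] {p : ι → ℝ} {q : κ → ℝ}
    (Φ : Finset ι → Finset κ) (h : ∀ A, (Ex p fun ω => ind (Φ ω = A)) = wt q A)
    (f : Finset κ → ℝ) : (Ex p fun ω => f (Φ ω)) = Ex q f := by
  have e : ∀ B, f B = ∑ A, ind (B = A) * f A := fun B => by
    rw [sum_eq_single B (fun A _ hA => by rw [ind_neg hA.symm, zero_mul]) (by simp), ind_pos rfl,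
      one_mul]
  rw [show (fun ω => f (Φ ω)) = fun ω => ∑ A, ind (Φ ω = A) * f A from funext fun ω => e _, Ex_sum]
  exact sum_congr rfl fun A _ => by rw [Ex_mul_const, h]

lemma Ex_mono {p : ι → ℝ} (hp : Adm p) {f g : Finset ι → ℝ} (h : ∀ ω, f ω ≤ g ω) :
    Ex p f ≤ Ex p g := by
  exact Ex_mono_ae hp fun ω _ => h ω

lemma Ex_abs {p : ι → ℝ} (hp : Adm p) (f : Finset ι → ℝ) : |Ex p f| ≤ Ex p fun ω => |f ω| := by
  refine (abs_sum_le_sum_abs _ _).trans (le_of_eq (sum_congr rfl fun ω _ => ?_))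
  rw [abs_mul, abs_of_nonneg (wt_nonneg hp ω)]

lemma ex_Ex {X : Type} [Fintype X] (p : ι → ℝ) (f : X → Finset ι → ℝ) :
    𝔼 x, Ex p (f x) = Ex p fun ω => 𝔼 x, f x ω := by
  unfold Ex
  rw [expect_sum_comm]
  exact sum_congr rfl fun ω _ => (mul_expect _ _ _).symm

lemma Ex_comm {κ : Type} [Fintype κ] [DecidableEq κ] (p : ι → ℝ) (q : κ → ℝ)
    (f : Finset ι → Finset κ → ℝ) :
    (Ex p fun ω => Ex q (f ω)) = Ex q fun ξ => Ex p fun ω => f ω ξ := by
  simp only [Ex, mul_sum]
  rw [sum_comm]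
  exact sum_congr rfl fun _ _ => sum_congr rfl fun _ _ => by ring

lemma Ex_ins (p : ι → ℝ) (i : ι) (f : Finset ι → ℝ) :
    Ex p f = p i * (Ex p fun ω => f (insert i ω)) + (1 - p i) * Ex p fun ω => f (ω.erase i) := by
  rw [Ex_affine p i f, P3_upd0, P3_upd1, add_comm]

lemma Ex_mem (p : ι → ℝ) (i : ι) : (Ex p fun ω => ind (i ∈ ω)) = p i := by
  rw [Ex_ins p i]
  simp only [ind_pos (mem_insert_self i _), ind_neg (notMem_erase i _), Ex_const]
  ring

lemma Ex_erase (p : ι → ℝ) (i : ι) (g : Finset ι → ℝ) :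
    (1 - p i) * (Ex p fun ω => g (ω.erase i)) = Ex p fun ω => ind (i ∉ ω) * g ω := by
  rw [Ex_ins p i fun ω => ind (i ∉ ω) * g ω]
  simp only [ind_pos (notMem_erase i _), ind_neg (not_not.2 (mem_insert_self i _)), zero_mul,
    one_mul, Ex_const, mul_zero, zero_add]

lemma Ex_erase_close {p : ι → ℝ} (hp : Adm p) (i : ι) (g : Finset ι → ℝ) {b : ℝ}
    (hg : ∀ ω, 0 ≤ g ω ∧ g ω ≤ b) : |(Ex p fun ω => g (ω.erase i)) - Ex p g| ≤ b * p i := by
  have k : ∀ φ : Finset ι → Finset ι, 0 ≤ (Ex p fun ω => g (φ ω)) ∧ (Ex p fun ω => g (φ ω)) ≤ b :=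
    fun φ => ⟨Ex_nonneg hp fun ω => (hg _).1, (Ex_mono hp fun ω => (hg _).2).trans_eq (Ex_const p b)⟩
  obtain ⟨a1, a2⟩ := k (insert i)
  obtain ⟨a3, a4⟩ := k fun ω => ω.erase i
  have h0 := (hp i).1
  rw [Ex_ins p i g, abs_le]
  constructor <;> nlinarith only [a2, h0, a3, a1, a4]

lemma russo (p q : ι → ℝ) (f : ℝ → Finset ι → ℝ) (f1 : Finset ι → ℝ) (t : ℝ)
    (hf : ∀ ω, HasDerivAt (fun s => f s ω) (f1 ω) t) :
    HasDerivAt (fun s => Ex (fun i => p i + s * q i) (f s))
      (∑ i, q i * (Ex (fun i => p i + t * q i) fun ω => f t (insert i ω) - f t (ω.erase i)) +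
        Ex (fun i => p i + t * q i) f1) t := by
  have hw : ∀ ω : Finset ι, HasDerivAt (fun s => wt (fun i => p i + s * q i) ω)
      (∑ i, q i * (wt (Function.update (fun i => p i + t * q i) i 1) ω -
        wt (Function.update (fun i => p i + t * q i) i 0) ω)) t := fun ω => by
    have h := HasDerivAt.fun_finsetProd (u := univ) (x := t)
      (f := fun i s => if i ∈ ω then p i + s * q i else 1 - (p i + s * q i))
      (f' := fun i => if i ∈ ω then q i else -q i) fun i _ => by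
        have h1 : HasDerivAt (fun s => p i + s * q i) (q i) t := by
          simpa using ((hasDerivAt_id t).mul_const (q i)).const_add (p i)
        split_ifs
        exacts [h1, h1.const_sub 1]
    refine h.congr_deriv (sum_congr rfl fun i _ => ?_)
    rw [wt_update, wt_update, smul_eq_mul]
    split_ifs <;> ring
  refine (HasDerivAt.fun_sum (u := univ) fun ω _ => (hw ω).fun_mul (hf ω)).congr_deriv ?_
  rw [sum_add_distrib]
  congr 1
  simp only [sum_mul]
  rw [sum_comm]
  refine sum_congr rfl fun i _ => ?_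
  rw [Ex_sub, ← P3_upd0, ← P3_upd1, Ex, Ex, ← sum_sub_distrib, mul_sum]
  exact sum_congr rfl fun ω _ => by ring

lemma Ex_prod_ite (p g h : ι → ℝ) :
    (Ex p fun ω => ∏ i, if i ∈ ω then g i else h i) = ∏ i, (p i * g i + (1 - p i) * h i) := by
  rw [prod_add, powerset_univ]
  refine sum_congr rfl fun ω _ => ?_
  rw [wt, ← prod_mul_distrib, ← prod_sdiff (subset_univ ω), mul_comm]
  congr 1
  · exact prod_congr rfl fun i hi => by rw [if_pos hi, if_pos hi]
  · exact prod_congr rfl fun i hi => by rw [if_neg (mem_sdiff.1 hi).2, if_neg (mem_sdiff.1 hi).2]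

lemma Ex_prod (p g : ι → ℝ) : (Ex p fun ω => ∏ i ∈ ω, g i) = ∏ i, (1 - p i + p i * g i) := by
  have h := Ex_prod_ite p g fun _ => 1
  simp only [prod_ite_mem, univ_inter, mul_one] at h
  rw [h]
  exact prod_congr rfl fun i _ => add_comm _ _

lemma Ex_prod_not (p g : ι → ℝ) (i0 : ι) :
    (Ex p fun ω => ind (i0 ∉ ω) * ∏ i ∈ ω, g i) =
      (1 - p i0) * ∏ i ∈ univ.erase i0, (1 - p i + p i * g i) := by
  have e : ∀ ω : Finset ι, ind (i0 ∉ ω) * ∏ i ∈ ω, g i = ∏ i ∈ ω, Function.update g i0 0 i :=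
    fun ω => by
      by_cases h : i0 ∈ ω
      · rw [ind_neg (not_not.2 h), zero_mul, prod_eq_zero h (Function.update_self ..)]
      · rw [ind_pos h, one_mul]
        exact prod_congr rfl fun i hi => (Function.update_of_ne (ne_of_mem_of_not_mem hi h) ..).symm
  simp only [e]
  rw [Ex_prod, ← mul_prod_erase _ _ (mem_univ i0), Function.update_self, mul_zero, add_zero]
  congr 1
  exact prod_congr rfl fun i hi => by rw [Function.update_of_ne (ne_of_mem_erase hi)]

lemma Ex_mix (p : ι → ℝ) (S : Finset ι) (f : Finset ι → ℝ) :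
    Ex p f = Ex p fun ω => Ex p fun ω2 => f (ω \ S ∪ ω2 ∩ S) := by
  let sw : Finset ι × Finset ι → Finset ι × Finset ι :=
    fun x => (x.1 \ S ∪ x.2 ∩ S, x.2 \ S ∪ x.1 ∩ S)
  have hinv : Function.Involutive sw := by
    rintro ⟨a, b⟩
    simp only [sw, Prod.mk.injEq]
    constructor <;> (ext x; by_cases hx : x ∈ S <;> simp [hx])
  have hw : ∀ x : Finset ι × Finset ι, wt p (sw x).1 * wt p (sw x).2 = wt p x.1 * wt p x.2 := by
    rintro ⟨a, b⟩
    unfold wt
    rw [← prod_mul_distrib, ← prod_mul_distrib]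
    refine prod_congr rfl fun e _ => ?_
    by_cases hx : e ∈ S <;> by_cases ha : e ∈ a <;> by_cases hb : e ∈ b <;>
      simp [sw, hx, ha, hb, mul_comm]
  have h : ∀ F : Finset ι → Finset ι → ℝ, (Ex p fun ω => Ex p (F ω)) =
      ∑ x : Finset ι × Finset ι, wt p x.1 * wt p x.2 * F x.1 x.2 := fun F => by
    simp only [Ex, mul_sum, Fintype.sum_prod_type, mul_assoc]
  rw [h, show Ex p f = Ex p fun ω => Ex p fun _ => f ω by simp only [Ex_const], h,
    ← Equiv.sum_comp hinv.toPerm]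
  exact sum_congr rfl fun x _ => by rw [Function.Involutive.coe_toPerm, hw]

lemma Ex_inter (p : ι → ℝ) (A : Finset ι) (f : Finset ι → ℝ) :
    (Ex p fun ω => f (ω ∩ A)) = Ex (fun i => p i * ind (i ∈ A)) f := by
  refine P3_push (fun ω => ω ∩ A) (fun B => ?_) f
  have e : ∀ ω : Finset ι, ind (ω ∩ A = B) =
      ∏ j, if j ∈ ω then ind (j ∈ A ↔ j ∈ B) else ind (j ∉ B) := fun ω => by
    simp only [← apply_ite ind, P3_all]
    refine ind_congr (Finset.ext_iff.trans (forall_congr' fun j => ?_))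
    by_cases h : j ∈ ω <;> simp [h]
  simp only [e]
  rw [Ex_prod_ite, wt]
  refine prod_congr rfl fun j _ => ?_
  by_cases h : j ∈ A <;> by_cases h' : j ∈ B <;> simp [h, h', ind]

lemma Ex_map {κ : Type} [Fintype κ] [DecidableEq κ] (e : κ → ι) (he : Function.Injective e)
    (p : ι → ℝ) (f : Finset κ → ℝ) :
    (Ex p fun ω => f (univ.filter fun i => e i ∈ ω)) = Ex (fun i => p (e i)) f := by
  refine P3_push (fun ω => univ.filter fun i => e i ∈ ω) (fun B => ?_) f
  have k : ∀ ω : Finset ι, ind ((univ.filter fun i => e i ∈ ω) = B) =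
      ∏ j, if j ∈ ω then ind (∀ i, e i = j → i ∈ B) else ind (∀ i, e i = j → i ∉ B) := fun ω => by
    simp only [← apply_ite ind, P3_all]
    refine ind_congr ⟨fun h j => ?_, fun h => Finset.ext fun i => ?_⟩
    · subst h
      split_ifs with hj <;> rintro i rfl <;> simp [hj]
    · have h1 := h (e i)
      split_ifs at h1 with hj <;> simp [hj, h1 i rfl]
  simp only [k]
  rw [Ex_prod_ite, wt]
  refine (Fintype.prod_of_injective e he _ _ (fun j hj => ?_) fun i => ?_).symm
  · rw [ind_pos fun i hi => (hj ⟨i, hi⟩).elim, ind_pos fun i hi => (hj ⟨i, hi⟩).elim]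
    ring
  · by_cases h : i ∈ B <;> simp [he.eq_iff, h, ind]

lemma Ex_det (A : Finset ι) (f : Finset ι → ℝ) : Ex (fun i => ind (i ∈ A)) f = f A := by
  refine (Ex_congr_ae fun ω h => ?_).trans (Ex_const _ _)
  congr 1
  exact Finset.ext fun i => ⟨fun hi => by_contra fun e => ne_zero_of_wt_ne h hi (ind_neg e),
    fun hi => mem_of_wt_ne h (ind_pos hi)⟩

lemma Ex_zero {p : ι → ℝ} (hp : ∀ i, p i = 0) (f : Finset ι → ℝ) : Ex p f = f ∅ := by
  refine (Ex_congr_ae fun ω h => ?_).trans (Ex_const _ _)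
  rw [eq_empty_of_forall_notMem fun i hi => ne_zero_of_wt_ne h hi (hp i)]

lemma Ex_one {p : ι → ℝ} (hp : ∀ i, p i = 1) (f : Finset ι → ℝ) : Ex p f = f univ := by
  refine (Ex_congr_ae fun ω h => ?_).trans (Ex_const _ _)
  rw [eq_univ_of_forall fun i => mem_of_wt_ne h (hp i)]

lemma Ex_abs_lin {p : ι → ℝ} (hp : Adm p) (c : ι → ℝ) :
    (Ex p fun ω => |∑ i, c i * (ind (i ∈ ω) - p i)|) ≤ Real.sqrt (∑ i, c i ^ 2) := by
  obtain ⟨X, hX⟩ : ∃ X : Finset ι → ℝ, ∀ ω, X ω = ∑ i, c i * (ind (i ∈ ω) - p i) :=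
    ⟨_, fun _ => rfl⟩
  simp only [← hX]
  have h0 : ∀ i j, i ≠ j → (Ex p fun ω => (ind (i ∈ ω) - p i) * (ind (j ∈ ω) - p j)) = 0 :=
    fun i j h => by
      rw [Ex_ins p i]
      simp only [ind_pos (mem_insert_self i _), ind_neg (notMem_erase i _), Ex_const_mul]
      simp only [mem_insert, mem_erase, h.symm, false_or, ne_eq, not_false_eq_true, true_and]
      ring
  have h1 : (Ex p fun ω => X ω ^ 2) ≤ ∑ i, c i ^ 2 := by
    have e : ∀ ω, X ω ^ 2 =
        ∑ i, ∑ j, c i * c j * ((ind (i ∈ ω) - p i) * (ind (j ∈ ω) - p j)) := fun ω => by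
      rw [hX, sq, sum_mul_sum]
      exact sum_congr rfl fun _ _ => sum_congr rfl fun _ _ => by ring
    simp only [e, Ex_sum, Ex_const_mul]
    refine sum_le_sum fun i _ => ?_
    rw [sum_eq_single i (fun j _ hj => by rw [h0 i j hj.symm, mul_zero]) (by simp), ← sq]
    refine mul_le_of_le_one_right (sq_nonneg _) ((Ex_mono hp fun ω => ?_).trans_eq (Ex_const p 1))
    nlinarith only [ind_nonneg (i ∈ ω), ind_le_one (i ∈ ω), (hp i).1, (hp i).2]
  refine Real.le_sqrt_of_sq_le (le_trans ?_ h1)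
  obtain ⟨m, hm⟩ : ∃ m, (Ex p fun ω => |X ω|) = m := ⟨_, rfl⟩
  have h2 : 0 ≤ Ex p fun ω => X ω ^ 2 - 2 * m * |X ω| + m ^ 2 :=
    Ex_nonneg hp fun ω => by nlinarith only [sq_nonneg (|X ω| - m), sq_abs (X ω)]
  rw [Ex_add, Ex_sub, Ex_const_mul, Ex_const, hm] at h2
  rw [hm]
  linarith

end Pool.Agent.Work.MP_d4a230_co.U
end

-- merged part: Pool.Agent.Work.MP_d4a230_co.U.Gib
section
/-!
Gibbs averages and partition functions.
PLAN. gib_prod: Finset.prod_univ_sum / Finset.sum_pow'. log_le_gib: on states with w > 0 use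
log x <= x - 1 for x = Z / (card * w s), weight by w s / Z and sum. logZ_lip: both partition
functions lie between Z0 and (1 + lam) Z0, Z0 the sum over σ without i (pair σ with σ.erase i).
good_sum: induction on B (one variable at a time, same pairing). log_ins: cw (insert c A) =
cw (A.erase c) * (1 - θ ind). log_var: split the sum over σ by i ∈ σ.
-/

namespace Pool.Agent.Work.MP_d4a230_co.U

open Finset Filter Topology Pool.Agent.Work.MP_07f1b5_pr
open scoped BigOperators


variable {S : Type} [Fintype S] {r : ℕ}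

lemma gib_add (w : S → ℝ) (F G : (Fin r → S) → ℝ) :
    gib r w (fun σ => F σ + G σ) = gib r w F + gib r w G := by
  unfold gib
  rw [← add_div, ← sum_add_distrib]
  simp only [mul_add]

lemma gib_sub (w : S → ℝ) (F G : (Fin r → S) → ℝ) :
    gib r w (fun σ => F σ - G σ) = gib r w F - gib r w G := by
  unfold gib
  rw [← sub_div, ← sum_sub_distrib]
  simp only [mul_sub]

lemma gib_mul (w : S → ℝ) (c : ℝ) (F : (Fin r → S) → ℝ) :
    gib r w (fun σ => c * F σ) = c * gib r w F := by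
  unfold gib
  rw [← mul_div_assoc, mul_sum]
  simp only [mul_left_comm c]

lemma gib_sum {κ : Type} (w : S → ℝ) (s : Finset κ) (F : κ → (Fin r → S) → ℝ) :
    gib r w (fun σ => ∑ k ∈ s, F k σ) = ∑ k ∈ s, gib r w (F k) := by
  unfold gib
  rw [← sum_div, sum_comm]
  simp only [mul_sum]

lemma gib_ex {κ : Type} [Fintype κ] (w : S → ℝ) (F : κ → (Fin r → S) → ℝ) :
    gib r w (fun σ => 𝔼 k, F k σ) = 𝔼 k, gib r w (F k) := by
  simp only [expect_eq_sum_div_card, div_eq_inv_mul]
  rw [gib_mul, gib_sum]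

lemma gib_mono {w : S → ℝ} (hw : ∀ s, 0 ≤ w s) {F G : (Fin r → S) → ℝ}
    (h : ∀ σ, (∀ l, w (σ l) ≠ 0) → F σ ≤ G σ) : gib r w F ≤ gib r w G := by
  unfold gib
  refine div_le_div_of_nonneg_right (sum_le_sum fun σ _ => ?_)
    (pow_nonneg (sum_nonneg fun s _ => hw s) _)
  by_cases hσ : ∀ l, w (σ l) ≠ 0
  · exact mul_le_mul_of_nonneg_left (h σ hσ) (prod_nonneg fun l _ => hw _)
  · push Not at hσ
    obtain ⟨l, hl⟩ := hσ
    rw [prod_eq_zero (mem_univ l) hl, zero_mul, zero_mul]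

lemma gib_const {w : S → ℝ} (hZ : ∑ s, w s ≠ 0) (c : ℝ) : gib r w (fun _ => c) = c := by
  unfold gib
  rw [← sum_mul, ← Fintype.sum_pow, mul_div_cancel_left₀ _ (pow_ne_zero _ hZ)]

lemma gib_abs {w : S → ℝ} (hw : ∀ s, 0 ≤ w s) (F : (Fin r → S) → ℝ) :
    |gib r w F| ≤ gib r w fun σ => |F σ| := by
  rw [abs_le]
  refine ⟨?_, gib_mono hw fun σ _ => le_abs_self _⟩
  have h := gib_mono (r := r) hw (F := fun σ => (-1) * |F σ|) (G := F) fun σ _ => by
    have := neg_abs_le (F σ)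
    linarith only [this]
  rw [gib_mul] at h
  linarith

lemma gib_prod (w f : S → ℝ) :
    gib r w (fun σ => ∏ l, f (σ l)) = ((∑ s, w s * f s) / ∑ s, w s) ^ r := by
  unfold gib
  rw [div_pow, Fintype.sum_pow (fun s => w s * f s)]
  simp only [prod_mul_distrib]

lemma log_le_gib {w g : S → ℝ} (hw : ∀ s, 0 ≤ w s) (hZ : 0 < ∑ s, w s)
    (h : ∀ s, w s ≤ Real.exp (g s)) :
    Real.log (∑ s, w s) ≤ gib 1 w (fun σ => g (σ 0)) + Real.log (Fintype.card S) := by
  have e : gib 1 w (fun σ => g (σ 0)) = (∑ s, w s * g s) / ∑ s, w s := by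
    have := gib_prod (r := 1) w g
    simpa only [Fin.prod_univ_succ, Fin.prod_univ_zero, mul_one, pow_one] using this
  have hne : Nonempty S := by
    by_contra hc
    rw [not_nonempty_iff] at hc
    simp at hZ
  have hc : (0 : ℝ) < Fintype.card S := Nat.cast_pos.2 Fintype.card_pos
  set Z := ∑ s, w s with hZd
  have key : ∀ s, w s * (Real.log Z - Real.log (Fintype.card S)) - w s * g s ≤
      Z / Fintype.card S - w s := by
    intro s
    rcases (hw s).eq_or_lt with h0 | h0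
    · rw [← h0]
      simp only [zero_mul, sub_zero]
      positivity
    · have h1 : Real.log (w s) ≤ g s := by
        have := Real.log_le_log h0 (h s)
        rwa [Real.log_exp] at this
      have h2 := Real.log_le_sub_one_of_pos (x := Z / Fintype.card S / w s) (by positivity)
      rw [Real.log_div (by positivity) h0.ne', Real.log_div hZ.ne' hc.ne'] at h2
      have h3 := mul_le_mul_of_nonneg_left h2 h0.le
      have h4 := mul_le_mul_of_nonneg_left h1 h0.le
      have h5 : w s * (Z / Fintype.card S / w s - 1) = Z / Fintype.card S - w s := by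
        field_simp
      nlinarith only [h3, h4, h5]
  have hs := sum_le_sum fun s (_ : s ∈ (univ : Finset S)) => key s
  rw [sum_sub_distrib, sum_sub_distrib, ← sum_mul, sum_const, card_univ, nsmul_eq_mul,
    mul_div_cancel₀ _ hc.ne', ← hZd] at hs
  rw [e, ← sub_le_iff_le_add, le_div_iff₀ hZ]
  linarith

variable {I : Type} [Fintype I] [DecidableEq I]

lemma Gib_fac {θ : ℝ} (h0 : 0 ≤ θ) (h1 : θ < 1) (q : Prop) :
    0 < 1 - θ * ind q ∧ 1 - θ * ind q ≤ 1 := by
  have a := mul_le_of_le_one_right h0 (ind_le_one q)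
  have b := mul_nonneg h0 (ind_nonneg q)
  constructor <;> linarith

lemma Gib_split (i : I) (F : Finset I → ℝ) :
    ∑ σ, F σ = ∑ σ, ind (i ∉ σ) * (F σ + F (insert i σ)) := by
  have e : ∀ T : Finset I → ℝ, ∑ σ, ind (i ∉ σ) * T σ = ∑ σ with i ∉ σ, T σ := fun T => by
    rw [sum_filter]
    refine sum_congr rfl fun σ _ => ?_
    by_cases hσ : i ∈ σ
    · rw [ind_neg (not_not.2 hσ), zero_mul, if_neg (not_not.2 hσ)]
    · rw [ind_pos hσ, one_mul, if_pos hσ]
  rw [e, sum_add_distrib, ← sum_filter_not_add_sum_filter univ (fun σ => i ∈ σ) F]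
  refine congrArg _ (sum_nbij' (fun σ => σ.erase i) (fun σ => insert i σ) ?_ ?_ ?_ ?_ ?_)
  · intro σ _
    simp
  · intro σ _
    simp
  · intro σ hσ
    exact insert_erase (mem_filter.1 hσ).2
  · intro σ hσ
    exact erase_insert (mem_filter.1 hσ).2
  · intro σ hσ
    rw [insert_erase (mem_filter.1 hσ).2]

lemma Gib_pos (i : I) {w : Finset I → ℝ} (h0 : ∀ σ, 0 ≤ w σ) (he : 0 < w ∅) :
    0 < ∑ σ, ind (i ∉ σ) * w σ :=
  sum_pos' (fun σ _ => mul_nonneg (ind_nonneg _) (h0 σ))
    ⟨∅, mem_univ _, by rw [ind_pos (notMem_empty i), one_mul]; exact he⟩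

lemma Gib_two {lam : ℝ} {w : Finset I → ℝ} (i : I) (h0 : ∀ σ, 0 ≤ w σ)
    (h1 : ∀ σ, w σ ≤ lam * w (σ.erase i) ∨ i ∉ σ) :
    ∑ σ, ind (i ∉ σ) * w σ ≤ ∑ σ, w σ ∧ ∑ σ, w σ ≤ (1 + lam) * ∑ σ, ind (i ∉ σ) * w σ := by
  refine ⟨sum_le_sum fun σ _ => mul_le_of_le_one_left (h0 σ) (ind_le_one _), ?_⟩
  rw [Gib_split i w, mul_sum]
  refine sum_le_sum fun σ _ => ?_
  by_cases hσ : i ∈ σ
  · rw [ind_neg (not_not.2 hσ)]
    simp
  · have := (h1 (insert i σ)).resolve_right (not_not.2 (mem_insert_self i σ))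
    rw [erase_insert hσ] at this
    rw [ind_pos hσ]
    linarith

lemma ind_cap (C : Finset I) (σ : Fin r → Finset I) : ind (C ⊆ cap σ) = ∏ l, ind (C ⊆ σ l) := by
  by_cases h : ∀ l, C ⊆ σ l
  · rw [ind_pos (show C ⊆ cap σ from Finset.le_inf fun l _ => h l)]
    exact (prod_eq_one fun l _ => ind_pos (h l)).symm
  · have h2 : ¬ C ⊆ cap σ := fun hc => h fun l =>
      Finset.Subset.trans hc (Finset.inf_le (f := σ) (mem_univ l))
    push Not at h
    obtain ⟨l, hl⟩ := h
    rw [ind_neg h2, prod_eq_zero (mem_univ l) (ind_neg hl)]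

lemma good_fug {lam : ℝ} (h : 0 ≤ lam) : Good lam (fug lam : Finset I → ℝ) := by
  refine ⟨fun σ => pow_nonneg h _, by simp [fug], fun σ i => le_of_eq ?_⟩
  unfold fug
  have e : insert i σ = insert i (σ.erase i) := by
    ext x
    by_cases hx : x = i <;> simp [hx]
  rw [e, card_insert_of_notMem (notMem_erase i σ), pow_succ']

lemma cw_bd {X : Type} {θ : ℝ} (h0 : 0 ≤ θ) (h1 : θ < 1) (sup : X → Finset I) (A : Finset X)
    (σ : Finset I) : 0 < cw θ sup A σ ∧ cw θ sup A σ ≤ 1 := by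
  exact ⟨prod_pos fun c _ => (Gib_fac h0 h1 _).1,
    prod_le_one (fun c _ => (Gib_fac h0 h1 _).1.le) fun c _ => (Gib_fac h0 h1 _).2⟩

lemma cw_anti {X : Type} {θ : ℝ} (h0 : 0 ≤ θ) (h1 : θ < 1) (sup : X → Finset I) (A : Finset X)
    {σ σ2 : Finset I} (h : σ ⊆ σ2) : cw θ sup A σ2 ≤ cw θ sup A σ := by
  refine prod_le_prod (fun c _ => (Gib_fac h0 h1 _).1.le) fun c _ => ?_
  have := mul_le_mul_of_nonneg_left
    (ind_mono (q := sup c ⊆ σ) (r := sup c ⊆ σ2) fun hc => hc.trans h) h0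
  linarith

lemma good_UV {X : Type} {lam θ : ℝ} (h : 0 ≤ lam) (h0 : 0 ≤ θ) (h1 : θ < 1) (sup : X → Finset I)
    (A : Finset X) : Good lam (UV lam θ sup A) := by
  obtain ⟨a, b, c⟩ := good_fug (I := I) h
  refine ⟨fun σ => mul_nonneg (a σ) (cw_bd h0 h1 sup A σ).1.le,
    mul_pos b (cw_bd h0 h1 sup A ∅).1, fun σ i => ?_⟩
  unfold UV
  rw [← mul_assoc]
  exact mul_le_mul (c σ i) (cw_anti h0 h1 sup A ((erase_subset i σ).trans (subset_insert i σ)))
    (cw_bd h0 h1 sup A _).1.le (mul_nonneg h (a _))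

lemma good_pres {lam : ℝ} (h : 0 ≤ lam) (P : Finset I) :
    Good lam fun σ : Finset I => fug lam σ * ind (σ ⊆ P) := by
  obtain ⟨a, b, c⟩ := good_fug (I := I) h
  refine ⟨fun σ => mul_nonneg (a σ) (ind_nonneg _), ?_, fun σ i => ?_⟩
  · show 0 < fug lam ∅ * ind (∅ ⊆ P)
    rw [ind_pos (empty_subset P), mul_one]
    exact b
  · show fug lam _ * ind _ ≤ lam * (fug lam _ * ind _)
    rw [← mul_assoc]
    exact mul_le_mul (c σ i)
      (ind_mono fun hc => ((erase_subset i σ).trans (subset_insert i σ)).trans hc)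
      (ind_nonneg _) (mul_nonneg h (a _))

lemma good_sum {lam : ℝ} (hl : 0 ≤ lam) {U : Finset I → ℝ} (hU : Good lam U) (B : Finset I)
    (f : Finset I → ℝ) (hf : ∀ σ, 0 ≤ f σ) :
    ∑ σ, U σ * f (σ \ B) ≤ (1 + lam) ^ B.card * ∑ σ, ind (Disjoint σ B) * (U σ * f σ) := by
  induction B using Finset.induction_on generalizing f with
  | empty =>
    simp only [sdiff_empty, card_empty, pow_zero, one_mul, disjoint_empty_right]
    exact le_of_eq (sum_congr rfl fun σ _ => by rw [ind_pos trivial, one_mul])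
  | insert i B hi ih =>
    have h1 := ih (fun τ => f (τ.erase i)) fun τ => hf _
    simp only [← sdiff_insert] at h1
    refine h1.trans ?_
    rw [card_insert_of_notMem hi, pow_succ, mul_assoc]
    refine mul_le_mul_of_nonneg_left ?_ (pow_nonneg (by linarith) _)
    rw [Gib_split i, mul_sum]
    refine sum_le_sum fun σ _ => ?_
    by_cases hσ : i ∈ σ
    · rw [ind_neg (not_not.2 hσ), zero_mul]
      exact mul_nonneg (by linarith) (mul_nonneg (ind_nonneg _) (mul_nonneg (hU.1 _) (hf _)))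
    · have e1 : ind (Disjoint (insert i σ) B) = ind (Disjoint σ B) :=
        ind_congr (by rw [disjoint_insert_left]; exact and_iff_right hi)
      have e2 : ind (Disjoint σ (insert i B)) = ind (Disjoint σ B) :=
        ind_congr (by rw [disjoint_insert_right]; exact and_iff_right hσ)
      have h3 := hU.2.2 σ i
      rw [erase_eq_of_notMem hσ] at h3
      rw [ind_pos hσ, one_mul, e1, e2, erase_insert hσ, erase_eq_of_notMem hσ]
      have h4 := mul_le_mul_of_nonneg_left (mul_le_mul_of_nonneg_right h3 (hf σ))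
        (ind_nonneg (Disjoint σ B))
      linarith

lemma sum_fug (lam : ℝ) : ∑ σ : Finset I, fug lam σ = (1 + lam) ^ Fintype.card I := by
  have := Fintype.sum_pow_mul_eq_add_pow I lam 1
  simpa only [one_pow, mul_one, add_comm lam 1, fug] using this

lemma logZ_lip {lam : ℝ} (hl : 0 ≤ lam) {w w2 : Finset I → ℝ} (i : I) (h0 : ∀ σ, 0 ≤ w σ)
    (h0b : ∀ σ, 0 ≤ w2 σ) (he : 0 < w ∅) (h : ∀ σ, i ∉ σ → w σ = w2 σ)
    (h1 : ∀ σ, w σ ≤ lam * w (σ.erase i) ∨ i ∉ σ) (h2 : ∀ σ, w2 σ ≤ lam * w2 (σ.erase i) ∨ i ∉ σ) :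
    |Real.log (∑ σ, w σ) - Real.log (∑ σ, w2 σ)| ≤ Real.log (1 + lam) := by
  obtain ⟨a1, a2⟩ := Gib_two i h0 h1
  obtain ⟨b1, b2⟩ := Gib_two i h0b h2
  have e : ∑ σ, ind (i ∉ σ) * w2 σ = ∑ σ, ind (i ∉ σ) * w σ := sum_congr rfl fun σ _ => by
    by_cases hσ : i ∈ σ
    · rw [ind_neg (not_not.2 hσ), zero_mul, zero_mul]
    · rw [h σ hσ]
  rw [e] at b1 b2
  have hp := Gib_pos i h0 he
  have hl1 : 0 < 1 + lam := by linarith
  have c1 := Real.log_le_log hp a1
  have c2 := Real.log_le_log (hp.trans_le a1) a2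
  have c3 := Real.log_le_log hp b1
  have c4 := Real.log_le_log (hp.trans_le b1) b2
  rw [Real.log_mul hl1.ne' hp.ne'] at c2 c4
  rw [abs_le]
  constructor <;> linarith

/-- Switching on one constraint. -/
lemma log_ins {θ : ℝ} (h0 : 0 ≤ θ) (h1 : θ < 1) {U g : Finset I → ℝ}
    (hU : ∀ σ, 0 ≤ U σ) (hZ : 0 < ∑ σ, U σ) (hg : ∀ σ, 0 ≤ g σ ∧ g σ ≤ 1) :
    Real.log (∑ σ, U σ * (1 - θ * g σ)) - Real.log (∑ σ, U σ) =
      Real.log (1 - θ * ((∑ σ, U σ * g σ) / ∑ σ, U σ)) := by
  have h2 : (∑ σ, U σ * g σ) / ∑ σ, U σ ≤ 1 := by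
    rw [div_le_one hZ]
    exact sum_le_sum fun σ _ => mul_le_of_le_one_right (hU σ) (hg σ).2
  have h3 : 0 < 1 - θ * ((∑ σ, U σ * g σ) / ∑ σ, U σ) := by
    have := mul_le_mul_of_nonneg_left h2 h0
    linarith only [h1, this]
  have e : ∑ σ, U σ * (1 - θ * g σ) =
      (∑ σ, U σ) * (1 - θ * ((∑ σ, U σ * g σ) / ∑ σ, U σ)) := by
    have : ∑ σ, U σ * (1 - θ * g σ) = ∑ σ, U σ - θ * ∑ σ, U σ * g σ := by
      rw [mul_sum, ← sum_sub_distrib]
      exact sum_congr rfl fun σ _ => by ring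
    rw [this]
    field_simp
  rw [e, Real.log_mul hZ.ne' h3.ne']
  ring

/-- Switching on one variable. -/
lemma log_var {lam : ℝ} (hl : 0 ≤ lam) {w g : Finset I → ℝ} (i : I) (hw : ∀ σ, 0 ≤ w σ)
    (he : 0 < w ∅) (hg : ∀ σ, 0 ≤ g σ) (h : ∀ σ, i ∉ σ → w (insert i σ) = lam * (w σ * g σ)) :
    Real.log (∑ σ, w σ) - Real.log (∑ σ, ind (i ∉ σ) * w σ) =
      Real.log (1 + lam * ((∑ σ, ind (i ∉ σ) * w σ * g σ) / ∑ σ, ind (i ∉ σ) * w σ)) := by
  have hp := Gib_pos i hw he
  have h2 : 0 ≤ ∑ σ, ind (i ∉ σ) * w σ * g σ :=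
    sum_nonneg fun σ _ => mul_nonneg (mul_nonneg (ind_nonneg _) (hw σ)) (hg σ)
  have h3 : 0 < 1 + lam * ((∑ σ, ind (i ∉ σ) * w σ * g σ) / ∑ σ, ind (i ∉ σ) * w σ) := by
    positivity
  have e : ∑ σ, w σ = (∑ σ, ind (i ∉ σ) * w σ) *
      (1 + lam * ((∑ σ, ind (i ∉ σ) * w σ * g σ) / ∑ σ, ind (i ∉ σ) * w σ)) := by
    have : ∑ σ, w σ = ∑ σ, ind (i ∉ σ) * w σ + lam * ∑ σ, ind (i ∉ σ) * w σ * g σ := by
      rw [Gib_split i w, mul_sum, ← sum_add_distrib]
      refine sum_congr rfl fun σ _ => ?_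
      by_cases hσ : i ∈ σ
      · rw [ind_neg (not_not.2 hσ)]
        ring
      · rw [h σ hσ]
        ring
    rw [this]
    field_simp
  rw [e, Real.log_mul hp.ne' h3.ne']
  ring

variable {V G : Type} [Fintype V] [DecidableEq V] [DecidableEq G]
  {W : Type} [Fintype W] [DecidableEq W] {H : SimpleGraph W} [DecidableRel H.Adj]

lemma aw_bd {θ : ℝ} (h0 : 0 ≤ θ) (h1 : θ < 1) (q : I → Sym2 V) (cp : I → G)
    (act : Finset (Finset I)) (σ : Finset I) : 0 < aw H θ q cp act σ ∧ aw H θ q cp act σ ≤ 1 := by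
  exact ⟨prod_pos fun c _ => (Gib_fac h0 h1 _).1,
    prod_le_one (fun c _ => (Gib_fac h0 h1 _).1.le) fun c _ => (Gib_fac h0 h1 _).2⟩

lemma aw_anti {θ : ℝ} (h0 : 0 ≤ θ) (h1 : θ < 1) (q : I → Sym2 V) (cp : I → G)
    (act : Finset (Finset I)) {σ σ2 : Finset I} (h : σ ⊆ σ2) :
    aw H θ q cp act σ2 ≤ aw H θ q cp act σ := by
  refine prod_le_prod (fun c _ => (Gib_fac h0 h1 _).1.le) fun c _ => ?_
  have := mul_le_mul_of_nonneg_left
    (ind_mono (q := Acd H q cp c ∧ c ⊆ σ) (r := Acd H q cp c ∧ c ⊆ σ2)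
      fun hc => ⟨hc.1, hc.2.trans h⟩) h0
  linarith only [this]

lemma Acd_congr {q q2 : I → Sym2 V} (cp : I → G) {C : Finset I} (h : ∀ i ∈ C, q i = q2 i) :
    Acd H q cp C ↔ Acd H q2 cp C := by
  unfold Acd
  rw [image_congr (s := C) (f := q) (g := q2) fun i hi => h i hi]

variable {α β : Type} [Fintype G] [Fintype α] [DecidableEq α] [Fintype β] [DecidableEq β]

lemma Wt_nonneg {lam θ : ℝ} (h0 : 0 ≤ θ) (h1 : θ < 1) (ep : β → α × α) {U : Finset (G × β) → ℝ}
    (hU : Good lam U) (y : G → α → V) (act : Finset (Finset (G × β))) (σ : Finset (G × β)) :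
    0 ≤ Wt H θ ep U y act σ := by
  exact mul_nonneg (hU.1 σ) (aw_bd h0 h1 _ _ act σ).1.le

lemma Wt_sum_pos {lam θ : ℝ} (h0 : 0 ≤ θ) (h1 : θ < 1) (ep : β → α × α) {U : Finset (G × β) → ℝ}
    (hU : Good lam U) (y : G → α → V) (act : Finset (Finset (G × β))) :
    0 < ∑ σ, Wt H θ ep U y act σ := by
  exact sum_pos' (fun σ _ => Wt_nonneg h0 h1 ep hU y act σ)
    ⟨∅, mem_univ _, mul_pos hU.2.1 (aw_bd h0 h1 _ _ act ∅).1⟩

section EG

variable {lam θ τ : ℝ} {ep : β → α × α} {U : Finset (G × β) → ℝ}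
  {F F2 : (G → α → V) → Finset (Finset (G × β)) → (Fin r → Finset (G × β)) → ℝ}

lemma EG_add : EG H θ τ ep U r (fun y a σ => F y a σ + F2 y a σ) =
    EG H θ τ ep U r F + EG H θ τ ep U r F2 := by
  unfold EG
  simp only [gib_add, E_add, expect_add_distrib]

lemma EG_sub : EG H θ τ ep U r (fun y a σ => F y a σ - F2 y a σ) =
    EG H θ τ ep U r F - EG H θ τ ep U r F2 := by
  unfold EG
  simp only [gib_sub, E_sub, expect_sub_distrib]

lemma EG_mul (c : ℝ) : EG H θ τ ep U r (fun y a σ => c * F y a σ) = c * EG H θ τ ep U r F := by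
  unfold EG
  simp only [gib_mul, E_const_mul, mul_expect]

lemma EG_sum {κ : Type} (s : Finset κ)
    (F : κ → (G → α → V) → Finset (Finset (G × β)) → (Fin r → Finset (G × β)) → ℝ) :
    EG H θ τ ep U r (fun y a σ => ∑ k ∈ s, F k y a σ) = ∑ k ∈ s, EG H θ τ ep U r (F k) := by
  unfold EG
  simp only [gib_sum, E_sum, expect_sum_comm]

lemma EG_mono (h0 : 0 ≤ θ) (h1 : θ < 1) (t0 : 0 ≤ τ) (t1 : τ ≤ 1) (hU : Good lam U)
    (h : ∀ y a σ, (∀ l, U (σ l) ≠ 0) → F y a σ ≤ F2 y a σ) :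
    EG H θ τ ep U r F ≤ EG H θ τ ep U r F2 := by
  refine ex_mono fun y => E_mono t0 t1 fun a => gib_mono (Wt_nonneg h0 h1 ep hU y a)
    fun σ hσ => h y a σ fun l hl => hσ l ?_
  unfold Wt
  rw [hl, zero_mul]

lemma EG_abs (h0 : 0 ≤ θ) (h1 : θ < 1) (t0 : 0 ≤ τ) (t1 : τ ≤ 1) (hU : Good lam U) :
    |EG H θ τ ep U r F| ≤ EG H θ τ ep U r fun y a σ => |F y a σ| := by
  exact (ex_abs _).trans (ex_mono fun y => (abs_E_le t0 t1 _).trans
    (E_mono t0 t1 fun a => gib_abs (Wt_nonneg h0 h1 ep hU y a) _))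

/-- A function of the disorder only. -/
lemma EG_dis (h0 : 0 ≤ θ) (h1 : θ < 1) (hU : Good lam U)
    (g : (G → α → V) → Finset (Finset (G × β)) → ℝ) :
    EG H θ τ ep U r (fun y a _ => g y a) = 𝔼 y, E τ (g y) := by
  unfold EG
  simp only [gib_const (Wt_sum_pos h0 h1 ep hU _ _).ne']

lemma EG_pos (h0 : 0 ≤ θ) (h1 : θ < 1) (hU : Good lam U) (g : (G → α → V) → ℝ) :
    EG H θ τ ep U r (fun y _ _ => g y) = 𝔼 y, g y := by
  rw [EG_dis h0 h1 hU fun y _ => g y]
  simp only [E_const]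

end EG

end Pool.Agent.Work.MP_d4a230_co.U
end

-- merged part: Pool.Agent.Work.MP_d4a230_co.U.Trans
section
/-!
Transport of free energies along embeddings, products, regrouping.
PLAN. fv_map: the sum over σ reduces to σ = σ2.map e (other σ have U = 0); an active set C that is
not inside the range of e gives factor 1; Ex_map with C2 mapsto C2.map e. lz_fv: Ex_inter with
A = filter Acd. lz_map: lz_fv twice and fv_map (Acd is invariant: image of a map, card_map, InjOn).
fe_sub: lz_map and ex_curry / ex_comp_inj (y mapsto fun g a => y (eg g a).1 (eg g a).2).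
fv_prod: the partition function is a product over g (Finset σ of G × β corresponds to G → Finset β,
Finset.prod_univ_sum), log of a product, Ex_sum, Ex_map with C mapsto (g, C).
regroup: embed Fin M × β into Fin N; lz monotone in U (drop the variables outside the image);
fe_sub-like transport to the matching pattern but with the finer component map; the two weights
differ by the active sets C that are copies with two variables in one group, each costs a factor
1 - θ, so the logs differ by at most -log(1-θ) times their number; its mean is at most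
τ * (M b * b) * k^2 * (M b)^(k-2) * n^v * (2/n^2)^k (label C by the edges; ex_prod_indep, ex_hit)
= rate * aut * b * k.
-/

namespace Pool.Agent.Work.MP_d4a230_co.U

open Finset Filter Topology Pool.Agent.Work.MP_07f1b5_pr
open scoped BigOperators


variable {I I2 V G G2 : Type} [Fintype I] [DecidableEq I] [Fintype I2] [DecidableEq I2] [Fintype V]
  [DecidableEq V] [DecidableEq G] [DecidableEq G2]
  {W : Type} [Fintype W] [DecidableEq W] {H : SimpleGraph W} [DecidableRel H.Adj]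

lemma Trans_cw {X X2 : Type} [Fintype X2] [DecidableEq X] (θ : ℝ) {e : X2 → X}
    (he : Function.Injective e) {sup : X → Finset I} {sup2 : X2 → Finset I2} {σ : Finset I}
    {σ2 : Finset I2} (h1 : ∀ c, sup (e c) ⊆ σ ↔ sup2 c ⊆ σ2) (h2 : ∀ c, sup c ⊆ σ → ∃ c2, e c2 = c)
    (ω : Finset X) : cw θ sup2 (univ.filter fun c => e c ∈ ω) σ2 = cw θ sup ω σ := by
  refine prod_of_injOn e he.injOn (fun c hc => (mem_filter.1 hc).2) (fun c hc hn => ?_)
    fun c _ => by rw [ind_congr (h1 c)]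
  rw [ind_neg, mul_zero, sub_zero]
  intro h
  obtain ⟨c2, rfl⟩ := h2 c h
  exact hn ⟨c2, mem_filter.2 ⟨mem_univ _, hc⟩, rfl⟩

lemma Trans_acd (e : I2 ↪ I) (q : I → Sym2 V) {cp : I → G} {cp2 : I2 → G2}
    (hc : ∀ i j, cp (e i) = cp (e j) ↔ cp2 i = cp2 j) (C : Finset I2) :
    Acd H q cp (C.map e) ↔ Acd H (fun i => q (e i)) cp2 C := by
  unfold Acd
  rw [card_map, map_eq_image, image_image]
  refine and_congr Iff.rfl (and_congr Iff.rfl ⟨fun h i hi j hj k => ?_, fun h i hi j hj k => ?_⟩)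
  · exact e.injective (h (mem_image_of_mem _ hi) (mem_image_of_mem _ hj) ((hc i j).2 k))
  · obtain ⟨i, hi2, rfl⟩ := mem_image.1 hi
    obtain ⟨j, hj2, rfl⟩ := mem_image.1 hj
    rw [h hi2 hj2 ((hc i j).1 k)]

lemma Trans_pos {U w : Finset I → ℝ} (hU : ∀ σ, 0 ≤ U σ) (he : 0 < U ∅) (hw : ∀ σ, 0 < w σ) :
    0 < ∑ σ, U σ * w σ :=
  sum_pos' (fun σ _ => mul_nonneg (hU σ) (hw σ).le) ⟨∅, mem_univ _, mul_pos he (hw _)⟩

theorem fv_map (θ : ℝ) (e : I2 ↪ I) (p : Finset I → ℝ) (U : Finset I → ℝ)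
    (hU : ∀ σ, ¬ σ ⊆ univ.map e → U σ = 0) :
    FV θ p id U = FV θ (fun C => p (C.map e)) id fun σ => U (σ.map e) := by
  unfold FV
  rw [← Ex_map (fun C : Finset I2 => C.map e) (map_injective e) p]
  refine congrArg (Ex p) (funext fun ω => congrArg Real.log ?_)
  refine (Fintype.sum_of_injective (fun C : Finset I2 => C.map e) (map_injective e) _ _
    (fun σ hσ => ?_) fun σ => ?_).symm
  · rw [hU σ, zero_mul]
    intro h
    obtain ⟨u, -, rfl⟩ := subset_map_iff.1 h
    exact hσ ⟨u, rfl⟩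
  · rw [Trans_cw θ (map_injective e) (sup := id) (sup2 := id) (σ := σ.map e) (σ2 := σ) (fun c => map_subset_map)
      fun c h => ?_]
    obtain ⟨u, -, rfl⟩ := subset_map_iff.1 h
    exact ⟨u, rfl⟩

theorem lz_fv (θ τ : ℝ) (q : I → Sym2 V) (cp : I → G) (U : Finset I → ℝ) :
    LZ H θ τ q cp U = FV θ (fun C => τ * ind (Acd H q cp C)) id U := by
  classical
  have e : (fun C => τ * ind (Acd H q cp C)) =
      fun C => τ * ind (C ∈ univ.filter (Acd H q cp)) := funext fun C => by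
    rw [ind_congr (q := C ∈ univ.filter (Acd H q cp)) (r := Acd H q cp C) (by simp)]
  unfold FV LZ E
  rw [e, ← Ex_inter]
  refine congrArg (Ex _) (funext fun ω => congrArg Real.log (sum_congr rfl fun σ _ => ?_))
  rw [inter_filter, inter_univ, cw, prod_filter, aw]
  refine congrArg _ (prod_congr rfl fun C _ => ?_)
  split_ifs with h
  · rw [ind_congr (and_iff_right h)]
    rfl
  · rw [ind_neg fun k => h k.1, mul_zero, sub_zero]

theorem lz_map (θ τ : ℝ) (e : I2 ↪ I) (q : I → Sym2 V) (cp : I → G) (cp2 : I2 → G2)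
    (hc : ∀ i j, cp (e i) = cp (e j) ↔ cp2 i = cp2 j) (U : Finset I → ℝ)
    (hU : ∀ σ, ¬ σ ⊆ univ.map e → U σ = 0) :
    LZ H θ τ q cp U = LZ H θ τ (fun i => q (e i)) cp2 fun σ => U (σ.map e) := by
  rw [lz_fv, lz_fv, fv_map θ e _ U hU]
  simp only [Trans_acd e q hc]

theorem lz_mono {θ τ : ℝ} (h0 : 0 ≤ θ) (h1 : θ < 1) (t0 : 0 ≤ τ) (t1 : τ ≤ 1) (q : I → Sym2 V)
    (cp : I → G) {U U2 : Finset I → ℝ} (hU : ∀ σ, 0 ≤ U σ) (he : 0 < U ∅) (h : ∀ σ, U σ ≤ U2 σ) :
    LZ H θ τ q cp U ≤ LZ H θ τ q cp U2 := by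
  refine E_mono t0 t1 fun ω => Real.log_le_log
    (Trans_pos hU he fun σ => (aw_bd h0 h1 q cp ω σ).1) (sum_le_sum fun σ _ => ?_)
  exact mul_le_mul_of_nonneg_right (h σ) (aw_bd h0 h1 q cp ω σ).1.le

theorem fv_bd {X : Type} [Fintype X] [DecidableEq X] {lam θ : ℝ} (hl : 0 ≤ lam) (h0 : 0 ≤ θ)
    (h1 : θ < 1) {p : X → ℝ} (hp : Adm p) (sup : X → Finset I) (he : ∀ c, sup c = ∅ → p c = 0) :
    0 ≤ FV θ p sup (fug lam) ∧ FV θ p sup (fug lam) ≤ Fintype.card I * Real.log (1 + lam) := by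
  have g := good_fug (I := I) hl
  constructor
  · refine (Ex_const p 0).symm.trans_le (Ex_mono_ae hp fun ω hω => Real.log_nonneg ?_)
    refine le_trans (le_of_eq ?_) (single_le_sum (f := fun σ => fug lam σ * cw θ sup ω σ)
      (fun σ _ => mul_nonneg (g.1 σ) (cw_bd h0 h1 sup ω σ).1.le) (mem_univ ∅))
    rw [fug, card_empty, pow_zero, one_mul, cw, prod_eq_one fun c hc => ?_]
    rw [ind_neg fun k => ne_zero_of_wt_ne hω hc (he c (subset_empty.1 k)), mul_zero, sub_zero]
  · refine (Ex_mono hp fun ω => ?_).trans_eq (Ex_const p _)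
    rw [← Real.log_pow, ← sum_fug]
    exact Real.log_le_log (Trans_pos g.1 g.2.1 fun σ => (cw_bd h0 h1 sup ω σ).1)
      (sum_le_sum fun σ _ => mul_le_of_le_one_right (g.1 σ) (cw_bd h0 h1 sup ω σ).2)

theorem fu_eq (k : ℕ) (L lam θ : ℝ) (N : ℕ) :
    FV θ (fun C : Finset (Fin N × Unit) => L / ((N - 1).choose (k - 1) : ℝ) * ind (C.card = k)) id
      (fug lam) = FU k L lam θ N := by
  rw [fv_map θ (Equiv.prodUnique (Fin N) Unit).symm.toEmbedding _ _ fun σ h => by simp at h]
  simp only [card_map, fug]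
  rfl

variable {α β : Type} [Fintype G] [Fintype α] [DecidableEq α] [Fintype β] [DecidableEq β]

lemma Trans_Z (lam θ : ℝ) (A : Finset (G × Finset β)) :
    ∑ σ : Finset (G × β), fug lam σ * cw θ (fun c => c.2.image fun b => (c.1, b)) A σ =
      ∏ g, ∑ s : Finset β, fug lam s * cw θ id (univ.filter fun C => (g, C) ∈ A) s := by
  let e : Finset (G × β) ≃ (G → Finset β) :=
    ⟨fun σ g => univ.filter fun b => (g, b) ∈ σ, fun x => univ.filter fun i => i.2 ∈ x i.1,
      fun σ => by ext; simp, fun x => by ext; simp⟩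
  rw [Fintype.prod_sum]
  refine Fintype.sum_equiv e _ _ fun σ => ?_
  have k : ∀ {X : Type} [Fintype X] [DecidableEq X] (S : Finset (G × X)) (F : G × X → ℝ),
      ∏ c ∈ S, F c = ∏ g, ∏ x ∈ univ.filter fun x => (g, x) ∈ S, F (g, x) := fun S F => by
    simp only [prod_filter]
    rw [← Fintype.prod_prod_type (f := fun c => if c ∈ S then F c else 1), ← prod_filter]
    simp
  rw [prod_mul_distrib, fug, ← prod_const, k, cw, k]
  refine congrArg₂ _ (prod_congr rfl fun g _ => prod_const _)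
    (prod_congr rfl fun g _ => prod_congr rfl fun C _ => ?_)
  refine congrArg (1 - θ * ·) (ind_congr ?_)
  simp only [subset_iff, e, Equiv.coe_fn_mk, mem_filter, mem_univ, true_and, id]
  exact ⟨fun h b hb => h (mem_image_of_mem _ hb), fun h x hx => by
    obtain ⟨b, hb, rfl⟩ := mem_image.1 hx
    exact h hb⟩

lemma Trans_ex [Nonempty V] [Fintype G2] {α2 : Type} [Fintype α2] [DecidableEq α2]
    (e : G2 × α2 → G × α) (he : Function.Injective e) (f : (G2 → α2 → V) → ℝ) :
    𝔼 y : G → α → V, f (fun g a => y (e (g, a)).1 (e (g, a)).2) = 𝔼 z, f z := by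
  rw [← ex_curry f, ← ex_comp_inj e he, ← ex_curry]

theorem fv_prod {lam θ : ℝ} (hl : 0 ≤ lam) (h0 : 0 ≤ θ) (h1 : θ < 1) (π : Finset β → ℝ) :
    FV θ (fun c : G × Finset β => π c.2) (fun c => c.2.image fun b => (c.1, b)) (fug lam) =
      Fintype.card G * FV θ π id (fug lam) := by
  have g := good_fug (I := β) hl
  unfold FV
  simp only [Trans_Z]
  rw [funext fun A : Finset (G × Finset β) => Real.log_prod (s := univ)
    (f := fun g => ∑ s : Finset β, fug lam s * cw θ id (univ.filter fun C => (g, C) ∈ A) s)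
    fun x _ => (Trans_pos g.1 g.2.1 fun σ => (cw_bd h0 h1 id _ σ).1).ne', Ex_sum,
    sum_congr rfl fun x _ => Ex_map (fun C : Finset β => (x, C)) (Prod.mk_right_injective x) _
      fun A => Real.log (∑ s : Finset β, fug lam s * cw θ id A s)]
  simp only [sum_const, card_univ, nsmul_eq_mul]

/-- Restriction to a sub-pattern. -/
theorem fe_sub [Nonempty V] {α2 β2 : Type} [Fintype α2] [DecidableEq α2] [Fintype β2]
    [DecidableEq β2] (θ τ lam : ℝ) (ep : β → α × α) (ep2 : β2 → α2 × α2) (ea : α2 ↪ α)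
    (eb : β2 ↪ β) (h : ∀ b, ep (eb b) = (ea (ep2 b).1, ea (ep2 b).2)) :
    FE H V θ τ ep (fun σ : Finset (G × β) =>
        fug lam σ * ind (σ ⊆ univ.filter fun i => i.2 ∈ univ.map eb)) =
      FE H V θ τ ep2 (fug lam : Finset (G × β2) → ℝ) := by
  unfold FE
  rw [← Trans_ex (G := G) (Prod.map id ea) (Function.injective_id.prodMap ea.injective)]
  refine expect_congr rfl fun y _ => ?_
  rw [lz_map θ τ ((Function.Embedding.refl G).prodMap eb) _ _ Prod.fst (fun _ _ => Iff.rfl) _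
    fun σ hσ => ?_]
  · refine congrArg₂ (fun q U => LZ H θ τ q Prod.fst U) (funext fun i => ?_) (funext fun σ => ?_)
    · simp only [sp, sl, Function.Embedding.coe_prodMap, Prod.map, h]
      rfl
    · rw [ind_pos, mul_one, fug, fug, card_map]
      intro i hi
      obtain ⟨i, -, rfl⟩ := mem_map.1 hi
      exact mem_filter.2 ⟨mem_univ _, mem_map_of_mem _ (mem_univ _)⟩
  · rw [ind_neg, mul_zero]
    refine fun k => hσ fun i hi => ?_
    obtain ⟨b, -, hb⟩ := mem_map.1 (mem_filter.1 (k hi)).2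
    exact mem_map.2 ⟨(i.1, b), mem_univ _, Prod.ext rfl hb⟩

lemma Trans_cmp {θ τ : ℝ} (h0 : 0 ≤ θ) (h1 : θ < 1) (t0 : 0 ≤ τ) (t1 : τ ≤ 1) (q : I → Sym2 V)
    (cp : I → G) {U : Finset I → ℝ} (hU : ∀ σ, 0 ≤ U σ) (he : 0 < U ∅) :
    LZ H θ τ q cp U - τ * (∑ C, ind (Acd H q id C ∧ ¬ Set.InjOn cp C)) / (1 - θ) ≤
      LZ H θ τ q id U := by
  have e : τ * (∑ C, ind (Acd H q id C ∧ ¬ Set.InjOn cp C)) / (1 - θ) = E τ fun ω =>
      ∑ C, ind (C ∈ ω) * (ind (Acd H q id C ∧ ¬ Set.InjOn cp C) / (1 - θ)) := by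
    rw [E_sum, mul_div_assoc, sum_div, mul_sum]
    exact sum_congr rfl fun C _ => by rw [E, Ex_mul_const, Ex_mem]
  rw [e, LZ, ← E_sub]
  refine E_mono t0 t1 fun ω => ?_
  have a := fun C : Finset I => Gib_fac h0 h1 (Acd H q id C ∧ ¬ Set.InjOn cp C)
  have z := Trans_pos hU he fun σ => (aw_bd (H := H) h0 h1 q cp ω σ).1
  have b : 0 < ∏ C ∈ ω, (1 - θ * ind (Acd H q id C ∧ ¬ Set.InjOn cp C)) := prod_pos fun C _ => (a C).1
  refine le_trans ?_ (Real.log_le_log (mul_pos z b) ?_)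
  · rw [Real.log_mul z.ne' b.ne', Real.log_prod fun C _ => (a C).1.ne', sub_eq_add_neg,
      add_le_add_iff_left, ← sum_neg_distrib, ← sum_subset (subset_univ ω) fun C _ h => by
        rw [ind_neg h, zero_mul, neg_zero]]
    refine sum_le_sum fun C h => ?_
    rw [ind_pos h, one_mul]
    by_cases k : Acd H q id C ∧ ¬ Set.InjOn cp C
    · rw [ind_pos k, mul_one, one_div]
      linarith only [h1, Real.one_sub_inv_le_log_of_pos (sub_pos.2 h1)]
    · simp [ind_neg k]
  · rw [sum_mul]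
    refine sum_le_sum fun σ _ => ?_
    rw [mul_assoc, aw, aw, ← prod_mul_distrib]
    refine mul_le_mul_of_nonneg_left (prod_le_prod
      (fun C _ => (mul_pos (Gib_fac h0 h1 _).1 (a C).1).le) fun C _ => ?_) (hU σ)
    by_cases k : Acd H q id C ∧ C ⊆ σ
    · rw [ind_pos k]
      by_cases l : Set.InjOn cp C
      · rw [ind_pos (q := Acd H q cp C ∧ C ⊆ σ) ⟨⟨k.1.1, k.1.2.1, l⟩, k.2⟩]
        exact mul_le_of_le_one_right (by linarith) (a C).2
      · rw [ind_pos (q := Acd H q id C ∧ ¬ Set.InjOn cp C) ⟨k.1, l⟩]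
        exact mul_le_of_le_one_left (by linarith) (Gib_fac h0 h1 _).2
    · rw [ind_neg k, mul_zero, sub_zero]
      exact mul_le_one₀ (Gib_fac h0 h1 _).2 (a C).1.le (a C).2

lemma Trans_pt (i : I) (p : Sym2 V) :
    𝔼 z : I → Bool → V, ind (s(z i false, z i true) = p) ≤ 2 / (Fintype.card V : ℝ) ^ 2 := by
  induction p using Sym2.ind with | _ a b => ?_
  rw [ex_update i]
  refine ex_le (by positivity) fun y => ?_
  rw [← ex_hit Bool.false_ne_true (a, b)]
  refine ex_mono fun z => ?_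
  simp only [Function.update_self]
  exact le_mul_of_one_le_right (ind_nonneg _) (le_add_of_nonneg_right (ind_nonneg _))

lemma Trans_two {X : Type} [Fintype X] [DecidableEq X] {f f' : X} (h : f ≠ f') :
    ∑ ι : X → G × β, ind ((ι f).1 = (ι f').1) =
      (Fintype.card (G × β) : ℝ) ^ (Fintype.card X - 1) * Fintype.card β := by
  rw [Fintype.sum_equiv (Equiv.funSplitAt f' (G × β)) (fun ι => ind ((ι f).1 = (ι f').1))
    (fun x => ind ((x.2 ⟨f, h⟩).1 = x.1.1)) fun ι => rfl, Fintype.sum_prod_type_right,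
    sum_congr rfl (g := fun _ => (Fintype.card β : ℝ)) fun r _ => ?_, sum_const, card_univ,
    nsmul_eq_mul, Fintype.card_fun, Nat.cast_pow, Fintype.card_subtype_compl, Fintype.card_subtype_eq]
  rw [Fintype.sum_prod_type, sum_eq_single (r ⟨f, h⟩).1 (fun g _ k => sum_eq_zero fun b _ =>
    ind_neg k.symm) fun k => absurd (mem_univ _) k]
  simp [ind_pos]

lemma Trans_cnt [Nonempty V] :
    (𝔼 z : G × β → Bool → V, ∑ C : Finset (G × β),
      ind (Acd H (fun i => s(z i false, z i true)) id C ∧ ¬ Set.InjOn Prod.fst (C : Set (G × β)))) ≤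
    (Fintype.card V : ℝ) ^ Fintype.card W * ((H.edgeFinset.card : ℝ) ^ 2 *
      ((Fintype.card (G × β) : ℝ) ^ (H.edgeFinset.card - 1) * Fintype.card β) *
        (2 / (Fintype.card V : ℝ) ^ 2) ^ H.edgeFinset.card) := by
  let F : (W → V) × (H.edgeFinset → G × β) → (G × β → Bool → V) → Prop := fun x z =>
    Function.Injective x.2 ∧ (∃ p ∈ (univ : Finset (H.edgeFinset × H.edgeFinset)),
      p.1 ≠ p.2 ∧ (x.2 p.1).1 = (x.2 p.2).1) ∧
      ∀ f, s(z (x.2 f) false, z (x.2 f) true) = f.1.map x.1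
  have s1 : ∀ z : G × β → Bool → V, ∑ C : Finset (G × β),
      ind (Acd H (fun i => s(z i false, z i true)) id C ∧ ¬ Set.InjOn Prod.fst (C : Set (G × β))) ≤
      ∑ x, ind (F x z) := fun z => by
    calc _ ≤ ∑ C : Finset (G × β), ∑ x, ind (F x z ∧ univ.image x.2 = C) := by
          refine sum_le_sum fun C _ => le_trans (ind_mono fun ⟨⟨h1, h2, _⟩, h3⟩ => ?_)
            (ind_exists_le _ _)
          obtain ⟨φ, -, hφ⟩ := mem_image.1 h1
          have : ∀ f : H.edgeFinset, ∃ i ∈ C, s(z i false, z i true) = f.1.map φ := fun f =>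
            mem_image.1 (hφ ▸ mem_image_of_mem _ f.2)
          choose ι i1 i2 using this
          have hi : Function.Injective ι := fun f f' e =>
            Subtype.ext (Sym2.map.injective φ.injective (by rw [← i2, ← i2, e]))
          have hC : univ.image ι = C := eq_of_subset_of_card_le (image_subset_iff.2 fun f _ => i1 f)
            (by rw [card_image_of_injective _ hi, card_univ, Fintype.card_coe, h2])
          refine ⟨(φ, ι), mem_univ _, ⟨hi, ?_, i2⟩, hC⟩
          by_contra k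
          refine h3 fun i a j b c => ?_
          obtain ⟨f, -, rfl⟩ := mem_image.1 (hC.ge a)
          obtain ⟨f', -, rfl⟩ := mem_image.1 (hC.ge b)
          by_contra l
          exact k ⟨(f, f'), mem_univ _, fun e => l (congrArg ι e), c⟩
      _ = _ := by
          rw [sum_comm]
          refine sum_congr rfl fun x _ => ?_
          rw [sum_eq_single (univ.image x.2) (fun C _ e => ind_neg fun k => e k.2.symm)
            fun k => absurd (mem_univ _) k]
          exact ind_congr (and_iff_left rfl)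
  have s2 : ∀ x, 𝔼 z, ind (F x z) ≤ (∑ p : H.edgeFinset × H.edgeFinset,
      ind (p.1 ≠ p.2 ∧ (x.2 p.1).1 = (x.2 p.2).1)) *
        (2 / (Fintype.card V : ℝ) ^ 2) ^ H.edgeFinset.card := fun x => by
    refine le_trans ?_ (mul_le_mul_of_nonneg_right (ind_exists_le _ _) (by positivity))
    by_cases h : Function.Injective x.2 ∧ ∃ p ∈ (univ : Finset (H.edgeFinset × H.edgeFinset)),
      p.1 ≠ p.2 ∧ (x.2 p.1).1 = (x.2 p.2).1
    swap
    · have := mul_nonneg (ind_nonneg (∃ p ∈ (univ : Finset (H.edgeFinset × H.edgeFinset)),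
        p.1 ≠ p.2 ∧ (x.2 p.1).1 = (x.2 p.2).1))
        (by positivity : 0 ≤ (2 / (Fintype.card V : ℝ) ^ 2) ^ H.edgeFinset.card)
      exact ex_le this fun z => (ind_neg fun k => h ⟨k.1, k.2.1⟩).trans_le this
    rw [ind_pos h.2, one_mul]
    calc _ ≤ 𝔼 z : G × β → Bool → V, ∏ f, ind (s(z (x.2 f) false, z (x.2 f) true) = f.1.map x.1) :=
          ex_mono fun z => (ind_mono fun k => k.2.2).trans_eq (P3_all _).symm
      _ = ∏ f, 𝔼 z : G × β → Bool → V, ind (s(z (x.2 f) false, z (x.2 f) true) = f.1.map x.1) :=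
          ex_prod_indep _ (fun f => {x.2 f}) (fun f _ f' _ e => disjoint_singleton.2 (h.1.ne e)) _
            fun f _ y y' e => by rw [e _ (mem_singleton_self _)]
      _ ≤ ∏ _f : H.edgeFinset, 2 / (Fintype.card V : ℝ) ^ 2 :=
          prod_le_prod (fun _ _ => expect_nonneg fun _ _ => ind_nonneg _) fun f _ => Trans_pt _ _
      _ = _ := by rw [prod_const, card_univ, Fintype.card_coe]
  refine (ex_mono s1).trans ?_
  rw [expect_sum_comm]
  refine (sum_le_sum fun x _ => s2 x).trans ?_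
  rw [Fintype.sum_prod_type]
  simp only [sum_const, card_univ, nsmul_eq_mul, ← sum_mul]
  rw [Fintype.card_fun, Nat.cast_pow, sum_comm]
  refine mul_le_mul_of_nonneg_left (mul_le_mul_of_nonneg_right ?_ (by positivity)) (by positivity)
  refine (sum_le_card_nsmul (univ : Finset (H.edgeFinset × H.edgeFinset)) _ ((Fintype.card (G × β) : ℝ) ^ (H.edgeFinset.card - 1) *
    Fintype.card β) fun p _ => ?_).trans_eq (by
    rw [card_univ, Fintype.card_prod, Fintype.card_coe, nsmul_eq_mul, Nat.cast_mul, sq])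
  by_cases h : p.1 = p.2
  · rw [sum_eq_zero fun ι _ => ind_neg fun k => k.1 h]
    positivity
  · rw [← Fintype.card_coe, ← Trans_two (G := G) h]
    exact sum_le_sum fun ι _ => ind_mono fun k => k.2

theorem regroup (B : HBal H) {lam θ τ : ℝ} (hl : 0 ≤ lam) (h0 : 0 ≤ θ) (h1 : θ < 1) (t0 : 0 ≤ τ)
    (t1 : τ ≤ 1) {n N M : ℕ} (hn : 0 < n) (hM : M * Fintype.card β ≤ N) :
    FE H (Fin n) θ τ (epM β) (fug lam : Finset (Fin M × β) → ℝ) -
        rate H n (M * Fintype.card β) τ * aut H * Fintype.card β * H.edgeFinset.card / (1 - θ) ≤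
      FE H (Fin n) θ τ ep1 (fug lam : Finset (Fin N × Unit) → ℝ) := by
  have : Nonempty (Fin n) := ⟨⟨0, hn⟩⟩
  obtain ⟨j⟩ : Nonempty (Fin M × β ↪ Fin N) := Function.Embedding.nonempty_of_card_le (by simpa using hM)
  let e : Fin M × β ↪ Fin N × Unit := ⟨fun i => (j i, ()), fun a b h => j.injective (congrArg Prod.fst h)⟩
  have g := good_fug (I := Fin M × β) hl
  have g2 := good_pres hl (univ.map e)
  have a1 : FE H (Fin n) θ τ (epM β) (fug lam : Finset (Fin M × β) → ℝ) =
      𝔼 z : Fin M × β → Bool → Fin n,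
        LZ H θ τ (fun i => s(z i false, z i true)) Prod.fst (fug lam) :=
    (Trans_ex (fun x : Fin M × β × Bool => ((x.1, x.2.1), x.2.2))
      (Equiv.prodAssoc _ _ _).symm.injective _).symm
  have a2 : 𝔼 z : Fin M × β → Bool → Fin n,
      LZ H θ τ (fun i => s(z i false, z i true)) id (fug lam) ≤
      FE H (Fin n) θ τ ep1 (fug lam : Finset (Fin N × Unit) → ℝ) := by
    rw [← Trans_ex (Prod.map j id) (j.injective.prodMap Function.injective_id)]
    refine ex_mono fun y => le_trans (le_of_eq ?_) (lz_mono h0 h1 t0 t1 _ _ g2.1 g2.2.1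
      fun σ => mul_le_of_le_one_right (pow_nonneg hl _) (ind_le_one _))
    rw [lz_map θ τ e _ _ id (fun a b => j.injective.eq_iff) _
      fun σ hσ => by rw [ind_neg hσ, mul_zero]]
    refine congrArg (LZ H θ τ _ id) (funext fun σ => ?_)
    rw [ind_pos (map_subset_map.2 (subset_univ _)), mul_one, fug, fug, card_map]
  refine le_trans ?_ ((ex_mono fun z => Trans_cmp h0 h1 t0 t1 _ Prod.fst g.1 g.2.1).trans a2)
  simp only [div_eq_mul_inv _ (1 - θ)]
  rw [a1, expect_sub_distrib, ← expect_mul, ← mul_expect, sub_le_sub_iff_left]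
  refine mul_le_mul_of_nonneg_right ((mul_le_mul_of_nonneg_left Trans_cnt t0).trans_eq ?_)
    (inv_nonneg.2 (sub_pos.2 h1).le)
  obtain ⟨v, hv⟩ : ∃ v, Fintype.card W = v + 2 := ⟨Fintype.card W - 2, by have := B.h3; omega⟩
  obtain ⟨k, hk⟩ : ∃ k, H.edgeFinset.card = k + 1 :=
    ⟨H.edgeFinset.card - 1, by have := B.h3; have := B.hk; omega⟩
  have n0 : (n : ℝ) ≠ 0 := Nat.cast_ne_zero.2 hn.ne'
  have a0 : aut H ≠ 0 := RegK_aut.ne'
  rw [rate, hv, hk, Fintype.card_prod, Fintype.card_fin, Fintype.card_fin, Nat.add_sub_cancel,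
    Nat.add_sub_cancel, mul_div_right_comm 2 ((M * Fintype.card β : ℕ) : ℝ), mul_pow, pow_succ _ k]
  field_simp
  ring

end Pool.Agent.Work.MP_d4a230_co.U
end

-- merged part: Pool.Agent.Work.MP_d4a230_co.U.Simp
section
/-!
A simple pattern that is almost as good as independent positions.
PLAN. Call g bad for y if y g false = y g true or some g2 ≠ g has the same position; the mean number
of bad g is at most b (1/s + 2b/s^2) (ex_update, ex_hit). Choose y with LZ y - log(1+lam) bad y at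
least the mean (Finset.exists_le_of_expect_le or by contradiction). The positions of the good
variables are distinct proper pairs; as 2b <= s(s-1) extend them to an injective map q2 into proper
pairs (induct on the number of bad variables, or Function.Embedding extension by cardinality), and
put ep j = (q2 j).out. Changing the position of one variable changes each log Z by at most
log (1 + lam) (logZ_lip, Acd_congr, aw_anti). lz_map identifies Fin b × Unit with Fin b.
-/

namespace Pool.Agent.Work.MP_d4a230_co.U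

open Finset Filter Topology Pool.Agent.Work.MP_07f1b5_pr
open scoped BigOperators


variable {W : Type} [Fintype W] [DecidableEq W] {H : SimpleGraph W} [DecidableRel H.Adj]

section aux

variable {I V G : Type} [Fintype I] [DecidableEq I] [Fintype V] [DecidableEq V] [DecidableEq G]
  {lam θ τ : ℝ}

lemma Simp_one (hl : 0 ≤ lam) (h0 : 0 ≤ θ) (h1 : θ < 1) (t0 : 0 ≤ τ) (t1 : τ ≤ 1) (cp : I → G)
    {q q2 : I → Sym2 V} (i : I) (h : ∀ j, j ≠ i → q j = q2 j) :
    LZ H θ τ q cp (fug lam) ≤ LZ H θ τ q2 cp (fug lam) + Real.log (1 + lam) := by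
  have nn : ∀ (q : I → Sym2 V) act σ, 0 ≤ fug lam σ * aw H θ q cp act σ := fun q act σ =>
    mul_nonneg (pow_nonneg hl _) (aw_bd (H := H) h0 h1 q cp act σ).1.le
  have st : ∀ (q : I → Sym2 V) act σ, fug lam σ * aw H θ q cp act σ ≤
      lam * (fug lam (σ.erase i) * aw H θ q cp act (σ.erase i)) ∨ i ∉ σ := by
    intro q act σ
    by_cases hi : i ∈ σ
    · refine Or.inl ?_
      rw [← mul_assoc, fug, fug, ← pow_succ', card_erase_add_one hi]
      exact mul_le_mul_of_nonneg_left (aw_anti (H := H) h0 h1 q cp act (erase_subset i σ))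
        (pow_nonneg hl _)
    · exact Or.inr hi
  unfold LZ
  rw [← E_const (ι := Finset I) (p := τ) (Real.log (1 + lam)), ← E_add]
  refine E_mono t0 t1 fun act => ?_
  have := logZ_lip hl i (nn q act) (nn q2 act)
    (mul_pos (by simp [fug]) (aw_bd (H := H) h0 h1 q cp act ∅).1) (fun σ hi => by
      unfold aw
      congr 1
      refine prod_congr rfl fun C _ => ?_
      rw [ind_congr (and_congr_left fun hC => Acd_congr (H := H) cp fun j hj =>
        h j fun e => hi (e ▸ hC hj))]) (st q act) (st q2 act)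
  linarith only [this, (abs_le.1 this).2]

lemma Simp_many (hl : 0 ≤ lam) (h0 : 0 ≤ θ) (h1 : θ < 1) (t0 : 0 ≤ τ) (t1 : τ ≤ 1) (cp : I → G)
    (B : Finset I) {q q2 : I → Sym2 V} (h : ∀ j, j ∉ B → q j = q2 j) :
    LZ H θ τ q cp (fug lam) ≤ LZ H θ τ q2 cp (fug lam) + Real.log (1 + lam) * B.card := by
  induction B using Finset.induction_on generalizing q with
  | empty => rw [show q = q2 from funext fun j => h j (notMem_empty j)]; simp
  | insert i B hi ih =>
    have e1 := Simp_one (H := H) hl h0 h1 t0 t1 cp (q := q) (q2 := Function.update q i (q2 i)) i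
      fun j hj => (Function.update_of_ne hj _ _).symm
    have e2 := ih (q := Function.update q i (q2 i)) fun j hj => by
      by_cases e : j = i
      · rw [e, Function.update_self]
      · rw [Function.update_of_ne e]
        exact h j fun hh => (mem_insert.1 hh).elim e hj
    rw [card_insert_of_notMem hi]
    push_cast
    linarith

lemma Simp_ext (hc : Fintype.card I ≤ (Fintype.card V).choose 2) (q : I → Sym2 V) (B : Finset I)
    (h : ∀ i, i ∉ B → ¬ (q i).IsDiag ∧ ∀ j, j ≠ i → q j ≠ q i) :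
    ∃ q2 : I → Sym2 V, Function.Injective q2 ∧ (∀ i, ¬ (q2 i).IsDiag) ∧
      ∀ i, i ∉ B → q i = q2 i := by
  have hs : Bᶜ.image q ⊆ univ.filter fun p : Sym2 V => ¬ p.IsDiag := by
    intro p hp
    obtain ⟨i, hi, rfl⟩ := mem_image.1 hp
    exact mem_filter.2 ⟨mem_univ _, (h i (mem_compl.1 hi)).1⟩
  obtain ⟨t, t1, t2, t3⟩ := exists_subsuperset_card_eq (n := Fintype.card I) hs
    (card_image_le.trans (card_le_univ _))
    (by rw [← Fintype.card_subtype, Sym2.card_subtype_not_diag]; exact hc)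
  obtain ⟨g, hg⟩ := exists_equiv_extend_of_card_eq t3.symm t1 (fun i _ j hj e => by
    by_contra hne
    exact (h j (mem_compl.1 hj)).2 i hne e)
  exact ⟨fun i => g i, fun i j e => g.injective (Subtype.ext e),
    fun i => (mem_filter.1 (t2 (g i).2)).2, fun i hi => (hg i (mem_compl.2 hi)).symm⟩

lemma Simp_bad [Nonempty V] (g : I) :
    𝔼 y : I → Bool → V, ind (s(y g false, y g true).IsDiag ∨
      ∃ k ∈ univ.erase g, s(y k false, y k true) = s(y g false, y g true)) ≤
      1 / (Fintype.card V : ℝ) + 2 * Fintype.card I / (Fintype.card V : ℝ) ^ 2 := by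
  refine (ex_mono fun y => (ind_or_le _ _).trans (add_le_add le_rfl (ind_exists_le _ _))).trans ?_
  rw [expect_add_distrib, expect_sum_comm]
  refine add_le_add ?_ ?_
  · rw [ex_update g]
    refine ex_le (by positivity) fun y => ?_
    simp only [Function.update_self]
    rw [ex_update false]
    refine ex_le (by positivity) fun z => le_of_eq ?_
    simp only [Function.update_self, Function.update_of_ne (by decide : true ≠ false),
      Sym2.mk_isDiag_iff]
    rw [expect_eq_sum_div_card, sum_ind, filter_eq', if_pos (mem_univ _), card_singleton,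
      card_univ, Nat.cast_one]
  · refine (sum_le_card_nsmul _ _ (2 / (Fintype.card V : ℝ) ^ 2) fun k hk => ?_).trans ?_
    · rw [ex_update k]
      refine ex_le (by positivity) fun y => ?_
      simp only [Function.update_self, Function.update_of_ne (ne_of_mem_erase hk).symm]
      rw [← ex_hit (by decide : false ≠ true) (y g false, y g true)]
      exact ex_mono fun z => le_mul_of_one_le_right (ind_nonneg _)
        (le_add_of_nonneg_right (ind_nonneg _))
    · rw [nsmul_eq_mul, mul_comm (2 : ℝ), mul_div_assoc]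
      gcongr
      exact card_le_univ _

end aux

theorem simple {lam θ τ : ℝ} (hl : 0 ≤ lam) (h0 : 0 ≤ θ) (h1 : θ < 1) (t0 : 0 ≤ τ) (t1 : τ ≤ 1)
    {s b : ℕ} (hs : 0 < s) (hb : 2 * b ≤ s * (s - 1)) :
    ∃ ep : Fin b → Fin s × Fin s, (∀ j, (ep j).1 ≠ (ep j).2) ∧
      (Function.Injective fun j => s((ep j).1, (ep j).2)) ∧
      FE H (Fin s) θ τ ep1 (fug lam : Finset (Fin b × Unit) → ℝ) -
          Real.log (1 + lam) * (b * (1 / s + 2 * b / (s : ℝ) ^ 2)) ≤
        LZ H θ τ (fun j => s((ep j).1, (ep j).2)) id (fug lam) := by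
  classical
  have : Nonempty (Fin s) := ⟨⟨0, hs⟩⟩
  have hL : 0 ≤ Real.log (1 + lam) := Real.log_nonneg (by linarith only [hl])
  obtain ⟨bad, hbad⟩ : ∃ bad : (Fin b → Bool → Fin s) → Finset (Fin b), bad = fun y =>
    univ.filter fun g => s(y g false, y g true).IsDiag ∨
      ∃ k ∈ univ.erase g, s(y k false, y k true) = s(y g false, y g true) := ⟨_, rfl⟩
  have e1 : 𝔼 y, ((bad y).card : ℝ) ≤ b * (1 / s + 2 * b / (s : ℝ) ^ 2) := by
    simp only [hbad, ← sum_ind]
    rw [expect_sum_comm]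
    refine (sum_le_card_nsmul _ _ _ fun g _ => Simp_bad g).trans (le_of_eq ?_)
    simp only [nsmul_eq_mul, card_univ, Fintype.card_fin]
  obtain ⟨y, -, hy⟩ := exists_le_of_le_expect (s := univ) univ_nonempty
    (f := fun y => LZ H θ τ (sp ep1 y) Prod.fst (fug lam : Finset (Fin b × Unit) → ℝ) -
      Real.log (1 + lam) * (bad y).card)
    (a := FE H (Fin s) θ τ ep1 (fug lam : Finset (Fin b × Unit) → ℝ) -
      Real.log (1 + lam) * (b * (1 / s + 2 * b / (s : ℝ) ^ 2))) (by
      rw [expect_sub_distrib, ← mul_expect]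
      exact sub_le_sub_left (mul_le_mul_of_nonneg_left e1 hL) _)
  obtain ⟨q, q1, q2, q3⟩ := Simp_ext (I := Fin b) (V := Fin s)
    (by rw [Fintype.card_fin, Fintype.card_fin, Nat.choose_two_right]; omega)
    (fun g => s(y g false, y g true)) (bad y) fun g hg => by
      rw [hbad, mem_filter, not_and, not_or] at hg
      exact ⟨(hg (mem_univ _)).1, fun k hk e =>
        (hg (mem_univ _)).2 ⟨k, mem_erase.2 ⟨hk, mem_univ _⟩, e⟩⟩
  have out : ∀ p : Sym2 (Fin s), ∃ e : Fin s × Fin s, s(e.1, e.2) = p :=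
    fun p => Sym2.ind (fun a b => ⟨(a, b), rfl⟩) p
  choose o ho using out
  refine ⟨fun j => o (q j), fun j e => q2 j ?_, ?_, ?_⟩
  · rw [← ho (q j)]
    exact Sym2.mk_isDiag_iff.2 e
  · simpa only [ho] using q1
  · simp only [ho]
    have e2 := Simp_many (H := H) hl h0 h1 t0 t1 id (bad y) q3
    rw [lz_map θ τ (⟨fun j => (j, ()), fun _ _ e => congrArg Prod.fst e⟩ : Fin b ↪ Fin b × Unit)
      (sp ep1 y) Prod.fst id (fun _ _ => Iff.rfl) (fug lam)
      (fun σ h => (h fun i _ => mem_map.2 ⟨i.1, mem_univ _, rfl⟩).elim)] at hy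
    simp only [fug, card_map] at hy
    refine hy.trans (sub_le_iff_le_add.2 e2)

end Pool.Agent.Work.MP_d4a230_co.U
end

-- merged part: Pool.Agent.Work.MP_d4a230_co.U.Couple
section
/-!
From independent positions to the binomial random graph.
PLAN. transfer: let c ω = card (ω ∩ offd V). If N <= c ω there are 2^N descFactorial (c ω) N > 0 maps y
with Inj y and all positions in ω. So ind (A ω ∧ N <= c ω) <= sum over y of ind (Inj y ∧ into ω ∧ Bad y)
* φ (c ω), φ c = ind (N <= c) / (2^N descFactorial c N), and sum over y of ind (Inj y ∧ into ω) φ (c ω)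
<= 1. For Inj y the number κ y = E (ind (into ω) φ (c ω)) does not depend on y: by plant it is
p^N E φ (N + card (ω ∩ (offd \ image))), and the law of card (ω ∩ S) depends only on card S (Ex_map
with an enumeration Fin c → S). To avoid the exact count, use instead φ ω = 1 / (number of y with
Inj y into ω) and a permutation of Sym2 V that fixes offd and maps one image to the other (Ex_map
with e a bijection). inj_lb: induction on N (Fin.snoc or Fin.consEquiv), the new pair must avoid at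
most n + 2N ordered pairs; 1 - x >= exp (-2x) for x <= 1/2. size: N = floor (μ - μ^(2/3)) with
μ = p * C(n,2) → ∞; chernoff_low with u = a/(2μ), and mgf_le or Chebyshev for the upper tail.
-/

namespace Pool.Agent.Work.MP_d4a230_co.U

open Finset Filter Topology Pool.Agent.Work.MP_07f1b5_pr
open scoped BigOperators


variable {V : Type} [Fintype V] [DecidableEq V]

/-- The positions are distinct members of `S`. -/
def Couple_In {N : ℕ} (S : Finset (Sym2 V)) (y : Fin N → Bool → V) : Prop :=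
  (Function.Injective fun g => s(y g false, y g true)) ∧ ∀ g, s(y g false, y g true) ∈ S

lemma Couple_iff {N : ℕ} (ω : Finset (Sym2 V)) (y : Fin N → Bool → V) :
    Couple_In (ω ∩ offd V) y ↔ Inj y ∧ ∀ i, sp ep1 y i ∈ ω := by
  have e : ∀ i, sp ep1 y i = s(y i.1 false, y i.1 true) := fun _ => rfl
  simp only [Couple_In, Inj, mem_inter, offd, mem_filter, mem_univ, true_and, Sym2.mk_isDiag_iff, e]
  constructor
  · rintro ⟨h1, h2⟩
    exact ⟨⟨fun i j h => Prod.ext (h1 h) rfl, fun g => (h2 g).2⟩, fun i => (h2 i.1).1⟩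
  · rintro ⟨⟨h1, h2⟩, h3⟩
    exact ⟨fun g g' h => congrArg Prod.fst (@h1 (g, ()) (g', ()) h), fun g => ⟨h3 (g, ()), h2 g⟩⟩

lemma Couple_two {S : Finset (Sym2 V)} (hS : S ⊆ offd V) :
    ∑ z : Bool → V, ind (s(z false, z true) ∈ S) = 2 * (S.card : ℝ) := by
  have h1 : ∀ e : V × V, ind (s(e.1, e.2) ∈ S) = ∑ q ∈ S, hit q e := fun e => by
    by_cases h : e.1 = e.2
    · have h2 : s(e.1, e.2) ∉ S := fun k => by simpa [offd, h] using hS k
      rw [ind_neg h2, sum_eq_zero fun q hq => ?_]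
      rw [hit, ind_neg (by rintro rfl; exact h2 hq), zero_mul]
    · simp only [hit_of_ne _ h]
      rw [sum_ind, filter_eq']
      split_ifs with k
      · simp [ind_pos k]
      · simp [ind_neg k]
  refine (Fintype.sum_equiv (Equiv.boolArrowEquivProd V) _ (fun e => ind (s(e.1, e.2) ∈ S))
    fun _ => rfl).trans ?_
  simp only [h1]
  rw [sum_comm]
  simp [sum_hit, mul_comm]

omit [Fintype V] in
lemma Couple_card {N : ℕ} {S : Finset (Sym2 V)} {y : Fin N → Bool → V} (h : Couple_In S y) :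
    (univ.image fun g => s(y g false, y g true)) ⊆ S ∧
      (univ.image fun g => s(y g false, y g true)).card = N :=
  ⟨fun _ hq => by obtain ⟨g, -, rfl⟩ := mem_image.1 hq; exact h.2 g,
    by rw [card_image_of_injective _ h.1, card_univ, Fintype.card_fin]⟩

lemma Couple_cnt {S : Finset (Sym2 V)} (hS : S ⊆ offd V) (N : ℕ) :
    ∑ y : Fin N → Bool → V, ind (Couple_In S y) = ∏ i ∈ range N, 2 * ((S.card : ℝ) - i) := by
  induction N with
  | zero =>
    rw [Fintype.sum_unique, range_zero, prod_empty]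
    exact ind_pos ⟨fun g => g.elim0, fun g => g.elim0⟩
  | succ N ih =>
    rw [prod_range_succ, ← ih, sum_mul, ← (Fin.consEquiv fun _ => Bool → V).sum_comp,
      Fintype.sum_prod_type, sum_comm]
    refine sum_congr rfl fun y _ => ?_
    have e : ∀ z : Bool → V, Couple_In S (Fin.consEquiv (fun _ => Bool → V) (z, y)) ↔
        Couple_In S y ∧ s(z false, z true) ∈ S \ univ.image fun g => s(y g false, y g true) := by
      intro z
      have e1 : (fun g : Fin (N + 1) => s(Fin.consEquiv (fun _ => Bool → V) (z, y) g false,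
          Fin.consEquiv (fun _ => Bool → V) (z, y) g true)) =
          Fin.cons s(z false, z true) fun g => s(y g false, y g true) := by
        funext g
        cases g using Fin.cases <;> rfl
      unfold Couple_In
      rw [e1, Fin.cons_injective_iff, Fin.forall_fin_succ]
      simp only [Finset.mem_sdiff, mem_image, mem_univ, true_and, Set.mem_range]
      exact ⟨fun h => ⟨⟨h.1.2, h.2.2⟩, h.2.1, h.1.1⟩, fun h => ⟨⟨h.2.2, h.1.1⟩, h.2.1, h.1.2⟩⟩
    simp only [e, ind_and, ← mul_sum]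
    by_cases h : Couple_In S y
    · rw [Couple_two (sdiff_subset.trans hS), cast_card_sdiff (Couple_card h).1, (Couple_card h).2]
    · rw [ind_neg h, zero_mul, zero_mul]

lemma Couple_law {ι : Type} [Fintype ι] [DecidableEq ι] (p : ℝ) (S : Finset ι) {m : ℕ}
    (h : S.card = m) (g : ℕ → ℝ) :
    E p (fun ω => g (ω ∩ S).card) = E p fun ω : Finset (Fin m) => g ω.card := by
  let e : Fin m → ι := fun i => (S.equivFinOfCardEq h).symm i
  have he : Function.Injective e := Subtype.val_injective.comp (Equiv.injective _)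
  refine Eq.trans (E_congr fun ω => ?_) (Ex_map e he (fun _ => p) fun ω => g ω.card)
  rw [← card_image_of_injective _ he]
  congr 2
  ext a
  simp only [mem_inter, mem_image, mem_filter, mem_univ, true_and]
  constructor
  · rintro ⟨h1, h2⟩
    exact ⟨S.equivFinOfCardEq h ⟨a, h2⟩, by simpa [e] using h1, by simp [e]⟩
  · rintro ⟨i, h1, rfl⟩
    exact ⟨h1, Subtype.prop _⟩

lemma Couple_kap (p : ℝ) {N : ℕ} (g : ℕ → ℝ) {y : Fin N → Bool → V} (h : Inj y) :
    E p (fun ω => ind (Couple_In (ω ∩ offd V) y) * g (ω ∩ offd V).card) =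
      p ^ N * E p fun ω : Finset (Fin ((offd V).card - N)) => g (ω.card + N) := by
  have h1 : Couple_In (offd V) y := by simpa using (Couple_iff univ y).2 ⟨h, fun _ => mem_univ _⟩
  obtain ⟨h2, h3⟩ := Couple_card h1
  set Q := univ.image fun g => s(y g false, y g true) with hQ
  have h4 : ∀ ω, Couple_In (ω ∩ offd V) y ↔ Q ⊆ ω := fun ω =>
    ⟨fun k => (Couple_card k).1.trans inter_subset_left, fun k => ⟨h1.1, fun a =>
      mem_inter.2 ⟨k (mem_image_of_mem _ (mem_univ a)), h1.2 a⟩⟩⟩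
  simp only [h4]
  rw [plant, h3, ← Couple_law p (offd V \ Q) (by rw [card_sdiff_of_subset h2, h3]) fun c => g (c + N)]
  congr 1
  refine E_congr fun ω => ?_
  rw [← h3, ← card_union_of_disjoint (disjoint_of_subset_left inter_subset_right sdiff_disjoint)]
  congr 2
  ext a
  have := @h2 a
  simp only [mem_inter, mem_union, Finset.mem_sdiff]
  tauto

lemma Couple_tail {ι : Type} [Fintype ι] [DecidableEq ι] {p : ℝ} (p0 : 0 ≤ p) (p1 : p ≤ 1)
    (M : Finset ι) {u : ℝ} (hu : |u| ≤ 1) (a : ℝ) :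
    Pr p (fun ω => u * (p * M.card) + a ≤ u * (ω ∩ M).card) ≤
      Real.exp (u ^ 2 * (p * M.card) - a) := by
  have h1 := markov p0 p1 (f := fun ω => Real.exp u ^ (ω ∩ M).card) (fun ω => by positivity)
    (Real.exp_pos (u * (p * M.card) + a))
  refine (Pr_mono p0 p1 fun ω h => ?_).trans (h1.trans ?_)
  · rw [← Real.exp_nat_mul, mul_comm _ u]
    exact Real.exp_le_exp.2 h
  · rw [div_le_iff₀ (Real.exp_pos _), ← Real.exp_add]
    refine (mgf_le p0 p1 (Real.exp_pos u).le M).trans (Real.exp_le_exp.2 ?_)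
    have h2 := (abs_le.1 (Real.abs_exp_sub_one_sub_id_le hu)).2
    have h3 : 0 ≤ p * M.card := by positivity
    nlinarith only [h2, h3]

lemma Couple_offd : 2 * ((offd V).card : ℝ) = Fintype.card V * (Fintype.card V - 1) := by
  rw [offd, ← Fintype.card_subtype, Sym2.card_subtype_not_diag, Nat.cast_choose_two]
  ring

theorem transfer {p : ℝ} (p0 : 0 ≤ p) (p1 : p ≤ 1) {N : ℕ} (Bad : (Fin N → Bool → V) → Prop)
    (A : Finset (Sym2 V) → Prop)
    (h : ∀ ω, A ω → ∀ y, Inj y → (∀ i, sp ep1 y i ∈ ω) → Bad y) :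
    Pr p (fun ω => A ω ∧ N ≤ (ω ∩ offd V).card) * (𝔼 y : Fin N → Bool → V, ind (Inj y)) ≤
      𝔼 y, ind (Bad y) := by
  let g : ℕ → ℝ := fun c => |∏ i ∈ range N, 2 * ((c : ℝ) - i)|⁻¹
  have g0 : ∀ c, 0 ≤ g c := fun c => by positivity
  let κ : (Fin N → Bool → V) → ℝ := fun y =>
    E p fun ω => ind (Couple_In (ω ∩ offd V) y) * g (ω ∩ offd V).card
  have k0 : ∀ y, 0 ≤ κ y := fun y => E_nonneg p0 p1 fun ω => mul_nonneg (ind_nonneg _) (g0 _)
  have cg : ∀ ω : Finset (Sym2 V), ∑ y : Fin N → Bool → V,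
      ind (Couple_In (ω ∩ offd V) y) * g (ω ∩ offd V).card = ind (N ≤ (ω ∩ offd V).card) := by
    intro ω
    rw [← sum_mul, Couple_cnt inter_subset_right]
    by_cases hc : N ≤ (ω ∩ offd V).card
    · have : 0 < ∏ i ∈ range N, 2 * (((ω ∩ offd V).card : ℝ) - i) := prod_pos fun i hi =>
        mul_pos two_pos (sub_pos.2 (by exact_mod_cast (mem_range.1 hi).trans_le hc))
      rw [ind_pos hc]
      simp only [g, abs_of_pos this]
      exact mul_inv_cancel₀ this.ne'
    · rw [ind_neg hc, prod_eq_zero (mem_range.2 (not_le.1 hc)) (by simp), zero_mul]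
  have k1 : ∑ y, κ y ≤ 1 := by
    rw [← E_sum]
    exact E_le_one p0 p1 fun ω => (cg ω).trans_le (ind_le_one _)
  have k2 : ∀ y, κ y * ∑ y' : Fin N → Bool → V, ind (Inj y') ≤ 1 := fun y => by
    rw [mul_sum]
    refine (sum_le_sum fun y' _ => ?_).trans k1
    by_cases h' : Inj y'
    · by_cases h'' : Inj y
      · rw [ind_pos h', mul_one]
        exact ((Couple_kap p g h'').trans (Couple_kap p g h').symm).le
      · have : κ y = 0 := (E_congr fun ω => by
          rw [ind_neg fun k => h'' ((Couple_iff ω y).1 k).1, zero_mul]).trans (E_const 0)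
        rw [this, zero_mul]
        exact k0 y'
    · rw [ind_neg h', mul_zero]
      exact k0 y'
  have k3 : Pr p (fun ω => A ω ∧ N ≤ (ω ∩ offd V).card) ≤ ∑ y, ind (Bad y) * κ y := by
    simp only [κ, ← E_const_mul]
    rw [← E_sum]
    refine E_mono p0 p1 fun ω => ?_
    by_cases hA : A ω
    · rw [ind_and, ind_pos hA, one_mul, ← cg]
      refine sum_le_sum fun y _ => ?_
      by_cases hy : Couple_In (ω ∩ offd V) y
      · rw [ind_pos (h ω hA y ((Couple_iff ω y).1 hy).1 ((Couple_iff ω y).1 hy).2), one_mul]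
      · rw [ind_neg hy, zero_mul, mul_zero]
    · rw [ind_neg fun k => hA k.1]
      exact sum_nonneg fun y _ => mul_nonneg (ind_nonneg _) (mul_nonneg (ind_nonneg _) (g0 _))
  rw [Fintype.expect_eq_sum_div_card, Fintype.expect_eq_sum_div_card, ← mul_div_assoc]
  refine div_le_div_of_nonneg_right ?_ (Nat.cast_nonneg _)
  refine (mul_le_mul_of_nonneg_right k3 (sum_nonneg fun _ _ => ind_nonneg _)).trans ?_
  rw [sum_mul]
  refine sum_le_sum fun y _ => ?_
  rw [mul_assoc]
  exact mul_le_of_le_one_right (ind_nonneg _) (k2 y)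

theorem inj_lb [Nonempty V] {N : ℕ}
    (h : 2 * ((Fintype.card V : ℝ) + 2 * N) ≤ (Fintype.card V : ℝ) ^ 2) :
    Real.exp (-(2 * N * (((Fintype.card V : ℝ) + 2 * N) / (Fintype.card V : ℝ) ^ 2))) ≤
      𝔼 y : Fin N → Bool → V, ind (Inj y) := by
  have hn : (0 : ℝ) < (Fintype.card V : ℝ) ^ 2 := by
    have := Fintype.card_pos (α := V)
    positivity
  have e : ∀ y : Fin N → Bool → V, Inj y ↔ Couple_In (offd V) y := fun y => by
    simpa using (Couple_iff univ y).symm
  have hc : (Fintype.card (Fin N → Bool → V) : ℝ) = ∏ i ∈ range N, (Fintype.card V : ℝ) ^ 2 := by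
    simp
  set x := ((Fintype.card V : ℝ) + 2 * N) / (Fintype.card V : ℝ) ^ 2 with hx
  have x0 : 0 ≤ x := by positivity
  have x1 : x ≤ 1 / 2 := by rw [hx, div_le_iff₀ hn]; linarith only [h]
  have h1 : Real.exp (-(2 * x)) ≤ 1 - x := by
    have h2 := Real.add_one_le_exp (2 * x)
    rw [Real.exp_neg, inv_le_iff_one_le_mul₀ (Real.exp_pos _)]
    nlinarith only [h2, x0, x1]
  have h3 : Real.exp (-(2 * N * x)) = ∏ i ∈ range N, Real.exp (-(2 * x)) := by
    rw [prod_const, card_range, ← Real.exp_nat_mul]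
    congr 1
    ring
  simp only [e]
  rw [Fintype.expect_eq_sum_div_card, Couple_cnt Subset.rfl, hc, ← prod_div_distrib, h3]
  refine prod_le_prod (fun _ _ => (Real.exp_pos _).le) fun i hi => h1.trans ?_
  have h4 : (i : ℝ) ≤ N := by exact_mod_cast (mem_range.1 hi).le
  rw [le_div_iff₀ hn, sub_mul, hx, div_mul_cancel₀ _ hn.ne', mul_sub, Couple_offd]
  nlinarith only [h4]

theorem size {p : ℕ → ℝ} (p0 : ∀ n, 0 ≤ p n) (p1 : ∀ n, p n ≤ 1)
    (hinf : Tendsto (fun n : ℕ => p n * n) atTop atTop) : ∃ N : ℕ → ℕ,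
    Tendsto (fun n : ℕ => 2 * (N n : ℝ) / (n : ℝ) ^ 2 / p n) atTop (𝓝 1) ∧
    ∀ η : ℝ, 0 < η → Whp p fun n ω => N n ≤ (ω ∩ offd (Fin n)).card ∧
      ((ω ∩ offd (Fin n)).card : ℝ) ≤ (1 + η) * N n := by
  let μ : ℕ → ℝ := fun n => p n * (offd (Fin n)).card
  have hμ : ∀ n : ℕ, 2 * μ n = p n * n * (n - 1) := fun n => by
    have := Couple_offd (V := Fin n)
    rw [Fintype.card_fin] at this
    simp only [μ]
    linear_combination p n * this
  have hnat : Tendsto (fun n : ℕ => (n : ℝ)) atTop atTop := tendsto_natCast_atTop_atTop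
  have hm : Tendsto μ atTop atTop := by
    refine tendsto_atTop_mono' _ ?_ hinf
    filter_upwards [hnat.eventually_ge_atTop 3] with n h3
    have h4 : 0 ≤ p n * n := mul_nonneg (p0 n) (Nat.cast_nonneg n)
    nlinarith only [h3, h4, hμ n]
  let s : ℕ → ℝ := fun n => √√(μ n)
  have hs : Tendsto s atTop atTop := Real.tendsto_sqrt_atTop.comp (Real.tendsto_sqrt_atTop.comp hm)
  have s4 : ∀ n, μ n = s n ^ 4 := fun n => by
    have h0 : 0 ≤ μ n := mul_nonneg (p0 n) (Nat.cast_nonneg _)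
    simp only [s]
    rw [show 4 = 2 * 2 from rfl, pow_mul, Real.sq_sqrt (Real.sqrt_nonneg _), Real.sq_sqrt h0]
  let N : ℕ → ℕ := fun n => ⌊s n ^ 4 - s n ^ 3⌋₊
  have hi := hs.inv_tendsto_atTop
  have hN : ∀ n, 1 ≤ s n → (N n : ℝ) ≤ s n ^ 4 - s n ^ 3 := fun n h1 =>
    Nat.floor_le (sub_nonneg.2 (pow_le_pow_right₀ h1 (by norm_num)))
  have hq : Tendsto (fun n => (N n : ℝ) / s n ^ 4) atTop (𝓝 1) := by
    have h1 : Tendsto (fun n => 1 - (s n)⁻¹ - (s n)⁻¹ ^ 4) atTop (𝓝 1) := by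
      simpa using ((tendsto_const_nhds (x := (1 : ℝ))).sub hi).sub (hi.pow 4)
    refine tendsto_of_tendsto_of_tendsto_of_le_of_le' h1 tendsto_const_nhds ?_ ?_
    · filter_upwards [hs.eventually_ge_atTop 1] with n h2
      have h3 := (Nat.sub_one_lt_floor (s n ^ 4 - s n ^ 3)).le
      have h4 : 0 < s n := by linarith
      rw [le_div_iff₀ (by positivity)]
      refine le_trans (le_of_eq ?_) h3
      field_simp
    · filter_upwards [hs.eventually_ge_atTop 1] with n h2
      have h4 : 0 < s n := by linarith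
      rw [div_le_one (by positivity)]
      exact (hN n h2).trans (sub_le_self _ (by positivity))
  refine ⟨N, ?_, fun η hη => ?_⟩
  · have h1 : Tendsto (fun n : ℕ => (N n : ℝ) / s n ^ 4 * (1 - (n : ℝ)⁻¹)) atTop (𝓝 1) := by
      simpa using hq.mul ((tendsto_const_nhds (x := (1 : ℝ))).sub hnat.inv_tendsto_atTop)
    refine h1.congr' ?_
    filter_upwards [hinf.eventually_gt_atTop 0, hnat.eventually_ge_atTop 3] with n h2 h3
    have h4 : p n ≠ 0 := fun k => by simp [k] at h2
    have h5 : (n : ℝ) ≠ 0 := by linarith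
    have h6 : (n : ℝ) - 1 ≠ 0 := by linarith
    rw [← s4, show μ n = p n * n * (n - 1) / 2 by linarith only [hμ n]]
    field_simp
  · have h1 : Tendsto (fun n => 2 * Real.exp (-(s n ^ 2 / 4))) atTop (𝓝 0) := by
      simpa using (Real.tendsto_exp_neg_atTop_nhds_zero.comp
        (((tendsto_pow_atTop two_ne_zero).comp hs).atTop_div_const four_pos)).const_mul 2
    have h2 : Tendsto (fun n => (1 + η) * ((N n : ℝ) / s n ^ 4) - (1 + (s n)⁻¹)) atTop (𝓝 η) := by
      simpa using (hq.const_mul (1 + η)).sub ((tendsto_const_nhds (x := (1 : ℝ))).add hi)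
    refine whp_of_le p0 p1 h1 ?_
    filter_upwards [hs.eventually_ge_atTop 1, h2.eventually (lt_mem_nhds hη)] with n h3 h4
    have h5 : 0 < s n := by linarith
    have h6 : |1 / (2 * s n)| ≤ 1 := by
      rw [abs_of_pos (by positivity), div_le_one (by positivity)]
      linarith
    have t1 := Couple_tail (p0 n) (p1 n) (offd (Fin n)) h6 (s n ^ 2 / 2)
    have t2 := Couple_tail (p0 n) (p1 n) (offd (Fin n)) ((abs_neg _).trans_le h6) (s n ^ 2 / 2)
    have e1 : (1 / (2 * s n)) ^ 2 * s n ^ 4 - s n ^ 2 / 2 = -(s n ^ 2 / 4) := by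
      field_simp
      ring
    have e0 : p n * (offd (Fin n)).card = s n ^ 4 := s4 n
    have e2 : s n ^ 2 / 2 = 1 / (2 * s n) * s n ^ 3 := by field_simp
    rw [e0, e1] at t1
    rw [e0, neg_sq, e1] at t2
    refine (Pr_mono (p0 n) (p1 n) fun ω h7 => ?_).trans
      ((Pr_or_le (p0 n) (p1 n) _ _).trans ((add_le_add t1 t2).trans (by linarith only [])))
    have h8 : 0 < 1 / (2 * s n) := by positivity
    rcases not_and_or.1 h7 with h9 | h9
    · have h10 : ((ω ∩ offd (Fin n)).card : ℝ) ≤ N n := by exact_mod_cast (not_le.1 h9).le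
      have := mul_le_mul_of_nonneg_left (h10.trans (hN n h3)) h8.le
      right
      linarith only [e2, this]
    · have h10 : s n ^ 4 + s n ^ 3 ≤ (1 + η) * N n := by
        have h11 : (1 + (s n)⁻¹) * s n ^ 4 ≤ (1 + η) * N n := by
          rw [← le_div_iff₀ (by positivity), mul_div_assoc]
          linarith only [h4]
        refine le_trans (le_of_eq ?_) h11
        field_simp
      have := mul_le_mul_of_nonneg_left (h10.trans (not_le.1 h9).le) h8.le
      left
      linarith only [e2, this]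

/-- Exponentially unlikely events of the independent model are unlikely in `G(n,p)`. -/
theorem whp_of_iid {p : ℕ → ℝ} (p0 : ∀ n, 0 ≤ p n) (p1 : ∀ n, p n ≤ 1)
    (hp : Tendsto p atTop (𝓝 0)) (hinf : Tendsto (fun n : ℕ => p n * n) atTop atTop) {N : ℕ → ℕ}
    (hN : Tendsto (fun n : ℕ => 2 * (N n : ℝ) / (n : ℝ) ^ 2 / p n) atTop (𝓝 1))
    (hS : Whp p fun n ω => N n ≤ (ω ∩ offd (Fin n)).card)
    (Bad : ∀ n, (Fin (N n) → Bool → Fin n) → Prop) {c : ℝ} (hc : 0 < c)
    (hB : ∀ᶠ n in atTop, 𝔼 y, ind (Bad n y) ≤ 2 * Real.exp (-(c * N n))) :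
    Whp p fun n ω => ∃ y, Inj y ∧ (∀ i, sp ep1 y i ∈ ω) ∧ ¬ Bad n y := by
  have hnat : Tendsto (fun n : ℕ => (n : ℝ)) atTop atTop := tendsto_natCast_atTop_atTop
  have hne : ∀ᶠ n : ℕ in atTop, p n ≠ 0 ∧ (n : ℝ) ≠ 0 := by
    filter_upwards [hinf.eventually_gt_atTop 0] with n h using mul_ne_zero_iff.1 h.ne'
  have h1 : Tendsto (fun n : ℕ => ((n : ℝ) + 2 * N n) / (n : ℝ) ^ 2) atTop (𝓝 0) := by
    have h2 := hnat.inv_tendsto_atTop.add (hN.mul hp)
    rw [mul_zero, add_zero] at h2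
    refine h2.congr' ?_
    filter_upwards [hne] with n h
    have := h.1
    have := h.2
    simp only [Pi.inv_apply]
    field_simp
  have h2 : Tendsto (fun n : ℕ => (N n : ℝ)) atTop atTop := by
    refine ((hN.pos_mul_atTop one_pos (hinf.atTop_mul_atTop₀ hnat)).atTop_div_const two_pos).congr'
      ?_
    filter_upwards [hne] with n h
    have := h.1
    have := h.2
    field_simp
  have h3 : Tendsto (fun n => 2 * Real.exp (-(c / 2 * N n))) atTop (𝓝 0) := by
    simpa using (Real.tendsto_exp_neg_atTop_nhds_zero.comp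
      (h2.const_mul_atTop (half_pos hc))).const_mul 2
  have h4 : Whp p fun n ω => ¬ ((¬ ∃ y, Inj y ∧ (∀ i, sp ep1 y i ∈ ω) ∧ ¬ Bad n y) ∧
      N n ≤ (ω ∩ offd (Fin n)).card) := by
    refine whp_of_le p0 p1 h3 ?_
    filter_upwards [hB, hne, h1.eventually (gt_mem_nhds (half_pos (half_pos hc))),
      h1.eventually (gt_mem_nhds one_half_pos)] with n h5 h6 h7 h8
    have hn : 0 < n := Nat.pos_of_ne_zero (by exact_mod_cast h6.2)
    have : Nonempty (Fin n) := ⟨⟨0, hn⟩⟩
    have t1 := transfer (p0 n) (p1 n) (Bad n)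
      (fun ω => ¬ ∃ y, Inj y ∧ (∀ i, sp ep1 y i ∈ ω) ∧ ¬ Bad n y)
      fun ω h y a b => by_contra fun k => h ⟨y, a, b, k⟩
    have t2 := inj_lb (V := Fin n) (N := N n) (by
      rw [div_lt_iff₀ (by positivity)] at h8
      rw [Fintype.card_fin]
      linarith only [h8])
    rw [Fintype.card_fin] at t2
    have t3 := ((mul_le_mul_of_nonneg_left t2 (Pr_nonneg (p0 n) (p1 n) _)).trans t1).trans h5
    rw [← le_div_iff₀ (Real.exp_pos _), mul_div_assoc, ← Real.exp_sub] at t3
    simp only [not_not]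
    refine t3.trans (mul_le_mul_of_nonneg_left (Real.exp_le_exp.2 ?_) two_pos.le)
    have := mul_le_mul_of_nonneg_left h7.le (Nat.cast_nonneg (α := ℝ) (N n))
    linarith only [this]
  exact (h4.and p0 p1 hS).mono p0 p1
    (Eventually.of_forall fun n ω h => by_contra fun k => h.1 ⟨k, h.2⟩)

end Pool.Agent.Work.MP_d4a230_co.U
end
end

-- merged part: Pool.Agent.Work.MP_d4a230_co.U.TP
section
-- merged part: Pool.Agent.Work.MP_d4a230_co.U.Dens
section
/-!
The bunch structure.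
PLAN. vm_inj: cases. dc_beb: let F2 = insert f F, F_l the edges of F2 in piece l, U_l ⊆ W the
vertices they cover, u_l the number of those that are not ends of the dart d l (these map to
distinct inr vertices), ρ the number of inl vertices covered by F2. card (vset F \ vset {f}) =
sum u_l + ρ - 2. Write A = v - 2, Bk = k - 1, A < Bk. For a nonempty F_l: (i) A * |F_l| <= Bk * u_l
(weak balance B.sys / Sys.wbal for U_l plus both ends, the edge of the dart is an extra edge);
(ii) A * (|F_l| - 1) <= Bk * (|U_l| - 2), strictly if |F_l| >= 2 (if U_l = univ because an edge is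
missing, otherwise B.bal). If ρ >= 2 sum (i). If ρ <= 1 every |U_l| <= u_l + ρ; sum (ii) over the
j >= 1 nonempty pieces; for j >= 2 use A < Bk, for j = 1 the strict form (|F2| >= 2).
root_beb: every edge of H other than the edge of the dart has an end that is not an end of the
dart. lam_beb: ex_sum_type, ex_curry, ex_prod_coord, Fintype.prod_sigma, Sym2 out (Quot.out_eq),
and x ∘ vm l is the double update of u l.
-/

namespace Pool.Agent.Work.MP_d4a230_co.U

open Finset Filter Topology Pool.Agent.Work.MP_07f1b5_pr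
open scoped BigOperators


variable {V α β : Type} [Fintype V] [DecidableEq V] [Fintype α] [DecidableEq α] [Fintype β]
  [DecidableEq β] {W : Type} [Fintype W] [DecidableEq W] {H : SimpleGraph W} [DecidableRel H.Adj]
  {m : ℕ} (ep : β → α × α) (j : Fin m → β) (d : Fin m → H.Dart)

lemma Dens_out (e : Sym2 W) : s(e.out.1, e.out.2) = e := Quot.out_eq e

lemma Dens_mem {e : Sym2 W} {x : W} (h : x ∈ e) : x = e.out.1 ∨ x = e.out.2 := by
  rw [← Dens_out e] at h
  exact Sym2.mem_iff.1 h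

lemma Dens_one {U : Finset W} (hU : U.card ≤ 2) : ein H.edgeFinset U ≤ 1 := by
  refine card_le_one.2 fun e he g hg => ?_
  obtain ⟨e1, e2⟩ := mem_filter.1 he
  obtain ⟨g1, g2⟩ := mem_filter.1 hg
  have e3 : g.toFinset = U := eq_of_subset_of_card_le g2
    (by rw [Sym2.card_toFinset_of_not_isDiag _ (H.not_isDiag_of_mem_edgeFinset g1)]; exact hU)
  exact sym2_eq_of_subset (H.not_isDiag_of_mem_edgeFinset e1) fun x hx =>
    Sym2.mem_toFinset.1 (e3 ▸ e2 (Sym2.mem_toFinset.2 hx))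

lemma Dens_wbal (B : HBal H) {U : Finset W} (h2 : 2 ≤ U.card) :
    ((ein H.edgeFinset U : ℤ) - 1) * ((Fintype.card W : ℤ) - 2) ≤
      ((H.edgeFinset.card : ℤ) - 1) * ((U.card : ℤ) - 2) := by
  have e0 : (3 : ℤ) ≤ Fintype.card W := by exact_mod_cast B.h3
  rcases h2.lt_or_eq with h2 | h2
  · rcases (card_le_univ U).lt_or_eq with e1 | e1
    · exact (B.bal U h2 e1).le
    · have : (ein H.edgeFinset U : ℤ) ≤ H.edgeFinset.card := by
        exact_mod_cast (card_filter_le _ _ : ein H.edgeFinset U ≤ _)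
      rw [e1]; nlinarith
  · have : (ein H.edgeFinset U : ℤ) ≤ 1 := by exact_mod_cast Dens_one (H := H) h2.ge
    rw [← h2]; push_cast; nlinarith only [this, e0]

lemma Dens_ein {P : Finset (Sym2 W)} (hP : P ⊆ H.edgeFinset) {U : Finset W} (hU : vs P ⊆ U) :
    P.card ≤ ein H.edgeFinset U :=
  card_le_card fun e he => mem_filter.2 ⟨hP he, fun _ hx =>
    hU (mem_vs.2 ⟨e, he, Sym2.mem_toFinset.1 hx⟩)⟩

lemma Dens_i (B : HBal H) (c : H.Dart) {P : Finset (Sym2 W)} (hP : P ⊆ H.edgeFinset.erase c.edge) :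
    ((Fintype.card W : ℤ) - 2) * P.card ≤
      ((H.edgeFinset.card : ℤ) - 1) * (vs P \ {c.fst, c.snd}).card := by
  have e0 : (3 : ℤ) ≤ Fintype.card W := by exact_mod_cast B.h3
  have c1 : (vs P ∪ {c.fst, c.snd}).card = (vs P \ {c.fst, c.snd}).card + 2 := by
    rw [← card_pair c.fst_ne_snd, card_sdiff_add_card]
  have h1 := Dens_wbal B (U := vs P ∪ {c.fst, c.snd}) (by omega)
  have hc : c.edge ∉ P := fun h => (mem_erase.1 (hP h)).1 rfl
  have h2 := Dens_ein (H := H) (P := insert c.edge P) (U := vs P ∪ {c.fst, c.snd})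
    (insert_subset (SimpleGraph.mem_edgeFinset.2 c.edge_mem) (hP.trans (erase_subset _ _)))
    (fun x hx => by
      obtain ⟨e, he, hxe⟩ := mem_vs.1 hx
      rcases mem_insert.1 he with rfl | he
      · exact mem_union_right _ (by simpa [SimpleGraph.Dart.edge] using hxe)
      · exact mem_union_left _ (mem_vs.2 ⟨e, he, hxe⟩))
  rw [card_insert_of_notMem hc] at h2
  have h3 : (P.card : ℤ) + 1 ≤ ein H.edgeFinset (vs P ∪ {c.fst, c.snd}) := by exact_mod_cast h2
  rw [c1] at h1
  push_cast at h1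
  nlinarith only [h1, h2, e0]

lemma Dens_ii (B : HBal H) {P : Finset (Sym2 W)} (hP : P ⊆ H.edgeFinset) (hn : P.Nonempty) :
    ((Fintype.card W : ℤ) - 2) * (P.card - 1) ≤
      ((H.edgeFinset.card : ℤ) - 1) * ((vs P).card - 2) := by
  have e0 : (3 : ℤ) ≤ Fintype.card W := by exact_mod_cast B.h3
  obtain ⟨e, he⟩ := hn
  have h1 := Dens_wbal B (U := vs P) (by
    rw [← Sym2.card_toFinset_of_not_isDiag _ (H.not_isDiag_of_mem_edgeFinset (hP he))]
    exact card_le_card fun x hx => mem_vs.2 ⟨e, he, Sym2.mem_toFinset.1 hx⟩)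
  have h2 : (P.card : ℤ) ≤ ein H.edgeFinset (vs P) := by exact_mod_cast Dens_ein hP subset_rfl
  nlinarith only [h1, h2, e0]

lemma Dens_iii (B : HBal H) (c : H.Dart) {P : Finset (Sym2 W)}
    (hP : P ⊆ H.edgeFinset.erase c.edge) (hn : 2 ≤ P.card) :
    ((Fintype.card W : ℤ) - 2) * (P.card - 1) <
      ((H.edgeFinset.card : ℤ) - 1) * ((vs P).card - 2) := by
  have e0 : (3 : ℤ) ≤ Fintype.card W := by exact_mod_cast B.h3
  have h0 := Dens_ein (hP.trans (erase_subset _ _)) subset_rfl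
  have h2 : (P.card : ℤ) ≤ ein H.edgeFinset (vs P) := by exact_mod_cast h0
  have h3 : 3 ≤ (vs P).card := by
    by_contra h
    have := Dens_one (H := H) (U := vs P) (by omega)
    omega
  rcases (card_le_univ (vs P)).lt_or_eq with e1 | e1
  · have := B.bal _ h3 e1
    nlinarith only [this, h0, e0]
  · have h4 := card_le_card hP
    have h5 := card_erase_add_one (SimpleGraph.mem_edgeFinset.2 c.edge_mem)
    have h6 : (P.card : ℤ) + 1 ≤ H.edgeFinset.card := by exact_mod_cast (by omega)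
    rw [e1]; nlinarith only [e0, h5, h4]

lemma vm_inj (hne : ∀ j, (ep j).1 ≠ (ep j).2) (l : Fin m) : Function.Injective (vm H ep j d l) := by
  intro a b h
  have h1 := hne (j l)
  have h2 := h1.symm
  clear hne
  unfold vm at h
  split_ifs at h <;> simp_all

lemma card_BE : Fintype.card (BE H d) = m * (H.edgeFinset.card - 1) := by
  rw [Fintype.card_sigma]
  simp only [Fintype.card_coe]
  rw [sum_congr rfl fun l _ => card_erase_of_mem (SimpleGraph.mem_edgeFinset.2 (d l).edge_mem),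
    sum_const, card_univ, Fintype.card_fin, smul_eq_mul]

lemma Dens_ne (f : BE H d) : f.2.1.out.1 ≠ f.2.1.out.2 := fun h =>
  H.not_isDiag_of_mem_edgeFinset (mem_of_mem_erase f.2.2)
    (Dens_out f.2.1 ▸ Sym2.mk_isDiag_iff.2 h)

lemma Dens_key (B : HBal H) (hne : ∀ j, (ep j).1 ≠ (ep j).2) (F : Finset (BE H d))
    {f g : BE H d} (hf : f ∈ F) (hg : g ∈ F) (hfg : f ≠ g) :
    ((Fintype.card W : ℤ) - 2) * (F.card - 1) <
      ((H.edgeFinset.card : ℤ) - 1) * ((vset (beb H ep j d) F).card - 2) := by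
  have e0 : (3 : ℤ) ≤ Fintype.card W := by exact_mod_cast B.h3
  have e1 : (Fintype.card W : ℤ) ≤ H.edgeFinset.card := by exact_mod_cast B.hk
  set S := vset (beb H ep j d) F with hS
  let P : Fin m → Finset (Sym2 W) := fun l => (F.filter fun a => a.1 = l).image fun a => a.2.1
  have cP : ∀ l, (P l).card = (F.filter fun a => a.1 = l).card := fun l =>
    card_image_of_injOn fun a ha b hb h => by
      obtain ⟨l1, a1, a2⟩ := a
      obtain ⟨l2, b1, b2⟩ := b
      obtain rfl : l1 = l := (mem_filter.1 ha).2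
      obtain rfl : l2 = l1 := (mem_filter.1 hb).2
      obtain rfl : a1 = b1 := h
      rfl
  have sP : ∑ l, ((P l).card : ℤ) = F.card := by
    rw [card_eq_sum_card_fiberwise (f := fun a : BE H d => a.1) (t := univ) (s := F)
      fun _ _ => mem_univ _]
    push_cast
    exact sum_congr rfl fun l _ => by rw [cP]
  have hP : ∀ l, P l ⊆ H.edgeFinset.erase (d l).edge := fun l e he => by
    obtain ⟨a, ha, rfl⟩ := mem_image.1 he
    rw [← (mem_filter.1 ha).2]
    exact a.2.2
  have mP : ∀ a ∈ F, (P a.1).Nonempty := fun a ha =>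
    ⟨_, mem_image_of_mem _ (mem_filter.2 ⟨ha, rfl⟩)⟩
  have hv : ∀ l, ∀ x ∈ vs (P l), vm H ep j d l x ∈ S := fun l x hx => by
    obtain ⟨e, he, hxe⟩ := mem_vs.1 hx
    obtain ⟨a, ha, rfl⟩ := mem_image.1 he
    obtain ⟨h1, rfl⟩ := mem_filter.1 ha
    refine mem_biUnion.2 ⟨a, h1, ?_⟩
    rcases Dens_mem hxe with h | h <;> simp [beb, ← h]
  let N : Fin m → Finset W := fun l => vs (P l) \ {(d l).fst, (d l).snd}
  let R := S.filter fun y => y.isLeft = true
  have c1 : ∑ l, ((N l).card : ℤ) + R.card ≤ S.card := by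
    have h1 : (univ.sigma N).card ≤ (S.filter fun y => ¬ y.isLeft = true).card := by
      refine card_le_card_of_injOn (fun p => Sum.inr (p.1, p.2)) (fun p hp => ?_) ?_
      · obtain ⟨h1, h2⟩ := mem_sdiff.1 (mem_sigma.1 hp).2
        have h3 := hv _ _ h1
        rw [mem_insert, mem_singleton, not_or] at h2
        rw [vm, if_neg h2.1, if_neg h2.2] at h3
        exact mem_filter.2 ⟨h3, by simp⟩
      · rintro ⟨a, b⟩ - ⟨a', b'⟩ - h
        obtain ⟨rfl, rfl⟩ := Prod.mk.inj (Sum.inr.inj h)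
        rfl
    have h2 : R.card + _ = _ := card_filter_add_card_filter_not (s := S) fun y => y.isLeft = true
    rw [card_sigma] at h1
    exact_mod_cast (by omega : ∑ l, (N l).card + R.card ≤ S.card)
  have c2 : ∀ l, ((vs (P l)).card : ℤ) ≤ (N l).card + R.card := fun l => by
    have h1 : (vs (P l) ∩ {(d l).fst, (d l).snd}).card ≤ R.card := by
      refine card_le_card_of_injOn (vm H ep j d l) (fun x hx => ?_) (vm_inj ep j d hne l).injOn
      obtain ⟨h1, h2⟩ := mem_inter.1 hx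
      refine mem_filter.2 ⟨hv _ _ h1, ?_⟩
      rw [mem_insert, mem_singleton] at h2
      unfold vm
      split_ifs
      · rfl
      · rfl
      · tauto
    have h2 : (N l).card + _ = _ := card_sdiff_add_card_inter (vs (P l)) {(d l).fst, (d l).snd}
    exact_mod_cast (by omega : (vs (P l)).card ≤ (N l).card + R.card)
  have i1 : ∀ l, ((Fintype.card W : ℤ) - 2) * (P l).card ≤
      ((H.edgeFinset.card : ℤ) - 1) * (N l).card := fun l => Dens_i B (d l) (hP l)
  have i2 : ∀ a ∈ F, ((Fintype.card W : ℤ) - 2) * ((P a.1).card - 1) ≤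
      ((H.edgeFinset.card : ℤ) - 1) * ((N a.1).card + R.card - 2) := fun a ha =>
    (Dens_ii B ((hP _).trans (erase_subset _ _)) (mP a ha)).trans
      (mul_le_mul_of_nonneg_left (by linarith [c2 a.1]) (by linarith))
  generalize hA : (Fintype.card W : ℤ) - 2 = A at *
  generalize hK : (H.edgeFinset.card : ℤ) - 1 = K at *
  have a1 : 0 < A := by omega
  have a2 : A < K := by omega
  by_cases hR : (2 : ℤ) ≤ R.card
  · have h1 := sum_le_sum fun l (_ : l ∈ univ) => i1 l
    rw [← mul_sum, ← mul_sum, sP] at h1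
    nlinarith only [e0, hA, hK, h1, c1, hR, e1]
  have h1 : ∑ l, (A * (P l).card - if l = f.1 then A else 0) <
      ∑ l, (K * (N l).card + if l = f.1 then K * (R.card - 2) else 0) := by
    refine sum_lt_sum (fun l _ => ?_) ?_
    · split_ifs with h
      · rw [h]; linarith only [i2 f hf]
      · linarith [i1 l]
    · by_cases h : g.1 = f.1
      · refine ⟨f.1, mem_univ _, ?_⟩
        have h2 := Dens_iii B (d f.1) (hP f.1) (by
          rw [cP]
          exact one_lt_card.2 ⟨f, mem_filter.2 ⟨hf, rfl⟩, g, mem_filter.2 ⟨hg, h⟩, hfg⟩)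
        rw [hA, hK] at h2
        rw [if_pos rfl, if_pos rfl]
        nlinarith only [h2, hK, e0, e1, c2 f.1]
      · refine ⟨g.1, mem_univ _, ?_⟩
        rw [if_neg h, if_neg h]
        have h3 : (R.card : ℤ) ≤ 1 := by omega
        nlinarith only [e1, hA, hK, hR, e0, i2 g hg]
  rw [sum_sub_distrib, sum_add_distrib, ← mul_sum, ← mul_sum, sP, sum_ite_eq', sum_ite_eq',
    if_pos (mem_univ _), if_pos (mem_univ _)] at h1
  nlinarith only [h1, c1, e0, e1, hK]

theorem dc_beb (B : HBal H) (hne : ∀ j, (ep j).1 ≠ (ep j).2) :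
    DC (beb H ep j d) (Fintype.card W) H.edgeFinset.card := by
  have hd : ∀ f, (beb H ep j d f).1 ≠ (beb H ep j d f).2 := fun f h =>
    Dens_ne d f (vm_inj ep j d hne _ h)
  refine ⟨hd, fun f F hf ⟨g, hg⟩ => ?_⟩
  have h1 := Dens_key ep j d B hne (insert f F) (mem_insert_self _ _) (mem_insert_of_mem hg)
    fun h => hf (h ▸ hg)
  have h2 : (vset (beb H ep j d) (insert f F)).card =
      (vset (beb H ep j d) F \ vset (beb H ep j d) {f}).card + 2 := by
    rw [← card_pair (hd f)]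
    unfold vset
    rw [biUnion_insert, singleton_biUnion, card_sdiff_add_card, union_comm]
  have h3 := B.h3
  have h4 := B.hk
  rw [h2, card_insert_of_notMem hf] at h1
  zify [(by omega : 2 ≤ Fintype.card W), (by omega : 1 ≤ H.edgeFinset.card)]
  push_cast at h1
  linarith only [h1]

theorem root_beb {D : (α → V) → ℝ} (hD : Unit01 D) :
    RootFn (beb H ep j d) fun x : α ⊕ Fin m × W → V => D fun a => x (Sum.inl a) := by
  refine ⟨fun x => hD _, fun f => ?_⟩
  have key : ∀ u : W, u ∉ (d f.1).edge → ∀ (x : α ⊕ Fin m × W → V) (a : V),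
      (D fun b => Function.update x (vm H ep j d f.1 u) a (Sum.inl b)) =
        D fun b => x (Sum.inl b) := fun u hu x a => by
    have h : ¬ u = (d f.1).fst ∧ ¬ u = (d f.1).snd := by
      simpa [SimpleGraph.Dart.edge, not_or] using hu
    rw [vm, if_neg h.1, if_neg h.2]
    congr 1
  by_cases h1 : f.2.1.out.1 ∈ (d f.1).edge
  · refine Or.inr (key _ fun h2 => (mem_erase.1 f.2.2).1 ?_)
    refine sym2_eq_of_subset (H.not_isDiag_of_mem_edgeFinset (mem_of_mem_erase f.2.2))
      fun x hx => ?_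
    rcases Dens_mem hx with h | h <;> rwa [h]
  · exact Or.inl (key _ h1)

lemma Dens_vm (z : α → V) (u : Fin m × W → V) (l : Fin m) (x : W) :
    Sum.elim z u (vm H ep j d l x) = Function.update (Function.update (fun a => u (l, a))
      (d l).fst (z (ep (j l)).1)) (d l).snd (z (ep (j l)).2) x := by
  unfold vm
  split_ifs with h1 h2
  · rw [h1, Function.update_of_ne (d l).fst_ne_snd, Function.update_self]; rfl
  · rw [h2, Function.update_self]; rfl
  · rw [Function.update_of_ne h2, Function.update_of_ne h1]; rfl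

theorem lam_beb [Nonempty V] (D : (α → V) → ℝ) (w : Fin m → Sym2 V → ℝ) :
    Lam (beb H ep j d) (fun x => D fun a => x (Sum.inl a)) (fun f => ord (w f.1)) =
      𝔼 z : α → V, D z * ∏ l, rt H (w l) (d l) (z (ep (j l)).1) (z (ep (j l)).2) := by
  unfold Lam
  rw [ex_sum_type]
  refine expect_congr rfl fun z _ => ?_
  unfold rt
  rw [← ex_prod_coord, ← ex_curry, mul_expect]
  refine expect_congr rfl fun u _ => ?_
  rw [Fintype.prod_sigma]
  refine congrArg _ (prod_congr rfl fun l _ => ?_)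
  rw [← prod_coe_sort (H.edgeFinset.erase (d l).edge)]
  refine prod_congr rfl fun e _ => ?_
  have h := Dens_out e.1
  show w l s(Sum.elim z u (vm H ep j d l e.1.out.1), Sum.elim z u (vm H ep j d l e.1.out.2)) = _
  rw [Dens_vm, Dens_vm, ← Sym2.map_mk, h]

end Pool.Agent.Work.MP_d4a230_co.U
end

-- merged part: Pool.Agent.Work.MP_d4a230_co.U.Lab
section
/-!
Labelled count of tuples of constraints.
PLAN. Fix z and y2 = update y g z. Step 1 (one constraint, lab_one): for a function Φ of sets,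
aut * sum over C with Acd C, (g,j0) ∈ C of Φ C equals the sum over darts d, over embeddings φ with
φ d.fst = z (ep j0).1, φ d.snd = z (ep j0).2, over ι : edges other than d.edge → variables with
distinct components different from g and sp (ι f) = f.map φ, of Φ (insert (g,j0) (image ι)).
Indeed a set C with Acd has injective positions with image a copy T; T has aut embeddings
(HBal.fiber / HBal.sum_copies); φ determines the labelling of C by edges and the unique dart. Step 2: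
m constraints: product of sums (Finset.prod_univ_sum, Fintype.piFinset), the pairwise condition in
DT together with the conditions inside the pieces is injectivity of the components of the joined
map on BE (Sigma.uncurry); variables in T l are outside g so their positions do not depend on z.
Step 3: maps x on α ⊕ Fin m × W with all x ∘ vm l injective correspond to (z, φ) up to the 2m unused
coordinates (l, d.fst), (l, d.snd): factor n^(2m); hit is the indicator on proper pairs (hit_of_ne).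
Split into aux files if convenient.
-/

namespace Pool.Agent.Work.MP_d4a230_co.U

open Finset Filter Topology Pool.Agent.Work.MP_07f1b5_pr
open scoped BigOperators


variable {V G α β : Type} [Fintype V] [DecidableEq V] [Fintype G] [DecidableEq G] [Fintype α]
  [DecidableEq α] [Fintype β] [DecidableEq β]
  {W : Type} [Fintype W] [DecidableEq W] {H : SimpleGraph W} [DecidableRel H.Adj]

lemma Lab_bij {X Y : Type} [Fintype X] [Fintype Y] (P : X → Prop) (Q : Y → Prop) (e : X → Y)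
    (Φ : Y → ℝ) (h1 : ∀ x, P x → Q (e x)) (h2 : ∀ x x', P x → P x' → e x = e x' → x = x')
    (h3 : ∀ y, Q y → ∃ x, P x ∧ e x = y) :
    ∑ y, ind (Q y) * Φ y = ∑ x, ind (P x) * Φ (e x) := by
  classical
  have key : ∀ {Z : Type} [Fintype Z] (R : Z → Prop) (F : Z → ℝ),
      ∑ z, ind (R z) * F z = ∑ z ∈ univ.filter R, F z := by
    intro Z _ R F
    rw [sum_filter]
    refine sum_congr rfl fun z _ => ?_
    by_cases h : R z
    · rw [ind_pos h, one_mul, if_pos h]
    · rw [ind_neg h, zero_mul, if_neg h]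
  rw [key, key]
  refine (sum_bij (fun x _ => e x) (fun x hx => mem_filter.2 ⟨mem_univ _, h1 x (mem_filter.1 hx).2⟩)
    (fun x hx x' hx' h => h2 x x' (mem_filter.1 hx).2 (mem_filter.1 hx').2 h) (fun y hy => ?_)
    fun _ _ => rfl).symm
  obtain ⟨x, h, rfl⟩ := h3 y (mem_filter.1 hy).2
  exact ⟨x, mem_filter.2 ⟨mem_univ _, h⟩, rfl⟩

lemma Lab_all {X : Type} [Fintype X] (p : X → Prop) : ind (∀ l, p l) = ∏ l, ind (p l) := by
  by_cases h : ∀ l, p l
  · rw [ind_pos h, prod_eq_one fun l _ => ind_pos (h l)]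
  · obtain ⟨l, hl⟩ := not_forall.1 h
    rw [ind_neg h, prod_eq_zero (mem_univ l) (ind_neg hl)]

lemma Lab_out (f : Sym2 W) : s(f.out.1, f.out.2) = f := by
  rw [Sym2.mk, f.out_eq]

lemma Lab_aut1 (B : HBal H) (S : Finset (Sym2 V)) : aut H * ind (S ∈ copies H V) =
    ∑ φ : W → V, ind (Function.Injective φ) * ind (H.edgeFinset.image (Sym2.map φ) = S) := by
  rw [← KCount0_emb fun φ => ind (H.edgeFinset.image (Sym2.map φ) = S)]
  refine Eq.trans (congrArg _ ?_) (B.sum_copies fun T => ind (T = S))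
  by_cases h : S ∈ copies H V
  · rw [ind_pos h, sum_eq_single S (fun T _ hT => ind_neg hT) (fun h' => absurd h h'), ind_pos rfl]
  · rw [ind_neg h, sum_eq_zero fun T hT => ind_neg fun e : T = S => h (e ▸ hT)]

lemma Lab_aut (B : HBal H) {m : ℕ} (S : Fin m → Finset (Sym2 V)) :
    aut H ^ m * ind (∀ l, S l ∈ copies H V) = ∑ φ : Fin m → W → V,
      ind (∀ l, Function.Injective (φ l)) * ind (∀ l, H.edgeFinset.image (Sym2.map (φ l)) = S l) := by
  have e : aut H ^ m = ∏ _l : Fin m, aut H := by rw [prod_const, card_univ, Fintype.card_fin]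
  rw [Lab_all, e, ← prod_mul_distrib, prod_congr rfl fun l _ => Lab_aut1 B (S l), Fintype.prod_sum]
  exact sum_congr rfl fun φ _ => by rw [Lab_all, Lab_all, prod_mul_distrib]

/-- Labelled variables. -/
def Lab_R {m : ℕ} (s0 : G × β → Sym2 V) (T : Fin m → Finset (G × β)) (d : Fin m → H.Dart)
    (φ : Fin m → W → V) (ι : BE H d → G × β) : Prop :=
  (Function.Injective fun f => (ι f).1) ∧ ∀ f, ι f ∈ T f.1 ∧ s0 (ι f) = f.2.1.map (φ f.1)

/-- The constraints given by labelled variables. -/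
def Lab_e {m : ℕ} (g : G) (j : Fin m → β) (p : Σ d : Fin m → H.Dart, BE H d → G × β) (l : Fin m) :
    Finset (G × β) :=
  insert (g, j l) (univ.image fun f => p.2 ⟨l, f⟩)

lemma Lab_mem {m : ℕ} {g : G} {j : Fin m → β} {p : Σ d : Fin m → H.Dart, BE H d → G × β}
    {l : Fin m} {i : G × β} : i ∈ Lab_e g j p l ↔ i = (g, j l) ∨ ∃ f, p.2 ⟨l, f⟩ = i := by
  unfold Lab_e
  simp only [mem_insert, mem_image, mem_univ, true_and]

lemma Lab_card {m : ℕ} {g : G} (j : Fin m → β) {p : Σ d : Fin m → H.Dart, BE H d → G × β}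
    (h1 : Function.Injective fun f => (p.2 f).1) (h2 : ∀ f, (p.2 f).1 ≠ g) (l : Fin m) :
    (Lab_e g j p l).card = H.edgeFinset.card := by
  unfold Lab_e
  rw [card_insert_of_notMem, card_image_of_injective, card_univ, Fintype.card_coe,
    card_erase_add_one (SimpleGraph.mem_edgeFinset.2 (p.1 l).edge_mem)]
  · intro f f' h
    exact eq_of_heq (Sigma.mk.inj (h1 (congrArg Prod.fst h))).2
  · intro h
    obtain ⟨f, -, hf⟩ := mem_image.1 h
    exact h2 _ (congrArg Prod.fst hf)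

lemma Lab_count {m : ℕ} (g : G) (j : Fin m → β) (T : Fin m → Finset (G × β))
    (hT : ∀ l, ∀ i ∈ T l, i.1 ≠ g) (s0 s2 : G × β → Sym2 V) (a b : Fin m → V)
    (hs : ∀ i, i.1 ≠ g → s2 i = s0 i) (hg : ∀ l, s2 (g, j l) = s(a l, b l)) (φ : Fin m → W → V)
    (hφ : ∀ l, Function.Injective (φ l)) :
    ∑ c : Fin m → Finset (G × β),
      ind (((∀ l, H.edgeFinset.image (Sym2.map (φ l)) = (c l).image s2) ∧
        ∀ l, (c l).card = H.edgeFinset.card ∧ Set.InjOn Prod.fst (c l : Set (G × β)) ∧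
          (g, j l) ∈ c l ∧ (c l).erase (g, j l) ⊆ T l) ∧
        ∀ l l', l ≠ l' → ∀ i ∈ c l, ∀ i' ∈ c l', i.1 = i'.1 → i.1 = g) =
      ∑ d : Fin m → H.Dart, ind (∀ l, φ l (d l).fst = a l ∧ φ l (d l).snd = b l) *
        ∑ ι : BE H d → G × β, ind (Lab_R s0 T d φ ι) := by
  have hm : ∀ l, Function.Injective (Sym2.map (φ l)) := fun l => Sym2.map.injective (hφ l)
  have := Lab_bij (fun p : Σ d : Fin m → H.Dart, BE H d → G × β =>
      (∀ l, φ l (p.1 l).fst = a l ∧ φ l (p.1 l).snd = b l) ∧ Lab_R s0 T p.1 φ p.2)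
    (fun c : Fin m → Finset (G × β) =>
      ((∀ l, H.edgeFinset.image (Sym2.map (φ l)) = (c l).image s2) ∧
        ∀ l, (c l).card = H.edgeFinset.card ∧ Set.InjOn Prod.fst (c l : Set (G × β)) ∧
          (g, j l) ∈ c l ∧ (c l).erase (g, j l) ⊆ T l) ∧
        ∀ l l', l ≠ l' → ∀ i ∈ c l, ∀ i' ∈ c l', i.1 = i'.1 → i.1 = g)
    (Lab_e g j) (fun _ => 1) ?_ ?_ ?_
  · simpa only [mul_one, Fintype.sum_sigma, ind_and (∀ l, φ l _ = a l ∧ _), ← mul_sum] using this
  · rintro ⟨d, ι⟩ ⟨hr, h1, h2⟩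
    have h3 : ∀ f, (ι f).1 ≠ g := fun f => hT _ _ (h2 f).1
    have h4 : ∀ l, s2 (g, j l) = (d l).edge.map (φ l) := fun l => by
      rw [hg, ← (hr l).1, ← (hr l).2]; rfl
    refine ⟨⟨fun l => ?_, fun l => ⟨Lab_card j h1 h3 l, fun i hi i' hi' h => ?_,
      Lab_mem.2 (Or.inl rfl), fun i hi => ?_⟩⟩, fun l l' hl i hi i' hi' h => ?_⟩
    · ext e
      simp only [mem_image, Lab_mem]
      constructor
      · rintro ⟨f, hf, rfl⟩
        by_cases h : f = (d l).edge
        · exact ⟨_, Or.inl rfl, h ▸ h4 l⟩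
        · exact ⟨_, Or.inr ⟨⟨f, mem_erase.2 ⟨h, hf⟩⟩, rfl⟩, (hs _ (h3 _)).trans (h2 _).2⟩
      · rintro ⟨i, rfl | ⟨f, rfl⟩, rfl⟩
        · exact ⟨_, SimpleGraph.mem_edgeFinset.2 (d l).edge_mem, (h4 l).symm⟩
        · exact ⟨f.1, mem_of_mem_erase f.2, ((hs _ (h3 _)).trans (h2 ⟨l, f⟩).2).symm⟩
    · rcases Lab_mem.1 hi with rfl | ⟨f, rfl⟩ <;> rcases Lab_mem.1 hi' with rfl | ⟨f', rfl⟩
      · rfl
      · exact absurd h.symm (h3 _)
      · exact absurd h (h3 _)
      · exact congrArg ι (h1 h)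
    · rcases Lab_mem.1 (mem_of_mem_erase hi) with h | ⟨f, rfl⟩
      · exact absurd h (ne_of_mem_erase hi)
      · exact (h2 _).1
    · rcases Lab_mem.1 hi with rfl | ⟨f, rfl⟩
      · rfl
      · rcases Lab_mem.1 hi' with rfl | ⟨f', rfl⟩
        · exact h
        · exact absurd (congrArg Sigma.fst (h1 h)) hl
  · rintro ⟨d, ι⟩ ⟨d', ι'⟩ ⟨hr, h1, h2⟩ ⟨hr', h1', h2'⟩ h
    obtain rfl : d = d' := funext fun l => SimpleGraph.Dart.ext _ _
      (Prod.ext (hφ l ((hr l).1.trans (hr' l).1.symm)) (hφ l ((hr l).2.trans (hr' l).2.symm)))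
    refine congrArg _ (funext fun ⟨l, f⟩ => ?_)
    have h5 : ι ⟨l, f⟩ ∈ Lab_e g j ⟨d, ι'⟩ l := congrFun h l ▸ Lab_mem.2 (Or.inr ⟨f, rfl⟩)
    rcases Lab_mem.1 h5 with h6 | ⟨f', h6⟩
    · exact absurd (congrArg Prod.fst h6) (hT _ _ (h2 _).1)
    · obtain rfl : f' = f := Subtype.ext
        (hm l ((h2' ⟨l, f'⟩).2.symm.trans ((congrArg s0 h6).trans (h2 ⟨l, f⟩).2)))
      exact h6.symm
  · rintro c ⟨⟨h1, h2⟩, h3⟩
    have e1 : ∀ l, ∃ d : H.Dart, φ l d.fst = a l ∧ φ l d.snd = b l := fun l => by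
      have h : s2 (g, j l) ∈ H.edgeFinset.image (Sym2.map (φ l)) :=
        h1 l ▸ mem_image_of_mem _ (h2 l).2.2.1
      obtain ⟨f, hf, h⟩ := mem_image.1 h
      induction f using Sym2.ind with | _ u v => ?_
      have huv : H.Adj u v := by simpa using hf
      rcases Sym2.eq_iff.1 (h.trans (hg l)) with h | h
      exacts [⟨⟨(u, v), huv⟩, h⟩, ⟨⟨(v, u), huv.symm⟩, h.symm⟩]
    choose d hd using e1
    have e2 : ∀ f : BE H d, ∃ i ∈ (c f.1).erase (g, j f.1), s2 i = f.2.1.map (φ f.1) := fun f => by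
      have h : f.2.1.map (φ f.1) ∈ (c f.1).image s2 :=
        h1 f.1 ▸ mem_image_of_mem _ (mem_of_mem_erase f.2.2)
      obtain ⟨i, hi, h⟩ := mem_image.1 h
      refine ⟨i, mem_erase.2 ⟨?_, hi⟩, h⟩
      rintro rfl
      refine ne_of_mem_erase f.2.2 (hm f.1 (h.symm.trans ?_))
      rw [hg, ← (hd _).1, ← (hd _).2]; rfl
    choose ι hι hι' using e2
    have e3 : ∀ f, ι f ∈ T f.1 := fun f => (h2 _).2.2.2 (hι f)
    have e4 : Function.Injective fun f => (ι f).1 := by
      rintro ⟨l, f⟩ ⟨l', f'⟩ h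
      by_cases hl : l = l'
      · subst hl
        have := (h2 l).2.1 (mem_of_mem_erase (hι ⟨l, f⟩)) (mem_of_mem_erase (hι ⟨l, f'⟩)) h
        exact congrArg _ (Subtype.ext
          (hm l ((hι' ⟨l, f⟩).symm.trans ((congrArg s2 this).trans (hι' ⟨l, f'⟩)))))
      · exact absurd (h3 l l' hl _ (mem_of_mem_erase (hι ⟨l, f⟩)) _
          (mem_of_mem_erase (hι ⟨l', f'⟩)) h) (hT _ _ (e3 _))
    refine ⟨⟨d, ι⟩, ⟨hd, e4, fun f => ⟨e3 f, (hs _ (hT _ _ (e3 f))).symm.trans (hι' f)⟩⟩,
      funext fun l => eq_of_subset_of_card_le (fun i hi => ?_) ?_⟩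
    · rcases Lab_mem.1 hi with rfl | ⟨f, rfl⟩
      · exact (h2 l).2.2.1
      · exact mem_of_mem_erase (hι ⟨l, f⟩)
    · rw [Lab_card (p := ⟨d, ι⟩) j e4 (fun f => hT _ _ (e3 f)), (h2 l).1]

lemma Lab_DT (B : HBal H) (ep : β → α × α) {m : ℕ} (g : G) (j : Fin m → β)
    (T : Fin m → Finset (G × β)) (hT : ∀ l, ∀ i ∈ T l, i.1 ≠ g) (y : G → α → V) (z : α → V) :
    aut H ^ m * DT H ep g j T (Function.update y g z) = ∑ d : Fin m → H.Dart,
      ∑ φ : Fin m → W → V,
        ind (∀ l, φ l (d l).fst = z (ep (j l)).1 ∧ φ l (d l).snd = z (ep (j l)).2) *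
          (ind (∀ l, Function.Injective (φ l)) *
            ∑ ι : BE H d → G × β, ind (Lab_R (sp ep y) T d φ ι)) := by
  rw [sum_comm]
  unfold DT
  rw [mul_sum]
  have e : ∀ c : Fin m → Finset (G × β), aut H ^ m *
      (ind (∀ l, Acd H (sp ep (Function.update y g z)) Prod.fst (c l) ∧ (g, j l) ∈ c l ∧
        (c l).erase (g, j l) ⊆ T l) *
      ind (∀ l l', l ≠ l' → ∀ i ∈ c l, ∀ i' ∈ c l', i.1 = i'.1 → i.1 = g)) =
      ∑ φ : Fin m → W → V, ind (∀ l, Function.Injective (φ l)) *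
        ind (((∀ l, H.edgeFinset.image (Sym2.map (φ l)) =
          (c l).image (sp ep (Function.update y g z))) ∧
        ∀ l, (c l).card = H.edgeFinset.card ∧ Set.InjOn Prod.fst (c l : Set (G × β)) ∧
          (g, j l) ∈ c l ∧ (c l).erase (g, j l) ⊆ T l) ∧
        ∀ l l', l ≠ l' → ∀ i ∈ c l, ∀ i' ∈ c l', i.1 = i'.1 → i.1 = g) := fun c => by
    simp only [ind_and (_ ∧ _), ind_and (∀ l, H.edgeFinset.image _ = _), ← mul_assoc, ← sum_mul]
    rw [← Lab_aut B, mul_assoc (aut H ^ m) (ind (∀ l, _ ∈ copies H V)), ← ind_and]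
    refine congrArg₂ (· * ·) (congrArg _ (ind_congr ?_)) rfl
    unfold Acd
    exact ⟨fun h => ⟨fun l => (h l).1.1, fun l => ⟨(h l).1.2.1, (h l).1.2.2, (h l).2⟩⟩,
      fun h l => ⟨⟨h.1 l, (h.2 l).1, (h.2 l).2.1⟩, (h.2 l).2.2⟩⟩
  rw [sum_congr rfl fun c _ => e c, sum_comm]
  refine sum_congr rfl fun φ _ => ?_
  rw [← mul_sum]
  simp only [mul_left_comm _ (ind (∀ l, Function.Injective (φ l))), ← mul_sum]
  by_cases hφ : ∀ l, Function.Injective (φ l)
  · refine congrArg _ (Lab_count g j T hT _ _ _ _ (fun i hi => ?_) (fun l => ?_) φ hφ)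
    · unfold sp
      rw [Function.update_of_ne hi]
    · unfold sp sl
      rw [Function.update_self]
  · rw [ind_neg hφ, zero_mul, zero_mul]

lemma Lab_x (ep : β → α × α) {m : ℕ} (j : Fin m → β) (d : Fin m → H.Dart)
    (Ψ : (α → V) → (Fin m → W → V) → ℝ) :
    ∑ x : α ⊕ Fin m × W → V, Ψ (fun a => x (Sum.inl a)) (fun l u => x (vm H ep j d l u)) =
      (Fintype.card V : ℝ) ^ (2 * m) * ∑ z : α → V, ∑ φ : Fin m → W → V,
        ind (∀ l, φ l (d l).fst = z (ep (j l)).1 ∧ φ l (d l).snd = z (ep (j l)).2) * Ψ z φ := by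
  have v1 : ∀ l, vm H ep j d l (d l).fst = Sum.inl (ep (j l)).1 := fun l => if_pos rfl
  have v2 : ∀ l, vm H ep j d l (d l).snd = Sum.inl (ep (j l)).2 := fun l =>
    (if_neg (d l).snd_ne_fst).trans (if_pos rfl)
  have v3 : ∀ l u, u ≠ (d l).fst → u ≠ (d l).snd → vm H ep j d l u = Sum.inr (l, u) :=
    fun l u h1 h2 => (if_neg h1).trans (if_neg h2)
  have := Lab_bij (fun _ : α ⊕ Fin m × W → V => True)
    (fun p : (Fin m → V × V) × (α → V) × (Fin m → W → V) =>
      ∀ l, p.2.2 l (d l).fst = p.2.1 (ep (j l)).1 ∧ p.2.2 l (d l).snd = p.2.1 (ep (j l)).2)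
    (fun x => (fun l => (x (Sum.inr (l, (d l).fst)), x (Sum.inr (l, (d l).snd))),
      fun a => x (Sum.inl a), fun l u => x (vm H ep j d l u)))
    (fun p => Ψ p.2.1 p.2.2) (fun x _ l => ⟨congrArg x (v1 l), congrArg x (v2 l)⟩) ?_ ?_
  · simp only [ind_pos trivial, one_mul, Fintype.sum_prod_type, sum_const, card_univ,
      Fintype.card_fun, Fintype.card_prod, Fintype.card_fin, nsmul_eq_mul] at this
    rw [← this, pow_mul, sq]
    push_cast
    rfl
  · intro x x' _ _ h
    funext t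
    rcases t with t | ⟨l, u⟩
    · exact congrFun (congrArg (fun p => p.2.1) h) t
    by_cases h1 : u = (d l).fst
    · exact h1 ▸ congrArg (fun p => (p.1 l).1) h
    by_cases h2 : u = (d l).snd
    · exact h2 ▸ congrArg (fun p => (p.1 l).2) h
    exact v3 l u h1 h2 ▸ congrArg (fun p => p.2.2 l u) h
  · rintro ⟨s, z, φ⟩ h
    refine ⟨Sum.elim z fun q => if q.2 = (d q.1).fst then (s q.1).1 else
      if q.2 = (d q.1).snd then (s q.1).2 else φ q.1 q.2, trivial, Prod.ext (funext fun l => ?_)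
      (Prod.ext rfl (funext fun l => funext fun u => ?_))⟩
    · exact Prod.ext (if_pos rfl) ((if_neg (d l).snd_ne_fst).trans (if_pos rfl))
    · by_cases h1 : u = (d l).fst
      · subst h1
        exact (congrArg _ (v1 l)).trans (h l).1.symm
      by_cases h2 : u = (d l).snd
      · subst h2
        exact (congrArg _ (v2 l)).trans (h l).2.symm
      exact (congrArg _ (v3 l u h1 h2)).trans ((if_neg h1).trans (if_neg h2))

lemma Lab_hit (ep : β → α × α) {m : ℕ} (j : Fin m → β) (d : Fin m → H.Dart)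
    (T : Fin m → Finset (G × β)) (s0 : G × β → Sym2 V) (x : α ⊕ Fin m × W → V)
    (hx : ∀ l, Function.Injective fun u => x (vm H ep j d l u)) (ι : BE H d → G × β) :
    ind (Function.Injective fun f => (ι f).1) *
      ∏ f, ind (ι f ∈ T f.1) * hit (s0 (ι f)) (exf (beb H ep j d) x f) =
      ind (Lab_R s0 T d (fun l u => x (vm H ep j d l u)) ι) := by
  unfold Lab_R
  rw [ind_and, Lab_all]
  refine congrArg _ (prod_congr rfl fun f _ => ?_)
  have h : f.2.1.out.1 ≠ f.2.1.out.2 := fun h => H.not_isDiag_of_mem_edgeFinset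
    (mem_of_mem_erase f.2.2) (Lab_out f.2.1 ▸ Sym2.mk_isDiag_iff.2 h)
  rw [ind_and, hit_of_ne _ fun h' => h (hx f.1 h')]
  refine congrArg _ (ind_congr (Eq.congr_right ?_))
  exact congrArg (Sym2.map fun u => x (vm H ep j d f.1 u)) (Lab_out f.2.1)

theorem lab [Nonempty V] (B : HBal H) (ep : β → α × α) (hne : ∀ j, (ep j).1 ≠ (ep j).2) {m : ℕ}
    (g : G) (j : Fin m → β) (T : Fin m → Finset (G × β)) (hT : ∀ l, ∀ i ∈ T l, i.1 ≠ g)
    (y : G → α → V) (D : (α → V) → ℝ) (τ : ℝ) :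
    τ ^ m * (𝔼 z : α → V, D z * DT H ep g j T (Function.update y g z)) =
      rate H (Fintype.card V) (Fintype.card G * Fintype.card β) τ ^ m *
        𝔼 d : Fin m → H.Dart, Cnt (beb H ep j d) (sp ep y)
          (fun x => D (fun a => x (Sum.inl a)) *
            ind (∀ l, Function.Injective fun u => x (vm H ep j d l u))) fun f => T f.1 := by
  have hn : (Fintype.card V : ℝ) ≠ 0 := Nat.cast_ne_zero.2 Fintype.card_ne_zero
  have hA : aut H ≠ 0 := (zero_lt_one.trans_le one_le_aut).ne'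
  have hk : (H.edgeFinset.card : ℝ) ≠ 0 := Nat.cast_ne_zero.2 (by have := B.h3; have := B.hk; omega)
  have e1 : ∀ d : Fin m → H.Dart, Cnt (beb H ep j d) (sp ep y)
      (fun x => D (fun a => x (Sum.inl a)) *
        ind (∀ l, Function.Injective fun u => x (vm H ep j d l u))) (fun f => T f.1) =
      ((Fintype.card V : ℝ) ^ 2 / (2 * Fintype.card (G × β))) ^ (m * (H.edgeFinset.card - 1)) *
        ((Fintype.card V : ℝ) ^ (2 * m) * (∑ z : α → V, D z * ∑ φ : Fin m → W → V,
          ind (∀ l, φ l (d l).fst = z (ep (j l)).1 ∧ φ l (d l).snd = z (ep (j l)).2) *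
            (ind (∀ l, Function.Injective (φ l)) *
              ∑ ι : BE H d → G × β, ind (Lab_R (sp ep y) T d φ ι))) /
          (Fintype.card V : ℝ) ^ (Fintype.card α + m * Fintype.card W)) := fun d => by
    unfold Cnt
    rw [card_BE, Fintype.expect_eq_sum_div_card, Fintype.card_fun, Fintype.card_sum,
      Fintype.card_prod (Fin m), Fintype.card_fin, Nat.cast_pow]
    refine congrArg _ (congrArg₂ (· / ·) ?_ rfl)
    simp only [mul_sum _ _ (D _), mul_left_comm (D _)]
    rw [← Lab_x ep j d fun z φ => ind (∀ l, Function.Injective (φ l)) *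
      ∑ ι : BE H d → G × β, D z * ind (Lab_R (sp ep y) T d φ ι)]
    refine sum_congr rfl fun x _ => ?_
    by_cases hx : ∀ l, Function.Injective fun u => x (vm H ep j d l u)
    · rw [ind_pos hx, mul_one, one_mul, mul_sum]
      exact sum_congr rfl fun ι _ => congrArg _ (Lab_hit ep j d T _ x hx ι)
    · rw [ind_neg hx, mul_zero, zero_mul, zero_mul]
  have e2 : ∑ z : α → V, D z * DT H ep g j T (Function.update y g z) =
      (∑ d : Fin m → H.Dart, ∑ z : α → V, D z * ∑ φ : Fin m → W → V,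
          ind (∀ l, φ l (d l).fst = z (ep (j l)).1 ∧ φ l (d l).snd = z (ep (j l)).2) *
            (ind (∀ l, Function.Injective (φ l)) *
              ∑ ι : BE H d → G × β, ind (Lab_R (sp ep y) T d φ ι))) / aut H ^ m := by
    rw [eq_div_iff (pow_ne_zero _ hA), sum_mul, sum_comm]
    refine sum_congr rfl fun z _ => ?_
    rw [← mul_sum, ← Lab_DT B ep g j T hT y z]
    ring
  have e3 : ((2 * ((Fintype.card G * Fintype.card β : ℕ) : ℝ) / (Fintype.card V : ℝ) ^ 2) ^
      (H.edgeFinset.card - 1)) ^ m * ((Fintype.card V : ℝ) ^ 2 / (2 * Fintype.card (G × β))) ^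
        (m * (H.edgeFinset.card - 1)) = 1 := by
    rcases Nat.eq_zero_or_pos m with rfl | hm
    · rw [pow_zero, zero_mul, pow_zero, one_mul]
    · have : Nonempty (G × β) := ⟨(g, j ⟨0, hm⟩)⟩
      have hN : (Fintype.card (G × β) : ℝ) ≠ 0 := Nat.cast_ne_zero.2 Fintype.card_ne_zero
      rw [← Fintype.card_prod, ← pow_mul, mul_comm m, ← mul_pow, div_mul_div_cancel₀ (by positivity),
        div_self (by positivity), one_pow]
  have e4 : (Fintype.card V : ℝ) ^ (m * Fintype.card W) =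
      ((Fintype.card V : ℝ) ^ (Fintype.card W - 2)) ^ m * (Fintype.card V : ℝ) ^ (2 * m) := by
    rw [← pow_mul, ← pow_add, ← add_mul, Nat.sub_add_cancel (by have := B.h3; omega), mul_comm]
  simp only [e1, Fintype.expect_eq_sum_div_card]
  rw [e2, ← mul_sum, ← sum_div, ← mul_sum, Fintype.card_fun, Fintype.card_fun,
    SimpleGraph.dart_card_eq_twice_card_edges, Fintype.card_fin, rate, mul_pow, mul_assoc,
    mul_div_assoc (_ ^ (m * _)), ← mul_assoc (_ ^ m) (_ ^ (m * _)), e3, pow_add, e4]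
  push_cast
  rw [mul_pow, mul_pow, div_pow]
  generalize (∑ d : Fin m → H.Dart, ∑ z : α → V, D z * ∑ φ : Fin m → W → V,
    ind (∀ l, φ l (d l).fst = z (ep (j l)).1 ∧ φ l (d l).snd = z (ep (j l)).2) *
      (ind (∀ l, Function.Injective (φ l)) *
        ∑ ι : BE H d → G × β, ind (Lab_R (sp ep y) T d φ ι))) = S
  clear e1 e2 e3 e4
  field_simp

end Pool.Agent.Work.MP_d4a230_co.U
end

-- merged part: Pool.Agent.Work.MP_d4a230_co.U.Bonf
section
/-!
Bonferroni inequalities, a finite difference estimate and two polynomial approximations.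
PLAN. es m a is the sum over subsets of size m of the product (m! injective tuples per subset:
Finset.powersetCard, or prove the recursion for a general Finset s directly:
e (m+1) (insert x s) = e (m+1) s + a x * e m s). bonf: induction on the Finset for all m at once, with
signs: (-1)^(m+1) (prod - partial sum) lies in [0, e (m+1)]. prod_fd: induction on the Finset.
exp_taylor: summability of X^m / m! (Real.summable_pow_div_factorial, Real.exp_bound or
NormedSpace.expSeries_div_hasSum_exp). poly_approx: exists_polynomial_near_of_continuousOn,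
Polynomial.eval_eq_sum_range.
-/

namespace Pool.Agent.Work.MP_d4a230_co.U

open Finset Filter Topology Pool.Agent.Work.MP_07f1b5_pr
open scoped BigOperators


theorem Bonf_es {X : Type} [Fintype X] (a : X → ℝ) (m : ℕ) :
    es m a = (univ.val.map a).esymm m := by
  classical
  rw [Finset.esymm_map_val, es, div_eq_iff (by positivity), sum_mul]
  have e : ∑ c : Fin m → X, ind (Function.Injective c) * ∏ l, a (c l) =
      ∑ c : Fin m → X with Function.Injective c, ∏ l, a (c l) := by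
    rw [sum_filter]
    refine sum_congr rfl fun c _ => ?_
    split_ifs with h
    · rw [ind_pos h, one_mul]
    · rw [ind_neg h, zero_mul]
  rw [e, ← sum_fiberwise_of_maps_to (g := fun c : Fin m → X => univ.image c)
    (t := powersetCard m univ) fun c hc => mem_powersetCard_univ.2 (by
      rw [card_image_of_injective _ (mem_filter.1 hc).2, card_fin])]
  refine sum_congr rfl fun t ht => ?_
  have ht' := mem_powersetCard_univ.1 ht
  rw [sum_congr rfl (g := fun _ => t.prod a) fun c hc => by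
    rw [← (mem_filter.1 hc).2, prod_image (mem_filter.1 (mem_filter.1 hc).1).2.injOn],
    sum_const, nsmul_eq_mul, mul_comm]
  congr 2
  rw [← Nat.descFactorial_self, show m.descFactorial m = (Fintype.card t).descFactorial
    (Fintype.card (Fin m)) by simp [ht'], ← Fintype.card_embedding_eq, ← card_univ]
  refine (card_bij (fun e _ l => (e l).1) (fun e _ => ?_) (fun e _ e' _ h => ?_) fun c hc => ?_).symm
  · have hi : Function.Injective fun l => (e l).1 := Subtype.val_injective.comp e.injective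
    refine mem_filter.2 ⟨mem_filter.2 ⟨mem_univ _, hi⟩, eq_of_subset_of_card_le
      (image_subset_iff.2 fun l _ => (e l).2) ?_⟩
    rw [card_image_of_injective _ hi, card_fin, ht']
  · exact Function.Embedding.ext fun l => Subtype.ext (congrFun h l)
  · simp only [mem_filter, mem_univ, true_and] at hc
    exact ⟨⟨fun l => ⟨c l, hc.2 ▸ mem_image_of_mem c (mem_univ l)⟩,
      fun l l' h => hc.1 (congrArg Subtype.val h)⟩, mem_univ _, rfl⟩

theorem Bonf_pos (s : Multiset ℝ) (hs : ∀ x ∈ s, 0 ≤ x ∧ x ≤ 1) (m : ℕ) :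
    0 ≤ (-1) ^ m * ((s.map fun x => 1 - x).prod - ∑ i ∈ range m, (-1) ^ i * s.esymm i) := by
  induction s using Multiset.induction_on generalizing m with
  | empty => cases m <;> simp [sum_range_succ', Multiset.esymm]
  | cons a s ih =>
    have ha := hs a (Multiset.mem_cons_self _ _)
    replace ih := ih fun x hx => hs x (Multiset.mem_cons_of_mem hx)
    have e0 : (a ::ₘ s).esymm 0 = s.esymm 0 := by simp [Multiset.esymm]
    have e1 : ∀ i, (a ::ₘ s).esymm (i + 1) = s.esymm (i + 1) + a * s.esymm i := fun i => by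
      simp [Multiset.esymm, Multiset.sum_map_mul_left]
    rw [Multiset.map_cons, Multiset.prod_cons]
    rcases m with _ | m
    · simpa using mul_nonneg (sub_nonneg.2 ha.2) (ih 0)
    · have e2 : ∑ i ∈ range (m + 1), (-1) ^ i * (a ::ₘ s).esymm i =
          ∑ i ∈ range (m + 1), (-1) ^ i * s.esymm i - a * ∑ i ∈ range m, (-1) ^ i * s.esymm i := by
        rw [sum_range_succ', sum_range_succ', e0, mul_sum, add_sub_right_comm, ← sum_sub_distrib]
        exact congrArg (· + _) (sum_congr rfl fun i _ => by rw [e1]; ring)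
      refine (add_nonneg (ih (m + 1)) (mul_nonneg ha.1 (ih m))).trans_eq ?_
      rw [e2]
      ring

theorem bonf {X : Type} [Fintype X] (a : X → ℝ) (ha : Unit01 a) (m : ℕ) :
    |∏ x, (1 - a x) - ∑ i ∈ range (m + 1), (-1) ^ i * es i a| ≤ es (m + 1) a := by
  have hs : ∀ x ∈ univ.val.map a, 0 ≤ x ∧ x ≤ 1 := fun x hx => by
    obtain ⟨y, -, rfl⟩ := Multiset.mem_map.1 hx
    exact ha y
  have h1 := Bonf_pos _ hs (m + 1)
  have h2 := Bonf_pos _ hs (m + 1 + 1)
  simp only [← Bonf_es, Multiset.map_map, Function.comp, prod_map_val] at h1 h2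
  rw [sum_range_succ _ (m + 1), pow_succ _ (m + 1)] at h2
  rcases neg_one_pow_eq_or ℝ (m + 1) with e | e <;> rw [e] at h1 h2 <;> rw [abs_le] <;>
    constructor <;> linarith only [h1, h2]

theorem prod_fd {X : Type} [Fintype X] [DecidableEq X] (a b : X → ℝ) (h0 : ∀ x, 0 ≤ a x)
    (hb : ∀ x, 0 ≤ b x) (h1 : ∀ x, a x + b x ≤ 1) :
    |∏ x, (1 - (a x + b x)) - ∏ x, (1 - a x) + ∑ x, b x * ∏ x2 ∈ univ.erase x, (1 - a x2)| ≤
      (∑ x, b x) ^ 2 := by
  have h2 : ∀ x, 0 ≤ 1 - a x ∧ 1 - a x ≤ 1 := fun x => ⟨by linarith [hb x, h1 x], by linarith [h0 x]⟩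
  have key : ∀ s : Finset X, |∏ x ∈ s, (1 - a x) - ∏ x ∈ s, (1 - (a x + b x))| ≤ ∑ x ∈ s, b x ∧
      |∏ x ∈ s, (1 - (a x + b x)) - ∏ x ∈ s, (1 - a x) +
        ∑ x ∈ s, b x * ∏ x2 ∈ s.erase x, (1 - a x2)| ≤ (∑ x ∈ s, b x) ^ 2 := fun s => by
    induction s using Finset.induction_on with
    | empty => simp
    | insert y s hy ih =>
      have e : ∑ x ∈ s, b x * ∏ x2 ∈ (insert y s).erase x, (1 - a x2) =
          (1 - a y) * ∑ x ∈ s, b x * ∏ x2 ∈ s.erase x, (1 - a x2) := by
        rw [mul_sum]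
        refine sum_congr rfl fun x hx => ?_
        rw [erase_insert_of_ne (by rintro rfl; exact hy hx),
          prod_insert fun c => hy (mem_of_mem_erase c), mul_left_comm]
      have p0 : 0 ≤ ∏ x ∈ s, (1 - (a x + b x)) := prod_nonneg fun x _ => sub_nonneg.2 (h1 x)
      have p1 : ∏ x ∈ s, (1 - (a x + b x)) ≤ 1 :=
        prod_le_one (fun x _ => sub_nonneg.2 (h1 x)) fun x _ => by linarith [h0 x, hb x]
      have b0 : 0 ≤ ∑ x ∈ s, b x := sum_nonneg fun x _ => hb x
      rw [prod_insert hy, prod_insert hy, sum_insert hy, sum_insert hy, erase_insert hy, e]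
      generalize ∏ x ∈ s, (1 - (a x + b x)) = P' at *
      generalize ∏ x ∈ s, (1 - a x) = P at *
      generalize ∑ x ∈ s, b x * ∏ x2 ∈ s.erase x, (1 - a x2) = L at *
      generalize ∑ x ∈ s, b x = B at *
      have k1 : |(1 - a y) * (P - P')| ≤ B := by
        rw [abs_mul, abs_of_nonneg (h2 y).1]
        exact (mul_le_of_le_one_left (abs_nonneg _) (h2 y).2).trans ih.1
      have k2 : |(1 - a y) * (P' - P + L)| ≤ B ^ 2 := by
        rw [abs_mul, abs_of_nonneg (h2 y).1]
        exact (mul_le_of_le_one_left (abs_nonneg _) (h2 y).2).trans ih.2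
      have k3 : |b y * (P - P')| ≤ b y * B := by
        rw [abs_mul, abs_of_nonneg (hb y)]
        exact mul_le_mul_of_nonneg_left ih.1 (hb y)
      have k4 := mul_nonneg (hb y) p0
      have k5 := mul_le_of_le_one_right (hb y) p1
      have k6 := mul_nonneg (hb y) b0
      rw [abs_le] at k1 k2 k3
      refine ⟨abs_le.2 ⟨?_, ?_⟩, abs_le.2 ⟨?_, ?_⟩⟩ <;> linarith only [k1, k4, k5, k2, k3, sq_nonneg (b y)]
  exact (key univ).2

theorem exp_taylor (X : ℝ) {ε : ℝ} (hε : 0 < ε) : ∀ᶠ m in atTop,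
    X ^ (m + 1) / (m + 1).factorial ≤ ε ∧ ∀ x : ℝ, |x| ≤ X →
      |Real.exp (-x) - ∑ i ∈ range (m + 1), (-1) ^ i * (x ^ i / i.factorial)| ≤ ε := by
  have l1 := ((FloorSemiring.tendsto_pow_div_factorial_atTop X).comp
    (tendsto_add_atTop_nat 1)).eventually (ge_mem_nhds (half_pos hε))
  filter_upwards [l1, tendsto_natCast_atTop_atTop.eventually_ge_atTop (2 * X)] with m h1 h2
  have h3 : X ^ (m + 1) / (m + 1).factorial ≤ ε / 2 := h1
  refine ⟨by linarith only [hε, h3], fun x hx => ?_⟩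
  have h4 := Complex.exp_bound' (x := ((-x : ℝ) : ℂ)) (n := m + 1) (by
    rw [Complex.norm_real, Real.norm_eq_abs, abs_neg, div_le_iff₀ (by positivity)]
    push_cast
    linarith only [h2, hx])
  have e : Complex.exp ((-x : ℝ) : ℂ) - ∑ i ∈ range (m + 1), ((-x : ℝ) : ℂ) ^ i / i.factorial =
      ((Real.exp (-x) - ∑ i ∈ range (m + 1), (-1) ^ i * (x ^ i / i.factorial) : ℝ) : ℂ) := by
    push_cast
    exact congrArg (_ - ·) (sum_congr rfl fun i _ => by rw [neg_pow, mul_div_assoc])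
  rw [e, Complex.norm_real, Complex.norm_real, Real.norm_eq_abs, Real.norm_eq_abs, abs_neg] at h4
  have h5 : |x| ^ (m + 1) / (m + 1).factorial ≤ X ^ (m + 1) / (m + 1).factorial := by gcongr
  linarith only [h3, h4, h5]

theorem exp_fd {x h X : ℝ} (hx : |x| ≤ X) (hh : |h| ≤ 1) :
    |Real.exp (-(x + h)) - Real.exp (-x) + h * Real.exp (-x)| ≤ h ^ 2 * Real.exp X := by
  have h1 := Real.abs_exp_sub_one_sub_id_le (x := -h) (by rwa [abs_neg])
  rw [neg_add, Real.exp_add, show Real.exp (-x) * Real.exp (-h) - Real.exp (-x) + h * Real.exp (-x) =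
    (Real.exp (-h) - 1 - -h) * Real.exp (-x) by ring, abs_mul, Real.abs_exp, ← neg_sq h]
  exact mul_le_mul h1 (Real.exp_le_exp.2 ((neg_le_abs x).trans hx)) (Real.exp_pos _).le (sq_nonneg _)

theorem poly_approx (f : ℝ → ℝ) (a b : ℝ) (hf : ContinuousOn f (Set.Icc a b)) {ε : ℝ}
    (hε : 0 < ε) : ∃ (d : ℕ) (c : ℕ → ℝ), ∀ x ∈ Set.Icc a b,
      |f x - ∑ i ∈ range (d + 1), c i * x ^ i| ≤ ε := by
  obtain ⟨p, hp⟩ := exists_polynomial_near_of_continuousOn a b f hf ε hε
  exact ⟨p.natDegree, p.coeff, fun x hx => by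
    rw [← Polynomial.eval_eq_sum_range, abs_sub_comm]
    exact (hp x hx).le⟩

theorem log_series {θ x : ℝ} (h0 : 0 ≤ θ) (h1 : θ < 1) (x0 : 0 ≤ x) (x1 : x ≤ 1) (R : ℕ) :
    |Real.log (1 - θ * x) + ∑ r ∈ range R, θ ^ (r + 1) / (r + 1) * x ^ (r + 1)| ≤
      θ ^ (R + 1) / (1 - θ) := by
  have p0 := mul_nonneg h0 x0
  have p1 := mul_le_of_le_one_right h0 x1
  have h := Real.abs_log_sub_add_sum_range_le (x := θ * x) (by rw [abs_of_nonneg p0]; linarith) R
  rw [abs_of_nonneg p0, add_comm] at h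
  simp only [div_mul_eq_mul_div, ← mul_pow]
  refine h.trans ?_
  gcongr

theorem sum_coef_le {θ : ℝ} (h0 : 0 ≤ θ) (h1 : θ < 1) (R : ℕ) :
    ∑ r ∈ range R, θ ^ (r + 1) / (r + 1) ≤ -Real.log (1 - θ) ∧ -Real.log (1 - θ) ≤ 1 / (1 - θ) := by
  refine ⟨sum_le_hasSum _ (fun r _ => by positivity)
    (Real.hasSum_pow_div_log_of_abs_lt_one (by rwa [abs_of_nonneg h0])), ?_⟩
  rw [← Real.log_inv, one_div]
  exact Real.log_le_self (inv_nonneg.2 (by linarith))

theorem conv_of (a : ℕ → ℝ) (B : ℝ) (hB : ∀ᶠ N in atTop, |a N| ≤ B)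
    (h : ∀ ε : ℝ, 0 < ε → ∀ᶠ μ in atTop, ∀ᶠ N in atTop, a μ - ε ≤ a N) :
    ∃ x, Tendsto a atTop (𝓝 x) := by
  have b1 : IsBoundedUnder (· ≤ ·) atTop a :=
    isBoundedUnder_of_eventually_le (hB.mono fun N h => (abs_le.1 h).2)
  have b2 : IsBoundedUnder (· ≥ ·) atTop a :=
    isBoundedUnder_of_eventually_ge (hB.mono fun N h => (abs_le.1 h).1)
  refine ⟨liminf a atTop, tendsto_of_le_liminf_of_limsup_le le_rfl
    (le_of_forall_pos_le_add fun ε hε => limsup_le_of_le b2.isCoboundedUnder_le ?_) b1 b2⟩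
  exact (h ε hε).mono fun μ hμ => sub_le_iff_le_add.1 (le_liminf_of_le b1.isCoboundedUnder_ge hμ)

end Pool.Agent.Work.MP_d4a230_co.U
end

-- merged part: Pool.Agent.Work.MP_d4a230_co.U.TP
section
/-!
Transfer from cavity averages to Gibbs averages.
PLAN. tp: x = Z / Z0 lies in [1, B]. poly_approx for x^(-r) on [1, B] with accuracy ε / B^r gives
d, c. gib = (N / Z0^r) * x^(-r), |N| / Z0^r <= G x^r <= G B^r, and (N / Z0^r) x^j is the sum over
σ : Fin (r + j) → S of prod (W0 W1) * F / Z0^(r+j) (Fin.appendEquiv or Fin.prod_univ_add,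
Finset.sum_pow'). Average over (z, a); terms with some W0 (σ l) = 0 vanish; the sum of prod W0 is
at most (B Z0)^(r+j). A = sum |c j| B^(r+j).
tpm: ex_update at g and Ex_mix with the set of all C with Tch g C. For fixed (y, act) apply tp with
W0 σ = U σ * (product over C ∈ act not touching g), which does not depend on z (Acd_congr),
W1 z a = awg (update y g z) a, Z0 = sum of W0 over σ disjoint from B = the component g. Z0 <= Z since
awg = 1 on such σ; sum W0 <= (1 + lam)^b Z0 by good_sum (C ⊆ σ iff C ⊆ σ \ B for C not touching g).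
marks: Ex_prod / Ex_prod_not with g C = prod_l (1 - θ ind ...), and
1 - prod_l (1 - θ x_l) = sum over nonempty S of (-1)^(|S|+1) θ^|S| prod_{l ∈ S} x_l
(Finset.prod_one_sub or prod_sub, prod_add).
-/

namespace Pool.Agent.Work.MP_d4a230_co.U

open Finset Filter Topology Pool.Agent.Work.MP_07f1b5_pr
open scoped BigOperators

lemma TP_app {S : Type} [Fintype S] (r j : ℕ) (w : S → ℝ) (F : (Fin r → S) → ℝ) :
    (∑ σ : Fin r → S, (∏ l, w (σ l)) * F σ) * (∑ s, w s) ^ j =
      ∑ σ : Fin (r + j) → S, (∏ l, w (σ l)) * F (fun l => σ (Fin.castAdd j l)) := by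
  rw [Fintype.sum_pow, sum_mul_sum, ← Fintype.sum_prod_type']
  refine Fintype.sum_equiv (Fin.appendEquiv r j) _ _ fun x => ?_
  simp only [Fin.appendEquiv_apply, Fin.prod_univ_add, Fin.append_left, Fin.append_right]
  ring

lemma TP_pt {S : Type} [Fintype S] (r d : ℕ) {B ε Z0 G : ℝ} (c : ℕ → ℝ) (hB : 1 ≤ B)
    (hc : ∀ x ∈ Set.Icc 1 B, |(x ^ r)⁻¹ - ∑ i ∈ range (d + 1), c i * x ^ i| ≤ ε / B ^ r)
    (w : S → ℝ) (F : (Fin r → S) → ℝ) (hZ : 0 < Z0) (hw : ∀ s, 0 ≤ w s) (h1 : Z0 ≤ ∑ s, w s)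
    (h2 : ∑ s, w s ≤ B * Z0) (hF : ∀ σ, |F σ| ≤ G) :
    |gib r w F - ∑ j ∈ range (d + 1), c j / Z0 ^ (r + j) *
      ∑ σ : Fin (r + j) → S, (∏ l, w (σ l)) * F (fun l => σ (Fin.castAdd j l))| ≤ ε * G := by
  have hs : 0 < ∑ s, w s := hZ.trans_le h1
  have hg : |gib r w F| ≤ G :=
    (gib_abs hw F).trans ((gib_mono hw fun σ _ => hF σ).trans (gib_const hs.ne' G).le)
  have hx : (∑ s, w s) / Z0 ∈ Set.Icc 1 B :=
    ⟨(one_le_div hZ).2 h1, (div_le_iff₀ hZ).2 h2⟩
  have e : gib r w F - ∑ j ∈ range (d + 1), c j / Z0 ^ (r + j) *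
      ∑ σ : Fin (r + j) → S, (∏ l, w (σ l)) * F (fun l => σ (Fin.castAdd j l)) =
      gib r w F * (((∑ s, w s) / Z0) ^ r * ((((∑ s, w s) / Z0) ^ r)⁻¹ -
        ∑ i ∈ range (d + 1), c i * ((∑ s, w s) / Z0) ^ i)) := by
    rw [mul_sub, mul_inv_cancel₀ (pow_ne_zero _ (div_pos hs hZ).ne'), mul_sub, mul_one, mul_sum,
      mul_sum]
    congr 1
    refine sum_congr rfl fun j _ => ?_
    rw [← TP_app]
    unfold gib
    have := hs.ne'
    have := hZ.ne'
    rw [div_pow, div_pow, pow_add]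
    field_simp
  have hB0 : 0 < B ^ r := pow_pos (one_pos.trans_le hB) r
  rw [e, abs_mul, abs_mul, abs_of_nonneg (pow_nonneg (div_pos hs hZ).le r), mul_comm ε]
  refine mul_le_mul hg ?_ (by positivity) ((abs_nonneg _).trans hg)
  calc _ ≤ B ^ r * (ε / B ^ r) :=
        mul_le_mul (pow_le_pow_left₀ (div_pos hs hZ).le hx.2 r) (hc _ hx) (abs_nonneg _) hB0.le
    _ = ε := mul_div_cancel₀ _ hB0.ne'

theorem tp (r : ℕ) {B ε : ℝ} (hB : 1 ≤ B) (hε : 0 < ε) : ∃ (d : ℕ) (A : ℝ), 0 ≤ A ∧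
    ∀ (S Z ι : Type) [Fintype S] [Fintype Z] [Fintype ι] [DecidableEq ι] (p : ι → ℝ)
      (W0 : S → ℝ) (W1 : Z → Finset ι → S → ℝ) (Z0 err : ℝ)
      (F : Z → Finset ι → (Fin r → S) → ℝ) (G : Z → Finset ι → ℝ), Adm p → 0 < Z0 → 0 ≤ err →
      (∀ s, 0 ≤ W0 s) → (∀ z a s, 0 ≤ W1 z a s ∧ W1 z a s ≤ 1) →
      (∀ z a, Z0 ≤ ∑ s, W0 s * W1 z a s) → ∑ s, W0 s ≤ B * Z0 → (∀ z a σ, |F z a σ| ≤ G z a) →
      (∀ j ≤ d, ∀ σ : Fin (r + j) → S, (∀ l, W0 (σ l) ≠ 0) →
        |𝔼 z, Ex p fun a => F z a (fun l => σ (Fin.castAdd j l)) * ∏ l, W1 z a (σ l)| ≤ err) →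
      |𝔼 z, Ex p fun a => gib r (fun s => W0 s * W1 z a s) (F z a)| ≤
        ε * (𝔼 z, Ex p (G z)) + A * err := by
  have hB0 : 0 < B := one_pos.trans_le hB
  obtain ⟨d, c, hc⟩ := poly_approx (fun x => (x ^ r)⁻¹) 1 B
    ((continuousOn_pow r).inv₀ fun x hx => pow_ne_zero _ (one_pos.trans_le hx.1).ne')
    (div_pos hε (pow_pos hB0 r))
  refine ⟨d, ∑ j ∈ range (d + 1), |c j| * B ^ (r + j), sum_nonneg fun j _ => by positivity, ?_⟩
  intro S Z ι _ _ _ _ p W0 W1 Z0 err F G hp hZ he h0 h1 hl hu hF hT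
  set P : Z → Finset ι → ℝ := fun z a => ∑ j ∈ range (d + 1), c j / Z0 ^ (r + j) *
    ∑ σ : Fin (r + j) → S, (∏ l, W0 (σ l)) *
      (F z a (fun l => σ (Fin.castAdd j l)) * ∏ l, W1 z a (σ l)) with hP
  have a1 : ∀ z a, |gib r (fun s => W0 s * W1 z a s) (F z a) - P z a| ≤ ε * G z a := fun z a => by
    have := TP_pt r d c hB hc (fun s => W0 s * W1 z a s) (F z a) hZ
      (fun s => mul_nonneg (h0 s) (h1 z a s).1) (hl z a)
      ((sum_le_sum fun s _ => mul_le_of_le_one_right (h0 s) (h1 z a s).2).trans hu) (hF z a)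
    simpa only [hP, prod_mul_distrib, mul_assoc, mul_comm (F z a _)] using this
  have a2 : |(𝔼 z, Ex p fun a => gib r (fun s => W0 s * W1 z a s) (F z a)) - 𝔼 z, Ex p (P z)| ≤
      ε * 𝔼 z, Ex p (G z) := by
    rw [← expect_sub_distrib, mul_expect]
    refine (ex_abs _).trans (ex_mono fun z => ?_)
    rw [← Ex_sub, ← Ex_const_mul]
    exact (Ex_abs hp _).trans (Ex_mono hp (a1 z))
  have a3 : |𝔼 z, Ex p (P z)| ≤ (∑ j ∈ range (d + 1), |c j| * B ^ (r + j)) * err := by
    simp only [hP, Ex_sum, Ex_const_mul, expect_sum_comm, ← mul_expect]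
    rw [sum_mul]
    refine (abs_sum_le_sum_abs _ _).trans (sum_le_sum fun j hj => ?_)
    have hZ' : 0 < Z0 ^ (r + j) := pow_pos hZ _
    rw [abs_mul, abs_div, abs_of_pos hZ', div_mul_eq_mul_div, mul_div_assoc, mul_assoc]
    refine mul_le_mul_of_nonneg_left ((div_le_iff₀ hZ').2 ?_) (abs_nonneg _)
    calc _ ≤ ∑ σ : Fin (r + j) → S, (∏ l, W0 (σ l)) * err := by
          refine (abs_sum_le_sum_abs _ _).trans (sum_le_sum fun σ _ => ?_)
          rw [abs_mul, abs_of_nonneg (prod_nonneg fun l _ => h0 _)]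
          by_cases hσ : ∀ l, W0 (σ l) ≠ 0
          · exact mul_le_mul_of_nonneg_left (hT j (Nat.lt_succ_iff.1 (mem_range.1 hj)) σ hσ)
              (prod_nonneg fun l _ => h0 _)
          · obtain ⟨l, hl⟩ := not_forall.1 hσ
            rw [prod_eq_zero (mem_univ l) (not_not.1 hl), zero_mul, zero_mul]
      _ = (∑ s, W0 s) ^ (r + j) * err := by rw [← sum_mul, Fintype.sum_pow]
      _ ≤ (B * Z0) ^ (r + j) * err :=
          mul_le_mul_of_nonneg_right (pow_le_pow_left₀ (sum_nonneg fun s _ => h0 s) hu _) he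
      _ = _ := by rw [mul_pow]; ring
  have := abs_sub_abs_le_abs_sub (𝔼 z, Ex p fun a => gib r (fun s => W0 s * W1 z a s) (F z a))
    (𝔼 z, Ex p (P z))
  linarith

variable {α β : Type} [Fintype α] [DecidableEq α] [Fintype β] [DecidableEq β]
  {W : Type} [Fintype W] [DecidableEq W] {H : SimpleGraph W} [DecidableRel H.Adj]

theorem tpm (ep : β → α × α) (r : ℕ) {lam θ ε : ℝ} (hl : 0 ≤ lam) (h0 : 0 ≤ θ) (h1 : θ < 1)
    (hε : 0 < ε) : ∃ (d : ℕ) (A : ℝ), 0 ≤ A ∧ ∀ (n M : ℕ) (τ : ℝ) (g : Fin M)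
      (U : Finset (Fin M × β) → ℝ)
      (F : (Fin M → α → Fin n) → Finset (Finset (Fin M × β)) → (Fin r → Finset (Fin M × β)) → ℝ)
      (G : (Fin M → α → Fin n) → Finset (Finset (Fin M × β)) → ℝ)
      (err : (Fin M → α → Fin n) → ℝ), 0 ≤ τ → τ ≤ 1 → Good lam U → (∀ y, 0 ≤ err y) →
      (∀ y a σ, |F y a σ| ≤ G y a) →
      (∀ y a a2, (∀ C, Tch g C → (C ∈ a ↔ C ∈ a2)) → F y a = F y a2) →
      (∀ y, ∀ j ≤ d, ∀ σ : Fin (r + j) → Finset (Fin M × β), (∀ l, U (σ l) ≠ 0) →
        |𝔼 z, E τ fun a => F (Function.update y g z) a (fun l => σ (Fin.castAdd j l)) *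
          ∏ l, awg H θ ep g (Function.update y g z) a (σ l)| ≤ err y) →
      |EG H θ τ ep U r F| ≤ ε * (𝔼 y, E τ (G y)) + A * 𝔼 y, err y := by
  classical
  obtain ⟨d, A, hA, h⟩ := tp r (B := (1 + lam) ^ Fintype.card β)
    (one_le_pow₀ (le_add_of_nonneg_right hl)) hε
  refine ⟨d, A, hA, ?_⟩
  intro n M τ g U F G err t0 t1 hU he hF hT hE
  set T : Finset (Finset (Fin M × β)) := univ.filter fun C => Tch g C with hTd
  have mT : ∀ C, C ∈ T ↔ Tch g C := fun C => by simp only [hTd, mem_filter, mem_univ, true_and]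
  set K : Finset (Fin M × β) := {g} ×ˢ univ with hK
  have mK : ∀ i, i ∈ K ↔ i.1 = g := fun i => by
    simp only [hK, mem_product, mem_singleton, mem_univ, and_true]
  have cK : K.card = Fintype.card β := by rw [hK, card_product, card_singleton, one_mul, card_univ]
  have nT : ∀ (ω : Finset (Finset (Fin M × β))), ∀ C ∈ ω \ T, ∀ i ∈ C, i.1 ≠ g :=
    fun ω C hC i hi e => (mem_sdiff.1 hC).2 ((mT C).2 ⟨i.2, e ▸ hi⟩)
  have key : ∀ (y : Fin M → α → Fin n) (ω : Finset (Finset (Fin M × β))),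
      |𝔼 z, E τ fun a => gib r (Wt H θ ep U (Function.update y g z) (ω \ T ∪ a ∩ T))
        (F (Function.update y g z) (ω \ T ∪ a ∩ T))| ≤
      ε * (𝔼 z, E τ (G (Function.update y g z))) + A * err y := fun y ω => by
    have e1 : ∀ z a, F (Function.update y g z) (ω \ T ∪ a ∩ T) = F (Function.update y g z) a :=
      fun z a => hT _ _ _ fun C hC => by
        simp only [mem_union, Finset.mem_sdiff, mem_inter, (mT C).2 hC, not_true, and_false, and_true,
          false_or]
    have e2 : ∀ z a, Wt H θ ep U (Function.update y g z) (ω \ T ∪ a ∩ T) = fun σ =>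
        U σ * aw H θ (sp ep y) Prod.fst (ω \ T) σ * awg H θ ep g (Function.update y g z) a σ :=
      fun z a => funext fun σ => by
        unfold Wt aw awg
        rw [prod_union (disjoint_of_subset_right inter_subset_right sdiff_disjoint), mul_assoc]
        congr 2
        · refine prod_congr rfl fun C hC => ?_
          rw [Acd_congr (q2 := sp ep y) Prod.fst fun i hi => by
            unfold sp
            rw [Function.update_of_ne (nT ω C hC i hi)]]
        · refine prod_subset_one_on_sdiff inter_subset_left (fun C hC => ?_) fun C hC => ?_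
          · rw [ind_neg fun hc => (mem_sdiff.1 hC).2
              (mem_inter.2 ⟨(mem_sdiff.1 hC).1, (mT C).2 hc.2.1⟩), mul_zero, sub_zero]
          · rw [ind_congr (and_congr_right fun _ =>
              (and_iff_right ((mT C).1 (mem_inter.1 hC).2)).symm)]
    simp only [e1, e2]
    have hf := fun σ => aw_bd (H := H) h0 h1 (sp ep y) Prod.fst (ω \ T) σ
    refine h (Finset (Fin M × β)) (α → Fin n) (Finset (Fin M × β)) (fun _ => τ)
      (fun σ => U σ * aw H θ (sp ep y) Prod.fst (ω \ T) σ)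
      (fun z a σ => awg H θ ep g (Function.update y g z) a σ)
      (∑ σ, ind (Disjoint σ K) * (U σ * aw H θ (sp ep y) Prod.fst (ω \ T) σ)) (err y)
      (fun z a => F (Function.update y g z) a) (fun z a => G (Function.update y g z) a)
      (fun _ => ⟨t0, t1⟩) ?_ (he y) (fun σ => mul_nonneg (hU.1 σ) (hf σ).1.le) (fun z a σ => ?_)
      (fun z a => sum_le_sum fun σ _ => ?_) ?_ (fun z a σ => hF _ _ _)
      fun j hj σ hσ => hE y j hj σ fun l => left_ne_zero_of_mul (hσ l)
    · refine sum_pos' (fun σ _ => mul_nonneg (ind_nonneg _) (mul_nonneg (hU.1 σ) (hf σ).1.le))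
        ⟨∅, mem_univ _, ?_⟩
      rw [ind_pos (disjoint_empty_left K), one_mul]
      exact mul_pos hU.2.1 (hf _).1
    · exact ⟨prod_nonneg fun c _ => (Gib_fac h0 h1 _).1.le,
        prod_le_one (fun c _ => (Gib_fac h0 h1 _).1.le) fun c _ => (Gib_fac h0 h1 _).2⟩
    · by_cases hd : Disjoint σ K
      · have : awg H θ ep g (Function.update y g z) a σ = 1 := prod_eq_one fun C _ => by
          rw [ind_neg fun ⟨_, ⟨j, hj⟩, hc⟩ => disjoint_left.1 hd (hc hj) ((mK _).2 rfl), mul_zero,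
            sub_zero]
        rw [ind_pos hd, this, one_mul, mul_one]
      · rw [ind_neg hd, zero_mul]
        exact mul_nonneg (mul_nonneg (hU.1 σ) (hf σ).1.le)
          (prod_nonneg fun c _ => (Gib_fac h0 h1 _).1.le)
    · rw [← cK]
      refine le_trans (le_of_eq (sum_congr rfl fun σ _ => ?_))
        (good_sum hl hU K _ fun σ => (hf σ).1.le)
      congr 1
      refine prod_congr rfl fun C hC => ?_
      rw [ind_congr (and_congr_right fun _ => ⟨fun hc => subset_sdiff.2
        ⟨hc, disjoint_left.2 fun i hi hk => nT ω C hC i hi ((mK i).1 hk)⟩,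
        fun hc => hc.trans sdiff_subset⟩)]
  rw [ex_update g fun y => E τ (G y), mul_expect, mul_expect, ← expect_add_distrib]
  unfold EG
  rw [ex_update g]
  refine (ex_abs _).trans (ex_mono fun y => ?_)
  have e3 : (𝔼 z, E τ fun act => gib r (Wt H θ ep U (Function.update y g z) act)
      (F (Function.update y g z) act)) = E τ fun ω => 𝔼 z, E τ fun a =>
        gib r (Wt H θ ep U (Function.update y g z) (ω \ T ∪ a ∩ T))
          (F (Function.update y g z) (ω \ T ∪ a ∩ T)) := by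
    unfold E
    rw [← ex_Ex]
    exact expect_congr rfl fun z _ => Ex_mix _ T _
  rw [e3]
  exact (abs_E_le t0 t1 _).trans ((E_mono t0 t1 (key y)).trans (E_const _).le)

variable {V G : Type} [Fintype V] [DecidableEq V] [Fintype G] [DecidableEq G]

/-- Coefficients of the marks: `J b` is the set of replicas that contain the slot `b`. -/
noncomputable def coef (θ t : ℝ) {u : ℕ} (J : β → Finset (Fin u)) (b : β) (S : Finset (Fin u)) : ℝ :=
  t * (ind (S.Nonempty ∧ S ⊆ J b) * (-1) ^ (S.card + 1) * θ ^ S.card)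

/-- The part of an intersection of replicas outside the component `g`. -/
def cav (g : G) {u : ℕ} (σ : Fin u → Finset (G × β)) (S : Finset (Fin u)) : Finset (G × β) :=
  (S.inf σ).filter fun i => i.1 ≠ g

lemma coef_abs {θ t : ℝ} (h0 : 0 ≤ θ) (h1 : θ < 1) (t0 : 0 ≤ t) (t1 : t ≤ 1) {u : ℕ}
    (J : β → Finset (Fin u)) (b : β) (S : Finset (Fin u)) : |coef θ t J b S| ≤ 1 := by
  unfold coef
  rw [abs_mul, abs_mul, abs_mul, abs_pow, abs_neg, abs_one, one_pow, mul_one, abs_of_nonneg t0,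
    abs_of_nonneg (ind_nonneg _), abs_of_nonneg (pow_nonneg h0 _)]
  exact mul_le_one₀ t1 (mul_nonneg (ind_nonneg _) (pow_nonneg h0 _))
    (mul_le_one₀ (ind_le_one _) (pow_nonneg h0 _) (pow_le_one₀ h0 h1.le))

lemma TP_alt (θ : ℝ) {u : ℕ} (x : Fin u → Prop) :
    ∑ S : Finset (Fin u), ind (S.Nonempty ∧ ∀ l ∈ S, x l) * (-1) ^ (S.card + 1) * θ ^ S.card =
      1 - ∏ l, (1 - θ * ind (x l)) := by
  simp only [sub_eq_add_neg _ (θ * ind _)]
  rw [prod_one_add, powerset_univ, eq_sub_iff_add_eq, ← sum_add_distrib, sum_eq_single ∅]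
  · rw [ind_neg (q := _ ∧ _) fun h => Finset.not_nonempty_empty h.1, prod_empty, zero_mul, zero_mul, zero_add]
  · intro S _ hS
    by_cases h : ∀ l ∈ S, x l
    · rw [ind_pos ⟨nonempty_iff_ne_empty.2 hS, h⟩,
        prod_congr rfl (g := fun _ => (-1) * θ) fun l hl => by rw [ind_pos (h l hl)]; ring,
        prod_const, mul_pow]
      ring
    · rw [ind_neg fun h2 => h h2.2]
      push Not at h
      obtain ⟨l, hl, h⟩ := h
      rw [prod_eq_zero hl (by rw [ind_neg h, mul_zero, neg_zero])]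
      ring
  · exact fun h => absurd (mem_univ _) h

lemma TP_coef (θ t : ℝ) {u : ℕ} (J : β → Finset (Fin u)) (g : G) (σ : Fin u → Finset (G × β))
    (b : β) (C : Finset (G × β)) : ∑ S, coef θ t J b S * ind (C ⊆ cav g σ S) =
      t * (1 - ∏ l, (1 - θ * ind ((∀ i ∈ C, i.1 ≠ g) ∧ l ∈ J b ∧ C ⊆ σ l))) := by
  rw [← TP_alt, mul_sum]
  refine sum_congr rfl fun S _ => ?_
  have e : (S.Nonempty ∧ ∀ l ∈ S, (∀ i ∈ C, i.1 ≠ g) ∧ l ∈ J b ∧ C ⊆ σ l) ↔
      (S.Nonempty ∧ S ⊆ J b) ∧ C ⊆ cav g σ S := by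
    constructor
    · rintro ⟨⟨l, hl⟩, h⟩
      exact ⟨⟨⟨l, hl⟩, fun k hk => (h k hk).2.1⟩, fun i hi => mem_filter.2
        ⟨(Finset.le_inf fun k hk => (h k hk).2.2 : C ≤ S.inf σ) hi, (h l hl).1 i hi⟩⟩
    · rintro ⟨⟨h1, h2⟩, h3⟩
      exact ⟨h1, fun l hl => ⟨fun i hi => (mem_filter.1 (h3 hi)).2, h2 hl, fun i hi =>
        (Finset.inf_le hl : S.inf σ ≤ σ l) (mem_filter.1 (h3 hi)).1⟩⟩
  rw [ind_congr e, ind_and _ (C ⊆ _)]
  unfold coef
  ring

lemma coef_sum {θ t : ℝ} (h0 : 0 ≤ θ) (h1 : θ < 1) (t0 : 0 ≤ t) (t1 : t ≤ 1) {u : ℕ}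
    (J : β → Finset (Fin u)) (g : G) (σ : Fin u → Finset (G × β)) (b : β) (C : Finset (G × β)) :
    0 ≤ ∑ S, coef θ t J b S * ind (C ⊆ cav g σ S) ∧
      ∑ S, coef θ t J b S * ind (C ⊆ cav g σ S) ≤ 1 - (1 - θ) ^ u := by
  rw [TP_coef]
  have a := prod_le_one (s := univ) (fun l _ => (Gib_fac h0 h1
    ((∀ i ∈ C, i.1 ≠ g) ∧ l ∈ J b ∧ C ⊆ σ l)).1.le) fun l _ => (Gib_fac h0 h1 _).2
  have c : (1 - θ) ^ u ≤ ∏ l, (1 - θ * ind ((∀ i ∈ C, i.1 ≠ g) ∧ l ∈ J b ∧ C ⊆ σ l)) := by
    calc _ = ∏ _l : Fin u, (1 - θ) := by rw [prod_const, card_univ, Fintype.card_fin]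
      _ ≤ _ := prod_le_prod (fun _ _ => (sub_pos.2 h1).le) fun l _ =>
          sub_le_sub_left (mul_le_of_le_one_right h0 (ind_le_one _)) 1
  exact ⟨mul_nonneg t0 (sub_nonneg.2 a),
    (mul_le_of_le_one_left (sub_nonneg.2 a) t1).trans (sub_le_sub_left c 1)⟩

/-- The mark of one constraint. -/
lemma mrk_coef (θ t : ℝ) (ep : β → α × α) (g : G) {u : ℕ} (J : β → Finset (Fin u))
    (σ : Fin u → Finset (G × β)) (y : G → α → V) (C : Finset (G × β)) :
    mrk H ep g (coef θ t J) (cav g σ) y C = t * (1 - ∏ l, (1 - θ *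
      ind (Acd H (sp ep y) Prod.fst C ∧ ∃ b, (g, b) ∈ C ∧ l ∈ J b ∧ C.erase (g, b) ⊆ σ l))) := by
  unfold mrk
  by_cases h : Acd H (sp ep y) Prod.fst C ∧ ∃ b, (g, b) ∈ C
  · obtain ⟨h, b, hb⟩ := h
    have un : ∀ i ∈ C, i.1 = g → i = (g, b) := fun i hi e => h.2.2 hi hb e
    rw [ind_pos h, one_mul, sum_eq_single b (fun j _ hj => by
      rw [ind_neg fun hc => hj (congrArg Prod.snd (un _ hc rfl)), zero_mul])
      (fun hc => absurd (mem_univ _) hc), ind_pos hb, one_mul, TP_coef]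
    congr 2
    refine prod_congr rfl fun l _ => congrArg (fun x => 1 - θ * x)
      (ind_congr ⟨fun hc => ⟨h, b, hb, hc.2⟩, fun ⟨_, j, hj, hc⟩ => ?_⟩)
    obtain rfl : j = b := congrArg Prod.snd (un _ hj rfl)
    exact ⟨fun i hi e => (mem_erase.1 hi).1 (un i (mem_erase.1 hi).2 e), hc⟩
  · rw [prod_eq_one fun l _ => by
      rw [ind_neg fun ⟨hc, b, hb, _⟩ => h ⟨hc, b, hb⟩, mul_zero, sub_zero], sub_self, mul_zero]
    by_cases hc : Acd H (sp ep y) Prod.fst C
    · rw [sum_eq_zero fun j _ => by rw [ind_neg fun hj => h ⟨hc, j, hj⟩, zero_mul], mul_zero]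
    · rw [ind_neg hc, zero_mul]

lemma TP_mark (θ t τ : ℝ) (ep : β → α × α) (g : G) {u : ℕ} (σ : Fin u → Finset (G × β))
    (y : G → α → V) (C : Finset (G × β)) : 1 - t * τ + t * τ *
      ∏ l, (1 - θ * ind (Acd H (sp ep y) Prod.fst C ∧ Tch g C ∧ C ⊆ σ l)) = 1 - τ *
      mrk H ep g (coef θ t fun b => univ.filter fun l => (g, b) ∈ σ l) (cav g σ) y C := by
  rw [mrk_coef, prod_congr rfl fun l _ => congrArg (fun x => 1 - θ * x) (ind_congr
    (r := Acd H (sp ep y) Prod.fst C ∧ ∃ b, (g, b) ∈ C ∧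
      l ∈ (univ.filter fun l => (g, b) ∈ σ l) ∧ C.erase (g, b) ⊆ σ l)
    (and_congr_right fun _ => ⟨fun ⟨⟨b, hb⟩, hc⟩ => ⟨b, hb, mem_filter.2 ⟨mem_univ _, hc hb⟩,
      (erase_subset _ _).trans hc⟩, fun ⟨b, hb, h1, h2⟩ => ⟨⟨b, hb⟩, fun i hi => by
        by_cases e : i = (g, b)
        · exact e ▸ (mem_filter.1 h1).2
        · exact h2 (mem_erase.2 ⟨e, hi⟩)⟩⟩))]
  ring

lemma marks (θ t τ : ℝ) (ep : β → α × α) (g : G) {u : ℕ} (σ : Fin u → Finset (G × β))
    (y : G → α → V) :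
    (E (t * τ) fun a => ∏ l, awg H θ ep g y a (σ l)) = ∏ C, (1 - τ *
      mrk H ep g (coef θ t fun b => univ.filter fun l => (g, b) ∈ σ l) (cav g σ) y C) := by
  unfold awg E
  simp only [prod_comm (s := univ) (t := _)]
  rw [Ex_prod]
  exact prod_congr rfl fun C _ => TP_mark θ t τ ep g σ y C

lemma marks_not (θ t τ : ℝ) (ep : β → α × α) (g : G) {u : ℕ} (σ : Fin u → Finset (G × β))
    (y : G → α → V) (C0 : Finset (G × β)) :
    (E (t * τ) fun a => ind (C0 ∉ a) * ∏ l, awg H θ ep g y a (σ l)) =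
      (1 - t * τ) * ∏ C ∈ univ.erase C0, (1 - τ *
        mrk H ep g (coef θ t fun b => univ.filter fun l => (g, b) ∈ σ l) (cav g σ) y C) := by
  unfold awg E
  simp only [prod_comm (s := univ) (t := _)]
  rw [Ex_prod_not]
  exact congrArg _ (prod_congr rfl fun C _ => TP_mark θ t τ ep g σ y C)

/-- The slot `b0` is empty in all replicas and is switched on in the first `r` of them. -/
lemma marks_xi (θ τ : ℝ) (ep : β → α × α) (g : G) (b0 : β) {r j : ℕ}
    (σ : Fin (r + j) → Finset (G × β)) (hσ : ∀ l, (g, b0) ∉ σ l) (y : G → α → V) :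
    (E τ fun a => (∏ l : Fin r, Xi H θ ep (g, b0) y a (σ (Fin.castAdd j l))) *
        ∏ l, awg H θ ep g y a (σ l)) = ∏ C, (1 - τ * mrk H ep g
      (coef θ 1 (Function.update (fun b => univ.filter fun l => (g, b) ∈ σ l) b0
        (univ.map (Fin.castAddEmb j)))) (cav g σ) y C) := by
  unfold awg Xi E
  simp only [prod_comm (s := univ) (t := _), ← prod_mul_distrib]
  rw [Ex_prod]
  refine prod_congr rfl fun C _ => ?_
  by_cases h : Acd H (sp ep y) Prod.fst C ∧ (g, b0) ∈ C
  · rw [mrk_coef, Fin.prod_univ_add (a := r) (b := j) (f := fun l => 1 - θ * ind (_ ∧ ∃ b, _)),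
      prod_eq_one (s := univ) (f := fun l : Fin (r + j) => _) fun l _ => by
        rw [ind_neg fun hc => hσ l (hc.2.2 h.2), mul_zero, sub_zero],
      prod_eq_one (s := univ) (f := fun l : Fin j => _) fun l _ => by
        refine (congrArg (fun x => 1 - θ * x) (ind_neg fun ⟨_, b, hb, h1, _⟩ => ?_)).trans
          (by rw [mul_zero, sub_zero])
        obtain rfl : b = b0 := congrArg Prod.snd (h.1.2.2 hb h.2 rfl)
        rw [Function.update_self, Finset.mem_map] at h1
        obtain ⟨k, _, hk⟩ := h1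
        have := congrArg Fin.val hk
        simp only [Fin.castAddEmb_apply, Fin.val_castAdd, Fin.val_natAdd] at this
        omega,
      prod_congr rfl fun l _ => congrArg (fun x => 1 - θ * x) (ind_congr
        (r := Acd H (sp ep y) Prod.fst C ∧ ∃ b, (g, b) ∈ C ∧ Fin.castAdd j l ∈ Function.update
          (fun b => univ.filter fun l => (g, b) ∈ σ l) b0 (univ.map (Fin.castAddEmb j)) b ∧
          C.erase (g, b) ⊆ σ (Fin.castAdd j l))
        (and_congr_right fun _ => ⟨fun hc => ⟨b0, hc.1, by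
          rw [Function.update_self]; exact mem_map_of_mem _ (mem_univ l), hc.2⟩,
          fun ⟨b, hb, _, h2⟩ => by
            obtain rfl : b = b0 := congrArg Prod.snd (h.1.2.2 hb h.2 rfl)
            exact ⟨hb, h2⟩⟩))]
    ring
  · have e := TP_mark (H := H) θ 1 τ ep g σ y C
    rw [one_mul, mrk_coef] at e
    rw [prod_eq_one (s := univ) (f := fun l : Fin r => _) fun l _ => by
      rw [ind_neg fun hc => h ⟨hc.1, hc.2.1⟩, mul_zero, sub_zero], one_mul, e, mrk_coef]
    congr 4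
    refine prod_congr rfl fun l _ => congrArg (fun x => 1 - θ * x) (ind_congr
      (and_congr_right fun hc => exists_congr fun b => and_congr_right fun hb => ?_))
    rw [Function.update_of_ne fun e : b = b0 => h ⟨hc, e ▸ hb⟩]

end Pool.Agent.Work.MP_d4a230_co.U
end
end
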