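import Pool.Agent.Work.MP_d4a230_co.U.Model
import Pool.Agent.Work.MP_d4a230_co.U.TP

-- merged part: Pool.Agent.Work.MP_d4a230_co.U.Tang
section
/-!
Consequences of convexity.
PLAN. tangent_of: s maps to tH (w + s (u - w)) is convex on [0,1] with derivative at 0 equal to the
sum over edges of the average with one edge replaced by u - w (HasDerivAt.finset_prod, ord_psi,
ex_dart); ConvexOn.le_slope_of_hasDerivAt or a direct limit; homDensity (classical instances) equals
tH by Finset.expect_eq_sum_div_card and convert. If k = 0 or n = 0 both sides are trivial.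
sidorenko: tangent inequality at the constant kernel ρ (psi of a constant ρ is ρ^(k-1)).
tH_le_pow: pointwise AM-GM prod a_f <= (sum a_f^k) / k (inner_le_nnorm_mul_nnorm style lemmas
Real.inner_le..., or Real.geom_mean_le_arith_mean_weighted), then ex_ord for each edge.
psi_pow: tangent inequality with u = psi ^ (1/(k-1)) and tH_le_pow; u * psi = u ^ k.
young: weighted AM-GM.
-/

namespace Pool.Agent.Work.MP_d4a230_co.U

open Finset Filter Topology Pool.Agent.Work.MP_07f1b5_pr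
open scoped BigOperators


variable {W : Type} [Fintype W] [DecidableEq W] {H : SimpleGraph W} [DecidableRel H.Adj]

theorem Tang_eq (m : ℕ) (w : Sym2 (Fin m) → ℝ) : homDensity H m w = tH H w := by
  rw [tH, Finset.expect_eq_sum_div_card, homDensity, card_univ, Fintype.card_fun, Fintype.card_fin,
    Nat.cast_pow]
  exact congrArg (· / _) (sum_congr (Finset.ext fun _ => by simp) fun x _ =>
    prod_congr (Finset.ext fun _ => by simp) fun _ _ => rfl)

theorem Tang_dart (g : Sym2 W → ℝ) :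
    (H.edgeFinset.card : ℝ) * 𝔼 d : H.Dart, g d.edge = ∑ f ∈ H.edgeFinset, g f := by
  rw [ex_dart]
  rcases H.edgeFinset.eq_empty_or_nonempty with h | h
  · simp [h]
  · exact mul_div_cancel₀ _ (Nat.cast_ne_zero.2 h.card_pos.ne')

theorem Tang_edge {V : Type} [Fintype V] [DecidableEq V] {f : Sym2 W} (hf : f ∈ H.edgeFinset)
    (φ : Sym2 V → ℝ) : 𝔼 x : W → V, φ (f.map x) = 𝔼 e, ord φ e := by
  induction f using Sym2.ind with
  | h a b => exact ex_ord (H.ne_of_adj (by simpa using hf)) φ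

theorem tangent_of (h : ConvexDensity H) : Tangent H := by
  intro n w u hw hu
  have hc := (h n).comp_affineMap (AffineMap.lineMap w u)
  have e : homDensity H n ∘ AffineMap.lineMap (k := ℝ) w u = fun s : ℝ =>
      (∑ x : W → Fin n, ∏ f ∈ H.edgeFinset, (s * (u (f.map x) - w (f.map x)) + w (f.map x))) /
        (univ : Finset (W → Fin n)).card := by
    funext s
    rw [Function.comp, Tang_eq, tH, Finset.expect_eq_sum_div_card]
    rfl
  have d : HasDerivAt (homDensity H n ∘ AffineMap.lineMap (k := ℝ) w u)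
      ((∑ x : W → Fin n, ∑ f ∈ H.edgeFinset, (∏ g ∈ H.edgeFinset.erase f,
        (0 * (u (g.map x) - w (g.map x)) + w (g.map x))) • (1 * (u (f.map x) - w (f.map x)))) /
          (univ : Finset (W → Fin n)).card) 0 := by
    rw [e]
    exact (HasDerivAt.fun_sum fun x _ => HasDerivAt.fun_finsetProd fun f _ =>
      ((hasDerivAt_id' (0 : ℝ)).mul_const _).add_const _).div_const _
  have k := hc.le_slope_of_hasDerivAt (x := 0) (y := 1) (by simpa using hw) (by simpa using hu)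
    one_pos d
  rw [← Finset.expect_eq_sum_div_card, expect_sum_comm] at k
  simp only [slope_def_field, Function.comp, AffineMap.lineMap_apply_one,
    AffineMap.lineMap_apply_zero, Tang_eq, sub_zero, div_one, zero_mul, zero_add, one_mul,
    smul_eq_mul, mul_sub, expect_sub_distrib, sum_sub_distrib] at k
  have e1 : ∑ f ∈ H.edgeFinset, 𝔼 x : W → Fin n,
      (∏ g ∈ H.edgeFinset.erase f, w (g.map x)) * w (f.map x) = H.edgeFinset.card * tH H w := by
    rw [← nsmul_eq_mul, ← sum_const]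
    exact sum_congr rfl fun f hf => expect_congr rfl fun x _ =>
      prod_erase_mul _ (fun g : Sym2 W => w (g.map x)) hf
  rw [ord_psi, Tang_dart fun f => 𝔼 x : W → Fin n,
    u (f.map x) * ∏ g ∈ H.edgeFinset.erase f, w (g.map x)]
  simp only [mul_comm (u _)]
  linarith only [k, e1]

theorem sidorenko (hT : Tangent H) (hk : 0 < H.edgeFinset.card) {n : ℕ} {w : Sym2 (Fin n) → ℝ}
    (hw : ∀ e, 0 ≤ w e) : (𝔼 e, ord w e) ^ H.edgeFinset.card ≤ tH H w := by
  obtain ⟨ρ, hρ⟩ : ∃ ρ, ρ = 𝔼 e, ord w e := ⟨_, rfl⟩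
  have h0 : 0 ≤ ρ := hρ ▸ expect_nonneg fun e _ => hw _
  have h1 := hT n (fun _ => ρ) w (fun _ => h0) hw
  have h2 : tH H (fun _ : Sym2 (Fin n) => ρ) ≤ ρ ^ H.edgeFinset.card :=
    ex_le (pow_nonneg h0 _) fun x => (prod_const ρ).le
  have h3 : ∑ f ∈ H.edgeFinset, 𝔼 x : W → Fin n, w (f.map x) * ∏ _g ∈ H.edgeFinset.erase f, ρ =
      H.edgeFinset.card * ρ ^ H.edgeFinset.card := by
    rw [← nsmul_eq_mul, ← sum_const]
    refine sum_congr rfl fun f hf => ?_
    rw [← expect_mul, Tang_edge hf, ← hρ, prod_const, card_erase_of_mem hf, ← pow_succ',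
      Nat.sub_add_cancel hk]
  have h4 : (1 : ℝ) ≤ H.edgeFinset.card := Nat.one_le_cast.2 hk
  rw [ord_psi, Tang_dart fun f => 𝔼 x : W → Fin n, w (f.map x) * ∏ _g ∈ H.edgeFinset.erase f, ρ,
    h3] at h1
  rw [← hρ]
  nlinarith only [h1, h2, h4, mul_le_mul_of_nonneg_left h2 (sub_nonneg.2 h4)]

theorem tH_le_pow (hk : 0 < H.edgeFinset.card) {V : Type} [Fintype V] [DecidableEq V]
    {u : Sym2 V → ℝ} (hu : ∀ e, 0 ≤ u e) : tH H u ≤ 𝔼 e, ord u e ^ H.edgeFinset.card := by
  have k0 : (H.edgeFinset.card : ℝ) ≠ 0 := Nat.cast_ne_zero.2 hk.ne'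
  refine (ex_mono (g := fun x : W → V => ∑ f ∈ H.edgeFinset,
    (H.edgeFinset.card : ℝ)⁻¹ * u (f.map x) ^ H.edgeFinset.card) fun x => ?_).trans_eq ?_
  · have h := Real.geom_mean_le_arith_mean_weighted H.edgeFinset (fun _ => (H.edgeFinset.card : ℝ)⁻¹)
      (fun f => u (f.map x) ^ H.edgeFinset.card) (fun _ _ => by positivity)
      (by rw [sum_const, nsmul_eq_mul, mul_inv_cancel₀ k0]) fun _ _ => pow_nonneg (hu _) _
    simp only [Real.pow_rpow_inv_natCast (hu _) hk.ne'] at h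
    exact h
  · rw [expect_sum_comm, sum_congr rfl fun f hf => by
      rw [← mul_expect, Tang_edge hf fun p => u p ^ H.edgeFinset.card], sum_const, nsmul_eq_mul,
      mul_inv_cancel_left₀ k0]
    rfl

theorem psi_pow (hT : Tangent H) (hk : 2 ≤ H.edgeFinset.card) {n : ℕ} {w : Sym2 (Fin n) → ℝ}
    (hw : ∀ e, 0 ≤ w e) :
    𝔼 e, ord (psi H w) e ^ ((H.edgeFinset.card : ℝ) / ((H.edgeFinset.card : ℝ) - 1)) ≤ tH H w := by
  have k2 : (2 : ℝ) ≤ H.edgeFinset.card := by exact_mod_cast hk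
  have k1 : (0 : ℝ) < (H.edgeFinset.card : ℝ) - 1 := by linarith
  have h0 := psi_nonneg H hw
  have u0 : ∀ p, 0 ≤ psi H w p ^ ((H.edgeFinset.card : ℝ) - 1)⁻¹ := fun p => Real.rpow_nonneg (h0 p) _
  have h1 := (hT n w _ hw u0).trans (tH_le_pow (by omega) u0)
  have e1 : ∀ p, psi H w p ^ ((H.edgeFinset.card : ℝ) - 1)⁻¹ * psi H w p =
      psi H w p ^ ((H.edgeFinset.card : ℝ) / ((H.edgeFinset.card : ℝ) - 1)) := fun p => by
    rw [← Real.rpow_add_one' (h0 p) (by positivity)]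
    refine congrArg _ ?_
    field_simp
    ring
  have e2 : ∀ p, (psi H w p ^ ((H.edgeFinset.card : ℝ) - 1)⁻¹) ^ H.edgeFinset.card =
      psi H w p ^ ((H.edgeFinset.card : ℝ) / ((H.edgeFinset.card : ℝ) - 1)) := fun p => by
    rw [← Real.rpow_mul_natCast (h0 p), inv_mul_eq_div]
  simp only [ord, e1, e2] at h1 ⊢
  exact le_of_mul_le_mul_left (by linarith only [h1]) k1

theorem young {k : ℕ} (hk : 2 ≤ k) {x y : ℝ} (hx : 0 ≤ x) (hy : 0 ≤ y) :
    k * (x * y) - x ^ k ≤ ((k : ℝ) - 1) * y ^ ((k : ℝ) / ((k : ℝ) - 1)) := by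
  have k2 : (2 : ℝ) ≤ k := by exact_mod_cast hk
  have k1 : (k : ℝ) - 1 ≠ 0 := by linarith
  have k0 : (0 : ℝ) < k := by linarith
  have h := mul_le_mul_of_nonneg_left (Real.young_inequality_of_nonneg hx hy
    (Real.HolderConjugate.conjExponent (p := k) (by linarith))) k0.le
  rw [Real.rpow_natCast, Real.conjExponent] at h
  refine sub_le_iff_le_add'.2 (h.trans_eq ?_)
  field_simp

end Pool.Agent.Work.MP_d4a230_co.U
end

-- merged part: Pool.Agent.Work.MP_d4a230_co.U.Unif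
section
/-!
The uniform model.
PLAN. choose_le, choose_ge: C(N-1,k-1) = k C(N,k) / N (Nat.succ_mul_choose_eq) and
C(a,k) / C(N,k) = prod (a-i)/(N-i) (descFactorial), between ((a-k)/N)^k truncated at 0 and (a/N)^k;
Bernoulli or x^k - y^k <= k (x - y) on [0,1]. fu_sandwich: meanIndep is Ex with p C = q ind (card = k)
of indepNum (weights of ω not inside powersetCard vanish); pointwise, a largest independent σ gives
Z >= lam^α; every σ has card <= α + (number of active C ⊆ σ) (delete one point per such C; all C are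
nonempty as k >= 1), so its weight is at most lam^α and Z <= 2^N lam^α.
-/

namespace Pool.Agent.Work.MP_d4a230_co.U

open Finset Filter Topology Pool.Agent.Work.MP_07f1b5_pr
open scoped BigOperators


theorem Unif_ratio {k N : ℕ} (a : ℕ) (hk : 1 ≤ k) (hN : k ≤ N) :
    (a.choose k : ℝ) / ((N - 1).choose (k - 1) : ℝ) =
      (N : ℝ) / k * ((a.descFactorial k : ℝ) / N.descFactorial k) := by
  obtain ⟨k, rfl⟩ : ∃ j, k = j + 1 := ⟨k - 1, by omega⟩
  obtain ⟨N, rfl⟩ : ∃ j, N = j + 1 := ⟨N - 1, by omega⟩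
  have h1 : ((N + 1 : ℕ) : ℝ) * (N.choose k : ℝ) = ((N + 1).choose (k + 1) : ℝ) * ((k + 1 : ℕ) : ℝ) := by
    exact_mod_cast Nat.add_one_mul_choose_eq N k
  have h2 : (0 : ℝ) < N.choose k := by exact_mod_cast Nat.choose_pos (by omega)
  have h3 : (0 : ℝ) < (N + 1).choose (k + 1) := by exact_mod_cast Nat.choose_pos hN
  have h4 : (0 : ℝ) < ((k + 1).factorial : ℝ) := by exact_mod_cast Nat.factorial_pos _
  have h5 : (0 : ℝ) < ((k + 1 : ℕ) : ℝ) := by positivity
  rw [Nat.add_sub_cancel, Nat.add_sub_cancel, Nat.descFactorial_eq_factorial_mul_choose,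
    Nat.descFactorial_eq_factorial_mul_choose, Nat.cast_mul, Nat.cast_mul,
    mul_div_mul_left _ _ h4.ne', div_mul_div_comm, div_eq_div_iff h2.ne' (by positivity)]
  linear_combination (-(a.choose (k + 1) : ℝ)) * h1

theorem Unif_desc_le {N a : ℕ} (ha : a ≤ N) (k : ℕ) :
    a.descFactorial k * N ^ k ≤ a ^ k * N.descFactorial k := by
  induction k with
  | zero => simp
  | succ k ih =>
    have h : (a - k) * N ≤ a * (N - k) := by
      rw [Nat.sub_mul, Nat.mul_sub]
      exact Nat.sub_le_sub_left (by rw [mul_comm]; exact Nat.mul_le_mul_left _ ha) _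
    rw [Nat.descFactorial_succ, Nat.descFactorial_succ, pow_succ, pow_succ]
    calc (a - k) * a.descFactorial k * (N ^ k * N) = (a.descFactorial k * N ^ k) * ((a - k) * N) := by
          ring
      _ ≤ (a ^ k * N.descFactorial k) * (a * (N - k)) := Nat.mul_le_mul ih h
      _ = _ := by ring

theorem Unif_desc_ge {N a : ℕ} (hN : 0 < N) (ha : a ≤ N) (k : ℕ) :
    ((a : ℝ) / N) ^ k - (k : ℝ) ^ 2 / N ≤ (a.descFactorial k : ℝ) / (N : ℝ) ^ k := by
  have hN' : (0 : ℝ) < N := by exact_mod_cast hN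
  induction k with
  | zero => simp
  | succ k ih =>
    have x0 : 0 ≤ (a.descFactorial k : ℝ) / (N : ℝ) ^ k := by positivity
    have x1 : (a.descFactorial k : ℝ) / (N : ℝ) ^ k ≤ 1 := by
      rw [div_le_one (by positivity)]
      exact_mod_cast (Nat.descFactorial_le_pow a k).trans (Nat.pow_le_pow_left ha k)
    have y0 : 0 ≤ (a : ℝ) / N := by positivity
    have y1 : (a : ℝ) / N ≤ 1 := by rw [div_le_one hN']; exact_mod_cast ha
    have z : (a : ℝ) / N - k / N ≤ ((a - k : ℕ) : ℝ) / N := by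
      rw [← sub_div]
      refine div_le_div_of_nonneg_right ?_ hN'.le
      rw [sub_le_iff_le_add]
      exact_mod_cast (by omega : a ≤ a - k + k)
    have e : (a.descFactorial (k + 1) : ℝ) / (N : ℝ) ^ (k + 1) =
        (a.descFactorial k : ℝ) / (N : ℝ) ^ k * (((a - k : ℕ) : ℝ) / N) := by
      rw [Nat.descFactorial_succ, Nat.cast_mul, pow_succ, div_mul_div_comm, mul_comm]
    have e2 : ((k + 1 : ℕ) : ℝ) ^ 2 / N = (k : ℝ) ^ 2 / N + 2 * (k / N) + 1 / N := by
      push_cast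
      ring
    have k0 : 0 ≤ (k : ℝ) / N := by positivity
    have k1 : 0 ≤ (k : ℝ) ^ 2 / N := by positivity
    have k2 : 0 ≤ (1 : ℝ) / N := by positivity
    rw [e, e2, pow_succ]
    nlinarith only [k0, k2, z, x0, ih, y0, x1, y1, k1, mul_le_mul_of_nonneg_left z x0, mul_le_mul_of_nonneg_right ih y0,
      mul_le_mul_of_nonneg_right x1 k0, mul_le_mul_of_nonneg_left y1 k1]

theorem choose_le {k N a : ℕ} (hk : 1 ≤ k) (hN : k ≤ N) (ha : a ≤ N) :
    (a.choose k : ℝ) / ((N - 1).choose (k - 1) : ℝ) ≤ (N : ℝ) / k * ((a : ℝ) / N) ^ k := by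
  have hN' : (0 : ℝ) < N := by exact_mod_cast (by omega : 0 < N)
  have h1 : (0 : ℝ) < N.descFactorial k := by exact_mod_cast Nat.descFactorial_pos.2 hN
  rw [Unif_ratio a hk hN, div_pow]
  refine mul_le_mul_of_nonneg_left ?_ (by positivity)
  rw [div_le_div_iff₀ h1 (by positivity)]
  exact_mod_cast Unif_desc_le ha k

theorem choose_ge {k N a : ℕ} (hk : 1 ≤ k) (hN : k ≤ N) (ha : a ≤ N) :
    (N : ℝ) / k * (((a : ℝ) / N) ^ k - (k : ℝ) ^ 2 / N) ≤
      (a.choose k : ℝ) / ((N - 1).choose (k - 1) : ℝ) := by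
  have h1 : (0 : ℝ) < N.descFactorial k := by exact_mod_cast Nat.descFactorial_pos.2 hN
  rw [Unif_ratio a hk hN]
  refine mul_le_mul_of_nonneg_left ((Unif_desc_ge (by omega) ha k).trans ?_) (by positivity)
  refine div_le_div_of_nonneg_left (by positivity) h1 ?_
  exact_mod_cast Nat.descFactorial_le_pow N k

theorem sum_unif {I : Type} [Fintype I] [DecidableEq I] (k : ℕ) (q : ℝ) (T : Finset I) :
    ∑ C : Finset I, q * ind (C.card = k) * ind (C ⊆ T) = q * (T.card.choose k : ℝ) := by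
  simp only [mul_assoc, ← ind_and]
  rw [← Finset.mul_sum, sum_ind, ← card_powersetCard]
  refine congrArg (fun s : Finset (Finset I) => q * (s.card : ℝ)) ?_
  ext C
  simp only [mem_filter, mem_univ, true_and, mem_powersetCard, and_comm]

theorem Unif_choose_ge (j n : ℕ) : n - j ≤ n.choose (j + 1) := by
  induction j generalizing n with
  | zero => simp
  | succ j ih =>
    rcases n with _ | n
    · simp
    · have := ih n
      rw [Nat.choose_succ_succ']
      omega

theorem q_zero {k : ℕ} (hk : 2 ≤ k) (L : ℝ) :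
    Tendsto (fun N : ℕ => L / ((N - 1).choose (k - 1) : ℝ)) atTop (𝓝 0) := by
  obtain ⟨j, rfl⟩ : ∃ j, k = j + 2 := ⟨k - 2, by omega⟩
  refine Tendsto.const_div_atTop (tendsto_natCast_atTop_atTop.comp ?_) L
  refine tendsto_atTop_mono (fun N => ?_) (tendsto_sub_atTop_nat (j + 1))
  have := Unif_choose_ge j (N - 1)
  show N - (j + 1) ≤ (N - 1).choose (j + 1)
  omega

theorem Unif_mean (k N : ℕ) (q : ℝ) : meanIndep k N q =
    Ex (fun C : Finset (Fin N) => q * ind (C.card = k)) fun ω => (indepNum ω : ℝ) := by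
  unfold meanIndep Ex
  rw [← Finset.sum_subset (subset_univ (powersetCard k (univ : Finset (Fin N))).powerset)]
  · refine sum_congr rfl fun ω hω => congrArg (· * (indepNum ω : ℝ)) ?_
    rw [mem_powerset] at hω
    have h1 : ∀ C ∈ ω, q * ind (C.card = k) = q := fun C hC => by
      rw [ind_pos (mem_powersetCard.1 (hω hC)).2, mul_one]
    have h2 : ∏ C ∈ univ.filter (fun C => C ∉ ω), (1 - q * ind (C.card = k)) =
        ∏ _C ∈ powersetCard k (univ : Finset (Fin N)) \ ω, (1 - q) := by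
      rw [← prod_subset (s₁ := powersetCard k (univ : Finset (Fin N)) \ ω)]
      · exact prod_congr rfl fun C hC => by
          rw [ind_pos (mem_powersetCard.1 (mem_sdiff.1 hC).1).2, mul_one]
      · exact fun C hC => mem_filter.2 ⟨mem_univ _, (mem_sdiff.1 hC).2⟩
      · intro C hC hC2
        rw [ind_neg fun h => hC2 (mem_sdiff.2 ⟨mem_powersetCard.2 ⟨subset_univ _, h⟩,
          (mem_filter.1 hC).2⟩), mul_zero, sub_zero]
    unfold wt
    rw [prod_ite, h2, filter_mem_eq_inter, univ_inter, prod_congr rfl h1, prod_const, prod_const,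
      card_sdiff_of_subset hω, card_powersetCard, card_univ, Fintype.card_fin]
  · intro ω _ hω
    refine mul_eq_zero_of_left ?_ _
    by_contra h
    refine hω (mem_powerset.2 fun C hC => mem_powersetCard.2 ⟨subset_univ _, ?_⟩)
    by_contra h2
    exact ne_zero_of_wt_ne h hC (by rw [ind_neg h2, mul_zero])

theorem Unif_adm {N : ℕ} (k : ℕ) {q : ℝ} (q0 : 0 ≤ q) (q1 : q ≤ 1) :
    Adm fun C : Finset (Fin N) => q * ind (C.card = k) := fun _ =>
  ⟨mul_nonneg q0 (ind_nonneg _), mul_le_one₀ q1 (ind_nonneg _) (ind_le_one _)⟩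

theorem Unif_ub {N : ℕ} (ω : Finset (Finset (Fin N))) :
    N ∈ upperBounds {a : ℕ | ∃ σ : Finset (Fin N), σ.card = a ∧ ∀ C ∈ ω, ¬ C ⊆ σ} := by
  rintro _ ⟨σ, rfl, -⟩
  simpa using card_le_univ σ

theorem mean_bd (k N : ℕ) {q : ℝ} (hk : 1 ≤ k) (q0 : 0 ≤ q) (q1 : q ≤ 1) :
    0 ≤ meanIndep k N q ∧ meanIndep k N q ≤ N := by
  rw [Unif_mean]
  refine ⟨Ex_nonneg (Unif_adm k q0 q1) fun ω => Nat.cast_nonneg _, ?_⟩
  rw [← Ex_const (fun C : Finset (Fin N) => q * ind (C.card = k)) (N : ℝ)]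
  exact Ex_mono_ae (Unif_adm k q0 q1) fun ω _ => Nat.cast_le.2 (csSup_le' (Unif_ub ω))

theorem Unif_del {I : Type} [Fintype I] [DecidableEq I] {lam θ : ℝ} (hl : 1 ≤ lam) (h0 : 0 ≤ θ)
    (h1 : θ < 1) (hlt : lam * (1 - θ) ≤ 1) (σ : Finset I) (ω : Finset (Finset I))
    (hω : ∀ C ∈ ω, C.Nonempty) :
    ∃ τ ⊆ σ, (∀ C ∈ ω, ¬ C ⊆ τ) ∧ fug lam σ * cw θ id ω σ ≤ lam ^ τ.card := by
  induction ω using Finset.induction_on with
  | empty => exact ⟨σ, subset_rfl, by simp, by simp [fug, cw]⟩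
  | insert C ω hC ih =>
    obtain ⟨τ, h2, h3, h4⟩ := ih fun D hD => hω D (mem_insert_of_mem hD)
    have e : cw θ id (insert C ω) σ = (1 - θ * ind (C ⊆ σ)) * cw θ id ω σ := prod_insert hC
    have p0 : 0 ≤ fug lam σ * cw θ id ω σ :=
      mul_nonneg (pow_nonneg (by linarith) _) (cw_bd h0 h1 id ω σ).1.le
    by_cases hc : C ⊆ τ
    · obtain ⟨x, hx⟩ := hω C (mem_insert_self _ _)
      refine ⟨τ.erase x, (erase_subset _ _).trans h2, fun D hD hD2 => ?_, ?_⟩
      · rcases mem_insert.1 hD with rfl | hD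
        · exact notMem_erase x τ (hD2 hx)
        · exact h3 D hD (hD2.trans (erase_subset _ _))
      · have p1 : 0 ≤ lam ^ (τ.erase x).card := pow_nonneg (by linarith) _
        rw [← card_erase_add_one (hc hx), pow_succ] at h4
        rw [e, ind_pos (hc.trans h2)]
        nlinarith only [h4, h1, hlt, p1, mul_le_mul_of_nonneg_left h4 (sub_pos.2 h1).le, mul_le_mul_of_nonneg_left hlt p1]
    · refine ⟨τ, h2, fun D hD => ?_, ?_⟩
      · rcases mem_insert.1 hD with rfl | hD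
        · exact hc
        · exact h3 D hD
      · rw [e]
        nlinarith only [h4, p0, h0, mul_nonneg p0 (mul_nonneg h0 (ind_nonneg (C ⊆ σ)))]

theorem Unif_point {N : ℕ} {lam θ : ℝ} (hl : 1 ≤ lam) (h0 : 0 ≤ θ) (h1 : θ < 1)
    (hlt : lam * (1 - θ) ≤ 1) (ω : Finset (Finset (Fin N))) (hω : ∀ C ∈ ω, C.Nonempty) :
    (indepNum ω : ℝ) * Real.log lam ≤ Real.log (∑ σ, fug lam σ * cw θ id ω σ) ∧
      Real.log (∑ σ, fug lam σ * cw θ id ω σ) ≤ (indepNum ω : ℝ) * Real.log lam + N * Real.log 2 := by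
  have hb : BddAbove {a : ℕ | ∃ σ : Finset (Fin N), σ.card = a ∧ ∀ C ∈ ω, ¬ C ⊆ σ} := ⟨N, Unif_ub ω⟩
  have hl0 : 0 < lam := by linarith
  have lo : lam ^ indepNum ω ≤ ∑ σ, fug lam σ * cw θ id ω σ := by
    obtain ⟨σ, h2, h3⟩ := Nat.sSup_mem (s := {a : ℕ | ∃ σ : Finset (Fin N), σ.card = a ∧ ∀ C ∈ ω, ¬ C ⊆ σ})
      ⟨0, ∅, rfl, fun C hC h => (hω C hC).ne_empty (subset_empty.1 h)⟩ hb
    have e : cw θ id ω σ = 1 := prod_eq_one fun C hC => by
      rw [id, ind_neg (h3 C hC), mul_zero, sub_zero]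
    refine le_trans ?_ (single_le_sum (f := fun σ => fug lam σ * cw θ id ω σ) (fun σ _ =>
      mul_nonneg (pow_nonneg hl0.le _) (cw_bd h0 h1 id ω σ).1.le) (mem_univ σ))
    rw [e, mul_one, fug, h2]
    exact le_rfl
  have hi : ∑ σ, fug lam σ * cw θ id ω σ ≤ lam ^ indepNum ω * 2 ^ N := by
    have := sum_le_card_nsmul univ (fun σ => fug lam σ * cw θ id ω σ) (lam ^ indepNum ω) fun σ _ => by
      obtain ⟨τ, -, h3, h4⟩ := Unif_del hl h0 h1 hlt σ ω hω
      exact h4.trans (pow_le_pow_right₀ hl (le_csSup hb ⟨τ, rfl, h3⟩))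
    rw [card_univ, Fintype.card_finset, Fintype.card_fin, nsmul_eq_mul, Nat.cast_pow, mul_comm] at this
    exact this
  have hp : 0 < lam ^ indepNum ω := pow_pos hl0 _
  rw [← Real.log_pow, ← Real.log_pow, ← Real.log_mul hp.ne' (by positivity)]
  exact ⟨Real.log_le_log hp lo, Real.log_le_log (hp.trans_le lo) hi⟩

theorem fu_sandwich {k N : ℕ} {L lam θ : ℝ} (hk : 1 ≤ k) (hl : 1 ≤ lam) (h0 : 0 ≤ θ) (h1 : θ < 1)
    (hlt : lam * (1 - θ) ≤ 1) (q0 : 0 ≤ L / ((N - 1).choose (k - 1) : ℝ))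
    (q1 : L / ((N - 1).choose (k - 1) : ℝ) ≤ 1) :
    meanIndep k N (L / ((N - 1).choose (k - 1) : ℝ)) * Real.log lam ≤ FU k L lam θ N ∧
      FU k L lam θ N ≤ meanIndep k N (L / ((N - 1).choose (k - 1) : ℝ)) * Real.log lam +
        N * Real.log 2 := by
  have ha := Unif_adm (N := N) k q0 q1
  have hne : ∀ ω : Finset (Finset (Fin N)),
      wt (fun C : Finset (Fin N) => L / ((N - 1).choose (k - 1) : ℝ) * ind (C.card = k)) ω ≠ 0 →
      ∀ C ∈ ω, C.Nonempty := fun ω h C hC => by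
    by_contra h2
    refine ne_zero_of_wt_ne h hC ?_
    rw [not_nonempty_iff_eq_empty.1 h2, ind_neg (by rw [card_empty]; omega), mul_zero]
  rw [Unif_mean, ← Ex_mul_const]
  refine ⟨Ex_mono_ae ha fun ω h => (Unif_point hl h0 h1 hlt ω (hne ω h)).1, ?_⟩
  rw [← Ex_const (fun C : Finset (Fin N) => L / ((N - 1).choose (k - 1) : ℝ) * ind (C.card = k))
    (N * Real.log 2), ← Ex_add]
  exact Ex_mono_ae ha fun ω h => (Unif_point hl h0 h1 hlt ω (hne ω h)).2

end Pool.Agent.Work.MP_d4a230_co.U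
end

-- merged part: Pool.Agent.Work.MP_d4a230_co.U.Star
section
/-!
The gadget inequality for simple patterns and for parallel variables.
PLAN. star2: all slots have the same position p = s(z false, z true); with x = |R|/μ, ψ = psi w p the
expression is at most (L μ / k) (k x ψ - x^k) + L k (sum_unif, choose_ge) <= (L μ (k-1)/k)
ψ^(k/(k-1)) + L k (young); ex_ord and psi_pow.
star1: q = 2b/s^2, u = ind (. ∈ image of R) / q, Wz = w ∘ map z. Since the pattern is simple, the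
number of C ⊆ R with Acd is the number of copies inside the image of R, which is at least
(s^v q^k tH u - v^2 s^(v-1)) / aut (HBal.sum_copies, prod_img, sum_emb_ge); τ s^v q^k / aut = L b / k.
Tangent at Wz: tH u >= k (sum_{j ∈ R} psi Wz (s (ep j))) / b - (k-1) tH Wz (the mean of ord u * ord ψ
is that sum over b: sum_hit_mul or den_ord with I = Fin b). The mean over z of tH Wz is at most
tH w + v^2/s (ex_comp_inj for injective x, ex_not_inj). For a ≠ b the mean over z of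
|psi w s(z a, z b) - psi Wz s(a,b)| is at most C / sqrt s: for fixed values at a, b (ex_update twice)
the function z mapsto psi Wz s(a,b) has differences <= v/s (maxineq with Ω = Unit, δ = 1/sqrt s) and
its mean is within 3 v^2/s of psi w (maps x injective and avoiding a, b off the ends of the dart).
The error C/sqrt s + v^2/(s q^k) is at most ε for large s when q >= q0.
-/

namespace Pool.Agent.Work.MP_d4a230_co.U

open Finset Filter Topology Pool.Agent.Work.MP_07f1b5_pr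
open scoped BigOperators


variable {W : Type} [Fintype W] [DecidableEq W] {H : SimpleGraph W} [DecidableRel H.Adj]

theorem star2 (B : HBal H) (hT : Tangent H) {L : ℝ} (hL : 0 ≤ L) {μ : ℕ}
    (hμ : H.edgeFinset.card ≤ μ) :
    GadI H (epP (Fin μ)) (fun C => L / ((μ - 1).choose (H.edgeFinset.card - 1) : ℝ) *
      ind (C.card = H.edgeFinset.card)) L (L * H.edgeFinset.card / μ) := by
  intro n w hn hw
  have : Nonempty (Fin n) := ⟨⟨0, hn⟩⟩
  have k3 := B.h3.trans B.hk
  have k0 : (0 : ℝ) < H.edgeFinset.card := Nat.cast_pos.2 (by omega)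
  have m0 : (0 : ℝ) < μ := Nat.cast_pos.2 (by omega)
  have k1 : 0 ≤ L * μ * ((H.edgeFinset.card : ℝ) - 1) / H.edgeFinset.card :=
    div_nonneg (mul_nonneg (by positivity) (sub_nonneg.2 (Nat.one_le_cast.2 (by omega)))) k0.le
  rw [Fintype.card_fin]
  refine (ex_mono (g := fun z : Bool → Fin n =>
    L * μ * ((H.edgeFinset.card : ℝ) - 1) / H.edgeFinset.card * psi H w s(z false, z true) ^
      ((H.edgeFinset.card : ℝ) / ((H.edgeFinset.card : ℝ) - 1)) + L * H.edgeFinset.card / μ * μ)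
    fun z => sup'_le _ _ fun R _ => ?_).trans ?_
  · have h1 := mul_le_mul_of_nonneg_left (choose_ge (k := H.edgeFinset.card) (a := R.card)
      (by omega) hμ (by simpa using card_le_univ R)) hL
    have h2 := mul_le_mul_of_nonneg_left (young (k := H.edgeFinset.card) (x := R.card / μ) (by omega)
      (by positivity) (psi_nonneg H (fun e => (hw e).1) s(z false, z true)))
      (show 0 ≤ L * μ / H.edgeFinset.card by positivity)
    rw [sum_unif, div_mul_eq_mul_div, mul_div_assoc L]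
    change L * ∑ j ∈ R, psi H w s(z false, z true) - _ ≤ _
    rw [sum_const, nsmul_eq_mul]
    refine (sub_le_sub_left h1 _).trans (Eq.trans_le (b := _ + L * H.edgeFinset.card) ?_
      ((add_le_add_left h2 _).trans_eq ?_)) <;> field_simp
    ring
  · rw [expect_add_distrib, Fintype.expect_const, ← mul_expect, ex_ord (by decide) fun p =>
      psi H w p ^ ((H.edgeFinset.card : ℝ) / ((H.edgeFinset.card : ℝ) - 1))]
    exact add_le_add_left (mul_le_mul_of_nonneg_left (psi_pow hT (by omega) fun e => (hw e).1) k1) _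

section
variable {ι κ : Type} [Fintype ι] [DecidableEq ι] [Nonempty ι] [Fintype κ] [DecidableEq κ]
  [Nonempty κ] {g : (W → κ) → ℝ} {δ : ℝ}

lemma Star_diff (hg : Unit01 g) (z : ι → κ) (a : ι) (α : κ) :
    |(𝔼 x : W → ι, g fun u => Function.update z a α (x u)) - 𝔼 x : W → ι, g fun u => z (x u)| ≤
      (Fintype.card W : ℝ) / Fintype.card ι := by
  rw [← expect_sub_distrib]
  refine (ex_abs _).trans ((ex_mono (g := fun x => ∑ u, ind (x u = a)) fun x =>
    le_trans ?_ (ind_exists_le univ _)).trans ?_)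
  · by_cases h : ∃ u ∈ univ, x u = a
    · rw [ind_pos h]
      exact abs_sub_le_of_nonneg_of_le (hg _).1 (hg _).2 (hg _).1 (hg _).2
    · rw [ind_neg h, funext fun u => Function.update_of_ne (fun e => h ⟨u, mem_univ _, e⟩) α z,
        sub_self, abs_zero]
  · rw [expect_sum_comm]
    refine (sum_le_card_nsmul _ _ (1 / (Fintype.card ι : ℝ)) fun u _ => ?_).trans_eq
      (by simp [div_eq_mul_inv])
    simpa using ex_mem_le (κ := ι) {u} {a}

lemma Star_mean (hg : Unit01 g) :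
    |(𝔼 z : ι → κ, 𝔼 x : W → ι, g fun u => z (x u)) - 𝔼 y, g y| ≤
      (Fintype.card W : ℝ) ^ 2 / Fintype.card ι := by
  rw [expect_comm, ← Fintype.expect_const (ι := W → ι) (𝔼 y, g y), ← expect_sub_distrib]
  refine (ex_abs _).trans ((ex_mono fun x => ?_).trans (ex_not_inj (κ := ι) univ))
  by_cases h : Set.InjOn x (univ : Finset W)
  · rw [ex_comp_inj x (fun _ _ e => h (mem_univ _) (mem_univ _) e) g, sub_self, abs_zero]
    exact ind_nonneg _
  · rw [ind_pos h]
    exact abs_sub_le_of_nonneg_of_le (expect_nonneg fun _ _ => (hg _).1)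
      (ex_le zero_le_one fun _ => (hg _).2) (expect_nonneg fun _ _ => (hg _).1)
      (ex_le zero_le_one fun _ => (hg _).2)

lemma Star_samp (hg : Unit01 g) (hδ : 0 < δ) (hv : 0 < Fintype.card W)
    (h : Real.log 2 ≤ δ ^ 2 * Fintype.card ι) :
    𝔼 z : ι → κ, |(𝔼 y, g y) - 𝔼 x : W → ι, g fun u => z (x u)| ≤
      2 * δ * Fintype.card W + (Fintype.card W : ℝ) ^ 2 / Fintype.card ι := by
  obtain ⟨err, -, h2, h3⟩ := maxineq (Ω := Unit)
    (fun _ (z : ι → κ) => 𝔼 x : W → ι, g fun u => z (x u))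
    (c := (Fintype.card W : ℝ) / Fintype.card ι) (by positivity) hδ
    (fun _ z a α => Star_diff hg z a α) (by simpa using h)
  rw [mul_assoc, div_mul_cancel₀ _ (by positivity)] at h2
  refine (ex_mono (g := fun z => err z + (Fintype.card W : ℝ) ^ 2 / Fintype.card ι)
    fun z => ?_).trans ?_
  · have h4 := abs_le.1 (h3 z ())
    have h5 := abs_le.1 (Star_mean (ι := ι) hg)
    exact abs_le.2 ⟨by linarith only [h4, h5, h4.2, h5.2], by linarith only [h4, h5, h4.1, h5.1]⟩
  · rw [expect_add_distrib, Fintype.expect_const]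
    exact add_le_add_left h2 _

lemma Star_root {G : κ → κ → (W → κ) → ℝ} (hG : ∀ α β, Unit01 (G α β)) (hδ : 0 < δ)
    (hv : 0 < Fintype.card W) (h : Real.log 2 ≤ δ ^ 2 * Fintype.card ι) {a b : ι} (hab : a ≠ b) :
    𝔼 z : ι → κ, |(𝔼 y, G (z a) (z b) y) - 𝔼 x : W → ι, G (z a) (z b) fun u => z (x u)| ≤
      2 * δ * Fintype.card W + (Fintype.card W : ℝ) ^ 2 / Fintype.card ι +
        2 * ((Fintype.card W : ℝ) / Fintype.card ι) := by
  rw [Cut_upd a b]
  refine ex_le (by positivity) fun e => ?_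
  simp only [Function.update_self, Function.update_of_ne hab]
  refine (ex_mono (g := fun z => |(𝔼 y, G e.1 e.2 y) - 𝔼 x : W → ι, G e.1 e.2 fun u => z (x u)| +
    2 * ((Fintype.card W : ℝ) / Fintype.card ι)) fun z => ?_).trans ?_
  · have h1 := abs_le.1 (Star_diff (hG e.1 e.2) z a e.1)
    have h2 := abs_le.1 (Star_diff (hG e.1 e.2) (Function.update z a e.1) b e.2)
    have h3 := abs_le.1 (le_refl |(𝔼 y, G e.1 e.2 y) - 𝔼 x : W → ι, G e.1 e.2 fun u => z (x u)|)
    exact abs_le.2 ⟨by linarith only [h1, h2, h3, h1.2, h2.2, h3.1], by linarith only [h1, h2, h3, h1.1, h2.1, h3.2]⟩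
  · rw [expect_add_distrib, Fintype.expect_const]
    exact add_le_add_left (Star_samp (hG _ _) hδ hv h) _

lemma Star_psi {w : Sym2 κ → ℝ} (hw : Unit01 w) (hδ : 0 < δ) (hv : 0 < Fintype.card W)
    (h : Real.log 2 ≤ δ ^ 2 * Fintype.card ι) {a b : ι} (hab : a ≠ b) :
    𝔼 z : ι → κ, |psi H w s(z a, z b) - psi H (fun p => w (p.map z)) s(a, b)| ≤
      2 * δ * Fintype.card W + (Fintype.card W : ℝ) ^ 2 / Fintype.card ι +
        2 * ((Fintype.card W : ℝ) / Fintype.card ι) := by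
  simp only [psi_mk, ← expect_sub_distrib]
  refine (ex_mono fun z => ex_abs _).trans ?_
  rw [expect_comm]
  refine ex_le (by positivity) fun d => le_of_eq_of_le ?_ (Star_root (G := fun α β y =>
    ∏ f ∈ H.edgeFinset.erase d.edge, w (f.map (Function.update (Function.update y d.fst α) d.snd β)))
    (fun _ _ _ => ⟨prod_nonneg fun _ _ => (hw _).1,
      prod_le_one (fun _ _ => (hw _).1) fun _ _ => (hw _).2⟩) hδ hv h hab)
  simp only [rt, Sym2.map_map, Function.comp_update]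
  rfl

lemma Star_tH {w : Sym2 κ → ℝ} (hw : Unit01 w) : 𝔼 z : ι → κ, tH H (fun p => w (p.map z)) ≤
    tH H w + (Fintype.card W : ℝ) ^ 2 / Fintype.card ι := by
  have h := (abs_le.1 (Star_mean (ι := ι) (g := fun y : W → κ => ∏ f ∈ H.edgeFinset, w (f.map y))
    fun _ => ⟨prod_nonneg fun _ _ => (hw _).1,
      prod_le_one (fun _ _ => (hw _).1) fun _ _ => (hw _).2⟩)).2
  simp only [tH, Sym2.map_map]
  exact sub_le_iff_le_add'.1 h

end

section
variable {I V : Type} [Fintype I] [DecidableEq I] [Fintype V] [DecidableEq V]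

lemma Star_cnt {q : I → Sym2 V} (hq : Function.Injective q) (R : Finset I) :
    ∑ C, ind (Acd H q id C) * ind (C ⊆ R) = ∑ T ∈ copies H V, ind (T ⊆ R.image q) := by
  rw [← sum_subset (subset_univ (univ.filter fun C => C.image q ∈ copies H V)) fun C _ h => by
    rw [ind_neg fun e => h (mem_filter.2 ⟨mem_univ _, e.1⟩), zero_mul]]
  refine sum_of_injOn (image q) (image_injective hq).injOn (fun C h => (mem_filter.1 h).2)
    (fun T hT h => ind_neg fun e => h ?_) fun C h => ?_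
  · obtain ⟨C, -, rfl⟩ := subset_image_iff.1 e
    exact ⟨C, mem_filter.2 ⟨mem_univ _, hT⟩, rfl⟩
  · obtain ⟨f, -, e⟩ := mem_image.1 (mem_filter.1 h).2
    rw [ind_pos ⟨(mem_filter.1 h).2, by rw [← card_image_of_injective C hq, ← e, card_img],
      Function.injective_id.injOn⟩, one_mul, image_subset_image_iff hq]

lemma Star_cop (B : HBal H) (S : Finset (Sym2 V)) :
    (Fintype.card V : ℝ) ^ Fintype.card W * tH H (fun p => ind (p ∈ S)) -
      (Fintype.card W : ℝ) ^ 2 * (Fintype.card V : ℝ) ^ (Fintype.card W - 1) ≤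
        aut H * ∑ T ∈ copies H V, ind (T ⊆ S) ∧
    aut H * ∑ T ∈ copies H V, ind (T ⊆ S) ≤ (Fintype.card V : ℝ) ^ Fintype.card W := by
  have e : ∀ T : Finset (Sym2 V), ind (T ⊆ S) = ∏ g ∈ T, ind (g ∈ S) := fun T => by
    by_cases h : T ⊆ S
    · rw [ind_pos h, prod_eq_one fun g hg => ind_pos (h hg)]
    · obtain ⟨g, h1, h2⟩ := not_subset.1 h
      rw [ind_neg h, prod_eq_zero h1 (ind_neg h2)]
  rw [B.sum_copies]
  refine ⟨?_, (sum_le_sum fun f _ => ind_le_one _).trans
    ((sum_emb_le (fun _ => 1) fun _ => zero_le_one).trans_eq (by simp))⟩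
  simp only [e, prod_img]
  rw [sub_le_iff_le_add, ← Nat.cast_pow, ← Fintype.card_fun, tH, Fintype.card_mul_expect]
  exact sum_emb_ge (fun x => ∏ g ∈ H.edgeFinset, ind (g.map x ∈ S)) fun _ =>
    prod_le_one (fun _ _ => ind_nonneg _) fun _ _ => ind_le_one _

lemma Star_den {q : I → Sym2 V} (hq : Function.Injective q) (hd : ∀ i, ¬ (q i).IsDiag)
    (R : Finset I) (e : V × V) : den q R e =
      ind (s(e.1, e.2) ∈ R.image q) / (2 * Fintype.card I / (Fintype.card V : ℝ) ^ 2) := by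
  rw [den, div_div_eq_mul_div, mul_comm, mul_div_assoc]
  refine congrArg (· * _) ?_
  by_cases h : s(e.1, e.2) ∈ R.image q
  · obtain ⟨i, hi, h1⟩ := mem_image.1 h
    rw [ind_pos h, sum_eq_single_of_mem i hi fun j _ hj => by
      rw [hit, ind_neg fun h2 => hj (hq (h2.trans h1.symm)), zero_mul],
      hit_of_ne _ fun h2 => hd i (h1 ▸ Sym2.mk_isDiag_iff.2 h2), ind_pos h1]
  · rw [ind_neg h, sum_eq_zero fun j hj => by
      rw [hit, ind_neg fun h2 => h (mem_image.2 ⟨j, hj, h2⟩), zero_mul]]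

end

lemma Star_tan (hT : Tangent H) {I : Type} [Fintype I] [DecidableEq I] {s : ℕ} [Nonempty (Fin s)]
    {q : I → Sym2 (Fin s)} (hq : Function.Injective q) (hd : ∀ i, ¬ (q i).IsDiag) (R : Finset I)
    {w : Sym2 (Fin s) → ℝ} (hw : ∀ e, 0 ≤ w e) :
    H.edgeFinset.card * ((∑ i ∈ R, psi H w (q i)) / Fintype.card I) -
      ((H.edgeFinset.card : ℝ) - 1) * tH H w ≤ tH H (fun p => ind (p ∈ R.image q)) /
        (2 * Fintype.card I / (s : ℝ) ^ 2) ^ H.edgeFinset.card := by
  have h := hT s w (fun p => ind (p ∈ R.image q) / (2 * Fintype.card I / (s : ℝ) ^ 2)) hw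
    fun _ => div_nonneg (ind_nonneg _) (by positivity)
  rw [← den_ord]
  simp only [Star_den hq hd, Fintype.card_fin]
  refine h.trans_eq ?_
  simp only [tH, expect_div, prod_div_distrib, prod_const, div_pow]

theorem star1 (B : HBal H) (hT : Tangent H) {L q0 ε : ℝ} (hL : 0 ≤ L) (hq : 0 < q0) (hε : 0 < ε) :
    ∀ᶠ s : ℕ in atTop, ∀ (b : ℕ) (τ : ℝ) (ep : Fin b → Fin s × Fin s), q0 * (s : ℝ) ^ 2 ≤ 2 * b →
      0 ≤ τ → rate H s b τ = L → (∀ j, (ep j).1 ≠ (ep j).2) →
      (Function.Injective fun j => s((ep j).1, (ep j).2)) →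
      GadI H ep (fun C => τ * ind (Acd H (fun j => s((ep j).1, (ep j).2)) id C)) L ε ∧
        ∑ C : Finset (Fin b), τ * ind (Acd H (fun j => s((ep j).1, (ep j).2)) id C) ≤
          L / q0 ^ H.edgeFinset.card * b := by
  have v3 := B.h3
  have k3 := v3.trans B.hk
  have k1 : (1 : ℝ) ≤ H.edgeFinset.card := Nat.one_le_cast.2 (by omega)
  have a0 : 0 < aut H := one_pos.trans_le one_le_aut
  obtain ⟨δ, hδ, hd⟩ : ∃ δ : ℝ, 0 < δ ∧ L * (2 * δ * Fintype.card W) ≤ ε / 2 :=
    ⟨ε / (4 * (L * Fintype.card W + 1)), by positivity, by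
      rw [show L * (2 * (ε / (4 * (L * Fintype.card W + 1))) * Fintype.card W) =
        ε / 2 * (L * Fintype.card W / (L * Fintype.card W + 1)) by field_simp; ring]
      exact mul_le_of_le_one_right (by positivity) (div_le_one_of_le₀ (by linarith) (by positivity))⟩
  filter_upwards [eventually_gt_atTop 0,
    (tendsto_natCast_atTop_atTop.const_mul_atTop (pow_pos hδ 2)).eventually_ge_atTop (Real.log 2),
    (tendsto_const_div_atTop_nhds_zero_nat (L * (2 * (Fintype.card W : ℝ) ^ 2 + 2 * Fintype.card W +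
      (Fintype.card W : ℝ) ^ 2 / q0 ^ H.edgeFinset.card))).eventually_le_const (half_pos hε)]
    with s s0 hs hs' b τ ep hb hτ hr hne hi
  have : Nonempty (Fin s) := ⟨⟨0, s0⟩⟩
  have s1 : (0 : ℝ) < s := Nat.cast_pos.2 s0
  have b0 : (0 : ℝ) < b := by linarith only [hb, hq, s1, mul_pos hq (pow_pos s1 2)]
  have hq' : q0 ≤ 2 * b / (s : ℝ) ^ 2 := (le_div_iff₀ (by positivity)).2 hb
  have h1 : τ * (s : ℝ) ^ Fintype.card W / aut H =
      L * b / H.edgeFinset.card / (2 * b / (s : ℝ) ^ 2) ^ H.edgeFinset.card := by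
    rw [← hr, rate, ← pow_sub_mul_pow (s : ℝ) (show 2 ≤ Fintype.card W by omega),
      ← pow_sub_one_mul (show H.edgeFinset.card ≠ 0 by omega) (2 * b / (s : ℝ) ^ 2)]
    field_simp
  have h2 : τ * (s : ℝ) ^ Fintype.card W / aut H ≤ L / q0 ^ H.edgeFinset.card * b := by
    rw [h1, div_mul_eq_mul_div]
    exact div_le_div₀ (by positivity) (div_le_self (by positivity) k1) (by positivity)
      (pow_le_pow_left₀ hq.le hq' _)
  have h3 := fun S => Star_cop (V := Fin s) B S
  simp only [Fintype.card_fin] at h3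
  refine ⟨fun n w hn hw => ?_, le_trans ?_ h2⟩
  · have : Nonempty (Fin n) := ⟨⟨0, hn⟩⟩
    have k2 : L * b * ((H.edgeFinset.card : ℝ) - 1) / H.edgeFinset.card ≤ L * b := by
      rw [mul_div_assoc]
      exact mul_le_of_le_one_right (by positivity) (div_le_one_of_le₀ (by linarith only []) (by positivity))
    have k4 : 0 ≤ L * b * ((H.edgeFinset.card : ℝ) - 1) / H.edgeFinset.card :=
      div_nonneg (mul_nonneg (by positivity) (sub_nonneg.2 k1)) (by positivity)
    rw [Fintype.card_fin]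
    refine (ex_mono (g := fun z : Fin s → Fin n => L * ∑ j, |psi H w s(z (ep j).1, z (ep j).2) -
      psi H (fun p => w (p.map z)) s((ep j).1, (ep j).2)| +
      L * b * ((H.edgeFinset.card : ℝ) - 1) / H.edgeFinset.card * tH H (fun p => w (p.map z)) +
      L / q0 ^ H.edgeFinset.card * b * ((Fintype.card W : ℝ) ^ 2 / s))
      fun z => sup'_le _ _ fun R _ => ?_).trans ?_
    · have e1 := mul_le_mul_of_nonneg_left (Star_tan hT hi (fun j => mt Sym2.mk_isDiag_iff.1 (hne j))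
        R (w := fun p => w (p.map z)) fun _ => (hw _).1)
        (show 0 ≤ L * b / H.edgeFinset.card by positivity)
      have e2 := mul_le_mul_of_nonneg_left (h3 (R.image fun j => s((ep j).1, (ep j).2))).1
        (show 0 ≤ τ / aut H by positivity)
      have e3 := mul_le_mul_of_nonneg_right h2 (show 0 ≤ (Fintype.card W : ℝ) ^ 2 / s by positivity)
      have e4 : ∑ j ∈ R, psi H w (sl ep z j) -
          ∑ j ∈ R, psi H (fun p => w (p.map z)) s((ep j).1, (ep j).2) ≤ ∑ j, |psi H w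
            s(z (ep j).1, z (ep j).2) - psi H (fun p => w (p.map z)) s((ep j).1, (ep j).2)| := by
        rw [← sum_sub_distrib]
        exact (sum_le_sum fun j _ => le_abs_self _).trans
          (sum_le_univ_sum_of_nonneg fun _ => abs_nonneg _)
      rw [Fintype.card_fin, mul_div_left_comm (L * b / _), ← h1, show ∀ x t : ℝ,
        L * b / H.edgeFinset.card * (H.edgeFinset.card * (x / b) - (H.edgeFinset.card - 1) * t) =
        L * x - L * b * (H.edgeFinset.card - 1) / H.edgeFinset.card * t from fun _ _ => by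
          field_simp] at e1
      rw [← Star_cnt hi, ← mul_assoc, div_mul_cancel₀ _ a0.ne', show ∀ x : ℝ, τ / aut H *
        (s ^ Fintype.card W * x - (Fintype.card W : ℝ) ^ 2 * s ^ (Fintype.card W - 1)) =
        x * (τ * s ^ Fintype.card W / aut H) - τ * s ^ Fintype.card W / aut H *
          ((Fintype.card W : ℝ) ^ 2 / s) from fun _ => by
          rw [← pow_sub_one_mul (show Fintype.card W ≠ 0 by omega) (s : ℝ)]
          field_simp] at e2
      simp only [mul_assoc τ, ← mul_sum]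
      linarith only [e1, e2, e3, e4, hL, mul_le_mul_of_nonneg_left e4 hL]
    · rw [expect_add_distrib, expect_add_distrib, Fintype.expect_const, ← mul_expect, ← mul_expect,
        expect_sum_comm]
      have e1 := mul_le_mul_of_nonneg_left (sum_le_card_nsmul univ _ _ fun j _ =>
        Star_psi (H := H) hw hδ (by omega) (by rwa [Fintype.card_fin]) (hne j)) hL
      have e2 := mul_le_mul_of_nonneg_left (Star_tH (ι := Fin s) (H := H) hw) k4
      have e3 := mul_le_mul_of_nonneg_right k2 (show 0 ≤ (Fintype.card W : ℝ) ^ 2 / s by positivity)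
      have e4 := mul_le_mul_of_nonneg_right (add_le_add hd hs') b0.le
      rw [card_univ, Fintype.card_fin, Fintype.card_fin, nsmul_eq_mul] at e1
      rw [Fintype.card_fin] at e2
      rw [show ∀ x : ℝ, (x + L * (2 * (Fintype.card W : ℝ) ^ 2 + 2 * Fintype.card W +
        (Fintype.card W : ℝ) ^ 2 / q0 ^ H.edgeFinset.card) / s) * b = x * b +
        L * b * (2 * ((Fintype.card W : ℝ) ^ 2 / s) + 2 * ((Fintype.card W : ℝ) / s)) +
        L / q0 ^ H.edgeFinset.card * b * ((Fintype.card W : ℝ) ^ 2 / s) from fun _ => by ring] at e4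
      linarith only [e1, e2, e3, e4]
  · have e := Star_cnt (H := H) hi univ
    simp only [ind_pos (subset_univ _), mul_one] at e
    rw [← mul_sum, e, mul_div_assoc]
    exact mul_le_mul_of_nonneg_left ((le_div_iff₀' a0).2 (h3 _).2) hτ

end Pool.Agent.Work.MP_d4a230_co.U
end

-- merged part: Pool.Agent.Work.MP_d4a230_co.U.Force
section
/-!
Near equality in the Sidorenko inequality forces almost regular degrees.
PLAN. Let ρ be the mean of w, d a the degree function, A = {a | ρ < d a}, g = ind (. ∈ A) - |A|/n,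
so the mean of g is 0, |g| <= 1 and irr = 2 * mean (g * d). If ρ <= δ/2 then irr <= 2ρ <= δ.
Otherwise apply the tangent inequality at the kernel u s(a,b) = ρ + γ (g a + g b) with a fixed small
γ = γ(δ,k) <= δ/4. Expansion lemma: |prod_{f in s} (ρ + b f) - ρ^|s| - ρ^(|s|-1) sum b f| <= 4^|s| c^2
if |b f| <= c <= 1, 0 <= ρ <= 1 (induction). tH u <= ρ^k + C γ^2 (ex_ord, mean of g is 0). By ord_psi
the pairing of w with psi u is ρ^k + ρ^(k-2) γ D mean(g d) + O(γ^2), where D is the average over edges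
e of the number of incidences of other edges with an end of e; each term is either mean(g d) or 0,
all are >= 0, and D >= 1/k since some two edges share a vertex (B.hk: k >= v >= 3, a matching has
fewer edges; or B.sys / Sys.mem_vs_erase). So tH w - ρ^k >= ρ^(k-2) γ irr / 2 - C' γ^2.
-/

namespace Pool.Agent.Work.MP_d4a230_co.U

open Finset Filter Topology Pool.Agent.Work.MP_07f1b5_pr
open scoped BigOperators


variable {W : Type} [Fintype W] [DecidableEq W] {H : SimpleGraph W} [DecidableRel H.Adj]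

lemma Force_exp {X : Type} [DecidableEq X] (s : Finset X) (b : X → ℝ) {ρ c : ℝ} (h0 : 0 ≤ ρ)
    (h1 : ρ ≤ 1) (hc : c ≤ 1) (hb : ∀ f, |b f| ≤ c) :
    |ρ * ∏ f ∈ s, (ρ + b f) - ρ ^ (s.card + 1) - ρ ^ s.card * ∑ f ∈ s, b f| ≤
      4 ^ s.card * c ^ 2 := by
  induction s using Finset.induction_on with
  | empty => simp; positivity
  | insert a s ha ih =>
    rw [prod_insert ha, sum_insert ha, card_insert_of_notMem ha]
    obtain ⟨Q, hQ⟩ : ∃ Q, Q = ρ * ∏ f ∈ s, (ρ + b f) - ρ ^ (s.card + 1) -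
      ρ ^ s.card * ∑ f ∈ s, b f := ⟨_, rfl⟩
    have e : ρ * ((ρ + b a) * ∏ f ∈ s, (ρ + b f)) - ρ ^ (s.card + 1 + 1) -
        ρ ^ (s.card + 1) * (b a + ∑ f ∈ s, b f) =
        (ρ + b a) * Q + b a * (ρ ^ s.card * ∑ f ∈ s, b f) := by rw [hQ]; ring
    rw [e]
    rw [← hQ] at ih
    have c0 : 0 ≤ c := (abs_nonneg _).trans (hb a)
    have e1 : |ρ + b a| ≤ 2 := by
      have := abs_le.1 (hb a)
      rw [abs_le]; constructor <;> linarith
    have e2 : |∑ f ∈ s, b f| ≤ s.card * c :=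
      (abs_sum_le_sum_abs _ _).trans (by simpa using sum_le_card_nsmul s _ c fun f _ => hb f)
    have e3 : (s.card : ℝ) ≤ 4 ^ s.card := by
      exact_mod_cast (Nat.lt_pow_self (by norm_num : 1 < 4)).le
    have e4 : |ρ ^ s.card * ∑ f ∈ s, b f| ≤ 4 ^ s.card * c := by
      rw [abs_mul, abs_of_nonneg (pow_nonneg h0 _)]
      exact (mul_le_of_le_one_left (abs_nonneg _) (pow_le_one₀ h0 h1)).trans
        (e2.trans (mul_le_mul_of_nonneg_right e3 c0))
    have e5 := mul_le_mul e1 ih (abs_nonneg _) (by norm_num)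
    have e6 := mul_le_mul (hb a) e4 (abs_nonneg _) c0
    have e7 : (0 : ℝ) ≤ 4 ^ s.card * c ^ 2 := by positivity
    refine (abs_add_le _ _).trans ?_
    rw [abs_mul, abs_mul (b a), pow_succ (4 : ℝ)]
    nlinarith only [e5, e6, e7]

section aux

variable {V : Type} [Fintype V] [DecidableEq V] [Nonempty V]

/-- The symmetric kernel of a vertex function. -/
def Force_G (g : V → ℝ) : Sym2 V → ℝ :=
  Sym2.lift ⟨fun a b => g a + g b, fun _ _ => add_comm _ _⟩

omit [DecidableEq V] in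
lemma Force_one (h : V → ℝ) (p : W) : 𝔼 x : W → V, h (x p) = 𝔼 a, h a := by
  rw [ex_update p]
  simp only [Function.update_self]
  exact Fintype.expect_const _

omit [DecidableEq V] in
lemma Force_T1 (w : Sym2 V → ℝ) (g : V → ℝ) {p q : W} (h : p ≠ q) :
    𝔼 x : W → V, w s(x p, x q) * g (x p) = 𝔼 a, (𝔼 b, w s(a, b)) * g a := by
  rw [ex_update q, ← Force_one (fun a => (𝔼 b, w s(a, b)) * g a) p]
  refine expect_congr rfl fun x _ => ?_
  simp only [Function.update_self, Function.update_of_ne h, expect_mul]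

omit [DecidableEq V] in
lemma Force_T0 (w : Sym2 V → ℝ) {g : V → ℝ} (hg : 𝔼 a, g a = 0)
    (hS : 0 ≤ 𝔼 a, (𝔼 b, w s(a, b)) * g a) {p q : W} (h : p ≠ q) (y : W) :
    0 ≤ 𝔼 x : W → V, w s(x p, x q) * g (x y) := by
  by_cases h1 : y = p
  · rw [h1, Force_T1 w g h]; exact hS
  by_cases h2 : y = q
  · rw [h2]
    simp only [fun x : W → V => Sym2.eq_swap (a := x p) (b := x q)]
    rw [Force_T1 w g h.symm]; exact hS
  rw [ex_update y]
  simp only [Function.update_self, Function.update_of_ne (Ne.symm h1),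
    Function.update_of_ne (Ne.symm h2), ← mul_expect, hg, mul_zero, expect_const_zero, le_refl]

omit [DecidableEq V] in
lemma Force_pair (B : HBal H) (w : Sym2 V → ℝ) {g : V → ℝ} (hg : 𝔼 a, g a = 0)
    (hS : 0 ≤ 𝔼 a, (𝔼 b, w s(a, b)) * g a) :
    𝔼 a, (𝔼 b, w s(a, b)) * g a ≤ ∑ e ∈ H.edgeFinset, ∑ f ∈ H.edgeFinset.erase e,
      𝔼 x : W → V, w (e.map x) * Force_G g (f.map x) := by
  have key : ∀ p q a b : W, 𝔼 x : W → V, w (s(p, q).map x) * Force_G g (s(a, b).map x) =
      (𝔼 x : W → V, w s(x p, x q) * g (x a)) + 𝔼 x : W → V, w s(x p, x q) * g (x b) := by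
    intro p q a b
    rw [← expect_add_distrib]
    refine expect_congr rfl fun x _ => ?_
    simp only [Sym2.map_mk, Force_G, Sym2.lift_mk, mul_add]
  have pos : ∀ e ∈ H.edgeFinset, ∀ f : Sym2 W,
      0 ≤ 𝔼 x : W → V, w (e.map x) * Force_G g (f.map x) := by
    intro e he f
    induction e using Sym2.ind with
    | h p q =>
      induction f using Sym2.ind with
      | h a b =>
        have h : p ≠ q := (SimpleGraph.mem_edgeFinset.1 he).ne
        rw [key]
        exact add_nonneg (Force_T0 w hg hS h a) (Force_T0 w hg hS h b)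
  obtain ⟨y, hy⟩ : ∃ y, 1 < H.degree y := by
    by_contra hc
    have h1 : ∑ y, H.degree y ≤ Fintype.card W := by
      simpa using sum_le_card_nsmul univ (fun y => H.degree y) 1
        fun y _ => not_lt.1 fun h => hc ⟨y, h⟩
    rw [SimpleGraph.sum_degrees_eq_twice_card_edges] at h1
    have := B.h3
    have := B.hk
    omega
  obtain ⟨p, hp, q, hq, hpq⟩ := one_lt_card.1 hy
  rw [SimpleGraph.mem_neighborFinset] at hp hq
  have he : s(y, p) ∈ H.edgeFinset := SimpleGraph.mem_edgeFinset.2 hp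
  have hf : s(y, q) ∈ H.edgeFinset.erase s(y, p) :=
    mem_erase.2 ⟨fun e => hpq (Sym2.congr_right.1 e).symm, SimpleGraph.mem_edgeFinset.2 hq⟩
  refine le_trans ?_ (single_le_sum (f := fun e : Sym2 W => ∑ f ∈ H.edgeFinset.erase e,
    𝔼 x : W → V, w (e.map x) * Force_G g (f.map x))
    (fun e h => sum_nonneg fun f _ => pos e h f) he)
  refine le_trans ?_ (single_le_sum (f := fun f : Sym2 W =>
    𝔼 x : W → V, w (s(y, p).map x) * Force_G g (f.map x)) (fun f _ => pos _ he f) hf)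
  rw [key, Force_T1 w g hp.ne]
  exact le_add_of_nonneg_right (Force_T0 w hg hS hp.ne q)

omit [Fintype V] [DecidableEq V] [Nonempty V] in
lemma Force_abs {g : V → ℝ} (hg : ∀ a, |g a| ≤ 1) {γ : ℝ} (h0 : 0 ≤ γ) (p : Sym2 V) :
    |γ * Force_G g p| ≤ 2 * γ := by
  induction p using Sym2.ind with
  | h a b =>
    rw [abs_mul, abs_of_nonneg h0, mul_comm]
    refine mul_le_mul_of_nonneg_right ((abs_add_le (g a) (g b)).trans ?_) h0
    linarith [hg a, hg b]

lemma Force_up {g : V → ℝ} (hg : 𝔼 a, g a = 0) (hg1 : ∀ a, |g a| ≤ 1) {ρ γ : ℝ} (h0 : 0 ≤ γ)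
    (h1 : 2 * γ ≤ ρ) (h2 : ρ ≤ 1) :
    ρ * tH H (fun p => ρ + γ * Force_G g p) ≤
      ρ ^ (H.edgeFinset.card + 1) + 4 ^ H.edgeFinset.card * (2 * γ) ^ 2 := by
  have z : ∀ f : Sym2 W, 𝔼 x : W → V, γ * Force_G g (f.map x) = 0 := by
    intro f
    induction f using Sym2.ind with
    | h a b =>
      simp only [Sym2.map_mk, Force_G, Sym2.lift_mk, ← mul_expect, expect_add_distrib,
        Force_one g, hg, add_zero, mul_zero]
  unfold tH
  rw [mul_expect]
  refine (ex_mono (g := fun x : W → V => (ρ ^ (H.edgeFinset.card + 1) +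
    4 ^ H.edgeFinset.card * (2 * γ) ^ 2) + ρ ^ H.edgeFinset.card *
      ∑ f ∈ H.edgeFinset, γ * Force_G g (f.map x)) fun x => ?_).trans (le_of_eq ?_)
  · have := (abs_le.1 (Force_exp H.edgeFinset (fun f => γ * Force_G g (f.map x)) (c := 2 * γ)
      (by linarith) h2 (by linarith) fun f => Force_abs hg1 h0 _)).2
    linarith
  · rw [expect_add_distrib, Fintype.expect_const, ← mul_expect, expect_sum_comm]
    simp only [z, sum_const_zero, mul_zero, add_zero]

lemma Force_low {w : Sym2 V → ℝ} (hw : Unit01 w) {g : V → ℝ} (hg1 : ∀ a, |g a| ≤ 1) {ρ γ : ℝ}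
    (h0 : 0 ≤ γ) (h1 : 2 * γ ≤ ρ) (h2 : ρ ≤ 1) (hρ : 𝔼 e, ord w e = ρ) {m : ℕ}
    (hm : H.edgeFinset.card = m + 1) {e : Sym2 W} (he : e ∈ H.edgeFinset) :
    ρ ^ (m + 1 + 1) - 4 ^ m * (2 * γ) ^ 2 + ρ ^ m * γ * ∑ f ∈ H.edgeFinset.erase e,
      𝔼 x : W → V, w (e.map x) * Force_G g (f.map x) ≤
      ρ * 𝔼 x : W → V, w (e.map x) *
        ∏ f ∈ H.edgeFinset.erase e, (ρ + γ * Force_G g (f.map x)) := by
  have hc : (H.edgeFinset.erase e).card = m := by rw [card_erase_of_mem he, hm]; rfl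
  have z : 𝔼 x : W → V, w (e.map x) = ρ := by
    induction e using Sym2.ind with
    | h p q =>
      rw [← hρ, ← ex_ord (SimpleGraph.mem_edgeFinset.1 he).ne w]
      simp only [Sym2.map_mk]
  rw [mul_expect _ _ ρ]
  refine (le_of_eq ?_).trans (ex_mono (f := fun x : W → V => ρ ^ (m + 1) * w (e.map x) -
    4 ^ m * (2 * γ) ^ 2 + ρ ^ m * γ * ∑ f ∈ H.edgeFinset.erase e,
      w (e.map x) * Force_G g (f.map x)) fun x => ?_)
  · rw [expect_add_distrib, expect_sub_distrib, Fintype.expect_const, ← mul_expect, ← mul_expect,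
      expect_sum_comm, z, ← pow_succ]
  · have e1 := (abs_le.1 (Force_exp (H.edgeFinset.erase e) (fun f => γ * Force_G g (f.map x))
      (c := 2 * γ) (by linarith only [h0, h1]) h2 (by linarith) fun f => Force_abs hg1 h0 _)).1
    rw [hc, ← mul_sum] at e1
    have e2 := mul_le_mul_of_nonneg_left e1 (hw (e.map x)).1
    have e3 := mul_le_mul_of_nonneg_right (hw (e.map x)).2
      (by positivity : (0 : ℝ) ≤ 4 ^ m * (2 * γ) ^ 2)
    rw [← mul_sum]
    linarith

end aux

lemma Force_core (B : HBal H) (hT : Tangent H) {n : ℕ} [Nonempty (Fin n)] {w : Sym2 (Fin n) → ℝ}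
    (hw : Unit01 w) {g : Fin n → ℝ} (hg : 𝔼 a, g a = 0) (hg1 : ∀ a, |g a| ≤ 1)
    (hS : 0 ≤ 𝔼 a, (𝔼 b, w s(a, b)) * g a) {ρ γ : ℝ} (h0 : 0 ≤ γ) (h1 : 2 * γ ≤ ρ) (h2 : ρ ≤ 1)
    (hρ : 𝔼 e, ord w e = ρ) {m : ℕ} (hm : H.edgeFinset.card = m + 1) :
    ρ ^ m * γ * 𝔼 a, (𝔼 b, w s(a, b)) * g a ≤
      ρ * (tH H w - ρ ^ (m + 1)) + (2 * m + 1) * (4 ^ (m + 1) * (2 * γ) ^ 2) := by
  have r0 : 0 ≤ ρ := by linarith only [h0, h1]
  have t := hT n (fun p => ρ + γ * Force_G g p) w (fun p => by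
    have := (abs_le.1 (Force_abs hg1 h0 p)).1
    linarith) fun p => (hw p).1
  rw [ord_psi, ex_dart H fun e => 𝔼 x : W → Fin n, w (e.map x) *
    ∏ f ∈ H.edgeFinset.erase e, (ρ + γ * Force_G g (f.map x)), mul_div_cancel₀ _ (by
      rw [hm]; positivity)] at t
  have u := Force_up (H := H) hg hg1 h0 h1 h2
  have l := sum_le_sum fun e (he : e ∈ H.edgeFinset) => Force_low hw hg1 h0 h1 h2 hρ hm he
  rw [sum_add_distrib, sum_const, nsmul_eq_mul, ← mul_sum, ← mul_sum] at l
  have p := mul_le_mul_of_nonneg_left (Force_pair B w hg hS)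
    (by positivity : 0 ≤ ρ ^ m * γ)
  have t' := mul_le_mul_of_nonneg_left t r0
  rw [hm] at t' u l
  push_cast at t' l
  have u' := mul_le_mul_of_nonneg_left u (Nat.cast_nonneg (α := ℝ) m)
  have q : (0 : ℝ) ≤ (m + 1) * (4 ^ m * (2 * γ) ^ 2) := by positivity
  rw [pow_succ (4 : ℝ)] at u' ⊢
  rw [pow_succ ρ (m + 1)] at u' l
  linarith only [p, t', l, u', q]

theorem force (B : HBal H) (hT : Tangent H) {δ : ℝ} (hδ : 0 < δ) : ∃ C : ℝ, 0 ≤ C ∧
    ∀ (n : ℕ) (w : Sym2 (Fin n) → ℝ), Unit01 w →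
      irr (ord w) ≤ δ + C * (tH H w - (𝔼 e, ord w e) ^ H.edgeFinset.card) := by
  obtain ⟨m, hm⟩ : ∃ m, H.edgeFinset.card = m + 1 :=
    ⟨H.edgeFinset.card - 1, by have := B.h3; have := B.hk; omega⟩
  obtain ⟨r, hr⟩ : ∃ r : ℝ, r = (δ / 2) ^ m := ⟨_, rfl⟩
  obtain ⟨A, hA⟩ : ∃ A : ℝ, A = (2 * m + 1) * 4 ^ (m + 1) * 4 := ⟨_, rfl⟩
  have r0 : 0 < r := by rw [hr]; positivity
  have A0 : 0 < A := by rw [hA]; positivity
  obtain ⟨γ, g0, g1, g2⟩ : ∃ γ : ℝ, 0 < γ ∧ γ ≤ δ / 4 ∧ A * γ ≤ δ ^ 2 * r :=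
    ⟨min (δ / 4) (δ ^ 2 * r / A), by positivity, min_le_left _ _,
      (le_div_iff₀' A0).1 (min_le_right _ _)⟩
  refine ⟨1 / (2 * δ * r * γ), by positivity, fun n w hw => ?_⟩
  have gap := sub_nonneg.2 (sidorenko hT (by omega) fun e => (hw e).1)
  obtain ⟨ρ, hρ⟩ : ∃ ρ : ℝ, 𝔼 e, ord w e = ρ := ⟨_, rfl⟩
  have ρ0 : 0 ≤ ρ := hρ ▸ expect_nonneg fun e _ => (hw _).1
  have ρ1 : ρ ≤ 1 := hρ ▸ ex_le zero_le_one fun e => (hw _).2
  have d0 : ∀ a, 0 ≤ 𝔼 b, w s(a, b) := fun a => expect_nonneg fun e _ => (hw _).1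
  have d1 : ∀ a, 𝔼 b, w s(a, b) ≤ 1 := fun a => ex_le zero_le_one fun e => (hw _).2
  have dm : 𝔼 a, 𝔼 b, w s(a, b) = ρ := by rw [← hρ, ex_prod]; rfl
  have ei : irr (ord w) = 𝔼 a, |(𝔼 b, w s(a, b)) - ρ| := by rw [← hρ]; rfl
  rw [hρ, hm] at gap
  rw [hρ, hm, ei]
  by_cases hc : ρ ≤ δ / 2
  · have e1 : 𝔼 a, |(𝔼 b, w s(a, b)) - ρ| ≤ 𝔼 a, ((𝔼 b, w s(a, b)) + ρ) :=
      ex_mono fun a => abs_le.2 ⟨by linarith only [d0 a], by linarith [d0 a]⟩
    rw [expect_add_distrib, dm] at e1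
    have e2 : 𝔼 _a : Fin n, ρ ≤ ρ := ex_le ρ0 fun _ => le_rfl
    have e3 : 0 ≤ 1 / (2 * δ * r * γ) * (tH H w - ρ ^ (m + 1)) := by positivity
    linarith only [hc, e1, e2, e3]
  rw [not_le] at hc
  have ne : Nonempty (Fin n) := by
    by_contra h
    rw [not_nonempty_iff] at h
    rw [univ_eq_empty, expect_empty] at dm
    linarith only [g0, g1, dm, hc]
  have hg : 𝔼 a, ((𝔼 b, w s(a, b)) - ρ) = 0 := by
    rw [expect_sub_distrib, dm, Fintype.expect_const, sub_self]
  have hS : 𝔼 a, (𝔼 b, w s(a, b)) * ((𝔼 b, w s(a, b)) - ρ) =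
      𝔼 a, ((𝔼 b, w s(a, b)) - ρ) ^ 2 := by
    rw [← add_zero (𝔼 a, ((𝔼 b, w s(a, b)) - ρ) ^ 2), ← mul_zero ρ, ← hg, mul_expect,
      ← expect_add_distrib]
    exact expect_congr rfl fun a _ => by ring
  have S0 : 0 ≤ 𝔼 a, ((𝔼 b, w s(a, b)) - ρ) ^ 2 := expect_nonneg fun a _ => sq_nonneg _
  have core := Force_core B hT hw hg
    (fun a => abs_le.2 ⟨by linarith only [ρ1, d0 a], by linarith only [g0, g1, hc, d1 a]⟩) (hS ▸ S0) g0.le (by linarith only [g1, hc])
    ρ1 hρ hm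
  rw [hS] at core
  have e1 : 𝔼 a, |(𝔼 b, w s(a, b)) - ρ| ≤
      𝔼 a, (δ / 2 + 1 / (2 * δ) * ((𝔼 b, w s(a, b)) - ρ) ^ 2) := ex_mono fun a => by
    rw [← sq_abs, ← sub_nonneg, show δ / 2 + 1 / (2 * δ) * |(𝔼 b, w s(a, b)) - ρ| ^ 2 -
      |(𝔼 b, w s(a, b)) - ρ| = 1 / (2 * δ) * (|(𝔼 b, w s(a, b)) - ρ| - δ) ^ 2 by
        field_simp; ring]
    positivity
  rw [expect_add_distrib, Fintype.expect_const, ← mul_expect] at e1
  generalize (𝔼 a, ((𝔼 b, w s(a, b)) - ρ) ^ 2) = S at S0 core e1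
  generalize tH H w - ρ ^ (m + 1) = t at gap core ⊢
  have e2 : r * γ * S ≤ ρ ^ m * γ * S := by
    rw [hr]
    gcongr
  have e3 : ρ * t ≤ t := mul_le_of_le_one_left gap ρ1
  have e4 := mul_le_mul_of_nonneg_right g2 g0.le
  have e5 : r * γ * S ≤ t + δ ^ 2 * r * γ := by
    rw [hA] at e4
    linarith only [core, e2, e3, e4]
  have e6 : 1 / (2 * δ) * S ≤ δ / 2 + 1 / (2 * δ * r * γ) * t := by
    rw [show 1 / (2 * δ) * S = 1 / (2 * δ * r * γ) * (r * γ * S) by field_simp,
      show δ / 2 + 1 / (2 * δ * r * γ) * t = 1 / (2 * δ * r * γ) * (t + δ ^ 2 * r * γ) by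
        field_simp; ring]
    gcongr
  linarith only [e1, e6]

end Pool.Agent.Work.MP_d4a230_co.U
end
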