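import Pool.Agent.Work.MP_d4a230_co.U.SDefs
import Pool.Agent.Work.MP_d4a230_co.HMain
import Pool.Agent.Work.MP_d4a230_co.KCount0

-- merged part: Pool.Agent.Work.MP_d4a230_co.U.Ov
section
-- merged part: Pool.Agent.Work.MP_d4a230_co.U.Defs
section
/-!
Definitions for the universality theorem (paper proof: h96_d4a230_univ.md in the team store).
`E p`, `Ex p`, `ind`, `copies`, `img`, `aut`, `HBal` come from the landed library.
-/

namespace Pool.Agent.Work.MP_d4a230_co.U

open Finset Filter Topology Pool.Agent.Work.MP_07f1b5_pr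
open scoped BigOperators

section kernels

variable {V : Type} [Fintype V] [DecidableEq V]

/-- A symmetric kernel read on ordered pairs. -/
def ord (w : Sym2 V → ℝ) (e : V × V) : ℝ := w s(e.1, e.2)

/-- Values in the unit interval. -/
def Unit01 {X : Type} (w : X → ℝ) : Prop := ∀ e, 0 ≤ w e ∧ w e ≤ 1

/-- Cut test. -/
noncomputable def ct (t : Finset V × Finset V) (e : V × V) : ℝ :=
  ind (e.1 ∈ t.1) * ind (e.2 ∈ t.2)

/-- Cut norm. -/
noncomputable def cut (f : V × V → ℝ) : ℝ :=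
  univ.sup' univ_nonempty fun t : Finset V × Finset V => |𝔼 e, f e * ct t e|

/-- Multiplicity with which the unordered pair `p` covers the ordered pair `e`. -/
noncomputable def hit (p : Sym2 V) (e : V × V) : ℝ :=
  ind (p = s(e.1, e.2)) * (1 + ind (e.1 = e.2))

/-- Normalised density of the variables in `R`. -/
noncomputable def den {I : Type} [Fintype I] (sp : I → Sym2 V) (R : Finset I) (e : V × V) : ℝ :=
  (Fintype.card V : ℝ) ^ 2 / (2 * Fintype.card I) * ∑ i ∈ R, hit (sp i) e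

/-- Degree irregularity of a function on ordered pairs. -/
noncomputable def irr (f : V × V → ℝ) : ℝ :=
  𝔼 a : V, |(𝔼 b : V, f (a, b)) - 𝔼 e : V × V, f e|

/-- Truncation to the unit interval. -/
noncomputable def clip (x : ℝ) : ℝ := max 0 (min x 1)

/-- A signed sum of `2 m ^ 2 + 1` tests with step `1 / m`. -/
noncomputable def bsum {X T : Type} (m : ℕ) (φ : T → X → ℝ)
    (c : Fin (2 * m ^ 2 + 1) → Bool × T) (e : X) : ℝ :=
  1 / (m : ℝ) * ∑ j, if (c j).1 then φ (c j).2 e else -φ (c j).2 e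

/-- Index type of the class of model kernels. -/
abbrev CI (V : Type) (m : ℕ) : Type := Fin (2 * m ^ 2 + 1) → Bool × (Finset V × Finset V)

/-- The model kernel with index `c`. -/
noncomputable def ck (m : ℕ) (c : CI V m) : Sym2 V → ℝ :=
  Sym2.lift ⟨fun a b => (clip (bsum m ct c (a, b)) + clip (bsum m ct c (b, a))) / 2,
    fun _ _ => congrArg (· / 2) (add_comm _ _)⟩

/-- Index of a model kernel closest to `f` in cut norm. -/
noncomputable def best (m : ℕ) (f : V × V → ℝ) : CI V m :=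
  Classical.choose (Finite.exists_min fun c : CI V m => cut fun e => f e - ord (ck m c) e)

lemma best_le (m : ℕ) (f : V × V → ℝ) (c : CI V m) :
    cut (fun e => f e - ord (ck m (best m f)) e) ≤ cut fun e => f e - ord (ck m c) e :=
  Classical.choose_spec (Finite.exists_min fun c : CI V m => cut fun e => f e - ord (ck m c) e) c

/-- The best model kernel. -/
noncomputable def bk (m : ℕ) (f : V × V → ℝ) : Sym2 V → ℝ := ck m (best m f)

variable {W : Type} [Fintype W] [DecidableEq W] (H : SimpleGraph W) [DecidableRel H.Adj]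

/-- Homomorphism density. -/
noncomputable def tH (w : Sym2 V → ℝ) : ℝ := 𝔼 x : W → V, ∏ f ∈ H.edgeFinset, w (f.map x)

/-- Density of `H` minus the edge of the dart `d`, rooted at `(a, b)`. -/
noncomputable def rt (w : Sym2 V → ℝ) (d : H.Dart) (a b : V) : ℝ :=
  𝔼 x : W → V, ∏ f ∈ H.edgeFinset.erase d.edge,
    w (f.map (Function.update (Function.update x d.fst a) d.snd b))

/-- Average rooted density. -/
noncomputable def psi (w : Sym2 V → ℝ) : Sym2 V → ℝ :=
  Sym2.lift ⟨fun a b => ((𝔼 d : H.Dart, rt H w d a b) + 𝔼 d : H.Dart, rt H w d b a) / 2,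
    fun _ _ => congrArg (· / 2) (add_comm _ _)⟩

/-- The tangent inequality on every finite set. -/
def Tangent : Prop :=
  ∀ (n : ℕ) (w u : Sym2 (Fin n) → ℝ), (∀ e, 0 ≤ w e) → (∀ e, 0 ≤ u e) →
    (H.edgeFinset.card : ℝ) * (𝔼 e, ord u e * ord (psi H w) e) -
      ((H.edgeFinset.card : ℝ) - 1) * tH H w ≤ tH H u

end kernels

section structures

variable {V VB EB : Type} [Fintype V] [DecidableEq V] [Fintype VB] [DecidableEq VB] [Fintype EB]
  [DecidableEq EB] (eb : EB → VB × VB)

/-- Image of an oriented edge. -/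
def exf (x : VB → V) (f : EB) : V × V := (x (eb f).1, x (eb f).2)

/-- Put the endpoints of `f` at `e`. -/
def upd (f : EB) (x : VB → V) (e : V × V) : VB → V :=
  Function.update (Function.update x (eb f).1 e.1) (eb f).2 e.2

/-- Multilinear counting form. -/
noncomputable def Lam (D : (VB → V) → ℝ) (a : EB → V × V → ℝ) : ℝ :=
  𝔼 x : VB → V, D x * ∏ f, a f (exf eb x f)

/-- The counting form with the edge `f` removed and its ends put at `e`. -/
noncomputable def cnv (f : EB) (D : (VB → V) → ℝ) (a : EB → V × V → ℝ) (e : V × V) : ℝ :=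
  𝔼 x : VB → V, D (upd eb f x e) * ∏ g ∈ univ.erase f, a g (exf eb (upd eb f x e) g)

/-- Empirical measure of `K` sample points per edge. -/
noncomputable def smp (Q : ℝ) (K : ℕ) (T : EB → Fin K → Option (V × V)) (g : EB) (e : V × V) : ℝ :=
  Q * (Fintype.card V : ℝ) ^ 2 / K * ∑ j, ind (T g j = some e)

/-- Truncated test built from sample points. -/
noncomputable def nt (Q Mx : ℝ) (K : ℕ) (f : EB) (D : (VB → V) → ℝ)
    (T : EB → Fin K → Option (V × V)) (e : V × V) : ℝ :=
  min (cnv eb f D (smp Q K T) e) Mx / Mx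

/-- All tests used for the edge `f`: truncated sampled tests and cut tests. -/
noncomputable def tests (Q Mx : ℝ) (K : ℕ) (f : EB) (D : (VB → V) → ℝ) :
    (EB → Fin K → Option (V × V)) ⊕ (Finset V × Finset V) → V × V → ℝ :=
  Sum.elim (nt eb Q Mx K f D) ct

/-- Second moment functional. -/
noncomputable def S2 (f : EB) (ν : EB → V × V → ℝ) (κ : ℝ) : ℝ :=
  𝔼 e : V × V, 𝔼 x : VB → V, 𝔼 x' : VB → V, ν f e * ∏ g ∈ univ.erase f,
    (ν g (exf eb (upd eb f x e) g) * ν g (exf eb (upd eb f x' e) g) +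
      κ * ν g (exf eb (upd eb f x e) g) * ind (exf eb (upd eb f x e) g = exf eb (upd eb f x' e) g))

/-- Vertices covered by a set of edges. -/
def vset (F : Finset EB) : Finset VB := F.biUnion fun g => {(eb g).1, (eb g).2}

/-- Density condition with polynomial room (`v` vertices and `k` edges in `H`). -/
def DC (v k : ℕ) : Prop :=
  (∀ f, (eb f).1 ≠ (eb f).2) ∧ ∀ (f : EB) (F : Finset EB), f ∉ F → F.Nonempty →
    (v - 2) * F.card < (k - 1) * (vset eb F \ vset eb {f}).card

/-- A weight in the unit interval that ignores one end of every edge. -/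
def RootFn (D : (VB → V) → ℝ) : Prop :=
  Unit01 D ∧ ∀ f, (∀ x a, D (Function.update x (eb f).1 a) = D x) ∨
    ∀ x a, D (Function.update x (eb f).2 a) = D x

/-- Normalised count of the structure with variables in distinct components. -/
noncomputable def Cnt {G β : Type} [Fintype G] [DecidableEq G] [Fintype β] [DecidableEq β]
    (sp : G × β → Sym2 V) (D : (VB → V) → ℝ) (T : EB → Finset (G × β)) : ℝ :=
  ((Fintype.card V : ℝ) ^ 2 / (2 * Fintype.card (G × β))) ^ Fintype.card EB *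
    𝔼 x : VB → V, D x * ∑ ι : EB → G × β, ind (Function.Injective fun f => (ι f).1) *
      ∏ f, ind (ι f ∈ T f) * hit (sp (ι f)) (exf eb x f)

end structures

section gibbs

/-- Gibbs average over `r` replicas. -/
noncomputable def gib {S : Type} [Fintype S] (r : ℕ) (w : S → ℝ) (F : (Fin r → S) → ℝ) : ℝ :=
  (∑ σ : Fin r → S, (∏ l, w (σ l)) * F σ) / (∑ s, w s) ^ r

variable {I : Type} [Fintype I] [DecidableEq I]

/-- Intersection of the replicas. -/
def cap {r : ℕ} (σ : Fin r → Finset I) : Finset I := univ.inf σ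

/-- Weight of the active constraints `A` with supports `sup`. -/
noncomputable def cw {X : Type} (θ : ℝ) (sup : X → Finset I) (A : Finset X) (σ : Finset I) : ℝ :=
  ∏ c ∈ A, (1 - θ * ind (sup c ⊆ σ))

/-- Free energy of position-free constraints with probabilities `p`. -/
noncomputable def FV {X : Type} [Fintype X] [DecidableEq X] (θ : ℝ) (p : X → ℝ)
    (sup : X → Finset I) (U : Finset I → ℝ) : ℝ :=
  Ex p fun A => Real.log (∑ σ, U σ * cw θ sup A σ)

/-- Admissible background weight. -/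
def Good (lam : ℝ) (U : Finset I → ℝ) : Prop :=
  (∀ σ, 0 ≤ U σ) ∧ 0 < U ∅ ∧ ∀ σ i, U (insert i σ) ≤ lam * U (σ.erase i)

/-- Plain fugacity weight. -/
noncomputable def fug (lam : ℝ) (σ : Finset I) : ℝ := lam ^ σ.card

/-- Free energy of the binomial `k`-uniform hypergraph on `N` vertices with mean degree `L`. -/
noncomputable def FU (k : ℕ) (L lam θ : ℝ) (N : ℕ) : ℝ :=
  FV θ (fun C : Finset (Fin N) => L / ((N - 1).choose (k - 1) : ℝ) * ind (C.card = k)) id (fug lam)

variable {V G : Type} [Fintype V] [DecidableEq V] [DecidableEq G]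
  {W : Type} [Fintype W] [DecidableEq W] (H : SimpleGraph W) [DecidableRel H.Adj]

/-- `C` is a set of variables in distinct components whose positions form a copy of `H`. -/
def Acd (sp : I → Sym2 V) (cp : I → G) (C : Finset I) : Prop :=
  C.image sp ∈ copies H V ∧ C.card = H.edgeFinset.card ∧ Set.InjOn cp C

/-- Weight of the active accidental constraints. -/
noncomputable def aw (θ : ℝ) (sp : I → Sym2 V) (cp : I → G) (act : Finset (Finset I))
    (σ : Finset I) : ℝ :=
  ∏ C ∈ act, (1 - θ * ind (Acd H sp cp C ∧ C ⊆ σ))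

/-- Free energy for fixed positions. -/
noncomputable def LZ (θ τ : ℝ) (sp : I → Sym2 V) (cp : I → G) (U : Finset I → ℝ) : ℝ :=
  E τ fun act => Real.log (∑ σ, U σ * aw H θ sp cp act σ)

/-- Mean number of constraints at a variable. -/
noncomputable def rate (n N : ℕ) (τ : ℝ) : ℝ :=
  τ * (2 * H.edgeFinset.card / aut H) * (n : ℝ) ^ (Fintype.card W - 2) *
    (2 * (N : ℝ) / (n : ℝ) ^ 2) ^ (H.edgeFinset.card - 1)

end gibbs

section model

variable {V G α β : Type} [Fintype V] [DecidableEq V] [Fintype G] [DecidableEq G] [Fintype α]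
  [DecidableEq α] [Fintype β] [DecidableEq β]
  {W : Type} [Fintype W] [DecidableEq W] (H : SimpleGraph W) [DecidableRel H.Adj]

/-- Position of the slot `j` of a component placed by `z`. -/
def sl (ep : β → α × α) (z : α → V) (j : β) : Sym2 V := s(z (ep j).1, z (ep j).2)

/-- Positions of all variables. -/
def sp (ep : β → α × α) (y : G → α → V) (i : G × β) : Sym2 V := sl ep (y i.1) i.2

/-- The layer of colour `q`. -/
def lay {Q : Type} [DecidableEq Q] (β : Type) [Fintype β] (l : G → Q) (q : Q) : Finset (G × β) :=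
  univ.filter fun i => l i.1 = q

/-- `C` has a variable in the component `g`. -/
def Tch (g : G) (C : Finset (G × β)) : Prop := ∃ j, (g, j) ∈ C

/-- Weight of a configuration. -/
noncomputable def Wt (θ : ℝ) (ep : β → α × α) (U : Finset (G × β) → ℝ) (y : G → α → V)
    (act : Finset (Finset (G × β))) (σ : Finset (G × β)) : ℝ :=
  U σ * aw H θ (sp ep y) Prod.fst act σ

/-- Weight of the active accidental constraints that touch the component `g`. -/
noncomputable def awg (θ : ℝ) (ep : β → α × α) (g : G) (y : G → α → V)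
    (act : Finset (Finset (G × β))) (σ : Finset (G × β)) : ℝ :=
  ∏ C ∈ act, (1 - θ * ind (Acd H (sp ep y) Prod.fst C ∧ Tch g C ∧ C ⊆ σ))

/-- Free energy of the pattern model on `V`. -/
noncomputable def FE (V : Type) [Fintype V] [DecidableEq V] (θ τ : ℝ) (ep : β → α × α)
    (U : Finset (G × β) → ℝ) : ℝ :=
  𝔼 y : G → α → V, LZ H θ τ (sp ep y) Prod.fst U

/-- Disorder average of a Gibbs average. -/
noncomputable def EG (θ τ : ℝ) (ep : β → α × α) (U : Finset (G × β) → ℝ) (r : ℕ)
    (F : (G → α → V) → Finset (Finset (G × β)) → (Fin r → Finset (G × β)) → ℝ) : ℝ :=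
  𝔼 y : G → α → V, E τ fun act => gib r (Wt H θ ep U y act) (F y act)

/-- The accidental term of the derivative of the interpolated free energy. -/
noncomputable def AccR (V : Type) [Fintype V] [DecidableEq V] (θ τ t : ℝ) (ep : β → α × α)
    (U : Finset (G × β) → ℝ) (r : ℕ) : ℝ :=
  EG H θ (t * τ) ep U r fun (y : G → α → V) act σ => ∑ C : Finset (G × β),
    τ / (1 - t * τ) * ind (Acd H (sp ep y) Prod.fst C ∧ C ∉ act ∧ C ⊆ cap σ)

/-- Weighted number of accidental constraints at the component `g`. -/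
noncomputable def XT (τ : ℝ) (ep : β → α × α) (g : G) (y : G → α → V) : ℝ :=
  ∑ C : Finset (G × β), τ * ind (Acd H (sp ep y) Prod.fst C ∧ Tch g C)

/-- Multilinear mark of a constraint at the component `g`. -/
noncomputable def mrk {S : Type} [Fintype S] (ep : β → α × α) (g : G) (η : β → S → ℝ)
    (T : S → Finset (G × β)) (y : G → α → V) (C : Finset (G × β)) : ℝ :=
  ind (Acd H (sp ep y) Prod.fst C) *
    ∑ j, ind ((g, j) ∈ C) * ∑ s, η j s * ind (C.erase (g, j) ⊆ T s)

/-- Dense intensity of the marks. -/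
noncomputable def inten {S : Type} [Fintype S] (ep : β → α × α) (η : β → S → ℝ)
    (w : S → Sym2 V → ℝ) (z : α → V) : ℝ :=
  ∑ j, ∑ s, η j s * psi H (w s) (sl ep z j)

/-- Background weight with virtual constraints. -/
noncomputable def UV {I X : Type} [DecidableEq I] (lam θ : ℝ) (sup : X → Finset I) (A : Finset X)
    (σ : Finset I) : ℝ :=
  fug lam σ * cw θ sup A σ

/-- Interpolated free energy. -/
noncomputable def FI (V : Type) [Fintype V] [DecidableEq V] {X : Type} [Fintype X] [DecidableEq X]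
    (lam θ τ : ℝ) (ep : β → α × α) (π : X → ℝ) (sup : X → Finset (G × β)) (t : ℝ) : ℝ :=
  Ex (fun c => (1 - t) * π c) fun A => FE H V θ (t * τ) ep (UV lam θ sup A)

/-- Accidental minus virtual statistic of order `r`. -/
noncomputable def DR (V : Type) [Fintype V] [DecidableEq V] {X : Type} [Fintype X] [DecidableEq X]
    (lam θ τ : ℝ) (ep : β → α × α) (π : X → ℝ) (sup : X → Finset (G × β)) (t : ℝ) (r : ℕ) : ℝ :=
  Ex (fun c => (1 - t) * π c) fun A => AccR H V θ τ t ep (UV lam θ sup A) r -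
    EG H θ (t * τ) ep (UV lam θ sup A) r fun (_ : G → α → V) _ σ =>
      ∑ c, π c * ind (sup c ⊆ cap σ)

/-- The pattern of a single free pair. -/
def ep1 : Unit → Bool × Bool := fun _ => (false, true)

/-- The pattern of parallel variables. -/
def epP (β : Type) : β → Bool × Bool := fun _ => (false, true)

/-- The matching pattern. -/
def epM (β : Type) : β → (β × Bool) × (β × Bool) := fun j => ((j, false), (j, true))

/-- A pattern together with a matching pattern of the same size. -/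
def epS (ep : β → α × α) : β ⊕ β → (α ⊕ β × Bool) × (α ⊕ β × Bool) :=
  Sum.elim (fun j => (Sum.inl (ep j).1, Sum.inl (ep j).2))
    fun j => (Sum.inr (j, false), Sum.inr (j, true))

/-- The asymptotic regime. -/
structure Reg (ep : β → α × α) (n M : ℕ → ℕ) (τ : ℕ → ℝ) : Prop where
  bal : HBal H
  nb : Nonempty β
  ne : ∀ j, (ep j).1 ≠ (ep j).2
  hn : Tendsto n atTop atTop
  t01 : ∀ᶠ j in atTop, 0 ≤ τ j ∧ τ j ≤ 1
  lo : ∃ c : ℝ, 0 < c ∧ ∀ᶠ j in atTop, c ≤ (n j : ℝ) ^ (Fintype.card W - 2) *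
    (2 * ((M j * Fintype.card β : ℕ) : ℝ) / (n j : ℝ) ^ 2) ^ (H.edgeFinset.card - 1)
  hi : ∃ c : ℝ, ∀ᶠ j in atTop, rate H (n j) (M j * Fintype.card β) (τ j) ≤ c
  sm : (Function.Injective fun j => s((ep j).1, (ep j).2)) ∨ Tendsto τ atTop (𝓝 0)

/-- The gadget inequality. -/
def GadI (ep : β → α × α) (π : Finset β → ℝ) (L ε : ℝ) : Prop :=
  ∀ (n : ℕ) (w : Sym2 (Fin n) → ℝ), 0 < n → Unit01 w →
    (𝔼 z : α → Fin n, univ.sup' univ_nonempty fun R : Finset β =>
      L * ∑ j ∈ R, psi H w (sl ep z j) - ∑ C, π C * ind (C ⊆ R)) ≤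
    L * Fintype.card β * ((H.edgeFinset.card : ℝ) - 1) / H.edgeFinset.card * tH H w +
      ε * Fintype.card β

/-- Vertex map of a piece of a bunch: the ends of the dart go to the ends of the slot. -/
def vm {m : ℕ} (ep : β → α × α) (j : Fin m → β) (d : Fin m → H.Dart) (l : Fin m) (u : W) :
    α ⊕ Fin m × W :=
  if u = (d l).fst then Sum.inl (ep (j l)).1 else if u = (d l).snd then Sum.inl (ep (j l)).2
    else Sum.inr (l, u)

/-- Edges of a bunch. -/
abbrev BE {m : ℕ} (d : Fin m → H.Dart) : Type :=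
  Σ l : Fin m, {f : Sym2 W // f ∈ H.edgeFinset.erase (d l).edge}

/-- Endpoints of the edges of a bunch. -/
noncomputable def beb {m : ℕ} (ep : β → α × α) (j : Fin m → β) (d : Fin m → H.Dart)
    (f : BE H d) : (α ⊕ Fin m × W) × (α ⊕ Fin m × W) :=
  (vm H ep j d f.1 f.2.1.out.1, vm H ep j d f.1 f.2.1.out.2)

/-- Tuples of accidental constraints at given slots of `g` that share no other component. -/
noncomputable def DT {m : ℕ} (ep : β → α × α) (g : G) (j : Fin m → β)
    (T : Fin m → Finset (G × β)) (y : G → α → V) : ℝ :=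
  ∑ c : Fin m → Finset (G × β),
    ind (∀ l, Acd H (sp ep y) Prod.fst (c l) ∧ (g, j l) ∈ c l ∧ (c l).erase (g, j l) ⊆ T l) *
      ind (∀ l l', l ≠ l' → ∀ i ∈ c l, ∀ i' ∈ c l', i.1 = i'.1 → i.1 = g)

/-- Model kernel of the part of `R` in the layer `true`. -/
noncomputable def wl (m : ℕ) (ep : β → α × α) (y : G → α → V) (l : G → Bool)
    (R : Finset (G × β)) : Sym2 V → ℝ :=
  bk m fun e => 2 * den (sp ep y) (R ∩ lay β l true) e

/-- Weight felt by the variable `i`. -/
noncomputable def Xi (θ : ℝ) (ep : β → α × α) (i : G × β) (y : G → α → V)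
    (act : Finset (Finset (G × β))) (σ : Finset (G × β)) : ℝ :=
  ∏ C ∈ act, (1 - θ * ind (Acd H (sp ep y) Prod.fst C ∧ i ∈ C ∧ C.erase i ⊆ σ))

/-- Dense version of a product of `r` weights `Xi`. -/
noncomputable def zeta (θ ρ : ℝ) {r : ℕ} (w : Finset (Fin r) → Sym2 V → ℝ) (p : Sym2 V) : ℝ :=
  Real.exp (-(ρ * ∑ S : Finset (Fin r),
    ind S.Nonempty * (-1) ^ (S.card + 1) * θ ^ S.card * psi H (w S) p))

/-- Elementary symmetric sum. -/
noncomputable def es {X : Type} [Fintype X] (m : ℕ) (a : X → ℝ) : ℝ :=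
  (∑ c : Fin m → X, ind (Function.Injective c) * ∏ l, a (c l)) / m.factorial

/-- The positions of single variables are distinct proper pairs. -/
def Inj {N : ℕ} (y : Fin N → Bool → V) : Prop :=
  Function.Injective (sp ep1 y) ∧ ∀ g, y g false ≠ y g true

/-- Largest value of size minus `K` times irregularity over constraint-free sets of variables. -/
noncomputable def fK (K : ℝ) {N : ℕ} (y : Fin N → Bool → V) : ℝ :=
  univ.sup' univ_nonempty fun R : Finset (Fin N × Unit) =>
    ind (∀ C, Acd H (sp ep1 y) Prod.fst C → ¬ C ⊆ R) *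
      ((R.card : ℝ) / N - K * irr (den (sp ep1 y) R))

end model

end Pool.Agent.Work.MP_d4a230_co.U
end

-- merged part: Pool.Agent.Work.MP_d4a230_co.U.P1
section
/-!
Uniform averages over product spaces, and the basic facts on hit and den.
PLAN. ex_resample: the map (y, y') to (S.piecewise y y', S.piecewise y' y) is an involution of
pairs (Fintype.expect_equiv, expect_product). ex_update: similar with (y, a) to (update y i a, y i).
ex_comp_inj: split B into the range of e and its complement (Equiv.piEquivPiSubtypeProd,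
Equiv.ofInjective) or induct. ex_prod_indep: induction on s with ex_resample for S j.
ex_prod_coord: Finset.prod_univ_sum and Fintype.card_pi. sum_hit: induct on the pair p = s(a,b);
if a = b only e = (a,a) counts with factor 2, otherwise (a,b) and (b,a).
-/

namespace Pool.Agent.Work.MP_d4a230_co.U

open Finset Filter Topology Pool.Agent.Work.MP_07f1b5_pr
open scoped BigOperators


variable {ι κ : Type} [Fintype ι] [DecidableEq ι] [Fintype κ]

lemma ex_mono {X : Type} [Fintype X] {f g : X → ℝ} (h : ∀ x, f x ≤ g x) :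
    𝔼 x, f x ≤ 𝔼 x, g x := by
  exact expect_le_expect fun x _ => h x

lemma ex_le {X : Type} [Fintype X] {f : X → ℝ} {c : ℝ} (hc : 0 ≤ c) (h : ∀ x, f x ≤ c) :
    𝔼 x, f x ≤ c := by
  rcases (univ : Finset X).eq_empty_or_nonempty with h0 | h0
  · rw [h0, expect_empty]; exact hc
  · exact expect_le h0 fun x _ => h x

lemma ex_abs {X : Type} [Fintype X] (f : X → ℝ) : |𝔼 x, f x| ≤ 𝔼 x, |f x| := by
  exact abs_expect_le _ _

lemma ex_markov {X : Type} [Fintype X] {f : X → ℝ} (hf : ∀ x, 0 ≤ f x) {a : ℝ} (ha : 0 < a) :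
    𝔼 x, ind (a ≤ f x) ≤ (𝔼 x, f x) / a := by
  rw [expect_div]
  refine ex_mono fun x => ?_
  by_cases h : a ≤ f x
  · rw [ind_pos h, le_div_iff₀ ha, one_mul]; exact h
  · rw [ind_neg h]; exact div_nonneg (hf x) ha.le

lemma ex_prod {X Y : Type} [Fintype X] [Fintype Y] (f : X × Y → ℝ) :
    𝔼 p, f p = 𝔼 x, 𝔼 y, f (x, y) := by
  rw [← univ_product_univ, expect_product]

lemma P1_fst {X Y : Type} [Fintype X] [Fintype Y] [Nonempty Y] (f : X → ℝ) :
    𝔼 x, f x = 𝔼 p : X × Y, f p.1 := by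
  rw [ex_prod]
  exact expect_congr rfl fun x _ => (Fintype.expect_const _).symm

lemma ex_resample (S : Finset ι) (f : (ι → κ) → ℝ) :
    𝔼 y, f y = 𝔼 y : ι → κ, 𝔼 y2 : ι → κ, f (S.piecewise y y2) := by
  rcases isEmpty_or_nonempty (ι → κ) with h0 | h0
  · simp only [univ_eq_empty, expect_empty]
  have hinv : Function.Involutive fun p : (ι → κ) × (ι → κ) =>
      ((S.piecewise p.1 p.2, S.piecewise p.2 p.1) : (ι → κ) × (ι → κ)) := by
    rintro ⟨y, y2⟩
    refine Prod.ext (funext fun i => ?_) (funext fun i => ?_) <;>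
      by_cases h : i ∈ S <;> simp [piecewise, h]
  rw [P1_fst (Y := ι → κ) f, ← ex_prod fun p : (ι → κ) × (ι → κ) => f (S.piecewise p.1 p.2)]
  exact (Fintype.expect_bijective _ hinv.bijective _ _ fun _ => rfl).symm

lemma ex_update (i : ι) (f : (ι → κ) → ℝ) :
    𝔼 y, f y = 𝔼 y : ι → κ, 𝔼 a : κ, f (Function.update y i a) := by
  rcases isEmpty_or_nonempty (ι → κ) with h0 | h0
  · simp only [univ_eq_empty, expect_empty]
  have : Nonempty κ := ⟨Classical.choice h0 i⟩
  have hinv : Function.Involutive fun p : (ι → κ) × κ =>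
      ((Function.update p.1 i p.2, p.1 i) : (ι → κ) × κ) := by
    rintro ⟨y, a⟩
    simp
  rw [P1_fst (Y := κ) f, ← ex_prod fun p : (ι → κ) × κ => f (Function.update p.1 i p.2)]
  exact (Fintype.expect_bijective _ hinv.bijective _ _ fun _ => rfl).symm

lemma ex_comp_inj [Nonempty κ] {A : Type} [Fintype A] [DecidableEq A] (e : A → ι)
    (he : Function.Injective e) (f : (A → κ) → ℝ) :
    𝔼 y : ι → κ, f (fun a => y (e a)) = 𝔼 z, f z := by
  classical
  let q : ι → Prop := fun i => i ∈ Set.range e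
  let E : (ι → κ) ≃ (A → κ) × ({i // ¬ q i} → κ) :=
    (Equiv.piEquivPiSubtypeProd q fun _ => κ).trans
      (Equiv.prodCongr (Equiv.arrowCongr (Equiv.ofInjective e he).symm (Equiv.refl κ))
        (Equiv.refl _))
  rw [P1_fst (Y := {i // ¬ q i} → κ) f]
  exact Fintype.expect_equiv E _ _ fun _ => rfl

lemma ex_curry {A : Type} [Fintype A] [DecidableEq A] (f : (ι → A → κ) → ℝ) :
    𝔼 y : ι × A → κ, f (fun i a => y (i, a)) = 𝔼 y, f y := by
  exact Fintype.expect_equiv (Equiv.curry ι A κ) _ _ fun _ => rfl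

lemma ex_sum_type {A : Type} [Fintype A] [DecidableEq A] (f : (ι ⊕ A → κ) → ℝ) :
    𝔼 x, f x = 𝔼 z : ι → κ, 𝔼 u : A → κ, f (Sum.elim z u) := by
  rw [← ex_prod fun p : (ι → κ) × (A → κ) => f (Sum.elim p.1 p.2)]
  exact (Fintype.expect_equiv (Equiv.sumArrowEquivProdArrow ι A κ).symm _ _ fun _ => rfl).symm

lemma ex_prod_coord (F : ι → κ → ℝ) : 𝔼 y : ι → κ, ∏ i, F i (y i) = ∏ i, 𝔼 a, F i a := by
  simp only [Fintype.expect_eq_sum_div_card]
  rw [prod_div_distrib, prod_const, Fintype.prod_sum, Fintype.card_fun, Nat.cast_pow, card_univ]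

lemma ex_prod_indep [Nonempty κ] {J : Type} (s : Finset J) (S : J → Finset ι)
    (hd : ∀ j ∈ s, ∀ j2 ∈ s, j ≠ j2 → Disjoint (S j) (S j2)) (F : J → (ι → κ) → ℝ)
    (hF : ∀ j ∈ s, ∀ y y2, (∀ i ∈ S j, y i = y2 i) → F j y = F j y2) :
    𝔼 y, ∏ j ∈ s, F j y = ∏ j ∈ s, 𝔼 y, F j y := by
  classical
  induction s using Finset.induction_on with
  | empty => simp only [prod_empty]; exact Fintype.expect_const _
  | insert j s hj ih =>
    simp only [prod_insert hj]
    rw [← ih (fun a ha b hb => hd a (mem_insert_of_mem ha) b (mem_insert_of_mem hb))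
      (fun a ha => hF a (mem_insert_of_mem ha)), Fintype.expect_mul_expect, ex_resample (S j)]
    refine expect_congr rfl fun y _ => expect_congr rfl fun y2 _ => ?_
    rw [hF j (mem_insert_self _ _) ((S j).piecewise y y2) y
      (fun i hi => piecewise_eq_of_mem _ _ _ hi)]
    refine congrArg (F j y * ·) (prod_congr rfl fun a ha => ?_)
    refine hF a (mem_insert_of_mem ha) _ _ fun i hi => piecewise_eq_of_notMem _ _ _ ?_
    exact disjoint_left.1 (hd a (mem_insert_of_mem ha) j (mem_insert_self _ _)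
      fun h => hj (h ▸ ha)) hi

lemma P1_sum_mem {X : Type} [Fintype X] (A : Finset X) : ∑ a, ind (a ∈ A) = (A.card : ℝ) := by
  classical
  have : ∀ a, ind (a ∈ A) = if a ∈ A then (1 : ℝ) else 0 := fun a => by
    split_ifs with h
    · exact ind_pos h
    · exact ind_neg h
  simp only [this]
  rw [sum_ite_mem, univ_inter, sum_const, nsmul_eq_mul, mul_one]

/-- The chance that all coordinates in `S` fall into a given set. -/
lemma ex_mem_le (S : Finset ι) (A : Finset κ) :
    𝔼 y : ι → κ, ind (∀ i ∈ S, y i ∈ A) ≤ ((A.card : ℝ) / Fintype.card κ) ^ S.card := by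
  classical
  have h1 : ∀ y : ι → κ, ind (∀ i ∈ S, y i ∈ A) =
      ∏ i, (if i ∈ S then ind (y i ∈ A) else 1) := by
    intro y
    by_cases h : ∀ i ∈ S, y i ∈ A
    · rw [ind_pos h]
      refine (prod_eq_one fun i _ => ?_).symm
      split_ifs with hi
      · exact ind_pos (h i hi)
      · rfl
    · rw [ind_neg h]
      obtain ⟨i, hi⟩ := not_forall.1 h
      obtain ⟨hi, hA⟩ := Classical.not_imp.1 hi
      exact (prod_eq_zero (mem_univ i) (by rw [if_pos hi, ind_neg hA])).symm
  have h2 : 𝔼 a : κ, ind (a ∈ A) = (A.card : ℝ) / Fintype.card κ := by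
    rw [Fintype.expect_eq_sum_div_card, P1_sum_mem]
  simp only [h1]
  rw [ex_prod_coord fun i a => if i ∈ S then ind (a ∈ A) else 1]
  calc ∏ i, 𝔼 a : κ, (if i ∈ S then ind (a ∈ A) else 1)
      ≤ ∏ i, (if i ∈ S then (A.card : ℝ) / Fintype.card κ else 1) := by
        refine prod_le_prod (fun i _ => expect_nonneg fun a _ => ?_) fun i _ => ?_
        · split_ifs
          · exact ind_nonneg _
          · exact zero_le_one
        · split_ifs
          · exact h2.le
          · exact ex_le zero_le_one fun _ => le_rfl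
    _ = _ := by rw [prod_ite_mem, univ_inter, prod_const]

lemma ex_not_inj (S : Finset ι) :
    𝔼 y : ι → κ, ind (¬ Set.InjOn y S) ≤ (S.card : ℝ) ^ 2 / Fintype.card κ := by
  classical
  have h1 : ∀ y : ι → κ, ind (¬ Set.InjOn y S) ≤ ∑ p ∈ S.offDiag, ind (y p.1 = y p.2) := by
    intro y
    refine (ind_mono fun h => ?_).trans (ind_exists_le S.offDiag fun p => y p.1 = y p.2)
    by_contra h2
    refine h fun a ha b hb hab => ?_
    by_contra hne
    exact h2 ⟨(a, b), mem_offDiag.2 ⟨ha, hb, hne⟩, hab⟩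
  have hc : (0 : ℝ) ≤ 1 / Fintype.card κ := by positivity
  have h2 : ∀ p ∈ S.offDiag, 𝔼 y : ι → κ, ind (y p.1 = y p.2) ≤ 1 / (Fintype.card κ : ℝ) := by
    intro p hp
    have hne : p.2 ≠ p.1 := (mem_offDiag.1 hp).2.2.symm
    rw [ex_update p.1]
    refine ex_le hc fun y => ?_
    simp only [Function.update_self, Function.update_of_ne hne]
    rw [Fintype.expect_eq_sum_div_card]
    have := P1_sum_mem ({y p.2} : Finset κ)
    simp only [mem_singleton, card_singleton, Nat.cast_one] at this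
    rw [this]
  refine (ex_mono h1).trans ?_
  rw [expect_sum_comm]
  refine (sum_le_sum h2).trans ?_
  rw [sum_const, nsmul_eq_mul, mul_one_div]
  refine div_le_div_of_nonneg_right ?_ (Nat.cast_nonneg _)
  have : S.offDiag.card ≤ S.card ^ 2 := by rw [offDiag_card, sq]; exact Nat.sub_le _ _
  exact_mod_cast this

variable {V I : Type} [Fintype V] [DecidableEq V] [Fintype I] [DecidableEq I]

lemma hit_nonneg (p : Sym2 V) (e : V × V) : 0 ≤ hit p e := by
  exact mul_nonneg (ind_nonneg _) (add_nonneg zero_le_one (ind_nonneg _))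

lemma hit_le_two (p : Sym2 V) (e : V × V) : hit p e ≤ 2 := by
  unfold hit
  linarith only [ind_nonneg (p = s(e.1, e.2)), ind_le_one (p = s(e.1, e.2)), ind_nonneg (e.1 = e.2),
    ind_le_one (e.1 = e.2), mul_nonneg_of_nonpos_of_nonpos (Mathlib.Tactic.Linarith.sub_nonpos_of_le (ind_nonneg (p = s(e.1, e.2)))) (Mathlib.Tactic.Linarith.sub_nonpos_of_le (ind_le_one (e.1 = e.2)))]

lemma hit_swap (p : Sym2 V) (e : V × V) : hit p e.swap = hit p e := by
  unfold hit
  rw [Prod.fst_swap, Prod.snd_swap, Sym2.eq_swap, ind_congr (eq_comm (a := e.2))]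

lemma hit_of_ne (p : Sym2 V) {e : V × V} (h : e.1 ≠ e.2) : hit p e = ind (p = s(e.1, e.2)) := by
  unfold hit
  rw [ind_neg h, add_zero, mul_one]

lemma sum_hit_mul (p : Sym2 V) (w : Sym2 V → ℝ) : ∑ e, hit p e * ord w e = 2 * w p := by
  induction p using Sym2.ind with
  | h a b =>
  have h1 : ∀ e : V × V, hit s(a, b) e * ord w e =
      (if (a, b) = e then w s(a, b) else 0) + if (b, a) = e then w s(a, b) else 0 := by
    rintro ⟨c, d⟩
    unfold hit ord
    by_cases h : s(a, b) = s(c, d)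
    · rw [ind_pos h, ← h]
      by_cases hcd : c = d
      · subst hcd
        have hac : a = c ∧ b = c := by simpa using h
        rw [ind_pos rfl, hac.1, hac.2, if_pos rfl]
        ring
      · rw [ind_neg hcd]
        rcases Sym2.eq_iff.1 h with ⟨rfl, rfl⟩ | ⟨rfl, rfl⟩
        · rw [if_pos rfl, if_neg fun h2 => hcd (Prod.ext_iff.1 h2).2]
          ring
        · rw [if_pos rfl, if_neg fun h2 => hcd (Prod.ext_iff.1 h2).1.symm]
          ring
    · have n1 : (a, b) ≠ (c, d) := fun h2 => h (by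
        rw [show a = c from (Prod.ext_iff.1 h2).1, show b = d from (Prod.ext_iff.1 h2).2])
      have n2 : (b, a) ≠ (c, d) := fun h2 => h (by
        rw [show b = c from (Prod.ext_iff.1 h2).1, show a = d from (Prod.ext_iff.1 h2).2,
          Sym2.eq_swap])
      rw [ind_neg h, if_neg n1, if_neg n2]
      ring
  simp only [h1, sum_add_distrib, sum_ite_eq, mem_univ, if_true]
  ring

lemma sum_hit (p : Sym2 V) : ∑ e, hit p e = 2 := by
  have := sum_hit_mul p fun _ => 1
  simpa only [ord, mul_one] using this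

lemma P1_ord {a b : ι} (h : a ≠ b) (w : Sym2 V → ℝ) :
    𝔼 z : ι → V, w s(z a, z b) = 𝔼 e, ord w e := by
  rcases isEmpty_or_nonempty V with h0 | h0
  · have : IsEmpty (ι → V) := ⟨fun z => h0.false (z a)⟩
    simp only [univ_eq_empty, expect_empty]
  have he : Function.Injective ![a, b] := by
    intro i j hij
    fin_cases i <;> fin_cases j
    · rfl
    · exact absurd hij h
    · exact absurd hij.symm h
    · rfl
  refine (ex_comp_inj ![a, b] he fun z : Fin 2 → V => w s(z 0, z 1)).trans ?_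
  exact Fintype.expect_equiv (finTwoArrowEquiv V) _ _ fun _ => rfl

lemma ex_hit {a b : ι} (h : a ≠ b) (e : V × V) :
    𝔼 z : ι → V, hit s(z a, z b) e = 2 / (Fintype.card V : ℝ) ^ 2 := by
  rw [P1_ord h fun p => hit p e, Fintype.expect_eq_sum_div_card]
  have h1 : ∀ e2 : V × V, ord (fun p => hit p e) e2 = hit s(e.1, e.2) e2 := by
    intro e2
    unfold ord hit
    dsimp only
    by_cases h2 : s(e2.1, e2.2) = s(e.1, e.2)
    · have h3 : e.1 = e.2 ↔ e2.1 = e2.2 := by
        rw [← Sym2.mk_isDiag_iff, ← h2, Sym2.mk_isDiag_iff]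
      rw [ind_pos h2, ind_pos h2.symm, ind_congr h3]
    · rw [ind_neg h2, ind_neg (Ne.symm h2), zero_mul, zero_mul]
  simp only [h1]
  rw [sum_hit, Fintype.card_prod, Nat.cast_mul, sq]

lemma ex_ord {a b : ι} (h : a ≠ b) (w : Sym2 V → ℝ) :
    𝔼 z : ι → V, w s(z a, z b) = 𝔼 e, ord w e := by
  exact P1_ord h w

lemma den_nonneg (q : I → Sym2 V) (R : Finset I) (e : V × V) : 0 ≤ den q R e := by
  exact mul_nonneg (by positivity) (sum_nonneg fun _ _ => hit_nonneg _ _)

lemma den_mono (q : I → Sym2 V) {R R2 : Finset I} (h : R ⊆ R2) (e : V × V) :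
    den q R e ≤ den q R2 e := by
  exact mul_le_mul_of_nonneg_left
    (sum_le_sum_of_subset_of_nonneg h fun _ _ _ => hit_nonneg _ _) (by positivity)

lemma den_swap (q : I → Sym2 V) (R : Finset I) (e : V × V) : den q R e.swap = den q R e := by
  unfold den
  simp only [hit_swap]

lemma den_congr {q q2 : I → Sym2 V} {R : Finset I} (h : ∀ i ∈ R, q i = q2 i) :
    den q R = den q2 R := by
  funext e
  unfold den
  rw [sum_congr rfl fun i hi => by rw [h i hi]]

lemma den_ord [Nonempty V] (q : I → Sym2 V) (R : Finset I) (w : Sym2 V → ℝ) :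
    𝔼 e, den q R e * ord w e = (∑ i ∈ R, w (q i)) / Fintype.card I := by
  have hV : (Fintype.card V : ℝ) ≠ 0 := Nat.cast_ne_zero.2 Fintype.card_ne_zero
  rw [Fintype.expect_eq_sum_div_card]
  unfold den
  simp only [mul_assoc, sum_mul]
  rw [← mul_sum, sum_comm]
  simp only [sum_hit_mul]
  rw [← mul_sum, Fintype.card_prod, Nat.cast_mul]
  rcases eq_or_ne (Fintype.card I : ℝ) 0 with hI | hI
  · simp [hI]
  · field_simp

lemma ex_den [Nonempty V] (q : I → Sym2 V) (R : Finset I) :
    𝔼 e, den q R e = (R.card : ℝ) / Fintype.card I := by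
  have := den_ord q R fun _ => 1
  simpa only [ord, mul_one, sum_const, nsmul_eq_mul] using this

lemma ex_den_le (q : I → Sym2 V) (R : Finset I) : 𝔼 e, den q R e ≤ 1 := by
  rcases isEmpty_or_nonempty V with h0 | h0
  · simp only [univ_eq_empty, expect_empty, zero_le_one]
  · rw [ex_den]
    exact div_le_one_of_le₀ (Nat.cast_le.2 (card_le_univ R)) (Nat.cast_nonneg _)

end Pool.Agent.Work.MP_d4a230_co.U
end

-- merged part: Pool.Agent.Work.MP_d4a230_co.U.Boost
section
/-!
Dense model theorem by boosting.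
PLAN. G x = 0, x^2/2, x - 1/2 on x <= 0, [0,1], x >= 1 (G x = clip x * x - clip x ^ 2 / 2). Then
G (x + h) <= G x + h * clip x + h^2/2 and G x >= max x 0 - 1/2. Potential Φ s = mean (G s) - mean (a s).
Suppose every c has a bad test. Build by induction on j <= 2m^2+1 a choice c whose entries from j on
are (true, t0) and with Φ (bsum c) <= - j / (2 m^2) strictly for j > 0 (update entry j by the bad test
with the right sign). At j = 2m^2+1 this is below -1, but
Φ s >= mean (max s 0) - 1/2 - mean (ν * max s 0) >= -1.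
-/

namespace Pool.Agent.Work.MP_d4a230_co.U

open Finset Filter Topology Pool.Agent.Work.MP_07f1b5_pr
open scoped BigOperators


lemma Boost_clip (x : ℝ) : 0 ≤ clip x ∧ clip x ≤ 1 :=
  ⟨le_max_left _ _, max_le zero_le_one (min_le_right _ _)⟩

lemma Boost_proj (x u : ℝ) (h0 : 0 ≤ u) (h1 : u ≤ 1) : (u - clip x) * (x - clip x) ≤ 0 := by
  unfold clip
  rcases le_total x 0 with h | h
  · rw [min_eq_left (h.trans zero_le_one), max_eq_left h]; nlinarith
  · rcases le_total x 1 with h' | h'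
    · rw [min_eq_left h', max_eq_right h]; simp
    · rw [min_eq_right h', max_eq_right zero_le_one]; linarith only [h1, h', mul_nonneg_of_nonpos_of_nonpos (Mathlib.Tactic.Linarith.sub_nonpos_of_le h1) (Mathlib.Tactic.Linarith.sub_nonpos_of_le h')]

/-- The primitive of `clip`. -/
noncomputable def Boost_G (x : ℝ) : ℝ := clip x * x - clip x ^ 2 / 2

lemma Boost_G1 (x h : ℝ) : Boost_G (x + h) ≤ Boost_G x + h * clip x + h ^ 2 / 2 := by
  have := Boost_proj x (clip (x + h)) (Boost_clip _).1 (Boost_clip _).2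
  unfold Boost_G
  linarith only [this, sq_nonneg (clip (x + h) - clip x - h), sq_nonneg (clip (x + h) - clip x - h)]

lemma Boost_G2 (x : ℝ) : max x 0 - 1 / 2 ≤ Boost_G x := by
  have h0 := Boost_proj x 0 le_rfl zero_le_one
  have h1 := Boost_proj x 1 zero_le_one le_rfl
  unfold Boost_G
  rcases le_total x 0 with h | h
  · rw [max_eq_right h]; linarith only [h0, sq_nonneg (clip x), sq_nonneg (clip x)]
  · rw [max_eq_left h]; linarith only [h1, sq_nonneg (clip x - 1), sq_nonneg (clip x - (1 : ℝ))]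

lemma Boost_upd {X T : Type} (m : ℕ) (φ : T → X → ℝ) (t0 : T) (h0 : ∀ e, φ t0 e = 0)
    (c : Fin (2 * m ^ 2 + 1) → Bool × T) (j : Fin (2 * m ^ 2 + 1)) (hj : c j = (true, t0))
    (p : Bool × T) (e : X) : bsum m φ (Function.update c j p) e =
      bsum m φ c e + 1 / (m : ℝ) * (if p.1 then φ p.2 e else -φ p.2 e) := by
  unfold bsum
  rw [← Finset.add_sum_erase _ _ (mem_univ j), ← Finset.add_sum_erase _ _ (mem_univ j),
    Function.update_self, hj,
    Finset.sum_congr rfl fun i hi => by rw [Function.update_of_ne (ne_of_mem_erase hi)]]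
  simp only [h0, if_true]
  ring

lemma Boost_step {X : Type} [Fintype X] [Nonempty X] (m : ℝ) (hm : 0 < m) (a s ψ : X → ℝ)
    (hψ : ∀ e, |ψ e| ≤ 1) (h : 1 / m ≤ 𝔼 e, (a e - clip (s e)) * ψ e) :
    𝔼 e, (Boost_G (s e + 1 / m * ψ e) - a e * (s e + 1 / m * ψ e)) ≤
      𝔼 e, (Boost_G (s e) - a e * s e) - 1 / (2 * m ^ 2) := by
  have h1 : 𝔼 e, (Boost_G (s e + 1 / m * ψ e) - a e * (s e + 1 / m * ψ e)) ≤
      𝔼 e, ((Boost_G (s e) - a e * s e) - 1 / m * ((a e - clip (s e)) * ψ e) +
        1 / (2 * m ^ 2)) := by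
    refine Finset.expect_le_expect fun e _ => ?_
    have k1 := Boost_G1 (s e) (1 / m * ψ e)
    have k2 : ψ e ^ 2 ≤ 1 := by have := abs_le.1 (hψ e); linarith only [this, mul_nonneg_of_nonpos_of_nonpos (Mathlib.Tactic.Linarith.sub_nonpos_of_le this.left) (Mathlib.Tactic.Linarith.sub_nonpos_of_le this.right)]
    have k3 : (1 / m * ψ e) ^ 2 / 2 ≤ 1 / (2 * m ^ 2) := by
      have : (1 / m * ψ e) ^ 2 / 2 = 1 / (2 * m ^ 2) * ψ e ^ 2 := by field_simp
      rw [this]
      exact mul_le_of_le_one_right (by positivity) k2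
    linarith only [k1, k3]
  rw [Finset.expect_add_distrib,
    Finset.expect_sub_distrib _ (fun e => Boost_G (s e) - a e * s e), ← Finset.mul_expect,
    Finset.expect_const univ_nonempty] at h1
  have h2 : 1 / m * (1 / m) ≤ 1 / m * 𝔼 e, (a e - clip (s e)) * ψ e :=
    mul_le_mul_of_nonneg_left h (by positivity)
  have h3 : 1 / m * (1 / m) = 2 * (1 / (2 * m ^ 2)) := by field_simp
  linarith only [h1, h2, h3]

theorem boost {X T : Type} [Fintype X] (m : ℕ) (hm : 0 < m) (φ : T → X → ℝ)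
    (hφ : ∀ t e, |φ t e| ≤ 1) (t0 : T) (h0 : ∀ e, φ t0 e = 0) (ν a : X → ℝ)
    (ha : ∀ e, 0 ≤ a e ∧ a e ≤ ν e)
    (hP : ∀ c, 𝔼 e, (ν e - 1) * max (bsum m φ c e) 0 ≤ 1 / 2) :
    ∃ c, ∀ t, |𝔼 e, (a e - clip (bsum m φ c e)) * φ t e| ≤ 1 / m := by
  have hm' : (0 : ℝ) < m := by exact_mod_cast hm
  rcases isEmpty_or_nonempty X with hX | hX
  · exact ⟨fun _ => (true, t0), fun t => by simp⟩
  by_contra hc
  push Not at hc
  have key : ∀ j : ℕ, j ≤ 2 * m ^ 2 + 1 → ∃ c : Fin (2 * m ^ 2 + 1) → Bool × T,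
      (∀ i : Fin (2 * m ^ 2 + 1), j ≤ i.1 → c i = (true, t0)) ∧
      𝔼 e, (Boost_G (bsum m φ c e) - a e * bsum m φ c e) ≤ -(j * (1 / (2 * (m : ℝ) ^ 2))) := by
    intro j
    induction j with
    | zero =>
      refine fun _ => ⟨fun _ => (true, t0), fun _ _ => rfl, ?_⟩
      simp [bsum, h0, Boost_G, clip]
    | succ j ih =>
      intro hj
      obtain ⟨c, hc1, hc2⟩ := ih (by omega)
      obtain ⟨t, ht⟩ := hc c
      have hb : ∃ b : Bool, 1 / (m : ℝ) ≤
          𝔼 e, (a e - clip (bsum m φ c e)) * (if b then φ t e else -φ t e) := by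
        rcases lt_abs.1 ht with h | h
        · exact ⟨true, by simpa using h.le⟩
        · refine ⟨false, ?_⟩
          simp only [Bool.false_eq_true, if_false, mul_neg, Finset.expect_neg_distrib]
          exact h.le
      obtain ⟨b, hb⟩ := hb
      refine ⟨Function.update c ⟨j, by omega⟩ (b, t), fun i hi => ?_, ?_⟩
      · rw [Function.update_of_ne (fun h => by rw [h] at hi; simp at hi), hc1 i (by omega)]
      · simp only [Boost_upd m φ t0 h0 c ⟨j, by omega⟩ (hc1 _ le_rfl)]
        have := Boost_step m hm' a (bsum m φ c) (fun e => if b then φ t e else -φ t e)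
          (fun e => by cases b <;> simpa using hφ t e) hb
        push_cast
        linarith only [hc2, this]
  obtain ⟨c, -, h1⟩ := key _ le_rfl
  have h2 : 𝔼 e, (-(1 / 2) - (ν e - 1) * max (bsum m φ c e) 0) ≤
      𝔼 e, (Boost_G (bsum m φ c e) - a e * bsum m φ c e) := by
    refine Finset.expect_le_expect fun e _ => ?_
    have k1 := Boost_G2 (bsum m φ c e)
    have k2 := mul_le_mul_of_nonneg_left (le_max_left (bsum m φ c e) 0) (ha e).1
    have k3 := mul_le_mul_of_nonneg_right (ha e).2 (le_max_right (bsum m φ c e) 0)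
    linarith only [k1, k2, k3]
  rw [Finset.expect_sub_distrib, Finset.expect_const univ_nonempty] at h2
  have h3 : ((2 * m ^ 2 + 1 : ℕ) : ℝ) * (1 / (2 * (m : ℝ) ^ 2)) = 1 + 1 / (2 * (m : ℝ) ^ 2) := by
    push_cast; field_simp
  have h4 : 0 < 1 / (2 * (m : ℝ) ^ 2) := by positivity
  linarith only [h1, h2, h3, h4, hP, hP c]

lemma bsum_le {X T : Type} (m : ℕ) (hm : 0 < m) (φ : T → X → ℝ) (hφ : ∀ t e, |φ t e| ≤ 1)
    (c : Fin (2 * m ^ 2 + 1) → Bool × T) (e : X) : |bsum m φ c e| ≤ 3 * m := by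
  have hm' : (1 : ℝ) ≤ m := by exact_mod_cast hm
  unfold bsum
  have h : |∑ j, if (c j).1 then φ (c j).2 e else -φ (c j).2 e| ≤ 2 * (m : ℝ) ^ 2 + 1 := by
    refine (Finset.abs_sum_le_sum_abs _ _).trans ((Finset.sum_le_sum (g := fun _ => (1 : ℝ))
      fun j _ => ?_).trans (by simp))
    split_ifs
    · exact hφ _ _
    · rw [abs_neg]; exact hφ _ _
  rw [abs_mul, abs_of_pos (by positivity : (0 : ℝ) < 1 / m), one_div, inv_mul_le_iff₀ (by linarith)]
  linarith only [hm', h, mul_nonneg_of_nonpos_of_nonpos (Mathlib.Tactic.Linarith.sub_nonpos_of_le (Mathlib.Tactic.Linarith.natCast_nonneg ℝ m)) (Mathlib.Tactic.Linarith.sub_nonpos_of_le hm')]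

end Pool.Agent.Work.MP_d4a230_co.U
end

-- merged part: Pool.Agent.Work.MP_d4a230_co.U.Mom
section
/-!
Expected second moment functional.
PLAN. (1) den_pair: for L2 ⊆ univ, the average over y of den L2 e * den L2 e2 is at most
1 + b n^2/N * ind (e2.1, e2.2 ∈ {e.1, e.2}) + 2 b n/N: expand; pairs of variables in different
components contribute (2/n^2)^2 (ex_prod_indep or ex_update, ex_hit); for a pair in the same
component either both ends of the second slot are ends of the first (then hit * hit vanishes unless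
the indicator holds, and hit <= 2), or some end is fresh and hits e2.1 or e2.2 with chance <= 2/n
(ex_update on that coordinate). The average of den L2 e is <= 1. (2) Move the average over y inside
S2, factorise over edges with ex_prod_indep (S g = components of colour col g), each factor for
g ≠ f is <= C1 (1 + κ ind(...)), using n^2/N <= κ and n <= N. (3) Expand the product of
(1 + κ ind) over subsets F (Finset.prod_one_add); for fixed e and x the chance over x2 that all
edges of F match is <= (card VB / n)^c with c = card (vset F \ vset {f}) (ex_mem_le with A = range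
of upd f x e); use hκ with a = card F. So C = (Q+1) * C1^card EB * 2^card EB * (card VB+1)^card VB.
-/

namespace Pool.Agent.Work.MP_d4a230_co.U

open Finset Filter Topology Pool.Agent.Work.MP_07f1b5_pr
open scoped BigOperators


/-- Both ends of `e2` are ends of `e`. -/
def Mom_M {V : Type} (e e2 : V × V) : Prop :=
  (e2.1 = e.1 ∨ e2.1 = e.2) ∧ (e2.2 = e.1 ∨ e2.2 = e.2)

lemma Mom_coord {ι κ : Type} [Fintype ι] [DecidableEq ι] [Fintype κ] [Nonempty κ] (i : ι)
    (F : κ → ℝ) : 𝔼 y : ι → κ, F (y i) = 𝔼 a, F a := by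
  rw [ex_update i]
  simp only [Function.update_self, Fintype.expect_const]

lemma Mom_two {ι κ : Type} [Fintype ι] [DecidableEq ι] [Fintype κ] [Nonempty κ] {i j : ι}
    (h : i ≠ j) (F G : κ → ℝ) :
    𝔼 y : ι → κ, F (y i) * G (y j) = (𝔼 a, F a) * 𝔼 a, G a := by
  rw [ex_update j]
  simp only [Function.update_self, Function.update_of_ne h, ← mul_expect, ← expect_mul, Mom_coord]

lemma Mom_hit_eq {V : Type} [Fintype V] [DecidableEq V] {p : Sym2 V} {e : V × V}
    (h : hit p e ≠ 0) : p = s(e.1, e.2) := by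
  by_contra h1
  exact h (by rw [hit, ind_neg h1, zero_mul])

lemma Mom_same {V α : Type} [Fintype V] [DecidableEq V] [Nonempty V] [Fintype α] [DecidableEq α]
    {a b : α} (h : a ≠ b) (c d : α) (e e2 : V × V) :
    𝔼 z : α → V, hit s(z a, z b) e * hit s(z c, z d) e2 ≤
      2 / (Fintype.card V : ℝ) ^ 2 * (2 * ind (Mom_M e e2) + 4 / Fintype.card V) := by
  have hV : (0 : ℝ) < Fintype.card V := by exact_mod_cast Fintype.card_pos
  have hi := ind_nonneg (Mom_M e e2)
  have fresh : ∀ u, u ≠ a → u ≠ b → (u = c ∨ u = d) →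
      𝔼 z : α → V, hit s(z a, z b) e * hit s(z c, z d) e2 ≤
        2 / (Fintype.card V : ℝ) ^ 2 * (2 * ind (Mom_M e e2) + 4 / Fintype.card V) := by
    intro u ua ub hu
    have h1 : ∀ z : α → V, hit s(z a, z b) e * hit s(z c, z d) e2 ≤
        hit s(z a, z b) e * (2 * ind (z u ∈ ({e2.1, e2.2} : Finset V))) := fun z => by
      refine mul_le_mul_of_nonneg_left ?_ (hit_nonneg _ _)
      by_cases h0 : hit s(z c, z d) e2 = 0
      · rw [h0]; exact mul_nonneg zero_le_two (ind_nonneg _)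
      · have h2 : z u ∈ s(z c, z d) := by rcases hu with rfl | rfl <;> simp
        rw [Mom_hit_eq h0, Sym2.mem_iff] at h2
        rw [ind_pos (by simpa using h2), mul_one]
        exact hit_le_two _ _
    refine (ex_mono h1).trans ?_
    rw [ex_update u]
    simp only [Function.update_self, Function.update_of_ne ua.symm, Function.update_of_ne ub.symm,
      ← mul_expect, ← expect_mul, ex_hit h]
    refine mul_le_mul_of_nonneg_left ?_ (by positivity)
    rw [Fintype.expect_eq_sum_div_card, P1_sum_mem]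
    have h3 : (((({e2.1, e2.2} : Finset V)).card : ℕ) : ℝ) ≤ 2 := by
      exact_mod_cast card_le_two
    have h4 : (((({e2.1, e2.2} : Finset V)).card : ℕ) : ℝ) / Fintype.card V ≤
      2 / Fintype.card V := by gcongr
    have h5 : (4 : ℝ) / Fintype.card V = 2 * (2 / Fintype.card V) := by ring
    linarith only [hi, h4, h5]
  by_cases hc : c = a ∨ c = b
  · by_cases hd : d = a ∨ d = b
    · have h1 : ∀ z : α → V, hit s(z a, z b) e * hit s(z c, z d) e2 ≤
          hit s(z a, z b) e * (2 * ind (Mom_M e e2) + 4 / Fintype.card V) := fun z => by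
        by_cases h0 : hit s(z a, z b) e = 0
        · rw [h0, zero_mul, zero_mul]
        refine mul_le_mul_of_nonneg_left ?_ (hit_nonneg _ _)
        by_cases h2 : hit s(z c, z d) e2 = 0
        · rw [h2]; positivity
        have h3 : ∀ w, w ∈ s(e2.1, e2.2) → w = e.1 ∨ w = e.2 := fun w hw => by
          rw [← Mom_hit_eq h2, Sym2.mem_iff] at hw
          rw [← Sym2.mem_iff, ← Mom_hit_eq h0, Sym2.mem_iff]
          rcases hc with rfl | rfl <;> rcases hd with rfl | rfl <;> tauto
        rw [ind_pos (show Mom_M e e2 from ⟨h3 _ (by simp), h3 _ (by simp)⟩)]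
        have := hit_le_two s(z c, z d) e2
        have : (0 : ℝ) ≤ 4 / Fintype.card V := by positivity
        linarith
      refine (ex_mono h1).trans ?_
      rw [← expect_mul, ex_hit h]
    · exact fresh d (fun e => hd (Or.inl e)) (fun e => hd (Or.inr e)) (Or.inr rfl)
  · exact fresh c (fun e => hc (Or.inl e)) (fun e => hc (Or.inr e)) (Or.inl rfl)

section
variable {V G α β : Type} [Fintype V] [DecidableEq V] [Nonempty V] [Fintype G] [DecidableEq G]
  [Fintype α] [DecidableEq α] [Fintype β] [DecidableEq β] {ep : β → α × α}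
  (hne : ∀ j, (ep j).1 ≠ (ep j).2)
include hne

lemma Mom_one (i : G × β) (e : V × V) :
    𝔼 y : G → α → V, hit (sp ep y i) e = 2 / (Fintype.card V : ℝ) ^ 2 :=
  (Mom_coord i.1 fun z : α → V => hit (sl ep z i.2) e).trans (ex_hit (hne _) e)

lemma Mom_pair (i j : G × β) (e e2 : V × V) :
    𝔼 y : G → α → V, hit (sp ep y i) e * hit (sp ep y j) e2 ≤ (2 / (Fintype.card V : ℝ) ^ 2) ^ 2 +
      ind (j.1 = i.1) *
        (2 / (Fintype.card V : ℝ) ^ 2 * (2 * ind (Mom_M e e2) + 4 / Fintype.card V)) := by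
  by_cases h : j.1 = i.1
  · rw [ind_pos h, one_mul]
    have h1 := Mom_coord i.1 fun z : α → V => hit (sl ep z i.2) e * hit (sl ep z j.2) e2
    have h2 := Mom_same (hne i.2) (ep j.2).1 (ep j.2).2 e e2
    simp only [sp, h]
    rw [h1]
    exact h2.trans (le_add_of_nonneg_left (by positivity))
  · rw [ind_neg h, zero_mul, add_zero, sq]
    exact ((Mom_two (Ne.symm h) (fun z : α → V => hit (sl ep z i.2) e)
      fun z : α → V => hit (sl ep z j.2) e2).trans
        (congrArg₂ _ (ex_hit (hne _) e) (ex_hit (hne _) e2))).le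

lemma Mom_den (R : Finset (G × β)) (e : V × V) : 𝔼 y : G → α → V, den (sp ep y) R e ≤ 1 := by
  have hV : (0 : ℝ) < Fintype.card V := by exact_mod_cast Fintype.card_pos
  simp only [den, ← mul_expect, expect_sum_comm, Mom_one hne, sum_const, nsmul_eq_mul]
  have h1 : (R.card : ℝ) ≤ Fintype.card (G × β) := by exact_mod_cast card_le_univ R
  calc _ = (R.card : ℝ) / Fintype.card (G × β) := by field_simp
    _ ≤ 1 := div_le_one_of_le₀ h1 (Nat.cast_nonneg _)

lemma Mom_den2 (R : Finset (G × β)) (e e2 : V × V) {κ : ℝ}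
    (h1 : Fintype.card V ≤ Fintype.card (G × β))
    (h2 : (Fintype.card V : ℝ) ^ 2 ≤ κ * Fintype.card (G × β)) :
    𝔼 y : G → α → V, den (sp ep y) R e * den (sp ep y) R e2 ≤
      1 + Fintype.card β * (κ * ind (Mom_M e e2) + 2) := by
  have hV : (0 : ℝ) < Fintype.card V := by exact_mod_cast Fintype.card_pos
  have h1' : (Fintype.card V : ℝ) ≤ Fintype.card (G × β) := by exact_mod_cast h1
  have hN : (0 : ℝ) < Fintype.card (G × β) := hV.trans_le h1'
  have hi := ind_nonneg (Mom_M e e2)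
  have h3 : ∀ i : G × β, ∑ j : G × β, ind (j.1 = i.1) = (Fintype.card β : ℝ) := fun i => by
    rw [Fintype.sum_prod_type, Finset.sum_eq_single i.1]
    · simp [ind_pos]
    · intro b _ hb; simp [ind_neg hb]
    · simp
  simp only [den, mul_mul_mul_comm _ (∑ i ∈ R, _), ← mul_expect, sum_mul_sum, expect_sum_comm]
  set n : ℝ := ((Fintype.card V : ℕ) : ℝ)
  set N : ℝ := ((Fintype.card (G × β) : ℕ) : ℝ) with hNd
  set t : ℝ := 2 / n ^ 2 * (2 * ind (Mom_M e e2) + 4 / n) with ht
  have ht0 : 0 ≤ t := by positivity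
  have h4 : ∑ i ∈ R, ∑ j ∈ R, 𝔼 y : G → α → V, hit (sp ep y i) e * hit (sp ep y j) e2 ≤
      N * (N * (2 / n ^ 2) ^ 2 + Fintype.card β * t) := by
    calc _ ≤ ∑ i ∈ R, ∑ j : G × β, ((2 / n ^ 2) ^ 2 + ind (j.1 = i.1) * t) :=
          sum_le_sum fun i _ => (sum_le_sum fun j _ => Mom_pair hne i j e e2).trans
            (sum_le_univ_sum_of_nonneg fun j => by have := ind_nonneg (j.1 = i.1); positivity)
      _ ≤ ∑ i : G × β, ∑ j : G × β, ((2 / n ^ 2) ^ 2 + ind (j.1 = i.1) * t) :=
          sum_le_univ_sum_of_nonneg fun i => sum_nonneg fun j _ => by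
            have := ind_nonneg (j.1 = i.1); positivity
      _ = _ := by
          simp only [sum_add_distrib, ← sum_mul, h3, sum_const, card_univ, nsmul_eq_mul, ← hNd]
          ring
  refine (mul_le_mul_of_nonneg_left h4 (by positivity)).trans ?_
  have h5 : n ^ 2 / N ≤ κ := by rwa [div_le_iff₀ hN]
  have h6 : n / N ≤ 1 := div_le_one_of_le₀ h1' hN.le
  calc _ = 1 + Fintype.card β * (n ^ 2 / N * ind (Mom_M e e2) + 2 * (n / N)) := by
        rw [ht]; field_simp; ring
    _ ≤ _ := by gcongr; linarith only [h6]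

lemma Mom_fac (R : Finset (G × β)) (e e2 : V × V) {κ Q : ℝ} (hQ : 1 ≤ Q) (hκ : 0 ≤ κ)
    (h1 : Fintype.card V ≤ Fintype.card (G × β))
    (h2 : (Fintype.card V : ℝ) ^ 2 ≤ κ * Fintype.card (G × β)) :
    𝔼 y : G → α → V, ((Q * den (sp ep y) R e + 1) * (Q * den (sp ep y) R e2 + 1) +
      κ * (Q * den (sp ep y) R e + 1) * ind (e = e2)) ≤
      Q ^ 2 * (4 + 2 * Fintype.card β) * (1 + κ * ind (Mom_M e e2)) := by
  have e1 : ∀ y : G → α → V, (Q * den (sp ep y) R e + 1) * (Q * den (sp ep y) R e2 + 1) +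
      κ * (Q * den (sp ep y) R e + 1) * ind (e = e2) =
      Q ^ 2 * (den (sp ep y) R e * den (sp ep y) R e2) + (Q + κ * ind (e = e2) * Q) *
        den (sp ep y) R e + Q * den (sp ep y) R e2 + (1 + κ * ind (e = e2)) := fun y => by ring
  simp only [e1, expect_add_distrib, ← mul_expect, Fintype.expect_const]
  have a1 := Mom_den2 hne R e e2 h1 h2
  have a2 := Mom_den hne R e
  have a3 := Mom_den hne R e2
  have a4 : ind (e = e2) ≤ ind (Mom_M e e2) := ind_mono fun h => h ▸ ⟨Or.inl rfl, Or.inr rfl⟩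
  have a5 := ind_nonneg (e = e2)
  have hb : (0 : ℝ) ≤ Fintype.card β := Nat.cast_nonneg _
  have hQ2 : Q ≤ Q ^ 2 := by linarith only [hQ, mul_nonneg_of_nonpos_of_nonpos (Mathlib.Tactic.Linarith.sub_nonpos_of_le hQ) (Mathlib.Tactic.Linarith.sub_nonpos_of_le hQ)]
  set s := κ * ind (Mom_M e e2)
  have a6 : κ * ind (e = e2) ≤ s := mul_le_mul_of_nonneg_left a4 hκ
  have a7 : 0 ≤ κ * ind (e = e2) := mul_nonneg hκ a5
  calc _ ≤ Q ^ 2 * (1 + Fintype.card β * (s + 2)) + (Q ^ 2 + s * Q ^ 2) * 1 + Q ^ 2 * 1 +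
        (Q ^ 2 + s * Q ^ 2) := by
        have : 0 ≤ s := a7.trans a6
        have : 0 ≤ 𝔼 y : G → α → V, den (sp ep y) R e := expect_nonneg fun y _ => den_nonneg _ _ _
        have : 0 ≤ 𝔼 y : G → α → V, den (sp ep y) R e2 := expect_nonneg fun y _ => den_nonneg _ _ _
        have : κ * ind (e = e2) ≤ s * Q ^ 2 := by linarith only [a6, hQ, a7, hQ2, mul_nonneg_of_nonpos_of_nonpos (Mathlib.Tactic.Linarith.sub_nonpos_of_le (sq_nonneg Q)) (Mathlib.Tactic.Linarith.sub_nonpos_of_le a6), mul_nonneg_of_nonpos_of_nonpos (Mathlib.Tactic.Linarith.sub_nonpos_of_le hQ) (Mathlib.Tactic.Linarith.sub_nonpos_of_le a7), mul_nonneg_of_nonpos_of_nonpos (Mathlib.Tactic.Linarith.sub_nonpos_of_le hQ2) (Mathlib.Tactic.Linarith.sub_nonpos_of_le a7)]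
        gcongr
        linarith only [hQ, hQ2]
    _ ≤ _ := by
        have : 0 ≤ Q ^ 2 * s * (2 + Fintype.card β) := by have := a7.trans a6; positivity
        linarith only [this]

end

lemma Mom_match {V VB EB : Type} [Fintype V] [DecidableEq V] [Nonempty V] [Fintype VB]
    [DecidableEq VB] [Fintype EB] [DecidableEq EB] (eb : EB → VB × VB) {v k : ℕ} (hDC : DC eb v k)
    {κ : ℝ} (h0 : 0 ≤ κ)
    (hκ : ∀ a c : ℕ, a ≤ Fintype.card EB → c ≤ Fintype.card VB → (v - 2) * a < (k - 1) * c →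
      κ ^ a ≤ (Fintype.card V : ℝ) ^ c) (f : EB) (e : V × V) (x : VB → V) :
    𝔼 x' : VB → V, ∏ g ∈ univ.erase f,
      (1 + κ * ind (Mom_M (exf eb (upd eb f x e) g) (exf eb (upd eb f x' e) g))) ≤
      2 ^ Fintype.card EB * (Fintype.card VB + 1) ^ Fintype.card VB := by
  have hV : (0 : ℝ) < Fintype.card V := by exact_mod_cast Fintype.card_pos
  have hB : (1 : ℝ) ≤ Fintype.card VB + 1 := le_add_of_nonneg_left (Nat.cast_nonneg _)
  simp only [prod_one_add, expect_sum_comm]
  refine (sum_le_card_nsmul _ _ (((Fintype.card VB : ℝ) + 1) ^ Fintype.card VB)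
    fun F hF => ?_).trans ?_
  · rcases F.eq_empty_or_nonempty with rfl | hne
    · simpa using one_le_pow₀ hB
    have hf : f ∉ F := fun h => by simpa using mem_powerset.1 hF h
    set S := vset eb F \ vset eb {f} with hS
    set A := univ.image (upd eb f x e)
    have h1 : ∀ x' : VB → V, ∏ g ∈ F,
        κ * ind (Mom_M (exf eb (upd eb f x e) g) (exf eb (upd eb f x' e) g)) ≤
        κ ^ F.card * ind (∀ u ∈ S, x' u ∈ A) := fun x' => by
      by_cases hM : ∀ g ∈ F, Mom_M (exf eb (upd eb f x e) g) (exf eb (upd eb f x' e) g)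
      · rw [prod_congr rfl fun g hg => by rw [ind_pos (hM g hg), mul_one], prod_const, ind_pos,
          mul_one]
        intro u hu
        simp only [hS, vset, Finset.mem_sdiff, Finset.mem_biUnion, Finset.mem_singleton,
          exists_eq_left, Finset.mem_insert, not_or] at hu
        obtain ⟨⟨g, hg, hu⟩, u1, u2⟩ := hu
        have h2 : upd eb f x' e u = x' u := by
          rw [upd, Function.update_of_ne u2, Function.update_of_ne u1]
        obtain ⟨m1, m2⟩ := hM g hg
        rw [← h2]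
        rcases hu with rfl | rfl
        · rcases m1 with m | m <;> exact mem_image.2 ⟨_, mem_univ _, m.symm⟩
        · rcases m2 with m | m <;> exact mem_image.2 ⟨_, mem_univ _, m.symm⟩
      · push Not at hM
        obtain ⟨g, hg, hM⟩ := hM
        rw [prod_eq_zero hg (by rw [ind_neg hM, mul_zero])]
        exact mul_nonneg (pow_nonneg h0 _) (ind_nonneg _)
    refine (ex_mono h1).trans ?_
    rw [← mul_expect]
    have h3 : (A.card : ℝ) ≤ Fintype.card VB + 1 := by
      have : A.card ≤ Fintype.card VB := card_image_le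
      exact_mod_cast this.trans (Nat.le_succ _)
    calc _ ≤ (Fintype.card V : ℝ) ^ S.card * ((A.card : ℝ) / Fintype.card V) ^ S.card :=
          mul_le_mul (hκ _ _ (card_le_univ _) (card_le_univ _) (hDC.2 f F hf hne)) (ex_mem_le S A)
            (expect_nonneg fun _ _ => ind_nonneg _) (by positivity)
      _ = (A.card : ℝ) ^ S.card := by rw [← mul_pow, mul_div_cancel₀ _ hV.ne']
      _ ≤ ((Fintype.card VB : ℝ) + 1) ^ S.card := by gcongr
      _ ≤ _ := pow_le_pow_right₀ hB (card_le_univ _)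
  · rw [nsmul_eq_mul, card_powerset]
    push_cast
    gcongr
    · norm_num
    · exact card_le_univ _

theorem mom_S2 {VB EB α β : Type} [Fintype VB] [DecidableEq VB] [Fintype EB] [DecidableEq EB]
    [Fintype α] [DecidableEq α] [Fintype β] [DecidableEq β] (eb : EB → VB × VB) {v k : ℕ}
    (hDC : DC eb v k) (ep : β → α × α) (hne : ∀ j, (ep j).1 ≠ (ep j).2) {Q : ℝ} (hQ : 1 ≤ Q) :
    ∃ C : ℝ, 0 ≤ C ∧ ∀ (n M : ℕ) (L : Type) [DecidableEq L] (l : Fin M → L) (col : EB → L)
      (κ : ℝ), Function.Injective col → 0 < n → n ≤ M * Fintype.card β →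
      (n : ℝ) ^ 2 ≤ κ * (M * Fintype.card β : ℕ) →
      (∀ a c : ℕ, a ≤ Fintype.card EB → c ≤ Fintype.card VB → (v - 2) * a < (k - 1) * c →
        κ ^ a ≤ (n : ℝ) ^ c) →
      ∀ f, 𝔼 y : Fin M → α → Fin n,
        S2 eb f (fun g e => Q * den (sp ep y) (lay β l (col g)) e + 1) κ ≤ C := by
  have hb : (0 : ℝ) ≤ Fintype.card β := Nat.cast_nonneg _
  have hQ0 : 0 ≤ Q := zero_le_one.trans hQ
  set C1 : ℝ := Q ^ 2 * (4 + 2 * Fintype.card β) with hC1
  have hC : 1 ≤ C1 := by linarith only [hQ, hb, mul_nonneg (sq_nonneg Q) hb, sq_nonneg Q, mul_nonneg_of_nonpos_of_nonpos (Mathlib.Tactic.Linarith.sub_nonpos_of_le hQ) (Mathlib.Tactic.Linarith.sub_nonpos_of_le hQ)]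
  refine ⟨(Q + 1) * C1 ^ Fintype.card EB *
    (2 ^ Fintype.card EB * (Fintype.card VB + 1) ^ Fintype.card VB), by positivity,
    fun n M L _ l col κ hcol hn hM h2 hκ f => ?_⟩
  have : Nonempty (Fin n) := ⟨⟨0, hn⟩⟩
  have hn' : (0 : ℝ) < n := by exact_mod_cast hn
  have h0 : 0 ≤ κ := by
    have : (0 : ℝ) < (M * Fintype.card β : ℕ) := by exact_mod_cast hn.trans_le hM
    exact nonneg_of_mul_nonneg_left ((sq_nonneg _).trans h2) this
  simp only [S2]
  rw [expect_comm]
  refine ex_le (by positivity) fun e => ?_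
  rw [expect_comm]
  refine ex_le (by positivity) fun x => ?_
  rw [expect_comm]
  refine le_trans (ex_mono fun x' => ?_) (((mul_expect _ _ _).symm.trans_le
    (mul_le_mul_of_nonneg_left (Mom_match eb hDC h0 (by simpa using hκ) f e x) (by positivity))))
  let D : EB → (Fin M → α → Fin n) → Fin n × Fin n → ℝ := fun g y e =>
    Q * den (sp ep y) (lay β l (col g)) e + 1
  let F : EB → (Fin M → α → Fin n) → ℝ := fun g y => if g = f then D f y e else
    D g y (exf eb (upd eb f x e) g) * D g y (exf eb (upd eb f x' e) g) +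
      κ * D g y (exf eb (upd eb f x e) g) * ind (exf eb (upd eb f x e) g = exf eb (upd eb f x' e) g)
  have hD : ∀ g y e, 0 ≤ D g y e := fun g y e => by
    have := den_nonneg (sp ep y) (lay β l (col g)) e
    positivity
  have h3 := ex_prod_indep univ (fun g => univ.filter fun c => l c = col g)
    (fun g _ g2 _ h => disjoint_filter.2 fun c _ h1 h2 => h (hcol (h1.symm.trans h2))) F
    fun g _ y y2 h => by
      have : D g y = D g y2 := by
        simp only [D]
        rw [den_congr (q2 := sp ep y2) fun i hi => by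
          rw [sp, sp, h i.1 (by simpa [lay] using hi)]]
      by_cases hg : g = f
      · subst hg; simp only [F, this, if_true]
      · simp only [F, this, if_neg hg]
  simp only [← mul_prod_erase univ _ (mem_univ f)] at h3
  have h4 : ∀ g ∈ univ.erase f, ∀ y, F g y = _ := fun g hg y => if_neg (ne_of_mem_erase hg)
  have h5 : ∀ y, F f y = D f y e := fun y => if_pos rfl
  simp only [prod_congr rfl fun g hg => h4 g hg _, h5] at h3
  refine h3.trans_le ?_
  rw [mul_assoc]
  refine mul_le_mul ?_ ?_ (prod_nonneg fun g hg => expect_nonneg fun y _ => ?_) (by positivity)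
  · simp only [D, expect_add_distrib, ← mul_expect, Fintype.expect_const]
    have := mul_le_mul_of_nonneg_left (Mom_den hne (lay β l (col f)) e) hQ0
    linarith only [this]
  · calc _ ≤ ∏ g ∈ univ.erase f, C1 *
          (1 + κ * ind (Mom_M (exf eb (upd eb f x e) g) (exf eb (upd eb f x' e) g))) := by
          refine prod_le_prod (fun g hg => expect_nonneg fun y _ => ?_) fun g hg => ?_
          · rw [h4 g hg]
            exact add_nonneg (mul_nonneg (hD _ _ _) (hD _ _ _))
              (mul_nonneg (mul_nonneg h0 (hD _ _ _)) (ind_nonneg _))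
          · simp only [h4 g hg]
            exact Mom_fac hne _ _ _ hQ h0 (by simpa using hM) (by simpa using h2)
      _ ≤ _ := by
          rw [prod_mul_distrib, prod_const]
          exact mul_le_mul_of_nonneg_right (pow_le_pow_right₀ hC (card_le_univ _))
            (prod_nonneg fun g _ => by have := ind_nonneg (Mom_M (exf eb (upd eb f x e) g)
              (exf eb (upd eb f x' e) g)); positivity)
  · rw [h4 g hg]
    exact add_nonneg (mul_nonneg (hD _ _ _) (hD _ _ _))
      (mul_nonneg (mul_nonneg h0 (hD _ _ _)) (ind_nonneg _))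

end Pool.Agent.Work.MP_d4a230_co.U
end

-- merged part: Pool.Agent.Work.MP_d4a230_co.U.P2
section
/-!
Bounded differences.
PLAN. mgf_bd: for S : Finset ι let g S y be the average over y2 of f (S.piecewise y y2); prove the
bound for g S with S.card by induction on S. Step: g S y is the average over a of
g (insert i S) (update y i a), these values are within c of each other, and a mean zero variable X
with |X| <= c has average of exp (s X) at most cosh (s c) <= exp (s^2 c^2 / 2) (convexity of exp on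
[-c, c], Real.cosh_le_exp_half_sq). Use ex_update. mcdiarmid: Markov with s = a / (c^2 card).
maxineq: err y = sup over ω of the deviation; exp (s err) <= sum over ω of exp (s X) + exp (-s X);
Jensen (or exp x >= exp m * (1 + x - m)); take s = δ / c.
-/

namespace Pool.Agent.Work.MP_d4a230_co.U

open Finset Filter Topology Pool.Agent.Work.MP_07f1b5_pr
open scoped BigOperators


variable {ι κ : Type} [Fintype ι] [DecidableEq ι] [Fintype κ] [Nonempty κ]

lemma P2_hoef (X : κ → ℝ) (c s : ℝ) (h0 : 𝔼 a, X a = 0) (h : ∀ a, |X a| ≤ c) :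
    𝔼 a, Real.exp (s * X a) ≤ Real.exp (s ^ 2 * c ^ 2 / 2) := by
  refine (ex_mono (g := fun a => Real.cosh (s * c) + X a * (Real.sinh (s * c) / c))
    fun a => ?_).trans ?_
  · rcases ((abs_nonneg _).trans (h a)).eq_or_lt with hc | hc
    · have := h a
      rw [← hc, abs_nonpos_iff] at this
      simp [this, ← hc]
    · have := Real.exp_mul_le_cosh_add_mul_sinh (t := X a / c)
        (by rw [abs_div, abs_of_pos hc, div_le_one hc]; exact h a) (s * c)
      rwa [show X a / c * (s * c) = s * X a by field_simp, div_mul_eq_mul_div, mul_div_assoc] at this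
  · rw [expect_add_distrib, ← expect_mul, h0, zero_mul, add_zero, Fintype.expect_const, ← mul_pow]
    exact Real.cosh_le_exp_half_sq _

lemma P2_ind (c s : ℝ) (S : Finset ι) : ∀ f : (ι → κ) → ℝ,
    (∀ y i a, |f (Function.update y i a) - f y| ≤ c) →
    (∀ y y2, (∀ i ∈ S, y i = y2 i) → f y = f y2) →
    𝔼 y, Real.exp (s * (f y - 𝔼 y2, f y2)) ≤ Real.exp (s ^ 2 * c ^ 2 * S.card / 2) := by
  induction S using Finset.induction_on with
  | empty =>
    intro f _ h
    refine ex_le (Real.exp_nonneg _) fun y => ?_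
    rw [expect_congr rfl fun y2 _ => h y2 y (by simp), Fintype.expect_const]
    simp
  | insert i S hi ih =>
    intro f hf h
    have h1 := ih (fun y => 𝔼 a, f (Function.update y i a)) (fun y j b => by
      rw [← expect_sub_distrib]
      refine (ex_abs _).trans (expect_le univ_nonempty fun a _ => ?_)
      by_cases e : j = i
      · rw [e, Function.update_idem, sub_self, abs_zero]
        exact (abs_nonneg _).trans (hf y i a)
      · rw [Function.update_comm e]
        exact hf _ _ _) (fun y y2 e => expect_congr rfl fun a _ => h _ _ fun j hj => by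
      by_cases e2 : j = i
      · rw [e2, Function.update_self, Function.update_self]
      · rw [Function.update_of_ne e2, Function.update_of_ne e2,
          e j ((mem_insert.1 hj).resolve_left e2)])
    rw [← ex_update] at h1
    rw [ex_update i, card_insert_of_notMem hi, Nat.cast_succ, mul_add, add_div, Real.exp_add, mul_one]
    refine le_trans (ex_mono fun y => ?_)
      ((expect_mul _ _ _).ge.trans (mul_le_mul_of_nonneg_right h1 (Real.exp_nonneg _)))
    have h2 := P2_hoef (fun a => f (Function.update y i a) - 𝔼 b, f (Function.update y i b)) c s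
      (by rw [expect_sub_distrib, Fintype.expect_const, sub_self]) fun a => by
        rw [← Fintype.expect_const (ι := κ) (f (Function.update y i a)), ← expect_sub_distrib]
        refine (ex_abs _).trans (expect_le univ_nonempty fun b _ => ?_)
        have := hf (Function.update y i b) i a
        rwa [Function.update_idem] at this
    refine le_trans (Eq.le ?_) (mul_le_mul_of_nonneg_left h2 (Real.exp_nonneg _))
    rw [mul_expect]
    refine expect_congr rfl fun a _ => ?_
    rw [← Real.exp_add, ← mul_add, sub_add_sub_cancel']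

theorem mgf_bd (f : (ι → κ) → ℝ) (c : ℝ)
    (hf : ∀ y i a, |f (Function.update y i a) - f y| ≤ c) (s : ℝ) :
    𝔼 y, Real.exp (s * (f y - 𝔼 y2, f y2)) ≤ Real.exp (s ^ 2 * c ^ 2 * Fintype.card ι / 2) := by
  exact P2_ind c s univ f hf fun y y2 h => congrArg f (funext fun i => h i (mem_univ i))

lemma P2_abs (f : (ι → κ) → ℝ) (c : ℝ)
    (hf : ∀ y i a, |f (Function.update y i a) - f y| ≤ c) (s : ℝ) :
    𝔼 y, Real.exp (s * |f y - 𝔼 y2, f y2|) ≤
      2 * Real.exp (s ^ 2 * c ^ 2 * Fintype.card ι / 2) := by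
  have h1 := mgf_bd f c hf s
  have h2 := mgf_bd f c hf (-s)
  rw [neg_sq] at h2
  rw [two_mul]
  refine le_trans ((ex_mono fun y => ?_).trans_eq (expect_add_distrib _ _ _)) (add_le_add h1 h2)
  rcases abs_choice (f y - 𝔼 y2, f y2) with e | e <;> rw [e]
  · exact le_add_of_nonneg_right (Real.exp_nonneg _)
  · rw [mul_neg, neg_mul]
    exact le_add_of_nonneg_left (Real.exp_nonneg _)

theorem mcdiarmid (f : (ι → κ) → ℝ) {c a : ℝ} (hc : 0 < c) (ha : 0 ≤ a)
    (hf : ∀ y i b, |f (Function.update y i b) - f y| ≤ c) :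
    𝔼 y, ind (a ≤ |f y - 𝔼 y2, f y2|) ≤
      2 * Real.exp (-(a ^ 2 / (2 * c ^ 2 * Fintype.card ι))) := by
  have h := P2_abs f c hf (a / (c ^ 2 * Fintype.card ι))
  have e : -(a ^ 2 / (2 * c ^ 2 * Fintype.card ι)) = (a / (c ^ 2 * Fintype.card ι)) ^ 2 * c ^ 2 *
      Fintype.card ι / 2 + -(a / (c ^ 2 * Fintype.card ι) * a) := by
    by_cases h0 : (Fintype.card ι : ℝ) = 0
    · simp [h0]
    · field_simp
      ring
  have hs : 0 ≤ a / (c ^ 2 * Fintype.card ι) := by positivity
  generalize a / (c ^ 2 * Fintype.card ι) = s at h e hs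
  rw [e, Real.exp_add, ← mul_assoc]
  refine le_trans (ex_mono fun y => ?_)
    ((expect_mul _ _ _).ge.trans (mul_le_mul_of_nonneg_right h (Real.exp_nonneg _)))
  by_cases h1 : a ≤ |f y - 𝔼 y2, f y2|
  · rw [ind_pos h1, ← Real.exp_add, ← mul_neg, ← mul_add]
    exact Real.one_le_exp (mul_nonneg hs (by linarith only [h1]))
  · rw [ind_neg h1]
    positivity

theorem maxineq {Ω : Type} [Fintype Ω] (f : Ω → (ι → κ) → ℝ) {c δ : ℝ} (hc : 0 < c) (hδ : 0 < δ)
    (hf : ∀ ω y i a, |f ω (Function.update y i a) - f ω y| ≤ c)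
    (hΩ : Real.log (2 * Fintype.card Ω) ≤ δ ^ 2 * Fintype.card ι) :
    ∃ err : (ι → κ) → ℝ, (∀ y, 0 ≤ err y) ∧ 𝔼 y, err y ≤ 2 * δ * c * Fintype.card ι ∧
      ∀ y ω, |f ω y - 𝔼 y2, f ω y2| ≤ err y := by
  rcases isEmpty_or_nonempty Ω with h0 | h0
  · exact ⟨fun _ => 0, fun _ => le_rfl, ex_le (by positivity) fun _ => by positivity,
      fun _ ω => h0.elim ω⟩
  choose w hw using fun y => Finite.exists_max fun ω => |f ω y - 𝔼 y2, f ω y2|
  refine ⟨fun y => |f (w y) y - 𝔼 y2, f (w y) y2|, fun _ => abs_nonneg _, ?_, hw⟩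
  have hN : (0 : ℝ) < 2 * Fintype.card Ω := by positivity
  rw [Real.log_le_iff_le_exp hN] at hΩ
  generalize hm : δ ^ 2 * Fintype.card ι = m at hΩ
  have h1 : 𝔼 y, Real.exp (δ / c * |f (w y) y - 𝔼 y2, f (w y) y2|) ≤ Real.exp (m + m / 2) := by
    refine (ex_mono fun y => single_le_sum
      (f := fun ω => Real.exp (δ / c * |f ω y - 𝔼 y2, f ω y2|)) (fun _ _ => Real.exp_nonneg _)
      (mem_univ (w y))).trans ?_
    rw [expect_sum_comm]
    refine (sum_le_sum fun ω _ => P2_abs (f ω) c (hf ω) _).trans ?_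
    rw [sum_const, card_univ, nsmul_eq_mul, ← mul_assoc, mul_comm _ (2 : ℝ), Real.exp_add,
      ← mul_pow, div_mul_cancel₀ _ hc.ne', hm]
    exact mul_le_mul_of_nonneg_right hΩ (Real.exp_nonneg _)
  have h2 : 𝔼 y, δ / c * |f (w y) y - 𝔼 y2, f (w y) y2| ≤ m + m / 2 := by
    refine (ex_mono (g := fun y => Real.exp (δ / c * |f (w y) y - 𝔼 y2, f (w y) y2|) /
      Real.exp (m + m / 2) + (m + m / 2 - 1)) fun y => ?_).trans ?_
    · rw [← Real.exp_sub]
      linarith only [Real.add_one_le_exp (δ / c * |f (w y) y - 𝔼 y2, f (w y) y2| - (m + m / 2))]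
    · rw [expect_add_distrib, Fintype.expect_const, ← expect_div]
      linarith only [h1, (div_le_one (Real.exp_pos _)).2 h1]
  rw [← mul_expect, ← le_div_iff₀' (by positivity), ← hm] at h2
  refine h2.trans ?_
  rw [div_le_iff₀ (by positivity)]
  have : 2 * δ * c * Fintype.card ι * (δ / c) = 2 * (δ ^ 2 * Fintype.card ι) := by field_simp
  have h3 : 0 ≤ δ ^ 2 * Fintype.card ι := by positivity
  linarith only [this, h3]

end Pool.Agent.Work.MP_d4a230_co.U
end

-- merged part: Pool.Agent.Work.MP_d4a230_co.U.RegK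
section
/-!
Numerical consequences of the regime. Notation v = card W, k = card edges, b = card β >= 1,
N = M b, P = 2N/n^2, so c <= n^(v-2) P^(k-1) eventually and 3 <= v <= k (R.bal.h3, R.bal.hk).
PLAN. From c <= n^(v-2) P^(k-1) and v-2 <= k-2: (nP)^(k-1) >= c n, hence nP / (log n)^j tends to
infinity for every j (Real.isLittleO_pow_log_id_atTop or log x <= x^s / s). This gives lin.
net: K = ceil (M / (log n)^2); (n^2/K) <= b (n^2/N) (log n)^2; raise to the power a (k-1) and use
(v-2) a + 1 <= (k-1) c; finish with pow_le_pow_left contrapositive (pow_le_pow_iff_left).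
wk, st: X = τ n^(v-c) P^(k-a) satisfies X * n^(c-2) P^(a-1) = τ n^(v-2) P^(k-1) = rate * aut / (2k)
which is bounded, and (n^(c-2) P^(a-1))^(k-1) >= n^gap * c0^(a-1) with gap >= 0 or >= 1; finitely
many (a, c). mono: rate and the lower bound change by the factor (N2/N)^(k-1).
-/

namespace Pool.Agent.Work.MP_d4a230_co.U

open Finset Filter Topology Pool.Agent.Work.MP_07f1b5_pr
open scoped BigOperators

variable {α β : Type} [Fintype α] [DecidableEq α] [Fintype β] [DecidableEq β]
  {W : Type} [Fintype W] [DecidableEq W] {H : SimpleGraph W} [DecidableRel H.Adj]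
  {ep : β → α × α} {n M : ℕ → ℕ} {τ : ℕ → ℝ}

lemma RegK_vk (B : HBal H) : Fintype.card W - 2 + 1 ≤ H.edgeFinset.card - 1 := by
  have := B.h3
  have := B.hk
  omega

lemma RegK_cast (hn : Tendsto n atTop atTop) : Tendsto (fun j => (n j : ℝ)) atTop atTop :=
  tendsto_natCast_atTop_atTop.comp hn

lemma RegK_b (R : Reg H ep n M τ) : (1 : ℝ) ≤ Fintype.card β := by
  have := R.nb
  exact_mod_cast Fintype.card_pos

lemma RegK_Y {x p c B : ℝ} {v k a d g : ℕ} (hx : 1 ≤ x) (hp : 0 ≤ p) (hc : 0 ≤ c) (hc1 : c ≤ 1)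
    (h : c ≤ x ^ v * p ^ k) (hk : k ≠ 0) (ha : a ≤ k) (hg : a * v + g ≤ k * d)
    (hB : B ^ k ≤ x ^ g * c ^ k) : B ≤ x ^ d * p ^ a := by
  refine le_of_pow_le_pow_left₀ hk (by positivity) (hB.trans ?_)
  calc x ^ g * c ^ k ≤ x ^ g * (x ^ v * p ^ k) ^ a :=
        mul_le_mul_of_nonneg_left ((pow_le_pow_of_le_one hc hc1 ha).trans
          (pow_le_pow_left₀ hc h a)) (by positivity)
    _ = x ^ (a * v + g) * p ^ (a * k) := by ring
    _ ≤ x ^ (k * d) * p ^ (a * k) :=
        mul_le_mul_of_nonneg_right (pow_le_pow_right₀ hx hg) (by positivity)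
    _ = (x ^ d * p ^ a) ^ k := by ring

lemma RegK_lo (R : Reg H ep n M τ) : ∃ c : ℝ, 0 < c ∧ c ≤ 1 ∧ ∀ᶠ j in atTop, (1 : ℝ) ≤ n j ∧
    c ≤ (n j : ℝ) ^ (Fintype.card W - 2) *
      (2 * ((M j * Fintype.card β : ℕ) : ℝ) / (n j : ℝ) ^ 2) ^ (H.edgeFinset.card - 1) := by
  obtain ⟨c, hc, h⟩ := R.lo
  refine ⟨min c 1, lt_min hc one_pos, min_le_right _ _, ?_⟩
  filter_upwards [h, (RegK_cast R.hn).eventually_ge_atTop 1] with j h1 h2
  exact ⟨h2, (min_le_left _ _).trans h1⟩

lemma RegK_ev (hn : Tendsto n atTop atTop) (B : ℝ) {c : ℝ} (hc : 0 < c) :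
    ∀ᶠ j in atTop, B ≤ (n j : ℝ) ^ 1 * c := by
  filter_upwards [(RegK_cast hn).eventually_ge_atTop (B / c)] with j hj
  rwa [pow_one, ← div_le_iff₀ hc]

lemma RegK_nP (R : Reg H ep n M τ) (A : ℝ) : ∀ᶠ j in atTop, A * (n j : ℝ) ≤ M j := by
  obtain ⟨c, hc, hc1, h⟩ := RegK_lo R
  have hvk := RegK_vk R.bal
  have hb := RegK_b R
  filter_upwards [h, RegK_ev R.hn ((2 * Fintype.card β * A) ^ (H.edgeFinset.card - 1))
    (pow_pos hc (H.edgeFinset.card - 1))] with j ⟨h1, h2⟩ h3
  have h4 := RegK_Y (a := 1) (d := 1) h1 (by positivity) hc.le hc1 h2 (by omega) (by omega)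
    (by omega) h3
  have h0 : (0 : ℝ) < n j := by linarith only [h1]
  have e : (n j : ℝ) ^ 1 * (2 * ((M j * Fintype.card β : ℕ) : ℝ) / (n j : ℝ) ^ 2) ^ 1 =
      2 * Fintype.card β * (M j / n j) := by
    push_cast
    field_simp
  rw [e] at h4
  exact (le_div_iff₀ h0).1 (le_of_mul_le_mul_left h4 (by linarith only [hb]))


theorem Reg.lin (R : Reg H ep n M τ) (C : ℝ) {δ : ℝ} (hδ : 0 < δ) :
    ∀ᶠ j in atTop, C * ((n j : ℝ) + 1) ≤ δ * M j := by
  filter_upwards [RegK_nP R (2 * |C| / δ), (RegK_cast R.hn).eventually_ge_atTop 1] with j h1 h2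
  rw [div_mul_eq_mul_div, div_le_iff₀ hδ] at h1
  have h3 := le_abs_self C
  have h4 := abs_nonneg C
  linarith only [h1, h3, h2, h4, mul_nonneg_of_nonpos_of_nonpos (Mathlib.Tactic.Linarith.sub_nonpos_of_le (Mathlib.Tactic.Linarith.natCast_nonneg ℝ (n j))) (Mathlib.Tactic.Linarith.sub_nonpos_of_le h3), mul_nonneg_of_nonpos_of_nonpos (Mathlib.Tactic.Linarith.sub_nonpos_of_le h2) (Mathlib.Tactic.Linarith.sub_nonpos_of_le h4)]

theorem Reg.top (R : Reg H ep n M τ) : Tendsto M atTop atTop := by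
  refine tendsto_atTop_mono' atTop ?_ R.hn
  filter_upwards [RegK_nP R 1] with j hj
  rw [one_mul] at hj
  exact_mod_cast hj

theorem Reg.pos (R : Reg H ep n M τ) : ∀ᶠ j in atTop, 0 < n j ∧ n j ≤ M j := by
  filter_upwards [RegK_nP R 1, R.hn.eventually_gt_atTop 0] with j hj h0
  rw [one_mul] at hj
  exact ⟨h0, by exact_mod_cast hj⟩

omit [DecidableEq W] in
lemma RegK_aut : 0 < aut H := lt_of_lt_of_le one_pos one_le_aut


theorem Reg.rate_bd (R : Reg H ep n M τ) : ∃ c : ℝ, 0 ≤ c ∧ ∀ᶠ j in atTop,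
    0 ≤ rate H (n j) (M j * Fintype.card β) (τ j) ∧
      rate H (n j) (M j * Fintype.card β) (τ j) ≤ c := by
  obtain ⟨c, hc⟩ := R.hi
  refine ⟨|c|, abs_nonneg c, ?_⟩
  filter_upwards [hc, R.t01] with j h1 h2
  refine ⟨?_, h1.trans (le_abs_self c)⟩
  have := h2.1
  have := RegK_aut (H := H)
  unfold rate
  positivity

lemma RegK_log (hn : Tendsto n atTop atTop) (A : ℝ) (i : ℕ) :
    ∀ᶠ j in atTop, A * Real.log (n j) ^ i ≤ n j := by
  have h := (Real.isLittleO_pow_log_id_atTop (n := i)).const_mul_left A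
  filter_upwards [(RegK_cast hn).eventually (h.bound one_pos)] with j hj
  simp only [id, one_mul, Real.norm_eq_abs, Nat.abs_cast] at hj
  exact (le_abs_self _).trans hj


theorem Reg.net (R : Reg H ep n M τ) : ∃ K : ℕ → ℕ, (∀ᶠ j in atTop, 0 < K j ∧ K j ≤ M j) ∧
    (∀ δ : ℝ, 0 < δ → ∀ᶠ j in atTop, K j * Real.log ((n j : ℝ) ^ 2 + 1) ≤ δ * M j) ∧
    ∀ (Q : ℝ) (a c : ℕ), 0 < Q → (Fintype.card W - 2) * a < (H.edgeFinset.card - 1) * c →
      ∀ᶠ j in atTop, (Q * (n j : ℝ) ^ 2 / K j) ^ a ≤ (n j : ℝ) ^ c := by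
  have hlog : Tendsto (fun j => Real.log (n j)) atTop atTop :=
    Real.tendsto_log_atTop.comp (RegK_cast R.hn)
  have hb := RegK_b R
  have hK : ∀ᶠ j in atTop, (0 : ℝ) < M j / Real.log (n j) ^ 2 := by
    filter_upwards [hlog.eventually_gt_atTop 0, R.top.eventually_gt_atTop 0] with j h1 h2
    positivity
  refine ⟨fun j => ⌈(M j : ℝ) / Real.log (n j) ^ 2⌉₊, ?_, fun δ hδ => ?_, fun Q a c hQ hac => ?_⟩
  · filter_upwards [hK, hlog.eventually_ge_atTop 1] with j h1 h2
    exact ⟨Nat.ceil_pos.2 h1, Nat.ceil_le.2 (div_le_self (by positivity) (one_le_pow₀ h2))⟩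
  · filter_upwards [hK, hlog.eventually_ge_atTop (6 / δ), hlog.eventually_gt_atTop 0,
      R.lin 3 (half_pos hδ), (RegK_cast R.hn).eventually_ge_atTop 2] with j h1 h2 h3 h4 h5
    have h6 : Real.log ((n j : ℝ) ^ 2 + 1) ≤ 3 * Real.log (n j) := by
      have := Real.log_pow (n j : ℝ) 3
      push_cast at this
      rw [← this]
      exact Real.log_le_log (by positivity) (by linarith only [h5, sq_nonneg (n j : ℝ), mul_nonneg_of_nonpos_of_nonpos (Mathlib.Tactic.Linarith.sub_nonpos_of_le (sq_nonneg ↑(n j))) (Mathlib.Tactic.Linarith.sub_nonpos_of_le h5), mul_nonneg_of_nonpos_of_nonpos (Mathlib.Tactic.Linarith.sub_nonpos_of_le (Mathlib.Tactic.Linarith.natCast_nonneg ℝ (n j))) (Mathlib.Tactic.Linarith.sub_nonpos_of_le h5)])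
    have h7 := (Nat.ceil_lt_add_one h1.le).le
    have h8 := Real.log_le_sub_one_of_pos (show (0 : ℝ) < n j by linarith only [h5])
    have h9 : (M j : ℝ) / Real.log (n j) ^ 2 * (3 * Real.log (n j)) ≤ δ / 2 * M j := by
      have e : (M j : ℝ) / Real.log (n j) ^ 2 * (3 * Real.log (n j)) =
          3 / Real.log (n j) * M j := by field_simp
      rw [e]
      refine mul_le_mul_of_nonneg_right ?_ (by positivity)
      rw [div_le_iff₀ hδ] at h2
      rw [div_le_iff₀ h3]
      linarith only [h2]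
    calc _ ≤ ((M j : ℝ) / Real.log (n j) ^ 2 + 1) * (3 * Real.log (n j)) :=
          mul_le_mul h7 h6 (Real.log_nonneg (by linarith only [sq_nonneg (n j : ℝ), sq_nonneg ↑(n j)])) (by positivity)
      _ ≤ _ := by linarith only [h4, h8, h9]
  · obtain ⟨c0, hc, hc1, h⟩ := RegK_lo R
    have hvk := RegK_vk R.bal
    set k := H.edgeFinset.card - 1
    set v := Fintype.card W - 2
    filter_upwards [h, hK, hlog.eventually_gt_atTop 0, R.top.eventually_gt_atTop 0,
      RegK_log R.hn ((2 * Q * Fintype.card β) ^ (a * k) / c0 ^ a) (2 * (a * k))]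
      with j ⟨h1, h2⟩ h3 h4 h5 h6
    have h0 : (0 : ℝ) < n j := by linarith only [h1]
    have hM : (0 : ℝ) < M j := by exact_mod_cast h5
    set p := 2 * ((M j * Fintype.card β : ℕ) : ℝ) / (n j : ℝ) ^ 2 with hp
    have hp0 : 0 < p := by
      rw [hp]
      push_cast
      positivity
    have h7 : Q * (n j : ℝ) ^ 2 / (⌈(M j : ℝ) / Real.log (n j) ^ 2⌉₊ : ℝ) ≤
        2 * Q * Fintype.card β * Real.log (n j) ^ 2 / p := by
      refine (div_le_div_of_nonneg_left (by positivity) h3 (Nat.le_ceil _)).trans (le_of_eq ?_)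
      rw [hp]
      push_cast
      field_simp
    refine (pow_le_pow_left₀ (by positivity) h7 a).trans ?_
    refine le_of_pow_le_pow_left₀ (n := k) (by omega) (by positivity) ?_
    rw [← pow_mul, div_pow, div_le_iff₀ (by positivity)]
    rw [div_mul_eq_mul_div, div_le_iff₀ (by positivity)] at h6
    calc _ = (2 * Q * Fintype.card β) ^ (a * k) * Real.log (n j) ^ (2 * (a * k)) := by
          rw [mul_pow, ← pow_mul]
      _ ≤ n j * c0 ^ a := h6
      _ ≤ n j * ((n j : ℝ) ^ v * p ^ k) ^ a :=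
          mul_le_mul_of_nonneg_left (pow_le_pow_left₀ hc.le h2 a) h0.le
      _ = (n j : ℝ) ^ (v * a + 1) * p ^ (a * k) := by ring
      _ ≤ (n j : ℝ) ^ (k * c) * p ^ (a * k) :=
          mul_le_mul_of_nonneg_right (pow_le_pow_right₀ h1 hac) (by positivity)
      _ = _ := by ring

lemma RegK_X (R : Reg H ep n M τ) : ∃ T : ℝ, 0 ≤ T ∧ ∀ᶠ j in atTop, ∀ a c : ℕ, 1 ≤ a →
    a ≤ H.edgeFinset.card → 2 ≤ c → c ≤ Fintype.card W → ∀ B : ℝ, 0 < B →
    B ≤ (n j : ℝ) ^ (c - 2) *
      (2 * ((M j * Fintype.card β : ℕ) : ℝ) / (n j : ℝ) ^ 2) ^ (a - 1) →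
    τ j * (n j : ℝ) ^ (Fintype.card W - c) *
      (2 * ((M j * Fintype.card β : ℕ) : ℝ) / (n j : ℝ) ^ 2) ^ (H.edgeFinset.card - a) ≤
        T / B := by
  obtain ⟨c0, hc0, h⟩ := R.rate_bd
  have ha := RegK_aut (H := H)
  have hk : (0 : ℝ) < H.edgeFinset.card := by
    have := RegK_vk R.bal
    exact_mod_cast (show 0 < H.edgeFinset.card by omega)
  have hr : 0 < 2 * H.edgeFinset.card / aut H := by positivity
  refine ⟨c0 / (2 * H.edgeFinset.card / aut H), by positivity, ?_⟩
  filter_upwards [h, R.t01] with j h1 h2 a c a1 a2 c1 c2 B hB hY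
  have ht := h2.1
  rw [le_div_iff₀ hB]
  refine (mul_le_mul_of_nonneg_left hY (by positivity)).trans ?_
  rw [le_div_iff₀ hr]
  refine le_trans (le_of_eq ?_) h1.2
  unfold rate
  rw [show Fintype.card W - 2 = Fintype.card W - c + (c - 2) by omega,
    show H.edgeFinset.card - 1 = H.edgeFinset.card - a + (a - 1) by omega, pow_add, pow_add]
  ring


theorem Reg.wk (R : Reg H ep n M τ) : ∃ C : ℝ, 0 ≤ C ∧ ∀ᶠ j in atTop, ∀ a c : ℕ, 1 ≤ a →
    a ≤ H.edgeFinset.card → 2 ≤ c → c ≤ Fintype.card W →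
    (a - 1) * (Fintype.card W - 2) ≤ (H.edgeFinset.card - 1) * (c - 2) →
    τ j * (n j : ℝ) ^ (Fintype.card W - c) *
      (2 * ((M j * Fintype.card β : ℕ) : ℝ) / (n j : ℝ) ^ 2) ^ (H.edgeFinset.card - a) ≤ C := by
  obtain ⟨T, hT, h⟩ := RegK_X R
  obtain ⟨c0, hc, hc1, h'⟩ := RegK_lo R
  have hvk := RegK_vk R.bal
  refine ⟨T / c0, by positivity, ?_⟩
  filter_upwards [h, h'] with j h1 ⟨h2, h3⟩ a c a1 a2 c1 c2 hg
  exact h1 a c a1 a2 c1 c2 c0 hc (RegK_Y (g := 0) h2 (by positivity) hc.le hc1 h3 (by omega)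
    (by omega) hg (by simp))

theorem Reg.st (R : Reg H ep n M τ) {ε : ℝ} (hε : 0 < ε) : ∀ᶠ j in atTop, ∀ a c : ℕ, 1 ≤ a →
    a ≤ H.edgeFinset.card → 2 ≤ c → c ≤ Fintype.card W →
    (a - 1) * (Fintype.card W - 2) < (H.edgeFinset.card - 1) * (c - 2) →
    τ j * (n j : ℝ) ^ (Fintype.card W - c) *
      (2 * ((M j * Fintype.card β : ℕ) : ℝ) / (n j : ℝ) ^ 2) ^ (H.edgeFinset.card - a) ≤ ε := by
  obtain ⟨T, hT, h⟩ := RegK_X R
  obtain ⟨c0, hc, hc1, h'⟩ := RegK_lo R
  have hvk := RegK_vk R.bal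
  filter_upwards [h, h', RegK_ev R.hn ((T / ε + 1) ^ (H.edgeFinset.card - 1))
    (pow_pos hc (H.edgeFinset.card - 1))] with j h1 ⟨h2, h3⟩ h4 a c a1 a2 c1 c2 hg
  refine (h1 a c a1 a2 c1 c2 (T / ε + 1) (by positivity) (RegK_Y h2 (by positivity) hc.le hc1 h3
    (by omega) (by omega) hg h4)).trans ?_
  rw [div_le_iff₀ (by positivity), mul_add, mul_div_cancel₀ _ hε.ne']
  linarith only [hε]

lemma RegK_dbl {N N2 : ℕ} (h : N ≤ 2 * N2) (x : ℝ) (k : ℕ) :
    (2 * (N : ℝ) / x ^ 2) ^ k ≤ 2 ^ k * (2 * (N2 : ℝ) / x ^ 2) ^ k := by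
  have h' : (N : ℝ) ≤ 2 * N2 := by exact_mod_cast h
  rw [← mul_pow, ← mul_div_assoc]
  gcongr


/-- Change of pattern: the number of variables changes by a bounded factor. -/
theorem Reg.change (R : Reg H ep n M τ) {α2 β2 : Type} [Fintype β2] [Nonempty β2]
    {ep2 : β2 → α2 × α2} {M2 : ℕ → ℕ} (hne : ∀ j, (ep2 j).1 ≠ (ep2 j).2)
    (hs : (Function.Injective fun j => s((ep2 j).1, (ep2 j).2)) ∨ Tendsto τ atTop (𝓝 0))
    (hM : ∀ᶠ j in atTop, M j * Fintype.card β ≤ 2 * (M2 j * Fintype.card β2) ∧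
      M2 j * Fintype.card β2 ≤ 2 * (M j * Fintype.card β)) : Reg H ep2 n M2 τ := by
  refine ⟨R.bal, inferInstance, hne, R.hn, R.t01, ?_, ?_, hs⟩
  · obtain ⟨c, hc, h⟩ := R.lo
    refine ⟨c / 2 ^ (H.edgeFinset.card - 1), by positivity, ?_⟩
    filter_upwards [h, hM] with j h1 h2
    rw [div_le_iff₀ (by positivity)]
    refine h1.trans ((mul_le_mul_of_nonneg_left (RegK_dbl h2.1 _ _) (by positivity)).trans
      (le_of_eq ?_))
    ring
  · obtain ⟨c, h⟩ := R.hi
    refine ⟨2 ^ (H.edgeFinset.card - 1) * c, ?_⟩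
    filter_upwards [h, hM, R.t01] with j h1 h2 h3
    have ht := h3.1
    have ha := RegK_aut (H := H)
    refine le_trans ?_ (mul_le_mul_of_nonneg_left h1 (by positivity))
    unfold rate
    refine (mul_le_mul_of_nonneg_left (RegK_dbl h2.2 _ _) (by positivity)).trans (le_of_eq ?_)
    ring

/-- Rounding the number of variables down to a multiple of `b` does not change the limit rate. -/
theorem rate_div {N : ℕ → ℕ} (hN : Tendsto N atTop atTop) {L : ℝ} {b : ℕ} (hb : 0 < b)
    (h : Tendsto (fun j => rate H (n j) (N j) (τ j)) atTop (𝓝 L)) :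
    Tendsto (fun j => rate H (n j) (N j / b * b) (τ j)) atTop (𝓝 L) := by
  have hN' := RegK_cast hN
  have h1 : Tendsto (fun j => ((N j / b * b : ℕ) : ℝ) / N j) atTop (𝓝 1) := by
    have h2 : Tendsto (fun j => 1 - (b : ℝ) / N j) atTop (𝓝 (1 - 0)) :=
      tendsto_const_nhds.sub (tendsto_const_nhds.div_atTop hN')
    rw [sub_zero] at h2
    refine tendsto_of_tendsto_of_tendsto_of_le_of_le' h2 tendsto_const_nhds ?_ ?_
    · filter_upwards [hN'.eventually_gt_atTop 0] with j hj
      have h3 : ((N j : ℕ) : ℝ) ≤ ((N j / b * b : ℕ) : ℝ) + b := by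
        exact_mod_cast (Nat.lt_div_mul_add hb).le
      rw [le_div_iff₀ hj, sub_mul, div_mul_cancel₀ _ hj.ne']
      linarith only [h3]
    · filter_upwards [hN'.eventually_gt_atTop 0] with j hj
      rw [div_le_one hj]
      exact_mod_cast Nat.div_mul_le_self _ _
  have h4 := h.mul (h1.pow (H.edgeFinset.card - 1))
  rw [one_pow, mul_one] at h4
  refine h4.congr' ?_
  filter_upwards [hN'.eventually_gt_atTop 0] with j hj
  unfold rate
  rw [mul_assoc _ (_ ^ _), ← mul_pow]
  congr 2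
  field_simp

/-- A thinned regime with prescribed rate and bounded density. -/
theorem reg_thin (B : HBal H) {N : ℕ → ℕ} {L q : ℝ} (hL : 0 ≤ L) (hq : 0 < q)
    (hn : Tendsto n atTop atTop) (hN : ∀ᶠ j in atTop, q * (n j : ℝ) ^ 2 ≤ 2 * N j) :
    ∃ τ : ℕ → ℝ, Reg H ep1 n N τ ∧ Tendsto τ atTop (𝓝 0) ∧
      ∀ᶠ j in atTop, rate H (n j) (N j) (τ j) = L := by
  have ha := RegK_aut (H := H)
  have hvk := RegK_vk B
  have h3 := B.h3
  have hk : (0 : ℝ) < H.edgeFinset.card := by
    exact_mod_cast (show 0 < H.edgeFinset.card by omega)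
  have hlo : ∀ᶠ j in atTop, (n j : ℝ) * q ^ (H.edgeFinset.card - 1) ≤
      (n j : ℝ) ^ (Fintype.card W - 2) *
        (2 * (N j : ℝ) / (n j : ℝ) ^ 2) ^ (H.edgeFinset.card - 1) := by
    filter_upwards [hN, (RegK_cast hn).eventually_ge_atTop 1] with j h1 h2
    refine mul_le_mul (le_self_pow₀ h2 (by omega)) (pow_le_pow_left₀ hq.le ?_ _) (by positivity)
      (by positivity)
    rwa [le_div_iff₀ (by positivity)]
  have hD : Tendsto (fun j => rate H (n j) (N j) 1) atTop atTop := by
    refine tendsto_atTop_mono' atTop ?_ (((RegK_cast hn).atTop_mul_const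
      (pow_pos hq (H.edgeFinset.card - 1))).const_mul_atTop
        (show 0 < 2 * H.edgeFinset.card / aut H by positivity))
    filter_upwards [hlo] with j hj
    unfold rate
    rw [one_mul, mul_assoc _ (_ ^ _)]
    exact mul_le_mul_of_nonneg_left hj (by positivity)
  have ht : Tendsto (fun j => L / rate H (n j) (N j) 1) atTop (𝓝 0) :=
    tendsto_const_nhds.div_atTop hD
  have hr : ∀ᶠ j in atTop, rate H (n j) (N j) (L / rate H (n j) (N j) 1) = L := by
    filter_upwards [hD.eventually_gt_atTop 0] with j hj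
    have e : ∀ t : ℝ, rate H (n j) (N j) t = t * rate H (n j) (N j) 1 := fun t => by
      unfold rate
      ring
    rw [e, div_mul_cancel₀ _ hj.ne']
  refine ⟨_, ⟨B, inferInstance, fun _ => by simp [ep1], hn, ?_, ?_, ?_, Or.inr ht⟩, ht, hr⟩
  · filter_upwards [hD.eventually_gt_atTop 0, ht.eventually (eventually_le_nhds one_pos)]
      with j h1 h2
    exact ⟨by positivity, h2⟩
  · refine ⟨q ^ (H.edgeFinset.card - 1), by positivity, ?_⟩
    filter_upwards [hlo, (RegK_cast hn).eventually_ge_atTop 1] with j h1 h2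
    rw [Fintype.card_unit, mul_one]
    exact (le_mul_of_one_le_left (by positivity) h2).trans h1
  · refine ⟨L, ?_⟩
    filter_upwards [hr] with j hj
    rw [Fintype.card_unit, mul_one, hj]

end Pool.Agent.Work.MP_d4a230_co.U
end

-- merged part: Pool.Agent.Work.MP_d4a230_co.U.Ext
section
/-!
Extension bounds.
PLAN. Let y2 = K.piecewise y0 y. A set C with Acd has a labelling ι : edges → variables with distinct
components and an embedding φ with sp (ι f) = f.map φ, so the sum over C is at most the sum over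
(φ, ι) of the indicator. Split by the set A of edges f with (ι f).1 ∈ K (nonempty since C touches
g ∈ K). For fixed A and ι on A (at most (κ b)^|A| choices) φ on the vertices U covered by A takes
values among the at most 2k ends of the known positions: at most (2k)^|U| n^(v-|U|) maps φ. The other
k - |A| variables lie in distinct components outside K: the sum over them of the average is at most
(N * 2/n^2)^(k-|A|) (ex_prod_indep, ex_hit, ind <= hit). Weak balance (Sys.wbal for B.sys, or B.bal,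
|A| <= ein U) gives the hypothesis of R.wk; if 2 <= |A| < k the strict one of R.st (|U| >= 3; if
U = univ because |A| < k). State one deterministic bound and derive ext and ext_strict. ext_pow:
induction on m for all κ: XT^(m+1) = sum_C τ ind * XT^m, resample outside K ∪ components of C
(ex_resample, Acd_congr is in Gib but easy to redo).
-/

namespace Pool.Agent.Work.MP_d4a230_co.U

open Finset Filter Topology Pool.Agent.Work.MP_07f1b5_pr
open scoped BigOperators

variable {α β : Type} [Fintype α] [DecidableEq α] [Fintype β] [DecidableEq β]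
  {W : Type} [Fintype W] [DecidableEq W] {H : SimpleGraph W} [DecidableRel H.Adj]
  {ep : β → α × α} {n M : ℕ → ℕ} {τ : ℕ → ℝ}

section det

variable {G V : Type} [Fintype G] [DecidableEq G] [Fintype V] [DecidableEq V]

lemma Ext_cnt {ι κ : Type} [Fintype ι] [DecidableEq ι] [Fintype κ] [DecidableEq κ] (S : Finset ι)
    (A : Finset κ) : ∑ y : ι → κ, ind (∀ i ∈ S, y i ∈ A) =
      (A.card : ℝ) ^ S.card * (Fintype.card κ : ℝ) ^ (Fintype.card ι - S.card) := by
  have e : (univ.filter fun y : ι → κ => ∀ i ∈ S, y i ∈ A) =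
      Fintype.piFinset (S.piecewise (fun _ => A) fun _ => univ) := by
    ext y
    simp only [mem_filter, mem_univ, true_and, Fintype.mem_piFinset]
    refine forall_congr' fun i => ?_
    by_cases h : i ∈ S <;> simp [h]
  rw [sum_ind, e, Fintype.card_piFinset, ← prod_mul_prod_compl S,
    prod_congr rfl fun i hi => by rw [piecewise_eq_of_mem _ _ _ hi],
    prod_congr (s₁ := Sᶜ) rfl fun i hi => by rw [piecewise_eq_of_notMem _ _ _ (mem_compl.1 hi)],
    prod_const, prod_const, card_compl, card_univ]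
  push_cast
  rfl

lemma Ext_pt (hne : ∀ j, (ep j).1 ≠ (ep j).2) (i : G × β) (p : Sym2 V) :
    𝔼 y : G → α → V, ind (sp ep y i = p) ≤ 2 / (Fintype.card V : ℝ) ^ 2 := by
  induction p using Sym2.ind with | _ a b => ?_
  rw [ex_update i.1]
  refine ex_le (by positivity) fun y => ?_
  rw [← ex_hit (hne i.2) (a, b)]
  refine ex_mono fun z => ?_
  simp only [sp, Function.update_self]
  exact le_mul_of_one_le_right (ind_nonneg _) (le_add_of_nonneg_right (ind_nonneg _))

lemma Ext_lab {q : G × β → Sym2 V} {C : Finset (G × β)} (h : Acd H q Prod.fst C) :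
    ∃ x : (W → V) × (H.edgeFinset → G × β), univ.image x.2 = C ∧
      (Function.Injective fun f => (x.2 f).1) ∧ ∀ f, q (x.2 f) = f.1.map x.1 := by
  obtain ⟨h1, h2, h3⟩ := h
  obtain ⟨φ, -, hφ⟩ := mem_image.1 h1
  have : ∀ f : H.edgeFinset, ∃ i ∈ C, q i = f.1.map φ := fun f =>
    mem_image.1 (hφ ▸ mem_image_of_mem _ f.2)
  choose ι i1 i2 using this
  have hi : Function.Injective ι := fun f f' e =>
    Subtype.ext (Sym2.map.injective φ.injective (by rw [← i2, ← i2, e]))
  exact ⟨(φ, ι), eq_of_subset_of_card_le (image_subset_iff.2 fun f _ => i1 f)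
    (by rw [card_image_of_injective _ hi, card_univ, Fintype.card_coe, h2]),
    fun f f' e => hi (h3 (i1 f) (i1 f') e), i2⟩

/-- Vertices covered by a set of edges. -/
def Ext_U (A : Finset H.edgeFinset) : Finset W := A.biUnion fun f => f.1.toFinset

lemma Ext_one [Nonempty V] (hne : ∀ j, (ep j).1 ≠ (ep j).2) (K : Finset G) (y0 : G → α → V)
    (A : Finset H.edgeFinset) (φ : W → V) (ι : H.edgeFinset → G × β) :
    𝔼 y, ind ((Function.Injective fun f => (ι f).1) ∧
      (∀ f, sp ep (K.piecewise y0 y) (ι f) = f.1.map φ) ∧ ∀ f, f ∈ A ↔ (ι f).1 ∈ K) ≤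
    ind (∀ u ∈ Ext_U A, φ u ∈ (K ×ˢ univ).image fun p : G × α => y0 p.1 p.2) *
      (ind (∀ f ∈ A, ι f ∈ K ×ˢ univ) *
        (2 / (Fintype.card V : ℝ) ^ 2) ^ (H.edgeFinset.card - A.card)) := by
  by_cases h : (Function.Injective fun f => (ι f).1) ∧ (∀ f ∈ A, sp ep y0 (ι f) = f.1.map φ) ∧
      ∀ f, f ∈ A ↔ (ι f).1 ∈ K
  swap
  · refine ex_le (mul_nonneg (ind_nonneg _) (mul_nonneg (ind_nonneg _) (by positivity))) fun y => ?_
    rw [ind_neg]
    · exact mul_nonneg (ind_nonneg _) (mul_nonneg (ind_nonneg _) (by positivity))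
    refine fun ⟨a, b, c⟩ => h ⟨a, fun f hf => ?_, c⟩
    rw [← b f, sp, sp, piecewise_eq_of_mem _ _ _ ((c f).1 hf)]
  obtain ⟨h1, h2, h3⟩ := h
  rw [ind_pos, ind_pos fun f hf => mem_product.2 ⟨(h3 f).1 hf, mem_univ _⟩, one_mul, one_mul]
  swap
  · intro u hu
    obtain ⟨f, hf, hu⟩ := mem_biUnion.1 hu
    have : φ u ∈ sp ep y0 (ι f) := h2 f hf ▸ Sym2.mem_map.2 ⟨u, Sym2.mem_toFinset.1 hu, rfl⟩
    rcases Sym2.mem_iff.1 this with e | e <;>
      exact mem_image.2 ⟨((ι f).1, _), mem_product.2 ⟨(h3 f).1 hf, mem_univ _⟩, e.symm⟩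
  calc _ ≤ 𝔼 y : G → α → V, ∏ f ∈ Aᶜ, ind (sp ep y (ι f) = f.1.map φ) := by
        refine ex_mono fun y => ?_
        by_cases e : ∀ f, sp ep (K.piecewise y0 y) (ι f) = f.1.map φ
        · refine (ind_le_one _).trans_eq (prod_eq_one fun f hf => ind_pos ?_).symm
          rw [← e f, sp, sp, piecewise_eq_of_notMem _ _ _ fun k => mem_compl.1 hf ((h3 f).2 k)]
        · rw [ind_neg fun k => e k.2.1]
          exact prod_nonneg fun _ _ => ind_nonneg _
    _ = ∏ f ∈ Aᶜ, 𝔼 y : G → α → V, ind (sp ep y (ι f) = f.1.map φ) :=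
        ex_prod_indep _ (fun f => {(ι f).1}) (fun f _ f' _ e => disjoint_singleton.2 (h1.ne e)) _
          fun f _ y y' e => by rw [sp, sp, e _ (mem_singleton_self _)]
    _ ≤ ∏ _f ∈ Aᶜ, 2 / (Fintype.card V : ℝ) ^ 2 :=
        prod_le_prod (fun _ _ => expect_nonneg fun _ _ => ind_nonneg _) fun f _ => Ext_pt hne _ _
    _ = _ := by rw [prod_const, card_compl, Fintype.card_coe]

/-- The constant of the deterministic bound. -/
def Ext_D (H : SimpleGraph W) [DecidableRel H.Adj] (α β : Type) [Fintype α] [Fintype β] (κ : ℕ) : ℝ :=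
  2 ^ H.edgeFinset.card * (((κ : ℝ) * Fintype.card α + 1) ^ Fintype.card W *
    ((κ : ℝ) * Fintype.card β + 1) ^ H.edgeFinset.card)

lemma Ext_D_pos (κ : ℕ) : 0 < Ext_D H α β κ := by
  unfold Ext_D
  positivity

lemma Ext_main [Nonempty V] (hne : ∀ j, (ep j).1 ≠ (ep j).2) {κ : ℕ} {K : Finset G}
    (hK : K.card ≤ κ) (y0 : G → α → V) (P : Finset (G × β) → Prop) {t X : ℝ} (ht : 0 ≤ t)
    (hX0 : 0 ≤ X) (Q : Finset H.edgeFinset → Prop)
    (hP : ∀ (ι : H.edgeFinset → G × β) A, (∀ f, f ∈ A ↔ (ι f).1 ∈ K) → P (univ.image ι) → Q A)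
    (hX : ∀ A, Q A → t * (Fintype.card V : ℝ) ^ (Fintype.card W - (Ext_U A).card) *
      (2 * ((Fintype.card G * Fintype.card β : ℕ) : ℝ) / (Fintype.card V : ℝ) ^ 2) ^
        (H.edgeFinset.card - A.card) ≤ X) :
    (𝔼 y, ∑ C : Finset (G × β), t * ind (Acd H (sp ep (K.piecewise y0 y)) Prod.fst C ∧ P C)) ≤
      Ext_D H α β κ * X := by
  classical
  let F : Finset H.edgeFinset → (W → V) × (H.edgeFinset → G × β) → (G → α → V) → Prop :=
    fun A x y => (Function.Injective fun f => (x.2 f).1) ∧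
      (∀ f, sp ep (K.piecewise y0 y) (x.2 f) = f.1.map x.1) ∧ ∀ f, f ∈ A ↔ (x.2 f).1 ∈ K
  have s1 : ∀ y, ∑ C : Finset (G × β), t * ind (Acd H (sp ep (K.piecewise y0 y)) Prod.fst C ∧ P C) ≤
      ∑ A ∈ univ.filter Q, ∑ x, t * ind (F A x y) := fun y => by
    simp only [← mul_sum]
    refine mul_le_mul_of_nonneg_left ?_ ht
    calc _ ≤ ∑ C : Finset (G × β), ∑ z ∈ univ.filter Q ×ˢ univ,
          ind (F z.1 z.2 y ∧ univ.image z.2.2 = C) := by
          refine sum_le_sum fun C _ => le_trans (ind_mono fun ⟨h1, h2⟩ => ?_) (ind_exists_le _ _)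
          obtain ⟨x, rfl, x2, x3⟩ := Ext_lab h1
          have e : ∀ f, f ∈ univ.filter (fun f => (x.2 f).1 ∈ K) ↔ (x.2 f).1 ∈ K := by simp
          exact ⟨(_, x), mem_product.2 ⟨mem_filter.2 ⟨mem_univ _, hP _ _ e h2⟩, mem_univ _⟩,
            ⟨x2, x3, e⟩, rfl⟩
      _ = _ := by
          rw [sum_comm, sum_product]
          refine sum_congr rfl fun A _ => sum_congr rfl fun x _ => ?_
          rw [sum_eq_single (univ.image x.2) (fun C _ e => ind_neg fun k => e k.2.symm)
            fun k => absurd (mem_univ _) k]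
          exact ind_congr (and_iff_left rfl)
  refine (ex_mono s1).trans ?_
  rw [expect_sum_comm, Ext_D, mul_assoc]
  refine (sum_le_card_nsmul _ _ _ fun A hA => ?_).trans (by
    rw [nsmul_eq_mul]
    refine mul_le_mul_of_nonneg_right ?_ (by positivity)
    exact_mod_cast (card_le_univ _).trans_eq (by rw [Fintype.card_finset, Fintype.card_coe]))
  rw [expect_sum_comm]
  refine (sum_le_sum fun x _ => (mul_expect ..).symm.trans_le
    (mul_le_mul_of_nonneg_left (Ext_one hne K y0 A x.1 x.2) ht)).trans ?_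
  rw [← mul_sum, Fintype.sum_prod_type]
  simp only [← mul_sum, ← sum_mul]
  rw [Ext_cnt, Ext_cnt, Fintype.card_coe, Fintype.card_prod]
  have b : ∀ {a c m l : ℕ}, a ≤ κ * c → m ≤ l → (a : ℝ) ^ m ≤ ((κ : ℝ) * c + 1) ^ l :=
    fun {a c m l} h1 h2 => by
      have : (a : ℝ) ≤ κ * c := by exact_mod_cast h1
      exact (pow_le_pow_left₀ (by positivity) (by linarith only [this]) _).trans
        (pow_le_pow_right₀ (le_add_of_nonneg_left (by positivity)) h2)
  have b1 := b (a := ((K ×ˢ univ).image fun p : G × α => y0 p.1 p.2).card) (c := Fintype.card α)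
    (card_image_le.trans (by rw [card_product, card_univ]; gcongr)) (card_le_univ (Ext_U A))
  have b2 := b (a := (K ×ˢ (univ : Finset β)).card) (c := Fintype.card β)
    (by rw [card_product, card_univ]; gcongr) ((card_le_univ A).trans_eq (Fintype.card_coe _))
  refine le_trans (le_of_eq ?_) (mul_le_mul (mul_le_mul b1 b2 (by positivity) (by positivity))
    (hX A (mem_filter.1 hA).2) (by positivity) (by positivity))
  rw [mul_div_right_comm, mul_pow]
  ring

lemma Ext_bal (B : HBal H) {A : Finset H.edgeFinset} (hA : A.Nonempty) : 1 ≤ A.card ∧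
    A.card ≤ H.edgeFinset.card ∧ 2 ≤ (Ext_U A).card ∧ (Ext_U A).card ≤ Fintype.card W ∧
    (A.card - 1) * (Fintype.card W - 2) ≤ (H.edgeFinset.card - 1) * ((Ext_U A).card - 2) ∧
    (2 ≤ A.card → A.card < H.edgeFinset.card →
      (A.card - 1) * (Fintype.card W - 2) < (H.edgeFinset.card - 1) * ((Ext_U A).card - 2)) := by
  have c2 : ∀ f : H.edgeFinset, f.1.toFinset.card = 2 := fun f =>
    Sym2.card_toFinset_of_not_isDiag _ (H.not_isDiag_of_mem_edgeFinset f.2)
  have su : ∀ f ∈ A, f.1.toFinset ⊆ Ext_U A := fun f hf =>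
    subset_biUnion_of_mem (fun f : H.edgeFinset => f.1.toFinset) hf
  have a1 := card_pos.2 hA
  have a2 : A.card ≤ H.edgeFinset.card := (card_le_univ A).trans_eq (Fintype.card_coe _)
  have a3 : 2 ≤ (Ext_U A).card := (c2 _).ge.trans (card_le_card (su _ hA.choose_spec))
  have a4 := card_le_univ (Ext_U A)
  have h3 := B.h3
  refine ⟨a1, a2, a3, a4, ?_⟩
  rcases a3.eq_or_lt with e | e
  · have : A.card ≤ 1 := card_le_one.2 fun f hf g hg => by
      have e3 : g.1.toFinset = Ext_U A := eq_of_subset_of_card_le (su g hg) (by rw [c2, e])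
      exact Subtype.ext (sym2_eq_of_subset (H.not_isDiag_of_mem_edgeFinset f.2) fun x hx =>
        Sym2.mem_toFinset.1 (e3 ▸ su f hf (Sym2.mem_toFinset.2 hx)))
    exact ⟨by rw [show A.card - 1 = 0 by omega, zero_mul]; exact Nat.zero_le _, by omega⟩
  rcases a4.eq_or_lt with e' | e'
  · rw [e']
    exact ⟨Nat.mul_le_mul_right _ (by omega),
      fun _ _ => Nat.mul_lt_mul_of_pos_right (by omega) (by omega)⟩
  have a5 : A.card ≤ ein H.edgeFinset (Ext_U A) :=
    card_le_card_of_injOn (fun f => f.1) (fun f hf => mem_filter.2 ⟨f.2, su f hf⟩)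
      Subtype.val_injective.injOn
  have a6 : (A.card - 1) * (Fintype.card W - 2) <
      (H.edgeFinset.card - 1) * ((Ext_U A).card - 2) := by
    have := B.bal _ e e'
    have a7 : 1 ≤ H.edgeFinset.card := by omega
    have a8 : 2 ≤ Fintype.card W := by omega
    have a9 : 1 ≤ A.card := a1
    zify [a7, a8, a9, a3] at a5 a8 ⊢
    nlinarith only [this, a3, a5, a4]
  exact ⟨a6.le, fun _ _ => a6⟩

end det

theorem ext (R : Reg H ep n M τ) (κ : ℕ) : ∃ C : ℝ, 0 ≤ C ∧ ∀ᶠ j in atTop,
    ∀ (g : Fin (M j)) (K : Finset (Fin (M j))) (y0 : Fin (M j) → α → Fin (n j)), g ∈ K →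
      K.card ≤ κ → 𝔼 y, XT H (τ j) ep g (K.piecewise y0 y) ≤ C := by
  obtain ⟨C, c0, hC⟩ := R.wk
  refine ⟨Ext_D H α β κ * C, mul_nonneg (Ext_D_pos κ).le c0, ?_⟩
  filter_upwards [hC, R.pos, R.t01] with j h1 h2 h3 g K y0 hg hK
  have : Nonempty (Fin (n j)) := ⟨⟨0, h2.1⟩⟩
  refine Ext_main R.ne hK y0 (Tch g) h3.1 c0 Finset.Nonempty (fun ι A e ⟨b, hb⟩ => ?_) fun A hA => ?_
  · obtain ⟨f, -, hf⟩ := mem_image.1 hb
    exact ⟨f, (e f).2 (by rwa [hf])⟩
  · obtain ⟨a1, a2, a3, a4, a5, -⟩ := Ext_bal R.bal hA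
    simpa only [Fintype.card_fin] using h1 _ _ a1 a2 a3 a4 a5

theorem ext_strict (R : Reg H ep n M τ) (κ : ℕ) {ε : ℝ} (hε : 0 < ε) : ∀ᶠ j in atTop,
    ∀ (g : Fin (M j)) (K : Finset (Fin (M j))) (y0 : Fin (M j) → α → Fin (n j)), g ∈ K →
      K.card ≤ κ → (𝔼 y, ∑ C : Finset (Fin (M j) × β), τ j *
        ind (Acd H (sp ep (K.piecewise y0 y)) Prod.fst C ∧ Tch g C ∧
          (∃ i ∈ C, i.1 ∈ K ∧ i.1 ≠ g) ∧ ∃ i ∈ C, i.1 ∉ K)) ≤ ε := by
  have d0 : 0 < Ext_D H α β κ := Ext_D_pos κ
  filter_upwards [R.st (div_pos hε d0), R.pos, R.t01] with j h1 h2 h3 g K y0 hg hK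
  have : Nonempty (Fin (n j)) := ⟨⟨0, h2.1⟩⟩
  refine (Ext_main R.ne hK y0 (fun C => Tch g C ∧ (∃ i ∈ C, i.1 ∈ K ∧ i.1 ≠ g) ∧ ∃ i ∈ C, i.1 ∉ K)
    h3.1 (div_pos hε d0).le
    (fun A => 2 ≤ A.card ∧ A.card < H.edgeFinset.card)
    (fun ι A e hP => ?_) fun A hA => ?_).trans_eq (mul_div_cancel₀ _ d0.ne')
  · obtain ⟨⟨b, hb⟩, ⟨i, hi, i1, i2⟩, i', hi', i3⟩ := hP
    obtain ⟨f, -, hf⟩ := mem_image.1 hb
    obtain ⟨f', -, rfl⟩ := mem_image.1 hi
    obtain ⟨f'', -, rfl⟩ := mem_image.1 hi'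
    refine ⟨one_lt_card.2 ⟨f', (e f').2 i1, f, (e f).2 (by rwa [hf]), fun k => i2 ?_⟩,
      ((card_lt_iff_ne_univ A).2 fun k => i3 ((e _).1 (k ▸ mem_univ _))).trans_eq
        (Fintype.card_coe _)⟩
    rw [k, hf]
  · obtain ⟨a1, a2, a3, a4, -, a5⟩ := Ext_bal R.bal (card_pos.1 (by omega : 0 < A.card))
    simpa only [Fintype.card_fin] using h1 _ _ a1 a2 a3 a4 (a5 hA.1 hA.2)

theorem ext_pow (R : Reg H ep n M τ) (m κ : ℕ) : ∃ C : ℝ, 0 ≤ C ∧ ∀ᶠ j in atTop,
    ∀ (g : Fin (M j)) (K : Finset (Fin (M j))) (y0 : Fin (M j) → α → Fin (n j)), g ∈ K →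
      K.card ≤ κ → 𝔼 y, XT H (τ j) ep g (K.piecewise y0 y) ^ m ≤ C := by
  induction m generalizing κ with
  | zero => exact ⟨1, zero_le_one, .of_forall fun j g K y0 _ _ =>
      ex_le zero_le_one fun y => (pow_zero _).le⟩
  | succ m ih =>
    obtain ⟨C, c0, hC⟩ := ih (κ + H.edgeFinset.card)
    obtain ⟨C', c1, hC'⟩ := ext R κ
    refine ⟨C' * C, mul_nonneg c1 c0, ?_⟩
    filter_upwards [hC, hC', R.t01] with j h1 h2 h3 g K y0 hg hK
    refine le_trans ?_ (mul_le_mul_of_nonneg_right (h2 g K y0 hg hK) c0)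
    have e : ∀ y, XT H (τ j) ep g (K.piecewise y0 y) ^ (m + 1) = ∑ D : Finset (Fin (M j) × β),
        τ j * ind (Acd H (sp ep (K.piecewise y0 y)) Prod.fst D ∧ Tch g D) *
          XT H (τ j) ep g (K.piecewise y0 y) ^ m := fun y => by rw [pow_succ', ← sum_mul]; rfl
    have e' : ∀ y, XT H (τ j) ep g (K.piecewise y0 y) = ∑ D : Finset (Fin (M j) × β),
        τ j * ind (Acd H (sp ep (K.piecewise y0 y)) Prod.fst D ∧ Tch g D) := fun y => rfl
    rw [expect_congr rfl fun y _ => e y, expect_congr rfl fun y _ => e' y, expect_sum_comm,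
      expect_sum_comm, sum_mul]
    refine sum_le_sum fun D _ => ?_
    rw [ex_resample (D.image Prod.fst), expect_mul]
    refine ex_mono fun y => ?_
    have e1 : ∀ y', K.piecewise y0 ((D.image Prod.fst).piecewise y y') =
        (K ∪ D.image Prod.fst).piecewise (K.piecewise y0 y) y' := fun y' => by
      funext i
      by_cases a : i ∈ K <;> by_cases b : i ∈ D.image Prod.fst <;> simp [piecewise, a, b]
    have e2 : ∀ y', Acd H (sp ep ((K ∪ D.image Prod.fst).piecewise (K.piecewise y0 y) y'))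
        Prod.fst D ↔ Acd H (sp ep (K.piecewise y0 y)) Prod.fst D := fun y' => by
      unfold Acd
      rw [image_congr (s := D) (g := sp ep (K.piecewise y0 y)) fun i hi => by
        rw [sp, sp, piecewise_eq_of_mem _ _ _ (mem_union_right _ (mem_image_of_mem _ hi))]]
    simp only [e1, e2]
    rw [← mul_expect]
    by_cases a : Acd H (sp ep (K.piecewise y0 y)) Prod.fst D
    · refine mul_le_mul_of_nonneg_left (h1 g _ _ (mem_union_left _ hg) ?_)
        (mul_nonneg h3.1 (ind_nonneg _))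
      exact (card_union_le _ _).trans (add_le_add hK (card_image_le.trans a.2.1.le))
    · rw [ind_neg fun k => a k.1, mul_zero, zero_mul, zero_mul]

theorem xt_pow (R : Reg H ep n M τ) (m : ℕ) : ∃ C : ℝ, 0 ≤ C ∧ ∀ᶠ j in atTop,
    ∀ g : Fin (M j), 𝔼 y : Fin (M j) → α → Fin (n j), XT H (τ j) ep g y ^ m ≤ C := by
  obtain ⟨C, c0, hC⟩ := ext_pow R m 1
  refine ⟨C, c0, hC.mono fun j h g => ?_⟩
  rw [ex_resample {g}]
  exact ex_le c0 fun y => h g _ y (mem_singleton_self g) (card_singleton g).le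

theorem acd_total (R : Reg H ep n M τ) : ∃ C : ℝ, 0 ≤ C ∧ ∀ᶠ j in atTop,
    (𝔼 y : Fin (M j) → α → Fin (n j), ∑ C : Finset (Fin (M j) × β),
      τ j * ind (Acd H (sp ep y) Prod.fst C)) ≤ C * M j := by
  obtain ⟨C, c0, hC⟩ := R.wk
  have d0 : 0 < Ext_D H α β 0 := Ext_D_pos 0
  refine ⟨Ext_D H α β 0 * (C * (2 * Fintype.card β)), by positivity, ?_⟩
  filter_upwards [hC, R.pos, R.t01] with j h1 h2 h3
  have : Nonempty (Fin (n j)) := ⟨⟨0, h2.1⟩⟩
  have h4 := R.bal.h3
  have h5 := R.bal.hk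
  have key := Ext_main (H := H) (G := Fin (M j)) (V := Fin (n j)) (K := ∅) R.ne card_empty.le
    (fun _ _ => ⟨0, h2.1⟩) (fun _ => True) h3.1
    (X := C * (2 * Fintype.card β) * M j) (by positivity) (· = ∅)
    (fun ι A e _ => eq_empty_of_forall_notMem fun f hf => notMem_empty _ ((e f).1 hf))
    fun A hA => by
      have n0 : (0 : ℝ) < n j := by exact_mod_cast h2.1
      have := mul_le_mul_of_nonneg_right (h1 1 2 le_rfl (by omega) le_rfl (by omega) (by simp))
        (show (0 : ℝ) ≤ 2 * Fintype.card β * M j by positivity)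
      rw [hA, Ext_U, biUnion_empty, card_empty, card_empty, Nat.sub_zero, Nat.sub_zero,
        Fintype.card_fin, Fintype.card_fin, mul_assoc C]
      refine le_trans (le_of_eq ?_) this
      obtain ⟨v, hv⟩ : ∃ v, Fintype.card W = v + 2 := ⟨Fintype.card W - 2, by omega⟩
      obtain ⟨k, hk⟩ : ∃ k, H.edgeFinset.card = k + 1 := ⟨H.edgeFinset.card - 1, by omega⟩
      rw [hv, hk, Nat.add_sub_cancel, Nat.add_sub_cancel, pow_succ _ k]
      push_cast
      field_simp
      ring
  simpa only [piecewise_empty, and_true, mul_assoc] using key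

end Pool.Agent.Work.MP_d4a230_co.U
end

-- merged part: Pool.Agent.Work.MP_d4a230_co.U.Ov
section
/-!
Overlapping constraints are rare.
PLAN. ov_pair with weight: for C1 ≠ C2 resample outside the components K of C1 ∪ C2 (at most 2k):
ext_pow bounds the factor XT^m by a constant. So take m = 0. Fix C1, K1 its components. Pairs with
C2 not inside K1: resample outside K1, ext_strict, then ext for the sum over C1. Pairs with C2 inside
K1: at most 2^(k b) sets C2. If τ tends to 0 the extra factor τ suffices. If the pattern is simple: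
C2 has exactly one variable in each component of C1, so there is a component h with i ∈ C1, i2 ∈ C2,
i ≠ i2, i.1 = i2.1 = h; some end a of the slot of i2 is not an end of the slot of i; the coordinate
y h a does not affect Acd C1, and Acd C2 forces y h a to be an end of the position of another
variable of C2 (minimum degree >= 2: Sys.mem_vs_erase for B.sys), which lies in another component:
chance <= 2k/n (ex_update twice or ex_curry).
-/

namespace Pool.Agent.Work.MP_d4a230_co.U

open Finset Filter Topology Pool.Agent.Work.MP_07f1b5_pr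
open scoped BigOperators

variable {α β : Type} [Fintype α] [DecidableEq α] [Fintype β] [DecidableEq β]
  {W : Type} [Fintype W] [DecidableEq W] {H : SimpleGraph W} [DecidableRel H.Adj]
  {ep : β → α × α} {n M : ℕ → ℕ} {τ : ℕ → ℝ}

section det

variable {G V : Type} [Fintype G] [DecidableEq G] [Fintype V] [DecidableEq V]

lemma Ov_congr {y y2 : G → α → V} {C : Finset (G × β)} (h : ∀ i ∈ C, sp ep y i = sp ep y2 i) :
    Acd H (sp ep y) Prod.fst C ↔ Acd H (sp ep y2) Prod.fst C := by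
  unfold Acd
  rw [image_congr h]

lemma Ov_pw {K : Finset G} {C : Finset (G × β)} (h : C.image Prod.fst ⊆ K) (y y2 : G → α → V) :
    Acd H (sp ep (K.piecewise y y2)) Prod.fst C ↔ Acd H (sp ep y) Prod.fst C :=
  Ov_congr fun i hi => by
    unfold sp
    rw [piecewise_eq_of_mem _ _ _ (h (mem_image_of_mem _ hi))]

lemma Ov_res {X κ : Type} [Fintype X] [Fintype κ] (K : X → Finset G) (a F : X → (G → κ) → ℝ)
    {B : ℝ} (h0 : ∀ c y, 0 ≤ a c y) (ha : ∀ c y y2, a c ((K c).piecewise y y2) = a c y)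
    (hF : ∀ c y, a c y ≠ 0 → 𝔼 y2, F c ((K c).piecewise y y2) ≤ B) :
    𝔼 y, ∑ c, a c y * F c y ≤ B * 𝔼 y, ∑ c, a c y := by
  rw [expect_sum_comm, expect_sum_comm, mul_sum]
  refine sum_le_sum fun c _ => ?_
  rw [ex_resample (K c), mul_expect]
  refine ex_mono fun y => ?_
  simp only [ha]
  rw [← mul_expect, mul_comm B]
  by_cases h : a c y = 0
  · rw [h, zero_mul, zero_mul]
  · exact mul_le_mul_of_nonneg_left (hF c y h) (h0 c y)

lemma Ov_upd (h : G) (a : α) (f : (G → α → V) → ℝ) :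
    𝔼 y, f y = 𝔼 y : G → α → V, 𝔼 x : V, f (Function.update y h (Function.update (y h) a x)) := by
  rw [ex_update h f, ex_update h fun y : G → α → V =>
    𝔼 x : V, f (Function.update y h (Function.update (y h) a x))]
  refine expect_congr rfl fun y _ => ?_
  rw [ex_update a fun u => f (Function.update y h u)]
  simp only [Function.update_self, Function.update_idem]

lemma Ov_of_ne {q : Prop} {t : ℝ} (h : t * ind q ≠ 0) : q := by
  by_contra hq
  exact h (by rw [ind_neg hq, mul_zero])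

lemma Ov_simple (B : HBal H) (hne : ∀ j, (ep j).1 ≠ (ep j).2)
    (hs : Function.Injective fun j => s((ep j).1, (ep j).2)) {C1 C2 : Finset (G × β)}
    (hC : C1 ≠ C2) (hK : C2.image Prod.fst ⊆ C1.image Prod.fst) :
    𝔼 y : G → α → V, ind (Acd H (sp ep y) Prod.fst C1 ∧ Acd H (sp ep y) Prod.fst C2) ≤
      2 * H.edgeFinset.card / Fintype.card V *
        𝔼 y : G → α → V, ind (Acd H (sp ep y) Prod.fst C1) := by
  by_cases hh : (C1.card = H.edgeFinset.card ∧ Set.InjOn Prod.fst (C1 : Set (G × β))) ∧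
      C2.card = H.edgeFinset.card ∧ Set.InjOn Prod.fst (C2 : Set (G × β))
  swap
  · refine ex_le (mul_nonneg (by positivity) (expect_nonneg fun _ _ => ind_nonneg _)) fun y => ?_
    rw [ind_neg fun h => hh ⟨h.1.2, h.2.2⟩]
    exact mul_nonneg (by positivity) (expect_nonneg fun _ _ => ind_nonneg _)
  obtain ⟨⟨c1, j1⟩, c2, j2⟩ := hh
  obtain ⟨i2, hi2, hn⟩ : ∃ i2 ∈ C2, i2 ∉ C1 :=
    not_subset.1 fun h => hC (eq_of_subset_of_card_le h (c1.trans c2.symm).le).symm
  obtain ⟨i, hi, e⟩ := mem_image.1 (hK (mem_image_of_mem _ hi2))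
  obtain ⟨a, ha2, ha⟩ : ∃ a, a ∈ s((ep i2.2).1, (ep i2.2).2) ∧ a ∉ s((ep i.2).1, (ep i.2).2) := by
    by_contra hc
    push Not at hc
    have h1 := hs (sym2_eq_of_subset (by simpa using hne i2.2) hc)
    exact hn ((Prod.ext e h1.symm : i = i2) ▸ hi)
  rw [Ov_upd i2.1 a, mul_expect]
  refine ex_mono fun y => ?_
  have hout : ∀ (x : V) (l : G × β), l.1 ≠ i2.1 →
      sp ep (Function.update y i2.1 (Function.update (y i2.1) a x)) l = sp ep y l := by
    intro x l hl
    unfold sp
    rw [Function.update_of_ne hl]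
  have hA : ∀ x : V, ind (Acd H (sp ep (Function.update y i2.1 (Function.update (y i2.1) a x)))
      Prod.fst C1 ∧ Acd H (sp ep (Function.update y i2.1 (Function.update (y i2.1) a x)))
      Prod.fst C2) ≤ ind (x ∈ vs ((C2.erase i2).image (sp ep y))) *
        ind (Acd H (sp ep y) Prod.fst C1) := by
    intro x
    rw [← ind_and]
    refine ind_mono fun h => ⟨?_, (Ov_congr fun l hl => ?_).1 h.1⟩
    · have hx : x ∈ sp ep (Function.update y i2.1 (Function.update (y i2.1) a x)) i2 := by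
        unfold sp sl
        rw [Function.update_self]
        rcases Sym2.mem_iff.1 ha2 with h1 | h1
        · rw [← h1, Function.update_self]
          exact Sym2.mem_mk_left _ _
        · rw [← h1, Function.update_self]
          exact Sym2.mem_mk_right _ _
      obtain ⟨f, hf, hxf⟩ := mem_vs.1 (B.sys.mem_vs_erase h.2.1 (mem_image_of_mem _ hi2) hx)
      obtain ⟨hf1, hf2⟩ := mem_erase.1 hf
      obtain ⟨l, hl, rfl⟩ := mem_image.1 hf2
      have hl2 : l ≠ i2 := fun h1 => hf1 (by rw [h1])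
      rw [hout x l fun h1 => hl2 (j2 hl hi2 h1)] at hxf
      exact mem_vs.2 ⟨_, mem_image_of_mem _ (mem_erase.2 ⟨hl2, hl⟩), hxf⟩
    · by_cases h1 : l.1 = i2.1
      · obtain rfl : l = i := j1 hl hi (h1.trans e.symm)
        rw [Sym2.mem_iff, not_or] at ha
        unfold sp sl
        rw [h1, Function.update_self, Function.update_of_ne (Ne.symm ha.1),
          Function.update_of_ne (Ne.symm ha.2)]
      · exact hout x l h1
  refine (ex_mono hA).trans ?_
  rw [← expect_mul, Fintype.expect_eq_sum_div_card, P1_sum_mem]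
  refine mul_le_mul_of_nonneg_right (div_le_div_of_nonneg_right ?_ (Nat.cast_nonneg _))
    (ind_nonneg _)
  have := (card_vs_le ((C2.erase i2).image (sp ep y))).trans (Nat.mul_le_mul_left 2
    ((card_image_le.trans (card_erase_le (a := i2))).trans c2.le))
  exact_mod_cast this

lemma Ov_count {K : Finset G} {k : ℕ} (hK : K.card ≤ k) :
    ∑ C : Finset (G × β), ind (C.image Prod.fst ⊆ K) ≤ 2 ^ (k * Fintype.card β) := by
  have h : ∀ C : Finset (G × β), ind (C.image Prod.fst ⊆ K) ≤ ind (C ∈ (K ×ˢ univ).powerset) :=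
    fun C => ind_mono fun h => mem_powerset.2 fun i hi =>
      mem_product.2 ⟨h (mem_image_of_mem _ hi), mem_univ _⟩
  refine (sum_le_sum fun C _ => h C).trans ?_
  rw [P1_sum_mem, card_powerset, card_product, card_univ, Nat.cast_pow, Nat.cast_ofNat]
  exact pow_le_pow_right₀ one_le_two (Nat.mul_le_mul_right _ hK)

lemma Ov_in {t δ : ℝ} (ht : 0 ≤ t) (hδ : 0 ≤ δ) (g : G)
    (h4 : ∀ C1 C2 : Finset (G × β), C1 ≠ C2 → C2.image Prod.fst ⊆ C1.image Prod.fst →
      t * 𝔼 y : G → α → V, ind (Acd H (sp ep y) Prod.fst C1 ∧ Acd H (sp ep y) Prod.fst C2) ≤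
        δ * 𝔼 y : G → α → V, ind (Acd H (sp ep y) Prod.fst C1)) :
    (𝔼 y : G → α → V, ∑ C1 : Finset (G × β), ∑ C2 : Finset (G × β), t ^ 2 *
      ind (Tch g C1 ∧ (C1 ≠ C2 ∧ C2.image Prod.fst ⊆ C1.image Prod.fst) ∧
        Acd H (sp ep y) Prod.fst C1 ∧ Acd H (sp ep y) Prod.fst C2)) ≤
      2 ^ (H.edgeFinset.card * Fintype.card β) * δ * 𝔼 y : G → α → V, XT H t ep g y := by
  unfold XT
  rw [expect_sum_comm, expect_sum_comm, mul_sum]
  refine sum_le_sum fun C1 _ => ?_
  have e0 : 0 ≤ 𝔼 y : G → α → V, t * ind (Acd H (sp ep y) Prod.fst C1 ∧ Tch g C1) :=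
    expect_nonneg fun _ _ => mul_nonneg ht (ind_nonneg _)
  by_cases hc : Tch g C1 ∧ C1.card = H.edgeFinset.card
  swap
  · refine ex_le (by positivity) fun y => (sum_eq_zero fun C2 _ => ?_).trans_le (by positivity)
    rw [ind_neg fun h => hc ⟨h.1, h.2.2.1.2.1⟩, mul_zero]
  rw [expect_sum_comm, mul_assoc]
  refine le_trans (sum_le_sum fun C2 _ => ?_) ((sum_mul ..).symm.trans_le
    (mul_le_mul_of_nonneg_right (Ov_count (β := β) (card_image_le.trans hc.2.le :
      (C1.image Prod.fst).card ≤ _)) (by positivity)))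
  by_cases h : C1 ≠ C2 ∧ C2.image Prod.fst ⊆ C1.image Prod.fst
  · simp only [hc.1, h, and_true, true_and, ne_eq, not_false_eq_true, ind_pos trivial, one_mul]
    rw [← mul_expect, ← mul_expect, sq, mul_assoc, mul_left_comm δ]
    exact mul_le_mul_of_nonneg_left (h4 C1 C2 h.1 h.2) ht
  · have e1 := ind_nonneg (C2.image Prod.fst ⊆ C1.image Prod.fst)
    refine ex_le (by positivity) fun y => ?_
    rw [ind_neg fun h1 => h h1.2.1, mul_zero]
    positivity

lemma Ov_det {t B ε δ X : ℝ} (m : ℕ) (g : G) (ht : 0 ≤ t) (hB : 0 ≤ B) (hε : 0 ≤ ε) (hδ : 0 ≤ δ)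
    (h1 : ∀ (K : Finset G) (y0 : G → α → V), g ∈ K → K.card ≤ 2 * H.edgeFinset.card →
      𝔼 y, XT H t ep g (K.piecewise y0 y) ^ m ≤ B)
    (h2 : ∀ (K : Finset G) (y0 : G → α → V), g ∈ K → K.card ≤ H.edgeFinset.card →
      (𝔼 y, ∑ C : Finset (G × β), t * ind (Acd H (sp ep (K.piecewise y0 y)) Prod.fst C ∧ Tch g C ∧
        (∃ i ∈ C, i.1 ∈ K ∧ i.1 ≠ g) ∧ ∃ i ∈ C, i.1 ∉ K)) ≤ ε)
    (h3 : 𝔼 y : G → α → V, XT H t ep g y ≤ X)
    (h4 : ∀ C1 C2 : Finset (G × β), C1 ≠ C2 → C2.image Prod.fst ⊆ C1.image Prod.fst →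
      t * 𝔼 y : G → α → V, ind (Acd H (sp ep y) Prod.fst C1 ∧ Acd H (sp ep y) Prod.fst C2) ≤
        δ * 𝔼 y : G → α → V, ind (Acd H (sp ep y) Prod.fst C1)) :
    (𝔼 y : G → α → V, ∑ C1 : Finset (G × β), ∑ C2 : Finset (G × β), t ^ 2 *
      ind (Acd H (sp ep y) Prod.fst C1 ∧ Acd H (sp ep y) Prod.fst C2 ∧ Tch g C1 ∧ Tch g C2 ∧
        C1 ≠ C2 ∧ ∃ i ∈ C1, ∃ i2 ∈ C2, i.1 = i2.1 ∧ i.1 ≠ g) * XT H t ep g y ^ m) ≤
      B * ((ε + 2 ^ (H.edgeFinset.card * Fintype.card β) * δ) * X) := by
  have hg : ∀ C : Finset (G × β), Tch g C → g ∈ C.image Prod.fst := fun C h =>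
    let ⟨j, hj⟩ := h
    mem_image_of_mem Prod.fst hj
  have s1 := Ov_res (X := Finset (G × β) × Finset (G × β))
    (fun c => c.1.image Prod.fst ∪ c.2.image Prod.fst)
    (fun c (y : G → α → V) => t ^ 2 *
      ind (Acd H (sp ep y) Prod.fst c.1 ∧ Acd H (sp ep y) Prod.fst c.2 ∧ Tch g c.1 ∧ Tch g c.2 ∧
        c.1 ≠ c.2 ∧ ∃ i ∈ c.1, ∃ i2 ∈ c.2, i.1 = i2.1 ∧ i.1 ≠ g))
    (fun _ y => XT H t ep g y ^ m) (B := B) (fun _ _ => mul_nonneg (sq_nonneg _) (ind_nonneg _))
    (fun c y y2 => by simp only [Ov_pw subset_union_left, Ov_pw subset_union_right])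
    (fun c y h => by
      have h := Ov_of_ne h
      refine h1 _ y (mem_union_left _ (hg _ h.2.2.1)) ((card_union_le _ _).trans ?_)
      rw [two_mul]
      exact add_le_add (card_image_le.trans h.1.2.1.le) (card_image_le.trans h.2.1.2.1.le))
  simp only [Fintype.sum_prod_type] at s1
  refine s1.trans (mul_le_mul_of_nonneg_left ?_ hB)
  have s2 := Ov_res (X := Finset (G × β)) (fun c => c.image Prod.fst)
    (fun c (y : G → α → V) => t * ind (Acd H (sp ep y) Prod.fst c ∧ Tch g c))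
    (fun c y => ∑ C : Finset (G × β), t * ind (Acd H (sp ep y) Prod.fst C ∧ Tch g C ∧
      (∃ i ∈ C, i.1 ∈ c.image Prod.fst ∧ i.1 ≠ g) ∧ ∃ i ∈ C, i.1 ∉ c.image Prod.fst)) (B := ε)
    (fun _ _ => mul_nonneg ht (ind_nonneg _))
    (fun c y y2 => by simp only [Ov_pw Subset.rfl])
    (fun c y h => by
      have h := Ov_of_ne h
      exact h2 _ y (hg _ h.2) (card_image_le.trans h.1.2.1.le))
  have s3 := Ov_in ht hδ g h4
  rw [add_mul]
  refine le_trans ?_ (add_le_add (s2.trans (mul_le_mul_of_nonneg_left h3 hε))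
    (s3.trans (mul_le_mul_of_nonneg_left h3 (by positivity))))
  rw [← expect_add_distrib]
  refine ex_mono fun y => ?_
  rw [← sum_add_distrib]
  refine sum_le_sum fun C1 _ => ?_
  rw [mul_sum, ← sum_add_distrib]
  refine sum_le_sum fun C2 _ => ?_
  rw [mul_mul_mul_comm, ← sq, ← ind_and, ← mul_add]
  refine mul_le_mul_of_nonneg_left ((ind_mono ?_).trans (ind_or_le _ _)) (sq_nonneg _)
  rintro ⟨a1, a2, t1, t2, hne, i, hi, i2, hi2, e, hig⟩
  by_cases h : C2.image Prod.fst ⊆ C1.image Prod.fst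
  · exact Or.inr ⟨t1, ⟨hne, h⟩, a1, a2⟩
  · obtain ⟨_, h5, h6⟩ := not_subset.1 h
    obtain ⟨l, hl, rfl⟩ := mem_image.1 h5
    exact Or.inl ⟨⟨a1, t1⟩, a2, t2, ⟨i2, hi2, e ▸ mem_image_of_mem _ hi, e ▸ hig⟩, l, hl, h6⟩

end det

lemma Ov_delta (R : Reg H ep n M τ) {δ : ℝ} (hδ : 0 < δ) : ∀ᶠ j in atTop,
    ∀ C1 C2 : Finset (Fin (M j) × β), C1 ≠ C2 → C2.image Prod.fst ⊆ C1.image Prod.fst →
      τ j * 𝔼 y : Fin (M j) → α → Fin (n j),
        ind (Acd H (sp ep y) Prod.fst C1 ∧ Acd H (sp ep y) Prod.fst C2) ≤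
      δ * 𝔼 y : Fin (M j) → α → Fin (n j), ind (Acd H (sp ep y) Prod.fst C1) := by
  rcases R.sm with hs | hs
  · have h1 : Tendsto (fun j => (2 * H.edgeFinset.card : ℝ) / n j) atTop (𝓝 0) :=
      (tendsto_const_div_atTop_nhds_zero_nat _).comp R.hn
    filter_upwards [R.t01, h1.eventually (ge_mem_nhds hδ)] with j ht h2 C1 C2 hC hK
    have h3 := Ov_simple (V := Fin (n j)) R.bal R.ne hs hC hK
    rw [Fintype.card_fin] at h3
    refine (mul_le_of_le_one_left (expect_nonneg fun _ _ => ind_nonneg _) ht.2).trans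
      (h3.trans (mul_le_mul_of_nonneg_right h2 (expect_nonneg fun _ _ => ind_nonneg _)))
  · filter_upwards [hs.eventually (ge_mem_nhds hδ)] with j h2 C1 C2 _ _
    exact mul_le_mul h2 (ex_mono fun y => ind_mono And.left)
      (expect_nonneg fun _ _ => ind_nonneg _) hδ.le

theorem ov_pair (R : Reg H ep n M τ) (m : ℕ) {ε : ℝ} (hε : 0 < ε) : ∀ᶠ j in atTop,
    ∀ g : Fin (M j), (𝔼 y : Fin (M j) → α → Fin (n j), ∑ C1 : Finset (Fin (M j) × β),
      ∑ C2 : Finset (Fin (M j) × β), τ j ^ 2 *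
        ind (Acd H (sp ep y) Prod.fst C1 ∧ Acd H (sp ep y) Prod.fst C2 ∧ Tch g C1 ∧ Tch g C2 ∧
          C1 ≠ C2 ∧ ∃ i ∈ C1, ∃ i2 ∈ C2, i.1 = i2.1 ∧ i.1 ≠ g) * XT H (τ j) ep g y ^ m) ≤ ε := by
  obtain ⟨B, hB, h1⟩ := ext_pow R m (2 * H.edgeFinset.card)
  obtain ⟨X, hX, h3⟩ := xt_pow R 1
  obtain ⟨Q, hQ⟩ : ∃ Q : ℝ, Q = 2 ^ (H.edgeFinset.card * Fintype.card β) := ⟨_, rfl⟩
  have hQ0 : 0 < Q := by rw [hQ]; positivity
  have hd : 0 < ε / (B * ((1 + Q) * X) + 1) := by positivity
  filter_upwards [h1, h3, ext_strict R H.edgeFinset.card hd, Ov_delta R hd, R.t01]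
    with j h1 h3 h2 h4 ht g
  refine (Ov_det m g ht.1 hB hd.le hd.le (h1 g) (h2 g) (by simpa only [pow_one] using h3 g)
    h4).trans ?_
  rw [← hQ]
  calc _ = B * ((1 + Q) * X) * (ε / (B * ((1 + Q) * X) + 1)) := by ring
    _ ≤ (B * ((1 + Q) * X) + 1) * (ε / (B * ((1 + Q) * X) + 1)) :=
      mul_le_mul_of_nonneg_right (le_add_of_nonneg_right zero_le_one) hd.le
    _ = ε := mul_div_cancel₀ _ (by positivity)

end Pool.Agent.Work.MP_d4a230_co.U
end
end

-- merged part: Pool.Agent.Work.MP_d4a230_co.U.Model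
section
-- merged part: Pool.Agent.Work.MP_d4a230_co.U.Cut
section
/-!
Cut norm, dense counting lemma, and the basic facts on tH and psi.
PLAN. cut_sep: the average is affine in each value g1 a and g2 b, so it is bounded by its values at
indicators (or write g1 a, g2 b as expectations Ex of indicators, P3 is not imported: a direct way
is to choose A = {a | 0 <= average over b of f (a,b) g2 b} and its complement, then the same for
b). Call φ separated if φ (a,b) = g1 a * g2 b with g1, g2 in [0,1]; products of separated functions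
and functions of one coordinate are separated. lam_cnv: ex_update twice. lam_cut: for fixed x the
integrand of cnv is separated in e since no other edge has both ends among the ends of f.
lam_cut_all: replace one edge at a time (Finset induction). psi_mk: Dart.symm is an involution and
Function.update_comm. psi_cut: each integrand of rt is separated. tH_psi: ex_update twice,
Finset.mul_prod_erase, the average over darts of a constant. tH_cut: telescoping over the edges,
each step is a separated test (or use lam_cut_all with EB the subtype of edges and Quot.out).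
-/

namespace Pool.Agent.Work.MP_d4a230_co.U

open Finset Filter Topology Pool.Agent.Work.MP_07f1b5_pr
open scoped BigOperators


variable {V : Type} [Fintype V] [DecidableEq V]

lemma le_cut (f : V × V → ℝ) (t : Finset V × Finset V) : |𝔼 e, f e * ct t e| ≤ cut f := by
  exact le_sup' (fun t : Finset V × Finset V => |𝔼 e, f e * ct t e|) (mem_univ t)

lemma cut_le {f : V × V → ℝ} {c : ℝ} (h : ∀ t, |𝔼 e, f e * ct t e| ≤ c) : cut f ≤ c := by
  exact sup'_le _ _ fun t _ => h t

lemma cut_nonneg (f : V × V → ℝ) : 0 ≤ cut f := by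
  exact (abs_nonneg _).trans (le_cut f (∅, ∅))

lemma cut_tri (f g h : V × V → ℝ) :
    cut (fun e => f e - h e) ≤ cut (fun e => f e - g e) + cut fun e => g e - h e := by
  refine cut_le fun t => le_trans ?_ ((abs_add_le _ _).trans (add_le_add (le_cut _ t) (le_cut _ t)))
  rw [← expect_add_distrib]
  exact (congrArg _ (expect_congr rfl fun e _ => by ring)).le

lemma cut_comm (f g : V × V → ℝ) : cut (fun e => f e - g e) = cut fun e => g e - f e := by
  refine congrArg (univ.sup' univ_nonempty) (funext fun t => ?_)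
  rw [← abs_neg, ← expect_neg_distrib]
  exact congrArg _ (expect_congr rfl fun e _ => by ring)

lemma cut_le_l1 (f : V × V → ℝ) : cut f ≤ 𝔼 e, |f e| := by
  refine cut_le fun t => (ex_abs _).trans (ex_mono fun e => ?_)
  rw [abs_mul, ct, ← ind_and, abs_of_nonneg (ind_nonneg _)]
  exact mul_le_of_le_one_right (abs_nonneg _) (ind_le_one _)

lemma abs_ex_le_cut (f : V × V → ℝ) : |𝔼 e, f e| ≤ cut f := by
  simpa [ct, ind_pos] using le_cut f (univ, univ)

lemma Cut_one (h : V → ℝ) {g : V → ℝ} (hg : Unit01 g) :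
    ∃ A : Finset V, |𝔼 a, h a * g a| ≤ |𝔼 a, h a * ind (a ∈ A)| := by
  classical
  rcases le_total 0 (𝔼 a, h a * g a) with h0 | h0
  · refine ⟨univ.filter fun a => 0 ≤ h a, ?_⟩
    rw [abs_of_nonneg h0]
    refine (ex_mono fun a => ?_).trans (le_abs_self _)
    by_cases e : 0 ≤ h a
    · rw [ind_pos (by simpa using e)]
      exact mul_le_mul_of_nonneg_left (hg a).2 e
    · rw [ind_neg (by simpa using e)]
      exact mul_le_mul_of_nonpos_left (hg a).1 (not_le.1 e).le
  · refine ⟨univ.filter fun a => h a ≤ 0, ?_⟩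
    rw [abs_of_nonpos h0]
    refine (neg_le_neg (ex_mono fun a => ?_)).trans (neg_le_abs _)
    by_cases e : h a ≤ 0
    · rw [ind_pos (by simpa using e)]
      exact mul_le_mul_of_nonpos_left (hg a).2 e
    · rw [ind_neg (by simpa using e)]
      exact mul_le_mul_of_nonneg_left (hg a).1 (not_le.1 e).le

lemma Cut_e1 (f : V × V → ℝ) (g1 g2 : V → ℝ) :
    𝔼 e : V × V, f e * (g1 e.1 * g2 e.2) = 𝔼 a, (𝔼 b, f (a, b) * g2 b) * g1 a := by
  rw [ex_prod]
  refine expect_congr rfl fun a _ => ?_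
  rw [expect_mul]
  exact expect_congr rfl fun b _ => by ring

lemma Cut_e2 (f : V × V → ℝ) (g1 g2 : V → ℝ) :
    𝔼 e : V × V, f e * (g1 e.1 * g2 e.2) = 𝔼 b, (𝔼 a, f (a, b) * g1 a) * g2 b := by
  rw [ex_prod, expect_comm]
  refine expect_congr rfl fun a _ => ?_
  rw [expect_mul]
  exact expect_congr rfl fun b _ => by ring

lemma cut_sep (f : V × V → ℝ) {g1 g2 : V → ℝ} (h1 : Unit01 g1) (h2 : Unit01 g2) :
    |𝔼 e : V × V, f e * (g1 e.1 * g2 e.2)| ≤ cut f := by
  obtain ⟨A, hA⟩ := Cut_one (fun a => 𝔼 b, f (a, b) * g2 b) h1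
  obtain ⟨B, hB⟩ := Cut_one (fun b => 𝔼 a, f (a, b) * ind (a ∈ A)) h2
  rw [← Cut_e1, ← Cut_e1 f fun a => ind (a ∈ A)] at hA
  rw [← Cut_e2 f (fun a => ind (a ∈ A)), ← Cut_e2 f (fun a => ind (a ∈ A)) fun b => ind (b ∈ B)]
    at hB
  exact hA.trans (hB.trans (le_cut f (A, B)))

lemma clip_unit (x : ℝ) : 0 ≤ clip x ∧ clip x ≤ 1 := by
  exact ⟨le_max_left _ _, max_le zero_le_one (min_le_right _ _)⟩

lemma ck_unit (m : ℕ) (c : CI V m) : Unit01 (ck m c) := by
  refine Sym2.ind fun a b => ?_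
  have h1 := clip_unit (bsum m ct c (a, b))
  have h2 := clip_unit (bsum m ct c (b, a))
  rw [ck, Sym2.lift_mk]
  constructor <;> linarith only [h1, h2, h1.1, h1.2, h2.1, h2.2]

lemma cut_ck (m : ℕ) (c : CI V m) {f : V × V → ℝ} (hf : ∀ e, f e.swap = f e) :
    cut (fun e => f e - ord (ck m c) e) ≤ cut fun e => f e - clip (bsum m ct c e) := by
  refine cut_le fun t => ?_
  have h1 := le_cut (fun e => f e - clip (bsum m ct c e)) t
  have h2 := le_cut (fun e => f e - clip (bsum m ct c e)) t.swap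
  have e1 : 𝔼 e, (f e - clip (bsum m ct c e)) * ct t.swap e =
      𝔼 e : V × V, (f e - clip (bsum m ct c e.swap)) * ct t e :=
    Fintype.expect_equiv (Equiv.prodComm V V) _ _ fun e => by
      rw [Equiv.prodComm_apply, hf, Prod.swap_swap, ct, ct, mul_comm (ind _)]
      rfl
  have e2 : 𝔼 e, (f e - ord (ck m c) e) * ct t e = ((𝔼 e, (f e - clip (bsum m ct c e)) * ct t e) +
      𝔼 e, (f e - clip (bsum m ct c e)) * ct t.swap e) / 2 := by
    rw [e1, ← expect_add_distrib, expect_div]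
    refine expect_congr rfl fun ⟨a, b⟩ _ => ?_
    rw [ord, ck, Sym2.lift_mk, Prod.swap_prod_mk]
    ring
  rw [e2, abs_le] at *
  constructor <;> linarith only [h1, h2, h1.1, h1.2, h2.1, h2.2]

lemma card_CI (m : ℕ) : Real.log (2 * Fintype.card (CI V m)) ≤
    (4 * m ^ 2 + 3) * ((Fintype.card V : ℝ) + 1) := by
  have e : (2 * Fintype.card (CI V m) : ℝ) =
      2 ^ (1 + (1 + Fintype.card V + Fintype.card V) * (2 * m ^ 2 + 1)) := by
    simp only [CI, Fintype.card_fun, Fintype.card_prod, Fintype.card_bool, Fintype.card_finset,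
      Fintype.card_fin]
    push_cast
    rw [pow_add 2 1, pow_mul 2, pow_add 2, pow_add 2, pow_one, mul_assoc]
  rw [e, Real.log_pow]
  refine (mul_le_of_le_one_right (Nat.cast_nonneg _)
    (Real.log_two_lt_d9.le.trans (by norm_num))).trans ?_
  push_cast
  linarith only [Nat.cast_nonneg (α := ℝ) (Fintype.card V), sq_nonneg (m : ℝ), sq_nonneg ↑m]

lemma Cut_irr (f g : V × V → ℝ) : irr f ≤ irr g + (𝔼 a, |𝔼 b, (f (a, b) - g (a, b))|) +
    |𝔼 e, (f e - g e)| := by
  refine le_trans (ex_mono fun a => ?_) (le_trans (expect_add_distrib _ _ _).le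
    (add_le_add (expect_add_distrib _ _ _).le (ex_le (abs_nonneg _) fun _ => le_rfl)))
  rw [expect_sub_distrib, expect_sub_distrib]
  refine le_trans (le_of_eq (congrArg _ (by ring))) ((abs_sub _ _).trans
    (add_le_add (abs_add_le _ _) le_rfl))

lemma irr_le (f g : V × V → ℝ) : irr f ≤ irr g + 4 * cut fun e => f e - g e := by
  have h1 := Cut_irr f g
  have h2 := abs_ex_le_cut fun e => f e - g e
  have h3 : ∀ q : V → Prop, |𝔼 a, (𝔼 b, (f (a, b) - g (a, b))) * ind (q a)| ≤
      cut fun e => f e - g e := fun q => by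
    have := cut_sep (fun e => f e - g e) (g1 := fun a => ind (q a)) (g2 := fun _ => 1)
      (fun _ => ⟨ind_nonneg _, ind_le_one _⟩) fun _ => ⟨zero_le_one, le_rfl⟩
    rw [Cut_e1 _ (fun a => ind (q a)) fun _ => 1] at this
    simpa only [mul_one] using this
  have h4 := abs_le.1 (h3 fun a => 0 ≤ 𝔼 b, (f (a, b) - g (a, b)))
  have h5 := abs_le.1 (h3 fun a => ¬ 0 ≤ 𝔼 b, (f (a, b) - g (a, b)))
  have h6 : 𝔼 a, |𝔼 b, (f (a, b) - g (a, b))| =
      (𝔼 a, (𝔼 b, (f (a, b) - g (a, b))) * ind (0 ≤ 𝔼 b, (f (a, b) - g (a, b)))) -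
      𝔼 a, (𝔼 b, (f (a, b) - g (a, b))) * ind (¬ 0 ≤ 𝔼 b, (f (a, b) - g (a, b))) := by
    rw [← expect_sub_distrib]
    refine expect_congr rfl fun a _ => ?_
    by_cases e : 0 ≤ 𝔼 b, (f (a, b) - g (a, b))
    · rw [ind_pos e, ind_neg (not_not.2 e), abs_of_nonneg e]
      ring
    · rw [ind_neg e, ind_pos e, abs_of_neg (not_le.1 e)]
      ring
  linarith only [h1, h2, h4, h5, h6, h4.2, h5.1, cut_nonneg fun e => f e - g e]

lemma irr_le_l1 (f g : V × V → ℝ) : irr f ≤ irr g + 2 * 𝔼 e, |f e - g e| := by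
  have h1 := Cut_irr f g
  have h2 := ex_abs fun e => f e - g e
  have h3 : 𝔼 a, |𝔼 b, (f (a, b) - g (a, b))| ≤ 𝔼 e, |f e - g e| :=
    (ex_mono fun a => ex_abs _).trans_eq (ex_prod fun e => |f e - g e|).symm
  linarith

/-- Separated tests. -/
def Cut_Sep (φ : V × V → ℝ) : Prop :=
  ∃ g1 g2 : V → ℝ, Unit01 g1 ∧ Unit01 g2 ∧ ∀ e, φ e = g1 e.1 * g2 e.2

lemma Cut_unit {X : Type} : Unit01 fun _ : X => (1 : ℝ) := fun _ => ⟨zero_le_one, le_rfl⟩

lemma Cut_mul {φ ψ : V × V → ℝ} (h : Cut_Sep φ) (h' : Cut_Sep ψ) : Cut_Sep fun e => φ e * ψ e := by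
  obtain ⟨a, b, h1, h2, h3⟩ := h
  obtain ⟨c, d, h4, h5, h6⟩ := h'
  refine ⟨fun x => a x * c x, fun x => b x * d x,
    fun x => ⟨mul_nonneg (h1 x).1 (h4 x).1, mul_le_one₀ (h1 x).2 (h4 x).1 (h4 x).2⟩,
    fun x => ⟨mul_nonneg (h2 x).1 (h5 x).1, mul_le_one₀ (h2 x).2 (h5 x).1 (h5 x).2⟩, fun e => ?_⟩
  exact (congrArg₂ _ (h3 e) (h6 e)).trans (mul_mul_mul_comm _ _ _ _)

lemma Cut_prod {J : Type} (s : Finset J) {φ : J → V × V → ℝ} (h : ∀ j ∈ s, Cut_Sep (φ j)) :
    Cut_Sep fun e => ∏ j ∈ s, φ j e := by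
  induction s using Finset.cons_induction with
  | empty => exact ⟨_, _, Cut_unit, Cut_unit, fun e => by simp⟩
  | cons a s ha ih =>
    simpa only [prod_cons] using
      Cut_mul (h a (mem_cons_self _ _)) (ih fun j hj => h j (mem_cons_of_mem hj))

lemma Cut_or {φ : V × V → ℝ} (h : Unit01 φ)
    (h' : (∀ a b, φ (a, b) = φ (a, a)) ∨ ∀ a b, φ (a, b) = φ (b, b)) : Cut_Sep φ := by
  rcases h' with h' | h'
  · exact ⟨fun a => φ (a, a), _, fun _ => h _, Cut_unit, fun e => (h' _ _).trans (mul_one _).symm⟩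
  · exact ⟨_, fun a => φ (a, a), Cut_unit, fun _ => h _, fun e => (h' _ _).trans (one_mul _).symm⟩

lemma Cut_avg {X : Type} [Fintype X] {f : V × V → ℝ} {Φ : X → V × V → ℝ}
    (h : ∀ x, |𝔼 e, f e * Φ x e| ≤ cut f) : |𝔼 e, f e * 𝔼 x, Φ x e| ≤ cut f := by
  simp only [mul_expect]
  rw [expect_comm]
  exact (ex_abs _).trans (ex_le (cut_nonneg f) h)

lemma Cut_test (f : V × V → ℝ) {φ : V × V → ℝ} (h : Cut_Sep φ) : |𝔼 e, f e * φ e| ≤ cut f := by
  obtain ⟨a, b, h1, h2, h3⟩ := h
  simpa only [h3] using cut_sep f h1 h2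

section upd

variable {ι : Type} [DecidableEq ι]

lemma Cut_upd [Fintype ι] (i j : ι) (Φ : (ι → V) → ℝ) : 𝔼 x, Φ x =
    𝔼 e : V × V, 𝔼 x, Φ (Function.update (Function.update x i e.1) j e.2) := by
  rw [ex_update j, ex_update i, expect_comm, ex_prod]
  exact expect_congr rfl fun a _ => expect_comm _ _ _

lemma Cut_edge {w : V × V → ℝ} (hw : Unit01 w) (x : ι → V) {i j p q : ι}
    (h : (p ≠ i ∧ p ≠ j) ∨ (q ≠ i ∧ q ≠ j)) :
    Cut_Sep fun e => w (Function.update (Function.update x i e.1) j e.2 p,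
      Function.update (Function.update x i e.1) j e.2 q) := by
  refine Cut_or (fun _ => hw _) ?_
  rcases h with h | h
  · simp only [Function.update_of_ne h.1, Function.update_of_ne h.2]
    by_cases e : q = j
    · exact Or.inr fun a b => by simp only [e, Function.update_self]
    · exact Or.inl fun a b => by simp only [Function.update_of_ne e]
  · simp only [Function.update_of_ne h.1, Function.update_of_ne h.2]
    by_cases e : p = j
    · exact Or.inr fun a b => by simp only [e, Function.update_self]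
    · exact Or.inl fun a b => by simp only [Function.update_of_ne e]

lemma Cut_ne {i j p q : ι} (h : p ≠ q) (h' : s(p, q) ≠ s(i, j)) :
    (p ≠ i ∧ p ≠ j) ∨ (q ≠ i ∧ q ≠ j) := by
  rw [Ne, Sym2.eq_iff] at h'
  grind

end upd

section structures

variable {VB EB : Type} [Fintype VB] [DecidableEq VB] [Fintype EB] [DecidableEq EB]
  (eb : EB → VB × VB)

lemma lam_cnv (f : EB) (hne : (eb f).1 ≠ (eb f).2) (D : (VB → V) → ℝ) (a : EB → V × V → ℝ) :
    Lam eb D a = 𝔼 e, a f e * cnv eb f D a e := by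
  rw [Lam, Cut_upd (eb f).1 (eb f).2]
  refine expect_congr rfl fun e _ => ?_
  rw [cnv, mul_expect]
  refine expect_congr rfl fun x _ => ?_
  have h : exf eb (upd eb f x e) f = e := by
    simp only [exf, upd, Function.update_self, Function.update_of_ne hne]
  rw [← mul_prod_erase _ _ (mem_univ f), mul_left_comm]
  exact congrArg (fun y => a f y * _) h

lemma cnv_update (f : EB) (D : (VB → V) → ℝ) (a : EB → V × V → ℝ) (u : V × V → ℝ) :
    cnv eb f D (Function.update a f u) = cnv eb f D a := by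
  refine funext fun e => expect_congr rfl fun x _ => congrArg _ (prod_congr rfl fun g hg => ?_)
  rw [Function.update_of_ne (ne_of_mem_erase hg)]

lemma Cut_all (hne : ∀ f, (eb f).1 ≠ (eb f).2)
    (hs : ∀ f g, g ≠ f → ((eb g).1 ≠ (eb f).1 ∧ (eb g).1 ≠ (eb f).2) ∨
      ((eb g).2 ≠ (eb f).1 ∧ (eb g).2 ≠ (eb f).2)) {D : (VB → V) → ℝ} (hD : RootFn eb D)
    {a a2 : EB → V × V → ℝ} (ha : ∀ f, Unit01 (a f)) (ha2 : ∀ f, Unit01 (a2 f)) :
    |Lam eb D a - Lam eb D a2| ≤ ∑ f, cut fun e => a f e - a2 f e := by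
  have step : ∀ (b : EB → V × V → ℝ) (f : EB) (u : V × V → ℝ), (∀ f, Unit01 (b f)) →
      |Lam eb D b - Lam eb D (Function.update b f u)| ≤ cut fun e => b f e - u e := by
    intro b f u hb
    rw [lam_cnv eb f (hne f), lam_cnv eb f (hne f), cnv_update, Function.update_self,
      ← expect_sub_distrib]
    simp only [← sub_mul]
    refine Cut_avg fun x => Cut_test _ (Cut_mul (Cut_or (fun _ => hD.1 _) ?_)
      (Cut_prod _ fun g hg => Cut_edge (hb g) x (hs f g (ne_of_mem_erase hg))))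
    rcases hD.2 f with h | h
    · exact Or.inr fun a b => by simp only [upd, Function.update_comm (hne f), h]
    · exact Or.inl fun a b => by simp only [upd, h]
  have key : ∀ S : Finset EB, |Lam eb D a - Lam eb D (S.piecewise a2 a)| ≤
      ∑ f ∈ S, cut fun e => a f e - a2 f e := fun S => by
    induction S using Finset.induction_on with
    | empty => simp
    | insert f S hf ih =>
      have h := step (S.piecewise a2 a) f (a2 f) fun g => by
        unfold Finset.piecewise
        split_ifs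
        exacts [ha2 g, ha g]
      rw [piecewise_eq_of_notMem _ _ _ hf] at h
      rw [piecewise_insert, sum_insert hf, add_comm]
      exact (abs_sub_le _ _ _).trans (add_le_add ih h)
  simpa only [piecewise_univ] using key univ

lemma lam_cut_all {v k : ℕ} (hv : 3 ≤ v) (hDC : DC eb v k) {D : (VB → V) → ℝ} (hD : RootFn eb D)
    {a a2 : EB → V × V → ℝ} (ha : ∀ f, Unit01 (a f)) (ha2 : ∀ f, Unit01 (a2 f)) :
    |Lam eb D a - Lam eb D a2| ≤ ∑ f, cut fun e => a f e - a2 f e := by
  refine Cut_all eb hDC.1 (fun f g hg => ?_) hD ha ha2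
  have h := hDC.2 f {g} (by simpa using hg.symm) (singleton_nonempty g)
  obtain ⟨u, hu⟩ := card_pos.1 (Nat.pos_of_mul_pos_left ((Nat.zero_le _).trans_lt h))
  rw [Finset.mem_sdiff, vset, vset, singleton_biUnion, singleton_biUnion, Finset.mem_insert,
    Finset.mem_insert, Finset.mem_singleton, Finset.mem_singleton, not_or] at hu
  obtain ⟨rfl | rfl, h2⟩ := hu
  exacts [Or.inl h2, Or.inr h2]

end structures

variable {W : Type} [Fintype W] [DecidableEq W] (H : SimpleGraph W) [DecidableRel H.Adj]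

lemma psi_mk (w : Sym2 V → ℝ) (a b : V) : psi H w s(a, b) = 𝔼 d : H.Dart, rt H w d a b := by
  have h : 𝔼 d : H.Dart, rt H w d b a = 𝔼 d : H.Dart, rt H w d a b :=
    Fintype.expect_bijective _ SimpleGraph.Dart.symm_involutive.bijective _ _ fun d => by
      rw [rt, rt, d.edge_symm]
      exact expect_congr rfl fun x _ => by rw [Function.update_comm d.fst_ne_snd]; rfl
  rw [psi, Sym2.lift_mk]
  exact (congrArg (fun y => (_ + y) / 2) h).trans (add_self_div_two _)

lemma rt_unit {w : Sym2 V → ℝ} (hw : Unit01 w) (d : H.Dart) (a b : V) :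
    0 ≤ rt H w d a b ∧ rt H w d a b ≤ 1 := by
  exact ⟨expect_nonneg fun x _ => prod_nonneg fun f _ => (hw _).1,
    ex_le zero_le_one fun x => prod_le_one (fun f _ => (hw _).1) fun f _ => (hw _).2⟩

lemma psi_nonneg {w : Sym2 V → ℝ} (hw : ∀ e, 0 ≤ w e) (p : Sym2 V) : 0 ≤ psi H w p := by
  induction p using Sym2.ind
  rw [psi_mk]
  exact expect_nonneg fun d _ => expect_nonneg fun x _ => prod_nonneg fun f _ => hw _

lemma psi_unit {w : Sym2 V → ℝ} (hw : Unit01 w) : Unit01 (psi H w) := by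
  refine Sym2.ind fun a b => ⟨psi_nonneg H (fun e => (hw e).1) _, ?_⟩
  rw [psi_mk]
  exact ex_le zero_le_one fun d => (rt_unit H hw d a b).2

lemma tH_unit {w : Sym2 V → ℝ} (hw : Unit01 w) : 0 ≤ tH H w ∧ tH H w ≤ 1 := by
  exact ⟨expect_nonneg fun x _ => prod_nonneg fun f _ => (hw _).1,
    ex_le zero_le_one fun x => prod_le_one (fun f _ => (hw _).1) fun f _ => (hw _).2⟩

lemma psi_cut {w : Sym2 V → ℝ} (hw : Unit01 w) (f : V × V → ℝ) :
    |𝔼 e, f e * ord (psi H w) e| ≤ cut f := by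
  simp only [ord, psi_mk, rt]
  refine Cut_avg fun d => Cut_avg fun x => Cut_test _ (Cut_prod _ fun g hg => ?_)
  induction g using Sym2.ind with
  | h p q =>
    exact Cut_edge (w := ord w) (fun _ => hw _) x (Cut_ne
      (H.ne_of_adj (SimpleGraph.mem_edgeFinset.1 (mem_of_mem_erase hg))) (ne_of_mem_erase hg))

/-- Pairing with psi replaces one edge. -/
lemma ord_psi (u w : Sym2 V → ℝ) : 𝔼 e, ord u e * ord (psi H w) e =
    𝔼 d : H.Dart, 𝔼 x : W → V, u (d.edge.map x) * ∏ f ∈ H.edgeFinset.erase d.edge, w (f.map x) := by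
  simp only [ord, psi_mk, rt, mul_expect]
  rw [expect_comm]
  refine expect_congr rfl fun d _ => ?_
  rw [Cut_upd d.fst d.snd]
  refine expect_congr rfl fun e _ => expect_congr rfl fun x _ => congrArg (fun y => u y * _) ?_
  rw [show d.edge = s(d.fst, d.snd) from rfl, Sym2.map_mk, Function.update_self,
    Function.update_of_ne d.fst_ne_snd, Function.update_self]

lemma ex_dart (g : Sym2 W → ℝ) :
    𝔼 d : H.Dart, g d.edge = (∑ f ∈ H.edgeFinset, g f) / H.edgeFinset.card := by
  rw [expect_eq_sum_div_card, card_univ, SimpleGraph.dart_card_eq_twice_card_edges,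
    ← sum_fiberwise_of_maps_to (t := H.edgeFinset) (g := SimpleGraph.Dart.edge)
      fun d _ => SimpleGraph.mem_edgeFinset.2 d.edge_mem,
    ← mul_div_mul_left (∑ f ∈ H.edgeFinset, g f) _ (two_ne_zero (α := ℝ)), mul_sum, Nat.cast_mul,
    Nat.cast_ofNat]
  refine congrArg (· / _) (sum_congr rfl fun f hf => ?_)
  rw [sum_congr rfl fun d hd => congrArg g (mem_filter.1 hd).2, sum_const,
    H.dart_edge_fiber_card f (SimpleGraph.mem_edgeFinset.1 hf), nsmul_eq_mul, Nat.cast_ofNat]

lemma tH_psi (hk : 0 < H.edgeFinset.card) (w : Sym2 V → ℝ) :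
    𝔼 e, ord w e * ord (psi H w) e = tH H w := by
  have h := ex_dart H fun _ => tH H w
  rw [sum_const, nsmul_eq_mul, mul_div_cancel_left₀ _ (Nat.cast_ne_zero.2 hk.ne')] at h
  rw [ord_psi, ← h]
  exact expect_congr rfl fun d _ => expect_congr rfl fun x _ =>
    mul_prod_erase _ (fun f => w (f.map x)) (SimpleGraph.mem_edgeFinset.2 d.edge_mem)

lemma tH_cut {w u : Sym2 V → ℝ} (hw : Unit01 w) (hu : Unit01 u) :
    |tH H w - tH H u| ≤ H.edgeFinset.card * cut fun e => ord w e - ord u e := by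
  have e0 : ∀ f : Sym2 W, s(f.out.1, f.out.2) = f := fun f => f.out_eq
  have e1 : ∀ f : H.edgeFinset, f.1.out.1 ≠ f.1.out.2 := fun f =>
    H.ne_of_adj (SimpleGraph.mem_edgeFinset.1 ((e0 f.1).symm ▸ f.2))
  have e2 : ∀ w : Sym2 V → ℝ, tH H w =
      Lam (fun f : H.edgeFinset => f.1.out) (fun _ => 1) fun _ => ord w := fun w =>
    expect_congr rfl fun x _ => by
      rw [one_mul, ← prod_coe_sort]
      exact prod_congr rfl fun f _ => congrArg (fun y => w (Sym2.map x y)) (e0 f.1).symm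
  have h := Cut_all (fun f : H.edgeFinset => f.1.out) e1 (fun f g hg => Cut_ne (e1 g) (by
    rw [e0, e0]
    exact fun e => hg (Subtype.ext e))) (D := fun _ => 1) ⟨Cut_unit, fun _ => Or.inl fun _ _ => rfl⟩
    (a := fun _ => ord w) (a2 := fun _ => ord u) (fun _ _ => hw _) fun _ _ => hu _
  rwa [← e2, ← e2, sum_const, card_univ, Fintype.card_coe, nsmul_eq_mul] at h

end Pool.Agent.Work.MP_d4a230_co.U
end

-- merged part: Pool.Agent.Work.MP_d4a230_co.U.Lay
section
/-!
Layers.
PLAN. rainbow: expand the product of den (Finset.prod_univ_sum), ind (ι f ∈ T f ∩ lay) splits, and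
the average over l of prod_f ind (l (g f) = col f) is Q^(-card EB) ind (g injective) (ex_comp_inj and
ex_prod_coord if g is injective; if g f = g f2 with f ≠ f2 the product vanishes). cnt_one: for ι with
distinct components the average over y of the product of hits is (2/n^2)^card EB (ex_prod_indep,
ex_comp, ex_hit); at most N^card EB maps ι. lay_close: maxineq over l with Ω the cut tests and
c = Q / M (one component has b variables, each of mass 1/N: sum_hit); the mean over l of
Q den (R ∩ lay) is den R. pseudo: maxineq over y with c / M; mean by ex_hit. lay_card: lay_close for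
R = univ, abs_ex_le_cut, ex_den (or maxineq with Ω = Unit).
-/

namespace Pool.Agent.Work.MP_d4a230_co.U

open Finset Filter Topology Pool.Agent.Work.MP_07f1b5_pr
open scoped BigOperators


variable {V G α β L : Type} [Fintype V] [DecidableEq V] [Nonempty V] [Fintype G] [DecidableEq G]
  [Fintype α] [DecidableEq α] [Fintype β] [DecidableEq β] [Fintype L] [DecidableEq L] [Nonempty L]
  {VB EB : Type} [Fintype VB] [DecidableEq VB] [Fintype EB] [DecidableEq EB] (eb : EB → VB × VB)

lemma Lay_sum {I : Type} [Fintype I] (R : Finset I) (g : I → ℝ) :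
    ∑ i ∈ R, g i = ∑ i, ind (i ∈ R) * g i := by
  classical
  rw [← univ_inter R, ← sum_ite_mem, univ_inter]
  refine sum_congr rfl fun i _ => ?_
  split_ifs with h
  · rw [ind_pos h, one_mul]
  · rw [ind_neg h, zero_mul]

lemma Lay_one (c : L) : (Fintype.card L : ℝ) * 𝔼 a, ind (a = c) = 1 := by
  have := P1_sum_mem ({c} : Finset L)
  simp only [mem_singleton, card_singleton, Nat.cast_one] at this
  rw [Fintype.expect_eq_sum_div_card, this, mul_one_div_cancel (by positivity)]

lemma Lay_mem (R : Finset (G × β)) (l : G → L) (c : L) (i : G × β) :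
    ind (i ∈ R ∩ lay β l c) = ind (i ∈ R) * ind (l i.1 = c) := by
  rw [← ind_and]
  exact ind_congr (by simp [lay])

lemma Lay_col (g : EB → G) (col : EB → L) (hc : Function.Injective col) :
    𝔼 l : G → L, ∏ f, (Fintype.card L : ℝ) * ind (l (g f) = col f) =
      ind (Function.Injective g) := by
  by_cases hg : Function.Injective g
  · rw [ind_pos hg, ex_comp_inj g hg fun z => ∏ f, (Fintype.card L : ℝ) * ind (z f = col f),
      ex_prod_coord fun f a => (Fintype.card L : ℝ) * ind (a = col f)]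
    exact prod_eq_one fun f _ => by rw [← mul_expect, Lay_one]
  · rw [ind_neg hg]
    refine expect_eq_zero fun l _ => by_contra fun h => hg fun f f2 e => hc ?_
    have h1 : ∀ f, l (g f) = col f := fun f => by_contra fun h2 =>
      h (prod_eq_zero (mem_univ f) (by rw [ind_neg h2, mul_zero]))
    rw [← h1, ← h1, e]

lemma Lay_max [Nonempty G] [Nonempty β] {κ Ω : Type} [Fintype κ] [Nonempty κ] [Fintype Ω]
    (F : Ω → G × β → κ → ℝ) {c δ : ℝ} (hc : 0 < c) (hδ : 0 < δ)
    (hF : ∀ ω i a, 0 ≤ F ω i a ∧ F ω i a ≤ c)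
    (h : Real.log (2 * Fintype.card Ω) ≤ δ ^ 2 * Fintype.card G) :
    ∃ err : (G → κ) → ℝ, (∀ y, 0 ≤ err y) ∧ 𝔼 y, err y ≤ 2 * δ * c ∧ ∀ y ω,
      |(∑ i, F ω i (y i.1)) / Fintype.card (G × β) -
        (∑ i, 𝔼 a, F ω i a) / Fintype.card (G × β)| ≤ err y := by
  have hG : (0 : ℝ) < Fintype.card G := by positivity
  have hb : (0 : ℝ) < Fintype.card β := by positivity
  obtain ⟨err, h1, h2, h3⟩ := maxineq (fun ω (y : G → κ) => (∑ i, F ω i (y i.1)) /
    Fintype.card (G × β)) (c := c / Fintype.card G) (by positivity) hδ (fun ω y g a => by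
      rw [← sub_div, abs_div, Nat.abs_cast, Fintype.card_prod, Nat.cast_mul, ← sum_sub_distrib,
        Fintype.sum_prod_type, sum_eq_single g (fun g2 _ e => by simp [Function.update_of_ne e])
        (by simp), div_le_div_iff₀ (by positivity) hG]
      have h4 := (abs_sum_le_sum_abs _ _).trans (sum_le_card_nsmul univ
        (fun j => |F ω (g, j) (Function.update y g a g) - F ω (g, j) (y g)|) c fun j _ => by
          have a1 := hF ω (g, j) (Function.update y g a g)
          have a2 := hF ω (g, j) (y g)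
          exact abs_sub_le_iff.2 ⟨by linarith, by linarith⟩)
      rw [card_univ, nsmul_eq_mul] at h4
      refine (mul_le_mul_of_nonneg_right h4 hG.le).trans_eq (by ring)) h
  refine ⟨err, h1, h2.trans_eq (by field_simp), fun y ω => ?_⟩
  have h5 := h3 y ω
  rw [← expect_div, expect_sum_comm] at h5
  refine le_of_eq_of_le ?_ h5
  congr 3
  refine sum_congr rfl fun i _ => ?_
  rw [ex_update i.1]
  simp only [Function.update_self, Fintype.expect_const]

/-- Mass of a test at a pair. -/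
noncomputable def Lay_tm (ξ : V × V → ℝ) (p : Sym2 V) : ℝ := (∑ e, hit p e * ξ e) / 2

lemma Lay_tm_le {ξ : V × V → ℝ} {c : ℝ} (h : ∀ e, 0 ≤ ξ e ∧ ξ e ≤ c) (p : Sym2 V) :
    0 ≤ Lay_tm ξ p ∧ Lay_tm ξ p ≤ c := by
  refine ⟨div_nonneg (sum_nonneg fun e _ => mul_nonneg (hit_nonneg _ _) (h e).1) zero_le_two, ?_⟩
  rw [Lay_tm, div_le_iff₀' two_pos, ← sum_hit p, sum_mul]
  exact sum_le_sum fun e _ => mul_le_mul_of_nonneg_left (h e).2 (hit_nonneg _ _)

lemma Lay_test (q : G × β → Sym2 V) (R : Finset (G × β)) (ξ : V × V → ℝ) :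
    𝔼 e, den q R e * ξ e = (∑ i, ind (i ∈ R) * Lay_tm ξ (q i)) / Fintype.card (G × β) := by
  have hV : (Fintype.card V : ℝ) ≠ 0 := by positivity
  rw [← Lay_sum, Fintype.expect_eq_sum_div_card]
  unfold den Lay_tm
  simp only [mul_assoc, sum_mul]
  rw [← mul_sum, sum_comm, ← sum_div, Fintype.card_prod V, Nat.cast_mul]
  generalize (Fintype.card (G × β) : ℝ) = N
  rcases eq_or_ne N 0 with hI | hI
  · simp [hI]
  · field_simp

lemma Lay_mul {a b c : ℝ} (ha : 0 ≤ a ∧ a ≤ 1) (hb : 0 ≤ b ∧ b ≤ c) : 0 ≤ a * b ∧ a * b ≤ c :=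
  ⟨mul_nonneg ha.1 hb.1, (mul_le_of_le_one_left hb.1 ha.2).trans hb.2⟩

lemma Lay_ind (q : Prop) : 0 ≤ ind q ∧ ind q ≤ 1 := ⟨ind_nonneg q, ind_le_one q⟩

theorem rainbow (q : G × β → Sym2 V) (D : (VB → V) → ℝ) (T : EB → Finset (G × β)) (col : EB → L)
    (hc : Function.Injective col) :
    𝔼 l : G → L, Lam eb D (fun f e => Fintype.card L * den q (T f ∩ lay β l (col f)) e) =
      Cnt eb q D T := by
  unfold Lam Cnt
  rw [expect_comm, mul_expect]
  refine expect_congr rfl fun x _ => ?_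
  rw [← mul_expect, mul_left_comm]
  congr 1
  simp only [den, Lay_sum (T _ ∩ _), Lay_mem, mul_left_comm (Fintype.card L : ℝ), prod_mul_distrib,
    prod_const, card_univ, ← mul_expect]
  congr 1
  simp only [← Lay_col _ col hc, expect_mul]
  rw [← expect_sum_comm, mul_expect]
  refine expect_congr rfl fun l _ => ?_
  rw [prod_univ_sum, Fintype.piFinset_univ, mul_sum]
  refine sum_congr rfl fun ι _ => ?_
  simp only [prod_mul_distrib, prod_const, card_univ]
  ring

theorem cnt_one (ep : β → α × α) (hne : ∀ j, (ep j).1 ≠ (ep j).2) {D : (VB → V) → ℝ}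
    (hD : ∀ x, 0 ≤ D x) :
    𝔼 y : G → α → V, Cnt eb (sp ep y) D (fun _ => univ) ≤ 𝔼 x, D x := by
  unfold Cnt
  have hV : (Fintype.card V : ℝ) ≠ 0 := by positivity
  rw [← mul_expect, expect_comm, mul_expect]
  refine ex_mono fun x => ?_
  rw [← mul_expect, mul_left_comm, expect_sum_comm]
  refine mul_le_of_le_one_right (hD x) ?_
  have h1 : ∀ ι : EB → G × β, 𝔼 y : G → α → V, ind (Function.Injective fun f => (ι f).1) *
      ∏ f, ind (ι f ∈ (univ : Finset (G × β))) * hit (sp ep y (ι f)) (exf eb x f) ≤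
      (2 / (Fintype.card V : ℝ) ^ 2) ^ Fintype.card EB := fun ι => by
    by_cases hg : Function.Injective fun f => (ι f).1
    · simp only [ind_pos hg, ind_pos (mem_univ _), one_mul, sp]
      rw [ex_comp_inj _ hg fun z => ∏ f, hit (sl ep (z f) (ι f).2) (exf eb x f),
        ex_prod_coord fun f w => hit (sl ep w (ι f).2) (exf eb x f)]
      simp only [sl, ex_hit (hne _), prod_const, card_univ, le_refl]
    · simp only [ind_neg hg, zero_mul, Fintype.expect_const]
      positivity
  refine (mul_le_mul_of_nonneg_left (sum_le_card_nsmul _ _ _ fun ι _ => h1 ι)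
    (by positivity)).trans ?_
  rw [card_univ, Fintype.card_fun, nsmul_eq_mul, Nat.cast_pow, ← mul_pow, ← mul_pow]
  refine pow_le_one₀ (by positivity) ?_
  generalize (Fintype.card (G × β) : ℝ) = N
  rcases eq_or_ne N 0 with hI | hI
  · simp [hI]
  · exact le_of_eq (by field_simp)

theorem cnt_mono (q : G × β → Sym2 V) {D D2 : (VB → V) → ℝ} (h0 : ∀ x, 0 ≤ D x)
    (h : ∀ x, D x ≤ D2 x) {T T2 : EB → Finset (G × β)} (hT : ∀ f, T f ⊆ T2 f) :
    0 ≤ Cnt eb q D T ∧ Cnt eb q D T ≤ Cnt eb q D2 T2 := by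
  have h1 : ∀ (T : EB → Finset (G × β)) (x : VB → V) (ι : EB → G × β),
      0 ≤ ∏ f, ind (ι f ∈ T f) * hit (q (ι f)) (exf eb x f) :=
    fun T x ι => prod_nonneg fun f _ => mul_nonneg (ind_nonneg _) (hit_nonneg _ _)
  refine ⟨mul_nonneg (by positivity) (expect_nonneg fun x _ => mul_nonneg (h0 x)
    (sum_nonneg fun ι _ => mul_nonneg (ind_nonneg _) (h1 _ _ _))),
    mul_le_mul_of_nonneg_left (ex_mono fun x => mul_le_mul (h x) (sum_le_sum fun ι _ =>
      mul_le_mul_of_nonneg_left (prod_le_prod (fun f _ => mul_nonneg (ind_nonneg _) (hit_nonneg _ _))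
        fun f _ => mul_le_mul_of_nonneg_right (ind_mono fun hf => hT f hf) (hit_nonneg _ _))
        (ind_nonneg _))
      (sum_nonneg fun ι _ => mul_nonneg (ind_nonneg _) (h1 _ _ _)) ((h0 x).trans (h x)))
      (by positivity)⟩

theorem cnt_add (q : G × β → Sym2 V) (D D2 : (VB → V) → ℝ) (T : EB → Finset (G × β)) :
    Cnt eb q (fun x => D x + D2 x) T = Cnt eb q D T + Cnt eb q D2 T := by
  unfold Cnt
  simp only [add_mul, expect_add_distrib, mul_add]

theorem lay_close [Nonempty G] [Nonempty β] (q : G × β → Sym2 V) (R : Finset (G × β)) (c : L)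
    {δ : ℝ} (hδ : 0 < δ) (h : 2 * ((Fintype.card V : ℝ) + 1) ≤ δ ^ 2 * Fintype.card G) :
    𝔼 l : G → L, cut (fun e => Fintype.card L * den q (R ∩ lay β l c) e - den q R e) ≤
      2 * δ * Fintype.card L := by
  have hL : (0 : ℝ) < Fintype.card L := by positivity
  obtain ⟨err, -, h2, h3⟩ := Lay_max (fun (t : Finset V × Finset V) (i : G × β) (a : L) =>
    ind (i ∈ R) * Lay_tm (ct t) (q i) * (Fintype.card L * ind (a = c))) hL hδ
    (fun t i a => Lay_mul (Lay_mul (Lay_ind _) (Lay_tm_le (fun e => Lay_mul (Lay_ind _) (Lay_ind _)) _))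
      (by rw [mul_comm]; exact Lay_mul (Lay_ind _) ⟨hL.le, le_rfl⟩))
    (le_trans (by
      rw [Fintype.card_prod, Fintype.card_finset, Nat.cast_mul, Nat.cast_pow, Nat.cast_ofNat,
        ← pow_add, ← pow_succ', Real.log_pow]
      push_cast
      have := Real.log_two_lt_d9
      have h0 : (0 : ℝ) ≤ Fintype.card V := by positivity
      linarith only [this, mul_nonneg_of_nonpos_of_nonpos (Mathlib.Tactic.Linarith.sub_nonpos_of_le (Mathlib.Tactic.Linarith.natCast_nonneg ℝ (Fintype.card V))) (le_of_lt (Mathlib.Tactic.Linarith.sub_neg_of_lt this))]) h)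
  refine (ex_mono fun l => cut_le fun t => le_of_eq_of_le ?_ (h3 l t)).trans h2
  simp only [sub_mul, expect_sub_distrib, mul_assoc, ← mul_expect, Lay_test, Lay_one, Lay_mem,
    mul_one]
  rw [mul_div_assoc', mul_sum]
  congr 3
  exact sum_congr rfl fun i _ => by ring

theorem lay_card [Nonempty G] [Nonempty β] (c : L) {δ : ℝ} (hδ : 0 < δ)
    (h : 1 ≤ δ ^ 2 * Fintype.card G) :
    𝔼 l : G → L, |(Fintype.card L : ℝ) * ((lay β l c).card / Fintype.card (G × β)) - 1| ≤
      2 * δ * Fintype.card L := by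
  have hL : (0 : ℝ) < Fintype.card L := by positivity
  have hN : (Fintype.card (G × β) : ℝ) ≠ 0 := by positivity
  obtain ⟨err, -, h2, h3⟩ := Lay_max (fun (_ : Unit) (_ : G × β) (a : L) =>
    Fintype.card L * ind (a = c)) hL hδ
    (fun t i a => by rw [mul_comm]; exact Lay_mul (Lay_ind _) ⟨hL.le, le_rfl⟩)
    (le_trans (by
      have := Real.log_two_lt_d9
      rw [Fintype.card_unit, Nat.cast_one, mul_one]
      linarith only [this]) h)
  refine (ex_mono fun l => le_of_eq_of_le ?_ (h3 l ())).trans h2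
  simp only [← mul_expect, Lay_one, sum_const, card_univ, nsmul_eq_mul, mul_one, div_self hN,
    ← mul_sum, mul_div_assoc, ← P1_sum_mem]
  simp [lay]

theorem pseudo [Nonempty G] [Nonempty β] (ep : β → α × α) (hne : ∀ j, (ep j).1 ≠ (ep j).2)
    (R : Finset (G × β)) {Ω : Type} [Fintype Ω] (ξ : Ω → V × V → ℝ) {c δ : ℝ} (hc : 0 < c)
    (hδ : 0 < δ) (hξ : ∀ ω e, 0 ≤ ξ ω e ∧ ξ ω e ≤ c)
    (h : Real.log (2 * Fintype.card Ω) ≤ δ ^ 2 * Fintype.card G) :
    ∃ err : (G → α → V) → ℝ, (∀ y, 0 ≤ err y) ∧ 𝔼 y, err y ≤ 2 * δ * c ∧ ∀ y ω,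
      |(𝔼 e, den (sp ep y) R e * ξ ω e) - R.card / Fintype.card (G × β) * 𝔼 e, ξ ω e| ≤ err y := by
  obtain ⟨err, h1, h2, h3⟩ := Lay_max (fun (ω : Ω) (i : G × β) (z : α → V) =>
    ind (i ∈ R) * Lay_tm (ξ ω) (sl ep z i.2)) hc hδ
    (fun ω i z => Lay_mul (Lay_ind _) (Lay_tm_le (hξ ω) _)) h
  refine ⟨err, h1, h2, fun y ω => le_of_eq_of_le ?_ (h3 y ω)⟩
  have h4 : ∀ j, 𝔼 z : α → V, Lay_tm (ξ ω) (sl ep z j) = 𝔼 e, ξ ω e := fun j => by
    unfold Lay_tm
    rw [← expect_div, expect_sum_comm, Fintype.expect_eq_sum_div_card (ξ ω), Fintype.card_prod]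
    simp only [← expect_mul, sl, ex_hit (hne j), ← mul_sum]
    push_cast
    ring
  simp only [Lay_test, ← mul_expect, h4, ← sum_mul, P1_sum_mem, sp, div_mul_eq_mul_div]

end Pool.Agent.Work.MP_d4a230_co.U
end

-- merged part: Pool.Agent.Work.MP_d4a230_co.U.Model
section
/-!
Every subset of the variables has a model kernel in the small class.
PLAN. model: let ν = Q den (lay l q), Q = card L. With pseudo (Ω = CI, ξ c = max (bsum m ct c) 0,
bounded by 3m, card_CI, Reg.lin) for each fixed l and lay_card, put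
bad y l = 2 (Q err_l y + 3m |Q card lay / N - 1|). If bad < 1 the hypothesis hP of boost holds; boost
gives c, then cut_le, cut_ck (den_swap) and best_le. model1: L = Unit (lay = univ), on the bad event
the cut norm is at most 2 (cut_le_l1, ex_den_le, ck_unit). outer: L = Bool, cut_tri, lay_close and
Markov; the sets where the indicator is 1 are bad >= 1 or cut (2 den (R ∩ lay) - den R) >= γ/2.
-/

namespace Pool.Agent.Work.MP_d4a230_co.U

open Finset Filter Topology Pool.Agent.Work.MP_07f1b5_pr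
open scoped BigOperators

variable {α β : Type} [Fintype α] [DecidableEq α] [Fintype β] [DecidableEq β]
  {W : Type} [Fintype W] [DecidableEq W] {H : SimpleGraph W} [DecidableRel H.Adj]
  {ep : β → α × α} {n M : ℕ → ℕ} {τ : ℕ → ℝ}

lemma Model_ct {V : Type} (t : Finset V × Finset V) (e : V × V) : |ct t e| ≤ 1 := by
  unfold ct
  rw [abs_of_nonneg (mul_nonneg (ind_nonneg _) (ind_nonneg _))]
  exact mul_le_one₀ (ind_le_one _) (ind_nonneg _) (ind_le_one _)

lemma Model_cut {V : Type} [Fintype V] [DecidableEq V] {m : ℕ} (hm : 0 < m) (ν a : V × V → ℝ)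
    (ha : ∀ e, 0 ≤ a e ∧ a e ≤ ν e) (hs : ∀ e, a e.swap = a e)
    (hP : ∀ c : CI V m, 𝔼 e, (ν e - 1) * max (bsum m ct c e) 0 ≤ 1 / 2) :
    cut (fun e => a e - ord (bk m a) e) ≤ 1 / m := by
  obtain ⟨c, hc⟩ := boost m hm ct Model_ct ((∅ : Finset V), (∅ : Finset V))
    (fun e => by simp [ct, ind_neg]) ν a ha hP
  exact (best_le m a c).trans ((cut_ck m c hs).trans (cut_le hc))

lemma Model_core {V G L : Type} [Fintype V] [DecidableEq V] [Nonempty V] [Fintype G]
    [DecidableEq G] [Nonempty G] [Nonempty β] [Fintype L] [DecidableEq L] [Nonempty L]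
    (hne : ∀ j, (ep j).1 ≠ (ep j).2) (q : L) {m : ℕ} (hm : 0 < m) {δ : ℝ} (hδ : 0 < δ)
    (h : (4 * m ^ 2 + 3) * ((Fintype.card V : ℝ) + 1) ≤ δ ^ 2 * Fintype.card G) :
    ∃ bad : (G → α → V) → (G → L) → ℝ, (∀ y l, 0 ≤ bad y l) ∧
      (𝔼 y, 𝔼 l, bad y l) ≤ 24 * m * Fintype.card L * δ ∧ ∀ y l T, bad y l < 1 →
        cut (fun e => Fintype.card L * den (sp ep y) (T ∩ lay β l q) e -
          ord (bk m fun e => Fintype.card L * den (sp ep y) (T ∩ lay β l q) e) e) ≤ 1 / m := by
  have hm' : (0 : ℝ) < m := by exact_mod_cast hm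
  have hQ : (0 : ℝ) ≤ Fintype.card L := Nat.cast_nonneg _
  have hξ : ∀ (c : CI V m) (e : V × V), 0 ≤ max (bsum m ct c e) 0 ∧
      max (bsum m ct c e) 0 ≤ 3 * m := fun c e => ⟨le_max_right _ _,
    max_le ((le_abs_self _).trans (bsum_le m hm ct Model_ct c e)) (by positivity)⟩
  choose err h0 h1 h2 using fun l : G → L => pseudo (V := V) ep hne (lay β l q)
    (fun (c : CI V m) e => max (bsum m ct c e) 0) (c := 3 * m) (by positivity) hδ hξ
    ((card_CI m).trans h)
  have h3 := lay_card (G := G) (β := β) q hδ (le_trans (by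
    linarith only [sq_nonneg (m : ℝ), (Nat.cast_nonneg (Fintype.card V) : (0 : ℝ) ≤ _), sq_nonneg ↑m, mul_nonneg_of_nonpos_of_nonpos (Mathlib.Tactic.Linarith.sub_nonpos_of_le (sq_nonneg ↑m)) (Mathlib.Tactic.Linarith.sub_nonpos_of_le (Mathlib.Tactic.Linarith.natCast_nonneg ℝ (Fintype.card V)))]) h)
  refine ⟨fun y l => 2 * Fintype.card L * err l y + 6 * m *
    |(Fintype.card L : ℝ) * ((lay β l q).card / Fintype.card (G × β)) - 1|,
    fun y l => by have := h0 l y; positivity, ?_, fun y l T hb => ?_⟩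
  · rw [expect_comm]
    simp only [expect_add_distrib, ← mul_expect, Fintype.expect_const]
    have h4 : 𝔼 l : G → L, 𝔼 y, err l y ≤ 2 * δ * (3 * m) := ex_le (by positivity) h1
    have h5 := mul_le_mul_of_nonneg_left h4 (show 0 ≤ 2 * (Fintype.card L : ℝ) by positivity)
    have h6 := mul_le_mul_of_nonneg_left h3 (show 0 ≤ 6 * (m : ℝ) by positivity)
    linarith only [h5, h6]
  · refine Model_cut hm (fun e => Fintype.card L * den (sp ep y) (lay β l q) e) _
      (fun e => ⟨mul_nonneg hQ (den_nonneg _ _ _),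
        mul_le_mul_of_nonneg_left (den_mono _ inter_subset_right e) hQ⟩)
      (fun e => by rw [den_swap]) fun c => ?_
    have e1 : 𝔼 e, (Fintype.card L * den (sp ep y) (lay β l q) e - 1) * max (bsum m ct c e) 0 =
        Fintype.card L * (𝔼 e, den (sp ep y) (lay β l q) e * max (bsum m ct c e) 0) -
          𝔼 e, max (bsum m ct c e) 0 := by
      rw [mul_expect, ← expect_sub_distrib]
      exact expect_congr rfl fun e _ => by ring
    have k1 := mul_le_mul_of_nonneg_left ((le_abs_self _).trans (h2 l y c)) hQ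
    have k2 : 𝔼 e, max (bsum m ct c e) 0 ≤ 3 * m := ex_le (by positivity) fun e => (hξ c e).2
    have k3 : 0 ≤ 𝔼 e, max (bsum m ct c e) 0 := expect_nonneg fun e _ => (hξ c e).1
    have k4 := mul_le_mul (le_abs_self
      ((Fintype.card L : ℝ) * ((lay β l q).card / Fintype.card (G × β)) - 1)) k2 k3 (abs_nonneg _)
    rw [e1]
    beta_reduce at hb k1
    linarith only [hb, k1, k4]

theorem model (R : Reg H ep n M τ) (L : Type) [Fintype L] [DecidableEq L] [Nonempty L] (q : L)
    {m : ℕ} (hm : 0 < m) {ε : ℝ} (hε : 0 < ε) : ∀ᶠ j in atTop,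
    ∃ bad : (Fin (M j) → α → Fin (n j)) → (Fin (M j) → L) → ℝ, (∀ y l, 0 ≤ bad y l) ∧
      (𝔼 y, 𝔼 l, bad y l) ≤ ε ∧ ∀ y l T, bad y l < 1 →
        cut (fun e => Fintype.card L * den (sp ep y) (T ∩ lay β l q) e -
          ord (bk m fun e => Fintype.card L * den (sp ep y) (T ∩ lay β l q) e) e) ≤ 1 / m := by
  have hm' : (0 : ℝ) < m := by exact_mod_cast hm
  have hQ : (0 : ℝ) < Fintype.card L := by exact_mod_cast Fintype.card_pos
  have hδ : 0 < ε / (24 * m * Fintype.card L) := by positivity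
  have := R.nb
  filter_upwards [R.lin (4 * m ^ 2 + 3) (pow_pos hδ 2), R.pos] with j h1 h2
  have : Nonempty (Fin (n j)) := ⟨⟨0, h2.1⟩⟩
  have : Nonempty (Fin (M j)) := ⟨⟨0, h2.1.trans_le h2.2⟩⟩
  obtain ⟨bad, k1, k2, k3⟩ := Model_core (V := Fin (n j)) (G := Fin (M j)) R.ne q hm hδ
    (by simpa only [Fintype.card_fin] using h1)
  exact ⟨bad, k1, k2.trans_eq (by field_simp), k3⟩

lemma Model_inv {ε : ℝ} (hε : 0 < ε) : ∀ᶠ m : ℕ in atTop, 0 < m ∧ 1 / (m : ℝ) ≤ ε :=
  (eventually_gt_atTop 0).and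
    (tendsto_one_div_atTop_nhds_zero_nat.eventually (ge_mem_nhds hε))

theorem model1 (R : Reg H ep n M τ) {ε : ℝ} (hε : 0 < ε) : ∀ᶠ m in atTop, ∀ᶠ j in atTop,
    ∃ err : (Fin (M j) → α → Fin (n j)) → ℝ, (∀ y, 0 ≤ err y) ∧ 𝔼 y, err y ≤ ε ∧
      ∀ y T, cut (fun e => den (sp ep y) T e - ord (bk m (den (sp ep y) T)) e) ≤ err y := by
  filter_upwards [Model_inv (half_pos hε)] with m hm
  filter_upwards [model R Unit () hm.1 (show 0 < ε / 4 by positivity), R.pos] with j h h2
  obtain ⟨bad, k1, k2, k3⟩ := h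
  have : Nonempty (Fin (n j)) := ⟨⟨0, h2.1⟩⟩
  have hm0 : (0 : ℝ) ≤ 1 / m := by positivity
  refine ⟨fun y => 1 / m + 2 * bad y default, fun y => by have := k1 y default; positivity, ?_,
    fun y T => ?_⟩
  · simp only [univ_unique, expect_singleton] at k2
    rw [expect_add_distrib, ← mul_expect, Fintype.expect_const]
    linarith only [hm, k2, hm.2]
  · have := k1 y default
    rcases lt_or_ge (bad y default) 1 with hb | hb
    · have e : ∀ e, Fintype.card Unit * den (sp ep y) (T ∩ lay β default ()) e =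
          den (sp ep y) T e := fun e => by simp [lay]
      have k4 := k3 y default T hb
      simp only [e] at k4
      exact k4.trans (by linarith only [this])
    · refine (cut_le_l1 _).trans ((ex_mono (g := fun e => den (sp ep y) T e + 1)
        fun e => ?_).trans ?_)
      · have h1 := den_nonneg (sp ep y) T e
        have h3 : 0 ≤ ord (bk m (den (sp ep y) T)) e ∧ ord (bk m (den (sp ep y) T)) e ≤ 1 :=
          ck_unit _ _ _
        exact abs_le.2 ⟨by linarith only [h1, h3, h3.2], by linarith only [h3, h3.1]⟩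
      · rw [expect_add_distrib, Fintype.expect_const]
        linarith only [hm0, hb, ex_den_le (sp ep y) T]

theorem outer (R : Reg H ep n M τ) {γ : ℝ} (hγ : 0 < γ) : ∀ᶠ m in atTop, ∀ ε : ℝ, 0 < ε →
    ∀ᶠ j in atTop, ∃ err : (Fin (M j) → α → Fin (n j)) → ℝ, (∀ y, 0 ≤ err y) ∧ 𝔼 y, err y ≤ ε ∧
      ∀ y T, 𝔼 l : Fin (M j) → Bool,
        ind (γ < cut fun e => den (sp ep y) T e - ord (wl m ep y l T) e) ≤ err y := by
  filter_upwards [Model_inv (half_pos hγ)] with m hm ε hε
  have hδ : 0 < ε * γ / 16 := by positivity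
  have := R.nb
  filter_upwards [model R Bool true hm.1 (half_pos hε), R.pos, R.lin 2 (pow_pos hδ 2)] with j h h2 h3
  obtain ⟨bad, k1, k2, k3⟩ := h
  have : Nonempty (Fin (n j)) := ⟨⟨0, h2.1⟩⟩
  have : Nonempty (Fin (M j)) := ⟨⟨0, h2.1.trans_le h2.2⟩⟩
  refine ⟨fun y => (𝔼 l, bad y l) + ε / 2, fun y => add_nonneg (expect_nonneg fun l _ => k1 y l)
    (half_pos hε).le, ?_, fun y T => ?_⟩
  · rw [expect_add_distrib, Fintype.expect_const]
    linarith only [k2]
  · have k4 := lay_close (sp ep y) T true hδ (by simpa only [Fintype.card_fin] using h3)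
    have k5 := k3 y
    simp only [Fintype.card_bool, Nat.cast_ofNat] at k4 k5
    have k6 := ex_markov (f := fun l : Fin (M j) → Bool =>
      cut fun e => 2 * den (sp ep y) (T ∩ lay β l true) e - den (sp ep y) T e)
      (fun l => cut_nonneg _) (half_pos hγ)
    have k7 := div_le_div_of_nonneg_right k4 (half_pos hγ).le
    have e : 2 * (ε * γ / 16) * 2 / (γ / 2) = ε / 2 := by field_simp; norm_num
    refine (ex_mono (g := fun l => bad y l + ind (γ / 2 ≤
      cut fun e => 2 * den (sp ep y) (T ∩ lay β l true) e - den (sp ep y) T e))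
      fun l => ?_).trans ?_
    · rcases lt_or_ge (bad y l) 1 with hb | hb
      · refine le_add_of_nonneg_of_le (k1 y l) (ind_mono fun hc => ?_)
        have k8 := cut_tri (den (sp ep y) T) (fun e => 2 * den (sp ep y) (T ∩ lay β l true) e)
          (ord (wl m ep y l T))
        rw [cut_comm (den (sp ep y) T) fun e => 2 * den (sp ep y) (T ∩ lay β l true) e] at k8
        have k9 : cut (fun e => 2 * den (sp ep y) (T ∩ lay β l true) e -
          ord (wl m ep y l T) e) ≤ 1 / m := k5 l T hb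
        linarith only [hm, hc, k8, k9, hm.2]
      · exact le_add_of_le_of_nonneg ((ind_le_one _).trans hb) (ind_nonneg _)
    · rw [expect_add_distrib]
      linarith only [k6, k7, e]

end Pool.Agent.Work.MP_d4a230_co.U
end
end
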