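import Pool.Agent.Work.MP_d4a230_co.U.LF1
import Pool.Agent.Work.MP_d4a230_co.U.TP
import Pool.Agent.Work.MP_d4a230_co.U.Model
import Pool.Agent.Work.MP_d4a230_co.U.Force

-- merged part: Pool.Agent.Work.MP_d4a230_co.U.StatL
section
/-!
Local form of the statistics lemma.
PLAN. i0 = (g, b0). Apply tpm with activity t τ to F = F1 - ρ F2, G = the sum of
τ/(1 - tτ) ind (Acd ∧ Tch g C ∧ C ∉ act) plus 2c (its mean is mean XT + 2c: Ex_erase or Ex_mem,
xt_pow with m = 1). For σ : Fin (r+j) → sets, j <= d, put S0 = image of castAdd, η = coef θ t J,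
T = cav g σ. If i0 ∉ cap of the first r replicas both terms vanish. Otherwise marks_not turns the F1
term into the sum in lf1 with s0 = S0 (for Acd C with i0 ∈ C: C ⊆ cap iff C.erase i0 ⊆ T S0), and
marks turns the F2 term into the mean over labels l of 2 ind (l g = false) times the mean over z of
ρ psi (w S0) (sl z b0) * product, where w S = wl m ep y l (T S): if l g = false then
wl m ep (update y g z) l (S.inf σ) = wl m ep y l (T S) (den_congr; the layer true avoids g). The mean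
of 2 ind (l g = false) is 1 (ex_update). If all w S are γ-close, lf1 (h0 = (1-θ)^(r+d), coef_sum)
and lf (Ω = CI, D c z = psi (ck m c) (sl ep z b0), card_CI; one err for each b0, sum them or use
Ω = β × CI) bound the difference; otherwise bound it by XT (update y g z) + c and use outer:
the contribution is mean over z of (XT + c) times P_l(not close) <= h * (XT + c)^2 + P_l / h
(xt_pow with m = 2). Finitely many j <= d: eventually_all_finset.
-/

namespace Pool.Agent.Work.MP_d4a230_co.U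

open Finset Filter Topology Pool.Agent.Work.MP_07f1b5_pr
open scoped BigOperators

variable {α β : Type} [Fintype α] [DecidableEq α] [Fintype β] [DecidableEq β]
  {W : Type} [Fintype W] [DecidableEq W] {H : SimpleGraph W} [DecidableRel H.Adj]
  {ep : β → α × α} {n M : ℕ → ℕ} {τ : ℕ → ℝ}

lemma StatL_key {Z L : Type} [Fintype Z] [Fintype L] [Nonempty L] (k : L → ℝ) (Φ X : Z → ℝ)
    (Q : L → Z → ℝ) (bad : L → Prop) {e p h : ℝ} (he : 0 ≤ e) (hh : 0 < h)
    (hk : ∀ l, |k l| ≤ 2) (hk1 : 𝔼 l, k l = 1) (ha : ∀ l, ¬ bad l → |𝔼 z, (Φ z - Q l z)| ≤ e)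
    (hb : ∀ l z, |Φ z - Q l z| ≤ X z) (hc : 𝔼 l, ind (bad l) ≤ p) :
    |𝔼 z, (Φ z - 𝔼 l, k l * Q l z)| ≤ 2 * (e + h * (𝔼 z, X z ^ 2) + p / h) := by
  have h1 : 𝔼 z, (Φ z - 𝔼 l, k l * Q l z) = 𝔼 l, k l * 𝔼 z, (Φ z - Q l z) := by
    simp only [mul_expect]
    rw [expect_comm]
    refine expect_congr rfl fun z _ => ?_
    simp only [mul_sub, expect_sub_distrib, ← expect_mul, hk1, one_mul]
  have h2 : 0 ≤ h * 𝔼 z, X z ^ 2 := mul_nonneg hh.le (expect_nonneg fun z _ => sq_nonneg _)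
  have h3 : ∀ l, |𝔼 z, (Φ z - Q l z)| ≤ e + h * (𝔼 z, X z ^ 2) + ind (bad l) / h := fun l => by
    by_cases hl : bad l
    · have h4 : 𝔼 z, |Φ z - Q l z| ≤ 𝔼 z, (h * X z ^ 2 + 1 / h) := ex_mono fun z => by
        refine (hb l z).trans (le_of_mul_le_mul_left ?_ hh)
        rw [mul_add, mul_one_div_cancel hh.ne']
        nlinarith only [sq_nonneg (h * X z - 1), sq_nonneg (h * X z)]
      rw [expect_add_distrib, ← mul_expect] at h4
      have h5 : 𝔼 _z : Z, 1 / h ≤ 1 / h := ex_le (by positivity) fun _ => le_rfl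
      rw [ind_pos hl]
      linarith only [he, h4, h5, ex_abs fun z => Φ z - Q l z]
    · rw [ind_neg hl, zero_div]
      linarith [ha l hl]
  rw [h1]
  refine (ex_abs _).trans ((ex_mono (g := fun l =>
    2 * (e + h * (𝔼 z, X z ^ 2) + ind (bad l) / h)) fun l => ?_).trans ?_)
  · rw [abs_mul]
    exact mul_le_mul (hk l) (h3 l) (abs_nonneg _) zero_le_two
  · rw [← mul_expect, expect_add_distrib, Fintype.expect_const, ← expect_div]
    gcongr

section det

variable {V G : Type} [Fintype V] [DecidableEq V] [Fintype G] [DecidableEq G]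

lemma StatL_half (g : G) : 𝔼 l : G → Bool, 2 * ind (l g = false) = 1 := by
  rw [ex_update g]
  refine (expect_congr rfl fun l _ => ?_).trans (Fintype.expect_const (1 : ℝ))
  simp only [Function.update_self]
  rw [Fintype.expect_eq_sum_div_card, Fintype.sum_bool, ind_neg (by simp), ind_pos rfl]
  simp

lemma StatL_two (q : Prop) : 0 ≤ 2 * ind q ∧ 2 * ind q ≤ 2 :=
  ⟨by linarith [ind_nonneg q], by linarith [ind_le_one q]⟩

lemma StatL_mrk {θ t τ : ℝ} (h0 : 0 ≤ θ) (h1 : θ < 1) (t0 : 0 ≤ t) (t1 : t ≤ 1) (s0 : 0 ≤ τ)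
    (s1 : τ ≤ 1) (g : G) {u : ℕ} (J : β → Finset (Fin u)) (σ : Fin u → Finset (G × β))
    (y : G → α → V) (s : Finset (Finset (G × β))) :
    0 ≤ ∏ C ∈ s, (1 - τ * mrk H ep g (coef θ t J) (cav g σ) y C) ∧
      ∏ C ∈ s, (1 - τ * mrk H ep g (coef θ t J) (cav g σ) y C) ≤ 1 := by
  have k : ∀ q : Prop, 0 ≤ 1 - θ * ind q ∧ 1 - θ * ind q ≤ 1 := fun q =>
    ⟨by nlinarith only [h1, h0, ind_le_one q], by nlinarith [ind_nonneg q]⟩
  have k2 : ∀ C, 0 ≤ mrk H ep g (coef θ t J) (cav g σ) y C ∧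
      mrk H ep g (coef θ t J) (cav g σ) y C ≤ 1 := fun C => by
    rw [mrk_coef]
    have a := sub_nonneg.2 (prod_le_one (s := univ) (fun l _ => (k (Acd H (sp ep y) Prod.fst C ∧
      ∃ b, (g, b) ∈ C ∧ l ∈ J b ∧ C.erase (g, b) ⊆ σ l)).1) fun l _ => (k _).2)
    exact ⟨mul_nonneg t0 a, mul_le_one₀ t1 a (sub_le_self _ (prod_nonneg fun l _ => (k _).1))⟩
  have k3 : ∀ C, 0 ≤ 1 - τ * mrk H ep g (coef θ t J) (cav g σ) y C := fun C =>
    sub_nonneg.2 (mul_le_one₀ s1 (k2 C).1 (k2 C).2)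
  exact ⟨prod_nonneg fun C _ => k3 C,
    prod_le_one (fun C _ => k3 C) fun C _ => sub_le_self _ (mul_nonneg s0 (k2 C).1)⟩

lemma StatL_wl (m : ℕ) (y : G → α → V) (g : G) (z : α → V) {l : G → Bool} (hl : l g = false)
    (T : Finset (G × β)) :
    wl m ep (Function.update y g z) l T = wl m ep y l (T.filter fun i => i.1 ≠ g) := by
  have h : ∀ i ∈ lay β l true, i.1 ≠ g := fun i hi e => by
    rw [lay, mem_filter, e, hl] at hi
    exact Bool.false_ne_true hi.2
  have e : (T.filter fun i => i.1 ≠ g) ∩ lay β l true = T ∩ lay β l true := by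
    ext i
    simp only [mem_inter, mem_filter]
    exact ⟨fun a => ⟨a.1.1, a.2⟩, fun a => ⟨⟨a.1, h i a.2⟩, a.2⟩⟩
  rw [wl, wl, e, den_congr (q2 := sp ep y) fun i hi => ?_]
  rw [sp, sp, Function.update_of_ne (h i (mem_inter.1 hi).2)]

variable (H ep) in
/-- The difference of the two statistics. -/
noncomputable def StatL_F (τ t ρ : ℝ) (m : ℕ) (i0 : G × β) {r : ℕ} (y : G → α → V)
    (act : Finset (Finset (G × β))) (σ : Fin r → Finset (G × β)) : ℝ :=
  (∑ C : Finset (G × β), τ / (1 - t * τ) *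
    ind (Acd H (sp ep y) Prod.fst C ∧ C ∉ act ∧ C ⊆ cap σ ∧ i0 ∈ C)) -
  ρ * (ind (i0 ∈ cap σ) * 𝔼 l : G → Bool, 2 * ind (l i0.1 = false) *
    psi H (wl m ep y l (cap σ)) (sp ep y i0))

lemma StatL_E {θ t τ : ℝ} (ht : t * τ < 1) (ρ : ℝ) (m : ℕ) (g : G) (b0 : β) {r j : ℕ}
    (σ : Fin (r + j) → Finset (G × β)) (y : G → α → V) (z : α → V) :
    (E (t * τ) fun a => StatL_F H ep τ t ρ m (g, b0) (Function.update y g z) a
      (fun l => σ (Fin.castAdd j l)) * ∏ l, awg H θ ep g (Function.update y g z) a (σ l)) =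
    ind ((g, b0) ∈ cap fun l => σ (Fin.castAdd j l)) *
      ((∑ C : Finset (G × β), τ * ind (Acd H (sp ep (Function.update y g z)) Prod.fst C ∧
        (g, b0) ∈ C ∧ C.erase (g, b0) ⊆ cav g σ (univ.map (Fin.castAddEmb j))) *
        ∏ C2 ∈ univ.erase C, (1 - τ * mrk H ep g (coef θ t fun b => univ.filter fun l =>
          (g, b) ∈ σ l) (cav g σ) (Function.update y g z) C2)) -
      𝔼 l : G → Bool, 2 * ind (l g = false) *
        (ρ * psi H (wl m ep y l (cav g σ (univ.map (Fin.castAddEmb j)))) (sl ep z b0) *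
          ∏ C, (1 - τ * mrk H ep g (coef θ t fun b => univ.filter fun l => (g, b) ∈ σ l)
            (cav g σ) (Function.update y g z) C))) := by
  have hc : (cap fun l => σ (Fin.castAdd j l)) = (univ.map (Fin.castAddEmb j)).inf σ := by
    rw [inf_map]; rfl
  have h1 : 1 - t * τ ≠ 0 := (sub_pos.2 ht).ne'
  simp only [StatL_F, sub_mul, sum_mul]
  rw [E_sub, E_sum, mul_sub, mul_sum]
  congr 1
  · refine sum_congr rfl fun C _ => ?_
    have e : ∀ a : Finset (Finset (G × β)), ind (Acd H (sp ep (Function.update y g z)) Prod.fst C ∧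
        C ∉ a ∧ C ⊆ (cap fun l => σ (Fin.castAdd j l)) ∧ (g, b0) ∈ C) =
        ind ((g, b0) ∈ cap fun l => σ (Fin.castAdd j l)) *
          ind (Acd H (sp ep (Function.update y g z)) Prod.fst C ∧ (g, b0) ∈ C ∧
            C.erase (g, b0) ⊆ cav g σ (univ.map (Fin.castAddEmb j))) * ind (C ∉ a) := fun a => by
      rw [← ind_and, ← ind_and, hc]
      refine ind_congr ⟨fun k => ⟨⟨k.2.2.1 k.2.2.2, k.1, k.2.2.2, fun i hi => ?_⟩, k.2.1⟩,
        fun k => ⟨k.1.2.1, k.2, fun i hi => ?_, k.1.2.2.1⟩⟩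
      · rw [mem_erase] at hi
        exact mem_filter.2 ⟨k.2.2.1 hi.2, fun e => hi.1 (k.1.2.2 hi.2 k.2.2.2 e)⟩
      · by_cases e : i = (g, b0)
        · exact e ▸ k.1.1
        · exact (mem_filter.1 (k.1.2.2.2 (mem_erase.2 ⟨e, hi⟩))).1
    simp only [e, mul_assoc]
    rw [E_const_mul, E_const_mul, E_const_mul, marks_not]
    generalize 1 - t * τ = s at h1 ⊢
    field_simp
  · rw [E_const_mul, marks, mul_comm ρ, mul_assoc, mul_assoc, expect_mul]
    refine congrArg _ (expect_congr rfl fun l _ => ?_)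
    by_cases hl : l g = false
    · rw [StatL_wl m y g z hl, hc, sp, Function.update_self]
      simp only [cav]
      ring
    · rw [ind_neg hl]
      ring

end det

lemma StatL_one (R : Reg H ep n M τ) (r i : ℕ) {θ ε : ℝ} (h0 : 0 ≤ θ) (h1 : θ < 1) (hε : 0 < ε) :
    ∀ᶠ m in atTop, ∀ᶠ j in atTop, ∀ (g : Fin (M j)) (b0 : β),
      ∃ err : (Fin (M j) → α → Fin (n j)) → ℝ, (∀ y, 0 ≤ err y) ∧ 𝔼 y, err y ≤ ε ∧
        ∀ t : ℝ, 0 ≤ t → t < 1 → ∀ y (σ : Fin (r + i) → Finset (Fin (M j) × β)),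
          |𝔼 z, E (t * τ j) fun a => StatL_F H ep (τ j) t
            (rate H (n j) (M j * Fintype.card β) (τ j)) m (g, b0) (Function.update y g z) a
              (fun l => σ (Fin.castAdd i l)) *
                ∏ l, awg H θ ep g (Function.update y g z) a (σ l)| ≤ err y := by
  obtain ⟨c, c0, hc⟩ := R.rate_bd
  obtain ⟨C, C0, hC⟩ := xt_pow R 2
  obtain ⟨δ, hδ, hδε⟩ := exists_pos_mul_lt hε (2 * (2 + c + 2 * C + 2 * c ^ 2))
  obtain ⟨ε3, h3, h3ε⟩ := exists_pos_mul_lt (mul_pos hδ hδ) (Fintype.card (Finset (Fin (r + i))))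
  obtain ⟨γ1, g1, e1⟩ := lf1 R (Finset (Fin (r + i))) 1 (pow_pos (sub_pos.2 h1) (r + i)) hδ
  obtain ⟨γ2, g2, e2⟩ := lf R (Finset (Fin (r + i))) 1 hδ
  filter_upwards [outer R (lt_min g1 g2)] with m e3
  filter_upwards [hc, hC, R.t01, e1, e2 (4 * m ^ 2 + 3), e3 ε3 h3] with j hc hC t01 e1 e2 e3 g b0
  obtain ⟨er1, a1, b1, e1⟩ := e1 g
  obtain ⟨er2, a2, b2, e2⟩ := e2 g (CI (Fin (n j)) m) (fun ω z => psi H (ck m ω) (sl ep z b0))
    (by
      have k := card_CI (V := Fin (n j)) m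
      have k0 : (0 : ℝ) < Fintype.card (CI (Fin (n j)) m) := Nat.cast_pos.2 Fintype.card_pos
      rw [Fintype.card_fin] at k
      exact (Real.log_le_log k0 (by linarith)).trans k)
    fun ω z => psi_unit H (ck_unit m ω) _
  obtain ⟨er3, a3, b3, e3⟩ := e3
  generalize rate H (n j) (M j * Fintype.card β) (τ j) = ρ at hc e1 e2 ⊢
  refine ⟨fun y => 2 * (er1 y + c * er2 y +
    δ * (𝔼 z, (XT H (τ j) ep g (Function.update y g z) + c) ^ 2) +
      Fintype.card (Finset (Fin (r + i))) * er3 y / δ), fun y => ?_, ?_, fun t t0 t1 y σ => ?_⟩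
  · have := a1 y
    have := a2 y
    have := a3 y
    have : 0 ≤ 𝔼 z, (XT H (τ j) ep g (Function.update y g z) + c) ^ 2 :=
      expect_nonneg fun z _ => sq_nonneg _
    positivity
  · rw [← mul_expect, expect_add_distrib, expect_add_distrib, expect_add_distrib, ← mul_expect,
      ← mul_expect, ← expect_div, ← mul_expect,
      ← ex_update g fun y => (XT H (τ j) ep g y + c) ^ 2]
    have k1 : 𝔼 y : Fin (M j) → α → Fin (n j), (XT H (τ j) ep g y + c) ^ 2 ≤
        𝔼 y : Fin (M j) → α → Fin (n j), (2 * XT H (τ j) ep g y ^ 2 + 2 * c ^ 2) :=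
      ex_mono fun y => by nlinarith only [sq_nonneg (XT H (τ j) ep g y - c)]
    rw [expect_add_distrib, ← mul_expect] at k1
    have k2 : 𝔼 _y : Fin (M j) → α → Fin (n j), 2 * c ^ 2 ≤ 2 * c ^ 2 :=
      ex_le (by positivity) fun _ => le_rfl
    have k3 : Fintype.card (Finset (Fin (r + i))) * (𝔼 y, er3 y) / δ ≤ δ := by
      rw [div_le_iff₀ hδ]
      exact (mul_le_mul_of_nonneg_left b3 (Nat.cast_nonneg _)).trans h3ε.le
    have k4 := mul_le_mul_of_nonneg_left b2 c0
    have k5 := mul_le_mul_of_nonneg_left (k1.trans (add_le_add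
      (mul_le_mul_of_nonneg_left (hC g) zero_le_two) k2)) hδ.le
    linarith only [hδε, b1, k3, k4, k5]
  have ht : t * τ j < 1 := (mul_le_of_le_one_right t0 t01.2).trans_lt t1
  have hu : ∀ l T, Unit01 (wl m ep y l T) := fun l T => ck_unit m _
  have hP := fun z => StatL_mrk (H := H) (ep := ep) h0 h1 t0 t1.le t01.1 t01.2 g
    (fun b => univ.filter fun l => (g, b) ∈ σ l) σ (Function.update y g z)
  simp only [StatL_E ht, ← mul_expect, abs_mul]
  refine (mul_le_of_le_one_left (abs_nonneg _) (by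
    rw [abs_of_nonneg (ind_nonneg _)]; exact ind_le_one _)).trans (StatL_key _ _ _ _
      (fun l => ∃ S ∈ (univ : Finset (Finset (Fin (r + i)))), min γ1 γ2 <
        cut fun e => den (sp ep y) (cav g σ S) e - ord (wl m ep y l (cav g σ S)) e)
      (add_nonneg (a1 y) (mul_nonneg c0 (a2 y))) hδ
      (fun l => by rw [abs_of_nonneg (StatL_two _).1]; exact (StatL_two _).2) (StatL_half g)
      (fun l hl => ?_) (fun l z => ?_) ?_)
  · have k0 : ∀ S, cut (fun e => den (sp ep y) (cav g σ S) e -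
        ord (wl m ep y l (cav g σ S)) e) ≤ min γ1 γ2 := fun S =>
      not_lt.1 fun e => hl ⟨S, mem_univ _, e⟩
    have kη := coef_abs h0 h1 t0 t1.le fun b => univ.filter fun l => (g, b) ∈ σ l
    have kσ := coef_sum h0 h1 t0 t1.le (fun b => univ.filter fun l => (g, b) ∈ σ l) g σ
    have kT : ∀ S, ∀ i ∈ cav g σ S, i.1 ≠ g := fun S i hi => (mem_filter.1 hi).2
    have k1 := e1 y _ (cav g σ) (fun S => wl m ep y l (cav g σ S)) b0
      (univ.map (Fin.castAddEmb i)) kη kσ kT (fun S => hu l _) fun S => (k0 S).trans (min_le_left _ _)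
    have k2 := e2 y (best m fun e => 2 * den (sp ep y)
      (cav g σ (univ.map (Fin.castAddEmb i)) ∩ lay β l true) e) _ (cav g σ)
      (fun S => wl m ep y l (cav g σ S)) kη (fun b C => ⟨(kσ b C).1, (kσ b C).2.trans
        (sub_le_self _ (pow_nonneg (sub_nonneg.2 h1.le) _))⟩) kT (fun S => hu l _)
      fun S => (k0 S).trans (min_le_right _ _)
    have k3 := mul_le_mul hc.2 k2 (abs_nonneg _) c0
    rw [← abs_of_nonneg hc.1, ← abs_mul, abs_of_nonneg hc.1, mul_expect] at k3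
    refine le_trans (le_of_eq ?_) ((abs_sub _ _).trans (add_le_add k1 k3))
    rw [← expect_sub_distrib]
    refine congrArg _ (expect_congr rfl fun z _ => ?_)
    simp only [wl, bk]
    ring
  · have k1 := psi_unit H (hu l (cav g σ (univ.map (Fin.castAddEmb i)))) (sl ep z b0)
    have k2 := mul_nonneg (mul_nonneg hc.1 k1.1) (hP z univ).1
    have k3 := mul_le_mul (mul_le_mul hc.2 k1.2 k1.1 c0) (hP z univ).2 (hP z univ).1
      (mul_nonneg c0 zero_le_one)
    refine (abs_sub _ _).trans (add_le_add ?_ ?_)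
    · rw [abs_of_nonneg (sum_nonneg fun C _ =>
        mul_nonneg (mul_nonneg t01.1 (ind_nonneg _)) (hP z _).1)]
      refine sum_le_sum fun C _ => (mul_le_of_le_one_right (mul_nonneg t01.1 (ind_nonneg _))
        (hP z _).2).trans (mul_le_mul_of_nonneg_left (ind_mono fun k => ⟨k.1, b0, k.2.1⟩) t01.1)
    · rw [abs_of_nonneg k2]
      linarith
  · refine (ex_mono fun l => ind_exists_le _ _).trans ?_
    rw [expect_sum_comm]
    refine (sum_le_sum fun S _ => e3 y _).trans ?_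
    rw [sum_const, card_univ, nsmul_eq_mul]

theorem stat_loc (R : Reg H ep n M τ) {r : ℕ} (hr : 0 < r) {lam θ ε : ℝ} (hl : 0 ≤ lam)
    (h0 : 0 ≤ θ) (h1 : θ < 1) (hε : 0 < ε) : ∀ᶠ m in atTop, ∀ᶠ j in atTop,
    ∀ (t : ℝ) (U : Finset (Fin (M j) × β) → ℝ) (i0 : Fin (M j) × β), 0 ≤ t → t < 1 → Good lam U →
      |EG H θ (t * τ j) ep U r (fun (y : Fin (M j) → α → Fin (n j)) act σ =>
          ∑ C : Finset (Fin (M j) × β), τ j / (1 - t * τ j) *
            ind (Acd H (sp ep y) Prod.fst C ∧ C ∉ act ∧ C ⊆ cap σ ∧ i0 ∈ C)) -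
        rate H (n j) (M j * Fintype.card β) (τ j) *
          EG H θ (t * τ j) ep U r fun (y : Fin (M j) → α → Fin (n j)) _ σ =>
            ind (i0 ∈ cap σ) * 𝔼 l : Fin (M j) → Bool, 2 * ind (l i0.1 = false) *
              psi H (wl m ep y l (cap σ)) (sp ep y i0)| ≤ ε := by
  obtain ⟨c, c0, hc⟩ := R.rate_bd
  obtain ⟨C, C0, hC⟩ := xt_pow R 1
  obtain ⟨e1, h3, h4⟩ := exists_pos_mul_lt (half_pos hε) (C + 2 * c)
  obtain ⟨d, A, A0, hA⟩ := tpm (H := H) ep r hl h0 h1 h3
  obtain ⟨e2, h5, h6⟩ := exists_pos_mul_lt (half_pos hε) (A * (d + 1))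
  filter_upwards [(eventually_all_finset (range (d + 1))).2 fun i _ =>
    StatL_one R r i h0 h1 h5] with m hm
  filter_upwards [hc, hC, R.t01, (eventually_all_finset (range (d + 1))).2 hm]
    with j hc hC t01 hj t U i0 t0 t1 hU
  obtain ⟨g, b0⟩ := i0
  choose! err a b k using fun i hi => hj i hi g b0
  have ht : t * τ j < 1 := (mul_le_of_le_one_right t0 t01.2).trans_lt t1
  have hq : 0 ≤ τ j / (1 - t * τ j) := div_nonneg t01.1 (sub_pos.2 ht).le
  rw [← EG_mul, ← EG_sub]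
  refine (hA (n j) (M j) (t * τ j) g U (StatL_F H ep (τ j) t _ m (g, b0))
    (fun y a => (∑ C : Finset (Fin (M j) × β), τ j / (1 - t * τ j) *
      (ind (Acd H (sp ep y) Prod.fst C ∧ Tch g C) * ind (C ∉ a))) + 2 * c)
    (fun y => ∑ i ∈ range (d + 1), err i y) (mul_nonneg t0 t01.1) ht.le hU
    (fun y => sum_nonneg fun i hi => a i hi y) (fun y a σ => ?_) (fun y a a2 h => ?_)
    fun y i hi σ _ => ?_).trans ?_
  · refine (abs_sub _ _).trans (add_le_add ?_ ?_)
    · rw [abs_of_nonneg (sum_nonneg fun C _ => mul_nonneg hq (ind_nonneg _))]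
      refine sum_le_sum fun C _ => mul_le_mul_of_nonneg_left ?_ hq
      rw [← ind_and]
      exact ind_mono fun k => ⟨⟨k.1, b0, k.2.2.2⟩, k.2.1⟩
    · have k1 := fun l : Fin (M j) → Bool => psi_unit H (show Unit01 (wl m ep y l (cap σ)) from
        ck_unit m _) (sp ep y (g, b0))
      have k2 := expect_nonneg (s := univ) fun (l : Fin (M j) → Bool) _ =>
        mul_nonneg (StatL_two (l g = false)).1 (k1 l).1
      have k3 := ex_le zero_le_two fun l : Fin (M j) → Bool =>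
        (mul_le_of_le_one_right (StatL_two (l g = false)).1 (k1 l).2).trans (StatL_two _).2
      have k4 := mul_nonneg (ind_nonneg ((g, b0) ∈ cap σ)) k2
      rw [abs_of_nonneg (mul_nonneg hc.1 k4), mul_comm 2 c]
      exact mul_le_mul hc.2 ((mul_le_of_le_one_left k2 (ind_le_one _)).trans k3) k4 c0
  · funext σ
    refine congrArg (· - _) (sum_congr rfl fun C _ => congrArg _ (ind_congr ?_))
    exact ⟨fun k => ⟨k.1, fun e => k.2.1 ((h C ⟨b0, k.2.2.2⟩).2 e), k.2.2⟩,
      fun k => ⟨k.1, fun e => k.2.1 ((h C ⟨b0, k.2.2.2⟩).1 e), k.2.2⟩⟩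
  · have hi2 := mem_range.2 (Nat.lt_succ_of_le hi)
    exact (k i hi2 t t0 t1 y σ).trans (single_le_sum (f := fun i => err i y)
      (fun i hi => a i hi y) hi2)
  · have k1 : ∀ y : Fin (M j) → α → Fin (n j), (E (t * τ j) fun a =>
        (∑ C : Finset (Fin (M j) × β), τ j / (1 - t * τ j) *
          (ind (Acd H (sp ep y) Prod.fst C ∧ Tch g C) * ind (C ∉ a))) + 2 * c) =
        XT H (τ j) ep g y ^ 1 + 2 * c := fun y => by
      rw [E_add, E_const, E_sum, pow_one]
      refine congrArg (· + _) (sum_congr rfl fun C _ => ?_)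
      simp only [E_const_mul, ind_not, E_sub, E_const]
      rw [E, Ex_mem]
      have k2 := (sub_pos.2 ht).ne'
      generalize 1 - t * τ j = s at k2 ⊢
      field_simp
    have k2 : 𝔼 _y : Fin (M j) → α → Fin (n j), 2 * c ≤ 2 * c :=
      ex_le (by positivity) fun _ => le_rfl
    have k3 : 𝔼 y, ∑ i ∈ range (d + 1), err i y ≤ (d + 1) * e2 := by
      rw [expect_sum_comm]
      refine (sum_le_sum b).trans ?_
      rw [sum_const, card_range, nsmul_eq_mul, Nat.cast_succ]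
    simp only [k1]
    rw [expect_add_distrib]
    have k4 := mul_le_mul_of_nonneg_left (add_le_add (hC g) k2) h3.le
    have k5 := mul_le_mul_of_nonneg_left k3 A0
    linarith only [h4, h6, k4, k5]

end Pool.Agent.Work.MP_d4a230_co.U
end

-- merged part: Pool.Agent.Work.MP_d4a230_co.U.Stat
section
/-!
The statistics lemma.
PLAN. Every C with Acd has k elements, so k AccR is the sum over i0 of the first terms of stat_loc.
Pick m from stat_loc and outer. For fixed y, T = cap σ, l and w = wl m ep y l T the sum over i0 of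
ind (i0 ∈ T) 2 ind (l i0.1 = false) psi w (sp i0) is N * mean (2 den (T ∩ lay false) * ord (psi w))
(den_ord), within N * cut (2 den (T ∩ lay false) - ord w) of N tH w (psi_cut, tH_psi), and
|tH w - tH wb| <= k cut (ord w - ord wb) (tH_cut). cut_tri, lay_close, outer (on the bad event
cut (den - ord w) <= 2), EG_mono, EG_pos.
-/

namespace Pool.Agent.Work.MP_d4a230_co.U

open Finset Filter Topology Pool.Agent.Work.MP_07f1b5_pr
open scoped BigOperators

variable {α β : Type} [Fintype α] [DecidableEq α] [Fintype β] [DecidableEq β]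
  {W : Type} [Fintype W] [DecidableEq W] {H : SimpleGraph W} [DecidableRel H.Adj]
  {ep : β → α × α} {n M : ℕ → ℕ} {τ : ℕ → ℝ}

section aux

variable {V G : Type} [Fintype V] [DecidableEq V] [Nonempty V] [Fintype G] [DecidableEq G]

lemma Stat_lay (q : G × β → Sym2 V) (T : Finset (G × β)) (l : G → Bool) (u : Sym2 V → ℝ)
    (hN : (Fintype.card (G × β) : ℝ) ≠ 0) :
    ∑ i, ind (i ∈ T) * (2 * ind (l i.1 = false) * u (q i)) = Fintype.card (G × β) *
      𝔼 e, (Fintype.card Bool * den q (T ∩ lay β l false) e) * ord u e := by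
  simp only [mul_assoc]
  rw [← mul_expect, den_ord, Fintype.card_bool, ← sum_ite_mem_eq (T ∩ lay β l false)]
  have : ∀ i, ind (i ∈ T) * (2 * (ind (l i.1 = false) * u (q i))) =
      2 * if i ∈ T ∩ lay β l false then u (q i) else 0 := fun i => by
    by_cases h1 : i ∈ T <;> by_cases h2 : l i.1 = false <;>
      simp [lay, h1, h2, ind_pos, ind_neg]
  simp only [this]
  rw [← mul_sum]
  push_cast
  field_simp

lemma Stat_two (q : G × β → Sym2 V) (T : Finset (G × β)) {w : Sym2 V → ℝ} (hw : Unit01 w) :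
    cut (fun e => den q T e - ord w e) ≤ 2 := by
  refine (cut_le_l1 _).trans ?_
  have h : ∀ e, |den q T e - ord w e| ≤ den q T e + 1 := fun e => by
    have := den_nonneg q T e
    have := hw s(e.1, e.2)
    rw [abs_le]
    unfold ord
    constructor <;> linarith [this.1, this.2]
  refine (ex_mono h).trans ?_
  rw [expect_add_distrib, expect_const univ_nonempty]
  linarith [ex_den_le q T]

omit [Nonempty V] in
lemma Stat_one (hk : 0 < H.edgeFinset.card) (f g : V × V → ℝ) {w u : Sym2 V → ℝ} (hw : Unit01 w)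
    (hu : Unit01 u) : |(𝔼 e, f e * ord (psi H w) e) - tH H u| ≤ cut (fun e => f e - g e) +
      (H.edgeFinset.card + 1) * cut (fun e => g e - ord w e) +
      H.edgeFinset.card * cut fun e => g e - ord u e := by
  have h1 := psi_cut H hw fun e => f e - ord w e
  simp only [sub_mul] at h1
  rw [expect_sub_distrib, tH_psi H hk] at h1
  have h2 := tH_cut H hw hu
  have h3 := cut_tri f g (ord w)
  have h4 := cut_tri (ord w) g (ord u)
  rw [cut_comm (ord w) g] at h4
  have h5 := mul_le_mul_of_nonneg_left h4 (Nat.cast_nonneg (α := ℝ) H.edgeFinset.card)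
  have h6 := abs_sub_le (𝔼 e, f e * ord (psi H w) e) (tH H w) (tH H u)
  linarith only [h1, h2, h3, h5, h6]

lemma Stat_pt [Nonempty G] [Nonempty β] (hk : 0 < H.edgeFinset.card) (q : G × β → Sym2 V)
    (T : Finset (G × β)) (w : (G → Bool) → Sym2 V → ℝ) (hw : ∀ l, Unit01 (w l)) {u : Sym2 V → ℝ}
    (hu : Unit01 u) {δ a : ℝ} (hδ : 0 < δ)
    (h : 2 * ((Fintype.card V : ℝ) + 1) ≤ δ ^ 2 * Fintype.card G)
    (ha : 𝔼 l, ind (δ < cut fun e => den q T e - ord (w l) e) ≤ a) :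
    |(∑ i, ind (i ∈ T) * 𝔼 l : G → Bool, 2 * ind (l i.1 = false) * psi H (w l) (q i)) -
      Fintype.card (G × β) * tH H u| ≤ Fintype.card (G × β) *
        (4 * δ + (H.edgeFinset.card + 1) * (δ + 2 * a) +
          H.edgeFinset.card * cut fun e => den q T e - ord u e) := by
  have hN : (0 : ℝ) < Fintype.card (G × β) := Nat.cast_pos.2 Fintype.card_pos
  simp only [mul_expect]
  rw [← expect_sum_comm]
  simp only [Stat_lay q T _ _ hN.ne']
  rw [← mul_expect, ← mul_sub, abs_mul, abs_of_pos hN]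
  refine mul_le_mul_of_nonneg_left ?_ hN.le
  rw [← expect_const univ_nonempty (tH H u) (s := (univ : Finset (G → Bool))),
    ← expect_sub_distrib]
  refine (ex_abs _).trans ((ex_mono fun l => Stat_one hk _ (den q T) (hw l) hu).trans ?_)
  rw [expect_add_distrib, expect_add_distrib, expect_const univ_nonempty, ← mul_expect]
  have h1 := lay_close q T false hδ h
  have h2 : 𝔼 l, cut (fun e => den q T e - ord (w l) e) ≤ δ + 2 * a := by
    have : ∀ l, cut (fun e => den q T e - ord (w l) e) ≤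
        δ + 2 * ind (δ < cut fun e => den q T e - ord (w l) e) := fun l => by
      by_cases hl : δ < cut fun e => den q T e - ord (w l) e
      · rw [ind_pos hl]
        linarith only [hδ, Stat_two q T (hw l)]
      · rw [ind_neg hl]
        linarith [not_lt.1 hl]
    refine (ex_mono this).trans ?_
    rw [expect_add_distrib, expect_const univ_nonempty, ← mul_expect]
    linarith
  have h3 := mul_le_mul_of_nonneg_left h2 (by positivity : (0 : ℝ) ≤ H.edgeFinset.card + 1)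
  have h4 : (Fintype.card Bool : ℝ) = 2 := by simp
  rw [h4] at h1 ⊢
  linarith

omit [Nonempty V] in
lemma Stat_acc (θ s t : ℝ) (U : Finset (G × β) → ℝ) (r : ℕ) :
    H.edgeFinset.card * AccR H V θ s t ep U r = ∑ i0, EG H θ (t * s) ep U r
      fun (y : G → α → V) act σ => ∑ C : Finset (G × β), s / (1 - t * s) *
        ind (Acd H (sp ep y) Prod.fst C ∧ C ∉ act ∧ C ⊆ cap σ ∧ i0 ∈ C) := by
  rw [← EG_sum, AccR, ← EG_mul]
  refine congrArg _ (funext fun y => funext fun act => funext fun σ => ?_)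
  rw [sum_comm, mul_sum]
  refine sum_congr rfl fun C _ => ?_
  simp only [← and_assoc, ind_and _ (_ ∈ C)]
  rw [← mul_sum, ← mul_sum, P1_sum_mem]
  by_cases hC : (Acd H (sp ep y) Prod.fst C ∧ C ∉ act) ∧ C ⊆ cap σ
  · rw [hC.1.1.2.1]
    ring
  · rw [ind_neg hC]
    ring

end aux

theorem stat (R : Reg H ep n M τ) {r : ℕ} (hr : 0 < r) {lam θ ε : ℝ} (hl : 0 ≤ lam)
    (h0 : 0 ≤ θ) (h1 : θ < 1) (hε : 0 < ε) : ∀ᶠ j in atTop,
    ∀ (t : ℝ) (U : Finset (Fin (M j) × β) → ℝ)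
      (wb : (Fin (M j) → α → Fin (n j)) → Finset (Fin (M j) × β) → Sym2 (Fin (n j)) → ℝ),
      0 ≤ t → t < 1 → Good lam U → (∀ y T, Unit01 (wb y T)) →
      |AccR H (Fin (n j)) θ (τ j) t ep U r -
        rate H (n j) (M j * Fintype.card β) (τ j) * (M j * Fintype.card β : ℕ) /
          H.edgeFinset.card * EG H θ (t * τ j) ep U r fun y _ σ => tH H (wb y (cap σ))| ≤
        ε * (M j * Fintype.card β : ℕ) +
          rate H (n j) (M j * Fintype.card β) (τ j) * (M j * Fintype.card β : ℕ) *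
            EG H θ (t * τ j) ep U r fun y _ σ =>
              cut fun e => den (sp ep y) (cap σ) e - ord (wb y (cap σ)) e := by
  have hk : 0 < H.edgeFinset.card := by
    have := R.bal.h3
    have := R.bal.hk
    omega
  have hk1 : (1 : ℝ) ≤ H.edgeFinset.card := Nat.one_le_cast.2 hk
  obtain ⟨c, hc, hρ⟩ := R.rate_bd
  obtain ⟨δ, hδ, hδε⟩ : ∃ δ : ℝ, 0 < δ ∧
      δ + c * (4 * δ + (H.edgeFinset.card + 1) * (δ + 2 * δ)) = ε := by
    refine ⟨ε / (1 + c * (4 + (H.edgeFinset.card + 1) * 3)), by positivity, ?_⟩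
    field_simp
    ring
  obtain ⟨m, hm1, hm2⟩ := ((stat_loc R hr hl h0 h1 hδ).and (outer R hδ)).exists
  filter_upwards [hm1, hm2 δ hδ, hρ, R.t01, R.pos, R.lin 2 (pow_pos hδ 2)] with j hs
    ⟨err, _, he, hbad⟩ hρ ht hp hlin t U wb t0 t1 hU hwb
  have : Nonempty β := R.nb
  have : Nonempty (Fin (n j)) := ⟨⟨0, hp.1⟩⟩
  have : Nonempty (Fin (M j)) := ⟨⟨0, hp.1.trans_le hp.2⟩⟩
  have s0 : 0 ≤ t * τ j := mul_nonneg t0 ht.1
  have s1 : t * τ j ≤ 1 := mul_le_one₀ t1.le ht.1 ht.2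
  have hN : (Fintype.card (Fin (M j) × β) : ℝ) = (M j * Fintype.card β : ℕ) := by
    rw [Fintype.card_prod, Fintype.card_fin]
  set ρ := rate H (n j) (M j * Fintype.card β) (τ j)
  rw [← hN]
  set N : ℝ := (Fintype.card (Fin (M j) × β) : ℝ) with hN2
  have hN0 : 0 ≤ N := Nat.cast_nonneg _
  have a1 := (abs_sum_le_sum_abs _ _).trans
    (sum_le_sum fun i0 (_ : i0 ∈ univ) => hs t U i0 t0 t1 hU)
  rw [sum_sub_distrib, ← Stat_acc, ← mul_sum, ← EG_sum, sum_const, card_univ, nsmul_eq_mul,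
    ← hN2] at a1
  have a2 := (EG_abs (H := H) (ep := ep) (r := r) h0 h1 s0 s1 hU).trans (EG_mono h0 h1 s0 s1 hU
    fun y _ σ _ => Stat_pt hk (sp ep y) (cap σ) (fun l => wl m ep y l (cap σ))
      (fun l => ck_unit _ _) (hwb y (cap σ)) hδ (by simpa only [Fintype.card_fin] using hlin)
      (hbad y (cap σ)))
  rw [EG_sub, EG_mul, EG_mul, EG_add, EG_mul, EG_pos h0 h1 hU, ← hN2, expect_add_distrib,
    expect_const univ_nonempty, ← mul_expect, expect_add_distrib, expect_const univ_nonempty,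
    ← mul_expect] at a2
  set A := AccR H (Fin (n j)) θ (τ j) t ep U r
  set B := EG H θ (t * τ j) ep U r fun y _ σ => tH H (wb y (cap σ))
  set D := EG H θ (t * τ j) ep U r fun y _ σ =>
    cut fun e => den (sp ep y) (cap σ) e - ord (wb y (cap σ)) e
  set S := EG H θ (t * τ j) ep U r fun (y : Fin (M j) → α → Fin (n j)) _ σ =>
    ∑ i, ind (i ∈ cap σ) * 𝔼 l : Fin (M j) → Bool,
      2 * ind (l i.1 = false) * psi H (wl m ep y l (cap σ)) (sp ep y i)
  set k : ℝ := (H.edgeFinset.card : ℝ)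
  have k0 : 0 < k := by linarith only [hk1]
  have e1 : A - ρ * N / k * B = (k * A - ρ * S + ρ * (S - N * B)) / k := by
    field_simp
    ring
  rw [e1, abs_div, abs_of_pos k0, div_le_iff₀ k0]
  refine (abs_add_le _ _).trans ?_
  rw [abs_mul ρ, abs_of_nonneg hρ.1]
  have a3 : 4 * δ + (k + 1) * (δ + 2 * 𝔼 y, err y) ≤ 4 * δ + (k + 1) * (δ + 2 * δ) := by
    gcongr
  have a4 := mul_le_mul_of_nonneg_left (a2.trans (mul_le_mul_of_nonneg_left
    (add_le_add_left a3 (k * D)) hN0)) hρ.1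
  have a5 : ρ * (N * (4 * δ + (k + 1) * (δ + 2 * δ))) ≤
      c * (N * (4 * δ + (k + 1) * (δ + 2 * δ))) :=
    mul_le_mul_of_nonneg_right hρ.2 (by positivity)
  have a6 : ε * N * 1 ≤ ε * N * k := mul_le_mul_of_nonneg_left hk1 (by positivity)
  have a7 : ε * N = N * δ + c * (N * (4 * δ + (k + 1) * (δ + 2 * δ))) := by
    rw [← hδε]
    ring
  linarith only [a1, a4, a5, a6, a7]

end Pool.Agent.Work.MP_d4a230_co.U
end

-- merged part: Pool.Agent.Work.MP_d4a230_co.U.Interp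
section
/-!
The interpolation between accidental and virtual constraints.
PLAN. fi_deriv: russo twice (outer p = π, q = -π; inner p = 0, q = τ, for each y; HasDerivAt of the
finite average over y). For a constraint c, f (insert c A) - f (A.erase c) = log (1 - θ x) with x the
one-replica average of the indicator in the system A.erase c (log_ins), log_series, x^(r+1) =
gib (r+1) (ind (. ⊆ cap σ)) (gib_prod, ind_cap). Accidental terms: Ex_erase turns them into AccR.
Virtual terms: Ex_erase_close, error π c * π c <= pm π c per c and r, sum_coef_le. FI is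
differentiable everywhere (hence continuous). fi_le, fi_ge: mean value inequality
(exists_hasDerivAt_eq_slope on [0,1]). fi_mvt: exists_hasDerivAt_eq_slope on [0, 1-η] and [1-η, 1]:
FI (1-η) <= FI 0 + e, so at some t ∈ (1-η, 1) the derivative is >= -(g + e)/η; all other terms of the
series are >= -δ times their coefficient.
-/

namespace Pool.Agent.Work.MP_d4a230_co.U

open Finset Filter Topology Pool.Agent.Work.MP_07f1b5_pr
open scoped BigOperators


variable {V G α β X : Type} [Fintype V] [DecidableEq V] [Nonempty V] [Fintype G] [DecidableEq G]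
  [Fintype α] [DecidableEq α] [Fintype β] [DecidableEq β] [Fintype X] [DecidableEq X]
  {W : Type} [Fintype W] [DecidableEq W] {H : SimpleGraph W} [DecidableRel H.Adj]
  {lam θ τ A pm : ℝ} {ep : β → α × α} {π : X → ℝ} {sup : X → Finset (G × β)}

/-- Hypotheses of the interpolation. -/
structure IH (H : SimpleGraph W) [DecidableRel H.Adj] (V : Type) [Fintype V] [DecidableEq V]
    (G : Type) [Fintype G] [DecidableEq G] (lam θ τ A pm : ℝ) (ep : β → α × α) (π : X → ℝ) :
    Prop where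
  hl : 0 ≤ lam
  h0 : 0 ≤ θ
  h1 : θ < 1
  t0 : 0 ≤ τ
  t1 : τ ≤ 1
  p0 : ∀ c, 0 ≤ π c
  p1 : ∀ c, π c ≤ 1
  pm : ∀ c, π c ≤ pm
  hA : (𝔼 y : G → α → V, ∑ C : Finset (G × β), τ * ind (Acd H (sp ep y) Prod.fst C)) ≤ A

/-- Error of the truncated series. -/
noncomputable def ierr (θ A pm : ℝ) (π : X → ℝ) (R : ℕ) : ℝ :=
  (θ ^ (R + 1) * (A + ∑ c, π c) + pm * ∑ c, π c) / (1 - θ)

lemma Interp_Ex {ι : Type} [Fintype ι] [DecidableEq ι] {p : ι → ℝ} (hp : Adm p)
    {f : Finset ι → ℝ} {g : ℕ → Finset ι → ℝ} {c : ℕ → ℝ} {R : ℕ} {b : ℝ}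
    (h : ∀ ω, |f ω + ∑ r ∈ range R, c r * g r ω| ≤ b) :
    |Ex p f + ∑ r ∈ range R, c r * Ex p (g r)| ≤ b := by
  have e : Ex p f + ∑ r ∈ range R, c r * Ex p (g r) =
      Ex p fun ω => f ω + ∑ r ∈ range R, c r * g r ω := by
    simp only [Ex_add, Ex_sum, Ex_const_mul]
  rw [e]
  exact (Ex_abs hp _).trans ((Ex_mono hp h).trans (Ex_const p b).le)

lemma Interp_ex {Y : Type} [Fintype Y] {f b : Y → ℝ} {g : ℕ → Y → ℝ} {c : ℕ → ℝ} {R : ℕ}
    (h : ∀ y, |f y + ∑ r ∈ range R, c r * g r y| ≤ b y) :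
    |(𝔼 y, f y) + ∑ r ∈ range R, c r * 𝔼 y, g r y| ≤ 𝔼 y, b y := by
  have e : (𝔼 y, f y) + ∑ r ∈ range R, c r * 𝔼 y, g r y =
      𝔼 y, (f y + ∑ r ∈ range R, c r * g r y) := by
    simp only [expect_add_distrib, expect_sum_comm, mul_expect]
  rw [e]
  exact (ex_abs _).trans (ex_mono h)

lemma Interp_sum {Y : Type} [Fintype Y] {a f b : Y → ℝ} {g : ℕ → Y → ℝ} {c : ℕ → ℝ} {R : ℕ}
    (ha : ∀ y, 0 ≤ a y) (h : ∀ y, |f y + ∑ r ∈ range R, c r * g r y| ≤ b y) :
    |∑ y, a y * f y + ∑ r ∈ range R, c r * ∑ y, a y * g r y| ≤ ∑ y, a y * b y := by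
  have e : ∑ y, a y * f y + ∑ r ∈ range R, c r * ∑ y, a y * g r y =
      ∑ y, a y * (f y + ∑ r ∈ range R, c r * g r y) := by
    simp only [mul_add, sum_add_distrib, mul_sum]
    rw [sum_comm]
    simp only [mul_left_comm]
  rw [e]
  refine (abs_sum_le_sum_abs _ _).trans (sum_le_sum fun y _ => ?_)
  rw [abs_mul, abs_of_nonneg (ha y)]
  exact mul_le_mul_of_nonneg_left (h y) (ha y)

/-- One constraint with support `C`, present only if `q` holds. -/
lemma Interp_step {I : Type} [Fintype I] [DecidableEq I] (h0 : 0 ≤ θ) (h1 : θ < 1)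
    {w : Finset I → ℝ} (hw : ∀ σ, 0 ≤ w σ) (hZ : 0 < ∑ σ, w σ) (q : Prop) (C : Finset I) (R : ℕ) :
    |Real.log (∑ σ, w σ * (1 - θ * ind (q ∧ C ⊆ σ))) - Real.log (∑ σ, w σ) +
      ∑ r ∈ range R, θ ^ (r + 1) / (r + 1) * (ind q * gib (r + 1) w fun σ => ind (C ⊆ cap σ))| ≤
      ind q * (θ ^ (R + 1) / (1 - θ)) := by
  by_cases hq : q
  · simp only [ind_and, ind_pos hq, one_mul, ind_cap]
    rw [log_ins h0 h1 hw hZ fun σ => ⟨ind_nonneg _, ind_le_one _⟩]
    simp only [gib_prod w fun σ => ind (C ⊆ σ)]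
    refine log_series h0 h1 (div_nonneg (sum_nonneg fun σ _ => mul_nonneg (hw σ) (ind_nonneg _))
      hZ.le) ?_ R
    rw [div_le_one hZ]
    exact sum_le_sum fun σ _ => mul_le_of_le_one_right (hw σ) (ind_le_one _)
  · simp [ind_and, ind_neg hq]

lemma Interp_ins {κ : Type} [DecidableEq κ] (f : κ → ℝ) (c : κ) (s : Finset κ) :
    ∏ x ∈ insert c s, f x = (∏ x ∈ s.erase c, f x) * f c := by
  rw [← prod_erase_mul _ _ (mem_insert_self c s), erase_insert_eq_erase]

variable (H V) in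
/-- Derivative of the free energy in the intensity of the accidental constraints. -/
noncomputable def Interp_dA (θ τ : ℝ) (ep : β → α × α) (U : Finset (G × β) → ℝ) (t : ℝ) : ℝ :=
  𝔼 y : G → α → V, ∑ C : Finset (G × β), τ * E (t * τ) fun act =>
    Real.log (∑ σ, Wt H θ ep U y (insert C act) σ) - Real.log (∑ σ, Wt H θ ep U y (act.erase C) σ)

lemma Interp_dFE (U : Finset (G × β) → ℝ) (t : ℝ) :
    HasDerivAt (fun s => FE H V θ (s * τ) ep U) (Interp_dA V H θ τ ep U t) t := by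
  unfold FE Interp_dA
  simp only [expect_eq_sum_div_card]
  refine HasDerivAt.div_const (HasDerivAt.fun_sum fun y _ => ?_) _
  have := russo (fun _ : Finset (G × β) => (0 : ℝ)) (fun _ => τ)
    (fun _ act => Real.log (∑ σ, Wt H θ ep U y act σ)) (fun _ => 0) t
    fun _ => hasDerivAt_const _ _
  simp only [zero_add, Ex_const, add_zero] at this
  exact this

lemma Interp_dFI (t : ℝ) : HasDerivAt (FI H V lam θ τ ep π sup)
    (-(∑ c, π c * Ex (fun c => (1 - t) * π c) fun B =>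
        FE H V θ (t * τ) ep (UV lam θ sup (insert c B)) -
          FE H V θ (t * τ) ep (UV lam θ sup (B.erase c))) +
      Ex (fun c => (1 - t) * π c) fun B => Interp_dA V H θ τ ep (UV lam θ sup B) t) t := by
  have := russo π (fun c => -π c) (fun s B => FE H V θ (s * τ) ep (UV lam θ sup B))
    (fun B => Interp_dA V H θ τ ep (UV lam θ sup B) t) t fun B => Interp_dFE _ t
  have e : ∀ s : ℝ, (fun c => π c + s * -π c) = fun c => (1 - s) * π c :=
    fun s => funext fun c => by ring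
  simp only [e, neg_mul, sum_neg_distrib] at this
  exact this

lemma Interp_AccR {t : ℝ} (ht : t * τ ≠ 1) (U : Finset (G × β) → ℝ) (r : ℕ) :
    AccR H V θ τ t ep U r = 𝔼 y : G → α → V, ∑ C : Finset (G × β), τ * E (t * τ) fun act =>
      ind (Acd H (sp ep y) Prod.fst C) *
        gib r (Wt H θ ep U y (act.erase C)) fun σ => ind (C ⊆ cap σ) := by
  unfold AccR EG
  refine expect_congr rfl fun y _ => ?_
  simp only [gib_sum, E_sum, ind_and, gib_mul, E_const_mul]
  refine sum_congr rfl fun C _ => ?_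
  have h := Ex_erase (fun _ : Finset (G × β) => t * τ) C fun act =>
    gib r (Wt H θ ep U y act) fun σ => ind (C ⊆ cap σ)
  have h2 : 1 - t * τ ≠ 0 := sub_ne_zero.2 ht.symm
  unfold E
  rw [← h, mul_left_comm (τ / _), ← mul_assoc (τ / _), div_mul_cancel₀ _ h2, mul_left_comm]

lemma Interp_acc (h : IH H V G lam θ τ A pm ep π) {t : ℝ} (t0 : 0 < t) (t1 : t < 1)
    {U : Finset (G × β) → ℝ} (hU : Good lam U) (R : ℕ) :
    |Interp_dA V H θ τ ep U t + ∑ r ∈ range R, θ ^ (r + 1) / (r + 1) *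
      AccR H V θ τ t ep U (r + 1)| ≤ A * (θ ^ (R + 1) / (1 - θ)) := by
  have a0 : 0 ≤ t * τ := mul_nonneg t0.le h.t0
  have a1 : t * τ < 1 := (mul_le_of_le_one_right t0.le h.t1).trans_lt t1
  have hb : 0 ≤ θ ^ (R + 1) / (1 - θ) := div_nonneg (pow_nonneg h.h0 _) (sub_pos.2 h.h1).le
  simp only [Interp_AccR a1.ne]
  unfold Interp_dA
  refine (Interp_ex (b := fun y => ∑ C : Finset (G × β),
    τ * (ind (Acd H (sp ep y) Prod.fst C) * (θ ^ (R + 1) / (1 - θ)))) fun y => ?_).trans ?_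
  · refine Interp_sum (fun _ => h.t0) fun C => Interp_Ex (fun _ => ⟨a0, a1.le⟩) fun act => ?_
    have e : ∀ σ, Wt H θ ep U y (insert C act) σ = Wt H θ ep U y (act.erase C) σ *
        (1 - θ * ind (Acd H (sp ep y) Prod.fst C ∧ C ⊆ σ)) := fun σ => by
      unfold Wt aw
      rw [Interp_ins, mul_assoc]
    simp only [e]
    exact Interp_step h.h0 h.h1 (Wt_nonneg h.h0 h.h1 ep hU y _) (Wt_sum_pos h.h0 h.h1 ep hU y _)
      _ C R
  · simp only [← mul_assoc, ← sum_mul, ← expect_mul]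
    exact mul_le_mul_of_nonneg_right h.hA hb

lemma Interp_vir (h : IH H V G lam θ τ A pm ep π) {s : ℝ} (s0 : 0 ≤ s) (s1 : s ≤ 1) (c : X)
    (B : Finset X) (R : ℕ) :
    |FE H V θ s ep (UV lam θ sup (insert c B)) - FE H V θ s ep (UV lam θ sup (B.erase c)) +
      ∑ r ∈ range R, θ ^ (r + 1) / (r + 1) * EG H θ s ep (UV lam θ sup (B.erase c)) (r + 1)
        fun (_ : G → α → V) _ σ => ind (sup c ⊆ cap σ)| ≤ θ ^ (R + 1) / (1 - θ) := by
  have hb : 0 ≤ θ ^ (R + 1) / (1 - θ) := div_nonneg (pow_nonneg h.h0 _) (sub_pos.2 h.h1).le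
  have hU := good_UV h.hl h.h0 h.h1 sup (B.erase c)
  unfold FE LZ EG
  rw [← expect_sub_distrib]
  refine (Interp_ex (b := fun _ => θ ^ (R + 1) / (1 - θ)) fun y => ?_).trans
    (ex_le hb fun _ => le_rfl)
  rw [← E_sub]
  refine Interp_Ex (fun _ => ⟨s0, s1⟩) fun act => ?_
  have e : ∀ σ : Finset (G × β), UV lam θ sup (insert c B) σ * aw H θ (sp ep y) Prod.fst act σ =
      Wt H θ ep (UV lam θ sup (B.erase c)) y act σ * (1 - θ * ind (True ∧ sup c ⊆ σ)) := fun σ => by
    unfold Wt UV cw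
    rw [Interp_ins, true_and]
    ring
  have := Interp_step h.h0 h.h1 (Wt_nonneg (H := H) h.h0 h.h1 ep hU y act)
    (Wt_sum_pos h.h0 h.h1 ep hU y act) True (sup c) R
  simp only [ind_pos trivial, one_mul] at this
  simp only [e]
  exact this

lemma Interp_vir2 (h : IH H V G lam θ τ A pm ep π) {t : ℝ} (t0 : 0 < t) (t1 : t < 1) (c : X)
    (R : ℕ) :
    |(Ex (fun c => (1 - t) * π c) fun B => FE H V θ (t * τ) ep (UV lam θ sup (insert c B)) -
        FE H V θ (t * τ) ep (UV lam θ sup (B.erase c))) +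
      ∑ r ∈ range R, θ ^ (r + 1) / (r + 1) * Ex (fun c => (1 - t) * π c) fun B =>
        EG H θ (t * τ) ep (UV lam θ sup B) (r + 1)
          fun (_ : G → α → V) _ σ => ind (sup c ⊆ cap σ)| ≤ (θ ^ (R + 1) + pm) / (1 - θ) := by
  have a0 : 0 ≤ t * τ := mul_nonneg t0.le h.t0
  have a1 : t * τ ≤ 1 := (mul_le_of_le_one_right t0.le h.t1).trans t1.le
  have b1 : ∀ c, (1 - t) * π c ≤ π c := fun c => mul_le_of_le_one_left (h.p0 c) (by linarith)
  have hp : Adm fun c => (1 - t) * π c := fun c =>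
    ⟨mul_nonneg (by linarith) (h.p0 c), (b1 c).trans (h.p1 c)⟩
  have k1 := Interp_Ex hp fun B => Interp_vir (sup := sup) h a0 a1 c B R
  have k2 : ∀ r : ℕ, |(Ex (fun c => (1 - t) * π c) fun B =>
      EG H θ (t * τ) ep (UV lam θ sup (B.erase c)) r
        fun (_ : G → α → V) _ σ => ind (sup c ⊆ cap σ)) - Ex (fun c => (1 - t) * π c) fun B =>
      EG H θ (t * τ) ep (UV lam θ sup B) r
        fun (_ : G → α → V) _ σ => ind (sup c ⊆ cap σ)| ≤ pm := fun r => by
    refine (Ex_erase_close hp c (fun B => EG H θ (t * τ) ep (UV lam θ sup B) r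
      fun (_ : G → α → V) _ σ => ind (sup c ⊆ cap σ)) (b := 1) fun B => ?_).trans
      (by rw [one_mul]; exact (b1 c).trans (h.pm c))
    have hU := good_UV h.hl h.h0 h.h1 sup B
    have e : ∀ x : ℝ, EG H θ (t * τ) ep (UV lam θ sup B) r (fun (_ : G → α → V) _ _ => x) = x :=
      fun x => by rw [EG_pos h.h0 h.h1 hU fun _ => x, expect_const univ_nonempty]
    exact ⟨(e 0).ge.trans (EG_mono h.h0 h.h1 a0 a1 hU fun _ _ _ _ => ind_nonneg _),
      (EG_mono h.h0 h.h1 a0 a1 hU fun _ _ _ _ => ind_le_one _).trans (e 1).le⟩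
  have hc : ∀ r : ℕ, 0 ≤ θ ^ (r + 1) / (r + 1) := fun r =>
    div_nonneg (pow_nonneg h.h0 _) (by positivity)
  have k3 := sum_le_sum fun r (_ : r ∈ range R) =>
    mul_le_mul_of_nonneg_left (abs_le.1 (k2 (r + 1))).1 (hc r)
  have k5 := sum_le_sum fun r (_ : r ∈ range R) =>
    mul_le_mul_of_nonneg_left (abs_le.1 (k2 (r + 1))).2 (hc r)
  obtain ⟨c1, c2⟩ := sum_coef_le h.h0 h.h1 R
  have k4 := mul_le_mul_of_nonneg_right (c1.trans c2) ((h.p0 c).trans (h.pm c))
  simp only [mul_sub, sum_sub_distrib, mul_neg, sum_neg_distrib] at k3 k5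
  rw [sum_mul] at k4
  rw [add_div, div_eq_mul_one_div pm, mul_comm pm]
  rw [abs_le] at k1 ⊢
  constructor <;> linarith only [k1, k4, k5, k3, k1.1, k1.2]

theorem fi_zero : FI H V lam θ τ ep π sup 0 = FV θ π sup (fug lam) := by
  unfold FI FV FE LZ E UV
  simp only [sub_zero, one_mul, zero_mul]
  refine congrArg _ (funext fun B => ?_)
  simp only [Ex_zero (p := fun _ : Finset (G × β) => (0 : ℝ)) fun _ => rfl, aw, prod_empty, mul_one]
  exact expect_const univ_nonempty _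

theorem fi_one : FI H V lam θ τ ep π sup 1 = FE H V θ τ ep (fug lam : Finset (G × β) → ℝ) := by
  unfold FI
  rw [Ex_zero fun c => by simp, one_mul]
  refine congrArg _ (funext fun σ => ?_)
  simp only [UV, cw, prod_empty, mul_one]

theorem fi_cont : Continuous (FI H V lam θ τ ep π sup) :=
  continuous_iff_continuousAt.2 fun t => (Interp_dFI t).continuousAt

theorem fi_deriv (h : IH H V G lam θ τ A pm ep π) {t : ℝ} (t0 : 0 < t) (t1 : t < 1) :
    ∃ D : ℝ, HasDerivAt (FI H V lam θ τ ep π sup) D t ∧ ∀ R : ℕ,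
      |D + ∑ r ∈ range R, θ ^ (r + 1) / (r + 1) * DR H V lam θ τ ep π sup t (r + 1)| ≤
        ierr θ A pm π R := by
  refine ⟨_, Interp_dFI t, fun R => ?_⟩
  have hp : Adm fun c => (1 - t) * π c := fun c =>
    ⟨mul_nonneg (by linarith) (h.p0 c),
      (mul_le_of_le_one_left (h.p0 c) (by linarith)).trans (h.p1 c)⟩
  have k1 := Interp_Ex hp fun B => Interp_acc h t0 t1 (good_UV h.hl h.h0 h.h1 sup B) R
  have k2 := Interp_sum h.p0 fun c => Interp_vir2 (sup := sup) h t0 t1 c R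
  have e : ierr θ A pm π R =
      A * (θ ^ (R + 1) / (1 - θ)) + ∑ c, π c * ((θ ^ (R + 1) + pm) / (1 - θ)) := by
    rw [← sum_mul, ierr]
    ring
  unfold DR
  simp only [Ex_sub, EG_sum, EG_mul, Ex_sum, Ex_const_mul, mul_sub, sum_sub_distrib] at k1 k2 ⊢
  rw [e]
  rw [abs_le] at k1 k2 ⊢
  constructor <;> linarith only [k1, k2, k1.1, k1.2, k2.1, k2.2]

lemma Interp_mvt (h : IH H V G lam θ τ A pm ep π) {s s2 : ℝ} (s0 : 0 ≤ s) (hs : s < s2)
    (s1 : s2 ≤ 1) : ∃ t D : ℝ, s < t ∧ t < s2 ∧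
      FI H V lam θ τ ep π sup s2 - FI H V lam θ τ ep π sup s = D * (s2 - s) ∧ ∀ R : ℕ,
      |D + ∑ r ∈ range R, θ ^ (r + 1) / (r + 1) * DR H V lam θ τ ep π sup t (r + 1)| ≤
        ierr θ A pm π R := by
  obtain ⟨t, ⟨ht1, ht2⟩, ht⟩ := exists_hasDerivAt_eq_slope (FI H V lam θ τ ep π sup) _ hs
    fi_cont.continuousOn fun t _ => Interp_dFI t
  obtain ⟨D, hD, hR⟩ := fi_deriv (sup := sup) h (s0.trans_lt ht1) (ht2.trans_le s1)
  refine ⟨t, D, ht1, ht2, ?_, hR⟩
  rw [hD.unique (Interp_dFI t), ht, div_mul_cancel₀ _ (sub_pos.2 hs).ne']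

lemma Interp_coef (h0 : 0 ≤ θ) (h1 : θ < 1) (R : ℕ) {δ : ℝ} (hδ : 0 ≤ δ) :
    ∑ r ∈ range R, θ ^ (r + 1) / (r + 1) * δ ≤ δ / (1 - θ) := by
  obtain ⟨c1, c2⟩ := sum_coef_le h0 h1 R
  rw [← sum_mul, div_eq_mul_one_div δ, mul_comm δ]
  exact mul_le_mul_of_nonneg_right (c1.trans c2) hδ

lemma Interp_err (h : IH H V G lam θ τ A pm ep π) (sup : X → Finset (G × β)) (R : ℕ) {δ : ℝ}
    (hδ : 0 ≤ δ) : 0 ≤ δ / (1 - θ) + ierr θ A pm π R := by
  obtain ⟨D, -, hR⟩ := fi_deriv (sup := sup) h (t := 1 / 2) (by norm_num) (by norm_num)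
  exact add_nonneg (div_nonneg hδ (sub_pos.2 h.h1).le) ((abs_nonneg _).trans (hR R))

theorem fi_le (h : IH H V G lam θ τ A pm ep π) (R : ℕ) {δ : ℝ} (hδ : 0 ≤ δ)
    (hD : ∀ t, 0 < t → t < 1 → ∀ r < R, -δ ≤ DR H V lam θ τ ep π sup t (r + 1)) {s : ℝ}
    (s0 : 0 ≤ s) {s2 : ℝ} (hs : s ≤ s2) (s1 : s2 ≤ 1) :
    FI H V lam θ τ ep π sup s2 ≤ FI H V lam θ τ ep π sup s + (δ / (1 - θ) + ierr θ A pm π R) := by
  have he := Interp_err h sup R hδ
  rcases hs.eq_or_lt with rfl | hs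
  · linarith only [he]
  obtain ⟨t, D, ht1, ht2, e, hR⟩ := Interp_mvt (sup := sup) h s0 hs s1
  have k1 := (abs_le.1 (hR R)).2
  have k2 := Interp_coef h.h0 h.h1 R hδ
  have k3 := sum_le_sum fun r (hr : r ∈ range R) => mul_le_mul_of_nonneg_left
    (hD t (s0.trans_lt ht1) (ht2.trans_le s1) r (mem_range.1 hr))
    (show 0 ≤ θ ^ (r + 1) / ((r : ℝ) + 1) from div_nonneg (pow_nonneg h.h0 _) (by positivity))
  simp only [mul_neg, sum_neg_distrib] at k3
  have k4 : D ≤ δ / (1 - θ) + ierr θ A pm π R := by linarith only [k1, k2, k3]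
  have k5 := mul_le_mul_of_nonneg_right k4 (sub_pos.2 hs).le
  have k6 := mul_le_of_le_one_right he (show s2 - s ≤ 1 by linarith only [s0, s1])
  linarith only [e, k5, k6]

theorem fi_ge (h : IH H V G lam θ τ A pm ep π) (R : ℕ) {δ : ℝ} (hδ : 0 ≤ δ)
    (hD : ∀ t, 0 < t → t < 1 → ∀ r < R, DR H V lam θ τ ep π sup t (r + 1) ≤ δ) :
    FI H V lam θ τ ep π sup 0 - (δ / (1 - θ) + ierr θ A pm π R) ≤ FI H V lam θ τ ep π sup 1 := by
  obtain ⟨t, D, ht1, ht2, e, hR⟩ := Interp_mvt (sup := sup) h le_rfl one_pos le_rfl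
  have k1 := (abs_le.1 (hR R)).1
  have k2 := Interp_coef h.h0 h.h1 R hδ
  have k3 := sum_le_sum fun r (hr : r ∈ range R) => mul_le_mul_of_nonneg_left
    (hD t ht1 ht2 r (mem_range.1 hr))
    (show 0 ≤ θ ^ (r + 1) / ((r : ℝ) + 1) from div_nonneg (pow_nonneg h.h0 _) (by positivity))
  linarith only [e, k1, k2, k3]

theorem fi_mvt (h : IH H V G lam θ τ A pm ep π) {R : ℕ} (hR : 0 < R) {δ g η : ℝ} (hδ : 0 ≤ δ)
    (hg : 0 ≤ g) (hη : 0 < η) (hη1 : η ≤ 1)
    (hD : ∀ t, 0 < t → t < 1 → ∀ r < R, -δ ≤ DR H V lam θ τ ep π sup t (r + 1))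
    (hge : FI H V lam θ τ ep π sup 0 - g ≤ FI H V lam θ τ ep π sup 1) :
    ∃ t, 1 - η < t ∧ 0 < t ∧ t < 1 ∧ θ * DR H V lam θ τ ep π sup t 1 ≤
      (g + 2 * (δ / (1 - θ) + ierr θ A pm π R)) / η := by
  have he := Interp_err h sup R hδ
  have b0 : 0 ≤ 1 - η := by linarith only [hη1]
  have k0 := fi_le (sup := sup) h R hδ hD le_rfl b0 (by linarith)
  obtain ⟨t, D, ht1, ht2, e, hR'⟩ := Interp_mvt (sup := sup) h b0 (by linarith : 1 - η < 1) le_rfl
  refine ⟨t, ht1, b0.trans_lt ht1, ht2, ?_⟩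
  have k1 := (abs_le.1 (hR' R)).2
  have k2 := Interp_coef h.h0 h.h1 R hδ
  have k3 := single_le_sum (f := fun r : ℕ => θ ^ (r + 1) / ((r : ℝ) + 1) *
      (DR H V lam θ τ ep π sup t (r + 1) + δ)) (fun r (hr : r ∈ range R) => mul_nonneg
    (div_nonneg (pow_nonneg h.h0 _) (by positivity))
    (by linarith only [b0, ht1, ht2, hD t (b0.trans_lt ht1) ht2 r (mem_range.1 hr)])) (mem_range.2 hR)
  simp only [mul_add, sum_add_distrib, zero_add, pow_one, Nat.cast_zero, div_one] at k3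
  have k4 := mul_nonneg h.h0 hδ
  have k5 : θ * DR H V lam θ τ ep π sup t 1 ≤ (δ / (1 - θ) + ierr θ A pm π R) - D := by linarith only [k1, k2, k3, k4]
  have k6 := mul_le_mul_of_nonneg_right k5 hη.le
  have k7 := mul_le_of_le_one_right he hη1
  rw [le_div_iff₀ hη]
  have e2 : D * (1 - (1 - η)) = D * η := by ring
  nlinarith only [hge, k0, e, k6, k7]

end Pool.Agent.Work.MP_d4a230_co.U
end

-- merged part: Pool.Agent.Work.MP_d4a230_co.U.Gad
section
/-!
Gadget lemma: accidental constraints against internal constraints.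
PLAN. X = Fin M × Finset β, sup (g, C) = C.image (g, .), probabilities π C. fi_ge, fi_zero, fi_one,
fv_prod. It suffices to show DR t (r+1) <= (ε1 + ε2) N. For T = cap σ, w = bk m (den T) (model1):
L N tH w <= L sum_{i ∈ T} psi w (sp i) + L N cut (den_ord, psi_cut, tH_psi). With T g the slots of T in
the component g and s w z the sup' in GadI (0 <= s <= L b: take R = ∅, π ∅ = 0),
L sum_{i ∈ T} psi <= V T + sum_g s w (y g). maxineq over y with Ω = CI (card_CI, R.lin), differences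
<= L b + 1, and GadI give sum_g s w (y g) <= N L (k-1)/k tH w + ε2 N + err y for all w in the class.
So (L N / k) tH w - V T <= ε2 N + err y + L N cut. Combine with stat and rate → L. Choose R0 with
θ^(R0+1) (A + B0) small (acd_total); the sum of the probabilities is M sum π <= B0 N.
-/

namespace Pool.Agent.Work.MP_d4a230_co.U

open Finset Filter Topology Pool.Agent.Work.MP_07f1b5_pr
open scoped BigOperators

variable {α β : Type} [Fintype α] [DecidableEq α] [Fintype β] [DecidableEq β]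
  {W : Type} [Fintype W] [DecidableEq W] {H : SimpleGraph W} [DecidableRel H.Adj]
  {ep : β → α × α} {n M : ℕ → ℕ} {τ : ℕ → ℝ}

section det

variable {V G : Type} [Fintype V] [DecidableEq V] [Fintype G] [DecidableEq G] {π : Finset β → ℝ}
  {L : ℝ}

variable (H ep π L) in
/-- The optimal value for one component. -/
noncomputable def Gad_s (w : Sym2 V → ℝ) (z : α → V) : ℝ :=
  univ.sup' univ_nonempty fun R : Finset β =>
    L * ∑ j ∈ R, psi H w (sl ep z j) - ∑ C, π C * ind (C ⊆ R)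

lemma Gad_le (w : Sym2 V → ℝ) (z : α → V) (R : Finset β) :
    L * ∑ j ∈ R, psi H w (sl ep z j) - ∑ C, π C * ind (C ⊆ R) ≤ Gad_s H ep π L w z :=
  le_sup' (fun R : Finset β => L * ∑ j ∈ R, psi H w (sl ep z j) - ∑ C, π C * ind (C ⊆ R))
    (mem_univ R)

lemma Gad_bd (hL : 0 ≤ L) (p0 : ∀ C, 0 ≤ π C) (pe : π ∅ = 0) {w : Sym2 V → ℝ} (hw : Unit01 w)
    (z : α → V) : 0 ≤ Gad_s H ep π L w z ∧ Gad_s H ep π L w z ≤ L * Fintype.card β := by
  refine ⟨le_trans (le_of_eq ?_) (Gad_le w z ∅), sup'_le _ _ fun R _ => ?_⟩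
  · rw [sum_empty, mul_zero, sum_eq_zero, sub_zero]
    intro C _
    by_cases h : C ⊆ ∅
    · rw [subset_empty.1 h, pe, zero_mul]
    · rw [ind_neg h, mul_zero]
  · refine (sub_le_self _ (sum_nonneg fun C _ => mul_nonneg (p0 C) (ind_nonneg _))).trans
      (mul_le_mul_of_nonneg_left ((sum_le_card_nsmul _ _ 1 fun j _ => (psi_unit H hw _).2).trans ?_)
        hL)
    rw [nsmul_eq_mul, mul_one]
    exact Nat.cast_le.2 (card_le_univ R)

lemma Gad_det [Nonempty V] (hk : 0 < H.edgeFinset.card) (hN : 0 < Fintype.card (G × β))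
    (hL : 0 ≤ L) (y : G → α → V) (T : Finset (G × β)) {w : Sym2 V → ℝ} (hw : Unit01 w) :
    L * Fintype.card (G × β) * tH H w -
        ∑ c : G × Finset β, π c.2 * ind ((c.2.image fun b => (c.1, b)) ⊆ T) ≤
      ∑ g, Gad_s H ep π L w (y g) +
        L * Fintype.card (G × β) * cut fun e => den (sp ep y) T e - ord w e := by
  have N0 : (0 : ℝ) < Fintype.card (G × β) := Nat.cast_pos.2 hN
  have h1 := (abs_le.1 (psi_cut H hw fun e => den (sp ep y) T e - ord w e)).1
  simp only [sub_mul] at h1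
  rw [expect_sub_distrib, den_ord, tH_psi H hk, neg_le_sub_iff_le_add, ← sub_le_iff_le_add,
    le_div_iff₀ N0] at h1
  have h2 : L * ∑ i ∈ T, psi H w (sp ep y i) -
      ∑ c : G × Finset β, π c.2 * ind ((c.2.image fun b => (c.1, b)) ⊆ T) ≤
      ∑ g, Gad_s H ep π L w (y g) := by
    rw [← Fintype.sum_ite_mem T, Fintype.sum_prod_type, Fintype.sum_prod_type, mul_sum,
      ← sum_sub_distrib]
    refine sum_le_sum fun g _ => le_trans (le_of_eq ?_)
      (Gad_le w (y g) (univ.filter fun j => (g, j) ∈ T))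
    rw [sum_filter]
    refine congrArg₂ _ rfl (sum_congr rfl fun C _ => congrArg _ (ind_congr ?_))
    rw [image_subset_iff]
    simp only [subset_iff, mem_filter, mem_univ, true_and]
  nlinarith only [h2, h1, hL, mul_le_mul_of_nonneg_left h1 hL]

lemma Gad_max [Nonempty V] (hL : 0 ≤ L) (p0 : ∀ C, 0 ≤ π C) (pe : π ∅ = 0) (m : ℕ) {δ : ℝ}
    (hδ : 0 < δ) (hΩ : Real.log (2 * Fintype.card (CI V m)) ≤ δ ^ 2 * Fintype.card G) :
    ∃ err : (G → α → V) → ℝ, 𝔼 y, err y ≤ 2 * δ * (L * Fintype.card β + 1) * Fintype.card G ∧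
      ∀ y c, ∑ g, Gad_s H ep π L (ck m c) (y g) ≤
        Fintype.card G * (𝔼 z, Gad_s H ep π L (ck m c) z) + err y := by
  obtain ⟨err, -, e1, e2⟩ := maxineq (fun (c : CI V m) (y : G → α → V) =>
    ∑ g, Gad_s H ep π L (ck m c) (y g)) (c := L * Fintype.card β + 1) (by positivity) hδ
    (fun c y i a => by
      have h1 := Gad_bd (H := H) (ep := ep) hL p0 pe (ck_unit m c) a
      have h2 := Gad_bd (H := H) (ep := ep) hL p0 pe (ck_unit m c) (y i)
      rw [← sum_sub_distrib, sum_eq_single i (fun g _ hg => by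
        rw [Function.update_of_ne hg, sub_self]) (fun h => absurd (mem_univ i) h),
        Function.update_self, abs_le]
      constructor <;> linarith only [h1, h2, h1.1, h1.2, h2.1, h2.2]) hΩ
  refine ⟨err, e1, fun y c => ?_⟩
  have h1 := (abs_le.1 (e2 y c)).2
  rw [expect_sum_comm, sum_congr rfl fun g _ => (ex_update g _).trans (c := 𝔼 z, Gad_s H ep π L
    (ck m c) z) (by simp only [Function.update_self, Fintype.expect_const]), sum_const, card_univ,
    nsmul_eq_mul] at h1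
  linarith

end det

theorem gadget (R : Reg H ep n M τ) {L lam θ ε ε2 pm B0 : ℝ} (hL : 0 ≤ L)
    (hr : Tendsto (fun j => rate H (n j) (M j * Fintype.card β) (τ j)) atTop (𝓝 L)) (hl : 0 ≤ lam)
    (h0 : 0 ≤ θ) (h1 : θ < 1) (hε : 0 < ε) (hε2 : 0 ≤ ε2) (π : Finset β → ℝ) (p0 : ∀ C, 0 ≤ π C)
    (p1 : ∀ C, π C ≤ 1) (pe : π ∅ = 0) (hpm : ∀ C, π C ≤ pm)
    (hB : ∑ C, π C ≤ B0 * Fintype.card β) (hG : GadI H ep π L ε2) : ∀ᶠ j in atTop,
    M j * FV θ π id (fug lam) - (ε + (ε2 + pm * B0) / (1 - θ)) * (M j * Fintype.card β : ℕ) ≤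
      FE H (Fin (n j)) θ (τ j) ep (fug lam : Finset (Fin (M j) × β) → ℝ) := by
  have hk : 0 < H.edgeFinset.card := lt_of_lt_of_le (by norm_num) (R.bal.h3.trans R.bal.hk)
  have hk1 : (1 : ℝ) ≤ H.edgeFinset.card := Nat.one_le_cast.2 hk
  have hb := RegK_b R
  have hθ : 0 < 1 - θ := sub_pos.2 h1
  have hB0 : 0 ≤ B0 := nonneg_of_mul_nonneg_left ((sum_nonneg fun C _ => p0 C).trans hB)
    (one_pos.trans_le hb)
  have hp : 0 ≤ pm := pe.symm.trans_le (hpm ∅)
  obtain ⟨δ, hδ⟩ : ∃ δ, δ = ε * (1 - θ) / 2 / (4 * L + 5) := ⟨_, rfl⟩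
  have d0 : 0 < δ := hδ ▸ by positivity
  have d1 : δ * (4 * L + 5) = ε * (1 - θ) / 2 := hδ ▸ div_mul_cancel₀ _ (by positivity)
  obtain ⟨C, C0, hC⟩ := acd_total R
  obtain ⟨R0, hR0⟩ := ((((tendsto_pow_atTop_nhds_zero_of_lt_one h0 h1).comp
    (tendsto_add_atTop_nat 1)).mul_const (C + B0)).eventually_le_const
    (show 0 * (C + B0) < ε * (1 - θ) / 2 by rw [zero_mul]; positivity)).exists
  obtain ⟨m, hm⟩ := (model1 R d0).exists
  filter_upwards [hC, hm, R.pos, R.t01, R.lin (4 * m ^ 2 + 3) (pow_pos d0 2),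
    hr.eventually_le_const (lt_add_of_pos_right L d0), hr.eventually_le_const (lt_add_one L),
    (eventually_all_finset (range R0)).2 fun r _ => stat R r.succ_pos hl h0 h1 d0]
    with j a1 ⟨e1, e10, e11, e12⟩ a2 a3 a4 a5 a6 a7
  have : Nonempty (Fin (n j)) := ⟨⟨0, a2.1⟩⟩
  obtain ⟨e2, e21, e22⟩ := Gad_max (H := H) (ep := ep) (G := Fin (M j)) (V := Fin (n j)) hL p0 pe m
    d0 ((card_CI m).trans (by simpa only [Fintype.card_fin] using a4))
  have M0 : (0 : ℝ) < M j := Nat.cast_pos.2 (a2.1.trans_le a2.2)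
  have cN : Fintype.card (Fin (M j) × β) = M j * Fintype.card β := by
    rw [Fintype.card_prod, Fintype.card_fin]
  obtain ⟨N, hN⟩ : ∃ N : ℝ, N = M j * Fintype.card β := ⟨_, rfl⟩
  have cN' : ((M j * Fintype.card β : ℕ) : ℝ) = N := by rw [hN, Nat.cast_mul]
  have MN : M j ≤ N := hN ▸ le_mul_of_one_le_right M0.le hb
  have N0 : 0 < N := M0.trans_le MN
  rw [Fintype.card_fin] at e21 e22
  have key := fi_ge (H := H) (V := Fin (n j)) (π := fun c : Fin (M j) × Finset β => π c.2)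
    (sup := fun c => c.2.image fun b => (c.1, b))
    ⟨hl, h0, h1, a3.1, a3.2, fun c => p0 _, fun c => p1 _, fun c => hpm _, a1⟩ R0
    (δ := (ε2 + ε * (1 - θ) / 2) * N) (by positivity) fun t t0 t1 r hr => by
      refine (Ex_mono (fun c => ⟨mul_nonneg (sub_pos.2 t1).le (p0 _),
        mul_le_one₀ (sub_le_self _ t0.le) (p0 _) (p1 _)⟩) fun A => ?_).trans_eq (Ex_const _ _)
      have hU := good_UV hl h0 h1 (fun c : Fin (M j) × Finset β => c.2.image fun b => (c.1, b)) A
      have u0 := mul_nonneg t0.le a3.1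
      have u1 := mul_le_one₀ t1.le a3.1 a3.2
      have b1 := (abs_le.1 (a7 r (mem_range.2 hr) t _ (fun y T => bk m (den (sp ep y) T)) t0.le t1
        hU fun y T => ck_unit _ _)).2
      have b2 := (EG_mono (H := H) (r := r + 1) (ep := ep) h0 h1 u0 u1 hU fun y _ σ _ =>
        e12 y (cap σ)).trans_eq (EG_pos h0 h1 hU e1)
      have b0 := (EG_pos (H := H) (τ := t * τ j) (ep := ep) (V := Fin (n j)) (r := r + 1) h0 h1 hU
        fun _ => 0).symm.trans_le (EG_mono h0 h1 u0 u1 hU fun y _ σ _ => cut_nonneg fun e =>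
          den (sp ep y) (cap σ) e - ord (bk m (den (sp ep y) (cap σ))) e)
      have b3 := (EG_mono (H := H) (r := r + 1) (ep := ep) (F := fun y _ σ =>
          rate H (n j) (M j * Fintype.card β) (τ j) * N / H.edgeFinset.card *
            tH H (bk m (den (sp ep y) (cap σ))) - ∑ c : Fin (M j) × Finset β,
              π c.2 * ind ((c.2.image fun b => (c.1, b)) ⊆ cap σ))
          h0 h1 u0 u1 hU fun y _ σ _ => ?_).trans_eq
        (EG_pos h0 h1 hU fun y => (δ + ε2) * N + (e2 y + L * N * e1 y))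
      · rw [EG_sub, EG_mul, expect_add_distrib, expect_add_distrib, ← mul_expect _ e1,
          Fintype.expect_const] at b3
        rw [Fintype.expect_const] at b0
        rw [cN', Nat.succ_eq_add_one] at b1
        have c1 := mul_le_mul (mul_le_mul_of_nonneg_right a6 N0.le) (b2.trans e11) b0
          (by positivity)
        have c2 := mul_le_mul_of_nonneg_left e11 (mul_nonneg hL N0.le)
        have c3 : 2 * δ * (L * Fintype.card β + 1) * M j ≤ 2 * δ * (L + 1) * N := by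
          rw [hN]
          nlinarith only [hb, d0, M0, mul_le_mul_of_nonneg_left hb (mul_pos d0 M0).le]
        rw [← d1]
        dsimp only
        linarith only [e21, b1, b3, c1, c2, c3]
      · have c1 := Gad_det (ep := ep) (π := π) hk (cN ▸ Nat.cast_pos.1 (cN' ▸ N0)) hL y (cap σ)
          (ck_unit m (best m (den (sp ep y) (cap σ))))
        have c2 := e22 y (best m (den (sp ep y) (cap σ)))
        have c3 := mul_le_mul_of_nonneg_left (hG _ _ a2.1
          (ck_unit m (best m (den (sp ep y) (cap σ))))) M0.le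
        have c4 := mul_le_mul_of_nonneg_left (e12 y (cap σ)) (mul_nonneg hL N0.le)
        have c5 := tH_unit H (ck_unit m (best m (den (sp ep y) (cap σ))))
        rw [cN, cN'] at c1
        unfold bk at c4 ⊢
        unfold Gad_s at c1 c2
        generalize tH H (ck m (best m (den (sp ep y) (cap σ)))) = x at c1 c3 c5 ⊢
        have c6 : rate H (n j) (M j * Fintype.card β) (τ j) * N / H.edgeFinset.card * x ≤
            L * N / H.edgeFinset.card * x + δ * N := by
          refine (mul_le_mul_of_nonneg_right (div_le_div_of_nonneg_right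
            (mul_le_mul_of_nonneg_right a5 N0.le) (Nat.cast_nonneg _)) c5.1).trans ?_
          rw [add_mul, add_div, add_mul]
          exact add_le_add le_rfl ((mul_le_of_le_one_right (by (clear * - N0 d0 hk; positivity)) c5.2).trans
            (div_le_self (by positivity) hk1))
        have c7 : M j * (L * Fintype.card β * ((H.edgeFinset.card : ℝ) - 1) / H.edgeFinset.card * x +
            ε2 * Fintype.card β) = L * N * x - L * N / H.edgeFinset.card * x + ε2 * N := by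
          have hk0 : (H.edgeFinset.card : ℝ) ≠ 0 := (zero_lt_one.trans_le hk1).ne'
          rw [hN]
          clear * - hk0
          field_simp
        linarith only [c2, c4, c1, c3, c6, c7]
  rw [fi_zero, fi_one, fv_prod hl h0 h1, Fintype.card_fin] at key
  refine le_trans (sub_le_sub_left ?_ _) key
  have s1 : ∑ c : Fin (M j) × Finset β, π c.2 ≤ B0 * N := by
    rw [Fintype.sum_prod_type' fun _ C => π C, sum_const, card_univ, Fintype.card_fin, nsmul_eq_mul,
      hN, mul_left_comm]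
    exact mul_le_mul_of_nonneg_left hB M0.le
  have s2 := mul_le_mul_of_nonneg_left (add_le_add (mul_le_mul_of_nonneg_left MN C0) s1)
    (pow_nonneg h0 (R0 + 1))
  have s3 := mul_le_mul_of_nonneg_right hR0 N0.le
  have s4 := mul_le_mul_of_nonneg_left s1 hp
  rw [ierr, cN', ← add_div, div_le_iff₀ hθ, mul_right_comm, add_mul ε, div_mul_cancel₀ _ hθ.ne']
  simp only [Function.comp_apply] at s3
  linarith only [s2, s3, s4]

end Pool.Agent.Work.MP_d4a230_co.U
end

-- merged part: Pool.Agent.Work.MP_d4a230_co.U.Upper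
section
/-!
Upper bound: the real model lies below the uniform model.
PLAN. dr_low: for each active set A of virtual constraints (good_UV) apply stat with
wb y T = bk m (den T), m from model1. The virtual statistic is q C(|T|,k) <= (L N / k) ρ^k with
ρ = |T|/N (sum_unif, choose_le), ρ is the mean of den T (ex_den), |ρ - mean (ord wb)| <= cut
(abs_ex_le_cut), and |x^k - y^k| <= k |x - y| on [0,1]. The rate tends to L. dr_ge: dr_low and
sidorenko. ih_unif: acd_total, q_zero; the sum of π is L N / k. upper: fi_le with s = 0, s2 = 1,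
fi_zero, fi_one, fu_eq; choose R with θ^(R+1) small.
-/

namespace Pool.Agent.Work.MP_d4a230_co.U

open Finset Filter Topology Pool.Agent.Work.MP_07f1b5_pr
open scoped BigOperators


variable {W : Type} [Fintype W] [DecidableEq W] {H : SimpleGraph W} [DecidableRel H.Adj]
  {n N : ℕ → ℕ} {τ : ℕ → ℝ} {L lam θ : ℝ}

/-- Probabilities of the uniform virtual constraints. -/
noncomputable def piU (k : ℕ) (L : ℝ) (N : ℕ) (C : Finset (Fin N × Unit)) : ℝ :=
  L / ((N - 1).choose (k - 1) : ℝ) * ind (C.card = k)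

theorem Upper_k (R : Reg H ep1 n N τ) : 3 ≤ H.edgeFinset.card := R.bal.h3.trans R.bal.hk

theorem Upper_sum {k M : ℕ} (hk : 1 ≤ k) (hM : k ≤ M) (hL : 0 ≤ L) (T : Finset (Fin M × Unit)) :
    ∑ C, piU k L M C * ind (id C ⊆ T) ≤ L * M / k * ((T.card : ℝ) / M) ^ k := by
  have h := choose_le hk hM (a := T.card) (by simpa using card_le_univ T)
  refine (sum_unif k _ T).trans_le ?_
  rw [div_mul_eq_mul_div, mul_div_assoc, mul_div_assoc, mul_assoc]
  exact mul_le_mul_of_nonneg_left h hL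

theorem Upper_virt {V : Type} [Fintype V] [DecidableEq V] [Nonempty V] {k M : ℕ} (hk : 1 ≤ k)
    (hM : k ≤ M) (hL : 0 ≤ L) (q : Fin M × Unit → Sym2 V) (T : Finset (Fin M × Unit))
    {w : Sym2 V → ℝ} (hw : Unit01 w) : ∑ C, piU k L M C * ind (id C ⊆ T) ≤
      L * M / k * (𝔼 e, ord w e) ^ k + L * M * cut fun e => den q T e - ord w e := by
  have e := ex_den q T
  rw [Fintype.card_prod, Fintype.card_fin, Fintype.card_unique, mul_one] at e
  have h1 := abs_ex_le_cut fun e => den q T e - ord w e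
  rw [expect_sub_distrib] at h1
  have h2 : max |𝔼 e, den q T e| |𝔼 e, ord w e| ≤ 1 := max_le
    ((abs_of_nonneg (expect_nonneg fun e _ => den_nonneg q T e)).trans_le (ex_den_le q T))
    ((abs_of_nonneg (expect_nonneg fun e _ => (hw _).1)).trans_le
      (ex_le zero_le_one fun e => (hw _).2))
  have h3 := (le_abs_self _).trans ((abs_pow_sub_pow_le _ _ k).trans ((mul_le_of_le_one_right
    (by positivity) (pow_le_one₀ (by positivity) h2)).trans
      (mul_le_mul_of_nonneg_right h1 k.cast_nonneg)))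
  have k0 : (0 : ℝ) < k := by exact_mod_cast hk
  refine (Upper_sum hk hM hL T).trans ((mul_le_mul_of_nonneg_left
    (e ▸ sub_le_iff_le_add'.1 h3) (by positivity)).trans_eq ?_)
  field_simp

theorem Upper_pi {k M : ℕ} (hL : 0 ≤ L) (C : Finset (Fin M × Unit)) :
    0 ≤ piU k L M C ∧ piU k L M C ≤ L / ((M - 1).choose (k - 1) : ℝ) :=
  ⟨mul_nonneg (by positivity) (ind_nonneg _), mul_le_of_le_one_right (by positivity) (ind_le_one _)⟩

theorem Upper_q (R : Reg H ep1 n N τ) (L : ℝ) {δ : ℝ} (hδ : 0 < δ) :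
    ∀ᶠ j in atTop, L / ((N j - 1).choose (H.edgeFinset.card - 1) : ℝ) ≤ δ :=
  ((q_zero (by linarith [Upper_k R]) L).comp R.top).eventually (ge_mem_nhds hδ)

theorem Upper_adm {k M : ℕ} (hL : 0 ≤ L) (h : L / ((M - 1).choose (k - 1) : ℝ) ≤ 1) {t : ℝ}
    (t0 : 0 ≤ t) (t1 : t < 1) : Adm fun C => (1 - t) * piU k L M C := fun C =>
  ⟨mul_nonneg (by linarith) (Upper_pi hL C).1,
    mul_le_one₀ (by linarith) (Upper_pi hL C).1 ((Upper_pi hL C).2.trans h)⟩

theorem dr_low (R : Reg H ep1 n N τ) (hL : 0 ≤ L)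
    (hr : Tendsto (fun j => rate H (n j) (N j) (τ j)) atTop (𝓝 L)) (hl : 0 ≤ lam) (h0 : 0 ≤ θ)
    (h1 : θ < 1) {r : ℕ} (r0 : 0 < r) {ε : ℝ} (hε : 0 < ε) : ∀ᶠ m in atTop, ∀ᶠ j in atTop,
    ∀ t, 0 ≤ t → t < 1 → L * N j / H.edgeFinset.card *
      (Ex (fun C => (1 - t) * piU H.edgeFinset.card L (N j) C) fun A =>
        EG H θ (t * τ j) ep1 (UV lam θ id A) r fun (y : Fin (N j) → Bool → Fin (n j)) _ σ =>
          tH H (bk m (den (sp ep1 y) (cap σ))) -
            (𝔼 e, ord (bk m (den (sp ep1 y) (cap σ))) e) ^ H.edgeFinset.card) - ε * N j ≤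
      DR H (Fin (n j)) lam θ (τ j) ep1 (piU H.edgeFinset.card L (N j)) id t r := by
  obtain ⟨δ, d0, d1, d2⟩ : ∃ δ : ℝ, 0 < δ ∧ δ ≤ 1 ∧ δ * (2 * L + 3) ≤ ε :=
    ⟨min 1 (ε / (2 * L + 3)), by positivity, min_le_left _ _,
      (le_div_iff₀ (by positivity)).1 (min_le_right _ _)⟩
  have hk := Upper_k R
  filter_upwards [model1 R d0] with m hm
  filter_upwards [hm, stat R r0 hl h0 h1 d0, R.t01, R.pos, R.rate_bd.choose_spec.2,
    R.top.eventually_ge_atTop H.edgeFinset.card, Upper_q R L one_pos,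
    Metric.tendsto_nhds.1 hr δ d0] with j ⟨err, e0, e1, e2⟩ hs ht hp hρ hN hq hd t t0 t1
  have : Nonempty (Fin (n j)) := ⟨⟨0, hp.1⟩⟩
  rw [← Ex_const_mul, ← Ex_const (fun C => (1 - t) * piU H.edgeFinset.card L (N j) C) (ε * N j),
    ← Ex_sub]
  refine Ex_mono (Upper_adm hL hq t0 t1) fun A => ?_
  have hU := good_UV hl h0 h1 (id : Finset (Fin (N j) × Unit) → _) A
  have s0 := mul_nonneg t0 ht.1
  have s1 := mul_le_one₀ t1.le ht.1 ht.2
  have uk : ∀ (y : Fin (N j) → Bool → Fin (n j)) T, Unit01 (bk m (den (sp ep1 y) T)) :=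
    fun y T => ck_unit _ _
  have a1 := (abs_le.1 (hs t _ _ t0 t1 hU uk)).1
  simp only [Fintype.card_unique, mul_one] at a1 hρ
  have a2 := (EG_mono (H := H) (ep := ep1) (r := r) h0 h1 s0 s1 hU fun y _ σ _ =>
    e2 y (cap σ)).trans ((EG_pos h0 h1 hU err).trans_le e1)
  have a3 := EG_mono (H := H) (ep := ep1) (r := r) h0 h1 s0 s1 hU fun y _ σ _ =>
    Upper_virt (k := H.edgeFinset.card) (by omega) hN hL (sp ep1 y) (cap σ) (uk y (cap σ))
  have a4 := (EG_mono (H := H) (ep := ep1) (r := r) h0 h1 s0 s1 hU fun y _ σ _ =>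
    (tH_unit (H := H) (uk y (cap σ))).2).trans
      ((EG_pos h0 h1 hU fun _ => 1).trans_le (ex_le zero_le_one fun _ => le_rfl))
  have a5 := (expect_nonneg fun _ _ => le_rfl).trans ((EG_pos h0 h1 hU fun _ => 0).ge.trans
    (EG_mono (H := H) (ep := ep1) (r := r) h0 h1 s0 s1 hU fun y _ σ _ =>
      (tH_unit (H := H) (uk y (cap σ))).1))
  rw [EG_add, EG_mul, EG_mul] at a3
  rw [EG_sub]
  rw [Real.dist_eq, abs_lt] at hd
  have n0 : (0 : ℝ) ≤ N j := Nat.cast_nonneg _
  have k1 : (1 : ℝ) ≤ H.edgeFinset.card := by exact_mod_cast (by omega : 1 ≤ H.edgeFinset.card)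
  have b1 := mul_le_mul_of_nonneg_left a2 (mul_nonneg hL n0)
  have b2 := (mul_le_mul_of_nonneg_left a2 (mul_nonneg hρ.1 n0)).trans
    (mul_le_mul_of_nonneg_right (mul_le_mul_of_nonneg_right
      (show _ ≤ L + 1 by linarith only [d1, hd, hd.2]) n0) d0.le)
  have b3 := mul_le_mul_of_nonneg_right d2 n0
  have b4 := mul_le_mul_of_nonneg_right hd.1.le (mul_nonneg (div_nonneg n0 (by linarith only [k1])) a5 :
    0 ≤ (N j : ℝ) / H.edgeFinset.card * _)
  have b5 := mul_le_mul_of_nonneg_left ((mul_le_of_le_one_right (div_nonneg n0 (by linarith only [k1]))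
    a4).trans (div_le_self n0 k1)) d0.le
  rw [mul_div_assoc] at a1 a3 ⊢
  linarith only [a1, a3, b1, b2, b3, b4, b5]

theorem dr_ge (R : Reg H ep1 n N τ) (hT : Tangent H) (hL : 0 ≤ L)
    (hr : Tendsto (fun j => rate H (n j) (N j) (τ j)) atTop (𝓝 L)) (hl : 0 ≤ lam) (h0 : 0 ≤ θ)
    (h1 : θ < 1) (R0 : ℕ) {ε : ℝ} (hε : 0 < ε) : ∀ᶠ j in atTop, ∀ t, 0 < t → t < 1 → ∀ r < R0,
      -(ε * N j) ≤ DR H (Fin (n j)) lam θ (τ j) ep1 (piU H.edgeFinset.card L (N j)) id t (r + 1) := by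
  have hk := Upper_k R
  have h : ∀ r ∈ range R0, ∀ᶠ j in atTop, ∀ t, 0 < t → t < 1 → -(ε * N j) ≤
      DR H (Fin (n j)) lam θ (τ j) ep1 (piU H.edgeFinset.card L (N j)) id t (r + 1) := fun r _ => by
    obtain ⟨m, hm⟩ := (dr_low R hL hr hl h0 h1 r.succ_pos hε).exists
    filter_upwards [hm, R.t01, Upper_q R L one_pos] with j hj ht hq t t0 t1
    refine le_trans ?_ (hj t t0.le t1)
    rw [neg_le_sub_iff_le_add, le_add_iff_nonneg_left]
    refine mul_nonneg (by positivity) (Ex_nonneg (Upper_adm hL hq t0.le t1) fun A => ?_)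
    have hU := good_UV hl h0 h1 (id : Finset (Fin (N j) × Unit) → _) A
    exact (expect_nonneg fun _ _ => le_rfl).trans ((EG_pos h0 h1 hU fun _ => 0).ge.trans
      (EG_mono h0 h1 (mul_nonneg t0.le ht.1) (mul_le_one₀ t1.le ht.1 ht.2) hU fun y _ σ _ =>
        sub_nonneg.2 (sidorenko hT (by omega) fun e => (ck_unit _ _ e).1)))
  filter_upwards [(eventually_all_finset _).2 h] with j hj t t0 t1 r hr
  exact hj r (mem_range.2 hr) t t0 t1

theorem ih_unif (R : Reg H ep1 n N τ) (hL : 0 ≤ L) (hl : 0 ≤ lam) (h0 : 0 ≤ θ) (h1 : θ < 1)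
    {ε : ℝ} (hε : 0 < ε) : ∃ R0 : ℕ, 0 < R0 ∧ ∀ᶠ j in atTop, ∃ A pm : ℝ,
      IH H (Fin (n j)) (Fin (N j)) lam θ (τ j) A pm ep1 (piU H.edgeFinset.card L (N j)) ∧
        ierr θ A pm (piU H.edgeFinset.card L (N j)) R0 ≤ ε * N j := by
  obtain ⟨C, C0, hC⟩ := acd_total R
  have hk := Upper_k R
  have η0 : 0 < ε * (1 - θ) / 2 := half_pos (mul_pos hε (sub_pos.2 h1))
  have l1 := ((tendsto_pow_atTop_nhds_zero_of_lt_one h0 h1).comp
    (tendsto_add_atTop_nat 1)).mul_const (C + L)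
  rw [zero_mul] at l1
  obtain ⟨R0, r1, r2⟩ := ((l1.eventually (ge_mem_nhds η0)).and (eventually_gt_atTop 0)).exists
  refine ⟨R0, r2, ?_⟩
  filter_upwards [hC, R.t01, Upper_q R L one_pos, Upper_q R (L * L) η0,
    R.top.eventually_ge_atTop H.edgeFinset.card] with j hj ht q1 q2 hN
  refine ⟨_, _, ⟨hl, h0, h1, ht.1, ht.2, fun c => (Upper_pi hL c).1,
    fun c => (Upper_pi hL c).2.trans q1, fun c => (Upper_pi hL c).2, hj⟩, ?_⟩
  have n0 : (0 : ℝ) < N j := by exact_mod_cast (by omega : 0 < N j)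
  have k1 : (1 : ℝ) ≤ H.edgeFinset.card := by exact_mod_cast (by omega : 1 ≤ H.edgeFinset.card)
  have s1 : ∑ c, piU H.edgeFinset.card L (N j) c ≤ L * N j := by
    have := Upper_sum (by omega) hN hL univ
    simp only [subset_univ, ind_pos, mul_one, card_univ, Fintype.card_prod, Fintype.card_fin,
      Fintype.card_unique, div_self n0.ne', one_pow] at this
    exact this.trans (div_le_self (by positivity) k1)
  have b1 := mul_le_mul_of_nonneg_left s1 (pow_nonneg h0 (R0 + 1))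
  have b2 := mul_le_mul_of_nonneg_left s1 (by positivity :
    0 ≤ L / ((N j - 1).choose (H.edgeFinset.card - 1) : ℝ))
  have b3 : θ ^ (R0 + 1) * (C + L) * N j ≤ _ := mul_le_mul_of_nonneg_right r1 n0.le
  have b4 := mul_le_mul_of_nonneg_right q2 n0.le
  rw [mul_div_assoc] at b4
  rw [ierr, div_le_iff₀ (sub_pos.2 h1)]
  linarith only [b1, b2, b3, b4]

theorem upper (R : Reg H ep1 n N τ) (hT : Tangent H) (hL : 0 ≤ L)
    (hr : Tendsto (fun j => rate H (n j) (N j) (τ j)) atTop (𝓝 L)) (hl : 0 ≤ lam) (h0 : 0 ≤ θ)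
    (h1 : θ < 1) {ε : ℝ} (hε : 0 < ε) : ∀ᶠ j in atTop,
    FE H (Fin (n j)) θ (τ j) ep1 (fug lam : Finset (Fin (N j) × Unit) → ℝ) ≤
      FU H.edgeFinset.card L lam θ (N j) + ε * N j := by
  obtain ⟨R0, -, h⟩ := ih_unif R hL hl h0 h1 (half_pos hε)
  have η0 : 0 < ε / 2 * (1 - θ) := mul_pos (half_pos hε) (sub_pos.2 h1)
  filter_upwards [h, dr_ge R hT hL hr hl h0 h1 R0 η0, R.pos] with j ⟨A, pm, i1, i2⟩ hd hp
  have : Nonempty (Fin (n j)) := ⟨⟨0, hp.1⟩⟩
  have e := fi_le i1 R0 (by positivity) hd le_rfl zero_le_one le_rfl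
  rw [fi_one, fi_zero, mul_right_comm, mul_div_cancel_right₀ _ (sub_pos.2 h1).ne'] at e
  rw [← fu_eq]
  exact e.trans (add_le_add le_rfl (by linarith only [i2]))

end Pool.Agent.Work.MP_d4a230_co.U
end

-- merged part: Pool.Agent.Work.MP_d4a230_co.U.Chain
section
/-!
The lower bound chain and the existence of the limit. k = card edges.
PLAN. lowerG: M j = N j / b. R.change gives the regime for ep with M; rate_div its limit rate.
regroup (the error term is bounded), free, gadget; (N/b - M) FV <= FV <= b log (1+lam) (fv_bd).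
lower2: ep = epP (Fin μ), star2, π C = q_μ ind (card = k), pm = q_μ → 0 (q_zero), sum π = L μ / k
(sum_unif, choose_le with a = N), FV π id fug = FU μ by definition.
lower1: choose q0 ∈ (0, 1/4] small, b s = ceil (q0 s^2 / 2), τ2 from reg_thin with n = id. lower2 for
this regime: for large μ, eventually in s FE s >= (b s / μ) FU μ - ε b s. Pick one s that also
satisfies star1, τ2 s small, 2 b s <= s (s-1), 2 b s / s^2 <= 2 q0, 1/s small; simple gives ep;
lz_fv; lowerG with pm = τ2 s, B0 = L / q0^k (π ∅ = 0 as card ∅ ≠ k).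
fu_conv: reg_thin with n = Nat.sqrt N, q = 1; upper and lower2 give the hypothesis of conv_of for
FU N / N (fv_bd for the bound). real_ge: lower1 and fu_conv (R.top). alpha_conv: for ε take lam with
log 2 / log lam small, θ = 1 - 1/lam, fu_sandwich and fu_conv give the hypothesis of conv_of.
-/

namespace Pool.Agent.Work.MP_d4a230_co.U

open Finset Filter Topology Pool.Agent.Work.MP_07f1b5_pr
open scoped BigOperators


variable {W : Type} [Fintype W] [DecidableEq W] {H : SimpleGraph W} [DecidableRel H.Adj]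
  {n N : ℕ → ℕ} {τ : ℕ → ℝ} {L lam θ : ℝ}

lemma Chain_k (B : HBal H) : 3 ≤ H.edgeFinset.card := B.h3.trans B.hk

lemma Chain_big (hN : Tendsto N atTop atTop) (K : ℝ) {δ : ℝ} (hδ : 0 < δ) :
    ∀ᶠ j in atTop, K ≤ δ * N j :=
  ((tendsto_natCast_atTop_atTop.comp hN).const_mul_atTop hδ).eventually_ge_atTop K

lemma Chain_q {k : ℕ} (hk : 3 ≤ k) (hL : 0 ≤ L) {δ : ℝ} (hδ : 0 < δ) : ∀ᶠ μ : ℕ in atTop,
    0 ≤ L / ((μ - 1).choose (k - 1) : ℝ) ∧ L / ((μ - 1).choose (k - 1) : ℝ) ≤ δ := by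
  filter_upwards [(q_zero (k := k) (by omega) L).eventually_le_const hδ] with μ h
  exact ⟨div_nonneg hL (Nat.cast_nonneg _), h⟩

lemma Chain_fu {k : ℕ} (hk : 3 ≤ k) (hL : 0 ≤ L) (hl : 0 ≤ lam) (h0 : 0 ≤ θ) (h1 : θ < 1) :
    ∀ᶠ μ : ℕ in atTop, |FU k L lam θ μ / μ| ≤ Real.log (1 + lam) := by
  filter_upwards [Chain_q hk hL one_pos, eventually_gt_atTop 0] with μ hq hμ
  have hμ' : (0 : ℝ) < μ := by exact_mod_cast hμ
  have h := fv_bd (I := Fin μ) hl h0 h1 (p := fun C : Finset (Fin μ) =>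
    L / ((μ - 1).choose (k - 1) : ℝ) * ind (C.card = k))
    (fun C => ⟨mul_nonneg hq.1 (ind_nonneg _), mul_le_one₀ hq.2 (ind_nonneg _) (ind_le_one _)⟩) id
    (fun C hC => by
      have : C = ∅ := hC
      rw [ind_neg (by rw [this, card_empty]; omega), mul_zero])
  rw [Fintype.card_fin] at h
  have h2 : 0 ≤ FU k L lam θ μ := h.1
  have h3 : FU k L lam θ μ ≤ μ * Real.log (1 + lam) := h.2
  rw [abs_of_nonneg (div_nonneg h2 hμ'.le), div_le_iff₀ hμ']
  linarith only [h3]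

theorem lowerG (R : Reg H ep1 n N τ) (hL : 0 ≤ L)
    (hr : Tendsto (fun j => rate H (n j) (N j) (τ j)) atTop (𝓝 L)) (hl : 0 ≤ lam) (h0 : 0 ≤ θ)
    (h1 : θ < 1) {α β : Type} [Fintype α] [DecidableEq α] [Fintype β] [DecidableEq β] [Nonempty β]
    (ep : β → α × α) (hne : ∀ j, (ep j).1 ≠ (ep j).2)
    (hs : (Function.Injective fun j => s((ep j).1, (ep j).2)) ∨ Tendsto τ atTop (𝓝 0))
    {ε ε2 pm B0 : ℝ} (hε : 0 < ε) (hε2 : 0 ≤ ε2) (π : Finset β → ℝ) (p0 : ∀ C, 0 ≤ π C)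
    (p1 : ∀ C, π C ≤ 1) (pe : π ∅ = 0) (hpm : ∀ C, π C ≤ pm)
    (hB : ∑ C, π C ≤ B0 * Fintype.card β) (hG : GadI H ep π L ε2) : ∀ᶠ j in atTop,
    (N j : ℝ) / Fintype.card β * FV θ π id (fug lam) - (ε + (ε2 + pm * B0) / (1 - θ)) * N j ≤
      FE H (Fin (n j)) θ (τ j) ep1 (fug lam : Finset (Fin (N j) × Unit) → ℝ) := by
  have hb : 0 < Fintype.card β := Fintype.card_pos
  have hb' : (0 : ℝ) < Fintype.card β := by exact_mod_cast hb
  have hθ : 0 < 1 - θ := by linarith
  have R2 : Reg H ep n (fun j => N j / Fintype.card β) τ := by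
    refine R.change hne hs ?_
    filter_upwards [R.top.eventually_ge_atTop (Fintype.card β)] with j hj
    have e1 := Nat.div_mul_le_self (N j) (Fintype.card β)
    have e2 := Nat.lt_div_mul_add (a := N j) hb
    have e3 : Fintype.card β ≤ N j / Fintype.card β * Fintype.card β :=
      Nat.le_mul_of_pos_left _ (Nat.div_pos hj hb)
    simp only [Fintype.card_unit, mul_one]
    omega
  have hr2 := rate_div R.top hb hr
  have hε4 : 0 < ε / 4 := by linarith only [hε]
  have hc : 0 ≤ (ε2 + pm * B0) / (1 - θ) := by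
    have a1 : 0 ≤ pm := pe ▸ hpm ∅
    have a2 : 0 ≤ B0 := nonneg_of_mul_nonneg_left ((sum_nonneg fun C _ => p0 C).trans hB) hb'
    positivity
  have hf := fv_bd (I := β) hl h0 h1 (p := π) (fun C => ⟨p0 C, p1 C⟩) id
    (fun C hC => by have : C = ∅ := hC; rw [this, pe])
  filter_upwards [gadget R2 hL hr2 hl h0 h1 hε4 hε2 π p0 p1 pe hpm hB hG, free R2 hl h0 h1 hε4,
    R.t01, R.pos, hr2.eventually_le_const (lt_add_one L),
    Chain_big R.top ((L + 1) * aut H * Fintype.card β * H.edgeFinset.card / (1 - θ)) hε4,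
    Chain_big R.top (Fintype.card β * Real.log (1 + lam)) hε4] with j g1 g2 g3 g4 g5 g6 g7
  have e1 := Nat.div_mul_le_self (N j) (Fintype.card β)
  have g8 := regroup (β := β) R.bal hl h0 h1 g3.1 g3.2 g4.1 e1
  have e2 : ((N j / Fintype.card β * Fintype.card β : ℕ) : ℝ) ≤ N j := by exact_mod_cast e1
  have e3 : (N j : ℝ) / Fintype.card β ≤ (N j / Fintype.card β : ℕ) + 1 := by
    rw [div_le_iff₀ hb']
    have : N j ≤ (N j / Fintype.card β + 1) * Fintype.card β := by
      have := Nat.lt_div_mul_add (a := N j) hb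
      rw [add_mul]; omega
    exact_mod_cast this
  have e4 : rate H (n j) (N j / Fintype.card β * Fintype.card β) (τ j) * aut H * Fintype.card β *
      H.edgeFinset.card / (1 - θ) ≤
      (L + 1) * aut H * Fintype.card β * H.edgeFinset.card / (1 - θ) := by
    have := RegK_aut (H := H)
    gcongr
  have e5 := mul_le_mul_of_nonneg_right e3 hf.1
  have e6 := mul_le_mul_of_nonneg_left e2 hc
  have e7 := mul_le_mul_of_nonneg_left e2 hε4.le
  have e8 := (abs_le.1 g2).2
  have e9 := hf.2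
  linarith only [hf, g1, g6, g7, g8, e4, e5, e6, e7, e8]

theorem lower2 (R : Reg H ep1 n N τ) (hT : Tangent H) (hL : 0 ≤ L)
    (hr : Tendsto (fun j => rate H (n j) (N j) (τ j)) atTop (𝓝 L)) (hl : 0 ≤ lam) (h0 : 0 ≤ θ)
    (h1 : θ < 1) (hτ : Tendsto τ atTop (𝓝 0)) {ε : ℝ} (hε : 0 < ε) :
    ∀ᶠ μ : ℕ in atTop, ∀ᶠ j in atTop, (N j : ℝ) / μ * FU H.edgeFinset.card L lam θ μ - ε * N j ≤
      FE H (Fin (n j)) θ (τ j) ep1 (fug lam : Finset (Fin (N j) × Unit) → ℝ) := by
  have hk := Chain_k R.bal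
  have hθ : 0 < 1 - θ := by linarith
  have hδ : 0 < ε / 4 * (1 - θ) := by positivity
  filter_upwards [eventually_ge_atTop H.edgeFinset.card, Chain_q hk hL one_pos,
    Chain_q hk hL (div_pos hδ (show 0 < L + 1 by linarith only [hL])),
    Chain_big (N := id) tendsto_id (L * H.edgeFinset.card) hδ] with μ m1 m2 m3 m4
  have hμ : (0 : ℝ) < μ := by exact_mod_cast (by omega : 0 < μ)
  have hk' : (1 : ℝ) ≤ H.edgeFinset.card := by exact_mod_cast (by omega : 1 ≤ H.edgeFinset.card)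
  have : Nonempty (Fin μ) := ⟨⟨0, by omega⟩⟩
  have hs : ∑ C : Finset (Fin μ), L / ((μ - 1).choose (H.edgeFinset.card - 1) : ℝ) *
      ind (C.card = H.edgeFinset.card) ≤ L * Fintype.card (Fin μ) := by
    have a1 := sum_unif H.edgeFinset.card (L / ((μ - 1).choose (H.edgeFinset.card - 1) : ℝ))
      (univ : Finset (Fin μ))
    simp only [subset_univ, ind_pos trivial, mul_one, card_univ, Fintype.card_fin] at a1
    have a2 := choose_le (k := H.edgeFinset.card) (by omega) m1 le_rfl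
    rw [div_self hμ.ne', one_pow, mul_one] at a2
    have a3 : (μ : ℝ) / H.edgeFinset.card ≤ μ := div_le_self hμ.le hk'
    rw [a1, Fintype.card_fin, div_mul_eq_mul_div, mul_div_assoc]
    exact mul_le_mul_of_nonneg_left (a2.trans a3) hL
  have h := lowerG R hL hr hl h0 h1 (epP (Fin μ)) (fun _ => Bool.false_ne_true) (Or.inr hτ)
    (half_pos hε) (ε2 := L * H.edgeFinset.card / μ) (by positivity) _
    (fun C => mul_nonneg m2.1 (ind_nonneg _))
    (fun C => mul_le_one₀ m2.2 (ind_nonneg _) (ind_le_one _))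
    (by rw [ind_neg (by rw [card_empty]; omega), mul_zero])
    (fun C => mul_le_of_le_one_right m2.1 (ind_le_one _)) hs (star2 R.bal hT hL m1)
  have c1 : L * H.edgeFinset.card / μ ≤ ε / 4 * (1 - θ) := by
    rw [div_le_iff₀ hμ]; exact m4
  have c2 : L / ((μ - 1).choose (H.edgeFinset.card - 1) : ℝ) * L ≤ ε / 4 * (1 - θ) := by
    have := m3.2
    rw [le_div_iff₀ (by linarith only [hL])] at this
    nlinarith only [m2, this, m2.1]
  have c3 : (L * H.edgeFinset.card / μ +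
      L / ((μ - 1).choose (H.edgeFinset.card - 1) : ℝ) * L) / (1 - θ) ≤ ε / 2 := by
    rw [div_le_iff₀ hθ]; linarith only [c1, c2]
  filter_upwards [h] with j hj
  rw [Fintype.card_fin] at hj
  have c4 := mul_le_mul_of_nonneg_right c3 (Nat.cast_nonneg (α := ℝ) (N j))
  unfold FU
  linarith only [hj, c4]

theorem lower1 (R : Reg H ep1 n N τ) (hT : Tangent H) (hL : 0 ≤ L)
    (hr : Tendsto (fun j => rate H (n j) (N j) (τ j)) atTop (𝓝 L)) (hl : 0 ≤ lam) (h0 : 0 ≤ θ)
    (h1 : θ < 1) {ε : ℝ} (hε : 0 < ε) :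
    ∀ᶠ μ : ℕ in atTop, ∀ᶠ j in atTop, (N j : ℝ) / μ * FU H.edgeFinset.card L lam θ μ - ε * N j ≤
      FE H (Fin (n j)) θ (τ j) ep1 (fug lam : Finset (Fin (N j) × Unit) → ℝ) := by
  have hk := Chain_k R.bal
  have hθ : 0 < 1 - θ := by linarith
  have hl0 : 0 ≤ Real.log (1 + lam) := Real.log_nonneg (by linarith)
  obtain ⟨q, q0, q1, q2⟩ : ∃ q : ℝ, 0 < q ∧ q ≤ 1 / 4 ∧ Real.log (1 + lam) * (2 * q) ≤ ε / 8 := by
    refine ⟨min (1 / 4) (ε / 16 / (Real.log (1 + lam) + 1)), by positivity, min_le_left _ _, ?_⟩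
    have a := min_le_right (1 / 4) (ε / 16 / (Real.log (1 + lam) + 1))
    have b : 0 ≤ min (1 / 4) (ε / 16 / (Real.log (1 + lam) + 1)) := by positivity
    rw [le_div_iff₀ (by positivity)] at a
    nlinarith only [a, b]
  have hb : ∀ s : ℕ, q * (s : ℝ) ^ 2 ≤ 2 * (⌈q * (s : ℝ) ^ 2 / 2⌉₊ : ℝ) := fun s => by
    have := Nat.le_ceil (q * (s : ℝ) ^ 2 / 2)
    linarith only [this]
  obtain ⟨τ2, R2, t2, r2⟩ := reg_thin (n := id) R.bal (N := fun s => ⌈q * (s : ℝ) ^ 2 / 2⌉₊) hL q0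
    tendsto_id (Eventually.of_forall hb)
  have hε4 : 0 < ε / 4 := by linarith only [hε]
  have hδ : 0 < ε / 8 * (1 - θ) := by positivity
  have hB0 : 0 ≤ L / q ^ H.edgeFinset.card := by positivity
  filter_upwards [lower2 R2 hT hL (tendsto_const_nhds.congr' (r2.mono fun _ h => h.symm)) hl h0 h1
    t2 hε4] with μ hμ
  obtain ⟨s, s1, s2, s3, s4, s5, s6, s7, s8⟩ := (hμ.and ((star1 R.bal hT hL q0 hδ).and (r2.and
    (R2.t01.and ((t2.eventually_le_const (div_pos hδ (show 0 < L / q ^ H.edgeFinset.card + 1 by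
      linarith only [q0, q1, hB0]))).and ((eventually_ge_atTop 2).and ((Chain_big (N := id) tendsto_id 2 q0).and
      (Chain_big (N := id) tendsto_id (Real.log (1 + lam)) (show 0 < ε / 8 by linarith only [hε]))))))))).exists
  simp only [id] at s1 s3 s7 s8
  have hc := Nat.ceil_lt_add_one (show 0 ≤ q * (s : ℝ) ^ 2 / 2 by positivity)
  have hbs := hb s
  generalize ⌈q * (s : ℝ) ^ 2 / 2⌉₊ = b at s1 s3 hc hbs
  have hs2 : (2 : ℝ) ≤ s := by exact_mod_cast s6
  have hs0 : (0 : ℝ) < s := by linarith only [q0, q1, hs2]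
  have u1 : 2 * (b : ℝ) ≤ 2 * q * (s : ℝ) ^ 2 := by nlinarith only [q0, q1, s7, hc]
  have u2 : 2 * b ≤ s * (s - 1) := by
    have : (2 * b : ℝ) ≤ s * ((s - 1 : ℕ) : ℝ) := by
      rw [Nat.cast_sub (by omega)]
      push_cast
      nlinarith only [q0, q1, s7, hc]
    exact_mod_cast this
  have hb0 : (0 : ℝ) < b := by
    have : 0 < q * (s : ℝ) ^ 2 := by positivity
    linarith only [hbs, this]
  have : Nonempty (Fin b) := ⟨⟨0, by exact_mod_cast hb0⟩⟩
  obtain ⟨ep, e1, e2, e3⟩ := simple (H := H) hl h0 h1 s4.1 s4.2 (by omega : 0 < s) u2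
  obtain ⟨g1, g2⟩ := s2 b (τ2 s) ep hbs s4.1 s3 e1 e2
  rw [lz_fv] at e3
  have h := lowerG R hL hr hl h0 h1 ep e1 (Or.inl e2) hε4 hδ.le _
    (fun C => mul_nonneg s4.1 (ind_nonneg _))
    (fun C => mul_le_one₀ s4.2 (ind_nonneg _) (ind_le_one _))
    (by rw [ind_neg (fun h => by have := h.2.1; rw [card_empty] at this; omega), mul_zero])
    (fun C => mul_le_of_le_one_right s4.1 (ind_le_one _))
    (by rw [Fintype.card_fin]; exact g2) g1
  have c1 : (ε / 8 * (1 - θ) + τ2 s * (L / q ^ H.edgeFinset.card)) / (1 - θ) ≤ ε / 4 := by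
    rw [le_div_iff₀ (by linarith only [q0, q1, hB0])] at s5
    rw [div_le_iff₀ hθ]
    nlinarith only [s4, s5, s4.1]
  have c2 : Real.log (1 + lam) * (1 / s + 2 * b / (s : ℝ) ^ 2) ≤ ε / 4 := by
    have a1 : Real.log (1 + lam) * (1 / s) ≤ ε / 8 := by
      rw [mul_one_div, div_le_iff₀ hs0]; exact s8
    have a2 : 2 * b / (s : ℝ) ^ 2 ≤ 2 * q := by
      rw [div_le_iff₀ (by positivity)]; exact u1
    have a3 := mul_le_mul_of_nonneg_left a2 hl0
    rw [mul_add]; linarith only [q2, a1, a3]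
  filter_upwards [h] with j hj
  rw [Fintype.card_fin] at hj
  have hN : (0 : ℝ) ≤ N j := Nat.cast_nonneg _
  have c3 := mul_le_mul_of_nonneg_right c1 hN
  have c4 := mul_le_mul_of_nonneg_right c2 hb0.le
  have c5 : (b : ℝ) * (FU H.edgeFinset.card L lam θ μ / μ - ε / 2) ≤
      FV θ (fun C : Finset (Fin b) => τ2 s * ind (Acd H (fun j => s((ep j).1, (ep j).2)) id C)) id
        (fug lam) := by
    have : (b : ℝ) * (FU H.edgeFinset.card L lam θ μ / μ) =
      b / μ * FU H.edgeFinset.card L lam θ μ := by ring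
    linarith only [s1, e3, c4, this]
  have c6 := mul_le_mul_of_nonneg_left c5 (div_nonneg hN hb0.le)
  rw [← mul_assoc, div_mul_cancel₀ _ hb0.ne'] at c6
  have c7 : (N j : ℝ) * (FU H.edgeFinset.card L lam θ μ / μ) =
      N j / μ * FU H.edgeFinset.card L lam θ μ := by ring
  linarith only [hj, c3, c6, c7]

theorem fu_conv (B : HBal H) (hT : Tangent H) (hL : 0 ≤ L) (hl : 0 ≤ lam) (h0 : 0 ≤ θ)
    (h1 : θ < 1) : ∃ x, Tendsto (fun N : ℕ => FU H.edgeFinset.card L lam θ N / N) atTop (𝓝 x) := by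
  have hn : Tendsto Nat.sqrt atTop atTop :=
    tendsto_atTop_atTop.2 fun b => ⟨b * b, fun j hj => Nat.le_sqrt.2 hj⟩
  obtain ⟨τ, R, t, r⟩ := reg_thin (n := Nat.sqrt) B (N := fun j => j) hL one_pos hn
    (Eventually.of_forall fun j => by
      have : ((Nat.sqrt j : ℝ)) ^ 2 ≤ j := by exact_mod_cast Nat.sqrt_le' j
      have : (0 : ℝ) ≤ j := Nat.cast_nonneg _
      linarith)
  have hr : Tendsto (fun j => rate H (Nat.sqrt j) j (τ j)) atTop (𝓝 L) :=
    tendsto_const_nhds.congr' (r.mono fun _ h => h.symm)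
  refine conv_of _ _ (Chain_fu (Chain_k B) hL hl h0 h1) fun ε hε => ?_
  filter_upwards [lower2 R hT hL hr hl h0 h1 t (half_pos hε)] with μ hμ
  filter_upwards [hμ, upper R hT hL hr hl h0 h1 (half_pos hε), eventually_gt_atTop 0] with j a1 a2 a3
  have hj : (0 : ℝ) < j := by exact_mod_cast a3
  rw [le_div_iff₀ hj]
  have : FU H.edgeFinset.card L lam θ μ / μ * j = j / μ * FU H.edgeFinset.card L lam θ μ := by ring
  linarith only [a1, a2, this]

theorem real_ge (R : Reg H ep1 n N τ) (hT : Tangent H) (hL : 0 ≤ L)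
    (hr : Tendsto (fun j => rate H (n j) (N j) (τ j)) atTop (𝓝 L)) (hl : 0 ≤ lam) (h0 : 0 ≤ θ)
    (h1 : θ < 1) {ε : ℝ} (hε : 0 < ε) : ∀ᶠ j in atTop,
    FU H.edgeFinset.card L lam θ (N j) - ε * N j ≤
      FE H (Fin (n j)) θ (τ j) ep1 (fug lam : Finset (Fin (N j) × Unit) → ℝ) := by
  obtain ⟨x, hx⟩ := fu_conv R.bal hT hL hl h0 h1
  have h3 : 0 < ε / 3 := by linarith
  obtain ⟨μ, m1, m2⟩ := ((lower1 R hT hL hr hl h0 h1 h3).and
    (hx.eventually_const_le (show x - ε / 3 < x by linarith))).exists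
  filter_upwards [m1, R.top.eventually (hx.eventually_le_const (show x < x + ε / 3 by linarith)),
    R.top.eventually_gt_atTop 0] with j a1 a2 a3
  have hj : (0 : ℝ) < N j := by exact_mod_cast a3
  rw [div_le_iff₀ hj] at a2
  have a4 := mul_le_mul_of_nonneg_right m2 hj.le
  have : FU H.edgeFinset.card L lam θ μ / μ * N j =
    N j / μ * FU H.edgeFinset.card L lam θ μ := by ring
  linarith only [a1, a2, a4, this]

theorem alpha_conv (B : HBal H) (hT : Tangent H) (hL : 0 ≤ L) : ∃ a : ℝ, 0 ≤ a ∧ a ≤ 1 ∧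
    Tendsto (fun N : ℕ => meanIndep H.edgeFinset.card N
      (L / ((N - 1).choose (H.edgeFinset.card - 1) : ℝ)) / N) atTop (𝓝 a) := by
  have hk := Chain_k B
  have hb : ∀ᶠ N : ℕ in atTop, 0 ≤ meanIndep H.edgeFinset.card N
      (L / ((N - 1).choose (H.edgeFinset.card - 1) : ℝ)) / N ∧ meanIndep H.edgeFinset.card N
      (L / ((N - 1).choose (H.edgeFinset.card - 1) : ℝ)) / N ≤ 1 := by
    filter_upwards [Chain_q hk hL one_pos] with N hq
    have := mean_bd H.edgeFinset.card N (by omega) hq.1 hq.2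
    exact ⟨div_nonneg this.1 (Nat.cast_nonneg _), div_le_one_of_le₀ this.2 (Nat.cast_nonneg _)⟩
  obtain ⟨a, ha⟩ := conv_of (fun N : ℕ => meanIndep H.edgeFinset.card N
      (L / ((N - 1).choose (H.edgeFinset.card - 1) : ℝ)) / N) 1
    (hb.mono fun N h => by rw [abs_of_nonneg h.1]; exact h.2) fun ε hε => by
    have ht : 0 < 2 / ε := by positivity
    have hl : 1 ≤ Real.exp (2 / ε) := Real.one_le_exp ht.le
    have hp := Real.exp_pos (2 / ε)
    have h0 : 0 ≤ 1 - 1 / Real.exp (2 / ε) := sub_nonneg.2 (div_le_one_of_le₀ hl hp.le)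
    have h1 : 1 - 1 / Real.exp (2 / ε) < 1 := sub_lt_self _ (by positivity)
    have hlt : Real.exp (2 / ε) * (1 - (1 - 1 / Real.exp (2 / ε))) ≤ 1 := by
      rw [sub_sub_cancel, mul_one_div_cancel hp.ne']
    obtain ⟨x, hx⟩ := fu_conv B hT hL hp.le h0 h1
    have l2 : Real.log 2 ≤ 1 := by
      have := Real.log_le_sub_one_of_pos (show (0 : ℝ) < 2 by norm_num)
      linarith only [this]
    filter_upwards [Chain_q hk hL one_pos, hx.eventually_le_const (show x < x + 1 / 2 by linarith only []),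
      eventually_gt_atTop 0] with μ m1 m2 m3
    filter_upwards [Chain_q hk hL one_pos, hx.eventually_const_le (show x - 1 / 2 < x by linarith only []),
      eventually_gt_atTop 0] with N n1 n2 n3
    have a1 := (fu_sandwich (by omega) hl h0 h1 hlt m1.1 m1.2).1
    have a2 := (fu_sandwich (by omega) hl h0 h1 hlt n1.1 n1.2).2
    rw [Real.log_exp] at a1 a2
    have hμ : (0 : ℝ) < μ := by exact_mod_cast m3
    have hN : (0 : ℝ) < N := by exact_mod_cast n3
    have b1 := div_le_div_of_nonneg_right a1 hμ.le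
    have b2 := div_le_div_of_nonneg_right a2 hN.le
    rw [add_div, mul_div_cancel_left₀ _ hN.ne', mul_div_right_comm] at b2
    rw [mul_div_right_comm] at b1
    refine le_of_mul_le_mul_right ?_ ht
    rw [sub_mul, mul_div_cancel₀ _ hε.ne']
    linarith only [l2, m2, n2, b1, b2]
  exact ⟨a, ge_of_tendsto ha (hb.mono fun _ h => h.1), le_of_tendsto ha (hb.mono fun _ h => h.2), ha⟩

end Pool.Agent.Work.MP_d4a230_co.U
end
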