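import Pool.Agent.Work.MP_d4a230_co.U.Chain
import Pool.Agent.Work.MP_d4a230_co.U.Force
import Pool.Agent.Work.MP_d4a230_co.U.Model
import Pool.Agent.Work.MP_d4a230_co.U.TP

-- merged part: Pool.Agent.Work.MP_d4a230_co.U.Deg
section
/-!
The functional fK in the real model (τ = 1).
PLAN. fK_lip: take the optimal R for y and erase (g, ()) (Acd_congr, den_congr, irr_le_l1, ex_den;
if the optimum is 0 use R = ∅). fK_ge: from σ delete one variable of every C ⊆ σ with Acd (such C are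
nonempty); irr_le_l1. fK_up: with τ = 1 all sets are active (Ex_one), a free R gives Z >= lam^|R|, so
N fK 0 log lam <= log Z; upper, fu_sandwich with θ = 1 - 1/lam and lam large.
fK_low: fix lam large, 1 - θ = lam^(-(1+2K)) (Real.rpow), δ and C from force, η small, then all other
accuracies. ih_unif, dr_ge, real_ge, fi_zero, fi_one, fu_eq, fi_mvt give t ∈ (1-η, 1) with DR t 1 small;
dr_low (r = 1) then makes the mean deficit tH w - (mean w)^k small (L > 0, θ >= 1/2); force, irr_le,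
model1 make the mean of irr (den σ) small. fi_le on [t, 1] gives FI t >= FI 1 - small >=
N (a log lam - small). For fixed virtual set A, y and act, log_le_gib with
g σ = log lam (|σ| - (1+2K) * number of C ∈ act with Acd C, C ⊆ σ). The sets with Acd that are not in act
have mean number (1 - t) * mean total <= η C N (acd_total, Ex_mem). Average fK_ge over the Gibbs
measure (cap σ = σ 0 for one replica; EG_mono, EG_pos).
-/

namespace Pool.Agent.Work.MP_d4a230_co.U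

open Finset Filter Topology Pool.Agent.Work.MP_07f1b5_pr
open scoped BigOperators


variable {W : Type} [Fintype W] [DecidableEq W] {H : SimpleGraph W} [DecidableRel H.Adj]

section finite

variable {V : Type} [Fintype V] [DecidableEq V] {N : ℕ}

lemma Deg_le (K : ℝ) (y : Fin N → Bool → V) {R : Finset (Fin N × Unit)}
    (h : ∀ C, Acd H (sp ep1 y) Prod.fst C → ¬ C ⊆ R) :
    (R.card : ℝ) / N - K * irr (den (sp ep1 y) R) ≤ fK H K y := by
  refine le_trans ?_ (le_sup' _ (mem_univ R))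
  rw [ind_pos h, one_mul]

lemma Deg_zero (q : Fin N × Unit → Sym2 V) : irr (den q ∅) = 0 := by
  simp [irr, den]

lemma Deg_ne (B : HBal H) {q : Fin N × Unit → Sym2 V} {C : Finset (Fin N × Unit)}
    (h : Acd H q Prod.fst C) : C.Nonempty :=
  card_pos.1 (by have := h.2.1; have := B.h3; have := B.hk; omega)

lemma Deg_opt (B : HBal H) (K : ℝ) (y : Fin N → Bool → V) : ∃ R : Finset (Fin N × Unit),
    (∀ C, Acd H (sp ep1 y) Prod.fst C → ¬ C ⊆ R) ∧
      fK H K y = (R.card : ℝ) / N - K * irr (den (sp ep1 y) R) := by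
  obtain ⟨R, -, h⟩ := exists_mem_eq_sup' univ_nonempty fun R : Finset (Fin N × Unit) =>
    ind (∀ C, Acd H (sp ep1 y) Prod.fst C → ¬ C ⊆ R) *
      ((R.card : ℝ) / N - K * irr (den (sp ep1 y) R))
  by_cases hR : ∀ C, Acd H (sp ep1 y) Prod.fst C → ¬ C ⊆ R
  · exact ⟨R, hR, by rw [fK, h, ind_pos hR, one_mul]⟩
  · refine ⟨∅, fun C hC hs => (Deg_ne B hC).ne_empty (subset_empty.1 hs), ?_⟩
    rw [fK, h, ind_neg hR, Deg_zero]
    simp

lemma Deg_sub [Nonempty V] {K d : ℝ} (hK : 0 ≤ K) (q : Fin N × Unit → Sym2 V)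
    {R R2 : Finset (Fin N × Unit)} (h : R2 ⊆ R) (hd : (R.card : ℝ) ≤ R2.card + d) :
    (R.card - (1 + 2 * K) * d) / N - K * irr (den q R) ≤
      (R2.card : ℝ) / N - K * irr (den q R2) := by
  have h1 := irr_le_l1 (den q R2) (den q R)
  have h2 : 𝔼 e, |den q R2 e - den q R e| = (R.card : ℝ) / N - R2.card / N := by
    rw [expect_congr rfl fun e _ => (abs_of_nonpos (sub_nonpos.2 (den_mono q h e))).trans
      (neg_sub _ _), expect_sub_distrib, ex_den, ex_den]
    simp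
  have h3 : (R.card : ℝ) / N - R2.card / N ≤ d / N := by
    rw [← sub_div]
    exact div_le_div_of_nonneg_right (by linarith) (Nat.cast_nonneg _)
  rw [h2] at h1
  rw [sub_div, mul_div_assoc]
  nlinarith only [h3, hK, h1]

lemma Deg_lip (B : HBal H) [Nonempty V] {K : ℝ} (hK : 0 ≤ K) {y y2 : Fin N → Bool → V} (g : Fin N)
    (h : ∀ a, a ≠ g → y a = y2 a) : fK H K y - fK H K y2 ≤ (1 + 2 * K) / N := by
  obtain ⟨R, h1, h2⟩ := Deg_opt B K y
  have h3 : ∀ i ∈ R.erase (g, ()), sp ep1 y i = sp ep1 y2 i := fun i hi => by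
    unfold sp
    rw [h i.1 fun e => (mem_erase.1 hi).1 (Prod.ext e rfl)]
  have h4 := Deg_le (H := H) K y2 (R := R.erase (g, ())) fun C hC hs =>
    h1 C ((Acd_congr _ fun i hi => h3 i (hs hi)).2 hC) (hs.trans (erase_subset _ _))
  have h5 := Deg_sub hK (sp ep1 y) (erase_subset (g, ()) R) (d := 1) (by
    have := pred_card_le_card_erase (s := R) (a := (g, ()))
    exact_mod_cast (by omega : R.card ≤ (R.erase (g, ())).card + 1))
  rw [← den_congr h3] at h4
  rw [sub_div, mul_one] at h5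
  linarith only [h2, h4, h5]

end finite

theorem fK_nonneg (B : HBal H) {V : Type} [Fintype V] [DecidableEq V] (K : ℝ) {N : ℕ}
    (y : Fin N → Bool → V) : 0 ≤ fK H K y := by
  have h := Deg_le (H := H) K y (R := ∅) fun C hC hs => (Deg_ne B hC).ne_empty (subset_empty.1 hs)
  rw [Deg_zero] at h
  simpa using h

theorem fK_lip (B : HBal H) {V : Type} [Fintype V] [DecidableEq V] [Nonempty V] {K : ℝ}
    (hK : 0 ≤ K) {N : ℕ} (y : Fin N → Bool → V) (g : Fin N) (z : Bool → V) :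
    |fK H K (Function.update y g z) - fK H K y| ≤ (1 + 2 * K) / N := by
  refine abs_sub_le_iff.2 ⟨Deg_lip B hK g fun a ha => ?_, Deg_lip B hK g fun a ha => ?_⟩ <;>
    rw [Function.update_of_ne ha]

theorem fK_ge (B : HBal H) {V : Type} [Fintype V] [DecidableEq V] [Nonempty V] {K : ℝ}
    (hK : 0 ≤ K) {N : ℕ} (y : Fin N → Bool → V) (σ : Finset (Fin N × Unit)) :
    (σ.card - (1 + 2 * K) * ∑ C : Finset (Fin N × Unit),
      ind (Acd H (sp ep1 y) Prod.fst C ∧ C ⊆ σ)) / N - K * irr (den (sp ep1 y) σ) ≤ fK H K y := by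
  classical
  have h1 : ∀ C : Finset (Fin N × Unit), ∃ D : Finset (Fin N × Unit), D.card ≤ 1 ∧
      (C.Nonempty → ∃ i ∈ C, i ∈ D) := fun C => by
    rcases C.eq_empty_or_nonempty with rfl | ⟨i, hi⟩
    · exact ⟨∅, by simp, fun h => absurd h not_nonempty_empty⟩
    · exact ⟨{i}, by simp, fun _ => ⟨i, hi, mem_singleton_self i⟩⟩
  choose D d1 d2 using h1
  let S := univ.filter fun C => Acd H (sp ep1 y) Prod.fst C ∧ C ⊆ σ
  refine (Deg_sub hK _ (sdiff_subset (t := S.biUnion D)) ?_).trans (Deg_le K y fun C hC hs => ?_)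
  · rw [sum_ind]
    have h2 := card_biUnion_le_card_mul S D 1 fun C _ => d1 C
    have h3 := le_card_sdiff (S.biUnion D) σ
    exact_mod_cast (by omega : σ.card ≤ (σ \ S.biUnion D).card + S.card)
  · obtain ⟨i, i1, i2⟩ := d2 C (Deg_ne B hC)
    exact (mem_sdiff.1 (hs i1)).2 (mem_biUnion.2
      ⟨C, mem_filter.2 ⟨mem_univ _, hC, hs.trans sdiff_subset⟩, i2⟩)

section energy

variable {V : Type} [Fintype V] [DecidableEq V] [Nonempty V] {N : ℕ}

lemma Deg_small {ε : ℝ} (hε : 0 < ε) (c : ℝ) : ∃ e : ℝ, 0 < e ∧ e ≤ 1 ∧ e * c ≤ ε := by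
  have h1 : 0 < |c| + ε := by positivity
  refine ⟨ε / (|c| + ε), by positivity, (div_le_one h1).2 (by linarith [abs_nonneg c]), ?_⟩
  rw [div_mul_eq_mul_div, div_le_iff₀ h1]
  nlinarith only [hε, le_abs_self c]

lemma Deg_up (B : HBal H) {T θ : ℝ} (h0 : 0 ≤ θ) (h1 : θ < 1) (hN : 0 < N) :
    N * T * 𝔼 y : Fin N → Bool → V, fK H 0 y ≤
      FE H V θ 1 ep1 (fug (Real.exp T) : Finset (Fin N × Unit) → ℝ) := by
  rw [mul_expect]
  refine ex_mono fun y => ?_
  obtain ⟨R, h2, h3⟩ := Deg_opt B 0 y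
  have h4 : (0 : ℝ) < N := by exact_mod_cast hN
  have h5 : (N : ℝ) * T * fK H 0 y = Real.log (fug (Real.exp T) R *
      aw H θ (sp ep1 y) Prod.fst univ R) := by
    rw [aw, prod_eq_one fun C _ => by rw [ind_neg fun h => h2 C h.1 h.2]; simp, h3, fug, mul_one,
      Real.log_pow, Real.log_exp]
    field_simp
    ring
  have h6 : ∀ σ : Finset (Fin N × Unit), 0 < fug (Real.exp T) σ *
      aw H θ (sp ep1 y) Prod.fst univ σ := fun σ =>
    mul_pos (pow_pos (Real.exp_pos T) _) (aw_bd h0 h1 _ _ _ _).1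
  rw [h5, LZ, E, Ex_one fun _ => rfl]
  exact Real.log_le_log (h6 R) (single_le_sum (fun σ _ => (h6 σ).le) (mem_univ R))

lemma Deg_fe (B : HBal H) {K T θ t lam : ℝ} (hK : 0 ≤ K) (hT : 0 ≤ T) (h0 : 0 ≤ θ)
    (hθ : 1 - θ = Real.exp (-((1 + 2 * K) * T))) (t0 : 0 ≤ t) (t1 : t ≤ 1) (hN : 0 < N)
    {U : Finset (Fin N × Unit) → ℝ} (hU : Good lam U) (hU2 : ∀ σ, U σ ≤ Real.exp T ^ σ.card) :
    FE H V θ t ep1 U ≤ N * T * (𝔼 y : Fin N → Bool → V, fK H K y) + N * T * K *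
      (EG H θ t ep1 U 1 fun (y : Fin N → Bool → V) _ σ => irr (den (sp ep1 y) (cap σ))) +
      T * (1 + 2 * K) * ((1 - t) * 𝔼 y : Fin N → Bool → V, ∑ C : Finset (Fin N × Unit),
        1 * ind (Acd H (sp ep1 y) Prod.fst C)) + N * Real.log 2 := by
  have h1 : θ < 1 := by linarith only [hθ, Real.exp_pos (-((1 + 2 * K) * T))]
  have h4 : (0 : ℝ) < N := by exact_mod_cast hN
  have e1 : (1 - t) * 𝔼 y : Fin N → Bool → V, ∑ C : Finset (Fin N × Unit),
      1 * ind (Acd H (sp ep1 y) Prod.fst C) = EG H θ t ep1 U 1 fun (y : Fin N → Bool → V) act _ =>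
        ∑ C : Finset (Fin N × Unit), ind (Acd H (sp ep1 y) Prod.fst C) * (1 - ind (C ∈ act)) := by
    rw [EG_dis h0 h1 hU, mul_expect]
    refine expect_congr rfl fun y _ => ?_
    rw [E_sum, mul_sum]
    refine sum_congr rfl fun C _ => ?_
    rw [E_const_mul, E_sub, E_const, E, Ex_mem]
    ring
  rw [e1, ← EG_pos (H := H) (r := 1) (τ := t) (ep := ep1) h0 h1 hU, ← EG_mul, ← EG_mul, ← EG_mul,
    ← EG_add, ← EG_add, EG, ← Fintype.expect_const (ι := Fin N → Bool → V) (N * Real.log 2),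
    ← expect_add_distrib]
  refine ex_mono fun y => ?_
  rw [← E_const (p := t) (ι := Finset (Fin N × Unit)) (N * Real.log 2), ← E_add]
  refine E_mono t0 t1 fun act => ?_
  have h2 := log_le_gib (g := fun σ => T * (σ.card - (1 + 2 * K) * ∑ C ∈ act,
      ind (Acd H (sp ep1 y) Prod.fst C ∧ C ⊆ σ))) (Wt_nonneg (H := H) h0 h1 ep1 hU y act)
    (Wt_sum_pos h0 h1 ep1 hU y act) fun σ => by
      rw [mul_sub, sub_eq_add_neg, Real.exp_add, mul_comm T, Real.exp_nat_mul, mul_sum, mul_sum,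
        ← sum_neg_distrib, Real.exp_sum]
      refine mul_le_mul (hU2 σ) (le_of_eq (prod_congr rfl fun C _ => ?_))
        (aw_bd h0 h1 _ _ _ _).1.le (by positivity)
      by_cases h : Acd H (sp ep1 y) Prod.fst C ∧ C ⊆ σ
      · rw [ind_pos h, mul_one, hθ, mul_one, mul_comm]
      · rw [ind_neg h]; simp
  refine h2.trans (add_le_add (gib_mono (Wt_nonneg h0 h1 ep1 hU y act) fun σ _ => ?_) ?_)
  · have h3 := fK_ge B hK y (σ 0)
    have h5 : cap σ = σ 0 := by simp [cap]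
    have h6 : ∑ C : Finset (Fin N × Unit), ind (Acd H (sp ep1 y) Prod.fst C ∧ C ⊆ σ 0) ≤
        ∑ C ∈ act, ind (Acd H (sp ep1 y) Prod.fst C ∧ C ⊆ σ 0) + ∑ C : Finset (Fin N × Unit),
          ind (Acd H (sp ep1 y) Prod.fst C) * (1 - ind (C ∈ act)) := by
      rw [Lay_sum act, ← sum_add_distrib]
      refine sum_le_sum fun C _ => ?_
      by_cases h : C ∈ act
      · rw [ind_pos h]; simp
      · rw [ind_neg h, zero_mul, zero_add, sub_zero, mul_one]; exact ind_mono fun h => h.1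
    rw [sub_le_iff_le_add, div_le_iff₀ h4] at h3
    rw [h5]
    nlinarith only [h3, hT, h6, hK, mul_le_mul_of_nonneg_left h3 hT,
      mul_le_mul_of_nonneg_left h6 (by positivity : 0 ≤ T * (1 + 2 * K))]
  · simp

end energy

variable {n N : ℕ → ℕ} {L a : ℝ}

theorem fK_up (R : Reg H ep1 n N fun _ => 1) (hT : Tangent H) (hL : 0 ≤ L)
    (hr : Tendsto (fun j => rate H (n j) (N j) 1) atTop (𝓝 L))
    (ha : Tendsto (fun N : ℕ => meanIndep H.edgeFinset.card N
      (L / ((N - 1).choose (H.edgeFinset.card - 1) : ℝ)) / N) atTop (𝓝 a)) {ε : ℝ} (hε : 0 < ε) :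
    ∀ᶠ j in atTop, 𝔼 y : Fin (N j) → Bool → Fin (n j), fK H 0 y ≤ a + ε := by
  have hk : 2 ≤ H.edgeFinset.card := by have := R.bal.h3; have := R.bal.hk; omega
  have T0 : 0 < 4 / ε := by positivity
  have h0 : 0 ≤ 1 - Real.exp (-(4 / ε)) := sub_nonneg.2 (Real.exp_le_one_iff.2 (by linarith only [T0]))
  have h1 : 1 - Real.exp (-(4 / ε)) < 1 := by linarith [Real.exp_pos (-(4 / ε))]
  filter_upwards [upper R hT hL hr (Real.exp_pos (4 / ε)).le h0 h1 one_pos, R.pos,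
    ((q_zero hk L).comp R.top).eventually_le_const one_pos,
    (ha.comp R.top).eventually_le_const (lt_add_of_pos_right a (half_pos hε))] with j u p q1 ha
  haveI : Nonempty (Fin (n j)) := ⟨⟨0, p.1⟩⟩
  have hN := p.1.trans_le p.2
  have h4 : (0 : ℝ) < N j := by exact_mod_cast hN
  have h2 := Deg_up (V := Fin (n j)) (T := 4 / ε) R.bal h0 h1 hN
  have h3 := (fu_sandwich (by omega) (Real.one_le_exp T0.le) h0 h1
    (by rw [sub_sub_cancel, ← Real.exp_add]; simp) (by positivity) q1).2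
  rw [Function.comp_apply, div_le_iff₀ h4] at ha
  rw [Real.log_exp] at h3
  refine le_of_mul_le_mul_left ?_ (mul_pos h4 T0)
  have h5 : 4 / ε * ε = 4 := div_mul_cancel₀ _ hε.ne'
  nlinarith only [u, h4, h2, h3, ha, T0, h5, mul_le_mul_of_nonneg_right ha T0.le, Real.log_two_lt_d9]

theorem fK_low (R : Reg H ep1 n N fun _ => 1) (hT : Tangent H) (hL : 0 < L)
    (hr : Tendsto (fun j => rate H (n j) (N j) 1) atTop (𝓝 L))
    (ha : Tendsto (fun N : ℕ => meanIndep H.edgeFinset.card N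
      (L / ((N - 1).choose (H.edgeFinset.card - 1) : ℝ)) / N) atTop (𝓝 a)) {K ε : ℝ} (hK : 0 ≤ K)
    (hε : 0 < ε) : ∀ᶠ j in atTop, a - ε ≤ 𝔼 y : Fin (N j) → Bool → Fin (n j), fK H K y := by
  have hk : 2 ≤ H.edgeFinset.card := by have := R.bal.h3; have := R.bal.hk; omega
  have k0 : (0 : ℝ) < H.edgeFinset.card := by exact_mod_cast (by omega)
  have ε5 : 0 < ε / 5 := by positivity
  obtain ⟨T, T0, h5⟩ : ∃ T : ℝ, 0 < T ∧ T * ε = 5 :=
    ⟨5 / ε, by positivity, div_mul_cancel₀ _ hε.ne'⟩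
  obtain ⟨θ, hθ⟩ : ∃ θ : ℝ, 1 - θ = Real.exp (-((1 + 2 * K) * T)) := ⟨_, sub_sub_cancel _ _⟩
  have h1 : θ < 1 := by linarith only [hθ, Real.exp_pos (-((1 + 2 * K) * T))]
  have θ0 : 0 < θ := by
    linarith only [hθ, hK, T0, Real.exp_lt_one_iff.2 (neg_neg_of_pos (by positivity : 0 < (1 + 2 * K) * T))]
  have hl := (Real.exp_pos T).le
  obtain ⟨δ, δ0, -, δ1⟩ := Deg_small ε5 K
  obtain ⟨C, C0, hC⟩ := force R.bal hT δ0
  obtain ⟨C2, C20, hC2⟩ := acd_total R
  obtain ⟨η, η0, η1, η2⟩ := Deg_small ε5 ((1 + 2 * K) * C2)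
  obtain ⟨u, hu⟩ : ∃ u, u = (1 - θ)⁻¹ := ⟨_, rfl⟩
  obtain ⟨c3, hc3⟩ : ∃ c, c = H.edgeFinset.card / L * (1 + (3 + 2 * u) / (η * θ)) := ⟨_, rfl⟩
  obtain ⟨e, e0, -, e1⟩ := Deg_small ε5 ((2 + u) / T + 4 * K + K * C * c3)
  obtain ⟨R0, hR0, hI⟩ := ih_unif R hL.le hl θ0.le h1 e0
  obtain ⟨m, m1, m2⟩ := ((dr_low R hL.le hr hl θ0.le h1 one_pos e0).and (model1 R e0)).exists
  filter_upwards [hI, m1, m2, hC2, dr_ge R hT hL.le hr hl θ0.le h1 R0 e0,
    real_ge R hT hL.le hr hl θ0.le h1 e0, R.pos,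
    ((q_zero hk L).comp R.top).eventually_le_const one_pos,
    (ha.comp R.top).eventually_const_le (sub_lt_self a ε5)] with j ⟨A, pm, hI, hie⟩ m1
    ⟨err, r0, r1, r2⟩ hC2 hD hre p q1 ha
  haveI : Nonempty (Fin (n j)) := ⟨⟨0, p.1⟩⟩
  have hN := p.1.trans_le p.2
  have h4 : (0 : ℝ) < N j := by exact_mod_cast hN
  have h3 := (fu_sandwich (by omega) (Real.one_le_exp T0.le) θ0.le h1 (by
    rw [hθ, ← Real.exp_add]
    exact Real.exp_le_one_iff.2 (by nlinarith only [hK, T0])) (by positivity) q1).1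
  rw [Function.comp_apply, le_div_iff₀ h4] at ha
  rw [Real.log_exp] at h3
  have eN : 0 ≤ e * N j := by positivity
  obtain ⟨t, t1, t0, t2, h6⟩ := fi_mvt hI hR0 eN eN η0 η1 hD (by
    rw [fi_zero, fi_one]
    exact (sub_le_sub_right (fu_eq _ _ _ _ _).le _).trans hre)
  have h7 := fi_le hI R0 eN hD t0.le t2.le le_rfl
  have h8 := m1 t t0.le t2
  rw [fi_one] at h7
  have hA : Adm fun C => (1 - t) * piU H.edgeFinset.card L (N j) C := fun c =>
    ⟨mul_nonneg (by linarith only [t2]) (hI.p0 c), mul_le_one₀ (by linarith only [η1, t1]) (hI.p0 c) (hI.p1 c)⟩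
  have h9 : FI H (Fin (n j)) (Real.exp T) θ 1 ep1 (piU H.edgeFinset.card L (N j)) id t ≤
      Ex (fun C => (1 - t) * piU H.edgeFinset.card L (N j) C) fun A =>
        (N j * T * (𝔼 y : Fin (N j) → Bool → Fin (n j), fK H K y) + N j * T * K * (δ + 4 * e) +
          T * (1 + 2 * K) * (η * (C2 * N j)) + N j * Real.log 2) + N j * T * K * C *
        EG H θ (t * 1) ep1 (UV (Real.exp T) θ id A) 1
          fun (y : Fin (N j) → Bool → Fin (n j)) _ σ => tH H (bk m (den (sp ep1 y) (cap σ))) -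
            (𝔼 e, ord (bk m (den (sp ep1 y) (cap σ))) e) ^ H.edgeFinset.card := by
    refine Ex_mono hA fun A => ?_
    have hU := good_UV (I := Fin (N j) × Unit) hl θ0.le h1 id A
    have s0 : 0 ≤ t * 1 := by linarith only [η1, t1]
    have s1 : t * 1 ≤ 1 := by linarith only [t2]
    have g1 := Deg_fe (V := Fin (n j)) R.bal hK T0.le θ0.le hθ s0 s1 hN hU fun σ =>
      mul_le_of_le_one_right (pow_nonneg hl _) (cw_bd θ0.le h1 _ _ _).2
    have g2 := EG_mono (H := H) (ep := ep1) (r := 1) θ0.le h1 s0 s1 hU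
      (F := fun (y : Fin (N j) → Bool → Fin (n j)) _ σ => irr (den (sp ep1 y) (cap σ)))
      (F2 := fun y _ σ => (δ + 4 * err y) + C * (tH H (bk m (den (sp ep1 y) (cap σ))) -
        (𝔼 e, ord (bk m (den (sp ep1 y) (cap σ))) e) ^ H.edgeFinset.card)) fun y _ σ _ => by
      linarith only [irr_le (den (sp ep1 y) (cap σ)) (ord (bk m (den (sp ep1 y) (cap σ)))),
        r2 y (cap σ), hC _ (bk m (den (sp ep1 y) (cap σ))) (ck_unit _ _)]
    rw [EG_add, EG_mul, EG_pos θ0.le h1 hU, expect_add_distrib, Fintype.expect_const,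
      ← mul_expect] at g2
    have g3 := mul_le_mul (by linarith only [t1] : 1 - t * 1 ≤ η) hC2
      (expect_nonneg fun y _ => sum_nonneg fun C _ => mul_nonneg zero_le_one (ind_nonneg _)) η0.le
    have g4 : 0 ≤ (N j : ℝ) * T * K := by (clear * - T0 hK hN; positivity)
    nlinarith only [g1, g2, g4, r1, g3, T0, hK, mul_le_mul_of_nonneg_left g2 g4, mul_le_mul_of_nonneg_left r1 g4,
      mul_le_mul_of_nonneg_left g3 (by (clear * - T0 hK; positivity) : 0 ≤ T * (1 + 2 * K))]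
  rw [Ex_add, Ex_const, Ex_const_mul] at h9
  generalize Ex (fun C => (1 - t) * piU H.edgeFinset.card L (N j) C) _ = X at h8 h9
  have x1 : X ≤ e * c3 := by
    have x2 := (mul_le_mul_of_nonneg_left h8 θ0.le).trans h6
    rw [le_div_iff₀ η0, div_eq_mul_inv _ (1 - θ), ← hu] at x2
    have x3 : θ * (L / H.edgeFinset.card * X - e) * η ≤ e * (3 + 2 * u) := by
      refine le_of_mul_le_mul_left ?_ h4
      have : L * N j / H.edgeFinset.card = L / H.edgeFinset.card * N j := by ring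
      rw [this] at x2
      nlinarith only [hie, x2]
    have x4 : L / H.edgeFinset.card * X - e ≤ e * ((3 + 2 * u) / (η * θ)) := by
      rw [← mul_div_assoc, le_div_iff₀ (by positivity)]
      linarith only [x3]
    have x5 : X = H.edgeFinset.card / L * (L / H.edgeFinset.card * X) := by field_simp
    rw [x5, hc3, mul_left_comm e]
    exact mul_le_mul_of_nonneg_left (by linarith only [x4]) (div_pos k0 hL).le
  rw [div_eq_mul_inv _ (1 - θ), ← hu] at h7
  refine le_of_mul_le_mul_left ?_ (mul_pos h4 T0)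
  have y1 : e * (2 + u) = T * (e * ((2 + u) / T)) := by field_simp
  have y2 := mul_le_mul_of_nonneg_left x1 (by (clear * - C0 T0 hK hN; positivity) : 0 ≤ (N j : ℝ) * T * K * C)
  have y3 := mul_le_mul_of_nonneg_left (add_le_add (add_le_add δ1 η2) e1) (mul_pos h4 T0).le
  have y4 := mul_le_mul_of_nonneg_right ha T0.le
  have y5 := mul_le_mul_of_nonneg_left (by linarith only [h5, h1, θ0, Real.log_two_lt_d9] : Real.log 2 ≤ T * ε / 5)
    h4.le
  have y6 := congrArg (· * (N j : ℝ)) y1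
  linarith only [hie, hre, h3, h7, h9, y2, y3, y4, y5, y6]

end Pool.Agent.Work.MP_d4a230_co.U
end

-- merged part: Pool.Agent.Work.MP_d4a230_co.U.Final
section
/-!
Assembly.
PLAN. R0 = B.reg hc hp (after hH.twoDensity_eq), R0.inf, R0.lim; p → 0 (n^(v-2) p^(k-1) is bounded);
N from size. reg_real: P = p * (P/p). L = copyRate H c > 0. alpha_conv gives a.
up: for d > a, mcdiarmid for fK 0 (fK_lip, fK_up) and whp_of_iid give whp some y with Inj y, positions
in ω, fK 0 y <= a + 2ε. If ω2 ⊆ ω is free of copies with all dgE >= d p n, then R = {i | sp i ∈ ω2} has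
no Acd subset, so |R| <= (a + 2ε) N, |ω2 ∩ offd| <= |R| + η N, and sum dgE = 2 |ω2 ∩ offd|:
contradiction; so HEv holds vacuously. low: for d < a take ε with d + 5ε <= a (a <= 1), η from
hlower_core (ν = a, b = 1/32), K with 1/(K ε/4) <= η/8; whp some y with fK K y >= a - ε/4 > 0, so a free
R with |R|/N >= a - ε/4 and irr <= 1/K. R2 = image of R is a copy-free subset of ω (a copy inside
pulls back to an Acd set), dgE R2 v = (2N/n) * mean_b den R (v,b); Markov on irr; X v = min (dgE R2 v)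
(a p n), dev = 0. Conclude as in hlower_prob, le_hchrom and hexact of HMain (hchrom_eq, csInf).
-/

namespace Pool.Agent.Work.MP_d4a230_co.U

open Finset Filter Topology Pool.Agent.Work.MP_07f1b5_pr
open scoped BigOperators


variable {W : Type} [Fintype W] [DecidableEq W] {H : SimpleGraph W} [DecidableRel H.Adj]
  {p : ℕ → ℝ} {K0 : ℕ} {L Λ a : ℝ} {N : ℕ → ℕ}

theorem reg_real (B : HBal H) {c : ℝ} (hc : 0 < c)
    (R0 : HReg p (fun n => copies H (Fin n)) (Fintype.card W) H.edgeFinset.card K0 (copyRate H c)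
      (c ^ (H.edgeFinset.card - 1)))
    (hN : Tendsto (fun n : ℕ => 2 * (N n : ℝ) / (n : ℝ) ^ 2 / p n) atTop (𝓝 1)) :
    Reg H ep1 id N (fun _ => 1) ∧ Tendsto (fun n => rate H n (N n) 1) atTop (𝓝 (copyRate H c)) ∧
      Tendsto p atTop (𝓝 0) ∧ 0 < copyRate H c := by
  have h3 := B.h3
  have hk := B.hk
  have hA := one_le_aut (H := H)
  have l1 : Tendsto (fun n : ℕ => (n : ℝ) ^ (Fintype.card W - 2) *
      (2 * (N n : ℝ) / (n : ℝ) ^ 2) ^ (H.edgeFinset.card - 1)) atTop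
      (𝓝 (c ^ (H.edgeFinset.card - 1))) := by
    have := R0.lim.mul (hN.pow (H.edgeFinset.card - 1))
    rw [one_pow, mul_one] at this
    refine this.congr' ?_
    filter_upwards [R0.inf.eventually (eventually_gt_atTop 0)] with n hn
    rw [mul_assoc, ← mul_pow, mul_div_cancel₀ _ (left_ne_zero_of_mul hn.ne')]
  have e : copyRate H c = 1 * (2 * H.edgeFinset.card / aut H) * c ^ (H.edgeFinset.card - 1) := by
    rw [copyRate, ncard_edge, aut]
    ring
  have l2 : Tendsto (fun n => rate H n (N n) 1) atTop (𝓝 (copyRate H c)) := by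
    rw [e]
    exact (l1.const_mul _).congr fun n => (mul_assoc _ _ _).symm
  have k0 : (0 : ℝ) < H.edgeFinset.card := by exact_mod_cast (by omega)
  refine ⟨⟨B, ⟨()⟩, fun _ => Bool.false_ne_true, tendsto_id,
    Eventually.of_forall fun _ => ⟨zero_le_one, le_rfl⟩, ⟨_, half_pos R0.pos, ?_⟩,
    ⟨copyRate H c + 1, ?_⟩, Or.inl fun _ _ _ => rfl⟩, l2, R0.lim0, by rw [e]; positivity⟩
  · simp only [Fintype.card_unique, mul_one]
    exact l1.eventually (le_mem_nhds (half_lt_self R0.pos))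
  · simp only [Fintype.card_unique, mul_one]
    exact l2.eventually (ge_mem_nhds (lt_add_one _))

lemma Final_conc
    (R0 : HReg p (fun n => copies H (Fin n)) (Fintype.card W) H.edgeFinset.card K0 L Λ)
    (B : HBal H) (hp : Tendsto p atTop (𝓝 0))
    (hN : Tendsto (fun n : ℕ => 2 * (N n : ℝ) / (n : ℝ) ^ 2 / p n) atTop (𝓝 1))
    (hS : Whp p fun n ω => N n ≤ (ω ∩ offd (Fin n)).card) {K δ : ℝ} (hK : 0 ≤ K) (hδ : 0 < δ) :
    Whp p fun n ω => ∃ y : Fin (N n) → Bool → Fin n, Inj y ∧ (∀ i, sp ep1 y i ∈ ω) ∧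
      ¬ δ ≤ |fK H K y - 𝔼 y2 : Fin (N n) → Bool → Fin n, fK H K y2| := by
  refine whp_of_iid R0.p0 R0.p1 hp R0.inf hN hS _ (c := δ ^ 2 / (2 * (1 + 2 * K) ^ 2))
    (by positivity) ?_
  filter_upwards [hN.eventually (lt_mem_nhds zero_lt_one), eventually_gt_atTop 0] with n h1 h2
  have : Nonempty (Fin n) := ⟨⟨0, h2⟩⟩
  have h3 : (0 : ℝ) < N n := Nat.cast_pos.2 (Nat.pos_of_ne_zero fun h => by simp [h] at h1)
  refine (mcdiarmid (fK H K) (by positivity) hδ.le fun y i b => fK_lip B hK y i b).trans_eq ?_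
  rw [Fintype.card_fin]
  congr 3
  field_simp

section det

variable {V : Type} [Fintype V] [DecidableEq V] {M : ℕ} {y : Fin M → Bool → V}

omit [DecidableEq W] in
lemma Final_up (hy : Inj y) {ω ω2 : Finset (Sym2 V)} (h1 : ∀ i, sp ep1 y i ∈ ω) (h2 : ω2 ⊆ ω)
    (h3 : ∀ T ∈ copies H V, ¬ T ⊆ ω2) (hM : (0 : ℝ) < M) :
    ∑ v, dgE ω2 v ≤ 2 * (fK H 0 y * M + (ω ∩ offd V).card - M) := by
  have e1 := le_sup' (fun R : Finset (Fin M × Unit) =>
    ind (∀ C, Acd H (sp ep1 y) Prod.fst C → ¬ C ⊆ R) *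
      ((R.card : ℝ) / M - 0 * irr (den (sp ep1 y) R)))
    (mem_univ (univ.filter fun i => sp ep1 y i ∈ ω2))
  rw [ind_pos fun C hC h => h3 _ hC.1 (image_subset_iff.2 fun i hi => by simpa using h hi),
    zero_mul, sub_zero, one_mul, div_le_iff₀ hM] at e1
  have e2 : univ.image (sp ep1 y) ⊆ ω ∩ offd V := image_subset_iff.2 fun i _ =>
    mem_inter.2 ⟨h1 i, mem_filter.2 ⟨mem_univ _, hy.2 i.1⟩⟩
  have e3 := card_sdiff_add_card_eq_card e2
  rw [card_image_of_injective _ hy.1, card_univ, Fintype.card_prod, Fintype.card_fin,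
    Fintype.card_unit, mul_one] at e3
  have e4 : offd V ∩ ω2 ⊆ (univ.filter fun i => sp ep1 y i ∈ ω2).image (sp ep1 y) ∪
      (ω ∩ offd V) \ univ.image (sp ep1 y) := fun e he => by
    by_cases h : e ∈ univ.image (sp ep1 y)
    · obtain ⟨i, -, rfl⟩ := mem_image.1 h
      exact mem_union_left _
        (mem_image_of_mem _ (mem_filter.2 ⟨mem_univ _, (mem_inter.1 he).2⟩))
    · exact mem_union_right _
        (mem_sdiff.2 ⟨mem_inter.2 ⟨h2 (mem_inter.1 he).2, (mem_inter.1 he).1⟩, h⟩)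
  have e5 := (card_le_card e4).trans ((card_union_le _ _).trans
    (Nat.add_le_add_right card_image_le _))
  have e6 : ∑ v, dgE ω2 v = 2 * ((offd V ∩ ω2).card : ℝ) := by
    unfold dgE
    rw [handshake fun e => ind (e ∈ ω2), sum_ind, filter_mem_eq_inter]
    rfl
  rw [e6, ← e3]
  rw [← Nat.cast_le (α := ℝ)] at e5
  push_cast at e5 ⊢
  have e7 : _ ≤ fK H 0 y * M := e1
  linarith only [e5, e7]

omit [DecidableEq W] in
lemma Final_free (hy : Inj y) {R : Finset (Fin M × Unit)}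
    (h : ∀ C, Acd H (sp ep1 y) Prod.fst C → ¬ C ⊆ R) :
    ∀ T ∈ copies H V, ¬ T ⊆ R.image (sp ep1 y) := by
  intro T hT hs
  obtain ⟨C, h1, rfl⟩ := subset_image_iff.1 hs
  refine h C ⟨hT, ?_, fun i _ j _ e => Prod.ext e rfl⟩ h1
  obtain ⟨f, -, e⟩ := mem_image.1 hT
  rw [← card_image_of_injective _ hy.1, ← e, card_img]

lemma Final_deg (hy : Inj y) (R : Finset (Fin M × Unit)) (hM : (0 : ℝ) < M) (v : V) :
    2 * M / Fintype.card V * 𝔼 b, den (sp ep1 y) R (v, b) ≤ dgE (R.image (sp ep1 y)) v := by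
  have hV : (0 : ℝ) < Fintype.card V := Nat.cast_pos.2 (Fintype.card_pos_iff.2 ⟨v⟩)
  have e1 : 2 * M / Fintype.card V * 𝔼 b, den (sp ep1 y) R (v, b) =
      ∑ b, ∑ i ∈ R, hit (sp ep1 y i) (v, b) := by
    unfold den
    rw [Fintype.expect_eq_sum_div_card, ← mul_sum, Fintype.card_prod, Fintype.card_fin,
      Fintype.card_unit, mul_one]
    field_simp
  have e2 : ∀ i, ¬ sp ep1 y i = s(v, v) := fun i h =>
    hy.2 i.1 (Sym2.mk_isDiag_iff.1 (h ▸ Sym2.mk_isDiag_iff.2 rfl : (sp ep1 y i).IsDiag))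
  rw [e1, ← sum_erase _ (a := v) (sum_eq_zero fun i _ => by rw [hit, ind_neg (e2 i), zero_mul])]
  refine sum_le_sum fun b hb => ?_
  rw [sum_congr rfl fun i _ => hit_of_ne _ (e := (v, b)) (mem_erase.1 hb).1.symm, sum_ind]
  by_cases h : s(v, b) ∈ R.image (sp ep1 y)
  · rw [ind_pos h]
    exact Nat.cast_le_one.2 (card_le_one.2 fun i hi j hj =>
      hy.1 ((mem_filter.1 hi).2.trans (mem_filter.1 hj).2.symm))
  · rw [ind_neg h, filter_false_of_mem fun i hi e => h (mem_image.2 ⟨i, hi, e⟩), card_empty,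
      Nat.cast_zero]

omit [DecidableEq W] in
lemma Final_low [Nonempty V] (hy : Inj y) (hM : (0 : ℝ) < M) {K t γ z : ℝ} (hK : 0 < K)
    (ht : 0 < t) (hγ : 0 < γ) (h : t ≤ fK H K y) (hz : z < 2 * M / Fintype.card V * (t - γ)) :
    ∃ R : Finset (Fin M × Unit), (∀ T ∈ copies H V, ¬ T ⊆ R.image (sp ep1 y)) ∧
      ∑ v, ind (dgE (R.image (sp ep1 y)) v ≤ z) ≤ 1 / K / γ * Fintype.card V := by
  have hV : (0 : ℝ) < Fintype.card V := Nat.cast_pos.2 Fintype.card_pos
  obtain ⟨R, -, e⟩ := exists_mem_eq_sup' univ_nonempty fun R : Finset (Fin M × Unit) =>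
    ind (∀ C, Acd H (sp ep1 y) Prod.fst C → ¬ C ⊆ R) *
      ((R.card : ℝ) / M - K * irr (den (sp ep1 y) R))
  have h1 := h.trans_eq e
  have h2 : ∀ C, Acd H (sp ep1 y) Prod.fst C → ¬ C ⊆ R := by
    by_contra hc
    rw [ind_neg hc, zero_mul] at h1
    exact absurd ht h1.not_gt
  have e1 := ex_den (sp ep1 y) R
  rw [Fintype.card_prod, Fintype.card_fin, Fintype.card_unit, mul_one] at e1
  rw [ind_pos h2, one_mul, ← e1] at h1
  have e2 := ex_den_le (sp ep1 y) R
  have e3 : 0 ≤ irr (den (sp ep1 y) R) := expect_nonneg fun _ _ => abs_nonneg _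
  have e4 : irr (den (sp ep1 y) R) ≤ 1 / K := by
    rw [le_div_iff₀' hK]
    linarith only [ht, h1, e2]
  have e5 := (ex_markov (f := fun v => |(𝔼 b, den (sp ep1 y) R (v, b)) - 𝔼 e, den (sp ep1 y) R e|)
    (fun _ => abs_nonneg _) hγ).trans (div_le_div_of_nonneg_right e4 hγ.le)
  rw [Fintype.expect_eq_sum_div_card, div_le_iff₀ hV] at e5
  refine ⟨R, Final_free hy h2, le_trans (sum_le_sum fun v _ => ind_mono fun hv => ?_) e5⟩
  have e6 := lt_of_mul_lt_mul_left (((Final_deg hy R hM v).trans hv).trans_lt hz) (by positivity)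
  have e7 := mul_nonneg hK.le e3
  exact le_abs.2 (Or.inr (by linarith only [h1, e6, e7]))

end det

theorem fin_up (R0 : HReg p (fun n => copies H (Fin n)) (Fintype.card W) H.edgeFinset.card K0 L Λ)
    (B : HBal H) (hp : Tendsto p atTop (𝓝 0))
    (hN : Tendsto (fun n : ℕ => 2 * (N n : ℝ) / (n : ℝ) ^ 2 / p n) atTop (𝓝 1))
    (hS : ∀ η : ℝ, 0 < η → Whp p fun n ω => N n ≤ (ω ∩ offd (Fin n)).card ∧
      ((ω ∩ offd (Fin n)).card : ℝ) ≤ (1 + η) * N n)
    (hU : ∀ ε : ℝ, 0 < ε → ∀ᶠ n in atTop, 𝔼 y : Fin (N n) → Bool → Fin n, fK H 0 y ≤ a + ε)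
    {d : ℝ} (hd : a < d) :
    Tendsto (fun n => Pr (p n) (HEv (copies H (Fin n)) (d * p n * n) 0)) atTop (𝓝 1) := by
  obtain ⟨ε, hε⟩ : ∃ ε, ε = (d - a) / 4 := ⟨_, rfl⟩
  have h0 : 0 < ε := by linarith only [hd, hε]
  have l1 := hN.mul_const (d - ε)
  refine ((hS ε h0).and R0.p0 R0.p1 (Final_conc R0 B hp hN ((hS 1 one_pos).mono R0.p0 R0.p1
    (Eventually.of_forall fun _ _ h => h.1)) le_rfl h0)).mono R0.p0 R0.p1 ?_
  filter_upwards [hU ε h0, l1.eventually (gt_mem_nhds (show 1 * (d - ε) < d by linarith)),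
    hN.eventually (lt_mem_nhds zero_lt_one), R0.inf.eventually (eventually_gt_atTop 0)]
    with n e1 e2 e3 e4 ω ⟨⟨_, g1⟩, y, g2, g3, g4⟩ ω2 g5 g6 g7
  have h1 : (0 : ℝ) < N n := Nat.cast_pos.2 (Nat.pos_of_ne_zero fun h => by simp [h] at e3)
  have h2 : (0 : ℝ) < n := pos_of_mul_pos_right e4 (R0.p0 n) |> fun h => h
  have h3 : 0 < p n := pos_of_mul_pos_left e4 h2.le |> fun h => h
  have f1 := (card_nsmul_le_sum _ _ _ fun v _ => g7 v).trans (Final_up g2 g3 g5 g6 h1)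
  have f2 := mul_le_mul_of_nonneg_right (show fK H 0 y ≤ a + 2 * ε by
    linarith only [e1, g4, (abs_lt.1 (not_le.1 g4)).2]) h1.le
  rw [card_univ, Fintype.card_fin, nsmul_eq_mul] at f1
  rw [div_div, div_mul_eq_mul_div, div_lt_iff₀ (by positivity)] at e2
  have f3 : d - ε = a + 3 * ε := by linarith only [hε]
  rw [f3] at e2
  exact absurd e2 (not_lt.2 (by linarith only [e2, g1, f1, f2]))

theorem fin_low (R0 : HReg p (fun n => copies H (Fin n)) (Fintype.card W) H.edgeFinset.card K0 L Λ)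
    (B : HBal H) (hp : Tendsto p atTop (𝓝 0))
    (hN : Tendsto (fun n : ℕ => 2 * (N n : ℝ) / (n : ℝ) ^ 2 / p n) atTop (𝓝 1))
    (hS : Whp p fun n ω => N n ≤ (ω ∩ offd (Fin n)).card) (a1 : a ≤ 1)
    (hL : ∀ K ε : ℝ, 0 ≤ K → 0 < ε → ∀ᶠ n in atTop,
      a - ε ≤ 𝔼 y : Fin (N n) → Bool → Fin n, fK H K y)
    {d : ℝ} (d0 : 0 < d) (hd : d < a) (C : ℕ) :
    ∀ᶠ n in atTop, Pr (p n) (HEv (copies H (Fin n)) (d * p n * n) C) ≤ 1 / 2 := by
  obtain ⟨ε, hε⟩ : ∃ ε, ε = (a - d) / 5 := ⟨_, rfl⟩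
  have h0 : 0 < ε := by linarith
  obtain ⟨η, hη, h1⟩ := hlower_core R0 (ν := a) (d := d) (b := 1 / 32) h0 (by linarith)
    (by linarith) (by norm_num) C
  have hK : 0 < 32 / (ε * η) := by positivity
  have h4 : 0 < ε / 4 := by linarith
  have l1 := hN.mul_const (a - ε / 2 - ε / 4)
  filter_upwards [h1, hL _ _ hK.le h4,
    (whp_iff R0.p0 R0.p1).1 (Final_conc R0 B hp hN hS hK.le h4) (1 / 4) (by norm_num),
    l1.eventually (lt_mem_nhds (show a - ε < 1 * (a - ε / 2 - ε / 4) by linarith only [h0])),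
    hN.eventually (lt_mem_nhds zero_lt_one), R0.inf.eventually (eventually_gt_atTop 0)]
    with n e0 e1 e5 e2 e3 e4
  have h1 : (0 : ℝ) < N n := Nat.cast_pos.2 (Nat.pos_of_ne_zero fun h => by simp [h] at e3)
  have h2 : (0 : ℝ) < n := pos_of_mul_pos_right e4 (R0.p0 n) |> fun h => h
  have h3 : 0 < p n := pos_of_mul_pos_left e4 h2.le |> fun h => h
  have : Nonempty (Fin n) := ⟨⟨0, Nat.cast_pos.1 h2⟩⟩
  refine le_trans (Pr_mono (R0.p0 n) (R0.p1 n) fun ω hω => (em _).imp_left ?_)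
    ((Pr_or_le (R0.p0 n) (R0.p1 n) _ _).trans ((add_le_add e0 e5).trans (by norm_num)))
  rintro ⟨y, g2, g3, g4⟩
  obtain ⟨R, r1, r2⟩ := Final_low (H := H) g2 h1 (t := a - ε / 2) (z := (a - ε) * (p n * n)) hK
    (by linarith only [d0, hd, hε]) h4 (by linarith only [e1, g4, (abs_lt.1 (not_le.1 g4)).1]) (by
      rw [Fintype.card_fin]
      refine (mul_lt_mul_of_pos_right e2 e4).trans_eq ?_
      field_simp)
  refine ⟨hω, _, image_subset_iff.2 fun i _ => g3 i, r1,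
    fun v => min (dgE (R.image (sp ep1 y)) v) (a * (p n * n)), fun _ => 0, ?_,
    fun v => (sub_zero _).trans_le (min_le_left _ _),
    le_trans (sum_le_sum fun v _ => ind_mono fun hv => ?_) (r2.trans_eq ?_)⟩
  · rw [sum_eq_zero fun _ _ => zero_pow two_ne_zero]
    exact mul_nonneg (Nat.cast_nonneg _) (sum_nonneg fun _ _ => ind_nonneg _)
  · have := mul_pos h0 e4
    rw [abs_of_nonpos (sub_nonpos.2 (min_le_right _ _))] at hv
    rcases min_choice (dgE (R.image (sp ep1 y)) v) (a * (p n * n)) with h | h <;> linarith only [hv, h, this]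
  · rw [Fintype.card_fin]
    field_simp
    norm_num

theorem universality {W : Type} [Fintype W] (H : SimpleGraph W) (hH : StrictlyTwoBalanced H)
    (hm : 1 < twoDensity H) (hC : ConvexDensity H) (c : ℝ) (hc : 0 < c) (p : ℕ → unitInterval)
    (hp : Tendsto (fun n : ℕ => (p n : ℝ) * (n : ℝ) ^ (1 / twoDensity H)) atTop (𝓝 c)) :
    Tendsto (fun N : ℕ => meanIndep H.edgeSet.ncard N
      (copyRate H c / ((N - 1).choose (H.edgeSet.ncard - 1) : ℝ)) / N) atTop
      (𝓝 (chromThreshold H p)) := by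
  classical
  have B := hH.hbal hm
  rw [hH.twoDensity_eq] at hp
  have R0 := B.reg hc hp
  obtain ⟨N, hN, hS⟩ := size R0.p0 R0.p1 R0.inf
  obtain ⟨R, hr, p0, hL⟩ := reg_real B hc R0 hN
  obtain ⟨a, a0, a1, ha⟩ := alpha_conv B (tangent_of hC) hL.le
  rw [ncard_edge, hchrom_eq]
  refine ha.trans (le_of_eq (congrArg _ (le_antisymm
    (le_csInf ⟨2, two_pos, 0, turan_mem R0 one_lt_two⟩ ?_)
    (le_of_forall_gt_imp_ge_of_dense fun d hd => csInf_le ⟨0, fun _ h => h.1.le⟩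
      ⟨a0.trans_lt hd, 0, fin_up R0 B p0 hN hS
        (fun _ hε => fK_up R (tangent_of hC) hL.le hr ha hε) hd⟩))))
  rintro d ⟨d0, C, hd⟩
  by_contra h
  obtain ⟨n, e1, e2⟩ := ((fin_low R0 B p0 hN ((hS 1 one_pos).mono R0.p0 R0.p1
    (Eventually.of_forall fun _ _ h => h.1)) a1
    (fun _ _ hK hε => fK_low R (tangent_of hC) hL hr ha hK hε) d0 (not_le.1 h) C).and
    (hd.eventually (lt_mem_nhds (show (1 : ℝ) / 2 < 1 by norm_num)))).exists
  exact absurd e1 (not_le.2 e2)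

end Pool.Agent.Work.MP_d4a230_co.U
end
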