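import Pool.Agent.Work.MP_d4a230_co.U.Cut

/-!
Complete bipartite graphs have convex homomorphism density (non-vacuity of ConvexDensity).
PLAN. For a family of nonnegative kernels w i j (i ∈ Fin s, j ∈ Fin t) let T w be the mean over
(x, y) of prod_{i,j} w i j s(x i, y j). AM-GM in the form prod_j a j <= (sum_j a j ^ t) / t, applied
to a j = mean over y of prod_i w i j s(x i, y), gives T w <= (1/t) sum_j T (fun i _ => w i j); the same
with the sides exchanged gives T w <= (1/(s t)) sum_{i,j} T (fun _ _ => w i j). Expand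
T ((1-u) w + u w2) multilinearly (Finset.prod_add or prod_univ_sum over Bool-valued choices with
product weights); each term is at most the average over the edges, and the weighted mean over the
choices is (1-u) T w + u T w2. Identify homDensity with T (maps on the sum type, the edge set of
completeBipartiteGraph as the image of Fin s × Fin t).
-/

namespace Pool.Agent.Work.MP_d4a230_co.U

open Finset Filter Topology Pool.Agent.Work.MP_07f1b5_pr
open scoped BigOperators


section aux

variable {A B V : Type} [Fintype A] [DecidableEq A] [Fintype B] [DecidableEq B] [Fintype V]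

/-- Multilinear counting form of the complete bipartite graph. -/
noncomputable def Kst_M (k : A → B → V → V → ℝ) : ℝ :=
  ∑ x : A → V, ∑ y : B → V, ∏ j, ∏ i, k i j (x i) (y j)

lemma Kst_amgm (a : B → ℝ) (ha : ∀ j, 0 ≤ a j) :
    (Fintype.card B : ℝ) * ∏ j, a j ≤ ∑ j, a j ^ Fintype.card B := by
  rcases Nat.eq_zero_or_pos (Fintype.card B) with h0 | h0
  · rw [h0, Nat.cast_zero, zero_mul]
    exact sum_nonneg fun j _ => pow_nonneg (ha j) _
  have hc : (0 : ℝ) < Fintype.card B := Nat.cast_pos.2 h0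
  have h := Real.geom_mean_le_arith_mean_weighted univ (fun _ : B => ((Fintype.card B : ℝ))⁻¹)
    (fun j => a j ^ Fintype.card B) (fun _ _ => by positivity)
    (by rw [sum_const, card_univ, nsmul_eq_mul, mul_inv_cancel₀ hc.ne'])
    (fun j _ => pow_nonneg (ha j) _)
  rw [prod_congr rfl fun j _ => Real.pow_rpow_inv_natCast (ha j) h0.ne', ← mul_sum,
    ← div_eq_inv_mul, le_div_iff₀ hc, mul_comm] at h
  exact h

lemma Kst_right (k : A → B → V → V → ℝ) (hk : ∀ i j u v, 0 ≤ k i j u v) :
    (Fintype.card B : ℝ) * Kst_M k ≤ ∑ j, Kst_M fun i (_ : B) => k i j := by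
  unfold Kst_M
  rw [mul_sum, sum_comm]
  refine sum_le_sum fun x _ => ?_
  rw [← Fintype.prod_sum fun j v => ∏ i, k i j (x i) v]
  refine (Kst_amgm _ fun j => sum_nonneg fun v _ => prod_nonneg fun i _ => hk _ _ _ _).trans
    (le_of_eq (sum_congr rfl fun j _ => ?_))
  rw [← Fintype.prod_sum fun (_ : B) v => ∏ i, k i j (x i) v, prod_const, card_univ]

lemma Kst_swap (k : A → B → V → V → ℝ) : Kst_M k = Kst_M fun j i v u => k i j u v := by
  unfold Kst_M
  rw [sum_comm]
  exact sum_congr rfl fun _ _ => sum_congr rfl fun _ _ => prod_comm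

lemma Kst_both (k : A → B → V → V → ℝ) (hk : ∀ i j u v, 0 ≤ k i j u v) :
    (Fintype.card A : ℝ) * (Fintype.card B * Kst_M k) ≤
      ∑ e : A × B, Kst_M fun (_ : A) (_ : B) => k e.1 e.2 := by
  refine (mul_le_mul_of_nonneg_left (Kst_right k hk) (Nat.cast_nonneg _)).trans ?_
  rw [mul_sum, Fintype.sum_prod_type_right]
  refine sum_le_sum fun j _ => ?_
  rw [Kst_swap]
  refine (Kst_right _ fun _ _ _ _ => hk _ _ _ _).trans (le_of_eq (sum_congr rfl fun i _ => ?_))
  rw [Kst_swap]

lemma Kst_pair (k : A → B → V → V → ℝ) :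
    Kst_M k = ∑ x : A → V, ∑ y : B → V, ∏ e : A × B, k e.1 e.2 (x e.1) (y e.2) := by
  unfold Kst_M
  simp only [Fintype.prod_prod_type_right]

lemma Kst_one (z w : V → V → ℝ) (hz : ∀ u v, 0 ≤ z u v) (hw : ∀ u v, 0 ≤ w u v) (e0 : A × B) :
    (Fintype.card (A × B) : ℝ) * ∑ x : A → V, ∑ y : B → V,
        w (x e0.1) (y e0.2) * ∏ e ∈ univ.erase e0, z (x e.1) (y e.2) ≤
      Kst_M (fun (_ : A) (_ : B) => w) +
        (Fintype.card (A × B) - 1 : ℝ) * Kst_M fun (_ : A) (_ : B) => z := by
  have h := Kst_both (fun i j => if (i, j) = e0 then w else z) fun i j u v => by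
    split_ifs
    · exact hw u v
    · exact hz u v
  rw [← add_sum_erase _ _ (mem_univ e0), if_pos rfl, sum_congr rfl fun e he => by
    rw [if_neg (ne_of_mem_erase he)], sum_const, nsmul_eq_mul, card_erase_of_mem (mem_univ _),
    card_univ, Nat.cast_pred (Fintype.card_pos_iff.2 ⟨e0⟩), ← mul_assoc, ← Nat.cast_mul,
    ← Fintype.card_prod, Kst_pair] at h
  refine le_of_eq_of_le (congrArg (_ * ·) ?_) h
  refine sum_congr rfl fun x _ => sum_congr rfl fun y _ => ?_
  rw [← mul_prod_erase _ _ (mem_univ e0), if_pos rfl]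
  exact congrArg (_ * ·) (prod_congr rfl fun e he => by rw [if_neg (ne_of_mem_erase he)])

lemma Kst_convex (w w2 : V → V → ℝ) (hw : ∀ u v, 0 ≤ w u v) (hw2 : ∀ u v, 0 ≤ w2 u v) {a b : ℝ}
    (ha : 0 ≤ a) (hb : 0 ≤ b) (hab : a + b = 1) :
    (Kst_M fun (_ : A) (_ : B) u v => a * w u v + b * w2 u v) ≤
      a * Kst_M (fun (_ : A) (_ : B) => w) + b * Kst_M fun (_ : A) (_ : B) => w2 := by
  rcases isEmpty_or_nonempty (A × B) with h0 | ⟨⟨e0⟩⟩
  · simp only [Kst_pair, univ_eq_empty (α := A × B), prod_empty]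
    rw [← add_mul, hab, one_mul]
  set z : V → V → ℝ := fun u v => a * w u v + b * w2 u v with hz
  have hz0 : ∀ u v, 0 ≤ z u v := fun u v =>
    add_nonneg (mul_nonneg ha (hw u v)) (mul_nonneg hb (hw2 u v))
  have h1 := mul_le_mul_of_nonneg_left (Kst_one z w hz0 hw e0) ha
  have h2 := mul_le_mul_of_nonneg_left (Kst_one z w2 hz0 hw2 e0) hb
  have h3 : Kst_M (fun (_ : A) (_ : B) => z) =
      a * ∑ x : A → V, ∑ y : B → V, w (x e0.1) (y e0.2) * ∏ e ∈ univ.erase e0, z (x e.1) (y e.2) +
      b * ∑ x : A → V, ∑ y : B → V,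
        w2 (x e0.1) (y e0.2) * ∏ e ∈ univ.erase e0, z (x e.1) (y e.2) := by
    rw [Kst_pair]
    simp only [mul_sum, ← sum_add_distrib]
    refine sum_congr rfl fun x _ => sum_congr rfl fun y _ => ?_
    rw [← mul_prod_erase _ _ (mem_univ e0)]
    simp only [hz]
    ring
  have h4 : b = 1 - a := by linarith
  generalize Kst_M (fun (_ : A) (_ : B) => z) = Z at *
  subst h4
  nlinarith

lemma Kst_id [i1 : Fintype (A ⊕ B → V)] [i2 : Fintype (completeBipartiteGraph A B).edgeSet]
    (w : Sym2 V → ℝ) :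
    ∑ x : A ⊕ B → V, ∏ f ∈ (completeBipartiteGraph A B).edgeFinset, w (f.map x) =
      Kst_M fun (_ : A) (_ : B) u v => w s(u, v) := by
  rw [Kst_pair, ← Fintype.sum_prod_type']
  refine Fintype.sum_equiv (Equiv.sumArrowEquivProdArrow A B V) _ _ fun x => ?_
  refine (prod_bij (fun e _ => s(Sum.inl e.1, Sum.inr e.2)) (fun e _ => by simp) ?_ ?_
    fun e _ => rfl).symm
  · rintro ⟨i, j⟩ _ ⟨i2, j2⟩ _ h
    simpa using h
  · intro f hf
    induction f using Sym2.ind with
    | h u v =>
    rw [SimpleGraph.mem_edgeFinset, SimpleGraph.mem_edgeSet] at hf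
    rcases u with u | u <;> rcases v with v | v
    · simp at hf
    · exact ⟨(u, v), mem_univ _, rfl⟩
    · exact ⟨(v, u), mem_univ _, Sym2.eq_swap⟩
    · simp at hf

end aux

theorem convex_kst (s t : ℕ) : ConvexDensity (completeBipartiteGraph (Fin s) (Fin t)) := by
  intro m
  refine ⟨fun w hw w2 hw2 a b ha hb _ e => add_nonneg (mul_nonneg ha (hw e)) (mul_nonneg hb (hw2 e)),
    fun w hw w2 hw2 a b ha hb hab => ?_⟩
  unfold homDensity
  simp only [Kst_id, smul_eq_mul]
  rw [← mul_div_assoc, ← mul_div_assoc, ← add_div]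
  refine div_le_div_of_nonneg_right ?_ (by positivity)
  exact Kst_convex (A := Fin s) (B := Fin t) (fun u v => w s(u, v)) (fun u v => w2 s(u, v))
    (fun _ _ => hw _) (fun _ _ => hw2 _) ha hb hab

end Pool.Agent.Work.MP_d4a230_co.U
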