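import Pool.Agent.Work.MP_d4a230_co.U.CL
import Pool.Agent.Work.MP_d4a230_co.U.TP
import Pool.Agent.Work.MP_d4a230_co.U.Model

-- merged part: Pool.Agent.Work.MP_d4a230_co.U.LF0
section
/-!
Moments of the marked constraints at a component.
PLAN. dt_close: by lab the first term is rate^m times the mean over d of the injective count. The
full count Cnt (D ∘ inl) is the injective count plus a count between 0 and
Cnt (ind (some x ∘ vm l is not injective)) univ (cnt_add, cnt_mono), whose mean over y is at most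
m v^2 / n (cnt_one, ex_comp_inj with vm_inj, ex_not_inj). count_lemma for each of the finitely many
(j, d) (Filter.eventually_all, take the minimum of the γ), dc_beb, root_beb, lam_beb, psi_mk, and
the mean over d of a product is the product of the means (ex_prod_coord). rate is bounded
(R.rate_bd). dt_mean: lab with D = 1, T l = variables outside g, ex_update, cnt_mono, cnt_one; note
that Acd C and (g, j) ∈ C force C.erase (g, j) to avoid the component g.
-/

namespace Pool.Agent.Work.MP_d4a230_co.U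

open Finset Filter Topology Pool.Agent.Work.MP_07f1b5_pr
open scoped BigOperators

variable {α β : Type} [Fintype α] [DecidableEq α] [Fintype β] [DecidableEq β]
  {W : Type} [Fintype W] [DecidableEq W] {H : SimpleGraph W} [DecidableRel H.Adj]
  {ep : β → α × α} {n M : ℕ → ℕ} {τ : ℕ → ℝ}

section det

variable {V G : Type} [Fintype V] [DecidableEq V] [Nonempty V] [Fintype G] [DecidableEq G] {m : ℕ}

lemma LF0_dt (g : G) (s : Fin m → β) (y : G → α → V) :
    DT H ep g s (fun _ => univ) y = DT H ep g s (fun _ => univ.filter fun i => i.1 ≠ g) y := by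
  refine sum_congr rfl fun c _ => congrArg (· * _) (ind_congr (forall_congr' fun l =>
    and_congr_right fun h1 => and_congr_right fun h2 => iff_of_true (subset_univ _) fun i hi => ?_))
  exact mem_filter.2 ⟨mem_univ _, fun e => (mem_erase.1 hi).1 (h1.2.2 (mem_erase.1 hi).2 h2 e)⟩

lemma LF0_psi (s : Fin m → β) (D : (α → V) → ℝ) (w : Fin m → Sym2 V → ℝ) :
    𝔼 z, D z * ∏ l, psi H (w l) (sl ep z (s l)) = 𝔼 d : Fin m → H.Dart,
      Lam (beb H ep s d) (fun x => D fun a => x (Sum.inl a)) fun f => ord (w f.1) := by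
  classical
  simp only [lam_beb, sl, psi_mk]
  rw [expect_comm]
  refine expect_congr rfl fun z _ => ?_
  rw [← mul_expect, ex_prod_coord fun l a => rt H (w l) a (z (ep (s l)).1) (z (ep (s l)).2)]

lemma LF0_bad (hne : ∀ j, (ep j).1 ≠ (ep j).2) (s : Fin m → β) (d : Fin m → H.Dart) :
    𝔼 y : G → α → V, Cnt (beb H ep s d) (sp ep y)
      (fun x => ind (¬ ∀ l, Function.Injective fun u => x (vm H ep s d l u))) (fun _ => univ) ≤
      m * ((Fintype.card W : ℝ) ^ 2 / Fintype.card V) := by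
  refine (cnt_one _ ep hne fun _ => ind_nonneg _).trans ((ex_mono (g := fun x : α ⊕ Fin m × W → V =>
    ∑ l, ind (¬ Set.InjOn (fun u => x (vm H ep s d l u)) (univ : Finset W))) fun x => ?_).trans ?_)
  · refine (ind_mono fun h => ?_).trans (ind_exists_le _ _)
    obtain ⟨l, hl⟩ := not_forall.1 h
    exact ⟨l, mem_univ _, by simpa using hl⟩
  rw [expect_sum_comm]
  refine (sum_le_card_nsmul _ _ _ fun l _ => (ex_comp_inj _ (vm_inj ep s d hne l)
    fun z : W → V => ind (¬ Set.InjOn z (univ : Finset W))).trans_le (ex_not_inj _)).trans_eq ?_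
  simp

lemma LF0_split {VB EB : Type} [Fintype VB] [DecidableEq VB] [Fintype EB] [DecidableEq EB]
    (eb : EB → VB × VB) (q : G × β → Sym2 V) {D : (VB → V) → ℝ} (hD : Unit01 D)
    (P : (VB → V) → Prop) (T : EB → Finset (G × β)) {a e : ℝ} (h : |Cnt eb q D T - a| ≤ e) :
    |Cnt eb q (fun x => D x * ind (P x)) T - a| ≤
      e + Cnt eb q (fun x => ind (¬ P x)) fun _ => univ := by
  have h1 := cnt_add eb q (fun x => D x * ind (P x)) (fun x => D x * ind (¬ P x)) T
  have h2 := cnt_mono eb q (D := fun x => D x * ind (¬ P x)) (D2 := fun x => ind (¬ P x))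
    (fun x => mul_nonneg (hD x).1 (ind_nonneg _))
    (fun x => mul_le_of_le_one_left (ind_nonneg _) (hD x).2) fun f => subset_univ (T f)
  have h3 : (fun x => D x * ind (P x) + D x * ind (¬ P x)) = D := funext fun x => by
    rw [ind_not]
    ring
  rw [h3] at h1
  rw [abs_le] at h ⊢
  constructor <;> linarith only [h, h1, h2, h.1, h.2, h2.1, h2.2]

end det

theorem dt_close (R : Reg H ep n M τ) (m : ℕ) {ε : ℝ} (hε : 0 < ε) : ∃ γ : ℝ, 0 < γ ∧
    ∀ C1 : ℝ, ∀ᶠ j in atTop, ∀ (g : Fin (M j)) (Ω : Type) [Fintype Ω]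
      (D : Ω → (α → Fin (n j)) → ℝ), Real.log (Fintype.card Ω) ≤ C1 * (n j + 1) →
      (∀ ω, Unit01 (D ω)) →
      ∃ err : (Fin (M j) → α → Fin (n j)) → ℝ, (∀ y, 0 ≤ err y) ∧ 𝔼 y, err y ≤ ε ∧
        ∀ y ω (s : Fin m → β) (T : Fin m → Finset (Fin (M j) × β))
          (w : Fin m → Sym2 (Fin (n j)) → ℝ), (∀ l, ∀ i ∈ T l, i.1 ≠ g) → (∀ l, Unit01 (w l)) →
          (∀ l, cut (fun e => den (sp ep y) (T l) e - ord (w l) e) ≤ γ) →
          |τ j ^ m * (𝔼 z, D ω z * DT H ep g s T (Function.update y g z)) -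
            rate H (n j) (M j * Fintype.card β) (τ j) ^ m *
              𝔼 z, D ω z * ∏ l, psi H (w l) (sl ep z (s l))| ≤ err y := by
  obtain ⟨c, c0, hc⟩ := R.rate_bd
  obtain ⟨K, K0, hK⟩ : ∃ K : ℝ, 0 < K ∧ c ^ m * Fintype.card (Fin m → β) ≤ K :=
    ⟨_, by clear * - c m β c0; positivity, le_add_of_nonneg_right zero_le_one⟩
  have hδ : 0 < ε / (2 * K) := by positivity
  choose γ hγ h using fun p : (Fin m → β) × (Fin m → H.Dart) =>
    count_lemma R (beb H ep p.1 p.2) (dc_beb ep p.1 p.2 R.bal R.ne) hδ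
  obtain ⟨γ0, g1, g0⟩ := ((eventually_all.2 fun p => mem_of_superset (Ioc_mem_nhdsGT (hγ p))
    fun x hx => hx.2 : ∀ᶠ x in 𝓝[>] (0 : ℝ), ∀ p, x ≤ γ p).and self_mem_nhdsWithin).exists
  refine ⟨γ0, g0, fun C1 => ?_⟩
  filter_upwards [eventually_all.2 fun p => h p C1, hc, R.pos,
    (RegK_cast R.hn).eventually_ge_atTop (m * (Fintype.card W : ℝ) ^ 2 / (ε / (2 * K)))]
    with j hj hc hp hn g Ω _ D hΩ hD
  have : Nonempty (Fin (n j)) := ⟨⟨0, hp.1⟩⟩
  choose err e0 e1 e2 using fun p : (Fin m → β) × (Fin m → H.Dart) =>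
    hj p Ω (fun ω x => D ω fun a => x (Sum.inl a)) hΩ fun ω => root_beb ep p.1 p.2 (hD ω)
  obtain ⟨F, hF⟩ : ∃ F : (Fin m → β) → (Fin m → H.Dart) → (Fin (M j) → α → Fin (n j)) → ℝ,
      ∀ s d y, F s d y = err (s, d) y + Cnt (beb H ep s d) (sp ep y)
        (fun x => ind (¬ ∀ l, Function.Injective fun u => x (vm H ep s d l u))) fun _ => univ :=
    ⟨_, fun _ _ _ => rfl⟩
  have F0 : ∀ s y, 0 ≤ 𝔼 d, F s d y := fun s y => expect_nonneg fun d _ => hF s d y ▸
    add_nonneg (e0 _ y) (cnt_mono _ _ (fun _ => ind_nonneg _) (fun _ => le_rfl) fun _ => le_rfl).1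
  have F1 : ∀ s d, 𝔼 y, F s d y ≤ ε / K := fun s d => by
    have h1 := LF0_bad (V := Fin (n j)) (G := Fin (M j)) R.ne s d
    have h2 : (0 : ℝ) < n j := by exact_mod_cast hp.1
    rw [Fintype.card_fin, ← mul_div_assoc] at h1
    rw [div_le_iff₀' hδ, ← div_le_iff₀ h2] at hn
    simp only [hF, expect_add_distrib]
    have h3 : ε / K = ε / (2 * K) + ε / (2 * K) := by field_simp; ring
    linarith only [hn, h1, h3, e1 (s, d)]
  refine ⟨fun y => c ^ m * ∑ s, 𝔼 d, F s d y, fun y => mul_nonneg (by positivity)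
    (sum_nonneg fun s _ => F0 s y), ?_, fun y ω s T w hT hw hcut => ?_⟩
  · rw [← mul_expect, expect_sum_comm]
    have h1 : ∑ s, 𝔼 y, 𝔼 d, F s d y ≤ Fintype.card (Fin m → β) * (ε / K) :=
      (sum_le_card_nsmul _ _ _ fun s _ => (expect_comm _ _ _).trans_le
        (ex_le (by positivity) (F1 s))).trans_eq (by rw [nsmul_eq_mul, card_univ])
    refine (mul_le_mul_of_nonneg_left h1 (by positivity)).trans ?_
    rw [← mul_assoc]
    exact (mul_le_mul_of_nonneg_right hK (by positivity)).trans_eq (mul_div_cancel₀ _ K0.ne')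
  rw [lab R.bal ep R.ne g s T hT y (D ω), Fintype.card_fin, Fintype.card_fin, LF0_psi, ← mul_sub,
    ← expect_sub_distrib, abs_mul, abs_of_nonneg (pow_nonneg hc.1 m)]
  refine mul_le_mul (pow_le_pow_left₀ hc.1 hc.2 m) ((ex_abs _).trans ((ex_mono fun d => ?_).trans
    (single_le_sum (fun s _ => F0 s y) (mem_univ s)))) (abs_nonneg _) (by positivity)
  rw [hF]
  exact LF0_split _ _ (fun x => hD ω _) _ _ (e2 (s, d) y ω (fun f => T f.1) (fun f => ord (w f.1))
    (fun f e => hw f.1 _) fun f => (hcut f.1).trans (g1 _))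

theorem dt_mean (R : Reg H ep n M τ) (m : ℕ) : ∀ᶠ j in atTop, ∀ (g : Fin (M j)) (s : Fin m → β),
    τ j ^ m * (𝔼 y : Fin (M j) → α → Fin (n j), DT H ep g s (fun _ => univ) y) ≤
      rate H (n j) (M j * Fintype.card β) (τ j) ^ m := by
  obtain ⟨c, -, hc⟩ := R.rate_bd
  filter_upwards [hc, R.pos] with j hc hp g s
  have : Nonempty (Fin (n j)) := ⟨⟨0, hp.1⟩⟩
  have h := fun y : Fin (M j) → α → Fin (n j) => lab R.bal ep R.ne g s
    (fun _ => univ.filter fun i => i.1 ≠ g) (fun _ i hi => (mem_filter.1 hi).2) y (fun _ => 1) (τ j)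
  simp only [one_mul, Fintype.card_fin] at h
  simp only [LF0_dt]
  rw [ex_update g, mul_expect]
  simp only [h]
  rw [← mul_expect, expect_comm]
  refine mul_le_of_le_one_right (pow_nonneg hc.1 m) (ex_le zero_le_one fun d => ?_)
  exact (ex_mono fun y => (cnt_mono _ _ (fun _ => ind_nonneg _) (fun _ => ind_le_one _)
    fun _ => subset_univ _).2).trans ((cnt_one _ ep R.ne fun _ => zero_le_one).trans
      (ex_le zero_le_one fun _ => le_rfl))

end Pool.Agent.Work.MP_d4a230_co.U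
end

-- merged part: Pool.Agent.Work.MP_d4a230_co.U.LF
section
/-!
Laplace functional of the marked constraints.
PLAN. Let c bound the rate, X = c * b * card S * η0 + c * b + 1, choose m by exp_taylor. Put
a C = τ * mrk C. If Acd C then C has at most one variable in g, so a C ∈ [0, τ ind (Acd ∧ Tch)]
(hypothesis hh). bonf: error es (m+1) a. For every i <= m+1 split the injective tuples in es i into
those that share no component other than g (such tuples are automatically injective as k >= 2) and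
the rest; the rest is at most i^2 times the sum in ov_pair with exponent i-2 (bound the other
factors by XT; for i < 2 the rest is empty). The first part is, by multilinearity
(Finset.prod_univ_sum), the sum over (s, S) : Fin i → β × S of prod η times τ^i DT s (T ∘ S), and
(rate * inten)^i expands in the same way; apply dt_close for each i <= m. For the remainder the first
part is at most the sum over s of τ^(m+1) DT s univ, whose mean is <= (b c)^(m+1) (dt_mean). err y
contains means over z of functions of update y g z; their mean over y is computed by ex_update.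
-/

namespace Pool.Agent.Work.MP_d4a230_co.U

open Finset Filter Topology Pool.Agent.Work.MP_07f1b5_pr
open scoped BigOperators

variable {α β : Type} [Fintype α] [DecidableEq α] [Fintype β] [DecidableEq β]
  {W : Type} [Fintype W] [DecidableEq W] {H : SimpleGraph W} [DecidableRel H.Adj]
  {ep : β → α × α} {n M : ℕ → ℕ} {τ : ℕ → ℝ}

lemma LF_pair {ι X : Type} [Fintype ι] [DecidableEq ι] [Fintype X] [DecidableEq X] {l l2 : ι}
    (h : l ≠ l2) (q : X → X → ℝ) (x : X → ℝ) :
    ∑ c : ι → X, q (c l) (c l2) * ∏ r, x (c r) =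
      (∑ C1, ∑ C2, q C1 C2 * (x C1 * x C2)) * (∑ C, x C) ^ (Fintype.card ι - 2) := by
  let F : X → X → ι → X → ℝ := fun C1 C2 r C =>
    x C * (if r = l then (if C = C1 then 1 else 0) else 1) *
      if r = l2 then (if C = C2 then 1 else 0) else 1
  have e : ∀ c : ι → X, q (c l) (c l2) * ∏ r, x (c r) =
      ∑ C1, ∑ C2, q C1 C2 * ∏ r, F C1 C2 r (c r) := by
    intro c
    simp only [F, prod_mul_distrib, prod_ite_eq', mem_univ, if_true]
    simp only [mul_ite, mul_one, mul_zero, sum_ite_eq, mem_univ, if_true]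
  have e2 : ∀ C1 C2, ∑ c : ι → X, ∏ r, F C1 C2 r (c r) =
      x C1 * x C2 * (∑ C, x C) ^ (Fintype.card ι - 2) := by
    clear * - X ι l l2 h F x
    intro C1 C2
    have h2 : l2 ∈ univ.erase l := mem_erase.2 ⟨h.symm, mem_univ _⟩
    rw [← Fintype.piFinset_univ, ← prod_univ_sum, ← mul_prod_erase _ _ (mem_univ l),
      ← mul_prod_erase _ _ h2, mul_assoc]
    have a1 : ∑ C, F C1 C2 l C = x C1 := by simp [F, h]
    have a2 : ∑ C, F C1 C2 l2 C = x C2 := by simp [F, h.symm]
    have a3 : ∏ r ∈ (univ.erase l).erase l2, ∑ C, F C1 C2 r C =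
        (∑ C, x C) ^ (Fintype.card ι - 2) := by
      rw [prod_congr rfl (g := fun _ => ∑ C, x C), prod_const, card_erase_of_mem h2,
        card_erase_of_mem (mem_univ _), card_univ, Nat.sub_sub]
      intro r hr
      simp [F, (mem_erase.1 hr).1, (mem_erase.1 (mem_erase.1 hr).2).1]
    rw [a1, a2, a3]
  simp only [e]
  rw [sum_comm, sum_mul]
  refine sum_congr rfl fun C1 _ => ?_
  rw [sum_comm, sum_mul]
  refine sum_congr rfl fun C2 _ => ?_
  rw [← mul_sum, e2, mul_assoc (q C1 C2)]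

lemma LF_all {ι : Type} [Fintype ι] (q : ι → Prop) : ind (∀ l, q l) = ∏ l, ind (q l) := by
  by_cases h : ∀ l, q l
  · rw [ind_pos h]
    exact (prod_eq_one fun l _ => ind_pos (h l)).symm
  · rw [ind_neg h]
    obtain ⟨l, hl⟩ := not_forall.1 h
    rw [prod_eq_zero (mem_univ l) (ind_neg hl)]

section det

variable {G V : Type} [Fintype G] [DecidableEq G] [Fintype V] [DecidableEq V]

/-- Sum over tuples that share no component other than `g`. -/
noncomputable def LF_P (g : G) (m : ℕ) (a : Finset (G × β) → ℝ) : ℝ :=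
  ∑ c : Fin m → Finset (G × β),
    ind (∀ l l', l ≠ l' → ∀ i ∈ c l, ∀ i' ∈ c l', i.1 = i'.1 → i.1 = g) * ∏ l, a (c l)

variable (H ep) in
/-- The overlap sum. -/
noncomputable def LF_O (t : ℝ) (g : G) (m : ℕ) (y : G → α → V) : ℝ :=
  ∑ C1 : Finset (G × β), ∑ C2 : Finset (G × β), t ^ 2 *
    ind (Acd H (sp ep y) Prod.fst C1 ∧ Acd H (sp ep y) Prod.fst C2 ∧ Tch g C1 ∧ Tch g C2 ∧
      C1 ≠ C2 ∧ ∃ i ∈ C1, ∃ i2 ∈ C2, i.1 = i2.1 ∧ i.1 ≠ g) * XT H t ep g y ^ m

lemma LF_O_nonneg {t : ℝ} (ht : 0 ≤ t) (g : G) (m : ℕ) (y : G → α → V) :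
    0 ≤ LF_O H ep t g m y :=
  sum_nonneg fun _ _ => sum_nonneg fun _ _ => mul_nonneg (mul_nonneg (sq_nonneg _) (ind_nonneg _))
    (pow_nonneg (sum_nonneg fun _ _ => mul_nonneg ht (ind_nonneg _)) _)

lemma LF_es (hk : 2 ≤ H.edgeFinset.card) {t : ℝ} (ht : 0 ≤ t) (g : G) (y : G → α → V)
    {a : Finset (G × β) → ℝ} (h0 : ∀ C, 0 ≤ a C)
    (h1 : ∀ C, a C ≤ t * ind (Acd H (sp ep y) Prod.fst C ∧ Tch g C)) (m : ℕ) :
    |es m a - LF_P g m a / m.factorial| ≤ (m : ℝ) ^ 2 * LF_O H ep t g (m - 2) y := by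
  let q : Finset (G × β) → Finset (G × β) → ℝ := fun C1 C2 =>
    ind (C1 ≠ C2 ∧ ∃ i ∈ C1, ∃ i2 ∈ C2, i.1 = i2.1 ∧ i.1 ≠ g)
  let x : Finset (G × β) → ℝ := fun C => t * ind (Acd H (sp ep y) Prod.fst C ∧ Tch g C)
  have hx : ∀ C, 0 ≤ x C := fun C => mul_nonneg ht (ind_nonneg _)
  have key : ∀ c : Fin m → Finset (G × β), |ind (Function.Injective c) * ∏ l, a (c l) -
      ind (∀ l l', l ≠ l' → ∀ i ∈ c l, ∀ i' ∈ c l', i.1 = i'.1 → i.1 = g) * ∏ l, a (c l)| ≤
      ∑ p ∈ (univ : Finset (Fin m)).offDiag, q (c p.1) (c p.2) * ∏ r, x (c r) := by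
    clear * - m G β q x g hx a h0 t V W H α ep y h1 hk
    intro c
    have hq : ∀ p : Fin m × Fin m, 0 ≤ q (c p.1) (c p.2) * ∏ r, x (c r) := fun p =>
      mul_nonneg (ind_nonneg _) (prod_nonneg fun _ _ => hx _)
    have hp : 0 ≤ ∏ l, a (c l) := prod_nonneg fun _ _ => h0 _
    by_cases hs : ∀ l l', l ≠ l' → ∀ i ∈ c l, ∀ i' ∈ c l', i.1 = i'.1 → i.1 = g
    · by_cases hi : Function.Injective c
      · rw [ind_pos hs, ind_pos hi, sub_self, abs_zero]
        exact sum_nonneg fun p _ => hq p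
      · obtain ⟨l, l2, e, hl⟩ := Function.not_injective_iff.1 hi
        have hz : a (c l) = 0 := by
          refine le_antisymm ((h1 _).trans (le_of_eq ?_)) (h0 _)
          rw [ind_neg, mul_zero]
          rintro ⟨⟨-, c1, c2⟩, -⟩
          obtain ⟨u, hu, v, hv, huv⟩ := one_lt_card.1 (show 1 < (c l).card by omega)
          exact huv (c2 hu hv ((hs l l2 hl u hu u (e ▸ hu) rfl).trans
            (hs l l2 hl v hv v (e ▸ hv) rfl).symm))
        rw [prod_eq_zero (mem_univ l) hz, mul_zero, mul_zero, sub_self, abs_zero]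
        exact sum_nonneg fun p _ => hq p
    · rw [ind_neg hs, zero_mul, sub_zero]
      by_cases hi : Function.Injective c
      · push Not at hs
        obtain ⟨l, l2, hl, i, hi1, i2, hi2, e, hg⟩ := hs
        rw [ind_pos hi, one_mul, abs_of_nonneg hp]
        refine le_trans ?_ (single_le_sum (fun p _ => hq p)
          (show (l, l2) ∈ (univ : Finset (Fin m)).offDiag from
            mem_offDiag.2 ⟨mem_univ _, mem_univ _, hl⟩))
        have : q (c l) (c l2) = 1 := ind_pos ⟨fun h => hl (hi h), i, hi1, i2, hi2, e, hg⟩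
        rw [this, one_mul]
        exact prod_le_prod (fun _ _ => h0 _) fun _ _ => h1 _
      · rw [ind_neg hi, zero_mul, abs_zero]
        exact sum_nonneg fun p _ => hq p
  have eO : (∑ C1, ∑ C2, q C1 C2 * (x C1 * x C2)) * (∑ C, x C) ^ (m - 2) =
      LF_O H ep t g (m - 2) y := by
    unfold LF_O
    rw [sum_mul]
    refine sum_congr rfl fun C1 _ => ?_
    rw [sum_mul]
    refine sum_congr rfl fun C2 _ => ?_
    simp only [q, x, XT, ind_and]
    ring
  have hO := LF_O_nonneg (H := H) (ep := ep) ht g (m - 2) y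
  have hf : (1 : ℝ) ≤ m.factorial := by exact_mod_cast Nat.factorial_pos m
  unfold es LF_P
  rw [← sub_div, abs_div, abs_of_pos (by linarith : (0 : ℝ) < m.factorial), ← sum_sub_distrib]
  refine (div_le_self (abs_nonneg _) hf).trans ((abs_sum_le_sum_abs _ _).trans
    ((sum_le_sum fun c _ => key c).trans ?_))
  rw [sum_comm, sum_congr rfl (g := fun _ => LF_O H ep t g (m - 2) y), sum_const, nsmul_eq_mul]
  · refine mul_le_mul_of_nonneg_right ?_ hO
    have : (univ : Finset (Fin m)).offDiag.card ≤ m ^ 2 := by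
      rw [offDiag_card, card_univ, Fintype.card_fin, sq]
      omega
    exact_mod_cast this
  · intro p hp
    rw [LF_pair (mem_offDiag.1 hp).2.2, Fintype.card_fin, eO]

lemma LF_exp {S : Type} [Fintype S] (t : ℝ) (g : G) (η : β → S → ℝ) (T : S → Finset (G × β))
    (y : G → α → V) (m : ℕ) :
    LF_P g m (fun C => t * mrk H ep g η T y C) = ∑ p : Fin m → β × S, (∏ l, η (p l).1 (p l).2) *
      (t ^ m * DT H ep g (fun l => (p l).1) (fun l => T (p l).2) y) := by
  have e : ∀ C, mrk H ep g η T y C = ∑ u : β × S, η u.1 u.2 *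
      ind (Acd H (sp ep y) Prod.fst C ∧ (g, u.1) ∈ C ∧ C.erase (g, u.1) ⊆ T u.2) := by
    intro C
    unfold mrk
    rw [Fintype.sum_prod_type]
    simp only [mul_sum, ind_and]
    exact sum_congr rfl fun _ _ => sum_congr rfl fun _ _ => by ring
  unfold LF_P DT
  simp only [e, mul_sum]
  rw [sum_comm]
  refine sum_congr rfl fun c _ => ?_
  rw [prod_univ_sum, Fintype.piFinset_univ, mul_sum]
  refine sum_congr rfl fun p _ => ?_
  rw [LF_all (fun l => Acd H (sp ep y) Prod.fst (c l) ∧ (g, (p l).1) ∈ c l ∧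
    (c l).erase (g, (p l).1) ⊆ T (p l).2), prod_mul_distrib, prod_mul_distrib, prod_const,
    card_univ, Fintype.card_fin]
  ring

lemma LF_mrk {S : Type} [Fintype S] (g : G) {η : β → S → ℝ} {T : S → Finset (G × β)}
    (hh : ∀ b (C : Finset (G × β)), 0 ≤ ∑ s, η b s * ind (C ⊆ T s) ∧
      ∑ s, η b s * ind (C ⊆ T s) ≤ 1) (y : G → α → V) (C : Finset (G × β)) :
    0 ≤ mrk H ep g η T y C ∧
      mrk H ep g η T y C ≤ mrk H ep g (fun _ (_ : Unit) => 1) (fun _ => univ) y C ∧
      mrk H ep g η T y C ≤ ind (Acd H (sp ep y) Prod.fst C ∧ Tch g C) := by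
  have h1 : mrk H ep g η T y C ≤ ind (Acd H (sp ep y) Prod.fst C) * ∑ j, ind ((g, j) ∈ C) :=
    mul_le_mul_of_nonneg_left
      (sum_le_sum fun j _ => mul_le_of_le_one_right (ind_nonneg _) (hh _ _).2) (ind_nonneg _)
  refine ⟨mul_nonneg (ind_nonneg _) (sum_nonneg fun j _ => mul_nonneg (ind_nonneg _) (hh _ _).1),
    h1.trans (le_of_eq ?_), h1.trans ?_⟩
  · unfold mrk
    simp [ind_pos trivial]
  · by_cases hA : Acd H (sp ep y) Prod.fst C
    · by_cases hT : Tch g C
      · obtain ⟨j, hj⟩ := hT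
        rw [ind_pos hA, ind_pos ⟨hA, j, hj⟩, one_mul, sum_eq_single j, ind_pos hj]
        · exact fun b _ hb => ind_neg fun h => hb (congrArg Prod.snd (hA.2.2 h hj rfl))
        · exact fun h => absurd (mem_univ j) h
      · rw [sum_eq_zero fun j _ => ind_neg fun h => hT ⟨j, h⟩, mul_zero]
        exact ind_nonneg _
    · rw [ind_neg hA, zero_mul]
      exact ind_nonneg _

variable (H ep) in
/-- The remainder term. -/
noncomputable def LF_R (t δ : ℝ) (g : G) (m : ℕ) (y : G → α → V) : ℝ :=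
  ∑ i ∈ range (m + 2), (i : ℝ) ^ 2 * LF_O H ep t g (i - 2) y +
    (∑ p : Fin (m + 1) → β × Unit, t ^ (m + 1) * DT H ep g (fun l => (p l).1) (fun _ => univ) y) /
      (m + 1).factorial + δ

lemma LF_det {S : Type} [Fintype S] (hk : 2 ≤ H.edgeFinset.card) {t : ℝ} (ht : 0 ≤ t) (t1 : t ≤ 1)
    (g : G) {η : β → S → ℝ} {T : S → Finset (G × β)}
    (hh : ∀ b (C : Finset (G × β)), 0 ≤ ∑ s, η b s * ind (C ⊆ T s) ∧
      ∑ s, η b s * ind (C ⊆ T s) ≤ 1) (y : G → α → V) (m : ℕ) {x δ : ℝ}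
    (hx : |Real.exp (-x) - ∑ i ∈ range (m + 1), (-1) ^ i * (x ^ i / i.factorial)| ≤ δ) :
    |∏ C, (1 - t * mrk H ep g η T y C) - Real.exp (-x) - ∑ i ∈ range (m + 1), (-1) ^ i /
      i.factorial * (LF_P g i (fun C => t * mrk H ep g η T y C) - x ^ i)| ≤ LF_R H ep t δ g m y := by
  set a : Finset (G × β) → ℝ := fun C => t * mrk H ep g η T y C with ha
  have h0 : ∀ C, 0 ≤ a C := fun C => mul_nonneg ht (LF_mrk g hh y C).1
  have h1 : ∀ C, a C ≤ t * ind (Acd H (sp ep y) Prod.fst C ∧ Tch g C) := fun C =>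
    mul_le_mul_of_nonneg_left (LF_mrk g hh y C).2.2 ht
  have hb := bonf a (fun C => ⟨h0 C, (h1 C).trans
    ((mul_le_of_le_one_right ht (ind_le_one _)).trans t1)⟩) m
  have h2 := LF_es hk ht g y h0 h1
  have h3 : |∑ i ∈ range (m + 1), (-1) ^ i * (es i a - LF_P g i a / i.factorial)| ≤
      ∑ i ∈ range (m + 1), (i : ℝ) ^ 2 * LF_O H ep t g (i - 2) y :=
    (abs_sum_le_sum_abs _ _).trans (sum_le_sum fun i _ => by
      rw [abs_mul, abs_neg_one_pow, one_mul]
      exact h2 i)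
  have h4 : LF_P g (m + 1) a ≤ ∑ p : Fin (m + 1) → β × Unit,
      t ^ (m + 1) * DT H ep g (fun l => (p l).1) (fun _ => univ) y := by
    have := LF_exp (H := H) (ep := ep) t g (fun _ (_ : Unit) => 1) (fun _ => univ) y (m + 1)
    simp only [prod_const_one, one_mul] at this
    rw [← this]
    exact sum_le_sum fun c _ => mul_le_mul_of_nonneg_left (prod_le_prod (fun _ _ => h0 _)
      fun _ _ => mul_le_mul_of_nonneg_left (LF_mrk g hh y _).2.1 ht) (ind_nonneg _)
  have h5 := div_le_div_of_nonneg_right h4 (Nat.cast_nonneg (α := ℝ) (m + 1).factorial)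
  have h6 := (abs_le.1 (h2 (m + 1))).2
  have e : ∑ i ∈ range (m + 1), (-1) ^ i / i.factorial * (LF_P g i a - x ^ i) =
      ∑ i ∈ range (m + 1), (-1) ^ i * es i a -
        ∑ i ∈ range (m + 1), (-1) ^ i * (es i a - LF_P g i a / i.factorial) -
        ∑ i ∈ range (m + 1), (-1) ^ i * (x ^ i / i.factorial) := by
    rw [← sum_sub_distrib, ← sum_sub_distrib]
    exact sum_congr rfl fun i _ => by ring
  unfold LF_R
  rw [e, sum_range_succ _ (m + 1)]
  rw [abs_le] at hb hx h3 ⊢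
  constructor <;> linarith only [hx, hb, h3, h5, h6, hb.1, hb.2, hx.1, hx.2, h3.1, h3.2]

lemma LF_R_nonneg {t δ : ℝ} (ht : 0 ≤ t) (hδ : 0 ≤ δ) (g : G) (m : ℕ) (y : G → α → V) :
    0 ≤ LF_R H ep t δ g m y :=
  add_nonneg (add_nonneg (sum_nonneg fun _ _ => mul_nonneg (sq_nonneg _) (LF_O_nonneg ht g _ y))
    (div_nonneg (sum_nonneg fun _ _ => mul_nonneg (pow_nonneg ht _) (sum_nonneg fun _ _ =>
      mul_nonneg (ind_nonneg _) (ind_nonneg _))) (Nat.cast_nonneg _))) hδ

lemma LF_mom {S : Type} [Fintype S] {t ρ η0 e : ℝ} (g : G) {η : β → S → ℝ}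
    {T : S → Finset (G × β)} {w : S → Sym2 V → ℝ} (hη : ∀ b s, |η b s| ≤ η0) (y : G → α → V)
    (D : (α → V) → ℝ) (m : ℕ)
    (h : ∀ p : Fin m → β × S, |t ^ m * (𝔼 z, D z * DT H ep g (fun l => (p l).1)
      (fun l => T (p l).2) (Function.update y g z)) -
        ρ ^ m * 𝔼 z, D z * ∏ l, psi H (w (p l).2) (sl ep z (p l).1)| ≤ e) :
    |𝔼 z, D z * (LF_P g m (fun C => t * mrk H ep g η T (Function.update y g z) C) -
      (ρ * inten H ep η w z) ^ m)| ≤ (Fintype.card (β × S) * |η0|) ^ m * e := by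
  have e1 : ∀ z : α → V, D z * (LF_P g m (fun C => t * mrk H ep g η T (Function.update y g z) C) -
      (ρ * inten H ep η w z) ^ m) = ∑ p : Fin m → β × S, (∏ l, η (p l).1 (p l).2) *
        (t ^ m * (D z * DT H ep g (fun l => (p l).1) (fun l => T (p l).2) (Function.update y g z)) -
          ρ ^ m * (D z * ∏ l, psi H (w (p l).2) (sl ep z (p l).1))) := by
    intro z
    unfold inten
    rw [LF_exp, mul_pow, ← Fintype.sum_prod_type' (fun j s => η j s * psi H (w s) (sl ep z j)),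
      Fintype.sum_pow, mul_sum, ← sum_sub_distrib, mul_sum]
    refine sum_congr rfl fun p _ => ?_
    rw [prod_mul_distrib]
    ring
  simp only [e1]
  rw [expect_sum_comm]
  refine (abs_sum_le_sum_abs _ _).trans ((sum_le_sum (g := fun _ => |η0| ^ m * e)
    fun p _ => ?_).trans (le_of_eq ?_))
  · rw [← mul_expect, expect_sub_distrib, ← mul_expect, ← mul_expect, abs_mul, abs_prod]
    refine mul_le_mul ?_ (h p) (abs_nonneg _) (pow_nonneg (abs_nonneg _) _)
    refine (prod_le_prod (fun _ _ => abs_nonneg _) fun l _ =>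
      (hη _ _).trans (le_abs_self η0)).trans (le_of_eq ?_)
    rw [prod_const, card_univ, Fintype.card_fin]
  · rw [sum_const, card_univ, Fintype.card_fun, Fintype.card_fin, nsmul_eq_mul, mul_pow, mul_assoc,
      Nat.cast_pow]

lemma LF_int {S : Type} [Fintype S] {η0 : ℝ} {η : β → S → ℝ} {w : S → Sym2 V → ℝ}
    (hη : ∀ b s, |η b s| ≤ η0) (hw : ∀ s, Unit01 (w s)) (z : α → V) :
    |inten H ep η w z| ≤ Fintype.card (β × S) * |η0| := by
  unfold inten
  rw [← Fintype.sum_prod_type' (fun j s => η j s * psi H (w s) (sl ep z j))]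
  refine (abs_sum_le_sum_abs _ _).trans ((sum_le_sum (g := fun _ => |η0|)
    fun p _ => ?_).trans (le_of_eq ?_))
  · have := psi_unit H (hw p.2) (sl ep z p.1)
    rw [abs_mul, abs_of_nonneg this.1]
    exact (mul_le_of_le_one_right (abs_nonneg _) this.2).trans ((hη _ _).trans (le_abs_self _))
  · rw [sum_const, card_univ, nsmul_eq_mul]

end det

theorem lf (R : Reg H ep n M τ) (S : Type) [Fintype S] (η0 : ℝ) {ε : ℝ} (hε : 0 < ε) :
    ∃ γ : ℝ, 0 < γ ∧ ∀ C1 : ℝ, ∀ᶠ j in atTop, ∀ (g : Fin (M j)) (Ω : Type) [Fintype Ω]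
      (D : Ω → (α → Fin (n j)) → ℝ), Real.log (Fintype.card Ω) ≤ C1 * (n j + 1) →
      (∀ ω, Unit01 (D ω)) →
      ∃ err : (Fin (M j) → α → Fin (n j)) → ℝ, (∀ y, 0 ≤ err y) ∧ 𝔼 y, err y ≤ ε ∧
        ∀ y ω (η : β → S → ℝ) (T : S → Finset (Fin (M j) × β)) (w : S → Sym2 (Fin (n j)) → ℝ),
          (∀ b s, |η b s| ≤ η0) →
          (∀ b (C : Finset (Fin (M j) × β)), 0 ≤ ∑ s, η b s * ind (C ⊆ T s) ∧
            ∑ s, η b s * ind (C ⊆ T s) ≤ 1) →
          (∀ s, ∀ i ∈ T s, i.1 ≠ g) → (∀ s, Unit01 (w s)) →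
          (∀ s, cut (fun e => den (sp ep y) (T s) e - ord (w s) e) ≤ γ) →
          |𝔼 z, D ω z * (∏ C, (1 - τ j * mrk H ep g η T (Function.update y g z) C) -
            Real.exp (-(rate H (n j) (M j * Fintype.card β) (τ j) * inten H ep η w z)))| ≤
            err y := by
  obtain ⟨c, hc, hr⟩ := R.rate_bd
  have hk : 2 ≤ H.edgeFinset.card := by
    have := R.bal.h3
    have := R.bal.hk
    omega
  set K : ℝ := Fintype.card (β × S) * |η0| with hK
  set b : ℝ := (Fintype.card (β × Unit) : ℝ) with hb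
  have hK0 : 0 ≤ K := by positivity
  have hb0 : 0 ≤ b := by positivity
  have hδ : 0 < ε / 4 := by positivity
  obtain ⟨m, hm1, hm2⟩ := (exp_taylor (c * K + c * b) hδ).exists
  set B1 : ℝ := ∑ i ∈ range (m + 1), K ^ i with hB1
  set B2 : ℝ := ∑ i ∈ range (m + 2), (i : ℝ) ^ 2 with hB2
  have p1 : 0 ≤ B1 := sum_nonneg fun _ _ => pow_nonneg hK0 _
  have p2 : 0 ≤ B2 := sum_nonneg fun _ _ => sq_nonneg _
  have sm : ∀ B : ℝ, 0 ≤ B → B * (ε / 4 / (B + 1)) ≤ ε / 4 := fun B hB => by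
    rw [← mul_div_assoc, div_le_iff₀ (by linarith only [hB])]
    nlinarith only [hε]
  choose γ hγ hcl using fun i => dt_close R i (show 0 < ε / 4 / (B1 + 1) by positivity)
  obtain ⟨i0, -, hi0⟩ := exists_min_image (range (m + 1)) γ ⟨0, mem_range.2 m.succ_pos⟩
  refine ⟨γ i0, hγ i0, fun C1 => ?_⟩
  filter_upwards [hr, R.t01, dt_mean R (m + 1),
    (eventually_all_finset (range (m + 1))).2 fun i _ => hcl i C1,
    (eventually_all_finset (range (m + 2))).2 fun i _ =>
      ov_pair R (i - 2) (show 0 < ε / 4 / (B2 + 1) by positivity)] with j hρ ht hmean hc1 hov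
  intro g Ω _ D hΩ hD
  set ρ := rate H (n j) (M j * Fintype.card β) (τ j) with hρd
  choose! er he0 he1 he2 using fun i hi => hc1 i hi g Ω D hΩ hD
  refine ⟨fun y => ∑ i ∈ range (m + 1), K ^ i * er i y +
    𝔼 z, LF_R H ep (τ j) (ε / 4) g m (Function.update y g z), fun y => add_nonneg
      (sum_nonneg fun i hi => mul_nonneg (pow_nonneg hK0 _) (he0 i hi y))
      (expect_nonneg fun z _ => LF_R_nonneg ht.1 hδ.le g m _), ?_, ?_⟩
  · rw [expect_add_distrib, ← ex_update g (LF_R H ep (τ j) (ε / 4) g m), expect_sum_comm]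
    unfold LF_R
    rw [expect_add_distrib, expect_add_distrib, expect_sum_comm, ← expect_div, expect_sum_comm]
    have a1 : ∑ i ∈ range (m + 1), 𝔼 y, K ^ i * er i y ≤ B1 * (ε / 4 / (B1 + 1)) := by
      rw [hB1, sum_mul]
      refine sum_le_sum fun i hi => ?_
      rw [← mul_expect]
      exact mul_le_mul_of_nonneg_left (he1 i hi) (pow_nonneg hK0 _)
    have a2 : ∑ i ∈ range (m + 2), 𝔼 y : Fin (M j) → α → Fin (n j),
        (i : ℝ) ^ 2 * LF_O H ep (τ j) g (i - 2) y ≤ B2 * (ε / 4 / (B2 + 1)) := by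
      rw [hB2, sum_mul]
      refine sum_le_sum fun i hi => ?_
      rw [← mul_expect]
      exact mul_le_mul_of_nonneg_left (hov i hi g) (sq_nonneg _)
    have a3 : ∑ p : Fin (m + 1) → β × Unit, 𝔼 y : Fin (M j) → α → Fin (n j),
        τ j ^ (m + 1) * DT H ep g (fun l => (p l).1) (fun _ => univ) y ≤
        (c * K + c * b) ^ (m + 1) := by
      refine (sum_le_sum (g := fun _ => c ^ (m + 1)) fun p _ => ?_).trans ?_
      · rw [← mul_expect]
        exact (hmean g _).trans (pow_le_pow_left₀ hρ.1 hρ.2 _)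
      · rw [sum_const, card_univ, Fintype.card_fun, Fintype.card_fin, nsmul_eq_mul, Nat.cast_pow,
          ← mul_pow, mul_comm]
        exact pow_le_pow_left₀ (mul_nonneg hc hb0) (le_add_of_nonneg_left (mul_nonneg hc hK0)) _
    have a4 := (div_le_div_of_nonneg_right a3 (Nat.cast_nonneg (α := ℝ) (m + 1).factorial)).trans
      hm1
    have a5 : 𝔼 _y : Fin (M j) → α → Fin (n j), ε / 4 ≤ ε / 4 := ex_le hδ.le fun _ => le_rfl
    linarith only [a1, a2, a4, a5, p1, p2, sm B1 p1, sm B2 p2]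
  · intro y ω η T w hη hh hT hw hcut
    let Q : ℕ → (α → Fin (n j)) → ℝ := fun i z =>
      LF_P g i (fun C => τ j * mrk H ep g η T (Function.update y g z) C) -
        (ρ * inten H ep η w z) ^ i
    let A : (α → Fin (n j)) → ℝ := fun z =>
      ∏ C, (1 - τ j * mrk H ep g η T (Function.update y g z) C) -
        Real.exp (-(ρ * inten H ep η w z))
    have e : ∀ z, D ω z * A z = ∑ i ∈ range (m + 1), (-1) ^ i / i.factorial * (D ω z * Q i z) +
        D ω z * (A z - ∑ i ∈ range (m + 1), (-1) ^ i / i.factorial * Q i z) := by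
      intro z
      rw [mul_sub _ (A z), mul_sum]
      simp only [mul_left_comm (D ω z)]
      ring
    show |𝔼 z, D ω z * A z| ≤ _
    simp only [e]
    rw [expect_add_distrib, expect_sum_comm]
    refine (abs_add_le _ _).trans (add_le_add ((abs_sum_le_sum_abs _ _).trans
      (sum_le_sum fun i hi => ?_)) ((ex_abs _).trans (ex_mono fun z => ?_)))
    · have hf : (1 : ℝ) ≤ i.factorial := by exact_mod_cast Nat.factorial_pos i
      rw [← mul_expect, abs_mul, abs_div, abs_neg_one_pow, abs_of_pos (by linarith only [hf])]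
      refine (mul_le_of_le_one_left (abs_nonneg _) ((div_le_one (by linarith only [hf])).2 hf)).trans ?_
      exact LF_mom g hη y (D ω) i fun p => he2 i hi y ω _ _ _ (fun l => hT _) (fun l => hw _)
        fun l => (hcut _).trans (hi0 i hi)
    · rw [abs_mul, abs_of_nonneg (hD ω z).1]
      refine (mul_le_of_le_one_left (abs_nonneg _) (hD ω z).2).trans
        (LF_det hk ht.1 ht.2 g hh _ m (hm2 _ ?_))
      rw [abs_mul, abs_of_nonneg hρ.1]
      exact (mul_le_mul hρ.2 (LF_int hη hw z) (abs_nonneg _) hc).trans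
        (le_add_of_nonneg_right (mul_nonneg hc hb0))

end Pool.Agent.Work.MP_d4a230_co.U
end

-- merged part: Pool.Agent.Work.MP_d4a230_co.U.FreeL
section
/-!
Local form of the free move lemma.
PLAN. i0 = (g, b0), ρ the rate, c its bound, zeta <= Z := exp (c 2^r). tpm with F = F1 - F2,
G = 1 + 2 Z. For σ : Fin (r+j) → sets with U (σ l) ≠ 0 (so i0 ∉ σ l): J b = replicas containing
(g,b), J b0 = ∅, J2 = update J b0 (image of castAdd), T = cav g σ, w S = wl m ep y l (T S). marks_xi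
gives the F1 term, marks (t = 1) the F2 term; if l g = false then wl m ep (update y g z) l (S.inf σ)
does not depend on z and equals wl m ep y l of the part outside g. inten (coef J2) = inten (coef J)
+ the sum in zeta (reindex subsets of the image of castAdd by Finset.map), so
exp (-ρ inten J2) = zeta * exp (-ρ inten J). If all w S are γ-close use lf twice: Ω = Unit, D = 1
with J2; Ω = β × (Finset (Fin r) → CI), D = zeta / Z with J. The rate ρ is fixed once j is fixed.
Otherwise the difference is at most 1 + Z; use outer. The mean of 2 ind (l g = false) is 1.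
-/

namespace Pool.Agent.Work.MP_d4a230_co.U

open Finset Filter Topology Pool.Agent.Work.MP_07f1b5_pr
open scoped BigOperators

variable {α β : Type} [Fintype α] [DecidableEq α] [Fintype β] [DecidableEq β]
  {W : Type} [Fintype W] [DecidableEq W] {H : SimpleGraph W} [DecidableRel H.Adj]
  {ep : β → α × α} {n M : ℕ → ℕ} {τ : ℕ → ℝ}

section aux

variable {V G : Type} [Fintype V] [DecidableEq V] [Fintype G] [DecidableEq G]

lemma FreeL_zeta {θ ρ c : ℝ} (h0 : 0 ≤ θ) (h1 : θ < 1) (hρ : 0 ≤ ρ) (hc : ρ ≤ c) {r : ℕ}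
    {w : Finset (Fin r) → Sym2 V → ℝ} (hw : ∀ S, Unit01 (w S)) (p : Sym2 V) :
    0 ≤ zeta H θ ρ w p ∧ zeta H θ ρ w p ≤ Real.exp (c * 2 ^ r) := by
  refine ⟨(Real.exp_pos _).le, Real.exp_le_exp.2 ?_⟩
  have h2 : |∑ S : Finset (Fin r), ind S.Nonempty * (-1) ^ (S.card + 1) * θ ^ S.card *
      psi H (w S) p| ≤ 2 ^ r := by
    refine (abs_sum_le_sum_abs _ _).trans ((sum_le_sum (g := fun _ => (1 : ℝ)) fun S _ => ?_).trans
      (by simp))
    rw [abs_mul, abs_mul, abs_mul, abs_pow, abs_neg, abs_one, one_pow, mul_one,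
      abs_of_nonneg (ind_nonneg _), abs_of_nonneg (pow_nonneg h0 _),
      abs_of_nonneg (psi_unit H (hw S) p).1]
    exact mul_le_one₀ (mul_le_one₀ (ind_le_one _) (pow_nonneg h0 _) (pow_le_one₀ h0 h1.le))
      (psi_unit H (hw S) p).1 (psi_unit H (hw S) p).2
  have h3 := mul_le_mul_of_nonneg_left (neg_le_of_abs_le h2) hρ
  have h4 := mul_le_mul_of_nonneg_right hc (by positivity : (0 : ℝ) ≤ 2 ^ r)
  linarith

lemma FreeL_inten (θ : ℝ) {r j : ℕ} (J : β → Finset (Fin (r + j))) (b0 : β) (hJ : J b0 = ∅)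
    (w : Finset (Fin (r + j)) → Sym2 V → ℝ) (z : α → V) :
    inten H ep (coef θ 1 (Function.update J b0 (univ.map (Fin.castAddEmb j)))) w z =
      inten H ep (coef θ 1 J) w z + ∑ S : Finset (Fin r), ind S.Nonempty * (-1) ^ (S.card + 1) *
        θ ^ S.card * psi H (w (S.map (Fin.castAddEmb j))) (sl ep z b0) := by
  unfold inten
  rw [← add_sum_erase univ _ (mem_univ b0), ← add_sum_erase univ _ (mem_univ b0)]
  have h1 : ∑ S, coef θ 1 J b0 S * psi H (w S) (sl ep z b0) = 0 :=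
    sum_eq_zero fun S _ => by
      unfold coef
      rw [hJ, ind_neg (fun h => h.1.ne_empty (subset_empty.1 h.2))]
      ring
  have h2 : ∑ b ∈ univ.erase b0, ∑ S, coef θ 1 (Function.update J b0
      (univ.map (Fin.castAddEmb j))) b S * psi H (w S) (sl ep z b) =
      ∑ b ∈ univ.erase b0, ∑ S, coef θ 1 J b S * psi H (w S) (sl ep z b) :=
    sum_congr rfl fun b hb => by
      unfold coef
      rw [Function.update_of_ne (ne_of_mem_erase hb)]
  have h3 : ∑ S : Finset (Fin r), ind S.Nonempty * (-1) ^ (S.card + 1) *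
      θ ^ S.card * psi H (w (S.map (Fin.castAddEmb j))) (sl ep z b0) =
      ∑ S, coef θ 1 (Function.update J b0 (univ.map (Fin.castAddEmb j))) b0 S *
        psi H (w S) (sl ep z b0) := by
    refine Fintype.sum_of_injective (fun S => S.map (Fin.castAddEmb j)) (Finset.map_injective _) _ _
      (fun S hS => ?_) fun S => ?_
    · unfold coef
      rw [Function.update_self, ind_neg]
      · ring
      · rintro ⟨-, h⟩
        obtain ⟨u, -, rfl⟩ := subset_map_iff.1 h
        exact hS ⟨u, rfl⟩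
    · unfold coef
      rw [Function.update_self, card_map, one_mul,
        ind_congr (and_iff_left (map_subset_map.2 (subset_univ S))), ind_congr map_nonempty]
  rw [h1, h2, h3]
  ring

lemma FreeL_wl (m : ℕ) (y : G → α → V) (g : G) (z : α → V) {l : G → Bool} (hl : l g = false)
    {r j : ℕ} (σ : Fin (r + j) → Finset (G × β)) (S : Finset (Fin r)) :
    wl m ep (Function.update y g z) l (S.inf fun l => σ (Fin.castAdd j l)) =
      wl m ep y l (cav g σ (S.map (Fin.castAddEmb j))) := by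
  have h0 : ∀ i ∈ lay β l true, i.1 ≠ g := fun i hi h => by
    have := (mem_filter.1 hi).2
    rw [h, hl] at this
    exact Bool.false_ne_true this
  have h1 : (S.inf fun l => σ (Fin.castAdd j l)) ∩ lay β l true =
      cav g σ (S.map (Fin.castAddEmb j)) ∩ lay β l true := by
    ext i
    unfold cav
    rw [inf_map, mem_inter, mem_inter, mem_filter]
    exact ⟨fun h => ⟨⟨h.1, h0 i h.2⟩, h.2⟩, fun h => ⟨h.1.1, h.2⟩⟩
  unfold wl
  rw [h1, den_congr (q := sp ep (Function.update y g z)) (q2 := sp ep y) fun i hi => by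
    unfold sp
    rw [Function.update_of_ne (h0 i (mem_inter.1 hi).2)]]

lemma FreeL_half (g : G) : 𝔼 l : G → Bool, 2 * ind (l g = false) = 1 := by
  rw [ex_update g]
  have : ∀ l : G → Bool, 𝔼 a : Bool, 2 * ind (Function.update l g a g = false) = 1 := fun l => by
    simp only [Function.update_self, Fintype.expect_eq_sum_div_card, Fintype.sum_bool,
      Fintype.card_bool]
    rw [ind_pos trivial, ind_neg (by simp)]
    norm_num
  simp only [this]
  exact Fintype.expect_const _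

lemma FreeL_pr {θ : ℝ} (h0 : 0 ≤ θ) (h1 : θ < 1) {X κ : Type} [Fintype κ] (a : Finset X)
    (q : κ → X → Prop) : 0 ≤ ∏ l, ∏ C ∈ a, (1 - θ * ind (q l C)) ∧
      ∏ l, ∏ C ∈ a, (1 - θ * ind (q l C)) ≤ 1 :=
  have h : ∀ l, 0 ≤ ∏ C ∈ a, (1 - θ * ind (q l C)) := fun _ =>
    prod_nonneg fun _ _ => (Gib_fac h0 h1 _).1.le
  ⟨prod_nonneg fun l _ => h l, prod_le_one (fun l _ => h l) fun _ _ =>
    prod_le_one (fun _ _ => (Gib_fac h0 h1 _).1.le) fun _ _ => (Gib_fac h0 h1 _).2⟩

variable (H ep) in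
/-- The weights used in the local lemma. -/
noncomputable def FreeL_D (θ ρ Z : ℝ) (m r : ℕ) (b0 : β)
    (ω : Bool × (Finset (Fin r) → CI V m)) (z : α → V) : ℝ :=
  if ω.1 then 1 else zeta H θ ρ (fun S => ck m (ω.2 S)) (sl ep z b0) / Z

lemma FreeL_det [Nonempty V] {θ t ρ c γ e1 e3 : ℝ} (h0 : 0 ≤ θ) (h1 : θ < 1) (t0 : 0 ≤ t)
    (t1 : t ≤ 1) (hρ : 0 ≤ ρ) (hc : ρ ≤ c) (he : 0 ≤ e1) (m : ℕ) (g : G) (b0 : β) {r j : ℕ}
    (σ : Fin (r + j) → Finset (G × β)) (hσ : ∀ l, (g, b0) ∉ σ l) (y : G → α → V)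
    (hlf : ∀ ω (J : β → Finset (Fin (r + j))) (w : Finset (Fin (r + j)) → Sym2 V → ℝ),
      (∀ s, Unit01 (w s)) → (∀ s, cut (fun e => den (sp ep y) (cav g σ s) e - ord (w s) e) ≤ γ) →
      |𝔼 z, FreeL_D H ep θ ρ (Real.exp (c * 2 ^ r)) m r b0 ω z *
        (∏ C, (1 - t * mrk H ep g (coef θ 1 J) (cav g σ) (Function.update y g z) C) -
          Real.exp (-(ρ * inten H ep (coef θ 1 J) w z)))| ≤ e1)
    (ho : ∀ T, 𝔼 l : G → Bool,
      ind (γ < cut fun e => den (sp ep y) T e - ord (wl m ep y l T) e) ≤ e3) :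
    |𝔼 z, E t fun a => (∏ l : Fin r, Xi H θ ep (g, b0) (Function.update y g z) a
        (σ (Fin.castAdd j l)) - 𝔼 l : G → Bool, 2 * ind (l g = false) *
          zeta H θ ρ (fun S => wl m ep (Function.update y g z) l
            (S.inf fun l => σ (Fin.castAdd j l))) (sp ep (Function.update y g z) (g, b0))) *
        ∏ l, awg H θ ep g (Function.update y g z) a (σ l)| ≤
      2 * (1 + Real.exp (c * 2 ^ r)) * (e1 + 2 ^ (r + j) * e3) := by
  obtain ⟨Z, hZ⟩ : ∃ Z, Z = Real.exp (c * 2 ^ r) := ⟨_, rfl⟩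
  have hZ0 : 0 < Z := hZ ▸ Real.exp_pos _
  rw [← hZ] at hlf ⊢
  obtain ⟨P2, hP2⟩ : ∃ P : (α → V) → ℝ, ∀ z, P z = E t fun a =>
      (∏ l : Fin r, Xi H θ ep (g, b0) (Function.update y g z) a (σ (Fin.castAdd j l))) *
        ∏ l, awg H θ ep g (Function.update y g z) a (σ l) := ⟨_, fun _ => rfl⟩
  obtain ⟨P1, hP1⟩ : ∃ P : (α → V) → ℝ, ∀ z, P z = E t fun a =>
      ∏ l, awg H θ ep g (Function.update y g z) a (σ l) := ⟨_, fun _ => rfl⟩
  obtain ⟨ζ, hζ⟩ : ∃ ζ : (G → Bool) → (α → V) → ℝ, ∀ l z, ζ l z = zeta H θ ρ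
      (fun S => wl m ep y l (cav g σ (S.map (Fin.castAddEmb j)))) (sl ep z b0) :=
    ⟨_, fun _ _ => rfl⟩
  have b1 : ∀ z, 0 ≤ P1 z ∧ P1 z ≤ 1 := fun z => by
    rw [hP1]
    exact ⟨E_nonneg t0 t1 fun a => (FreeL_pr h0 h1 a _).1,
      E_le_one t0 t1 fun a => (FreeL_pr h0 h1 a _).2⟩
  have b2 : ∀ z, 0 ≤ P2 z ∧ P2 z ≤ 1 := fun z => by
    rw [hP2]
    exact ⟨E_nonneg t0 t1 fun a => mul_nonneg (FreeL_pr h0 h1 a _).1 (FreeL_pr h0 h1 a _).1,
      E_le_one t0 t1 fun a => mul_le_one₀ (FreeL_pr h0 h1 a _).2 (FreeL_pr h0 h1 a _).1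
        (FreeL_pr h0 h1 a _).2⟩
  have b3 : ∀ l z, 0 ≤ ζ l z ∧ ζ l z ≤ Z := fun l z => by
    rw [hζ, hZ]
    exact FreeL_zeta h0 h1 hρ hc (fun S => ck_unit m _) _
  have e1' : ∀ z, (E t fun a => (∏ l : Fin r, Xi H θ ep (g, b0) (Function.update y g z) a
        (σ (Fin.castAdd j l)) - 𝔼 l : G → Bool, 2 * ind (l g = false) *
          zeta H θ ρ (fun S => wl m ep (Function.update y g z) l
            (S.inf fun l => σ (Fin.castAdd j l))) (sp ep (Function.update y g z) (g, b0))) *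
        ∏ l, awg H θ ep g (Function.update y g z) a (σ l)) =
      𝔼 l : G → Bool, 2 * ind (l g = false) * (P2 z - ζ l z * P1 z) := fun z => by
    have h2 : 𝔼 l : G → Bool, 2 * ind (l g = false) *
          zeta H θ ρ (fun S => wl m ep (Function.update y g z) l
            (S.inf fun l => σ (Fin.castAdd j l))) (sp ep (Function.update y g z) (g, b0)) =
        𝔼 l : G → Bool, 2 * ind (l g = false) * ζ l z := expect_congr rfl fun l _ => by
      by_cases hl : l g = false
      · rw [hζ]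
        simp only [FreeL_wl m y g z hl]
        unfold sp
        rw [Function.update_self]
      · rw [ind_neg hl]
        ring
    rw [h2]
    simp only [sub_mul, mul_sub, ← mul_assoc]
    rw [E_sub, E_const_mul, ← hP1, ← hP2, expect_sub_distrib, ← expect_mul, ← expect_mul,
      FreeL_half, one_mul]
  have key : ∀ l : G → Bool, |𝔼 z, (P2 z - ζ l z * P1 z)| ≤ (1 + Z) * (e1 +
      ∑ S, ind (γ < cut fun e => den (sp ep y) (cav g σ S) e -
        ord (wl m ep y l (cav g σ S)) e)) := fun l => by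
    clear * - α V P2 ζ l P1 Z e1 r j γ G β ep y g σ m b0 hσ W H θ ρ t hlf hP2 hP1 hζ hZ0 b3 b1 b2
      he c
    by_cases h : ∀ S, cut (fun e => den (sp ep y) (cav g σ S) e -
        ord (wl m ep y l (cav g σ S)) e) ≤ γ
    · obtain ⟨J, hJ⟩ : ∃ J : β → Finset (Fin (r + j)),
          J = fun b => univ.filter fun l => (g, b) ∈ σ l := ⟨_, rfl⟩
      have hJ0 : J b0 = ∅ := by
        rw [hJ]
        exact filter_eq_empty_iff.2 fun l _ => hσ l
      obtain ⟨ω, hω⟩ : ∃ ω : Finset (Fin r) → CI V m, ∀ S,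
          ck m (ω S) = wl m ep y l (cav g σ (S.map (Fin.castAddEmb j))) := ⟨_, fun _ => rfl⟩
      have k2 := hlf (true, ω) (Function.update J b0 (univ.map (Fin.castAddEmb j)))
        (fun S => wl m ep y l (cav g σ S)) (fun S => ck_unit m _) h
      have k1 := hlf (false, ω) J (fun S => wl m ep y l (cav g σ S)) (fun S => ck_unit m _) h
      have m2 : ∀ z, P2 z = ∏ C, (1 - t * mrk H ep g (coef θ 1 (Function.update J b0
          (univ.map (Fin.castAddEmb j)))) (cav g σ) (Function.update y g z) C) := fun z => by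
        rw [hP2, hJ, marks_xi θ t ep g b0 σ hσ]
      have m1 : ∀ z, P1 z = ∏ C, (1 - t * mrk H ep g (coef θ 1 J) (cav g σ)
          (Function.update y g z) C) := fun z => by
        rw [hP1, hJ, ← marks θ 1 t ep g σ, one_mul]
      simp only [← m2, FreeL_D, if_true, one_mul] at k2
      simp only [← m1, FreeL_D, Bool.false_eq_true, if_false, hω, ← hζ] at k1
      have m3 : 𝔼 z, (P2 z - ζ l z * P1 z) = (𝔼 z, (P2 z - Real.exp (-(ρ * inten H ep (coef θ 1
          (Function.update J b0 (univ.map (Fin.castAddEmb j))))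
            (fun S => wl m ep y l (cav g σ S)) z)))) - Z * 𝔼 z, ζ l z / Z * (P1 z -
              Real.exp (-(ρ * inten H ep (coef θ 1 J) (fun S => wl m ep y l (cav g σ S)) z))) := by
        rw [mul_expect, ← expect_sub_distrib]
        refine expect_congr rfl fun z _ => ?_
        rw [FreeL_inten θ J b0 hJ0, mul_add, neg_add, Real.exp_add]
        have : ζ l z = Real.exp (-(ρ * ∑ S : Finset (Fin r), ind S.Nonempty * (-1) ^ (S.card + 1) *
          θ ^ S.card * psi H (wl m ep y l (cav g σ (S.map (Fin.castAddEmb j)))) (sl ep z b0))) :=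
          hζ l z
        rw [← this]
        field_simp
        ring
      rw [m3]
      refine (abs_sub _ _).trans ?_
      rw [abs_mul, abs_of_pos hZ0]
      have h5 := mul_le_mul_of_nonneg_left k1 hZ0.le
      have h6 : 0 ≤ (1 + Z) * ∑ S, ind (γ < cut fun e => den (sp ep y) (cav g σ S) e -
        ord (wl m ep y l (cav g σ S)) e) :=
        mul_nonneg (by linarith only [hZ0]) (sum_nonneg fun _ _ => ind_nonneg _)
      linarith only [k2, h5, h6]
    · obtain ⟨S, hS⟩ := not_forall.1 h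
      have h5 := single_le_sum (f := fun S => ind (γ < cut fun e => den (sp ep y) (cav g σ S) e -
        ord (wl m ep y l (cav g σ S)) e)) (fun _ _ => ind_nonneg _) (mem_univ S)
      rw [ind_pos (not_le.1 hS)] at h5
      refine (ex_abs _).trans ((ex_le (c := 1 + Z) (by linarith) fun z => ?_).trans
        (le_mul_of_one_le_right (by linarith) (by linarith)))
      have h6 := mul_nonneg (b3 l z).1 (b1 z).1
      have h7 := mul_le_of_le_one_right (b3 l z).1 (b1 z).2
      exact abs_le.2 ⟨by linarith [(b2 z).1, (b3 l z).2], by linarith [(b2 z).2]⟩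
  simp only [e1']
  rw [expect_comm]
  simp only [← mul_expect]
  refine (ex_abs _).trans ((ex_mono (g := fun l => 2 * ((1 + Z) * (e1 +
      ∑ S, ind (γ < cut fun e => den (sp ep y) (cav g σ S) e -
        ord (wl m ep y l (cav g σ S)) e)))) fun l => ?_).trans ?_)
  · rw [abs_mul, abs_of_nonneg (mul_nonneg zero_le_two (ind_nonneg _))]
    exact mul_le_mul (by linarith [ind_le_one (l g = false)]) (key l) (abs_nonneg _) zero_le_two
  · rw [← mul_expect, ← mul_expect, expect_add_distrib, Fintype.expect_const, expect_sum_comm,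
      mul_assoc]
    refine mul_le_mul_of_nonneg_left (mul_le_mul_of_nonneg_left (add_le_add le_rfl ?_)
      (by linarith)) zero_le_two
    refine (sum_le_sum fun S _ => ho (cav g σ S)).trans (le_of_eq ?_)
    simp

end aux

lemma FreeL_one (R : Reg H ep n M τ) (r k : ℕ) {θ ε : ℝ} (h0 : 0 ≤ θ) (h1 : θ < 1) (hε : 0 < ε) :
    ∀ᶠ m in atTop, ∀ᶠ j in atTop, ∀ (g : Fin (M j)) (b0 : β),
      ∃ err : (Fin (M j) → α → Fin (n j)) → ℝ, (∀ y, 0 ≤ err y) ∧ 𝔼 y, err y ≤ ε ∧
        ∀ (y : Fin (M j) → α → Fin (n j)) (σ : Fin (r + k) → Finset (Fin (M j) × β)),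
          (∀ l, (g, b0) ∉ σ l) →
          |𝔼 z, E (τ j) fun a => (∏ l : Fin r, Xi H θ ep (g, b0) (Function.update y g z) a
            (σ (Fin.castAdd k l)) - 𝔼 l : Fin (M j) → Bool, 2 * ind (l g = false) *
              zeta H θ (rate H (n j) (M j * Fintype.card β) (τ j))
                (fun S => wl m ep (Function.update y g z) l (S.inf fun l => σ (Fin.castAdd k l)))
                (sp ep (Function.update y g z) (g, b0))) *
            ∏ l, awg H θ ep g (Function.update y g z) a (σ l)| ≤ err y := by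
  obtain ⟨c, -, hc⟩ := R.rate_bd
  obtain ⟨B, hB⟩ : ∃ B, B = 2 * (1 + Real.exp (c * 2 ^ r)) := ⟨_, rfl⟩
  have hB0 : 0 < B := by rw [hB]; positivity
  obtain ⟨γ, hγ, hlf⟩ := lf R (Finset (Fin (r + k))) 1 (ε := ε / (2 * B)) (by positivity)
  filter_upwards [outer R hγ] with m hm
  filter_upwards [hm (ε / (2 * B * 2 ^ (r + k))) (by positivity), hlf (2 ^ r * (4 * m ^ 2 + 3)), hc,
    R.t01, R.pos] with j ho hl hρ ht hp g b0
  have : Nonempty (Fin (n j)) := ⟨⟨0, hp.1⟩⟩
  obtain ⟨e3, h30, h31, h32⟩ := ho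
  obtain ⟨e1, h10, h11, h12⟩ := hl g (Bool × (Finset (Fin r) → CI (Fin (n j)) m))
    (FreeL_D H ep θ (rate H (n j) (M j * Fintype.card β) (τ j)) (Real.exp (c * 2 ^ r)) m r b0)
    (by
      clear * - n j m r
      have h2 := card_CI (V := Fin (n j)) m
      have h3 : (1 : ℝ) ≤ Fintype.card (CI (Fin (n j)) m) := Nat.one_le_cast.2 Fintype.card_pos
      rw [Fintype.card_fin] at h2
      rw [Fintype.card_prod, Fintype.card_bool, Fintype.card_fun, Fintype.card_finset,
        Fintype.card_fin]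
      push_cast
      have h4 : (2 : ℝ) * (Fintype.card (CI (Fin (n j)) m) : ℝ) ^ 2 ^ r ≤
          (2 * (Fintype.card (CI (Fin (n j)) m) : ℝ)) ^ 2 ^ r := by
        rw [mul_pow]
        exact mul_le_mul_of_nonneg_right (le_self_pow₀ one_le_two (by positivity)) (by positivity)
      refine (Real.log_le_log (by positivity) h4).trans ?_
      rw [Real.log_pow, mul_assoc]
      push_cast
      exact mul_le_mul_of_nonneg_left h2 (by positivity))
    (fun ω z => by
      unfold FreeL_D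
      split_ifs
      · exact ⟨zero_le_one, le_rfl⟩
      · have := FreeL_zeta (H := H) h0 h1 hρ.1 hρ.2 (fun S => ck_unit m (ω.2 S)) (sl ep z b0)
        exact ⟨div_nonneg this.1 (Real.exp_pos _).le,
          div_le_one_of_le₀ this.2 (Real.exp_pos _).le⟩)
  refine ⟨fun y => B * (e1 y + 2 ^ (r + k) * e3 y),
    fun y => mul_nonneg hB0.le (add_nonneg (h10 y) (mul_nonneg (by positivity) (h30 y))), ?_,
    fun y σ hσ => ?_⟩
  · rw [← mul_expect, expect_add_distrib, ← mul_expect]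
    have h4 := mul_le_mul_of_nonneg_left h31 (by positivity : (0 : ℝ) ≤ 2 ^ (r + k))
    refine (mul_le_mul_of_nonneg_left (add_le_add h11 h4) hB0.le).trans (le_of_eq ?_)
    field_simp
    ring
  · rw [hB]
    refine FreeL_det h0 h1 ht.1 ht.2 hρ.1 hρ.2 (h10 y) m g b0 σ hσ y (fun ω J w hw hcut => ?_)
      (h32 y)
    refine h12 y ω _ _ w (coef_abs h0 h1 zero_le_one le_rfl J) (fun b C => ?_)
      (fun s i hi => (mem_filter.1 hi).2) hw hcut
    have := coef_sum h0 h1 zero_le_one le_rfl J g σ b C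
    exact ⟨this.1, this.2.trans (sub_le_self _ (pow_nonneg (by linarith only [h1]) _))⟩

theorem free_loc (R : Reg H ep n M τ) (r : ℕ) {lam θ ε : ℝ} (hl : 0 ≤ lam)
    (h0 : 0 ≤ θ) (h1 : θ < 1) (hε : 0 < ε) : ∀ᶠ m in atTop, ∀ᶠ j in atTop,
    ∀ (U : Finset (Fin (M j) × β) → ℝ) (i0 : Fin (M j) × β), Good lam U →
      (∀ σ, i0 ∈ σ → U σ = 0) →
      |EG H θ (τ j) ep U r (fun (y : Fin (M j) → α → Fin (n j)) act σ =>
          ∏ l, Xi H θ ep i0 y act (σ l)) -
        EG H θ (τ j) ep U r fun (y : Fin (M j) → α → Fin (n j)) _ σ =>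
          𝔼 l : Fin (M j) → Bool, 2 * ind (l i0.1 = false) *
            zeta H θ (rate H (n j) (M j * Fintype.card β) (τ j))
              (fun S => wl m ep y l (S.inf σ)) (sp ep y i0)| ≤ ε := by
  obtain ⟨c, -, hc⟩ := R.rate_bd
  obtain ⟨B, hB⟩ : ∃ B, B = 1 + 2 * Real.exp (c * 2 ^ r) := ⟨_, rfl⟩
  have hB0 : 0 < B := by rw [hB]; positivity
  obtain ⟨d, A, hA, ht⟩ := tpm (H := H) ep r hl h0 h1 (ε := ε / (2 * B)) (by positivity)
  have h2 := eventually_all.2 fun k : Fin (d + 1) =>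
    FreeL_one R r k h0 h1 (ε := ε / (2 * (A + 1) * (d + 1))) (by positivity)
  filter_upwards [h2] with m hm
  filter_upwards [eventually_all.2 hm, hc, R.t01, R.pos] with j hj hρ h01 hp U i0 hU hi
  have : Nonempty (Fin (n j)) := ⟨⟨0, hp.1⟩⟩
  obtain ⟨g, b0⟩ := i0
  choose err e0 e1 e2 using fun k => hj k g b0
  rw [← EG_sub]
  refine (ht (n j) (M j) (τ j) g U _ (fun _ _ => B) (fun y => ∑ k, err k y) h01.1 h01.2 hU
    (fun y => sum_nonneg fun k _ => e0 k y) (fun y a σ => ?_) (fun y a a2 h => ?_)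
    fun y k hk σ hσ => ?_).trans ?_
  · have h3 := FreeL_pr h0 h1 a fun l C =>
      Acd H (sp ep y) Prod.fst C ∧ (g, b0) ∈ C ∧ C.erase (g, b0) ⊆ σ l
    have h4 : ∀ l : Fin (M j) → Bool, |2 * ind (l g = false) *
        zeta H θ (rate H (n j) (M j * Fintype.card β) (τ j)) (fun S => wl m ep y l (S.inf σ))
          (sp ep y (g, b0))| ≤ 2 * Real.exp (c * 2 ^ r) := fun l => by
      have := FreeL_zeta (H := H) h0 h1 hρ.1 hρ.2 (w := fun S => wl m ep y l (S.inf σ))
        (fun S => ck_unit m _) (sp ep y (g, b0))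
      rw [abs_of_nonneg (mul_nonneg (mul_nonneg zero_le_two (ind_nonneg _)) this.1)]
      exact mul_le_mul (by linarith only [ind_le_one (l g = false)]) this.2 this.1 zero_le_two
    rw [hB]
    exact (abs_sub _ _).trans (add_le_add (abs_le.2 ⟨neg_one_lt_zero.le.trans h3.1, h3.2⟩)
      ((ex_abs _).trans (ex_le (by positivity) h4)))
  · classical
    funext σ
    congr 1
    refine prod_congr rfl fun l _ => ?_
    have h3 : ∀ a, Xi H θ ep (g, b0) y a (σ l) = Xi H θ ep (g, b0) y (a.filter (Tch g)) (σ l) :=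
      fun a => (prod_filter_of_ne fun C _ hC => by
        by_contra h4
        exact hC (by rw [ind_neg fun h5 => h4 ⟨b0, h5.2.1⟩, mul_zero, sub_zero])).symm
    rw [h3 a, h3 a2]
    congr 1
    ext C
    rw [mem_filter, mem_filter]
    exact ⟨fun h4 => ⟨(h C h4.2).1 h4.1, h4.2⟩, fun h4 => ⟨(h C h4.2).2 h4.1, h4.2⟩⟩
  · exact (e2 ⟨k, Nat.lt_succ_of_le hk⟩ y σ fun l h => hσ l (hi _ h)).trans
      (single_le_sum (f := fun k => err k y) (fun k _ => e0 k y) (mem_univ _))
  · simp only [E_const]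
    rw [Fintype.expect_const, expect_sum_comm]
    have h3 : ∑ k, 𝔼 y, err k y ≤ ε / (2 * (A + 1)) := by
      refine (sum_le_sum fun k _ => e1 k).trans (le_of_eq ?_)
      rw [sum_const, card_univ, Fintype.card_fin, nsmul_eq_mul]
      push_cast
      field_simp
    have h4 := mul_le_mul (le_add_of_nonneg_right zero_le_one : A ≤ A + 1) h3
      (sum_nonneg fun k _ => expect_nonneg fun y _ => e0 k y) (by positivity)
    have h5 : (A + 1) * (ε / (2 * (A + 1))) = ε / 2 := by field_simp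
    have h6 : ε / (2 * B) * B = ε / 2 := by field_simp
    linarith only [h4, h5, h6]

end Pool.Agent.Work.MP_d4a230_co.U
end

-- merged part: Pool.Agent.Work.MP_d4a230_co.U.Free
section
/-!
Moving free variables into the slots of a pattern.
PLAN. Big pattern epS ep, R2 : Reg H (epS ep) n M τ by R.change (simple if ep is). For on ⊆ G × (β ⊕ β)
let P on be the set of present variables: slots (inl) in on and pool variables (inr) not in on.
Φ u = Ex (fun _ => u) (fun on => FE (fug * ind (σ ⊆ P on))). Φ 1 = FE ep, Φ 0 = FE (epM β) by Ex_one,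
Ex_zero, fe_sub. russo gives the derivative; by log_var each term is, up to sign, the mean of
log (1 + lam x), x = the one-replica Gibbs average of Xi i in the system without i, so
|Φ'| <= 2 N log (1 + lam) on [0,1]. For u ∈ [η, 1-η]: Ex_erase (and its mirror for the pool) rewrites
the terms as Ex of ind (i absent) / (1-u) (or / u) times the mean of log (1 + lam x); poly_approx on
[0,1], x^r = gib r of the product (gib_prod), free_loc for each r <= d with a common m. It remains to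
bound, for fixed on and r, EG of the mean over l of Y (y, l, ω) = sum over absent slots i of
2 ind (l i.1 = false) ζ_ω (sp y i) / (1-u) minus the same over absent pool variables / u, where
ω : Finset (Fin r) → CI: pseudo (for the two fixed sets of variables, den_ord, ξ = ord ζ_ω) reduces it
to mean ζ_ω times the difference of the normalised cardinalities, which is small in mean over l
(lay_close with abs_ex_le_cut, ex_den) and over on (Ex_abs_lin). Mean value inequality on the three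
intervals (Convex.norm_image_sub_le_of_norm_hasDerivWithin_le).
-/

namespace Pool.Agent.Work.MP_d4a230_co.U

open Finset Filter Topology Pool.Agent.Work.MP_07f1b5_pr
open scoped BigOperators

variable {α β : Type} [Fintype α] [DecidableEq α] [Fintype β] [DecidableEq β]
  {W : Type} [Fintype W] [DecidableEq W] {H : SimpleGraph W} [DecidableRel H.Adj]
  {ep : β → α × α} {n M : ℕ → ℕ} {τ : ℕ → ℝ}

lemma Free_ie {I : Type} [DecidableEq I] (i : I) (ω : Finset I) :
    insert i (ω.erase i) = insert i ω := by grind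

lemma Free_mvt {Φ D : ℝ → ℝ} (hd : ∀ u, HasDerivAt Φ (D u) u) {η A B : ℝ} (h0 : 0 < η)
    (h2 : η ≤ 1 / 2) (hA : ∀ u ∈ Set.Icc (0 : ℝ) 1, |D u| ≤ A)
    (hB : ∀ u ∈ Set.Icc η (1 - η), |D u| ≤ B) : |Φ 1 - Φ 0| ≤ 2 * η * A + B := by
  have key : ∀ a b c : ℝ, a ≤ b → (∀ u ∈ Set.Icc a b, |D u| ≤ c) → |Φ b - Φ a| ≤ c * (b - a) :=
    fun a b c hab h => by
      have := (convex_Icc a b).norm_image_sub_le_of_norm_hasDerivWithin_le (f := Φ) (f' := D)
        (fun x _ => (hd x).hasDerivWithinAt) h (Set.left_mem_Icc.2 hab) (Set.right_mem_Icc.2 hab)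
      rwa [Real.norm_eq_abs, Real.norm_eq_abs, abs_of_nonneg (sub_nonneg.2 hab)] at this
  have k1 := key 0 η A h0.le fun u hu => hA u ⟨hu.1, by linarith [hu.2]⟩
  have k2 := key η (1 - η) B (by linarith) hB
  have k3 := key (1 - η) 1 A (by linarith) fun u hu => hA u ⟨by linarith [hu.1], hu.2⟩
  have hB0 : 0 ≤ B := (abs_nonneg _).trans (hB (1 / 2) ⟨h2, by linarith⟩)
  have t1 := abs_sub_le (Φ 1) (Φ (1 - η)) (Φ 0)
  have t2 := abs_sub_le (Φ (1 - η)) (Φ η) (Φ 0)
  nlinarith only [k1, k2, k3, t1, t2, hB0, h0, mul_nonneg hB0 h0.le]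

/-- The interpolation between two complementary sets of the same size. -/
lemma Free_abs {I : Type} [Fintype I] [DecidableEq I] (f : Finset I → ℝ) {A B : Finset I}
    (hAB : ∀ i, i ∈ A ↔ i ∉ B) (hc : A.card = B.card) {η L e K : ℝ} (h0 : 0 < η)
    (h2 : η ≤ 1 / 2) (hK : 0 ≤ K) (hL : ∀ ω i, i ∉ ω → |f (insert i ω) - f ω| ≤ L)
    (hP : ∀ ω (a : I → ℝ), (∀ i, |a i| ≤ 1 / η) → (∀ i ∈ ω, a i = 0) →
      |∑ i, a i * (f (insert i ω) - f ω)| ≤ e + K * |∑ i, a i|) :
    |f A - f B| ≤ 2 * η * (Fintype.card I * L) + (e + K * (Real.sqrt (Fintype.card I) / η)) := by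
  set q : I → ℝ := fun i => ind (i ∈ A) - ind (i ∈ B) with hq
  set p : ℝ → I → ℝ := fun u i => ind (i ∈ B) + u * q i with hp
  have hpq : ∀ u i, (p u i = u ∧ q i = 1) ∨ (p u i = 1 - u ∧ q i = -1) := fun u i => by
    by_cases h : i ∈ B
    · right
      simp only [hp, hq, ind_pos h, ind_neg fun x => (hAB i).1 x h]
      constructor <;> ring
    · left
      simp only [hp, hq, ind_neg h, ind_pos ((hAB i).2 h)]
      constructor <;> ring
  have hq1 : ∀ i, |q i| = 1 := fun i => by rcases hpq 0 i with h | h <;> simp [h.2]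
  have hq0 : ∑ i, q i = 0 := by simp only [hq, sum_sub_distrib, P1_sum_mem, hc, sub_self]
  have hadm : ∀ u ∈ Set.Icc (0 : ℝ) 1, Adm (p u) := fun u hu i => by
    rcases hpq u i with h | h <;> rw [h.1] <;> constructor <;> linarith only [hu.1, hu.2]
  have hd := fun u => russo (fun i => ind (i ∈ B)) q (fun _ => f) (fun _ => 0) u
    fun ω => hasDerivAt_const u (f ω)
  simp only [Ex_const, add_zero] at hd
  have key := Free_mvt hd h0 h2 (A := Fintype.card I * L)
    (B := e + K * (Real.sqrt (Fintype.card I) / η)) (fun u hu => ?_) fun u hu => ?_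
  · have e1 : (fun i => ind (i ∈ B) + 1 * q i) = fun i => ind (i ∈ A) := by
      funext i; simp only [hq]; ring
    have e0 : (fun i => ind (i ∈ B) + 0 * q i) = fun i => ind (i ∈ B) := by
      funext i; ring
    rwa [e1, e0, Ex_det, Ex_det] at key
  · refine (abs_sum_le_sum_abs _ _).trans ?_
    rw [← card_univ, ← nsmul_eq_mul]
    refine sum_le_card_nsmul _ _ _ fun i _ => ?_
    rw [abs_mul, hq1, one_mul]
    refine (Ex_abs (hadm u hu) _).trans ((Ex_mono (hadm u hu) fun ω => ?_).trans_eq (Ex_const _ L))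
    have := hL (ω.erase i) i (notMem_erase i ω)
    rwa [Free_ie] at this
  · have hu1 : u ∈ Set.Icc (0 : ℝ) 1 := ⟨by linarith only [h0, hu.1], by linarith [hu.2]⟩
    have hge : ∀ i, η ≤ 1 - p u i := fun i => by
      rcases hpq u i with h | h <;> rw [h.1] <;> linarith only [hu.1, hu.2]
    have hpos : ∀ i, 0 < 1 - p u i := fun i => h0.trans_le (hge i)
    set c : I → ℝ := fun i => q i / (1 - p u i) with hcd
    have hc1 : ∀ i, |c i| ≤ 1 / η := fun i => by
      rw [hcd, abs_div, hq1, abs_of_pos (hpos i)]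
      exact one_div_le_one_div_of_le h0 (hge i)
    have e1 : ∑ i, q i * (Ex (p u) fun ω => f (insert i ω) - f (ω.erase i)) =
        Ex (p u) fun ω => ∑ i, c i * ind (i ∉ ω) * (f (insert i ω) - f ω) := by
      rw [Ex_sum]
      refine sum_congr rfl fun i _ => ?_
      have := Ex_erase (p u) i fun ω => f (insert i ω) - f ω
      simp only [Free_ie] at this
      simp only [mul_assoc, Ex_const_mul, ← this, hcd]
      field_simp [(hpos i).ne']
    have e2 : ∀ ω : Finset I, |∑ i, c i * ind (i ∉ ω)| = |∑ i, c i * (ind (i ∈ ω) - p u i)| :=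
      fun ω => by
        rw [← abs_neg, ← zero_add (-_), ← hq0, ← sum_neg_distrib, ← sum_add_distrib]
        congr 1
        refine sum_congr rfl fun i _ => ?_
        rw [ind_not, hcd]
        field_simp [(hpos i).ne']
        ring
    have e3 : Real.sqrt (∑ i, c i ^ 2) ≤ Real.sqrt (Fintype.card I) / η := by
      rw [← Real.sqrt_sq h0.le, ← Real.sqrt_div (Nat.cast_nonneg _)]
      refine Real.sqrt_le_sqrt ?_
      rw [← card_univ, div_eq_mul_one_div, ← nsmul_eq_mul]
      refine sum_le_card_nsmul _ _ _ fun i _ => ?_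
      rw [← sq_abs, ← one_pow 2, ← div_pow]
      exact pow_le_pow_left₀ (abs_nonneg _) (hc1 i) 2
    refine (congrArg abs e1).trans_le ((Ex_abs (hadm u hu1) _).trans
      ((Ex_mono (hadm u hu1) fun ω => hP ω (fun i => c i * ind (i ∉ ω)) (fun i => ?_)
        fun i hi => ?_).trans ?_))
    · rw [abs_mul, abs_of_nonneg (ind_nonneg _)]
      exact (mul_le_of_le_one_right (abs_nonneg _) (ind_le_one _)).trans (hc1 i)
    · rw [ind_neg (not_not.2 hi), mul_zero]
    · simp only [Ex_add, Ex_const, Ex_const_mul, e2]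
      have := (Ex_abs_lin (hadm u hu1) c).trans e3
      gcongr

section fin

variable {G V : Type} [Fintype G] [DecidableEq G] [Fintype V] [DecidableEq V]

lemma Free_aw (θ : ℝ) (i : G × β) (y : G → α → V) (act : Finset (Finset (G × β)))
    {σ : Finset (G × β)} (h : i ∉ σ) : aw H θ (sp ep y) Prod.fst act (insert i σ) =
      aw H θ (sp ep y) Prod.fst act σ * Xi H θ ep i y act σ := by
  unfold aw Xi
  rw [← prod_mul_distrib]
  refine prod_congr rfl fun C _ => ?_
  by_cases hi : i ∈ C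
  · rw [ind_neg (q := _ ∧ C ⊆ σ) fun x => h (x.2 hi), mul_zero, sub_zero, one_mul,
      ind_congr (r := _ ∧ i ∈ C ∧ C.erase i ⊆ σ)
        (and_congr_right fun _ => by rw [subset_insert_iff, and_iff_right hi])]
  · rw [ind_neg (q := _ ∧ i ∈ C ∧ _) fun x => hi x.2.1, mul_zero, sub_zero, mul_one,
      subset_insert_iff_of_notMem hi]

lemma Free_Xi {θ : ℝ} (h0 : 0 ≤ θ) (h1 : θ < 1) (i : G × β) (y : G → α → V)
    (act : Finset (Finset (G × β))) (σ : Finset (G × β)) :
    0 ≤ Xi H θ ep i y act σ ∧ Xi H θ ep i y act σ ≤ 1 :=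
  ⟨prod_nonneg fun _ _ => (Gib_fac h0 h1 _).1.le,
    prod_le_one (fun _ _ => (Gib_fac h0 h1 _).1.le) fun _ _ => (Gib_fac h0 h1 _).2⟩

/-- The weight with the variables in `on` present. -/
noncomputable def Free_U (lam : ℝ) (on σ : Finset (G × β)) : ℝ := fug lam σ * ind (σ ⊆ on)

lemma Free_EE {τ c : ℝ} (t0 : 0 ≤ τ) (t1 : τ ≤ 1) (hc : 0 ≤ c)
    {F : (G → α → V) → Finset (Finset (G × β)) → ℝ} (h : ∀ y a, |F y a| ≤ c) :
    |𝔼 y, E τ (F y)| ≤ c :=
  (ex_abs _).trans (ex_le hc fun y =>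
    (abs_E_le t0 t1 _).trans ((E_mono t0 t1 (h y)).trans_eq (E_const c)))

lemma Free_poly {lam θ τ e : ℝ} (hl : 0 ≤ lam) (h0 : 0 ≤ θ) (h1 : θ < 1) (t0 : 0 ≤ τ) (t1 : τ ≤ 1)
    {d : ℕ} {c : ℕ → ℝ} (hc : ∀ x ∈ Set.Icc (0 : ℝ) 1,
      |Real.log (1 + lam * x) - ∑ r ∈ range d, c r * x ^ r| ≤ e)
    {on : Finset (G × β)} {i : G × β} (hi : i ∉ on) :
    |FE H V θ τ ep (Free_U lam (insert i on)) - FE H V θ τ ep (Free_U lam on) -
      ∑ r ∈ range d, c r * EG H θ τ ep (Free_U lam on) r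
        fun (y : G → α → V) act σ => ∏ l, Xi H θ ep i y act (σ l)| ≤ e := by
  have he : 0 ≤ e := (abs_nonneg _).trans (hc 0 ⟨le_rfl, zero_le_one⟩)
  unfold FE LZ EG
  simp only [mul_expect, ← expect_sum_comm, ← expect_sub_distrib, ← E_const_mul, ← E_sum, ← E_sub]
  refine Free_EE t0 t1 he fun y a => ?_
  have g1 : Good lam (Free_U lam (insert i on)) := good_pres hl _
  have g0 : Good lam (Free_U lam on) := good_pres hl _
  have hw : ∀ σ, ind (i ∉ σ) * Wt H θ ep (Free_U lam (insert i on)) y a σ =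
      Wt H θ ep (Free_U lam on) y a σ := fun σ => by
    unfold Wt Free_U
    by_cases h : i ∈ σ
    · rw [ind_neg (not_not.2 h), ind_neg (q := σ ⊆ on) fun x => hi (x h)]; ring
    · rw [ind_pos h, subset_insert_iff_of_notMem h, one_mul]
  have key := log_var (w := Wt H θ ep (Free_U lam (insert i on)) y a) (g := Xi H θ ep i y a) hl i
    (Wt_nonneg h0 h1 ep g1 y a) (mul_pos g1.2.1 (aw_bd h0 h1 _ _ _ _).1)
    (fun σ => (Free_Xi h0 h1 i y a σ).1) fun σ h => by
      unfold Wt Free_U fug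
      rw [Free_aw θ i y a h, card_insert_of_notMem h,
        ind_congr (q := insert i σ ⊆ insert i on) (r := σ ⊆ insert i on) (by grind)]
      ring
  simp only [hw] at key
  simp only [gib_prod]
  have hZ := Wt_sum_pos (H := H) h0 h1 ep g0 y a
  refine (congrArg (fun x => |x - _|) key).trans_le (hc _ ⟨?_, ?_⟩)
  · exact div_nonneg (sum_nonneg fun σ _ =>
      mul_nonneg (Wt_nonneg h0 h1 ep g0 y a σ) (Free_Xi h0 h1 i y a σ).1) hZ.le
  · exact (div_le_one hZ).2 (sum_le_sum fun σ _ =>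
      mul_le_of_le_one_right (Wt_nonneg h0 h1 ep g0 y a σ) (Free_Xi h0 h1 i y a σ).2)

lemma Free_zeta {θ ρ c : ℝ} (h0 : 0 ≤ θ) (h1 : θ < 1) (r0 : 0 ≤ ρ) (r1 : ρ ≤ c) {r d : ℕ}
    (hr : r ≤ d) {w : Finset (Fin r) → Sym2 V → ℝ} (hw : ∀ S, Unit01 (w S)) (p : Sym2 V) :
    0 ≤ zeta H θ ρ w p ∧ zeta H θ ρ w p ≤ Real.exp (c * 2 ^ d) := by
  refine ⟨(Real.exp_pos _).le, Real.exp_le_exp.2 ((neg_le_abs _).trans ?_)⟩
  rw [abs_mul, abs_of_nonneg r0]
  refine mul_le_mul r1 ((abs_sum_le_sum_abs _ _).trans ?_) (abs_nonneg _) (r0.trans r1)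
  refine (sum_le_card_nsmul _ _ 1 fun S _ => ?_).trans ?_
  · rw [abs_mul, abs_mul, abs_mul, abs_pow, abs_neg, abs_one, one_pow, mul_one,
      abs_of_nonneg (ind_nonneg _), abs_of_nonneg (pow_nonneg h0 _),
      abs_of_nonneg (psi_unit H (hw S) p).1]
    exact mul_le_one₀ (mul_le_one₀ (ind_le_one _) (pow_nonneg h0 _) (pow_le_one₀ h0 h1.le))
      (psi_unit H (hw S) p).1 (psi_unit H (hw S) p).2
  · simp only [card_univ, Fintype.card_finset, Fintype.card_fin, nsmul_eq_mul, mul_one]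
    exact_mod_cast Nat.pow_le_pow_right two_pos hr

variable [Nonempty G] [Nonempty β] [Nonempty V]

lemma Free_max (hne : ∀ j, (ep j).1 ≠ (ep j).2) {Ω : Type} [Fintype Ω] (ζ : Ω → Sym2 V → ℝ)
    {B Z δ : ℝ} (hB : 0 < B) (hZ : 0 < Z) (hδ : 0 < δ) (hζ : ∀ ω p, 0 ≤ ζ ω p ∧ ζ ω p ≤ Z)
    (h : Real.log (2 * Fintype.card Ω) ≤ δ ^ 2 * Fintype.card G) {a : G × β → ℝ}
    (ha : ∀ i, |a i| ≤ B) : ∃ err : (G → α → V) → (G → Bool) → ℝ,
      𝔼 y, 𝔼 l, err y l ≤ 8 * δ * B * Z ∧ ∀ y l ω,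
        |∑ i, a i * (2 * ind (l i.1 = false) * ζ ω (sp ep y i))| ≤
          Fintype.card (G × β) * err y l + Z * |∑ i, a i| := by
  obtain ⟨err, -, h2, h3⟩ := Lay_max (fun (ω : Ω) (i : G × β) (z : (α → V) × Bool) =>
    a i * (2 * ind (z.2 = false) * ζ ω (sl ep z.1 i.2)) + B * (2 * Z)) (c := 4 * B * Z)
    (by positivity) hδ (fun ω i z => by
      clear * - α V z ζ ω β ep G i Z hζ B a ha hB h
      have t := Lay_mul (Lay_ind (z.2 = false)) (hζ ω (sl ep z.1 i.2))
      have u := abs_le.1 (ha i)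
      constructor <;> nlinarith only [hB, t, u, t.1, t.2, u.1, u.2]) h
  refine ⟨fun y l => err fun g => (y g, l g), ?_, fun y l ω => ?_⟩
  · rw [← ex_prod fun p : (G → α → V) × (G → Bool) => err fun g => (p.1 g, p.2 g)]
    refine le_of_eq_of_le ?_ (h2.trans_eq (by ring))
    exact Fintype.expect_equiv (Equiv.arrowProdEquivProdArrow G (fun _ => α → V)
      fun _ => Bool).symm _ _ fun _ => rfl
  · have hN : (0 : ℝ) < Fintype.card (G × β) := Nat.cast_pos.2 Fintype.card_pos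
    have hb : 2 * 𝔼 b : Bool, ind (b = false) = 1 := by simpa using Lay_one (L := Bool) false
    have h4 : ∀ i : G × β, 𝔼 z : (α → V) × Bool,
        (a i * (2 * ind (z.2 = false) * ζ ω (sl ep z.1 i.2)) + B * (2 * Z)) =
          a i * 𝔼 e, ord (ζ ω) e + B * (2 * Z) := fun i => by
      rw [expect_add_distrib, Fintype.expect_const, ← mul_expect, ex_prod]
      simp only [← expect_mul, ← mul_expect, hb, one_mul, sl, ex_ord (hne i.2)]
    have h5 := h3 (fun g => (y g, l g)) ω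
    simp only [h4, sum_add_distrib, ← sum_mul] at h5
    rw [← sub_div, abs_div, abs_of_pos hN, div_le_iff₀ hN, add_sub_add_right_eq_sub] at h5
    have h6 : |(∑ i, a i) * 𝔼 e, ord (ζ ω) e| ≤ Z * |∑ i, a i| := by
      rw [abs_mul, mul_comm]
      refine mul_le_mul_of_nonneg_right ((ex_abs _).trans (ex_le hZ.le fun e => ?_)) (abs_nonneg _)
      exact (abs_of_nonneg (hζ ω _).1).trans_le (hζ ω _).2
    have h7 := abs_sub_abs_le_abs_sub
      (∑ i, a i * (2 * ind (l i.1 = false) * ζ ω (sp ep y i))) ((∑ i, a i) * 𝔼 e, ord (ζ ω) e)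
    simp only [sp] at h7 ⊢
    linarith

lemma Free_main (hne : ∀ j, (ep j).1 ≠ (ep j).2) {lam θ τ ρ c B δ : ℝ} (h0 : 0 ≤ θ) (h1 : θ < 1)
    (t0 : 0 ≤ τ) (t1 : τ ≤ 1) (r0 : 0 ≤ ρ) (r1 : ρ ≤ c) (hB : 0 < B) (hδ : 0 < δ) {r d m : ℕ}
    (hr : r ≤ d) (h : Real.log (2 * Fintype.card (Finset (Fin r) → CI V m)) ≤
      δ ^ 2 * Fintype.card G) {U : Finset (G × β) → ℝ} (hU : Good lam U) {a : G × β → ℝ}
    (ha : ∀ i, |a i| ≤ B) :
    |∑ i, a i * EG H θ τ ep U r fun (y : G → α → V) _ σ => 𝔼 l : G → Bool,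
      2 * ind (l i.1 = false) * zeta H θ ρ (fun S => wl m ep y l (S.inf σ)) (sp ep y i)| ≤
      Real.exp (c * 2 ^ d) * (Fintype.card (G × β) * (8 * δ * B) + |∑ i, a i|) := by
  obtain ⟨err, h2, h3⟩ := Free_max hne
    (fun ω : Finset (Fin r) → CI V m => zeta H θ ρ fun S => ck m (ω S)) hB (Real.exp_pos _) hδ
    (fun ω p => Free_zeta h0 h1 r0 r1 hr (fun S => ck_unit m _) p) h ha
  simp only [← EG_mul]
  rw [← EG_sum]
  refine (EG_abs h0 h1 t0 t1 hU).trans ((EG_mono h0 h1 t0 t1 hU (F2 := fun y _ _ =>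
    𝔼 l, (Fintype.card (G × β) * err y l + Real.exp (c * 2 ^ d) * |∑ i, a i|))
      fun y _ σ _ => ?_).trans ?_)
  · simp only [mul_expect, ← expect_sum_comm]
    exact (ex_abs _).trans (ex_mono fun l => h3 y l fun S => best m _)
  · rw [EG_pos h0 h1 hU]
    simp only [expect_add_distrib, Fintype.expect_const, ← mul_expect]
    nlinarith only [h2, mul_le_mul_of_nonneg_left h2 (Nat.cast_nonneg (α := ℝ) (Fintype.card (G × β)))]

lemma Free_pt (hne : ∀ j, (ep j).1 ≠ (ep j).2) {lam θ τ ρ c0 B δ e1 e2 : ℝ} (hl : 0 ≤ lam)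
    (h0 : 0 ≤ θ) (h1 : θ < 1) (t0 : 0 ≤ τ) (t1 : τ ≤ 1) (r0 : 0 ≤ ρ) (r1 : ρ ≤ c0) (hB : 0 < B)
    (hδ : 0 < δ) {d m : ℕ} {c : ℕ → ℝ} (hc : ∀ x ∈ Set.Icc (0 : ℝ) 1,
      |Real.log (1 + lam * x) - ∑ r ∈ range d, c r * x ^ r| ≤ e1)
    (h : ∀ r ∈ range d, Real.log (2 * Fintype.card (Finset (Fin r) → CI V m)) ≤
      δ ^ 2 * Fintype.card G)
    (hloc : ∀ r ∈ range d, ∀ (U : Finset (G × β) → ℝ) (i0 : G × β), Good lam U →
      (∀ σ, i0 ∈ σ → U σ = 0) →
      |EG H θ τ ep U r (fun (y : G → α → V) act σ => ∏ l, Xi H θ ep i0 y act (σ l)) -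
        EG H θ τ ep U r fun (y : G → α → V) _ σ => 𝔼 l : G → Bool, 2 * ind (l i0.1 = false) *
          zeta H θ ρ (fun S => wl m ep y l (S.inf σ)) (sp ep y i0)| ≤ e2)
    (on : Finset (G × β)) (a : G × β → ℝ) (ha : ∀ i, |a i| ≤ B) (ha0 : ∀ i ∈ on, a i = 0) :
    |∑ i, a i * (FE H V θ τ ep (Free_U lam (insert i on)) - FE H V θ τ ep (Free_U lam on))| ≤
      Fintype.card (G × β) * B * (e1 + (∑ r ∈ range d, |c r|) *
        (e2 + Real.exp (c0 * 2 ^ d) * (8 * δ))) +
      (∑ r ∈ range d, |c r|) * Real.exp (c0 * 2 ^ d) * |∑ i, a i| := by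
  have g0 : Good lam (Free_U lam on) := good_pres hl _
  set T : ℕ → G × β → ℝ := fun r i => EG H θ τ ep (Free_U lam on) r
    fun (y : G → α → V) _ σ => 𝔼 l : G → Bool, 2 * ind (l i.1 = false) *
      zeta H θ ρ (fun S => wl m ep y l (S.inf σ)) (sp ep y i) with hT
  set g : G × β → ℝ := fun i =>
    FE H V θ τ ep (Free_U lam (insert i on)) - FE H V θ τ ep (Free_U lam on) with hg
  have k1 : ∀ i ∉ on, |g i - ∑ r ∈ range d, c r * T r i| ≤ e1 + (∑ r ∈ range d, |c r|) * e2 :=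
    fun i hi => by
      refine (abs_sub_le _ _ _).trans (add_le_add (Free_poly hl h0 h1 t0 t1 hc hi) ?_)
      rw [← sum_sub_distrib, sum_mul]
      refine (abs_sum_le_sum_abs _ _).trans (sum_le_sum fun r hr => ?_)
      rw [← mul_sub, abs_mul]
      refine mul_le_mul_of_nonneg_left (hloc r hr _ i g0 fun σ hσ => ?_) (abs_nonneg _)
      rw [Free_U, ind_neg fun x => hi (x hσ), mul_zero]
  have he : 0 ≤ e1 + (∑ r ∈ range d, |c r|) * e2 := by
    have : 0 ≤ e1 := (abs_nonneg _).trans (hc 0 ⟨le_rfl, zero_le_one⟩)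
    rw [sum_mul]
    refine add_nonneg this (sum_nonneg fun r hr => mul_nonneg (abs_nonneg _) ?_)
    exact (abs_nonneg _).trans (hloc r hr _ (Classical.arbitrary _) (good_pres hl ∅) fun σ hσ => by
      rw [ind_neg fun x => notMem_empty _ (x hσ), mul_zero])
  have k2 : |∑ i, a i * (g i - ∑ r ∈ range d, c r * T r i)| ≤
      Fintype.card (G × β) * (B * (e1 + (∑ r ∈ range d, |c r|) * e2)) := by
    refine (abs_sum_le_sum_abs _ _).trans ?_
    rw [← card_univ, ← nsmul_eq_mul]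
    refine sum_le_card_nsmul _ _ _ fun i _ => ?_
    by_cases hi : i ∈ on
    · rw [ha0 i hi, zero_mul, abs_zero]; positivity
    · rw [abs_mul]
      exact mul_le_mul (ha i) (k1 i hi) (abs_nonneg _) hB.le
  have k3 : |∑ r ∈ range d, c r * ∑ i, a i * T r i| ≤ (∑ r ∈ range d, |c r|) *
      (Real.exp (c0 * 2 ^ d) * (Fintype.card (G × β) * (8 * δ * B) + |∑ i, a i|)) := by
    rw [sum_mul]
    refine (abs_sum_le_sum_abs _ _).trans (sum_le_sum fun r hr => ?_)
    rw [abs_mul]
    exact mul_le_mul_of_nonneg_left (Free_main hne h0 h1 t0 t1 r0 r1 hB hδ (mem_range.1 hr).le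
      (h r hr) g0 ha) (abs_nonneg _)
  have k4 : ∑ i, a i * g i = ∑ i, a i * (g i - ∑ r ∈ range d, c r * T r i) +
      ∑ r ∈ range d, c r * ∑ i, a i * T r i := by
    simp only [mul_sub, sum_sub_distrib, mul_sum]
    rw [sum_comm (s := range d)]
    simp only [mul_left_comm, sub_add_cancel]
  refine (congrArg abs k4).trans_le ((abs_add_le _ _).trans ((add_le_add k2 k3).trans_eq ?_))
  ring

end fin

lemma Free_card {V : Type} [Fintype V] [DecidableEq V] (r m : ℕ) :
    Real.log (2 * Fintype.card (Finset (Fin r) → CI V m)) ≤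
      2 ^ r * (4 * m ^ 2 + 3) * ((Fintype.card V : ℝ) + 1) := by
  have h := card_CI (V := V) m
  have hp : (1 : ℝ) ≤ Fintype.card (CI V m) := Nat.one_le_cast.2 Fintype.card_pos
  rw [Fintype.card_fun, Fintype.card_finset, Fintype.card_fin, mul_assoc]
  push_cast
  refine le_trans ?_ (mul_le_mul_of_nonneg_left h (by positivity))
  rw [show (2 : ℝ) ^ r = (2 ^ r : ℕ) by norm_cast, ← Real.log_pow]
  refine Real.log_le_log (by positivity) ?_
  rw [mul_pow]
  gcongr
  exact le_self_pow₀ (by norm_num) (by positivity)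

lemma Free_reg (R : Reg H ep n M τ) : Reg H (epS ep) n M τ := by
  have := R.nb
  refine R.change (fun j => ?_) (R.sm.imp_left fun h j k e => ?_) (.of_forall fun j => ?_)
  · rcases j with j | j <;> simp [epS, R.ne]
  · rcases j with j | j <;> rcases k with k | k <;> simp only [epS, Sum.elim_inl, Sum.elim_inr,
      Sym2.eq_iff, Sum.inl.injEq, Sum.inr.injEq, Prod.mk.injEq, reduceCtorEq] at e ⊢
    · exact h (Sym2.eq_iff.2 e)
    all_goals tauto
  · rw [Fintype.card_sum]
    constructor <;> nlinarith only [Nat.zero_le (M j * Fintype.card β)]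

theorem free (R : Reg H ep n M τ) {lam θ ε : ℝ} (hl : 0 ≤ lam) (h0 : 0 ≤ θ) (h1 : θ < 1)
    (hε : 0 < ε) : ∀ᶠ j in atTop,
    |FE H (Fin (n j)) θ (τ j) ep (fug lam : Finset (Fin (M j) × β) → ℝ) -
      FE H (Fin (n j)) θ (τ j) (epM β) (fug lam : Finset (Fin (M j) × β) → ℝ)| ≤
      ε * (M j * Fintype.card β : ℕ) := by
  have := R.nb
  have R2 := Free_reg R
  obtain ⟨c0, -, hrate⟩ := R2.rate_bd
  have hL0 : 0 ≤ Real.log (1 + lam) := Real.log_nonneg (by linarith)
  obtain ⟨η1, η10, hη1⟩ := exists_pos_mul_lt (show 0 < ε / 8 by positivity) (Real.log (1 + lam))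
  obtain ⟨η, η0, η2, hη⟩ : ∃ η : ℝ, 0 < η ∧ η ≤ 1 / 2 ∧ η * Real.log (1 + lam) ≤ ε / 8 :=
    ⟨min η1 (1 / 2), by positivity, min_le_right _ _,
      (mul_le_mul_of_nonneg_right (min_le_left _ _) hL0).trans ((mul_comm _ _).trans_le hη1.le)⟩
  have hs : 0 < ε * η / 16 := by positivity
  obtain ⟨d, c, hc⟩ := poly_approx (fun x => Real.log (1 + lam * x)) 0 1
    (ContinuousOn.log (by fun_prop) fun x hx => by nlinarith only [η0, η2, hl, mul_nonneg hl hx.1]) hs
  set C := ∑ r ∈ range (d + 1), |c r| with hC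
  set Z := Real.exp (c0 * 2 ^ (d + 1)) with hZ
  have hK : 0 ≤ C * Z := by positivity
  obtain ⟨e2, e20, he2⟩ := exists_pos_mul_lt hs C
  obtain ⟨δ, δ0, hδ⟩ := exists_pos_mul_lt hs (C * Z * 8)
  obtain ⟨m, hm⟩ := ((eventually_all_finset (range (d + 1))).2 fun r _ =>
    free_loc R2 r hl h0 h1 e20).exists
  filter_upwards [(eventually_all_finset (range (d + 1))).2 hm, hrate, R.t01, R.pos,
    (eventually_all_finset (range (d + 1))).2 fun r _ =>
      R.lin (2 ^ r * (4 * m ^ 2 + 3)) (pow_pos δ0 2),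
    (RegK_cast R.top).eventually_ge_atTop ((C * Z / (ε * η / 16)) ^ 2)] with j hloc hr ht hp hlin
      hbig
  have : Nonempty (Fin (n j)) := ⟨⟨0, hp.1⟩⟩
  have : Nonempty (Fin (M j)) := ⟨⟨0, hp.1.trans_le hp.2⟩⟩
  have key := Free_abs (fun on => FE H (Fin (n j)) θ (τ j) (epS ep) (Free_U lam on))
    (A := univ.filter fun i : Fin (M j) × (β ⊕ β) => i.2 ∈ univ.map Function.Embedding.inl)
    (B := univ.filter fun i => i.2 ∈ univ.map Function.Embedding.inr)
    (L := Real.log (1 + lam)) (by rintro ⟨g, b | b⟩ <;> simp)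
    (card_nbij' (fun i => (i.1, i.2.swap)) (fun i => (i.1, i.2.swap))
      (by rintro ⟨g, b | b⟩ <;> simp) (by rintro ⟨g, b | b⟩ <;> simp) (by simp [Set.LeftInvOn])
      (by simp [Set.RightInvOn, Set.LeftInvOn])) η0 η2 hK
    (fun ω i hi => by
      clear * - M j α β W H n θ τ ep lam i ω c hl h0 h1 ht η η0 η2 hi d this
      have := Free_poly (H := H) (V := Fin (n j)) (ep := epS ep) hl h0 h1 ht.1 ht.2 (d := 0)
        (c := c) (e := Real.log (1 + lam)) (fun x hx => by
          have := mul_nonneg hl hx.1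
          rw [range_zero, sum_empty, sub_zero, abs_of_nonneg (Real.log_nonneg (by linarith only [this]))]
          exact Real.log_le_log (by linarith only [η0, η2, this]) (by nlinarith only [hl, hx.2])) hi
      rwa [range_zero, sum_empty, sub_zero] at this)
    (Free_pt R2.ne hl h0 h1 ht.1 ht.2 hr.1 hr.2 (one_div_pos.2 η0) δ0 hc
      (fun r hr => (Free_card r m).trans (by simpa using hlin r hr)) hloc)
  unfold Free_U at key
  rw [fe_sub θ (τ j) lam (epS ep) ep Function.Embedding.inl _ fun _ => rfl,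
    fe_sub θ (τ j) lam (epS ep) (epM β) Function.Embedding.inr _ fun _ => rfl, ← hC, ← hZ] at key
  refine key.trans ?_
  have hN : (Fintype.card (Fin (M j) × (β ⊕ β)) : ℝ) = 2 * (M j * Fintype.card β : ℕ) := by
    simp only [Fintype.card_prod, Fintype.card_fin, Fintype.card_sum]
    push_cast
    ring
  rw [hN]
  have hMN : (M j : ℝ) ≤ 2 * (M j * Fintype.card β : ℕ) := by
    push_cast
    nlinarith only [RegK_b R, Nat.cast_nonneg (α := ℝ) (M j)]
  generalize ((M j * Fintype.card β : ℕ) : ℝ) = N at hMN ⊢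
  have hN0 : 0 ≤ 2 * N := (Nat.cast_nonneg _).trans hMN
  have b1 : C * Z ≤ ε * η / 16 * Real.sqrt (2 * N) := by
    rw [← div_le_iff₀' hs]
    exact Real.le_sqrt_of_sq_le (hbig.trans hMN)
  have b2 : C * Z * (Real.sqrt (2 * N) / η) ≤ ε / 16 * (2 * N) := by
    clear * - C Z N η ε η0 b1 η2 hs hN0
    rw [← mul_div_assoc, div_le_iff₀ η0]
    nlinarith only [b1, η0, η2, hs, hN0, mul_le_mul_of_nonneg_right b1 (Real.sqrt_nonneg (2 * N)), Real.mul_self_sqrt hN0]
  have b3 : 2 * N * (1 / η) * (ε * η / 16 + C * (e2 + Z * (8 * δ))) ≤ 3 * ε / 16 * (2 * N) := by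
    clear * - N η ε η0 hε C e2 Z δ he2 hδ hN0 this
    have : 2 * N * (1 / η) * (3 * (ε * η / 16)) = 3 * ε / 16 * (2 * N) := by field_simp
    rw [← this]
    exact mul_le_mul_of_nonneg_left (by linarith only [he2, hδ]) (by positivity)
  clear * - η N lam ε C e2 Z δ b2 b3 hη hN0
  nlinarith only [b2, b3, hη, hN0, mul_le_mul_of_nonneg_right hη hN0]

end Pool.Agent.Work.MP_d4a230_co.U
end

-- merged part: Pool.Agent.Work.MP_d4a230_co.U.LF1
section
/-!
Derivative of the Laplace functional in one coefficient.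
PLAN. Fix a small h <= h0. Apply lf (Ω = Unit, D = 1, bound η0 + 1, accuracy ε h / 8) to η and to
η2 = η + h at the entry (b0, s0). Then mrk η2 C = mrk η C + h * m1 C with
m1 C = ind (Acd C ∧ (g,b0) ∈ C ∧ C.erase (g,b0) ⊆ T s0), and inten η2 = inten η + h psi (w s0). Use
prod_fd (the sum of τ h m1 is at most h XT; xt_pow with m = 2 and ex_update) and exp_fd (the rate and
inten are bounded).
-/

namespace Pool.Agent.Work.MP_d4a230_co.U

open Finset Filter Topology Pool.Agent.Work.MP_07f1b5_pr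
open scoped BigOperators

variable {α β : Type} [Fintype α] [DecidableEq α] [Fintype β] [DecidableEq β]
  {W : Type} [Fintype W] [DecidableEq W] {H : SimpleGraph W} [DecidableRel H.Adj]
  {ep : β → α × α} {n M : ℕ → ℕ} {τ : ℕ → ℝ}

lemma LF1_one {S : Type} [Fintype S] (s0 : S) (F : S → ℝ) : ∑ s, ind (s = s0) * F s = F s0 := by
  rw [sum_eq_single s0 (fun s _ h => by rw [ind_neg h, zero_mul]) (by simp), ind_pos rfl, one_mul]

lemma LF1_sum {S : Type} [Fintype S] (s0 : S) (u F : S → ℝ) (h : ℝ) :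
    ∑ s, (u s + h * ind (s = s0)) * F s = ∑ s, u s * F s + h * F s0 := by
  simp only [add_mul, sum_add_distrib, mul_assoc, ← mul_sum, LF1_one]

section aux

variable {V G S : Type} [Fintype V] [DecidableEq V] [Fintype G] [DecidableEq G] [Fintype S]

lemma LF1_mrk (g : G) {η : β → S → ℝ} {T : S → Finset (G × β)}
    (h : ∀ b (C : Finset (G × β)), 0 ≤ ∑ s, η b s * ind (C ⊆ T s) ∧
      ∑ s, η b s * ind (C ⊆ T s) ≤ 1) (y : G → α → V) (C : Finset (G × β)) :
    0 ≤ mrk H ep g η T y C ∧ mrk H ep g η T y C ≤ 1 := by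
  refine ⟨mul_nonneg (ind_nonneg _) (sum_nonneg fun b _ => mul_nonneg (ind_nonneg _) (h _ _).1), ?_⟩
  unfold mrk
  by_cases hA : Acd H (sp ep y) Prod.fst C
  swap
  · rw [ind_neg hA, zero_mul]
    exact zero_le_one
  rw [ind_pos hA, one_mul]
  by_cases hb : ∃ b, (g, b) ∈ C
  · obtain ⟨b, hb⟩ := hb
    rw [sum_eq_single b (fun b' _ e => by
      rw [ind_neg fun hb' : (g, b') ∈ C => e (Prod.ext_iff.1 (hA.2.2 hb' hb rfl)).2, zero_mul]) (by simp),
      ind_pos hb, one_mul]
    exact (h _ _).2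
  · rw [sum_eq_zero fun b _ => by rw [ind_neg fun hb' => hb ⟨b, hb'⟩, zero_mul]]
    exact zero_le_one

lemma LF1_mrk2 (g : G) (η : β → S → ℝ) (T : S → Finset (G × β)) (y : G → α → V)
    (C : Finset (G × β)) (h : ℝ) (b0 : β) (s0 : S) :
    mrk H ep g (fun b s => η b s + h * ind (b = b0) * ind (s = s0)) T y C = mrk H ep g η T y C +
      h * ind (Acd H (sp ep y) Prod.fst C ∧ (g, b0) ∈ C ∧ C.erase (g, b0) ⊆ T s0) := by
  simp only [mrk, LF1_sum, mul_add, sum_add_distrib]
  rw [ind_and, ind_and, ← LF1_one b0 fun b => ind ((g, b) ∈ C) * ind (C.erase (g, b) ⊆ T s0),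
    mul_left_comm h, mul_sum _ _ h]
  congr 2
  exact sum_congr rfl fun b _ => by ring

lemma LF1_int (η : β → S → ℝ) (w : S → Sym2 V → ℝ) (z : α → V) (h : ℝ) (b0 : β) (s0 : S) :
    inten H ep (fun b s => η b s + h * ind (b = b0) * ind (s = s0)) w z =
      inten H ep η w z + h * psi H (w s0) (sl ep z b0) := by
  simp only [inten, LF1_sum, sum_add_distrib]
  simp only [mul_assoc, ← mul_sum]
  rw [LF1_one b0 fun b => psi H (w s0) (sl ep z b)]

lemma LF1_bd {η : β → S → ℝ} {η0 : ℝ} (h : ∀ b s, |η b s| ≤ η0) {w : S → Sym2 V → ℝ}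
    (hw : ∀ s, Unit01 (w s)) (z : α → V) :
    |inten H ep η w z| ≤ Fintype.card β * (Fintype.card S * η0) := by
  rw [← nsmul_eq_mul, ← nsmul_eq_mul, ← card_univ, ← card_univ, ← sum_const, ← sum_const]
  refine (abs_sum_le_sum_abs _ _).trans (sum_le_sum fun b _ =>
    (abs_sum_le_sum_abs _ _).trans (sum_le_sum fun s _ => ?_))
  have := psi_unit H (hw s) (sl ep z b)
  rw [abs_mul, abs_of_nonneg this.1]
  exact (mul_le_of_le_one_right (abs_nonneg _) this.2).trans (h b s)

end aux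

theorem lf1 (R : Reg H ep n M τ) (S : Type) [Fintype S] (η0 : ℝ) {h0 ε : ℝ} (hh : 0 < h0)
    (hε : 0 < ε) : ∃ γ : ℝ, 0 < γ ∧ ∀ᶠ j in atTop, ∀ g : Fin (M j),
      ∃ err : (Fin (M j) → α → Fin (n j)) → ℝ, (∀ y, 0 ≤ err y) ∧ 𝔼 y, err y ≤ ε ∧
        ∀ y (η : β → S → ℝ) (T : S → Finset (Fin (M j) × β)) (w : S → Sym2 (Fin (n j)) → ℝ)
          (b0 : β) (s0 : S), (∀ b s, |η b s| ≤ η0) →
          (∀ b (C : Finset (Fin (M j) × β)), 0 ≤ ∑ s, η b s * ind (C ⊆ T s) ∧
            ∑ s, η b s * ind (C ⊆ T s) ≤ 1 - h0) →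
          (∀ s, ∀ i ∈ T s, i.1 ≠ g) → (∀ s, Unit01 (w s)) →
          (∀ s, cut (fun e => den (sp ep y) (T s) e - ord (w s) e) ≤ γ) →
          |𝔼 z, ((∑ C : Finset (Fin (M j) × β), τ j *
              ind (Acd H (sp ep (Function.update y g z)) Prod.fst C ∧ (g, b0) ∈ C ∧
                C.erase (g, b0) ⊆ T s0) *
              ∏ C2 ∈ univ.erase C, (1 - τ j * mrk H ep g η T (Function.update y g z) C2)) -
            rate H (n j) (M j * Fintype.card β) (τ j) * psi H (w s0) (sl ep z b0) *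
              Real.exp (-(rate H (n j) (M j * Fintype.card β) (τ j) * inten H ep η w z)))| ≤
            err y := by
  obtain ⟨c, c0, hc⟩ := R.rate_bd
  obtain ⟨K, K0, hK⟩ := xt_pow R 2
  obtain ⟨k, hk⟩ : ∃ k, k = c ^ 2 * Real.exp (c * (Fintype.card β * (Fintype.card S * η0))) :=
    ⟨_, rfl⟩
  have k0 : 0 ≤ k := by
    rw [hk]
    positivity
  obtain ⟨h, p0, p1, p2, p3, p4⟩ : ∃ h : ℝ, 0 < h ∧ h ≤ h0 ∧ h ≤ 1 ∧ h ≤ 1 / (c + 1) ∧
      h ≤ ε / (2 * (K + k + 1)) :=
    ⟨min (min h0 1) (min (1 / (c + 1)) (ε / (2 * (K + k + 1)))), by positivity,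
      (min_le_left _ _).trans (min_le_left _ _), (min_le_left _ _).trans (min_le_right _ _),
      (min_le_right _ _).trans (min_le_left _ _), (min_le_right _ _).trans (min_le_right _ _)⟩
  rw [le_div_iff₀ (by positivity)] at p3 p4
  obtain ⟨γ, γ0, hγ⟩ := lf R S (η0 + 1) (ε := ε * h / 4) (by positivity)
  refine ⟨γ, γ0, ?_⟩
  filter_upwards [hγ 0, hc, hK, R.t01] with j j1 j2 j3 j4 g
  obtain ⟨err, e0, e1, e2⟩ := j1 g Unit (fun _ _ => 1) (by simp) fun _ => Cut_unit
  refine ⟨fun y => 2 / h * err y +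
    h * 𝔼 z, (XT H (τ j) ep g (Function.update y g z) ^ 2 + k), fun y => ?_, ?_, ?_⟩
  · exact add_nonneg (mul_nonneg (by positivity) (e0 y))
      (mul_nonneg p0.le (expect_nonneg fun _ _ => by positivity))
  · rw [expect_add_distrib, ← mul_expect, ← mul_expect,
      ← ex_update g fun y => XT H (τ j) ep g y ^ 2 + k, expect_add_distrib]
    have a1 := ex_le (X := Fin (M j) → α → Fin (n j)) (f := fun _ => k) k0 fun _ => le_rfl
    have a2 : 2 / h * 𝔼 y, err y ≤ ε / 2 :=
      (mul_le_mul_of_nonneg_left e1 (by positivity)).trans_eq (by field_simp; norm_num)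
    clear * - h M j α n err β W H τ ep g k ε K p0 p4 a2 j3 a1
    nlinarith only [p0, p4, a2, a1, mul_le_mul_of_nonneg_left (add_le_add (j3 g) a1) p0.le]
  intro y η T w b0 s0 q1 q2 q3 q4 q5
  have q6 : ∀ b (C : Finset (Fin (M j) × β)), 0 ≤ ∑ s, η b s * ind (C ⊆ T s) ∧
      ∑ s, η b s * ind (C ⊆ T s) ≤ 1 := fun b C => ⟨(q2 b C).1, by linarith [(q2 b C).2]⟩
  have u1 : ∀ p q : Prop, 0 ≤ h * ind p * ind q ∧ h * ind p * ind q ≤ h := fun p q =>
    ⟨mul_nonneg (mul_nonneg p0.le (ind_nonneg _)) (ind_nonneg _), by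
      rw [mul_assoc, ← ind_and]
      exact mul_le_of_le_one_right p0.le (ind_le_one _)⟩
  have q7 : ∀ b (C : Finset (Fin (M j) × β)),
      0 ≤ ∑ s, (η b s + h * ind (b = b0) * ind (s = s0)) * ind (C ⊆ T s) ∧
      ∑ s, (η b s + h * ind (b = b0) * ind (s = s0)) * ind (C ⊆ T s) ≤ 1 := fun b C => by
    rw [LF1_sum]
    have := u1 (b = b0) (C ⊆ T s0)
    constructor <;> linarith only [this, p1, q2 b C]
  have f1 := e2 y () η T w (fun b s => by linarith [q1 b s]) q6 q3 q4 q5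
  have f2 := e2 y () (fun b s => η b s + h * ind (b = b0) * ind (s = s0)) T w (fun b s => by
    have := u1 (b = b0) (s = s0)
    exact (abs_add_le _ _).trans (add_le_add (q1 b s) (by rw [abs_of_nonneg this.1]; linarith)))
    q7 q3 q4 q5
  simp only [one_mul] at f1 f2
  generalize rate H (n j) (M j * Fintype.card β) (τ j) = ρ at *
  have key : ∀ z, |(∏ C, (1 - τ j * mrk H ep g (fun b s => η b s + h * ind (b = b0) * ind (s = s0))
      T (Function.update y g z) C) - Real.exp (-(ρ * inten H ep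
        (fun b s => η b s + h * ind (b = b0) * ind (s = s0)) w z))) -
      (∏ C, (1 - τ j * mrk H ep g η T (Function.update y g z) C) -
        Real.exp (-(ρ * inten H ep η w z))) + h * ((∑ C : Finset (Fin (M j) × β), τ j *
          ind (Acd H (sp ep (Function.update y g z)) Prod.fst C ∧ (g, b0) ∈ C ∧
            C.erase (g, b0) ⊆ T s0) *
          ∏ C2 ∈ univ.erase C, (1 - τ j * mrk H ep g η T (Function.update y g z) C2)) -
        ρ * psi H (w s0) (sl ep z b0) * Real.exp (-(ρ * inten H ep η w z)))| ≤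
      h ^ 2 * (XT H (τ j) ep g (Function.update y g z) ^ 2 + k) := fun z => by
    clear * - M j β τ n α W H S ep g η T y z h b0 s0 j4 q6 p0 q7 w q4 ρ c j2 η0 q1 c0 p3 k hk
    generalize Function.update y g z = x
    have g1 := prod_fd (fun C => τ j * mrk H ep g η T x C)
      (fun C => h * (τ j * ind (Acd H (sp ep x) Prod.fst C ∧ (g, b0) ∈ C ∧ C.erase (g, b0) ⊆ T s0)))
      (fun C => mul_nonneg j4.1 (LF1_mrk g q6 x C).1)
      (fun C => mul_nonneg p0.le (mul_nonneg j4.1 (ind_nonneg _))) fun C => by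
        rw [mul_left_comm h, ← mul_add, ← LF1_mrk2]
        exact mul_le_one₀ j4.2 (LF1_mrk g q7 x C).1 (LF1_mrk g q7 x C).2
    have g2 : (∑ C, h * (τ j * ind (Acd H (sp ep x) Prod.fst C ∧ (g, b0) ∈ C ∧
        C.erase (g, b0) ⊆ T s0))) ^ 2 ≤ (h * XT H (τ j) ep g x) ^ 2 := by
      refine pow_le_pow_left₀ (sum_nonneg fun C _ =>
        mul_nonneg p0.le (mul_nonneg j4.1 (ind_nonneg _))) ?_ 2
      rw [← mul_sum]
      exact mul_le_mul_of_nonneg_left (sum_le_sum fun C _ => mul_le_mul_of_nonneg_left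
        (ind_mono fun e => ⟨e.1, b0, e.2.1⟩) j4.1) p0.le
    replace g1 := g1.trans g2
    have g3 := psi_unit H (q4 s0) (sl ep z b0)
    have g4 : 0 ≤ h * (ρ * psi H (w s0) (sl ep z b0)) := mul_nonneg p0.le (mul_nonneg j2.1 g3.1)
    have g5 : h * (ρ * psi H (w s0) (sl ep z b0)) ≤ h * c :=
      mul_le_mul_of_nonneg_left ((mul_le_of_le_one_right j2.1 g3.2).trans j2.2) p0.le
    have g6 := exp_fd (x := ρ * inten H ep η w z) (h := h * (ρ * psi H (w s0) (sl ep z b0)))
      (X := c * (Fintype.card β * (Fintype.card S * η0)))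
      (by
        rw [abs_mul, abs_of_nonneg j2.1]
        exact mul_le_mul j2.2 (LF1_bd q1 q4 z) (abs_nonneg _) c0)
      (by
        rw [abs_of_nonneg g4]
        linarith)
    have g7 := g6.trans (mul_le_mul_of_nonneg_right (pow_le_pow_left₀ g4 g5 2) (Real.exp_pos _).le)
    rw [mul_pow, mul_assoc (h ^ 2), ← hk] at g7
    simp only [LF1_mrk2, LF1_int, mul_add, mul_left_comm (τ j) h, mul_left_comm ρ h]
    simp only [mul_assoc h, ← mul_sum] at g1 g7
    rw [abs_le] at g1 g7 ⊢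
    constructor <;> linarith only [g1, g7, g1.1, g1.2, g7.1, g7.2, mul_pow h (XT H (τ j) ep g x) 2]
  have k1 := (ex_abs _).trans (ex_mono key)
  rw [expect_add_distrib, expect_sub_distrib, ← mul_expect, ← mul_expect] at k1
  refine le_of_mul_le_mul_left ?_ p0
  rw [← abs_of_pos p0, ← abs_mul, abs_of_pos p0, mul_add, ← mul_assoc, ← mul_assoc,
    mul_div_cancel₀ _ p0.ne', ← sq]
  rw [abs_le] at f1 f2 k1 ⊢
  constructor <;> linarith only [f1, f2, k1, f1.1, f1.2, f2.1, f2.2, k1.1, k1.2]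

end Pool.Agent.Work.MP_d4a230_co.U
end
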