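import Pool.Agent.Work.MP_d4a230_co.HDefs

namespace Pool.Agent.Work.MP_d4a230_co

open Classical in
/-- The homomorphism density `t(H, w)` of `H` in a symmetric weight function `w` on the pairs of
an `m`-element set: the average over all maps `x : V(H) → [m]` of the product of the weights of
the images of the edges. -/
noncomputable def homDensity {W : Type} [Fintype W] (H : SimpleGraph W) (m : ℕ)
    (w : Sym2 (Fin m) → ℝ) : ℝ :=
  (∑ x : W → Fin m, ∏ f ∈ H.edgeFinset, w (f.map x)) / (m : ℝ) ^ Fintype.card W

/-- `t(H, ·)` is convex on nonnegative symmetric weight functions on every finite set. -/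
def ConvexDensity {W : Type} [Fintype W] (H : SimpleGraph W) : Prop :=
  ∀ m : ℕ, ConvexOn ℝ {w : Sym2 (Fin m) → ℝ | ∀ e, 0 ≤ w e} (homDensity H m)

/-- The independence number of a hypergraph `ω` on `[N]`: the largest size of a vertex set that
contains no hyperedge. -/
noncomputable def indepNum {N : ℕ} (ω : Finset (Finset (Fin N))) : ℕ :=
  sSup {a : ℕ | ∃ σ : Finset (Fin N), σ.card = a ∧ ∀ C ∈ ω, ¬ C ⊆ σ}

/-- The expected independence number of the binomial random `k`-uniform hypergraph on `[N]`, in
which each `k`-set is a hyperedge independently with probability `q`. -/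
noncomputable def meanIndep (k N : ℕ) (q : ℝ) : ℝ :=
  ∑ ω ∈ (Finset.powersetCard k (Finset.univ : Finset (Fin N))).powerset,
    q ^ ω.card * (1 - q) ^ (N.choose k - ω.card) * (indepNum ω : ℝ)

end Pool.Agent.Work.MP_d4a230_co
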